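import Pool.Agent.H58.BJ.COk

/-! # Certificate data (6 jets, exponent 28/25) -/

set_option autoImplicit false

namespace Pool.Agent.H58.BJ.D6

open Pool.Agent.H58.BJ

/-- the `r_n` -/
noncomputable def RS : List Pol := [[(nat_lit 2, .negSucc (nat_lit 3))], [(nat_lit 3, .negSucc
 (nat_lit 11)), (nat_lit 4, .ofNat (nat_lit 2))], [(nat_lit 5, .negSucc (nat_lit 23)), (nat_lit 6,
 .ofNat (nat_lit 0)), (nat_lit 8, .negSucc (nat_lit 3))], [(nat_lit 7, .negSucc (nat_lit 39)),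
 (nat_lit 9, .negSucc (nat_lit 11)), (nat_lit 10, .negSucc (nat_lit 7)), (nat_lit 12, .negSucc
 (nat_lit 23)), (nat_lit 16, .ofNat (nat_lit 2))], [(nat_lit 11, .negSucc (nat_lit 59)), (nat_lit
 14, .negSucc (nat_lit 19)), (nat_lit 15, .negSucc (nat_lit 59)), (nat_lit 18, .negSucc (nat_lit
 59)), (nat_lit 20, .negSucc (nat_lit 39)), (nat_lit 24, .ofNat (nat_lit 0)), (nat_lit 32,
 .negSucc (nat_lit 3))], [(nat_lit 13, .negSucc (nat_lit 83)), (nat_lit 21, .negSucc (nat_lit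
 107)), (nat_lit 22, .negSucc (nat_lit 35)), (nat_lit 25, .negSucc (nat_lit 65)), (nat_lit 27,
 .negSucc (nat_lit 59)), (nat_lit 28, .negSucc (nat_lit 59)), (nat_lit 30, .negSucc (nat_lit
 215)), (nat_lit 36, .negSucc (nat_lit 53)), (nat_lit 40, .negSucc (nat_lit 11)), (nat_lit 48,
 .negSucc (nat_lit 35)), (nat_lit 64, .ofNat (nat_lit 2))]]

/-- the `eta_n` -/
noncomputable def ES : List Pol := [[(nat_lit 1, .negSucc (nat_lit 1)), (nat_lit 2, .negSucc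
 (nat_lit 3))], [(nat_lit 1, .ofNat (nat_lit 2)), (nat_lit 2, .ofNat (nat_lit 8)), (nat_lit 3,
 .negSucc (nat_lit 11)), (nat_lit 4, .ofNat (nat_lit 2))], [(nat_lit 1, .negSucc (nat_lit 1)),
 (nat_lit 2, .negSucc (nat_lit 11)), (nat_lit 3, .ofNat (nat_lit 36)), (nat_lit 4, .negSucc
 (nat_lit 5)), (nat_lit 5, .negSucc (nat_lit 23)), (nat_lit 6, .ofNat (nat_lit 0)), (nat_lit 8,
 .negSucc (nat_lit 3))], [(nat_lit 1, .ofNat (nat_lit 2)), (nat_lit 2, .ofNat (nat_lit 16)),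
 (nat_lit 3, .negSucc (nat_lit 71)), (nat_lit 4, .ofNat (nat_lit 12)), (nat_lit 5, .ofNat (nat_lit
 96)), (nat_lit 6, .ofNat (nat_lit 0)), (nat_lit 7, .negSucc (nat_lit 39)), (nat_lit 8, .ofNat
 (nat_lit 16)), (nat_lit 9, .negSucc (nat_lit 11)), (nat_lit 10, .negSucc (nat_lit 7)), (nat_lit
 12, .negSucc (nat_lit 23)), (nat_lit 16, .ofNat (nat_lit 2))], [(nat_lit 1, .negSucc (nat_lit
 1)), (nat_lit 2, .negSucc (nat_lit 19)), (nat_lit 3, .ofNat (nat_lit 120)), (nat_lit 4, .negSucc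
 (nat_lit 19)), (nat_lit 5, .negSucc (nat_lit 239)), (nat_lit 6, .ofNat (nat_lit 0)), (nat_lit 7,
 .ofNat (nat_lit 200)), (nat_lit 8, .negSucc (nat_lit 39)), (nat_lit 9, .ofNat (nat_lit 60)),
 (nat_lit 10, .ofNat (nat_lit 40)), (nat_lit 11, .negSucc (nat_lit 59)), (nat_lit 12, .ofNat
 (nat_lit 120)), (nat_lit 14, .negSucc (nat_lit 19)), (nat_lit 15, .negSucc (nat_lit 59)),
 (nat_lit 16, .negSucc (nat_lit 9)), (nat_lit 18, .negSucc (nat_lit 59)), (nat_lit 20, .negSucc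
 (nat_lit 39)), (nat_lit 24, .ofNat (nat_lit 0)), (nat_lit 32, .negSucc (nat_lit 3))], [(nat_lit
 1, .ofNat (nat_lit 2)), (nat_lit 2, .ofNat (nat_lit 24)), (nat_lit 3, .negSucc (nat_lit 179)),
 (nat_lit 4, .ofNat (nat_lit 30)), (nat_lit 5, .ofNat (nat_lit 480)), (nat_lit 6, .ofNat (nat_lit
 0)), (nat_lit 7, .negSucc (nat_lit 599)), (nat_lit 8, .ofNat (nat_lit 80)), (nat_lit 9, .negSucc
 (nat_lit 179)), (nat_lit 10, .negSucc (nat_lit 119)), (nat_lit 11, .ofNat (nat_lit 360)),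
 (nat_lit 12, .negSucc (nat_lit 359)), (nat_lit 13, .negSucc (nat_lit 83)), (nat_lit 14, .ofNat
 (nat_lit 120)), (nat_lit 15, .ofNat (nat_lit 360)), (nat_lit 16, .ofNat (nat_lit 30)), (nat_lit
 18, .ofNat (nat_lit 360)), (nat_lit 20, .ofNat (nat_lit 240)), (nat_lit 21, .negSucc (nat_lit
 107)), (nat_lit 22, .negSucc (nat_lit 35)), (nat_lit 24, .ofNat (nat_lit 0)), (nat_lit 25,
 .negSucc (nat_lit 65)), (nat_lit 27, .negSucc (nat_lit 59)), (nat_lit 28, .negSucc (nat_lit 59)),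
 (nat_lit 30, .negSucc (nat_lit 215)), (nat_lit 32, .ofNat (nat_lit 24)), (nat_lit 36, .negSucc
 (nat_lit 53)), (nat_lit 40, .negSucc (nat_lit 11)), (nat_lit 48, .negSucc (nat_lit 35)), (nat_lit
 64, .ofNat (nat_lit 2))]]

/-- table of `X` -/
noncomputable def XT : List (List ℕ × Ent) := [([], [(nat_lit 1, .ofNat (nat_lit 2)), (nat_lit 2,
 .ofNat (nat_lit 4))], [(nat_lit 1, .ofNat (nat_lit 1))], nat_lit 0), ([nat_lit 0], [(nat_lit 1,
 .negSucc (nat_lit 1)), (nat_lit 2, .negSucc (nat_lit 7)), (nat_lit 3, .negSucc (nat_lit 11)),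
 (nat_lit 4, .negSucc (nat_lit 13))], [(nat_lit 1, .negSucc (nat_lit 1)), (nat_lit 2, .negSucc
 (nat_lit 3))], nat_lit 1), ([nat_lit 1], [(nat_lit 1, .ofNat (nat_lit 0)), (nat_lit 2, .ofNat
 (nat_lit 0)), (nat_lit 3, .ofNat (nat_lit 48)), (nat_lit 4, .ofNat (nat_lit 24)), (nat_lit 5,
 .negSucc (nat_lit 47)), (nat_lit 6, .negSucc (nat_lit 47)), (nat_lit 8, .ofNat (nat_lit 0))],
 [(nat_lit 1, .ofNat (nat_lit 2)), (nat_lit 2, .ofNat (nat_lit 8)), (nat_lit 3, .negSucc (nat_lit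
 11)), (nat_lit 4, .ofNat (nat_lit 2))], nat_lit 2), ([nat_lit 0, nat_lit 0], [(nat_lit 1, .ofNat
 (nat_lit 0)), (nat_lit 2, .ofNat (nat_lit 0)), (nat_lit 3, .ofNat (nat_lit 48)), (nat_lit 4,
 .ofNat (nat_lit 24)), (nat_lit 6, .ofNat (nat_lit 96)), (nat_lit 8, .ofNat (nat_lit 48))],
 [(nat_lit 1, .ofNat (nat_lit 4)), (nat_lit 2, .ofNat (nat_lit 16)), (nat_lit 4, .ofNat (nat_lit
 16))], nat_lit 2), ([nat_lit 2], [(nat_lit 1, .ofNat (nat_lit 2)), (nat_lit 2, .ofNat (nat_lit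
 16)), (nat_lit 3, .negSucc (nat_lit 143)), (nat_lit 4, .negSucc (nat_lit 23)), (nat_lit 5, .ofNat
 (nat_lit 240)), (nat_lit 6, .ofNat (nat_lit 144)), (nat_lit 7, .negSucc (nat_lit 119)), (nat_lit
 8, .ofNat (nat_lit 16)), (nat_lit 9, .negSucc (nat_lit 35)), (nat_lit 10, .negSucc (nat_lit
 119)), (nat_lit 12, .negSucc (nat_lit 71)), (nat_lit 16, .negSucc (nat_lit 9))], [(nat_lit 1,
 .negSucc (nat_lit 1)), (nat_lit 2, .negSucc (nat_lit 11)), (nat_lit 3, .ofNat (nat_lit 36)),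
 (nat_lit 4, .negSucc (nat_lit 5)), (nat_lit 5, .negSucc (nat_lit 23)), (nat_lit 6, .ofNat
 (nat_lit 0)), (nat_lit 8, .negSucc (nat_lit 3))], nat_lit 3), ([nat_lit 0, nat_lit 1], [(nat_lit
 1, .ofNat (nat_lit 4)), (nat_lit 2, .ofNat (nat_lit 32)), (nat_lit 3, .negSucc (nat_lit 143)),
 (nat_lit 4, .ofNat (nat_lit 24)), (nat_lit 5, .ofNat (nat_lit 96)), (nat_lit 6, .negSucc (nat_lit
 287)), (nat_lit 8, .negSucc (nat_lit 63)), (nat_lit 9, .ofNat (nat_lit 144)), (nat_lit 10, .ofNat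
 (nat_lit 192)), (nat_lit 12, .ofNat (nat_lit 144)), (nat_lit 16, .ofNat (nat_lit 4))], [(nat_lit
 1, .negSucc (nat_lit 3)), (nat_lit 2, .negSucc (nat_lit 23)), (nat_lit 3, .ofNat (nat_lit 24)),
 (nat_lit 4, .negSucc (nat_lit 35)), (nat_lit 6, .ofNat (nat_lit 48)), (nat_lit 8, .negSucc
 (nat_lit 7))], nat_lit 3), ([nat_lit 0, nat_lit 0, nat_lit 0], [(nat_lit 1, .ofNat (nat_lit 8)),
 (nat_lit 2, .ofNat (nat_lit 64)), (nat_lit 3, .negSucc (nat_lit 143)), (nat_lit 4, .ofNat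
 (nat_lit 120)), (nat_lit 6, .negSucc (nat_lit 575)), (nat_lit 8, .negSucc (nat_lit 31)), (nat_lit
 12, .negSucc (nat_lit 575)), (nat_lit 16, .negSucc (nat_lit 159))], [(nat_lit 1, .negSucc
 (nat_lit 7)), (nat_lit 2, .negSucc (nat_lit 47)), (nat_lit 4, .negSucc (nat_lit 95)), (nat_lit 8,
 .negSucc (nat_lit 63))], nat_lit 3), ([nat_lit 3], [(nat_lit 1, .negSucc (nat_lit 3)), (nat_lit
 2, .negSucc (nat_lit 39)), (nat_lit 3, .ofNat (nat_lit 336)), (nat_lit 4, .ofNat (nat_lit 8)),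
 (nat_lit 5, .negSucc (nat_lit 767)), (nat_lit 6, .negSucc (nat_lit 287)), (nat_lit 7, .ofNat
 (nat_lit 720)), (nat_lit 8, .negSucc (nat_lit 79)), (nat_lit 9, .ofNat (nat_lit 216)), (nat_lit
 10, .ofNat (nat_lit 528)), (nat_lit 11, .negSucc (nat_lit 239)), (nat_lit 12, .ofNat (nat_lit
 432)), (nat_lit 14, .negSucc (nat_lit 239)), (nat_lit 15, .negSucc (nat_lit 239)), (nat_lit 16,
 .ofNat (nat_lit 28)), (nat_lit 18, .negSucc (nat_lit 287)), (nat_lit 20, .negSucc (nat_lit 191)),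
 (nat_lit 24, .negSucc (nat_lit 95)), (nat_lit 32, .negSucc (nat_lit 7))], [(nat_lit 1, .ofNat
 (nat_lit 2)), (nat_lit 2, .ofNat (nat_lit 16)), (nat_lit 3, .negSucc (nat_lit 71)), (nat_lit 4,
 .ofNat (nat_lit 12)), (nat_lit 5, .ofNat (nat_lit 96)), (nat_lit 6, .ofNat (nat_lit 0)), (nat_lit
 7, .negSucc (nat_lit 39)), (nat_lit 8, .ofNat (nat_lit 16)), (nat_lit 9, .negSucc (nat_lit 11)),
 (nat_lit 10, .negSucc (nat_lit 7)), (nat_lit 12, .negSucc (nat_lit 23)), (nat_lit 16, .ofNat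
 (nat_lit 2))], nat_lit 4), ([nat_lit 0, nat_lit 2], [(nat_lit 1, .negSucc (nat_lit 7)), (nat_lit
 2, .negSucc (nat_lit 79)), (nat_lit 3, .ofNat (nat_lit 384)), (nat_lit 4, .negSucc (nat_lit
 127)), (nat_lit 5, .negSucc (nat_lit 527)), (nat_lit 6, .ofNat (nat_lit 720)), (nat_lit 7, .ofNat
 (nat_lit 240)), (nat_lit 8, .negSucc (nat_lit 15)), (nat_lit 9, .negSucc (nat_lit 359)), (nat_lit
 10, .negSucc (nat_lit 911)), (nat_lit 12, .negSucc (nat_lit 287)), (nat_lit 14, .ofNat (nat_lit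
 480)), (nat_lit 15, .ofNat (nat_lit 288)), (nat_lit 16, .negSucc (nat_lit 87)), (nat_lit 18,
 .ofNat (nat_lit 144)), (nat_lit 20, .ofNat (nat_lit 432)), (nat_lit 24, .ofNat (nat_lit 336)),
 (nat_lit 32, .ofNat (nat_lit 32))], [(nat_lit 1, .ofNat (nat_lit 4)), (nat_lit 2, .ofNat (nat_lit
 32)), (nat_lit 3, .negSucc (nat_lit 71)), (nat_lit 4, .ofNat (nat_lit 60)), (nat_lit 5, .ofNat
 (nat_lit 48)), (nat_lit 6, .negSucc (nat_lit 143)), (nat_lit 8, .ofNat (nat_lit 32)), (nat_lit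
 10, .ofNat (nat_lit 96)), (nat_lit 12, .ofNat (nat_lit 0)), (nat_lit 16, .ofNat (nat_lit 16))],
 nat_lit 4), ([nat_lit 1, nat_lit 1], [(nat_lit 1, .negSucc (nat_lit 7)), (nat_lit 2, .negSucc
 (nat_lit 79)), (nat_lit 3, .ofNat (nat_lit 288)), (nat_lit 4, .negSucc (nat_lit 175)), (nat_lit
 5, .negSucc (nat_lit 191)), (nat_lit 6, .ofNat (nat_lit 1152)), (nat_lit 8, .ofNat (nat_lit 32)),
 (nat_lit 9, .negSucc (nat_lit 1439)), (nat_lit 10, .negSucc (nat_lit 767)), (nat_lit 12, .negSucc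
 (nat_lit 287)), (nat_lit 15, .ofNat (nat_lit 1152)), (nat_lit 16, .negSucc (nat_lit 39)),
 (nat_lit 18, .ofNat (nat_lit 576)), (nat_lit 20, .negSucc (nat_lit 191)), (nat_lit 24, .ofNat
 (nat_lit 0)), (nat_lit 32, .negSucc (nat_lit 15))], [(nat_lit 1, .ofNat (nat_lit 4)), (nat_lit 2,
 .ofNat (nat_lit 32)), (nat_lit 3, .negSucc (nat_lit 47)), (nat_lit 4, .ofNat (nat_lit 72)),
 (nat_lit 6, .negSucc (nat_lit 191)), (nat_lit 8, .ofNat (nat_lit 32)), (nat_lit 9, .ofNat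
 (nat_lit 144)), (nat_lit 12, .negSucc (nat_lit 47)), (nat_lit 16, .ofNat (nat_lit 4))], nat_lit
 4), ([nat_lit 0, nat_lit 0, nat_lit 1], [(nat_lit 1, .negSucc (nat_lit 15)), (nat_lit 2, .negSucc
 (nat_lit 159)), (nat_lit 3, .ofNat (nat_lit 384)), (nat_lit 4, .negSucc (nat_lit 447)), (nat_lit
 5, .negSucc (nat_lit 191)), (nat_lit 6, .ofNat (nat_lit 1728)), (nat_lit 8, .negSucc (nat_lit
 319)), (nat_lit 9, .negSucc (nat_lit 575)), (nat_lit 10, .negSucc (nat_lit 767)), (nat_lit 12,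
 .ofNat (nat_lit 1728)), (nat_lit 16, .ofNat (nat_lit 112)), (nat_lit 18, .negSucc (nat_lit
 1151)), (nat_lit 20, .negSucc (nat_lit 767)), (nat_lit 24, .negSucc (nat_lit 383)), (nat_lit 32,
 .negSucc (nat_lit 31))], [(nat_lit 1, .ofNat (nat_lit 8)), (nat_lit 2, .ofNat (nat_lit 64)),
 (nat_lit 3, .negSucc (nat_lit 47)), (nat_lit 4, .ofNat (nat_lit 168)), (nat_lit 6, .negSucc
 (nat_lit 191)), (nat_lit 8, .ofNat (nat_lit 160)), (nat_lit 12, .negSucc (nat_lit 191)), (nat_lit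
 16, .ofNat (nat_lit 32))], nat_lit 4), ([nat_lit 0, nat_lit 0, nat_lit 0, nat_lit 0], [(nat_lit
 1, .negSucc (nat_lit 31)), (nat_lit 2, .negSucc (nat_lit 319)), (nat_lit 3, .ofNat (nat_lit
 384)), (nat_lit 4, .negSucc (nat_lit 1087)), (nat_lit 6, .ofNat (nat_lit 2304)), (nat_lit 8,
 .negSucc (nat_lit 1407)), (nat_lit 12, .ofNat (nat_lit 4608)), (nat_lit 16, .negSucc (nat_lit
 255)), (nat_lit 24, .ofNat (nat_lit 3072)), (nat_lit 32, .ofNat (nat_lit 512))], [(nat_lit 1,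
 .ofNat (nat_lit 16)), (nat_lit 2, .ofNat (nat_lit 128)), (nat_lit 4, .ofNat (nat_lit 384)),
 (nat_lit 8, .ofNat (nat_lit 512)), (nat_lit 16, .ofNat (nat_lit 256))], nat_lit 4), ([nat_lit 4],
 [(nat_lit 1, .ofNat (nat_lit 6)), (nat_lit 2, .ofNat (nat_lit 72)), (nat_lit 3, .negSucc (nat_lit
 659)), (nat_lit 4, .ofNat (nat_lit 30)), (nat_lit 5, .ofNat (nat_lit 1920)), (nat_lit 6, .ofNat
 (nat_lit 480)), (nat_lit 7, .negSucc (nat_lit 2599)), (nat_lit 8, .ofNat (nat_lit 240)), (nat_lit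
 9, .negSucc (nat_lit 779)), (nat_lit 10, .negSucc (nat_lit 1479)), (nat_lit 11, .ofNat (nat_lit
 1680)), (nat_lit 12, .negSucc (nat_lit 1559)), (nat_lit 13, .negSucc (nat_lit 419)), (nat_lit 14,
 .ofNat (nat_lit 1360)), (nat_lit 15, .ofNat (nat_lit 1680)), (nat_lit 16, .negSucc (nat_lit 29)),
 (nat_lit 18, .ofNat (nat_lit 1920)), (nat_lit 20, .ofNat (nat_lit 1280)), (nat_lit 21, .negSucc
 (nat_lit 539)), (nat_lit 22, .negSucc (nat_lit 419)), (nat_lit 24, .ofNat (nat_lit 480)),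
 (nat_lit 25, .negSucc (nat_lit 329)), (nat_lit 27, .negSucc (nat_lit 299)), (nat_lit 28, .negSucc
 (nat_lit 379)), (nat_lit 30, .negSucc (nat_lit 1319)), (nat_lit 32, .ofNat (nat_lit 72)),
 (nat_lit 36, .negSucc (nat_lit 509)), (nat_lit 40, .negSucc (nat_lit 219)), (nat_lit 48, .negSucc
 (nat_lit 179)), (nat_lit 64, .negSucc (nat_lit 5))], [(nat_lit 1, .negSucc (nat_lit 1)), (nat_lit
 2, .negSucc (nat_lit 19)), (nat_lit 3, .ofNat (nat_lit 120)), (nat_lit 4, .negSucc (nat_lit 19)),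
 (nat_lit 5, .negSucc (nat_lit 239)), (nat_lit 6, .ofNat (nat_lit 0)), (nat_lit 7, .ofNat (nat_lit
 200)), (nat_lit 8, .negSucc (nat_lit 39)), (nat_lit 9, .ofNat (nat_lit 60)), (nat_lit 10, .ofNat
 (nat_lit 40)), (nat_lit 11, .negSucc (nat_lit 59)), (nat_lit 12, .ofNat (nat_lit 120)), (nat_lit
 14, .negSucc (nat_lit 19)), (nat_lit 15, .negSucc (nat_lit 59)), (nat_lit 16, .negSucc (nat_lit
 9)), (nat_lit 18, .negSucc (nat_lit 59)), (nat_lit 20, .negSucc (nat_lit 39)), (nat_lit 24,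
 .ofNat (nat_lit 0)), (nat_lit 32, .negSucc (nat_lit 3))], nat_lit 5), ([nat_lit 0, nat_lit 3],
 [(nat_lit 1, .ofNat (nat_lit 12)), (nat_lit 2, .ofNat (nat_lit 144)), (nat_lit 3, .negSucc
 (nat_lit 839)), (nat_lit 4, .ofNat (nat_lit 300)), (nat_lit 5, .ofNat (nat_lit 1728)), (nat_lit
 6, .negSucc (nat_lit 1535)), (nat_lit 7, .negSucc (nat_lit 1519)), (nat_lit 8, .ofNat (nat_lit
 288)), (nat_lit 9, .ofNat (nat_lit 408)), (nat_lit 10, .ofNat (nat_lit 2768)), (nat_lit 11,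
 .ofNat (nat_lit 480)), (nat_lit 12, .negSucc (nat_lit 47)), (nat_lit 14, .negSucc (nat_lit
 2719)), (nat_lit 15, .negSucc (nat_lit 671)), (nat_lit 16, .ofNat (nat_lit 420)), (nat_lit 18,
 .negSucc (nat_lit 383)), (nat_lit 20, .negSucc (nat_lit 1599)), (nat_lit 21, .ofNat (nat_lit
 480)), (nat_lit 22, .ofNat (nat_lit 960)), (nat_lit 24, .negSucc (nat_lit 1919)), (nat_lit 27,
 .ofNat (nat_lit 144)), (nat_lit 28, .ofNat (nat_lit 880)), (nat_lit 30, .ofNat (nat_lit 1056)),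
 (nat_lit 32, .negSucc (nat_lit 47)), (nat_lit 36, .ofNat (nat_lit 1416)), (nat_lit 40, .ofNat
 (nat_lit 752)), (nat_lit 48, .ofNat (nat_lit 312)), (nat_lit 64, .ofNat (nat_lit 36))], [(nat_lit
 1, .negSucc (nat_lit 3)), (nat_lit 2, .negSucc (nat_lit 39)), (nat_lit 3, .ofNat (nat_lit 144)),
 (nat_lit 4, .negSucc (nat_lit 87)), (nat_lit 5, .negSucc (nat_lit 191)), (nat_lit 6, .ofNat
 (nat_lit 288)), (nat_lit 7, .ofNat (nat_lit 80)), (nat_lit 8, .negSucc (nat_lit 79)), (nat_lit 9,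
 .ofNat (nat_lit 24)), (nat_lit 10, .negSucc (nat_lit 367)), (nat_lit 12, .ofNat (nat_lit 48)),
 (nat_lit 14, .ofNat (nat_lit 160)), (nat_lit 16, .negSucc (nat_lit 67)), (nat_lit 18, .ofNat
 (nat_lit 48)), (nat_lit 20, .ofNat (nat_lit 32)), (nat_lit 24, .ofNat (nat_lit 96)), (nat_lit 32,
 .negSucc (nat_lit 7))], nat_lit 5), ([nat_lit 1, nat_lit 2], [(nat_lit 1, .ofNat (nat_lit 12)),
 (nat_lit 2, .ofNat (nat_lit 144)), (nat_lit 3, .negSucc (nat_lit 599)), (nat_lit 4, .ofNat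
 (nat_lit 420)), (nat_lit 5, .ofNat (nat_lit 672)), (nat_lit 6, .negSucc (nat_lit 2783)), (nat_lit
 7, .negSucc (nat_lit 239)), (nat_lit 8, .ofNat (nat_lit 192)), (nat_lit 9, .ofNat (nat_lit
 4248)), (nat_lit 10, .ofNat (nat_lit 2832)), (nat_lit 12, .ofNat (nat_lit 144)), (nat_lit 14,
 .negSucc (nat_lit 959)), (nat_lit 15, .negSucc (nat_lit 6335)), (nat_lit 16, .ofNat (nat_lit
 324)), (nat_lit 18, .negSucc (nat_lit 2015)), (nat_lit 20, .ofNat (nat_lit 96)), (nat_lit 21,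
 .ofNat (nat_lit 1440)), (nat_lit 24, .negSucc (nat_lit 1055)), (nat_lit 25, .ofNat (nat_lit
 1152)), (nat_lit 27, .ofNat (nat_lit 432)), (nat_lit 28, .negSucc (nat_lit 239)), (nat_lit 30,
 .ofNat (nat_lit 1440)), (nat_lit 32, .ofNat (nat_lit 48)), (nat_lit 36, .ofNat (nat_lit 792)),
 (nat_lit 40, .ofNat (nat_lit 144)), (nat_lit 48, .negSucc (nat_lit 23)), (nat_lit 64, .ofNat
 (nat_lit 12))], [(nat_lit 1, .negSucc (nat_lit 3)), (nat_lit 2, .negSucc (nat_lit 39)), (nat_lit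
 3, .ofNat (nat_lit 96)), (nat_lit 4, .negSucc (nat_lit 111)), (nat_lit 5, .negSucc (nat_lit 47)),
 (nat_lit 6, .ofNat (nat_lit 432)), (nat_lit 8, .negSucc (nat_lit 79)), (nat_lit 9, .negSucc
 (nat_lit 431)), (nat_lit 10, .negSucc (nat_lit 191)), (nat_lit 12, .ofNat (nat_lit 144)),
 (nat_lit 15, .ofNat (nat_lit 288)), (nat_lit 16, .negSucc (nat_lit 43)), (nat_lit 18, .ofNat
 (nat_lit 0)), (nat_lit 20, .negSucc (nat_lit 47)), (nat_lit 24, .ofNat (nat_lit 48)), (nat_lit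
 32, .negSucc (nat_lit 7))], nat_lit 5), ([nat_lit 0, nat_lit 0, nat_lit 2], [(nat_lit 1, .ofNat
 (nat_lit 24)), (nat_lit 2, .ofNat (nat_lit 288)), (nat_lit 3, .negSucc (nat_lit 959)), (nat_lit
 4, .ofNat (nat_lit 960)), (nat_lit 5, .ofNat (nat_lit 1152)), (nat_lit 6, .negSucc (nat_lit
 4223)), (nat_lit 7, .negSucc (nat_lit 479)), (nat_lit 8, .ofNat (nat_lit 1152)), (nat_lit 9,
 .ofNat (nat_lit 1584)), (nat_lit 10, .ofNat (nat_lit 4512)), (nat_lit 12, .negSucc (nat_lit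
 4319)), (nat_lit 14, .negSucc (nat_lit 1919)), (nat_lit 15, .negSucc (nat_lit 1151)), (nat_lit
 16, .ofNat (nat_lit 648)), (nat_lit 18, .ofNat (nat_lit 2880)), (nat_lit 20, .ofNat (nat_lit
 3648)), (nat_lit 24, .negSucc (nat_lit 191)), (nat_lit 28, .negSucc (nat_lit 1919)), (nat_lit 30,
 .negSucc (nat_lit 2303)), (nat_lit 32, .ofNat (nat_lit 480)), (nat_lit 36, .negSucc (nat_lit
 575)), (nat_lit 40, .negSucc (nat_lit 1535)), (nat_lit 48, .negSucc (nat_lit 1535)), (nat_lit 64,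
 .negSucc (nat_lit 95))], [(nat_lit 1, .negSucc (nat_lit 7)), (nat_lit 2, .negSucc (nat_lit 79)),
 (nat_lit 3, .ofNat (nat_lit 144)), (nat_lit 4, .negSucc (nat_lit 247)), (nat_lit 5, .negSucc
 (nat_lit 95)), (nat_lit 6, .ofNat (nat_lit 576)), (nat_lit 8, .negSucc (nat_lit 303)), (nat_lit
 10, .negSucc (nat_lit 383)), (nat_lit 12, .ofNat (nat_lit 576)), (nat_lit 16, .negSucc (nat_lit
 159)), (nat_lit 20, .negSucc (nat_lit 383)), (nat_lit 24, .ofNat (nat_lit 0)), (nat_lit 32,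
 .negSucc (nat_lit 63))], nat_lit 5), ([nat_lit 0, nat_lit 1, nat_lit 1], [(nat_lit 1, .ofNat
 (nat_lit 24)), (nat_lit 2, .ofNat (nat_lit 288)), (nat_lit 3, .negSucc (nat_lit 719)), (nat_lit
 4, .ofNat (nat_lit 1080)), (nat_lit 5, .ofNat (nat_lit 384)), (nat_lit 6, .negSucc (nat_lit
 4607)), (nat_lit 8, .ofNat (nat_lit 1344)), (nat_lit 9, .ofNat (nat_lit 3744)), (nat_lit 10,
 .ofNat (nat_lit 2304)), (nat_lit 12, .negSucc (nat_lit 6623)), (nat_lit 15, .negSucc (nat_lit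
 2303)), (nat_lit 16, .ofNat (nat_lit 360)), (nat_lit 18, .ofNat (nat_lit 8064)), (nat_lit 20,
 .ofNat (nat_lit 3456)), (nat_lit 24, .ofNat (nat_lit 0)), (nat_lit 27, .negSucc (nat_lit 1727)),
 (nat_lit 30, .negSucc (nat_lit 4607)), (nat_lit 32, .ofNat (nat_lit 288)), (nat_lit 36, .negSucc
 (nat_lit 1439)), (nat_lit 40, .ofNat (nat_lit 768)), (nat_lit 48, .negSucc (nat_lit 143)),
 (nat_lit 64, .ofNat (nat_lit 72))], [(nat_lit 1, .negSucc (nat_lit 7)), (nat_lit 2, .negSucc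
 (nat_lit 79)), (nat_lit 3, .ofNat (nat_lit 96)), (nat_lit 4, .negSucc (nat_lit 271)), (nat_lit 6,
 .ofNat (nat_lit 576)), (nat_lit 8, .negSucc (nat_lit 351)), (nat_lit 9, .negSucc (nat_lit 287)),
 (nat_lit 12, .ofNat (nat_lit 864)), (nat_lit 16, .negSucc (nat_lit 135)), (nat_lit 18, .negSucc
 (nat_lit 575)), (nat_lit 24, .ofNat (nat_lit 192)), (nat_lit 32, .negSucc (nat_lit 15))], nat_lit
 5), ([nat_lit 0, nat_lit 0, nat_lit 0, nat_lit 1], [(nat_lit 1, .ofNat (nat_lit 48)), (nat_lit 2,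
 .ofNat (nat_lit 576)), (nat_lit 3, .negSucc (nat_lit 959)), (nat_lit 4, .ofNat (nat_lit 2400)),
 (nat_lit 5, .ofNat (nat_lit 384)), (nat_lit 6, .negSucc (nat_lit 6527)), (nat_lit 8, .ofNat
 (nat_lit 4224)), (nat_lit 9, .ofNat (nat_lit 1728)), (nat_lit 10, .ofNat (nat_lit 2304)),
 (nat_lit 12, .negSucc (nat_lit 14399)), (nat_lit 16, .ofNat (nat_lit 2736)), (nat_lit 18, .ofNat
 (nat_lit 6912)), (nat_lit 20, .ofNat (nat_lit 4608)), (nat_lit 24, .negSucc (nat_lit 9983)),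
 (nat_lit 32, .ofNat (nat_lit 192)), (nat_lit 36, .ofNat (nat_lit 6912)), (nat_lit 40, .ofNat
 (nat_lit 3072)), (nat_lit 48, .ofNat (nat_lit 768)), (nat_lit 64, .ofNat (nat_lit 192))],
 [(nat_lit 1, .negSucc (nat_lit 15)), (nat_lit 2, .negSucc (nat_lit 159)), (nat_lit 3, .ofNat
 (nat_lit 96)), (nat_lit 4, .negSucc (nat_lit 591)), (nat_lit 6, .ofNat (nat_lit 576)), (nat_lit
 8, .negSucc (nat_lit 991)), (nat_lit 12, .ofNat (nat_lit 1152)), (nat_lit 16, .negSucc (nat_lit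
 703)), (nat_lit 24, .ofNat (nat_lit 768)), (nat_lit 32, .negSucc (nat_lit 127))], nat_lit 5),
 ([nat_lit 0, nat_lit 0, nat_lit 0, nat_lit 0, nat_lit 0], [(nat_lit 1, .ofNat (nat_lit 96)),
 (nat_lit 2, .ofNat (nat_lit 1152)), (nat_lit 3, .negSucc (nat_lit 959)), (nat_lit 4, .ofNat
 (nat_lit 5280)), (nat_lit 6, .negSucc (nat_lit 7679)), (nat_lit 8, .ofNat (nat_lit 11520)),
 (nat_lit 12, .negSucc (nat_lit 23039)), (nat_lit 16, .ofNat (nat_lit 11520)), (nat_lit 24,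
 .negSucc (nat_lit 30719)), (nat_lit 32, .ofNat (nat_lit 3072)), (nat_lit 48, .negSucc (nat_lit
 15359)), (nat_lit 64, .negSucc (nat_lit 1535))], [(nat_lit 1, .negSucc (nat_lit 31)), (nat_lit 2,
 .negSucc (nat_lit 319)), (nat_lit 4, .negSucc (nat_lit 1279)), (nat_lit 8, .negSucc (nat_lit
 2559)), (nat_lit 16, .negSucc (nat_lit 2559)), (nat_lit 32, .negSucc (nat_lit 1023))], nat_lit
 5)]

/-- the polynomials `d_n` -/
noncomputable def DD : List Pol := [[(nat_lit 1, .ofNat (nat_lit 1))], [(nat_lit 2, .ofNat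
 (nat_lit 3))], [(nat_lit 3, .ofNat (nat_lit 3)), (nat_lit 4, .ofNat (nat_lit 3))], [(nat_lit 5,
 .ofNat (nat_lit 3)), (nat_lit 6, .ofNat (nat_lit 6)), (nat_lit 8, .ofNat (nat_lit 1))], [(nat_lit
 7, .ofNat (nat_lit 3)), (nat_lit 9, .ofNat (nat_lit 3)), (nat_lit 10, .ofNat (nat_lit 6)),
 (nat_lit 12, .ofNat (nat_lit 3))], [(nat_lit 11, .ofNat (nat_lit 3)), (nat_lit 14, .ofNat
 (nat_lit 6)), (nat_lit 15, .ofNat (nat_lit 6)), (nat_lit 18, .ofNat (nat_lit 3)), (nat_lit 20,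
 .ofNat (nat_lit 3))], [(nat_lit 13, .ofNat (nat_lit 3)), (nat_lit 21, .ofNat (nat_lit 6)),
 (nat_lit 22, .ofNat (nat_lit 6)), (nat_lit 25, .ofNat (nat_lit 3)), (nat_lit 27, .ofNat (nat_lit
 1)), (nat_lit 28, .ofNat (nat_lit 3)), (nat_lit 30, .ofNat (nat_lit 6))], [(nat_lit 17, .ofNat
 (nat_lit 3)), (nat_lit 26, .ofNat (nat_lit 6)), (nat_lit 33, .ofNat (nat_lit 6)), (nat_lit 35,
 .ofNat (nat_lit 6)), (nat_lit 42, .ofNat (nat_lit 6)), (nat_lit 44, .ofNat (nat_lit 3)), (nat_lit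
 45, .ofNat (nat_lit 3)), (nat_lit 50, .ofNat (nat_lit 3))]]

theorem rec_ok : recOK RS ES 6 = true := by decide +kernel

theorem tab_ok : tabOK 6 ES XT = true := by decide +kernel

theorem d_ok : dOK DD 8 = true := by decide +kernel

/-- start -/
noncomputable def U0 : Tr := ins (nat_lit 1) (nat_lit 1) (.negSucc (nat_lit 402293540482999)) Tr.e

end Pool.Agent.H58.BJ.D6
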