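import Pool.Agent.H58.BJ.D6.D

/-! # Certificate data (6 jets, exponent 28/25) -/

set_option autoImplicit false

namespace Pool.Agent.H58.BJ.D6

open Pool.Agent.H58.BJ

/-- result of the first 10 groups -/
noncomputable def U10 : Tr := (.nd (.nd (.nd (.nd (.nd (.nd (.nd .e (.nd (.nd (.nd (.nd (.nd (.nd
 (.nd (.nd .e (.nd (.lf (.negSucc (nat_lit 78598907067870049))) .e)) (.nd (.nd (.lf (.negSucc
 (nat_lit 211306542259889287))) .e) .e)) (.nd (.nd (.nd (.lf (.negSucc (nat_lit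
 76487005926296203))) .e) .e) (.nd (.nd (.lf (.negSucc (nat_lit 307265289636054299))) .e) .e)))
 (.nd (.nd (.nd (.nd (.lf (.negSucc (nat_lit 6095768698693595))) .e) .e) (.nd (.nd (.lf (.negSucc
 (nat_lit 88078970891662399))) .e) .e)) (.nd (.nd (.nd (.lf (.negSucc (nat_lit
 665365541059744969))) .e) .e) .e))) (.nd (.nd (.nd (.nd (.nd (.lf (.ofNat (nat_lit
 2173748519699384))) .e) .e) (.nd (.nd (.lf (.negSucc (nat_lit 197655668362661399))) .e) .e)) (.nd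
 (.nd (.nd (.lf (.negSucc (nat_lit 151560685855474697))) .e) .e) .e)) (.nd (.nd (.nd (.nd (.lf
 (.negSucc (nat_lit 359258020987699835))) .e) .e) .e) (.nd (.nd (.nd (.lf (.ofNat (nat_lit
 19188813700940400))) .e) .e) .e)))) (.nd (.nd (.nd (.nd (.nd (.nd (.lf (.ofNat (nat_lit
 1198120545718368))) .e) .e) .e) (.nd (.nd (.nd (.lf (.negSucc (nat_lit 61599114745330823))) .e)
 .e) .e)) (.nd (.nd (.nd (.nd (.lf (.negSucc (nat_lit 64481828222485455))) .e) .e) .e) .e)) (.nd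
 (.nd (.nd (.nd (.nd (.lf (.negSucc (nat_lit 54679103551946031))) .e) .e) .e) (.nd (.nd (.nd (.lf
 (.negSucc (nat_lit 12430215730108699))) .e) .e) .e)) (.nd (.nd (.nd (.nd (.lf (.ofNat (nat_lit
 25386481952184020))) .e) .e) .e) (.nd (.nd (.nd (.lf (.ofNat (nat_lit 8808101059613850))) .e) .e)
 .e))))) (.nd (.nd (.nd (.nd (.nd (.nd (.nd (.lf (.ofNat (nat_lit 39817808076060))) .e) .e) .e)
 .e) (.nd (.nd (.nd (.nd (.lf (.negSucc (nat_lit 13267642496336455))) .e) .e) .e) (.nd (.nd (.nd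
 (.lf (.negSucc (nat_lit 20872998298224199))) .e) .e) .e))) (.nd (.nd (.nd (.nd (.nd (.lf
 (.negSucc (nat_lit 14393354998124395))) .e) .e) .e) (.nd (.nd (.nd (.lf (.ofNat (nat_lit
 23266165808899950))) .e) .e) .e)) (.nd (.nd (.nd (.nd (.lf (.ofNat (nat_lit 734446159137600)))
 .e) .e) .e) .e))) (.nd (.nd (.nd (.nd (.nd (.nd (.lf (.negSucc (nat_lit 4556638617037707))) .e)
 .e) .e) .e) (.nd (.nd (.nd (.nd (.lf (.negSucc (nat_lit 9635364834428139))) .e) .e) .e) (.nd (.nd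
 (.nd (.lf (.ofNat (nat_lit 5876818222571650))) .e) .e) .e))) (.nd (.nd (.nd (.nd (.nd (.lf
 (.ofNat (nat_lit 14562635428047320))) .e) .e) .e) .e) (.nd (.nd (.nd (.nd (.lf (.negSucc (nat_lit
 1550885769616975))) .e) .e) .e) .e))))) .e)) (.nd (.nd (.nd (.nd (.nd (.nd (.nd (.nd .e (.nd (.nd
 (.lf (.negSucc (nat_lit 341827802903101289))) .e) .e)) (.nd (.nd (.nd (.lf (.negSucc (nat_lit
 500184086987151251))) .e) .e) .e)) (.nd (.nd (.nd (.nd (.lf (.negSucc (nat_lit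
 341599870301877533))) .e) .e) .e) (.nd (.nd (.nd (.lf (.negSucc (nat_lit 1819104625834707531)))
 .e) .e) .e))) (.nd (.nd (.nd (.nd (.nd (.lf (.negSucc (nat_lit 65491138695129699))) .e) .e) .e)
 (.nd (.nd (.nd (.lf (.negSucc (nat_lit 573719441541706291))) .e) .e) .e)) (.nd (.nd (.nd (.nd
 (.lf (.negSucc (nat_lit 1316957313999626215))) .e) .e) .e) (.nd (.nd (.nd (.lf (.ofNat (nat_lit
 21975216885070600))) .e) .e) .e)))) (.nd (.nd (.nd (.nd (.nd (.nd (.lf (.negSucc (nat_lit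
 13994435340094811))) .e) .e) .e) (.nd (.nd (.nd (.lf (.negSucc (nat_lit 124105235965397583))) .e)
 .e) .e)) (.nd (.nd (.nd (.nd (.lf (.negSucc (nat_lit 466474830559091533))) .e) .e) .e) .e)) (.nd
 (.nd (.nd (.nd (.nd (.lf (.negSucc (nat_lit 411279922787998967))) .e) .e) .e) (.nd (.nd (.nd (.lf
 (.negSucc (nat_lit 13006926236475359))) .e) .e) .e)) (.nd (.nd (.nd (.nd (.lf (.ofNat (nat_lit
 33567418439498890))) .e) .e) .e) (.nd (.nd (.nd (.lf (.negSucc (nat_lit 190903442028567961))) .e)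
 .e) .e))))) (.nd (.nd (.nd (.nd (.nd (.nd (.nd (.lf (.negSucc (nat_lit 1798835094310119))) .e)
 .e) .e) .e) (.nd (.nd (.nd (.nd (.lf (.negSucc (nat_lit 22370651188705203))) .e) .e) .e) (.nd
 (.nd (.nd (.lf (.negSucc (nat_lit 19192677143131615))) .e) .e) .e))) (.nd (.nd (.nd (.nd (.nd
 (.lf (.negSucc (nat_lit 107788571446312547))) .e) .e) .e) (.nd (.nd (.nd (.lf (.ofNat (nat_lit
 22034437446454130))) .e) .e) .e)) (.nd (.nd (.nd (.nd (.lf (.ofNat (nat_lit 773583117494880)))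
 .e) .e) .e) .e))) (.nd (.nd (.nd (.nd (.nd (.nd (.lf (.negSucc (nat_lit 39466960153930833))) .e)
 .e) .e) .e) (.nd (.nd (.nd (.nd (.lf (.negSucc (nat_lit 10037674593364499))) .e) .e) .e) (.nd
 (.nd (.nd (.lf (.ofNat (nat_lit 68601400535550206))) .e) .e) .e))) (.nd (.nd (.nd (.nd (.nd (.lf
 (.ofNat (nat_lit 15550154445693980))) .e) .e) .e) .e) (.nd (.nd (.nd (.nd (.lf (.negSucc (nat_lit
 94824184097538657))) .e) .e) .e) .e))))) .e) .e)) (.nd (.nd (.nd (.nd (.nd (.nd (.nd (.nd .e (.nd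
 (.nd (.nd (.lf (.negSucc (nat_lit 589624464276097200))) .e) .e) .e)) (.nd (.nd (.nd (.nd (.lf
 (.negSucc (nat_lit 568603524071334413))) .e) .e) .e) .e)) (.nd (.nd (.nd (.nd (.nd (.lf (.ofNat
 (nat_lit 245060893553085238))) .e) .e) .e) .e) (.nd (.nd (.nd (.nd (.lf (.negSucc (nat_lit
 2959263208710600035))) .e) .e) .e) .e))) (.nd (.nd (.nd (.nd (.nd (.nd (.lf (.ofNat (nat_lit
 14488594830016148))) .e) .e) .e) .e) (.nd (.nd (.nd (.nd (.lf (.negSucc (nat_lit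
 744385318400825789))) .e) .e) .e) .e)) (.nd (.nd (.nd (.nd (.nd (.lf (.negSucc (nat_lit
 1820396353899893625))) .e) .e) .e) .e) (.nd (.nd (.nd (.nd (.lf (.negSucc (nat_lit
 38078884361765069))) .e) .e) .e) .e)))) (.nd (.nd (.nd (.nd (.nd (.nd (.nd (.lf (.ofNat (nat_lit
 1633852271503736))) .e) .e) .e) .e) (.nd (.nd (.nd (.nd (.lf (.negSucc (nat_lit
 106432838343283939))) .e) .e) .e) .e)) (.nd (.nd (.nd (.nd (.nd (.lf (.negSucc (nat_lit
 283623424922131957))) .e) .e) .e) .e) (.nd (.nd (.nd (.nd (.lf (.negSucc (nat_lit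
 1380170850101903))) .e) .e) .e) .e))) (.nd (.nd (.nd (.nd (.nd (.nd (.lf (.negSucc (nat_lit
 264334879170519457))) .e) .e) .e) .e) (.nd (.nd (.nd (.nd (.lf (.ofNat (nat_lit
 18686691635769060))) .e) .e) .e) .e)) (.nd (.nd (.nd (.nd (.nd (.lf (.negSucc (nat_lit
 31664255813080349))) .e) .e) .e) .e) (.nd (.nd (.nd (.nd (.lf (.negSucc (nat_lit
 72525270111652123))) .e) .e) .e) .e))))) .e) .e) (.nd (.nd (.nd (.nd (.nd (.nd (.nd (.nd .e (.nd
 (.nd (.lf (.negSucc (nat_lit 533036181912221005))) .e) .e)) (.nd (.nd (.nd (.lf (.negSucc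
 (nat_lit 293830611027938663))) .e) .e) (.nd (.nd (.lf (.negSucc (nat_lit 1538832602938665524)))
 .e) .e))) (.nd (.nd (.nd (.nd (.lf (.negSucc (nat_lit 21959658364275633))) .e) .e) (.nd (.nd (.lf
 (.negSucc (nat_lit 3005868240359384249))) .e) .e)) (.nd (.nd (.nd (.lf (.negSucc (nat_lit
 4100895673771115805))) .e) .e) .e))) (.nd (.nd (.nd (.nd (.nd (.lf (.ofNat (nat_lit
 9114545558758832))) .e) .e) (.nd (.nd (.lf (.negSucc (nat_lit 2411869972748795849))) .e) .e))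
 (.nd (.nd (.nd (.lf (.negSucc (nat_lit 3445252545604907509))) .e) .e) .e)) (.nd (.nd (.nd (.nd
 (.lf (.negSucc (nat_lit 2460579247183964875))) .e) .e) .e) (.nd (.nd (.nd (.lf (.negSucc (nat_lit
 827005168317683349))) .e) .e) .e)))) (.nd (.nd (.nd (.nd (.nd (.nd (.lf (.ofNat (nat_lit
 784041534701550))) .e) .e) .e) (.nd (.nd (.nd (.lf (.negSucc (nat_lit 1486888336998869609))) .e)
 .e) .e)) (.nd (.nd (.nd (.nd (.lf (.negSucc (nat_lit 1061133828706311617))) .e) .e) .e) .e)) (.nd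
 (.nd (.nd (.nd (.nd (.lf (.negSucc (nat_lit 397520470485919581))) .e) .e) .e) (.nd (.nd (.nd (.lf
 (.ofNat (nat_lit 27044471816090600))) .e) .e) .e)) (.nd (.nd (.nd (.nd (.lf (.negSucc (nat_lit
 779568043594229319))) .e) .e) .e) (.nd (.nd (.nd (.lf (.negSucc (nat_lit 142636080998173049)))
 .e) .e) .e))))) (.nd (.nd (.nd (.nd (.nd (.nd (.nd (.lf (.ofNat (nat_lit 277926788403600))) .e)
 .e) .e) .e) (.nd (.nd (.nd (.nd (.lf (.negSucc (nat_lit 355440534944403333))) .e) .e) .e) (.nd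
 (.nd (.nd (.lf (.negSucc (nat_lit 105718299092123699))) .e) .e) .e))) (.nd (.nd (.nd (.nd (.nd
 (.lf (.negSucc (nat_lit 75172917315729331))) .e) .e) .e) (.nd (.nd (.nd (.lf (.ofNat (nat_lit
 244331819111852650))) .e) .e) .e)) (.nd (.nd (.nd (.nd (.lf (.negSucc (nat_lit
 1300765913596799))) .e) .e) .e) .e))) (.nd (.nd (.nd (.nd (.nd (.nd (.lf (.negSucc (nat_lit
 52663060171111009))) .e) .e) .e) .e) (.nd (.nd (.nd (.nd (.lf (.ofNat (nat_lit
 20894548278595700))) .e) .e) .e) (.nd (.nd (.nd (.lf (.ofNat (nat_lit 79293780327423300))) .e)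
 .e) .e))) (.nd (.nd (.nd (.nd (.nd (.lf (.negSucc (nat_lit 103764914072482899))) .e) .e) .e) .e)
 (.nd (.nd (.nd (.nd (.lf (.negSucc (nat_lit 215416175951653213))) .e) .e) .e) .e))))) .e) .e)))
 (.nd (.nd (.nd (.nd (.nd (.nd (.nd (.nd .e (.nd (.nd (.nd (.nd (.lf (.negSucc (nat_lit
 417328022770519721))) .e) .e) .e) .e)) (.nd (.nd (.nd (.nd (.nd (.lf (.ofNat (nat_lit
 239853641149452208))) .e) .e) .e) .e) .e)) (.nd (.nd (.nd (.nd (.nd (.nd (.lf (.ofNat (nat_lit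
 21846150854578878))) .e) .e) .e) .e) .e) (.nd (.nd (.nd (.nd (.nd (.lf (.negSucc (nat_lit
 2266098735957734317))) .e) .e) .e) .e) .e))) (.nd (.nd (.nd (.nd (.nd (.nd (.nd (.lf (.ofNat
 (nat_lit 32406033602447744))) .e) .e) .e) .e) .e) (.nd (.nd (.nd (.nd (.nd (.lf (.negSucc
 (nat_lit 292253125003795875))) .e) .e) .e) .e) .e)) (.nd (.nd (.nd (.nd (.nd (.nd (.lf (.negSucc
 (nat_lit 421853093680072503))) .e) .e) .e) .e) .e) (.nd (.nd (.nd (.nd (.nd (.lf (.negSucc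
 (nat_lit 46538147255299479))) .e) .e) .e) .e) .e)))) .e) .e) (.nd (.nd (.nd (.nd (.nd (.nd (.nd
 (.nd .e (.nd (.nd (.lf (.negSucc (nat_lit 130067570894238519))) .e) .e)) (.nd (.nd (.nd (.lf
 (.negSucc (nat_lit 52789167692366157))) .e) .e) .e)) (.nd (.nd (.nd (.nd (.lf (.negSucc (nat_lit
 11250693786447201))) .e) .e) (.nd (.nd (.lf (.negSucc (nat_lit 5815270811849759399))) .e) .e))
 (.nd (.nd (.nd (.lf (.negSucc (nat_lit 2618489991989209807))) .e) .e) .e))) (.nd (.nd (.nd (.nd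
 (.nd (.lf (.negSucc (nat_lit 5019449012051885))) .e) .e) (.nd (.nd (.lf (.negSucc (nat_lit
 5352898041467992099))) .e) .e)) (.nd (.nd (.nd (.lf (.negSucc (nat_lit 6988757020988643439))) .e)
 .e) .e)) (.nd (.nd (.nd (.nd (.lf (.negSucc (nat_lit 1003626147390044435))) .e) .e) .e) (.nd (.nd
 (.nd (.lf (.negSucc (nat_lit 11456576151102546899))) .e) .e) .e)))) (.nd (.nd (.nd (.nd (.nd (.nd
 (.lf (.negSucc (nat_lit 4932505571318453))) .e) .e) .e) (.nd (.nd (.nd (.lf (.negSucc (nat_lit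
 2776802792191463427))) .e) .e) .e)) (.nd (.nd (.nd (.nd (.lf (.negSucc (nat_lit
 856076997653070673))) .e) .e) .e) .e)) (.nd (.nd (.nd (.nd (.nd (.lf (.negSucc (nat_lit
 139759880843284043))) .e) .e) .e) (.nd (.nd (.nd (.lf (.negSucc (nat_lit 2481285999627007899)))
 .e) .e) .e)) (.nd (.nd (.nd (.nd (.lf (.negSucc (nat_lit 8468823752488093459))) .e) .e) .e) (.nd
 (.nd (.nd (.lf (.negSucc (nat_lit 5566754062100662649))) .e) .e) .e))))) (.nd (.nd (.nd (.nd (.nd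
 (.nd (.nd (.lf (.negSucc (nat_lit 1022232887594427))) .e) .e) .e) .e) (.nd (.nd (.nd (.nd (.lf
 (.negSucc (nat_lit 166608190989995569))) .e) .e) .e) (.nd (.nd (.nd (.lf (.negSucc (nat_lit
 125705750565153099))) .e) .e) .e))) (.nd (.nd (.nd (.nd (.nd (.lf (.negSucc (nat_lit
 49491779661466995))) .e) .e) .e) (.nd (.nd (.nd (.lf (.ofNat (nat_lit 250492589107801150))) .e)
 .e) .e)) (.nd (.nd (.nd (.nd (.lf (.ofNat (nat_lit 440517704793600))) .e) .e) .e) .e))) (.nd (.nd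
 (.nd (.nd (.nd (.nd (.lf (.negSucc (nat_lit 14398225683812229))) .e) .e) .e) .e) (.nd (.nd (.nd
 (.nd (.lf (.negSucc (nat_lit 1484486987144427459))) .e) .e) .e) (.nd (.nd (.nd (.lf (.ofNat
 (nat_lit 151904449636560950))) .e) .e) .e))) (.nd (.nd (.nd (.nd (.nd (.lf (.negSucc (nat_lit
 1254508416547671319))) .e) .e) .e) .e) (.nd (.nd (.nd (.nd (.lf (.negSucc (nat_lit
 3137486570426692689))) .e) .e) .e) .e))))) .e) .e)) (.nd (.nd (.nd (.nd (.nd (.nd (.nd (.nd .e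
 (.nd (.nd (.nd (.lf (.negSucc (nat_lit 1525800597015704171))) .e) .e) .e)) (.nd (.nd (.nd (.nd
 (.lf (.negSucc (nat_lit 665398045172734053))) .e) .e) .e) (.nd (.nd (.nd (.lf (.negSucc (nat_lit
 6927141644954679076))) .e) .e) .e))) (.nd (.nd (.nd (.nd (.nd (.lf (.negSucc (nat_lit
 122490167351925973))) .e) .e) .e) (.nd (.nd (.nd (.lf (.negSucc (nat_lit 10665787713338003099)))
 .e) .e) .e)) (.nd (.nd (.nd (.nd (.lf (.negSucc (nat_lit 8739087396599404775))) .e) .e) .e) .e)))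
 (.nd (.nd (.nd (.nd (.nd (.nd (.lf (.negSucc (nat_lit 16875787136074339))) .e) .e) .e) (.nd (.nd
 (.nd (.lf (.negSucc (nat_lit 4274018464541061467))) .e) .e) .e)) (.nd (.nd (.nd (.nd (.lf
 (.negSucc (nat_lit 7234818745289792465))) .e) .e) .e) .e)) (.nd (.nd (.nd (.nd (.nd (.lf
 (.negSucc (nat_lit 1713941624761459421))) .e) .e) .e) (.nd (.nd (.nd (.lf (.negSucc (nat_lit
 5868720821816883))) .e) .e) .e)) (.nd (.nd (.nd (.nd (.lf (.negSucc (nat_lit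
 2399044824811092649))) .e) .e) .e) .e)))) (.nd (.nd (.nd (.nd (.nd (.nd (.nd (.lf (.ofNat
 (nat_lit 164936840721882))) .e) .e) .e) .e) (.nd (.nd (.nd (.nd (.lf (.negSucc (nat_lit
 1696913024986819499))) .e) .e) .e) .e)) (.nd (.nd (.nd (.nd (.nd (.lf (.negSucc (nat_lit
 1234411530186396771))) .e) .e) .e) (.nd (.nd (.nd (.lf (.ofNat (nat_lit 300949509587182768))) .e)
 .e) .e)) (.nd (.nd (.nd (.nd (.lf (.ofNat (nat_lit 330809327622144))) .e) .e) .e) .e))) (.nd (.nd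
 (.nd (.nd (.nd (.nd (.lf (.negSucc (nat_lit 234709260253578811))) .e) .e) .e) .e) (.nd (.nd (.nd
 (.nd (.lf (.negSucc (nat_lit 4760774083896489))) .e) .e) .e) .e)) (.nd (.nd (.nd (.nd (.nd (.lf
 (.negSucc (nat_lit 1099259508527689829))) .e) .e) .e) .e) (.nd (.nd (.nd (.nd (.lf (.negSucc
 (nat_lit 596154196971630037))) .e) .e) .e) .e))))) .e) .e) .e))) (.nd (.nd (.nd (.nd (.nd (.nd
 (.nd (.nd .e (.nd (.nd (.nd (.nd (.nd (.lf (.ofNat (nat_lit 388423157328123465))) .e) .e) .e) .e)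
 .e)) (.nd (.nd (.nd (.nd (.nd (.nd (.lf (.ofNat (nat_lit 332427413094514354))) .e) .e) .e) .e)
 .e) .e)) (.nd (.nd (.nd (.nd (.nd (.nd (.nd (.lf (.ofNat (nat_lit 221128210149151158))) .e) .e)
 .e) .e) .e) .e) (.nd (.nd (.nd (.nd (.nd (.nd (.lf (.negSucc (nat_lit 586639205801216735))) .e)
 .e) .e) .e) .e) .e))) .e) .e) (.nd (.nd (.nd (.nd (.nd (.nd (.nd (.nd .e (.nd (.nd (.lf (.negSucc
 (nat_lit 266735866155883395))) .e) .e)) (.nd (.nd (.nd (.lf (.negSucc (nat_lit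
 350585795564874145))) .e) .e) .e)) (.nd (.nd (.nd (.nd (.lf (.negSucc (nat_lit
 43468375203379779))) .e) .e) .e) (.nd (.nd (.nd (.lf (.negSucc (nat_lit 2572709163880800191)))
 .e) .e) .e))) (.nd (.nd (.nd (.nd (.nd (.lf (.ofNat (nat_lit 6531219347804074))) .e) .e) (.nd
 (.nd (.lf (.negSucc (nat_lit 3900744624893337449))) .e) .e)) (.nd (.nd (.nd (.lf (.negSucc
 (nat_lit 4733727491184541069))) .e) .e) .e)) (.nd (.nd (.nd (.nd (.lf (.negSucc (nat_lit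
 2632119724311711911))) .e) .e) .e) (.nd (.nd (.nd (.lf (.negSucc (nat_lit 9565228309637297999)))
 .e) .e) .e)))) (.nd (.nd (.nd (.nd (.nd (.nd (.lf (.ofNat (nat_lit 2221226600775732))) .e) .e)
 .e) (.nd (.nd (.nd (.lf (.negSucc (nat_lit 4293060011392531641))) .e) .e) .e)) (.nd (.nd (.nd
 (.nd (.lf (.negSucc (nat_lit 1932212508658377501))) .e) .e) .e) .e)) (.nd (.nd (.nd (.nd (.nd
 (.lf (.negSucc (nat_lit 818904297126562955))) .e) .e) .e) (.nd (.nd (.nd (.lf (.negSucc (nat_lit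
 2450146137966873249))) .e) .e) .e)) (.nd (.nd (.nd (.nd (.lf (.negSucc (nat_lit
 7825026665582162409))) .e) .e) .e) (.nd (.nd (.nd (.lf (.negSucc (nat_lit 7548899800272303649)))
 .e) .e) .e))))) (.nd (.nd (.nd (.nd (.nd (.nd (.nd (.lf (.ofNat (nat_lit 266613536912068))) .e)
 .e) .e) .e) (.nd (.nd (.nd (.nd (.lf (.negSucc (nat_lit 732827786433977659))) .e) .e) .e) (.nd
 (.nd (.nd (.lf (.ofNat (nat_lit 244966801743782400))) .e) .e) .e))) (.nd (.nd (.nd (.nd (.nd (.lf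
 (.negSucc (nat_lit 230775177488218359))) .e) .e) .e) (.nd (.nd (.nd (.lf (.negSucc (nat_lit
 374548071073967649))) .e) .e) .e)) (.nd (.nd (.nd (.nd (.lf (.negSucc (nat_lit
 1727478381484799))) .e) .e) .e) .e))) (.nd (.nd (.nd (.nd (.nd (.nd (.lf (.negSucc (nat_lit
 116538402808685871))) .e) .e) .e) .e) (.nd (.nd (.nd (.nd (.lf (.negSucc (nat_lit
 1457497651358184899))) .e) .e) .e) (.nd (.nd (.nd (.lf (.negSucc (nat_lit 620361178666138299)))
 .e) .e) .e))) (.nd (.nd (.nd (.nd (.nd (.lf (.negSucc (nat_lit 1337610912893374039))) .e) .e) .e)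
 .e) (.nd (.nd (.nd (.nd (.lf (.negSucc (nat_lit 3673635904236148517))) .e) .e) .e) .e))))) .e)
 .e)) (.nd (.nd (.nd (.nd (.nd (.nd (.nd (.nd .e (.nd (.nd (.nd (.lf (.negSucc (nat_lit
 487789034130107839))) .e) .e) .e)) (.nd (.nd (.nd (.nd (.lf (.negSucc (nat_lit
 96194758137866309))) .e) .e) .e) .e)) (.nd (.nd (.nd (.nd (.nd (.lf (.ofNat (nat_lit
 8524686449013710))) .e) .e) .e) (.nd (.nd (.nd (.lf (.negSucc (nat_lit 12449601975056762804)))
 .e) .e) .e)) (.nd (.nd (.nd (.nd (.lf (.negSucc (nat_lit 4871374381972965441))) .e) .e) .e) .e)))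
 (.nd (.nd (.nd (.nd (.nd (.nd (.lf (.negSucc (nat_lit 56626809663135))) .e) .e) .e) (.nd (.nd
 (.nd (.lf (.negSucc (nat_lit 9125022530087731089))) .e) .e) .e)) (.nd (.nd (.nd (.nd (.lf
 (.negSucc (nat_lit 11048627870024357177))) .e) .e) .e) .e)) (.nd (.nd (.nd (.nd (.nd (.lf
 (.negSucc (nat_lit 759424141640304889))) .e) .e) .e) .e) (.nd (.nd (.nd (.nd (.lf (.negSucc
 (nat_lit 13122746582534762329))) .e) .e) .e) .e)))) (.nd (.nd (.nd (.nd (.nd (.nd (.nd (.lf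
 (.negSucc (nat_lit 8523367471293))) .e) .e) .e) .e) (.nd (.nd (.nd (.nd (.lf (.negSucc (nat_lit
 1948391618519412431))) .e) .e) .e) .e)) (.nd (.nd (.nd (.nd (.nd (.lf (.negSucc (nat_lit
 1529403708186055941))) .e) .e) .e) .e) (.nd (.nd (.nd (.nd (.lf (.negSucc (nat_lit
 2091777194291903))) .e) .e) .e) .e))) (.nd (.nd (.nd (.nd (.nd (.nd (.lf (.negSucc (nat_lit
 86835163427448739))) .e) .e) .e) .e) (.nd (.nd (.nd (.nd (.lf (.negSucc (nat_lit
 1962236512793587299))) .e) .e) .e) .e)) (.nd (.nd (.nd (.nd (.nd (.lf (.negSucc (nat_lit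
 3269745624822988959))) .e) .e) .e) .e) (.nd (.nd (.nd (.nd (.lf (.negSucc (nat_lit
 4130088518866641285))) .e) .e) .e) .e))))) .e) .e) .e)) (.nd (.nd (.nd (.nd (.nd (.nd (.nd (.nd
 .e (.nd (.nd (.nd (.nd (.lf (.negSucc (nat_lit 1498607954236385059))) .e) .e) .e) .e)) (.nd (.nd
 (.nd (.nd (.nd (.lf (.negSucc (nat_lit 220798046386799171))) .e) .e) .e) .e) (.nd (.nd (.nd (.nd
 (.lf (.negSucc (nat_lit 9311980726816525608))) .e) .e) .e) .e))) (.nd (.nd (.nd (.nd (.nd (.nd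
 (.lf (.ofNat (nat_lit 14236625958240442))) .e) .e) .e) .e) (.nd (.nd (.nd (.nd (.lf (.negSucc
 (nat_lit 10346563222454599875))) .e) .e) .e) .e)) (.nd (.nd (.nd (.nd (.nd (.lf (.negSucc
 (nat_lit 7749503746303130857))) .e) .e) .e) .e) .e))) (.nd (.nd (.nd (.nd (.nd (.nd (.nd (.lf
 (.ofNat (nat_lit 9526542543201442))) .e) .e) .e) .e) (.nd (.nd (.nd (.nd (.lf (.negSucc (nat_lit
 2048143568041479723))) .e) .e) .e) .e)) (.nd (.nd (.nd (.nd (.nd (.lf (.negSucc (nat_lit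
 2599132356362157817))) .e) .e) .e) .e) .e)) (.nd (.nd (.nd (.nd (.nd (.nd (.lf (.negSucc (nat_lit
 1127362146524772649))) .e) .e) .e) .e) (.nd (.nd (.nd (.nd (.lf (.negSucc (nat_lit
 36160354570500189))) .e) .e) .e) .e)) (.nd (.nd (.nd (.nd (.nd (.lf (.negSucc (nat_lit
 1392723378620696199))) .e) .e) .e) .e) .e)))) .e) .e) .e) (.nd (.nd (.nd (.nd (.nd (.nd (.nd (.nd
 .e (.nd (.nd (.nd (.lf (.negSucc (nat_lit 34343322743059879))) .e) .e) .e)) (.nd (.nd (.nd (.nd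
 (.lf (.negSucc (nat_lit 49924320521988079))) .e) .e) .e) (.nd (.nd (.nd (.lf (.negSucc (nat_lit
 724106236715472919))) .e) .e) .e))) (.nd (.nd (.nd (.nd (.nd (.lf (.negSucc (nat_lit
 11470702562345759))) .e) .e) .e) (.nd (.nd (.nd (.lf (.negSucc (nat_lit 5040058489791186869)))
 .e) .e) .e)) (.nd (.nd (.nd (.nd (.lf (.negSucc (nat_lit 7115689410221539))) .e) .e) .e) (.nd
 (.nd (.nd (.lf (.negSucc (nat_lit 17321803044911011049))) .e) .e) .e)))) (.nd (.nd (.nd (.nd (.nd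
 (.nd (.lf (.ofNat (nat_lit 728634548685780))) .e) .e) .e) (.nd (.nd (.nd (.lf (.negSucc (nat_lit
 3212834470863345369))) .e) .e) .e)) (.nd (.nd (.nd (.nd (.lf (.negSucc (nat_lit
 542457907488616669))) .e) .e) .e) .e)) (.nd (.nd (.nd (.nd (.nd (.lf (.ofNat (nat_lit
 27257028370459490))) .e) .e) .e) (.nd (.nd (.nd (.lf (.negSucc (nat_lit 15737508078393774249)))
 .e) .e) .e)) (.nd (.nd (.nd (.nd (.lf (.negSucc (nat_lit 16423838233930586399))) .e) .e) .e)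
 .e)))) (.nd (.nd (.nd (.nd (.nd (.nd (.nd (.lf (.negSucc (nat_lit 258705575396079))) .e) .e) .e)
 .e) (.nd (.nd (.nd (.nd (.lf (.negSucc (nat_lit 35497431386911799))) .e) .e) .e) (.nd (.nd (.nd
 (.lf (.negSucc (nat_lit 1596460568493719999))) .e) .e) .e))) (.nd (.nd (.nd (.nd (.nd (.lf
 (.negSucc (nat_lit 52000809462209559))) .e) .e) .e) (.nd (.nd (.nd (.lf (.negSucc (nat_lit
 2506957656079044149))) .e) .e) .e)) (.nd (.nd (.nd (.nd (.lf (.negSucc (nat_lit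
 1420965878692079999))) .e) .e) .e) .e))) (.nd (.nd (.nd (.nd (.nd (.nd (.lf (.ofNat (nat_lit
 15135343714439000))) .e) .e) .e) .e) (.nd (.nd (.nd (.nd (.lf (.negSucc (nat_lit
 4830109807717630499))) .e) .e) .e) (.nd (.nd (.nd (.lf (.negSucc (nat_lit 200585960308825749)))
 .e) .e) .e))) (.nd (.nd (.nd (.nd (.nd (.lf (.negSucc (nat_lit 1891092082700562499))) .e) .e) .e)
 .e) (.nd (.nd (.nd (.nd (.lf (.negSucc (nat_lit 5097590710668242719))) .e) .e) .e) .e))))) .e)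
 .e) .e)))) (.nd (.nd (.nd (.nd (.nd (.nd (.nd (.nd .e (.nd (.nd (.nd (.nd (.nd (.nd (.lf (.ofNat
 (nat_lit 1028713334346959948))) .e) .e) .e) .e) .e) .e)) (.nd (.nd (.nd (.nd (.nd (.nd (.nd (.lf
 (.ofNat (nat_lit 1068492028165906206))) .e) .e) .e) .e) .e) .e) .e)) .e) .e) .e) (.nd (.nd (.nd
 (.nd (.nd (.nd (.nd (.nd .e (.nd (.nd (.nd (.lf (.negSucc (nat_lit 418322808129725275))) .e) .e)
 .e)) (.nd (.nd (.nd (.nd (.lf (.negSucc (nat_lit 385267784499229919))) .e) .e) .e) .e)) (.nd (.nd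
 (.nd (.nd (.nd (.lf (.negSucc (nat_lit 151240022690998229))) .e) .e) .e) .e) (.nd (.nd (.nd (.nd
 (.lf (.negSucc (nat_lit 3704680623959571389))) .e) .e) .e) .e))) (.nd (.nd (.nd (.nd (.nd (.nd
 (.lf (.negSucc (nat_lit 20391139488778767))) .e) .e) .e) (.nd (.nd (.nd (.lf (.negSucc (nat_lit
 3610901215618123397))) .e) .e) .e)) (.nd (.nd (.nd (.nd (.lf (.negSucc (nat_lit
 5483864396437947683))) .e) .e) .e) .e)) (.nd (.nd (.nd (.nd (.nd (.lf (.negSucc (nat_lit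
 1329306521533242985))) .e) .e) .e) .e) (.nd (.nd (.nd (.nd (.lf (.negSucc (nat_lit
 8580406640055920459))) .e) .e) .e) .e)))) (.nd (.nd (.nd (.nd (.nd (.nd (.nd (.lf (.ofNat
 (nat_lit 965077816300798))) .e) .e) .e) .e) (.nd (.nd (.nd (.nd (.lf (.negSucc (nat_lit
 1802588669668007311))) .e) .e) .e) .e)) (.nd (.nd (.nd (.nd (.nd (.lf (.negSucc (nat_lit
 976604882604623107))) .e) .e) .e) .e) (.nd (.nd (.nd (.nd (.lf (.negSucc (nat_lit
 725293154837663))) .e) .e) .e) .e))) (.nd (.nd (.nd (.nd (.nd (.nd (.lf (.negSucc (nat_lit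
 181140926893873411))) .e) .e) .e) .e) (.nd (.nd (.nd (.nd (.lf (.negSucc (nat_lit
 1990248168202364699))) .e) .e) .e) .e)) (.nd (.nd (.nd (.nd (.nd (.lf (.negSucc (nat_lit
 2606618060638772249))) .e) .e) .e) .e) (.nd (.nd (.nd (.nd (.lf (.negSucc (nat_lit
 4770666811389054125))) .e) .e) .e) .e))))) .e) .e) .e)) (.nd (.nd (.nd (.nd (.nd (.nd (.nd (.nd
 .e (.nd (.nd (.nd (.nd (.lf (.negSucc (nat_lit 236434537619035741))) .e) .e) .e) .e)) (.nd (.nd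
 (.nd (.nd (.nd (.lf (.ofNat (nat_lit 48978886196957582))) .e) .e) .e) .e) .e)) (.nd (.nd (.nd
 (.nd (.nd (.nd (.lf (.ofNat (nat_lit 18646018023723492))) .e) .e) .e) .e) (.nd (.nd (.nd (.nd
 (.lf (.negSucc (nat_lit 9954111028688331616))) .e) .e) .e) .e)) (.nd (.nd (.nd (.nd (.nd (.lf
 (.negSucc (nat_lit 3658447835686699553))) .e) .e) .e) .e) .e))) (.nd (.nd (.nd (.nd (.nd (.nd
 (.nd (.lf (.ofNat (nat_lit 6054273489827876))) .e) .e) .e) .e) (.nd (.nd (.nd (.nd (.lf (.negSucc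
 (nat_lit 4617584446575769391))) .e) .e) .e) .e)) (.nd (.nd (.nd (.nd (.nd (.lf (.negSucc (nat_lit
 6390725388278583639))) .e) .e) .e) .e) .e)) (.nd (.nd (.nd (.nd (.nd (.nd (.lf (.negSucc (nat_lit
 541171587249848783))) .e) .e) .e) .e) .e) (.nd (.nd (.nd (.nd (.nd (.lf (.negSucc (nat_lit
 4425657566554966399))) .e) .e) .e) .e) .e)))) .e) .e) .e) .e)) (.nd (.nd (.nd (.nd (.nd (.nd (.nd
 (.nd .e (.nd (.nd (.nd (.nd (.nd (.lf (.negSucc (nat_lit 602037827042704755))) .e) .e) .e) .e)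
 .e)) (.nd (.nd (.nd (.nd (.nd (.nd (.lf (.ofNat (nat_lit 88449229343737062))) .e) .e) .e) .e) .e)
 (.nd (.nd (.nd (.nd (.nd (.lf (.negSucc (nat_lit 5852539600641615487))) .e) .e) .e) .e) .e)))
 (.nd (.nd (.nd (.nd (.nd (.nd (.nd (.lf (.ofNat (nat_lit 61170672950755560))) .e) .e) .e) .e) .e)
 (.nd (.nd (.nd (.nd (.nd (.lf (.negSucc (nat_lit 2871747832412130175))) .e) .e) .e) .e) .e)) (.nd
 (.nd (.nd (.nd (.nd (.nd (.lf (.negSucc (nat_lit 3570173319581526675))) .e) .e) .e) .e) .e) .e)))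
 .e) .e) .e) (.nd (.nd (.nd (.nd (.nd (.nd (.nd (.nd .e (.nd (.nd (.nd (.lf (.ofNat (nat_lit
 23968794732419734))) .e) .e) .e)) (.nd (.nd (.nd (.nd (.lf (.ofNat (nat_lit 32995425732227800)))
 .e) .e) .e) .e)) (.nd (.nd (.nd (.nd (.nd (.lf (.ofNat (nat_lit 10215927398186764))) .e) .e) .e)
 (.nd (.nd (.nd (.lf (.negSucc (nat_lit 1439134995865728255))) .e) .e) .e)) (.nd (.nd (.nd (.nd
 (.lf (.negSucc (nat_lit 47197819394273513))) .e) .e) .e) .e))) (.nd (.nd (.nd (.nd (.nd (.nd (.lf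
 (.ofNat (nat_lit 3619810383481472))) .e) .e) .e) (.nd (.nd (.nd (.lf (.negSucc (nat_lit
 1476726984877340405))) .e) .e) .e)) (.nd (.nd (.nd (.nd (.lf (.ofNat (nat_lit
 40237190799772970))) .e) .e) .e) .e)) (.nd (.nd (.nd (.nd (.nd (.lf (.negSucc (nat_lit
 18021182847945749))) .e) .e) .e) (.nd (.nd (.nd (.lf (.negSucc (nat_lit 16770639115583255974)))
 .e) .e) .e)) (.nd (.nd (.nd (.nd (.lf (.negSucc (nat_lit 7398783320367121529))) .e) .e) .e)
 .e)))) (.nd (.nd (.nd (.nd (.nd (.nd (.nd (.lf (.ofNat (nat_lit 1645133554451720))) .e) .e) .e)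
 .e) (.nd (.nd (.nd (.nd (.lf (.negSucc (nat_lit 33494911004779753))) .e) .e) .e) .e)) (.nd (.nd
 (.nd (.nd (.nd (.lf (.ofNat (nat_lit 31385427833198452))) .e) .e) .e) (.nd (.nd (.nd (.lf
 (.negSucc (nat_lit 13389573075466053149))) .e) .e) .e)) (.nd (.nd (.nd (.nd (.lf (.negSucc
 (nat_lit 6663610091300399999))) .e) .e) .e) .e))) (.nd (.nd (.nd (.nd (.nd (.nd (.lf (.negSucc
 (nat_lit 11282508778281015))) .e) .e) .e) .e) (.nd (.nd (.nd (.nd (.lf (.negSucc (nat_lit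
 12185977160971807639))) .e) .e) .e) .e)) (.nd (.nd (.nd (.nd (.nd (.lf (.negSucc (nat_lit
 1204459400759083199))) .e) .e) .e) .e) (.nd (.nd (.nd (.nd (.lf (.negSucc (nat_lit
 2958679521551666773))) .e) .e) .e) .e))))) .e) .e) .e)) (.nd (.nd (.nd (.nd (.nd (.nd (.nd (.nd
 .e (.nd (.nd (.nd (.nd (.lf (.negSucc (nat_lit 64974028317945699))) .e) .e) .e) .e)) (.nd (.nd
 (.nd (.nd (.nd (.lf (.negSucc (nat_lit 17877507595657759))) .e) .e) .e) .e) (.nd (.nd (.nd (.nd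
 (.lf (.negSucc (nat_lit 1020511134616870559))) .e) .e) .e) .e))) (.nd (.nd (.nd (.nd (.nd (.nd
 (.lf (.negSucc (nat_lit 525920449639159))) .e) .e) .e) .e) (.nd (.nd (.nd (.nd (.lf (.negSucc
 (nat_lit 4829911373731927589))) .e) .e) .e) .e)) (.nd (.nd (.nd (.nd (.nd (.lf (.ofNat (nat_lit
 33971481491248610))) .e) .e) .e) .e) (.nd (.nd (.nd (.nd (.lf (.negSucc (nat_lit
 13314863757000768074))) .e) .e) .e) .e)))) (.nd (.nd (.nd (.nd (.nd (.nd (.nd (.lf (.negSucc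
 (nat_lit 12401905821039))) .e) .e) .e) .e) (.nd (.nd (.nd (.nd (.lf (.negSucc (nat_lit
 1057881880984251529))) .e) .e) .e) .e)) (.nd (.nd (.nd (.nd (.nd (.lf (.negSucc (nat_lit
 757309580127268649))) .e) .e) .e) .e) (.nd (.nd (.nd (.nd (.lf (.ofNat (nat_lit
 5233197187723680))) .e) .e) .e) .e))) (.nd (.nd (.nd (.nd (.nd (.nd (.lf (.ofNat (nat_lit
 22183387419380550))) .e) .e) .e) .e) (.nd (.nd (.nd (.nd (.lf (.negSucc (nat_lit
 6228839262509217349))) .e) .e) .e) .e)) (.nd (.nd (.nd (.nd (.nd (.lf (.negSucc (nat_lit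
 8456540480842681399))) .e) .e) .e) .e) .e)))) .e) .e) .e) (.nd (.nd (.nd (.nd (.nd (.nd (.nd (.nd
 .e (.nd (.nd (.nd (.lf (.negSucc (nat_lit 220918778357023033))) .e) .e) .e)) (.nd (.nd (.nd (.nd
 (.lf (.negSucc (nat_lit 41139780602363995))) .e) .e) .e) (.nd (.nd (.nd (.lf (.negSucc (nat_lit
 821843209227798247))) .e) .e) .e))) (.nd (.nd (.nd (.nd (.nd (.lf (.ofNat (nat_lit
 3536757392726488))) .e) .e) .e) (.nd (.nd (.nd (.lf (.negSucc (nat_lit 4285535913920881407))) .e)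
 .e) .e)) (.nd (.nd (.nd (.nd (.lf (.negSucc (nat_lit 1470994898994171243))) .e) .e) .e) (.nd (.nd
 (.nd (.lf (.negSucc (nat_lit 20642124952823239549))) .e) .e) .e)))) (.nd (.nd (.nd (.nd (.nd (.nd
 (.lf (.ofNat (nat_lit 1625178867127042))) .e) .e) .e) (.nd (.nd (.nd (.lf (.negSucc (nat_lit
 3880255568845392541))) .e) .e) .e)) (.nd (.nd (.nd (.nd (.lf (.negSucc (nat_lit
 1314853567167765837))) .e) .e) .e) .e)) (.nd (.nd (.nd (.nd (.nd (.lf (.negSucc (nat_lit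
 486817659756650015))) .e) .e) .e) (.nd (.nd (.nd (.lf (.negSucc (nat_lit 18287264582794915599)))
 .e) .e) .e)) (.nd (.nd (.nd (.nd (.lf (.negSucc (nat_lit 14394759300063204489))) .e) .e) .e) (.nd
 (.nd (.nd (.lf (.negSucc (nat_lit 9295340020431225874))) .e) .e) .e))))) (.nd (.nd (.nd (.nd (.nd
 (.nd (.nd (.lf (.ofNat (nat_lit 587932613329840))) .e) .e) .e) .e) (.nd (.nd (.nd (.nd (.lf
 (.negSucc (nat_lit 431237369788174947))) .e) .e) .e) (.nd (.nd (.nd (.lf (.negSucc (nat_lit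
 2507769423908977199))) .e) .e) .e))) (.nd (.nd (.nd (.nd (.nd (.lf (.negSucc (nat_lit
 161403326659519079))) .e) .e) .e) (.nd (.nd (.nd (.lf (.negSucc (nat_lit 6618085687418364899)))
 .e) .e) .e)) (.nd (.nd (.nd (.nd (.lf (.negSucc (nat_lit 2852036013359433599))) .e) .e) .e) .e)))
 (.nd (.nd (.nd (.nd (.nd (.nd (.lf (.negSucc (nat_lit 67774021989466857))) .e) .e) .e) .e) (.nd
 (.nd (.nd (.nd (.lf (.negSucc (nat_lit 7567102344704943259))) .e) .e) .e) (.nd (.nd (.nd (.lf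
 (.negSucc (nat_lit 2012727862837290799))) .e) .e) .e))) (.nd (.nd (.nd (.nd (.nd (.lf (.negSucc
 (nat_lit 2477676992038428459))) .e) .e) .e) .e) (.nd (.nd (.nd (.nd (.lf (.negSucc (nat_lit
 6509742721737843971))) .e) .e) .e) .e))))) .e) .e) .e))))) (.nd (.nd (.nd (.nd (.nd (.nd (.nd
 (.nd .e (.nd (.nd (.nd (.nd (.nd (.nd (.nd (.lf (.ofNat (nat_lit 286240209764065016))) .e) .e)
 .e) .e) .e) .e) .e)) .e) .e) .e) .e) (.nd (.nd (.nd (.nd (.nd (.nd (.nd (.nd .e (.nd (.nd (.nd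
 (.nd (.lf (.negSucc (nat_lit 130490491899661055))) .e) .e) .e) .e)) (.nd (.nd (.nd (.nd (.nd (.lf
 (.negSucc (nat_lit 114172036952090105))) .e) .e) .e) .e) .e)) (.nd (.nd (.nd (.nd (.nd (.nd (.lf
 (.negSucc (nat_lit 23557421084146267))) .e) .e) .e) .e) .e) (.nd (.nd (.nd (.nd (.nd (.lf
 (.negSucc (nat_lit 58959528758336521))) .e) .e) .e) .e) .e))) (.nd (.nd (.nd (.nd (.nd (.nd (.nd
 (.lf (.ofNat (nat_lit 2135892911963848))) .e) .e) .e) .e) (.nd (.nd (.nd (.nd (.lf (.negSucc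
 (nat_lit 888725838615616012))) .e) .e) .e) .e)) (.nd (.nd (.nd (.nd (.nd (.lf (.negSucc (nat_lit
 1108593535451892359))) .e) .e) .e) .e) .e)) (.nd (.nd (.nd (.nd (.nd (.nd (.lf (.negSucc (nat_lit
 798190239265083))) .e) .e) .e) .e) .e) (.nd (.nd (.nd (.nd (.nd (.lf (.negSucc (nat_lit
 1415119477232621059))) .e) .e) .e) .e) .e)))) .e) .e) .e) (.nd (.nd (.nd (.nd (.nd (.nd (.nd (.nd
 .e (.nd (.nd (.nd (.lf (.ofNat (nat_lit 28425221141164368))) .e) .e) .e)) (.nd (.nd (.nd (.nd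
 (.lf (.ofNat (nat_lit 36458702933204204))) .e) .e) .e) (.nd (.nd (.nd (.lf (.negSucc (nat_lit
 149980899972165383))) .e) .e) .e))) (.nd (.nd (.nd (.nd (.nd (.lf (.ofNat (nat_lit
 11769108164947780))) .e) .e) .e) (.nd (.nd (.nd (.lf (.negSucc (nat_lit 69692301298407123))) .e)
 .e) .e)) (.nd (.nd (.nd (.nd (.lf (.negSucc (nat_lit 16961793137751895))) .e) .e) .e) .e))) (.nd
 (.nd (.nd (.nd (.nd (.nd (.lf (.ofNat (nat_lit 3508082198490340))) .e) .e) .e) (.nd (.nd (.nd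
 (.lf (.negSucc (nat_lit 41832746576321699))) .e) .e) .e)) (.nd (.nd (.nd (.nd (.lf (.ofNat
 (nat_lit 123947396520724904))) .e) .e) .e) .e)) (.nd (.nd (.nd (.nd (.nd (.lf (.negSucc (nat_lit
 17945335074387923))) .e) .e) .e) (.nd (.nd (.nd (.lf (.negSucc (nat_lit 6611083263565444799)))
 .e) .e) .e)) (.nd (.nd (.nd (.nd (.lf (.negSucc (nat_lit 193365573051895919))) .e) .e) .e) .e))))
 (.nd (.nd (.nd (.nd (.nd (.nd (.nd (.lf (.ofNat (nat_lit 1289253164560488))) .e) .e) .e) .e) (.nd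
 (.nd (.nd (.nd (.lf (.negSucc (nat_lit 16735632564333255))) .e) .e) .e) (.nd (.nd (.nd (.lf
 (.negSucc (nat_lit 732412581326921649))) .e) .e) .e))) (.nd (.nd (.nd (.nd (.nd (.lf (.ofNat
 (nat_lit 45761804932660828))) .e) .e) .e) (.nd (.nd (.nd (.lf (.negSucc (nat_lit
 2726983832094950399))) .e) .e) .e)) (.nd (.nd (.nd (.nd (.lf (.negSucc (nat_lit
 1428725599274131199))) .e) .e) .e) .e))) (.nd (.nd (.nd (.nd (.nd (.nd (.lf (.negSucc (nat_lit
 14845791667591151))) .e) .e) .e) .e) (.nd (.nd (.nd (.nd (.lf (.negSucc (nat_lit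
 2260319289656325839))) .e) .e) .e) .e)) (.nd (.nd (.nd (.nd (.nd (.lf (.negSucc (nat_lit
 33312095169700319))) .e) .e) .e) .e) (.nd (.nd (.nd (.nd (.lf (.ofNat (nat_lit
 56962407518416896))) .e) .e) .e) .e))))) .e) .e) .e))) (.nd (.nd (.nd (.nd (.nd (.nd (.nd (.nd .e
 (.nd (.nd (.nd (.nd (.nd (.lf (.ofNat (nat_lit 4942258637843148))) .e) .e) .e) .e) .e)) (.nd (.nd
 (.nd (.nd (.nd (.nd (.lf (.negSucc (nat_lit 5849597715450351))) .e) .e) .e) .e) .e) .e)) (.nd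
 (.nd (.nd (.nd (.nd (.nd (.nd (.lf (.ofNat (nat_lit 3122052691106542))) .e) .e) .e) .e) .e) (.nd
 (.nd (.nd (.nd (.nd (.lf (.negSucc (nat_lit 1546832762365867378))) .e) .e) .e) .e) .e)) (.nd (.nd
 (.nd (.nd (.nd (.nd (.lf (.negSucc (nat_lit 661724527135983795))) .e) .e) .e) .e) .e) .e))) .e)
 .e) .e) (.nd (.nd (.nd (.nd (.nd (.nd (.nd (.nd .e (.nd (.nd (.nd (.lf (.negSucc (nat_lit
 35232759026638467))) .e) .e) .e)) (.nd (.nd (.nd (.nd (.lf (.negSucc (nat_lit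
 48000421958954979))) .e) .e) .e) .e)) (.nd (.nd (.nd (.nd (.nd (.lf (.negSucc (nat_lit
 18131291696352187))) .e) .e) .e) (.nd (.nd (.nd (.lf (.ofNat (nat_lit 183807555074123382))) .e)
 .e) .e)) (.nd (.nd (.nd (.nd (.lf (.negSucc (nat_lit 11373547411612861))) .e) .e) .e) .e))) (.nd
 (.nd (.nd (.nd (.nd (.nd (.lf (.negSucc (nat_lit 4500329267973663))) .e) .e) .e) (.nd (.nd (.nd
 (.lf (.ofNat (nat_lit 200070255572756922))) .e) .e) .e)) (.nd (.nd (.nd (.nd (.lf (.negSucc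
 (nat_lit 260535101780103849))) .e) .e) .e) .e)) (.nd (.nd (.nd (.nd (.nd (.lf (.ofNat (nat_lit
 21986857539504770))) .e) .e) .e) .e) (.nd (.nd (.nd (.nd (.lf (.ofNat (nat_lit
 378060013415234110))) .e) .e) .e) .e)))) (.nd (.nd (.nd (.nd (.nd (.nd (.nd (.lf (.negSucc
 (nat_lit 23834980983799))) .e) .e) .e) .e) (.nd (.nd (.nd (.nd (.lf (.negSucc (nat_lit
 10947773684764091))) .e) .e) .e) .e)) (.nd (.nd (.nd (.nd (.nd (.lf (.negSucc (nat_lit
 63351678806227543))) .e) .e) .e) (.nd (.nd (.nd (.lf (.negSucc (nat_lit 3043196852275329474)))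
 .e) .e) .e)) (.nd (.nd (.nd (.nd (.lf (.negSucc (nat_lit 2847389905882367999))) .e) .e) .e) .e)))
 (.nd (.nd (.nd (.nd (.nd (.nd (.lf (.ofNat (nat_lit 23752175891505452))) .e) .e) .e) .e) (.nd
 (.nd (.nd (.nd (.lf (.negSucc (nat_lit 4654448403604247519))) .e) .e) .e) .e)) (.nd (.nd (.nd
 (.nd (.nd (.lf (.ofNat (nat_lit 11129567316657100))) .e) .e) .e) .e) (.nd (.nd (.nd (.nd (.lf
 (.negSucc (nat_lit 98773211203300641))) .e) .e) .e) .e))))) .e) .e) .e)) (.nd (.nd (.nd (.nd (.nd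
 (.nd (.nd (.nd .e (.nd (.nd (.nd (.nd (.lf (.negSucc (nat_lit 1739710763935199))) .e) .e) .e)
 .e)) (.nd (.nd (.nd (.nd (.nd (.lf (.negSucc (nat_lit 569417056704383))) .e) .e) .e) .e) (.nd
 (.nd (.nd (.nd (.lf (.ofNat (nat_lit 2759948605842624))) .e) .e) .e) .e))) (.nd (.nd (.nd (.nd
 (.nd (.nd (.lf (.negSucc (nat_lit 307165166771231))) .e) .e) .e) .e) (.nd (.nd (.nd (.nd (.lf
 (.negSucc (nat_lit 3134525850025919))) .e) .e) .e) .e)) (.nd (.nd (.nd (.nd (.nd (.lf (.ofNat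
 (nat_lit 365118140459520))) .e) .e) .e) .e) .e))) (.nd (.nd (.nd (.nd (.nd (.nd (.nd (.lf
 (.negSucc (nat_lit 36476483924159))) .e) .e) .e) .e) (.nd (.nd (.nd (.nd (.lf (.ofNat (nat_lit
 1454058770308704))) .e) .e) .e) .e)) (.nd (.nd (.nd (.nd (.nd (.lf (.negSucc (nat_lit
 2442314171287871))) .e) .e) .e) .e) (.nd (.nd (.nd (.nd (.lf (.negSucc (nat_lit
 712948308954335999))) .e) .e) .e) .e))) (.nd (.nd (.nd (.nd (.nd (.nd (.lf (.ofNat (nat_lit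
 217544447667456))) .e) .e) .e) .e) (.nd (.nd (.nd (.nd (.lf (.negSucc (nat_lit
 2302329495003017759))) .e) .e) .e) .e)) (.nd (.nd (.nd (.nd (.nd (.lf (.ofNat (nat_lit
 3106902579681600))) .e) .e) .e) .e) .e)))) .e) .e) .e) .e))) (.nd (.nd (.nd (.nd (.nd (.nd (.nd
 (.nd .e (.nd (.nd (.nd (.nd (.nd (.nd (.lf (.negSucc (nat_lit 182391821475074535))) .e) .e) .e)
 .e) .e) .e)) (.nd (.nd (.nd (.nd (.nd (.nd (.nd (.lf (.ofNat (nat_lit 27366233967243764))) .e)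
 .e) .e) .e) .e) .e) (.nd (.nd (.nd (.nd (.nd (.nd (.lf (.negSucc (nat_lit 758621455816446449)))
 .e) .e) .e) .e) .e) .e))) .e) .e) .e) .e) (.nd (.nd (.nd (.nd (.nd (.nd (.nd (.nd .e (.nd (.nd
 (.nd (.nd (.lf (.ofNat (nat_lit 26026587232480490))) .e) .e) .e) .e)) (.nd (.nd (.nd (.nd (.nd
 (.lf (.ofNat (nat_lit 8040885840174780))) .e) .e) .e) .e) .e)) (.nd (.nd (.nd (.nd (.nd (.nd (.lf
 (.ofNat (nat_lit 2331992521769640))) .e) .e) .e) .e) (.nd (.nd (.nd (.nd (.lf (.ofNat (nat_lit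
 31431614721644120))) .e) .e) .e) .e)) (.nd (.nd (.nd (.nd (.nd (.lf (.negSucc (nat_lit
 14581337553455269))) .e) .e) .e) .e) .e))) (.nd (.nd (.nd (.nd (.nd (.nd (.nd (.lf (.ofNat
 (nat_lit 1033821830521300))) .e) .e) .e) .e) (.nd (.nd (.nd (.nd (.lf (.negSucc (nat_lit
 27612539806596579))) .e) .e) .e) .e)) (.nd (.nd (.nd (.nd (.nd (.lf (.ofNat (nat_lit
 24853779962122450))) .e) .e) .e) .e) .e)) (.nd (.nd (.nd (.nd (.nd (.nd (.lf (.negSucc (nat_lit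
 9832601667533079))) .e) .e) .e) .e) (.nd (.nd (.nd (.nd (.lf (.negSucc (nat_lit
 2837342703141165174))) .e) .e) .e) .e)) (.nd (.nd (.nd (.nd (.nd (.lf (.negSucc (nat_lit
 1531151443341423449))) .e) .e) .e) .e) .e)))) .e) .e) .e) (.nd (.nd (.nd (.nd (.nd (.nd (.nd (.nd
 .e (.nd (.nd (.nd (.lf (.ofNat (nat_lit 69834253816829792))) .e) .e) .e)) (.nd (.nd (.nd (.nd
 (.lf (.ofNat (nat_lit 22497515872492504))) .e) .e) .e) (.nd (.nd (.nd (.lf (.ofNat (nat_lit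
 158536592091041790))) .e) .e) .e))) (.nd (.nd (.nd (.nd (.nd (.lf (.negSucc (nat_lit
 4670696844931615))) .e) .e) .e) (.nd (.nd (.nd (.lf (.ofNat (nat_lit 157135335379209212))) .e)
 .e) .e)) (.nd (.nd (.nd (.nd (.lf (.negSucc (nat_lit 107458328393332799))) .e) .e) .e) .e))) (.nd
 (.nd (.nd (.nd (.nd (.nd (.lf (.negSucc (nat_lit 3202991450777207))) .e) .e) .e) (.nd (.nd (.nd
 (.lf (.ofNat (nat_lit 68214487480802802))) .e) .e) .e)) (.nd (.nd (.nd (.nd (.lf (.negSucc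
 (nat_lit 253080275979111991))) .e) .e) .e) .e)) (.nd (.nd (.nd (.nd (.nd (.lf (.ofNat (nat_lit
 3114229934705944))) .e) .e) .e) (.nd (.nd (.nd (.lf (.negSucc (nat_lit 2236262366951311049))) .e)
 .e) .e)) (.nd (.nd (.nd (.nd (.lf (.ofNat (nat_lit 277833521302111510))) .e) .e) .e) .e)))) (.nd
 (.nd (.nd (.nd (.nd (.nd (.nd (.lf (.ofNat (nat_lit 8531687885704))) .e) .e) .e) .e) (.nd (.nd
 (.nd (.nd (.lf (.negSucc (nat_lit 124524812627039867))) .e) .e) .e) (.nd (.nd (.nd (.lf (.negSucc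
 (nat_lit 314158795170249599))) .e) .e) .e))) (.nd (.nd (.nd (.nd (.nd (.lf (.negSucc (nat_lit
 35628162270568563))) .e) .e) .e) (.nd (.nd (.nd (.lf (.negSucc (nat_lit 1399409066798978699)))
 .e) .e) .e)) (.nd (.nd (.nd (.nd (.lf (.negSucc (nat_lit 473919940790956799))) .e) .e) .e) .e)))
 (.nd (.nd (.nd (.nd (.nd (.nd (.lf (.ofNat (nat_lit 5590143960474510))) .e) .e) .e) .e) (.nd (.nd
 (.nd (.nd (.lf (.negSucc (nat_lit 780139654970410079))) .e) .e) .e) (.nd (.nd (.nd (.lf (.negSucc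
 (nat_lit 386608624984736249))) .e) .e) .e))) (.nd (.nd (.nd (.nd (.nd (.lf (.negSucc (nat_lit
 51368875744338619))) .e) .e) .e) .e) (.nd (.nd (.nd (.nd (.lf (.negSucc (nat_lit
 93153345460511463))) .e) .e) .e) .e))))) .e) .e) .e))) (.nd (.nd (.nd (.nd (.nd (.nd (.nd (.nd .e
 (.nd (.nd (.nd (.nd (.nd (.lf (.negSucc (nat_lit 16406632265694209))) .e) .e) .e) .e) .e)) (.nd
 (.nd (.nd (.nd (.nd (.nd (.lf (.negSucc (nat_lit 3964128985185089))) .e) .e) .e) .e) .e) (.nd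
 (.nd (.nd (.nd (.nd (.lf (.ofNat (nat_lit 23595015197001470))) .e) .e) .e) .e) .e))) (.nd (.nd
 (.nd (.nd (.nd (.nd (.nd (.lf (.negSucc (nat_lit 225678422955719))) .e) .e) .e) .e) .e) (.nd (.nd
 (.nd (.nd (.nd (.lf (.negSucc (nat_lit 1089439126608315129))) .e) .e) .e) .e) .e)) (.nd (.nd (.nd
 (.nd (.nd (.nd (.lf (.ofNat (nat_lit 15770721938667220))) .e) .e) .e) .e) .e) (.nd (.nd (.nd (.nd
 (.nd (.lf (.negSucc (nat_lit 2189225301686321699))) .e) .e) .e) .e) .e)))) .e) .e) .e) .e) (.nd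
 (.nd (.nd (.nd (.nd (.nd (.nd (.nd .e (.nd (.nd (.nd (.nd (.lf (.negSucc (nat_lit
 19438515743567389))) .e) .e) .e) .e)) (.nd (.nd (.nd (.nd (.nd (.lf (.ofNat (nat_lit
 2304868566807296))) .e) .e) .e) .e) (.nd (.nd (.nd (.nd (.lf (.negSucc (nat_lit
 477758226622492059))) .e) .e) .e) .e))) (.nd (.nd (.nd (.nd (.nd (.nd (.lf (.negSucc (nat_lit
 930530855522025))) .e) .e) .e) .e) (.nd (.nd (.nd (.nd (.lf (.ofNat (nat_lit 54622645463549692)))
 .e) .e) .e) .e)) (.nd (.nd (.nd (.nd (.nd (.lf (.negSucc (nat_lit 267591069684693501))) .e) .e)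
 .e) .e) (.nd (.nd (.nd (.nd (.lf (.negSucc (nat_lit 12442279695564220249))) .e) .e) .e) .e))))
 (.nd (.nd (.nd (.nd (.nd (.nd (.nd (.lf (.ofNat (nat_lit 897086209372332))) .e) .e) .e) .e) (.nd
 (.nd (.nd (.nd (.lf (.negSucc (nat_lit 100842462486415779))) .e) .e) .e) .e)) (.nd (.nd (.nd (.nd
 (.nd (.lf (.negSucc (nat_lit 13734688062861105))) .e) .e) .e) .e) (.nd (.nd (.nd (.nd (.lf
 (.negSucc (nat_lit 2657611300762655))) .e) .e) .e) .e))) (.nd (.nd (.nd (.nd (.nd (.nd (.lf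
 (.negSucc (nat_lit 28604448725537669))) .e) .e) .e) .e) (.nd (.nd (.nd (.nd (.lf (.negSucc
 (nat_lit 3984549703401489069))) .e) .e) .e) .e)) (.nd (.nd (.nd (.nd (.nd (.lf (.negSucc (nat_lit
 3013253977513472169))) .e) .e) .e) .e) (.nd (.nd (.nd (.nd (.lf (.negSucc (nat_lit
 4177237119796353565))) .e) .e) .e) .e))))) .e) .e) .e) .e)))))

end Pool.Agent.H58.BJ.D6
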