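import Pool.Agent.H58.BJ.D6.U9
import Pool.Agent.H58.BJ.D6.U10

/-! # Certificate data (6 jets, exponent 28/25) -/

set_option autoImplicit false

namespace Pool.Agent.H58.BJ.D6

open Pool.Agent.H58.BJ

/-- rows of a block -/
noncomputable def B10_0 : List (Row × List ℤ) := [((nat_lit 1, nat_lit 1, false), [.ofNat (nat_lit
 6011795)]), ((nat_lit 1, nat_lit 2, false), [.ofNat (nat_lit 4897188), .ofNat (nat_lit
 7648625)]), ((nat_lit 2, nat_lit 1, false), [.ofNat (nat_lit 10998134), .negSucc (nat_lit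
 1895618), .ofNat (nat_lit 9776446)]), ((nat_lit 2, nat_lit 2, false), [.ofNat (nat_lit 2727092),
 .ofNat (nat_lit 16155533), .ofNat (nat_lit 6413056), .ofNat (nat_lit 12037145)]), ((nat_lit 3,
 nat_lit 1, false), [.ofNat (nat_lit 8262180), .negSucc (nat_lit 2599411), .negSucc (nat_lit
 3716195), .ofNat (nat_lit 2407040), .ofNat (nat_lit 10707954)]), ((nat_lit 3, nat_lit 2, false),
 [.ofNat (nat_lit 7583199), .ofNat (nat_lit 2413821), .negSucc (nat_lit 2770417), .negSucc
 (nat_lit 4160402), .ofNat (nat_lit 9338145), .ofNat (nat_lit 13794515)]), ((nat_lit 4, nat_lit 1,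
 false), [.ofNat (nat_lit 4852548), .negSucc (nat_lit 4953081), .ofNat (nat_lit 14793812),
 .negSucc (nat_lit 733886), .ofNat (nat_lit 579793), .negSucc (nat_lit 97515), .ofNat (nat_lit
 12911702)]), ((nat_lit 4, nat_lit 2, false), [.negSucc (nat_lit 4974005), .ofNat (nat_lit
 6168103), .ofNat (nat_lit 3214188), .ofNat (nat_lit 20583509), .negSucc (nat_lit 968539), .ofNat
 (nat_lit 375752), .ofNat (nat_lit 7946205), .ofNat (nat_lit 12513700)]), ((nat_lit 5, nat_lit 1,
 false), [.ofNat (nat_lit 1708350), .ofNat (nat_lit 3264684), .negSucc (nat_lit 2374649), .ofNat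
 (nat_lit 5721722), .negSucc (nat_lit 3825432), .negSucc (nat_lit 4702141), .ofNat (nat_lit
 2674804), .negSucc (nat_lit 172472), .ofNat (nat_lit 14382983)]), ((nat_lit 5, nat_lit 2, false),
 [.ofNat (nat_lit 2014717), .ofNat (nat_lit 6674707), .negSucc (nat_lit 280788), .ofNat (nat_lit
 1719970), .negSucc (nat_lit 2897974), .negSucc (nat_lit 6206876), .ofNat (nat_lit 1512208),
 .ofNat (nat_lit 826542), .ofNat (nat_lit 13182711), .ofNat (nat_lit 12249855)]), ((nat_lit 6,
 nat_lit 1, false), [.ofNat (nat_lit 4511929), .negSucc (nat_lit 4979993), .ofNat (nat_lit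
 3281132), .ofNat (nat_lit 285193), .ofNat (nat_lit 11961992), .negSucc (nat_lit 4888737),
 .negSucc (nat_lit 5254185), .ofNat (nat_lit 3104333), .ofNat (nat_lit 2425435), .negSucc (nat_lit
 1780226), .ofNat (nat_lit 14869443)]), ((nat_lit 6, nat_lit 2, false), [.ofNat (nat_lit 20615),
 .ofNat (nat_lit 583027), .ofNat (nat_lit 3154883), .negSucc (nat_lit 4310287), .ofNat (nat_lit
 2637141), .ofNat (nat_lit 16293599), .negSucc (nat_lit 5019788), .negSucc (nat_lit 1807600),
 .ofNat (nat_lit 1281839), .negSucc (nat_lit 175543), .ofNat (nat_lit 10792120), .ofNat (nat_lit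
 16491341)]), ((nat_lit 8, nat_lit 1, false), [.negSucc (nat_lit 869089), .negSucc (nat_lit
 1186857), .ofNat (nat_lit 4723713), .negSucc (nat_lit 4740020), .ofNat (nat_lit 910903), .negSucc
 (nat_lit 1846167), .ofNat (nat_lit 16920730), .negSucc (nat_lit 3289560), .ofNat (nat_lit
 688802), .negSucc (nat_lit 1633104), .ofNat (nat_lit 954581), .ofNat (nat_lit 2944140), .ofNat
 (nat_lit 11590704)]), ((nat_lit 8, nat_lit 2, false), [.negSucc (nat_lit 614561), .negSucc
 (nat_lit 3056137), .negSucc (nat_lit 4126466), .ofNat (nat_lit 883695), .negSucc (nat_lit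
 1930689), .ofNat (nat_lit 1547012), .ofNat (nat_lit 1690515), .ofNat (nat_lit 17744406), .negSucc
 (nat_lit 930974), .negSucc (nat_lit 380046), .ofNat (nat_lit 565042), .ofNat (nat_lit 2038297),
 .ofNat (nat_lit 9578753), .ofNat (nat_lit 11042093)]), ((nat_lit 7, nat_lit 1, false), [.ofNat
 (nat_lit 2283672), .ofNat (nat_lit 643582), .negSucc (nat_lit 1572939), .negSucc (nat_lit
 2061408), .negSucc (nat_lit 273703), .ofNat (nat_lit 1907970), .ofNat (nat_lit 662725), .negSucc
 (nat_lit 1263090), .negSucc (nat_lit 3134300), .negSucc (nat_lit 206632), .ofNat (nat_lit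
 941158), .ofNat (nat_lit 91668), .negSucc (nat_lit 1458783), .ofNat (nat_lit 1435737), .ofNat
 (nat_lit 10567094)]), ((nat_lit 7, nat_lit 2, false), [.ofNat (nat_lit 3493686), .ofNat (nat_lit
 1142467), .negSucc (nat_lit 1095820), .negSucc (nat_lit 5196627), .ofNat (nat_lit 419434), .ofNat
 (nat_lit 1326729), .negSucc (nat_lit 507638), .ofNat (nat_lit 151858), .negSucc (nat_lit
 4327519), .negSucc (nat_lit 956501), .ofNat (nat_lit 615213), .ofNat (nat_lit 1300596), .negSucc
 (nat_lit 1621481), .ofNat (nat_lit 573272), .ofNat (nat_lit 14522600), .ofNat (nat_lit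
 7569586)]), ((nat_lit 10, nat_lit 1, false), [.ofNat (nat_lit 766865), .negSucc (nat_lit
 1672183), .ofNat (nat_lit 989771), .ofNat (nat_lit 3938305), .negSucc (nat_lit 3901718), .negSucc
 (nat_lit 1094699), .negSucc (nat_lit 1114141), .ofNat (nat_lit 579415), .ofNat (nat_lit
 10690077), .negSucc (nat_lit 1069233), .negSucc (nat_lit 1098015), .ofNat (nat_lit 921613),
 .ofNat (nat_lit 3383467), .negSucc (nat_lit 2999219), .ofNat (nat_lit 1750114), .negSucc (nat_lit
 1501135), .ofNat (nat_lit 13331224)]), ((nat_lit 10, nat_lit 2, false), [.ofNat (nat_lit 747976),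
 .negSucc (nat_lit 633658), .ofNat (nat_lit 3578546), .negSucc (nat_lit 1922867), .ofNat (nat_lit
 428770), .ofNat (nat_lit 1829295), .negSucc (nat_lit 2136090), .negSucc (nat_lit 1605666),
 .negSucc (nat_lit 312926), .ofNat (nat_lit 13851152), .negSucc (nat_lit 469429), .negSucc
 (nat_lit 2241705), .ofNat (nat_lit 2149241), .ofNat (nat_lit 718256), .ofNat (nat_lit 1267390),
 .ofNat (nat_lit 985584), .ofNat (nat_lit 17515179), .ofNat (nat_lit 9658571)]), ((nat_lit 9,
 nat_lit 1, false), [.negSucc (nat_lit 958768), .ofNat (nat_lit 522139), .negSucc (nat_lit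
 3641221), .ofNat (nat_lit 5080990), .ofNat (nat_lit 7259736), .negSucc (nat_lit 3210081), .ofNat
 (nat_lit 2392424), .negSucc (nat_lit 353937), .ofNat (nat_lit 3730381), .negSucc (nat_lit
 2069913), .negSucc (nat_lit 3919332), .ofNat (nat_lit 1084462), .ofNat (nat_lit 66930), .ofNat
 (nat_lit 511321), .ofNat (nat_lit 833551), .negSucc (nat_lit 469147), .ofNat (nat_lit 904108),
 .ofNat (nat_lit 319396), .ofNat (nat_lit 12838924)]), ((nat_lit 9, nat_lit 2, false), [.negSucc
 (nat_lit 3868990), .ofNat (nat_lit 3515059), .negSucc (nat_lit 2082653), .ofNat (nat_lit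
 3899340), .ofNat (nat_lit 6579326), .ofNat (nat_lit 106848), .ofNat (nat_lit 4034835), .ofNat
 (nat_lit 1125959), .ofNat (nat_lit 8544118), .negSucc (nat_lit 2119613), .negSucc (nat_lit
 3270759), .negSucc (nat_lit 5663185), .ofNat (nat_lit 109599), .ofNat (nat_lit 883010), .negSucc
 (nat_lit 3589836), .ofNat (nat_lit 1508949), .ofNat (nat_lit 9115), .negSucc (nat_lit 2137410),
 .ofNat (nat_lit 16700690), .ofNat (nat_lit 13549662)]), ((nat_lit 12, nat_lit 1, false),
 [.negSucc (nat_lit 1382813), .negSucc (nat_lit 441617), .ofNat (nat_lit 1071010), .negSucc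
 (nat_lit 1783689), .ofNat (nat_lit 2256432), .negSucc (nat_lit 6794496), .ofNat (nat_lit
 1369042), .ofNat (nat_lit 2896222), .negSucc (nat_lit 652892), .negSucc (nat_lit 1252873), .ofNat
 (nat_lit 11214574), .negSucc (nat_lit 4735848), .negSucc (nat_lit 5614013), .ofNat (nat_lit
 3115686), .negSucc (nat_lit 449740), .negSucc (nat_lit 2117094), .ofNat (nat_lit 2523657), .ofNat
 (nat_lit 679121), .ofNat (nat_lit 1773772), .ofNat (nat_lit 1666454), .ofNat (nat_lit
 13493777)]), ((nat_lit 12, nat_lit 2, false), [.negSucc (nat_lit 1804283), .ofNat (nat_lit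
 136250), .negSucc (nat_lit 3353330), .ofNat (nat_lit 1143687), .negSucc (nat_lit 3763931), .ofNat
 (nat_lit 49652), .ofNat (nat_lit 2720687), .negSucc (nat_lit 1842442), .negSucc (nat_lit
 3671743), .ofNat (nat_lit 3567962), .ofNat (nat_lit 1736105), .ofNat (nat_lit 12293388), .negSucc
 (nat_lit 4596808), .negSucc (nat_lit 1295492), .ofNat (nat_lit 721585), .ofNat (nat_lit 1138141),
 .negSucc (nat_lit 321084), .ofNat (nat_lit 2778646), .negSucc (nat_lit 370937), .ofNat (nat_lit
 4486419), .ofNat (nat_lit 17283269), .ofNat (nat_lit 8481636)]), ((nat_lit 16, nat_lit 1, false),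
 [.negSucc (nat_lit 313011), .ofNat (nat_lit 2795724), .negSucc (nat_lit 174483), .negSucc
 (nat_lit 1557870), .ofNat (nat_lit 1816032), .negSucc (nat_lit 1535510), .ofNat (nat_lit
 2559821), .negSucc (nat_lit 7754234), .ofNat (nat_lit 188911), .ofNat (nat_lit 498821), .negSucc
 (nat_lit 419005), .ofNat (nat_lit 1069732), .ofNat (nat_lit 12538590), .ofNat (nat_lit 2382271),
 .ofNat (nat_lit 1105189), .ofNat (nat_lit 1016500), .negSucc (nat_lit 1782588), .negSucc (nat_lit
 1777604), .negSucc (nat_lit 1003582), .negSucc (nat_lit 913035), .ofNat (nat_lit 3491644), .ofNat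
 (nat_lit 3009972), .ofNat (nat_lit 5137816)]), ((nat_lit 16, nat_lit 2, false), [.ofNat (nat_lit
 3033598), .negSucc (nat_lit 183385), .negSucc (nat_lit 682874), .negSucc (nat_lit 5389209),
 .ofNat (nat_lit 668590), .ofNat (nat_lit 1615061), .negSucc (nat_lit 7983662), .ofNat (nat_lit
 640215), .negSucc (nat_lit 1918264), .ofNat (nat_lit 2052952), .negSucc (nat_lit 1409416), .ofNat
 (nat_lit 382195), .ofNat (nat_lit 9660765), .ofNat (nat_lit 14636596), .ofNat (nat_lit 1096663),
 .ofNat (nat_lit 1168364), .negSucc (nat_lit 1616151), .negSucc (nat_lit 1454403), .negSucc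
 (nat_lit 1135602), .negSucc (nat_lit 633285), .ofNat (nat_lit 3291902), .ofNat (nat_lit 4039688),
 .ofNat (nat_lit 5093706), .ofNat (nat_lit 1843454)]), ((nat_lit 1, nat_lit 1, true), [.ofNat
 (nat_lit 758428), .ofNat (nat_lit 255894), .negSucc (nat_lit 681190), .ofNat (nat_lit 362563),
 .negSucc (nat_lit 417919), .negSucc (nat_lit 224798), .ofNat (nat_lit 310968), .ofNat (nat_lit
 95027), .ofNat (nat_lit 108203), .ofNat (nat_lit 403926), .negSucc (nat_lit 47005), .negSucc
 (nat_lit 4060), .ofNat (nat_lit 26440), .ofNat (nat_lit 96364), .negSucc (nat_lit 528359),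
 .negSucc (nat_lit 361874), .negSucc (nat_lit 4260), .ofNat (nat_lit 135549), .negSucc (nat_lit
 56377), .ofNat (nat_lit 110271), .ofNat (nat_lit 9701), .negSucc (nat_lit 113662), .negSucc
 (nat_lit 39612), .negSucc (nat_lit 37767), .ofNat (nat_lit 3130982)]), ((nat_lit 1, nat_lit 2,
 true), [.ofNat (nat_lit 260537), .ofNat (nat_lit 2015008), .negSucc (nat_lit 594974), .ofNat
 (nat_lit 820380), .negSucc (nat_lit 282875), .negSucc (nat_lit 1623078), .ofNat (nat_lit 877649),
 .negSucc (nat_lit 143427), .ofNat (nat_lit 993953), .negSucc (nat_lit 244071), .negSucc (nat_lit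
 28803), .negSucc (nat_lit 24164), .negSucc (nat_lit 32552), .ofNat (nat_lit 168999), .negSucc
 (nat_lit 919126), .negSucc (nat_lit 1053501), .negSucc (nat_lit 75007), .ofNat (nat_lit 134867),
 .negSucc (nat_lit 140954), .negSucc (nat_lit 1170), .ofNat (nat_lit 6892), .negSucc (nat_lit
 176388), .ofNat (nat_lit 48317), .ofNat (nat_lit 150831), .ofNat (nat_lit 4221606), .ofNat
 (nat_lit 2866040)]), ((nat_lit 2, nat_lit 1, true), [.ofNat (nat_lit 1240717), .ofNat (nat_lit
 352119), .ofNat (nat_lit 66847), .ofNat (nat_lit 1657579), .negSucc (nat_lit 1492669), .negSucc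
 (nat_lit 879964), .negSucc (nat_lit 31528), .ofNat (nat_lit 626726), .ofNat (nat_lit 1293716),
 .ofNat (nat_lit 561038), .negSucc (nat_lit 852139), .ofNat (nat_lit 25352), .ofNat (nat_lit
 83907), .ofNat (nat_lit 122165), .negSucc (nat_lit 1053247), .negSucc (nat_lit 1295291), .ofNat
 (nat_lit 7913), .ofNat (nat_lit 61273), .ofNat (nat_lit 802454), .ofNat (nat_lit 120862), .ofNat
 (nat_lit 20577), .negSucc (nat_lit 156909), .ofNat (nat_lit 7171), .ofNat (nat_lit 123087),
 .ofNat (nat_lit 8115995), .negSucc (nat_lit 350485), .ofNat (nat_lit 4586058)]), ((nat_lit 2,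
 nat_lit 2, true), [.negSucc (nat_lit 806296), .ofNat (nat_lit 4969520), .ofNat (nat_lit 740052),
 .ofNat (nat_lit 4149179), .negSucc (nat_lit 700689), .negSucc (nat_lit 4486414), .ofNat (nat_lit
 1781823), .negSucc (nat_lit 1352527), .ofNat (nat_lit 3353107), .negSucc (nat_lit 1241626),
 .negSucc (nat_lit 650796), .negSucc (nat_lit 624422), .ofNat (nat_lit 109056), .negSucc (nat_lit
 178814), .negSucc (nat_lit 1902470), .negSucc (nat_lit 1472819), .negSucc (nat_lit 722524),
 .negSucc (nat_lit 183424), .ofNat (nat_lit 108747), .ofNat (nat_lit 572507), .ofNat (nat_lit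
 183804), .ofNat (nat_lit 105256), .ofNat (nat_lit 293953), .ofNat (nat_lit 254548), .ofNat
 (nat_lit 8729701), .ofNat (nat_lit 8877331), .ofNat (nat_lit 5479224), .ofNat (nat_lit
 4145577)]), ((nat_lit 3, nat_lit 1, true), [.ofNat (nat_lit 1550342), .negSucc (nat_lit 581053),
 .negSucc (nat_lit 1521919), .negSucc (nat_lit 690656), .ofNat (nat_lit 1479379), .ofNat (nat_lit
 1235208), .negSucc (nat_lit 276617), .negSucc (nat_lit 294831), .negSucc (nat_lit 1943040),
 .ofNat (nat_lit 1751554), .negSucc (nat_lit 217987), .ofNat (nat_lit 83969), .ofNat (nat_lit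
 102261), .ofNat (nat_lit 161049), .ofNat (nat_lit 100964), .ofNat (nat_lit 123448), .negSucc
 (nat_lit 167670), .ofNat (nat_lit 448594), .negSucc (nat_lit 2729130), .ofNat (nat_lit 322311),
 .ofNat (nat_lit 233992), .ofNat (nat_lit 216543), .negSucc (nat_lit 131914), .negSucc (nat_lit
 223977), .ofNat (nat_lit 3614801), .negSucc (nat_lit 533528), .negSucc (nat_lit 2044993), .ofNat
 (nat_lit 1628707), .ofNat (nat_lit 5167000)]), ((nat_lit 3, nat_lit 2, true), [.ofNat (nat_lit
 1205913), .ofNat (nat_lit 116180), .negSucc (nat_lit 1599761), .negSucc (nat_lit 1815702), .ofNat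
 (nat_lit 2125011), .ofNat (nat_lit 1881330), .negSucc (nat_lit 467809), .ofNat (nat_lit 330672),
 .negSucc (nat_lit 1893798), .ofNat (nat_lit 1564909), .ofNat (nat_lit 380033), .negSucc (nat_lit
 529836), .ofNat (nat_lit 356676), .ofNat (nat_lit 106320), .negSucc (nat_lit 91310), .negSucc
 (nat_lit 395600), .ofNat (nat_lit 191525), .ofNat (nat_lit 1267024), .negSucc (nat_lit 3005484),
 .negSucc (nat_lit 2009830), .ofNat (nat_lit 307059), .ofNat (nat_lit 59686), .negSucc (nat_lit
 189222), .ofNat (nat_lit 41735), .ofNat (nat_lit 5443069), .negSucc (nat_lit 418347), .negSucc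
 (nat_lit 1552566), .negSucc (nat_lit 649504), .ofNat (nat_lit 7954664), .ofNat (nat_lit
 2604584)]), ((nat_lit 4, nat_lit 1, true), [.ofNat (nat_lit 977496), .negSucc (nat_lit 1279490),
 .ofNat (nat_lit 1869696), .ofNat (nat_lit 836347), .negSucc (nat_lit 1896656), .ofNat (nat_lit
 343057), .ofNat (nat_lit 209712), .ofNat (nat_lit 1578038), .ofNat (nat_lit 1445873), .ofNat
 (nat_lit 281871), .negSucc (nat_lit 1716248), .negSucc (nat_lit 95396), .negSucc (nat_lit
 1600960), .ofNat (nat_lit 408487), .negSucc (nat_lit 788412), .negSucc (nat_lit 133724), .ofNat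
 (nat_lit 85484), .negSucc (nat_lit 146310), .ofNat (nat_lit 1697197), .negSucc (nat_lit 163325),
 .negSucc (nat_lit 139569), .negSucc (nat_lit 204843), .negSucc (nat_lit 195729), .ofNat (nat_lit
 14446), .ofNat (nat_lit 5962955), .negSucc (nat_lit 2184450), .ofNat (nat_lit 9725331), .ofNat
 (nat_lit 1919253), .ofNat (nat_lit 78850), .ofNat (nat_lit 668401), .ofNat (nat_lit 4531060)]),
 ((nat_lit 4, nat_lit 2, true), [.negSucc (nat_lit 1134180), .ofNat (nat_lit 2377405), .ofNat
 (nat_lit 2333088), .ofNat (nat_lit 3536811), .negSucc (nat_lit 519670), .negSucc (nat_lit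
 2321862), .ofNat (nat_lit 2545341), .negSucc (nat_lit 1117404), .ofNat (nat_lit 1946988),
 .negSucc (nat_lit 1064557), .negSucc (nat_lit 1249544), .negSucc (nat_lit 1153396), .negSucc
 (nat_lit 1439774), .negSucc (nat_lit 1337487), .negSucc (nat_lit 1037353), .ofNat (nat_lit
 1660532), .negSucc (nat_lit 1195925), .negSucc (nat_lit 384370), .ofNat (nat_lit 388012), .ofNat
 (nat_lit 1115010), .ofNat (nat_lit 205788), .ofNat (nat_lit 438189), .negSucc (nat_lit 14441),
 .negSucc (nat_lit 231641), .ofNat (nat_lit 3526452), .ofNat (nat_lit 7535297), .ofNat (nat_lit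
 10642252), .ofNat (nat_lit 11366448), .ofNat (nat_lit 90336), .ofNat (nat_lit 573828), .ofNat
 (nat_lit 6349943), .ofNat (nat_lit 2068240)]), ((nat_lit 5, nat_lit 1, true), [.ofNat (nat_lit
 255422), .ofNat (nat_lit 819845), .negSucc (nat_lit 326016), .ofNat (nat_lit 604727), .negSucc
 (nat_lit 371748), .negSucc (nat_lit 764208), .ofNat (nat_lit 980023), .negSucc (nat_lit 357467),
 .ofNat (nat_lit 1313182), .ofNat (nat_lit 876154), .ofNat (nat_lit 111743), .negSucc (nat_lit
 72659), .negSucc (nat_lit 648592), .ofNat (nat_lit 600094), .negSucc (nat_lit 397966), .ofNat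
 (nat_lit 27713), .negSucc (nat_lit 1899278), .ofNat (nat_lit 412873), .ofNat (nat_lit 167870),
 .negSucc (nat_lit 168703), .negSucc (nat_lit 211666), .negSucc (nat_lit 121433), .negSucc
 (nat_lit 48449), .negSucc (nat_lit 155184), .ofNat (nat_lit 914376), .ofNat (nat_lit 979845),
 .negSucc (nat_lit 1075905), .ofNat (nat_lit 164869), .negSucc (nat_lit 558378), .negSucc (nat_lit
 567806), .ofNat (nat_lit 622772), .negSucc (nat_lit 1110065), .ofNat (nat_lit 2921222)]),
 ((nat_lit 5, nat_lit 2, true), [.ofNat (nat_lit 323465), .ofNat (nat_lit 1308343), .negSucc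
 (nat_lit 210841), .ofNat (nat_lit 603290), .negSucc (nat_lit 571460), .negSucc (nat_lit 1465512),
 .ofNat (nat_lit 1084405), .ofNat (nat_lit 9505), .ofNat (nat_lit 1994385), .ofNat (nat_lit
 1584744), .ofNat (nat_lit 33983), .ofNat (nat_lit 307718), .negSucc (nat_lit 713306), .ofNat
 (nat_lit 304547), .negSucc (nat_lit 129868), .negSucc (nat_lit 869909), .negSucc (nat_lit
 2484764), .negSucc (nat_lit 815912), .ofNat (nat_lit 387194), .negSucc (nat_lit 257064), .negSucc
 (nat_lit 307594), .negSucc (nat_lit 268837), .negSucc (nat_lit 55544), .negSucc (nat_lit 186881),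
 .ofNat (nat_lit 1593596), .ofNat (nat_lit 1176700), .negSucc (nat_lit 1427198), .negSucc (nat_lit
 498649), .negSucc (nat_lit 683921), .negSucc (nat_lit 1831140), .ofNat (nat_lit 748814), .negSucc
 (nat_lit 786487), .ofNat (nat_lit 4254479), .ofNat (nat_lit 1273824)]), ((nat_lit 6, nat_lit 1,
 true), [.ofNat (nat_lit 726900), .negSucc (nat_lit 758950), .negSucc (nat_lit 1128135), .negSucc
 (nat_lit 492333), .ofNat (nat_lit 1809906), .ofNat (nat_lit 780365), .negSucc (nat_lit 1518954),
 .negSucc (nat_lit 188956), .negSucc (nat_lit 2025105), .ofNat (nat_lit 2806785), .ofNat (nat_lit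
 798134), .ofNat (nat_lit 1054153), .ofNat (nat_lit 1222020), .negSucc (nat_lit 411210), .ofNat
 (nat_lit 818805), .negSucc (nat_lit 938830), .negSucc (nat_lit 429160), .ofNat (nat_lit 656191),
 .negSucc (nat_lit 2660543), .negSucc (nat_lit 270548), .negSucc (nat_lit 1403940), .ofNat
 (nat_lit 783203), .negSucc (nat_lit 217226), .negSucc (nat_lit 252193), .ofNat (nat_lit 4513406),
 .negSucc (nat_lit 1082848), .negSucc (nat_lit 767863), .ofNat (nat_lit 1037299), .ofNat (nat_lit
 8412868), .ofNat (nat_lit 301855), .negSucc (nat_lit 1943027), .ofNat (nat_lit 434975), .ofNat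
 (nat_lit 792210), .ofNat (nat_lit 295696), .ofNat (nat_lit 3350318)]), ((nat_lit 6, nat_lit 2,
 true), [.negSucc (nat_lit 477256), .ofNat (nat_lit 208274), .negSucc (nat_lit 704496), .negSucc
 (nat_lit 1567381), .ofNat (nat_lit 2014662), .ofNat (nat_lit 1208274), .negSucc (nat_lit
 1817724), .ofNat (nat_lit 512021), .negSucc (nat_lit 1291154), .ofNat (nat_lit 2327541), .ofNat
 (nat_lit 1975471), .ofNat (nat_lit 680754), .ofNat (nat_lit 1616288), .negSucc (nat_lit 113074),
 .ofNat (nat_lit 369327), .negSucc (nat_lit 1659022), .ofNat (nat_lit 437211), .ofNat (nat_lit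
 1184288), .negSucc (nat_lit 2329390), .negSucc (nat_lit 2905557), .negSucc (nat_lit 1882806),
 .negSucc (nat_lit 444377), .negSucc (nat_lit 209080), .ofNat (nat_lit 37360), .ofNat (nat_lit
 6363575), .negSucc (nat_lit 1140675), .ofNat (nat_lit 1030847), .negSucc (nat_lit 2602037),
 .ofNat (nat_lit 11608221), .ofNat (nat_lit 3723614), .negSucc (nat_lit 2409385), .negSucc
 (nat_lit 793810), .ofNat (nat_lit 390272), .ofNat (nat_lit 555726), .ofNat (nat_lit 4659970),
 .ofNat (nat_lit 871635)]), ((nat_lit 8, nat_lit 1, true), [.ofNat (nat_lit 589855), .negSucc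
 (nat_lit 1749889), .ofNat (nat_lit 1069153), .negSucc (nat_lit 1416419), .negSucc (nat_lit
 932485), .ofNat (nat_lit 1166305), .ofNat (nat_lit 579086), .ofNat (nat_lit 1640460), .negSucc
 (nat_lit 198177), .ofNat (nat_lit 118428), .negSucc (nat_lit 798170), .ofNat (nat_lit 448556),
 .negSucc (nat_lit 1949698), .ofNat (nat_lit 576088), .negSucc (nat_lit 201792), .ofNat (nat_lit
 610371), .ofNat (nat_lit 530724), .ofNat (nat_lit 244216), .ofNat (nat_lit 1056682), .negSucc
 (nat_lit 164910), .negSucc (nat_lit 604166), .negSucc (nat_lit 591308), .negSucc (nat_lit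
 1131625), .ofNat (nat_lit 494239), .ofNat (nat_lit 734360), .negSucc (nat_lit 2472036), .ofNat
 (nat_lit 5529138), .ofNat (nat_lit 1805131), .ofNat (nat_lit 452764), .ofNat (nat_lit 970503),
 .ofNat (nat_lit 5917775), .ofNat (nat_lit 696662), .negSucc (nat_lit 437527), .negSucc (nat_lit
 293824), .ofNat (nat_lit 1237200), .ofNat (nat_lit 493465), .ofNat (nat_lit 588268)]), ((nat_lit
 8, nat_lit 2, true), [.ofNat (nat_lit 19084), .negSucc (nat_lit 924275), .ofNat (nat_lit 952810),
 .negSucc (nat_lit 773925), .negSucc (nat_lit 209319), .ofNat (nat_lit 709434), .ofNat (nat_lit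
 1651635), .ofNat (nat_lit 704045), .negSucc (nat_lit 871202), .negSucc (nat_lit 58968), .negSucc
 (nat_lit 529200), .ofNat (nat_lit 24567), .negSucc (nat_lit 1841478), .negSucc (nat_lit 819655),
 .ofNat (nat_lit 13455), .ofNat (nat_lit 1890648), .negSucc (nat_lit 110685), .ofNat (nat_lit
 255602), .ofNat (nat_lit 358945), .ofNat (nat_lit 560975), .negSucc (nat_lit 400168), .negSucc
 (nat_lit 286931), .negSucc (nat_lit 1216495), .ofNat (nat_lit 211779), .negSucc (nat_lit
 1236905), .ofNat (nat_lit 940698), .ofNat (nat_lit 5554968), .ofNat (nat_lit 7078756), .ofNat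
 (nat_lit 468167), .ofNat (nat_lit 902197), .ofNat (nat_lit 7728628), .ofNat (nat_lit 2818481),
 .negSucc (nat_lit 414466), .negSucc (nat_lit 255109), .ofNat (nat_lit 1223122), .ofNat (nat_lit
 592325), .ofNat (nat_lit 627520), .ofNat (nat_lit 151526)])]

/-- the commands -/
noncomputable def C10 : List Cmd := [.a (nat_lit 3) (nat_lit 25) B10_0]

theorem c_ok10 : okL 6 ES C10 = true := by decide +kernel

theorem t_ok10 : eqT (run (.ofNat (nat_lit 28)) (.ofNat (nat_lit 25)) XT DD C10 U9) U10 = true := by decide +kernel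

end Pool.Agent.H58.BJ.D6
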