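import Pool.Agent.H58.BJ.D6.D

/-! # Certificate data (6 jets, exponent 28/25) -/

set_option autoImplicit false

namespace Pool.Agent.H58.BJ.D6

open Pool.Agent.H58.BJ

/-- result of the first 11 groups -/
noncomputable def U11 : Tr := (.nd (.nd (.nd (.nd (.nd (.nd (.nd .e (.nd (.nd (.nd (.nd (.nd (.nd
 (.nd (.nd .e (.nd (.lf (.negSucc (nat_lit 7093534638044724))) .e)) (.nd (.nd (.lf (.negSucc
 (nat_lit 21270983101395137))) .e) .e)) (.nd (.nd (.nd (.lf (.negSucc (nat_lit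
 18683920651773303))) .e) .e) (.nd (.nd (.lf (.negSucc (nat_lit 191569119732969249))) .e) .e)))
 (.nd (.nd (.nd (.nd (.lf (.negSucc (nat_lit 18535798354177145))) .e) .e) (.nd (.nd (.lf (.negSucc
 (nat_lit 95704154038538399))) .e) .e)) (.nd (.nd (.nd (.lf (.negSucc (nat_lit
 481766799983076319))) .e) .e) .e))) (.nd (.nd (.nd (.nd (.nd (.lf (.negSucc (nat_lit
 6437326930579615))) .e) .e) (.nd (.nd (.lf (.negSucc (nat_lit 217097038853136149))) .e) .e)) (.nd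
 (.nd (.nd (.lf (.negSucc (nat_lit 152977242783542147))) .e) .e) .e)) (.nd (.nd (.nd (.nd (.lf
 (.negSucc (nat_lit 282240121700182485))) .e) .e) .e) (.nd (.nd (.nd (.lf (.ofNat (nat_lit
 19188813700940400))) .e) .e) .e)))) (.nd (.nd (.nd (.nd (.nd (.nd (.lf (.negSucc (nat_lit
 374425319739031))) .e) .e) .e) (.nd (.nd (.nd (.lf (.negSucc (nat_lit 48766597641730173))) .e)
 .e) .e)) (.nd (.nd (.nd (.nd (.lf (.negSucc (nat_lit 64525619689901105))) .e) .e) .e) .e)) (.nd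
 (.nd (.nd (.nd (.nd (.lf (.negSucc (nat_lit 40904237463904181))) .e) .e) .e) (.nd (.nd (.nd (.lf
 (.negSucc (nat_lit 12430215730108699))) .e) .e) .e)) (.nd (.nd (.nd (.nd (.lf (.ofNat (nat_lit
 25386481952184020))) .e) .e) .e) (.nd (.nd (.nd (.lf (.negSucc (nat_lit 1490998510163299))) .e)
 .e) .e))))) (.nd (.nd (.nd (.nd (.nd (.nd (.nd (.lf (.ofNat (nat_lit 39817808076060))) .e) .e)
 .e) .e) (.nd (.nd (.nd (.nd (.lf (.negSucc (nat_lit 18249865032990055))) .e) .e) .e) (.nd (.nd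
 (.nd (.lf (.negSucc (nat_lit 20872998298224199))) .e) .e) .e))) (.nd (.nd (.nd (.nd (.nd (.lf
 (.negSucc (nat_lit 14393354998124395))) .e) .e) .e) (.nd (.nd (.nd (.lf (.ofNat (nat_lit
 23266165808899950))) .e) .e) .e)) (.nd (.nd (.nd (.nd (.lf (.ofNat (nat_lit 734446159137600)))
 .e) .e) .e) .e))) (.nd (.nd (.nd (.nd (.nd (.nd (.lf (.negSucc (nat_lit 3865252746764607))) .e)
 .e) .e) .e) (.nd (.nd (.nd (.nd (.lf (.negSucc (nat_lit 9635364834428139))) .e) .e) .e) (.nd (.nd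
 (.nd (.lf (.negSucc (nat_lit 20386014549604099))) .e) .e) .e))) (.nd (.nd (.nd (.nd (.nd (.lf
 (.ofNat (nat_lit 14562635428047320))) .e) .e) .e) .e) (.nd (.nd (.nd (.nd (.lf (.negSucc (nat_lit
 1550885769616975))) .e) .e) .e) .e))))) .e)) (.nd (.nd (.nd (.nd (.nd (.nd (.nd (.nd .e (.nd (.nd
 (.lf (.negSucc (nat_lit 251400003347405014))) .e) .e)) (.nd (.nd (.nd (.lf (.negSucc (nat_lit
 422558697523412751))) .e) .e) .e)) (.nd (.nd (.nd (.nd (.lf (.negSucc (nat_lit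
 280150946470586933))) .e) .e) .e) (.nd (.nd (.nd (.lf (.negSucc (nat_lit 1520309788524323381)))
 .e) .e) .e))) (.nd (.nd (.nd (.nd (.nd (.lf (.negSucc (nat_lit 34959138851538649))) .e) .e) .e)
 (.nd (.nd (.nd (.lf (.negSucc (nat_lit 563117604407763491))) .e) .e) .e)) (.nd (.nd (.nd (.nd
 (.lf (.negSucc (nat_lit 1151222200239472565))) .e) .e) .e) (.nd (.nd (.nd (.lf (.ofNat (nat_lit
 21975216885070600))) .e) .e) .e)))) (.nd (.nd (.nd (.nd (.nd (.nd (.lf (.negSucc (nat_lit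
 5889242701125061))) .e) .e) .e) (.nd (.nd (.nd (.lf (.negSucc (nat_lit 101633215022666783))) .e)
 .e) .e)) (.nd (.nd (.nd (.nd (.lf (.negSucc (nat_lit 464355887624060383))) .e) .e) .e) .e)) (.nd
 (.nd (.nd (.nd (.nd (.lf (.negSucc (nat_lit 321958708528138167))) .e) .e) .e) (.nd (.nd (.nd (.lf
 (.negSucc (nat_lit 13006926236475359))) .e) .e) .e)) (.nd (.nd (.nd (.nd (.lf (.ofNat (nat_lit
 33567418439498890))) .e) .e) .e) (.nd (.nd (.nd (.lf (.negSucc (nat_lit 202528812490495661))) .e)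
 .e) .e))))) (.nd (.nd (.nd (.nd (.nd (.nd (.nd (.lf (.negSucc (nat_lit 226289228852719))) .e) .e)
 .e) .e) (.nd (.nd (.nd (.nd (.lf (.negSucc (nat_lit 62805222716673203))) .e) .e) .e) (.nd (.nd
 (.nd (.lf (.negSucc (nat_lit 19192677143131615))) .e) .e) .e))) (.nd (.nd (.nd (.nd (.nd (.lf
 (.negSucc (nat_lit 107744779978896897))) .e) .e) .e) (.nd (.nd (.nd (.lf (.ofNat (nat_lit
 22034437446454130))) .e) .e) .e)) (.nd (.nd (.nd (.nd (.lf (.ofNat (nat_lit 773583117494880)))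
 .e) .e) .e) .e))) (.nd (.nd (.nd (.nd (.nd (.nd (.lf (.negSucc (nat_lit 27197074110445033))) .e)
 .e) .e) .e) (.nd (.nd (.nd (.nd (.lf (.negSucc (nat_lit 10037674593364499))) .e) .e) .e) (.nd
 (.nd (.nd (.lf (.negSucc (nat_lit 17105626714545843))) .e) .e) .e))) (.nd (.nd (.nd (.nd (.nd
 (.lf (.ofNat (nat_lit 15550154445693980))) .e) .e) .e) .e) (.nd (.nd (.nd (.nd (.lf (.negSucc
 (nat_lit 84525084527761507))) .e) .e) .e) .e))))) .e) .e)) (.nd (.nd (.nd (.nd (.nd (.nd (.nd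
 (.nd .e (.nd (.nd (.nd (.lf (.negSucc (nat_lit 539752912677403075))) .e) .e) .e)) (.nd (.nd (.nd
 (.nd (.lf (.negSucc (nat_lit 617326149541847163))) .e) .e) .e) .e)) (.nd (.nd (.nd (.nd (.nd (.lf
 (.ofNat (nat_lit 152424130821300988))) .e) .e) .e) .e) (.nd (.nd (.nd (.nd (.lf (.negSucc
 (nat_lit 2694403858423868485))) .e) .e) .e) .e))) (.nd (.nd (.nd (.nd (.nd (.nd (.lf (.negSucc
 (nat_lit 4960987251472551))) .e) .e) .e) .e) (.nd (.nd (.nd (.nd (.lf (.negSucc (nat_lit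
 741499050536390889))) .e) .e) .e) .e)) (.nd (.nd (.nd (.nd (.nd (.lf (.negSucc (nat_lit
 1600638656168951875))) .e) .e) .e) .e) (.nd (.nd (.nd (.nd (.lf (.negSucc (nat_lit
 38078884361765069))) .e) .e) .e) .e)))) (.nd (.nd (.nd (.nd (.nd (.nd (.nd (.lf (.ofNat (nat_lit
 2219348769824036))) .e) .e) .e) .e) (.nd (.nd (.nd (.nd (.lf (.negSucc (nat_lit
 150477489459430589))) .e) .e) .e) .e)) (.nd (.nd (.nd (.nd (.nd (.lf (.negSucc (nat_lit
 284325810929095657))) .e) .e) .e) .e) (.nd (.nd (.nd (.nd (.lf (.negSucc (nat_lit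
 1380170850101903))) .e) .e) .e) .e))) (.nd (.nd (.nd (.nd (.nd (.nd (.lf (.negSucc (nat_lit
 230169075067860407))) .e) .e) .e) .e) (.nd (.nd (.nd (.nd (.lf (.ofNat (nat_lit
 18686691635769060))) .e) .e) .e) .e)) (.nd (.nd (.nd (.nd (.nd (.lf (.negSucc (nat_lit
 31664255813080349))) .e) .e) .e) .e) (.nd (.nd (.nd (.nd (.lf (.negSucc (nat_lit
 60899899649724423))) .e) .e) .e) .e))))) .e) .e) (.nd (.nd (.nd (.nd (.nd (.nd (.nd (.nd .e (.nd
 (.nd (.lf (.negSucc (nat_lit 331436164219784555))) .e) .e)) (.nd (.nd (.nd (.lf (.negSucc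
 (nat_lit 181499427634433813))) .e) .e) (.nd (.nd (.lf (.negSucc (nat_lit 1383159755452216624)))
 .e) .e))) (.nd (.nd (.nd (.nd (.lf (.negSucc (nat_lit 8220391577113683))) .e) .e) (.nd (.nd (.lf
 (.negSucc (nat_lit 2996383331042953499))) .e) .e)) (.nd (.nd (.nd (.lf (.negSucc (nat_lit
 3687840035872157905))) .e) .e) .e))) (.nd (.nd (.nd (.nd (.nd (.lf (.ofNat (nat_lit
 2472101557914582))) .e) .e) (.nd (.nd (.lf (.negSucc (nat_lit 2272847690974914199))) .e) .e))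
 (.nd (.nd (.nd (.lf (.negSucc (nat_lit 3423714251954478409))) .e) .e) .e)) (.nd (.nd (.nd (.nd
 (.lf (.negSucc (nat_lit 2321132136745517275))) .e) .e) .e) (.nd (.nd (.nd (.lf (.negSucc (nat_lit
 827005168317683349))) .e) .e) .e)))) (.nd (.nd (.nd (.nd (.nd (.nd (.lf (.negSucc (nat_lit
 217888605428999))) .e) .e) .e) (.nd (.nd (.nd (.lf (.negSucc (nat_lit 1300231107099874259))) .e)
 .e) .e)) (.nd (.nd (.nd (.nd (.lf (.negSucc (nat_lit 1049406048248386067))) .e) .e) .e) .e)) (.nd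
 (.nd (.nd (.nd (.nd (.lf (.negSucc (nat_lit 389722094475907131))) .e) .e) .e) (.nd (.nd (.nd (.lf
 (.ofNat (nat_lit 27044471816090600))) .e) .e) .e)) (.nd (.nd (.nd (.nd (.lf (.negSucc (nat_lit
 779568043594229319))) .e) .e) .e) (.nd (.nd (.nd (.lf (.negSucc (nat_lit 127048134820551599)))
 .e) .e) .e))))) (.nd (.nd (.nd (.nd (.nd (.nd (.nd (.lf (.ofNat (nat_lit 277926788403600))) .e)
 .e) .e) .e) (.nd (.nd (.nd (.nd (.lf (.negSucc (nat_lit 301444630217231133))) .e) .e) .e) (.nd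
 (.nd (.nd (.lf (.negSucc (nat_lit 105718299092123699))) .e) .e) .e))) (.nd (.nd (.nd (.nd (.nd
 (.lf (.negSucc (nat_lit 75172917315729331))) .e) .e) .e) (.nd (.nd (.nd (.lf (.ofNat (nat_lit
 244331819111852650))) .e) .e) .e)) (.nd (.nd (.nd (.nd (.lf (.negSucc (nat_lit
 1300765913596799))) .e) .e) .e) .e))) (.nd (.nd (.nd (.nd (.nd (.nd (.lf (.negSucc (nat_lit
 51801996397706809))) .e) .e) .e) .e) (.nd (.nd (.nd (.nd (.lf (.ofNat (nat_lit
 20894548278595700))) .e) .e) .e) (.nd (.nd (.nd (.lf (.ofNat (nat_lit 58027771694933850))) .e)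
 .e) .e))) (.nd (.nd (.nd (.nd (.nd (.lf (.negSucc (nat_lit 103764914072482899))) .e) .e) .e) .e)
 (.nd (.nd (.nd (.nd (.lf (.negSucc (nat_lit 215416175951653213))) .e) .e) .e) .e))))) .e) .e)))
 (.nd (.nd (.nd (.nd (.nd (.nd (.nd (.nd .e (.nd (.nd (.nd (.nd (.lf (.negSucc (nat_lit
 617755329520542471))) .e) .e) .e) .e)) (.nd (.nd (.nd (.nd (.nd (.lf (.negSucc (nat_lit
 80191128402525541))) .e) .e) .e) .e) .e)) (.nd (.nd (.nd (.nd (.nd (.nd (.lf (.negSucc (nat_lit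
 56642114501407321))) .e) .e) .e) .e) .e) (.nd (.nd (.nd (.nd (.nd (.lf (.negSucc (nat_lit
 2050987570216917617))) .e) .e) .e) .e) .e))) (.nd (.nd (.nd (.nd (.nd (.nd (.nd (.lf (.ofNat
 (nat_lit 26350134235869744))) .e) .e) .e) .e) .e) (.nd (.nd (.nd (.nd (.nd (.lf (.negSucc
 (nat_lit 298116046855297575))) .e) .e) .e) .e) .e)) (.nd (.nd (.nd (.nd (.nd (.nd (.lf (.negSucc
 (nat_lit 381619553865509053))) .e) .e) .e) .e) .e) (.nd (.nd (.nd (.nd (.nd (.lf (.negSucc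
 (nat_lit 46538147255299479))) .e) .e) .e) .e) .e)))) .e) .e) (.nd (.nd (.nd (.nd (.nd (.nd (.nd
 (.nd .e (.nd (.nd (.lf (.negSucc (nat_lit 148884785033465069))) .e) .e)) (.nd (.nd (.nd (.lf
 (.negSucc (nat_lit 54010075076058057))) .e) .e) .e)) (.nd (.nd (.nd (.nd (.lf (.negSucc (nat_lit
 3085511661907101))) .e) .e) (.nd (.nd (.lf (.negSucc (nat_lit 5803809675782153874))) .e) .e))
 (.nd (.nd (.nd (.lf (.negSucc (nat_lit 2631802917873102757))) .e) .e) .e))) (.nd (.nd (.nd (.nd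
 (.nd (.lf (.negSucc (nat_lit 3948764903041585))) .e) .e) (.nd (.nd (.lf (.negSucc (nat_lit
 5336983278937172599))) .e) .e)) (.nd (.nd (.nd (.lf (.negSucc (nat_lit 6970840106995304889))) .e)
 .e) .e)) (.nd (.nd (.nd (.nd (.lf (.negSucc (nat_lit 1010470386092996335))) .e) .e) .e) (.nd (.nd
 (.nd (.lf (.negSucc (nat_lit 11456576151102546899))) .e) .e) .e)))) (.nd (.nd (.nd (.nd (.nd (.nd
 (.lf (.negSucc (nat_lit 5393017456536403))) .e) .e) .e) (.nd (.nd (.nd (.lf (.negSucc (nat_lit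
 2774390144270951577))) .e) .e) .e)) (.nd (.nd (.nd (.nd (.lf (.negSucc (nat_lit
 853665066198551273))) .e) .e) .e) .e)) (.nd (.nd (.nd (.nd (.nd (.lf (.negSucc (nat_lit
 136453868678202493))) .e) .e) .e) (.nd (.nd (.nd (.lf (.negSucc (nat_lit 2481285999627007899)))
 .e) .e) .e)) (.nd (.nd (.nd (.nd (.lf (.negSucc (nat_lit 8468823752488093459))) .e) .e) .e) (.nd
 (.nd (.nd (.lf (.negSucc (nat_lit 5572986188938969099))) .e) .e) .e))))) (.nd (.nd (.nd (.nd (.nd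
 (.nd (.nd (.lf (.negSucc (nat_lit 1022232887594427))) .e) .e) .e) .e) (.nd (.nd (.nd (.nd (.lf
 (.negSucc (nat_lit 173600599968184369))) .e) .e) .e) (.nd (.nd (.nd (.lf (.negSucc (nat_lit
 125705750565153099))) .e) .e) .e))) (.nd (.nd (.nd (.nd (.nd (.lf (.negSucc (nat_lit
 49491779661466995))) .e) .e) .e) (.nd (.nd (.nd (.lf (.ofNat (nat_lit 250492589107801150))) .e)
 .e) .e)) (.nd (.nd (.nd (.nd (.lf (.ofNat (nat_lit 440517704793600))) .e) .e) .e) .e))) (.nd (.nd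
 (.nd (.nd (.nd (.nd (.lf (.negSucc (nat_lit 13330271459068029))) .e) .e) .e) .e) (.nd (.nd (.nd
 (.nd (.lf (.negSucc (nat_lit 1484486987144427459))) .e) .e) .e) (.nd (.nd (.nd (.lf (.ofNat
 (nat_lit 147095181132712100))) .e) .e) .e))) (.nd (.nd (.nd (.nd (.nd (.lf (.negSucc (nat_lit
 1254508416547671319))) .e) .e) .e) .e) (.nd (.nd (.nd (.nd (.lf (.negSucc (nat_lit
 3137486570426692689))) .e) .e) .e) .e))))) .e) .e)) (.nd (.nd (.nd (.nd (.nd (.nd (.nd (.nd .e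
 (.nd (.nd (.nd (.lf (.negSucc (nat_lit 1345769381727355871))) .e) .e) .e)) (.nd (.nd (.nd (.nd
 (.lf (.negSucc (nat_lit 609041260911419053))) .e) .e) .e) (.nd (.nd (.nd (.lf (.negSucc (nat_lit
 6649666080194672476))) .e) .e) .e))) (.nd (.nd (.nd (.nd (.nd (.lf (.negSucc (nat_lit
 126825801002213973))) .e) .e) .e) (.nd (.nd (.nd (.lf (.negSucc (nat_lit 10692018537200072599)))
 .e) .e) .e)) (.nd (.nd (.nd (.nd (.lf (.negSucc (nat_lit 8561295087913240825))) .e) .e) .e) .e)))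
 (.nd (.nd (.nd (.nd (.nd (.nd (.lf (.negSucc (nat_lit 24374380287764939))) .e) .e) .e) (.nd (.nd
 (.nd (.lf (.negSucc (nat_lit 3967706229394564217))) .e) .e) .e)) (.nd (.nd (.nd (.nd (.lf
 (.negSucc (nat_lit 7255587894023988715))) .e) .e) .e) .e)) (.nd (.nd (.nd (.nd (.nd (.lf
 (.negSucc (nat_lit 1646900210774212421))) .e) .e) .e) (.nd (.nd (.nd (.lf (.negSucc (nat_lit
 5868720821816883))) .e) .e) .e)) (.nd (.nd (.nd (.nd (.lf (.negSucc (nat_lit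
 2399044824811092649))) .e) .e) .e) .e)))) (.nd (.nd (.nd (.nd (.nd (.nd (.nd (.lf (.negSucc
 (nat_lit 920524899585467))) .e) .e) .e) .e) (.nd (.nd (.nd (.nd (.lf (.negSucc (nat_lit
 1571289519311594249))) .e) .e) .e) .e)) (.nd (.nd (.nd (.nd (.nd (.lf (.negSucc (nat_lit
 1246412474809340271))) .e) .e) .e) (.nd (.nd (.nd (.lf (.ofNat (nat_lit 300949509587182768))) .e)
 .e) .e)) (.nd (.nd (.nd (.nd (.lf (.ofNat (nat_lit 330809327622144))) .e) .e) .e) .e))) (.nd (.nd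
 (.nd (.nd (.nd (.nd (.lf (.negSucc (nat_lit 196072291723116211))) .e) .e) .e) .e) (.nd (.nd (.nd
 (.nd (.lf (.negSucc (nat_lit 4760774083896489))) .e) .e) .e) .e)) (.nd (.nd (.nd (.nd (.nd (.lf
 (.negSucc (nat_lit 1099259508527689829))) .e) .e) .e) .e) (.nd (.nd (.nd (.nd (.lf (.negSucc
 (nat_lit 618930414736143937))) .e) .e) .e) .e))))) .e) .e) .e))) (.nd (.nd (.nd (.nd (.nd (.nd
 (.nd (.nd .e (.nd (.nd (.nd (.nd (.nd (.lf (.ofNat (nat_lit 261947751760839965))) .e) .e) .e) .e)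
 .e)) (.nd (.nd (.nd (.nd (.nd (.nd (.lf (.ofNat (nat_lit 241895176541685154))) .e) .e) .e) .e)
 .e) .e)) (.nd (.nd (.nd (.nd (.nd (.nd (.nd (.lf (.ofNat (nat_lit 204795518053797058))) .e) .e)
 .e) .e) .e) .e) (.nd (.nd (.nd (.nd (.nd (.nd (.lf (.negSucc (nat_lit 576314150251329485))) .e)
 .e) .e) .e) .e) .e))) .e) .e) (.nd (.nd (.nd (.nd (.nd (.nd (.nd (.nd .e (.nd (.nd (.lf (.negSucc
 (nat_lit 335195573189192595))) .e) .e)) (.nd (.nd (.nd (.lf (.negSucc (nat_lit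
 413929075961134245))) .e) .e) .e)) (.nd (.nd (.nd (.nd (.lf (.negSucc (nat_lit
 56266516439380379))) .e) .e) .e) (.nd (.nd (.nd (.lf (.negSucc (nat_lit 2433746633767739291)))
 .e) .e) .e))) (.nd (.nd (.nd (.nd (.nd (.lf (.ofNat (nat_lit 11569498325204724))) .e) .e) (.nd
 (.nd (.lf (.negSucc (nat_lit 3764488556084953624))) .e) .e)) (.nd (.nd (.nd (.lf (.negSucc
 (nat_lit 4721809207923915019))) .e) .e) .e)) (.nd (.nd (.nd (.nd (.lf (.negSucc (nat_lit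
 2613768172401038561))) .e) .e) .e) (.nd (.nd (.nd (.lf (.negSucc (nat_lit 9565228309637297999)))
 .e) .e) .e)))) (.nd (.nd (.nd (.nd (.nd (.nd (.lf (.ofNat (nat_lit 2937915751306232))) .e) .e)
 .e) (.nd (.nd (.nd (.lf (.negSucc (nat_lit 4064312591159826291))) .e) .e) .e)) (.nd (.nd (.nd
 (.nd (.lf (.negSucc (nat_lit 1927961180355206751))) .e) .e) .e) .e)) (.nd (.nd (.nd (.nd (.nd
 (.lf (.negSucc (nat_lit 850679465162932355))) .e) .e) .e) (.nd (.nd (.nd (.lf (.negSucc (nat_lit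
 2450146137966873249))) .e) .e) .e)) (.nd (.nd (.nd (.nd (.lf (.negSucc (nat_lit
 7825026665582162409))) .e) .e) .e) (.nd (.nd (.nd (.lf (.negSucc (nat_lit 7523253657296278499)))
 .e) .e) .e))))) (.nd (.nd (.nd (.nd (.nd (.nd (.nd (.lf (.ofNat (nat_lit 266613536912068))) .e)
 .e) .e) .e) (.nd (.nd (.nd (.nd (.lf (.negSucc (nat_lit 640494251387776459))) .e) .e) .e) (.nd
 (.nd (.nd (.lf (.ofNat (nat_lit 244966801743782400))) .e) .e) .e))) (.nd (.nd (.nd (.nd (.nd (.lf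
 (.negSucc (nat_lit 230775177488218359))) .e) .e) .e) (.nd (.nd (.nd (.lf (.negSucc (nat_lit
 374548071073967649))) .e) .e) .e)) (.nd (.nd (.nd (.nd (.lf (.negSucc (nat_lit
 1727478381484799))) .e) .e) .e) .e))) (.nd (.nd (.nd (.nd (.nd (.nd (.lf (.negSucc (nat_lit
 120724466436386121))) .e) .e) .e) .e) (.nd (.nd (.nd (.nd (.lf (.negSucc (nat_lit
 1457497651358184899))) .e) .e) .e) (.nd (.nd (.nd (.lf (.negSucc (nat_lit 563450594595731799)))
 .e) .e) .e))) (.nd (.nd (.nd (.nd (.nd (.lf (.negSucc (nat_lit 1337610912893374039))) .e) .e) .e)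
 .e) (.nd (.nd (.nd (.nd (.lf (.negSucc (nat_lit 3673635904236148517))) .e) .e) .e) .e))))) .e)
 .e)) (.nd (.nd (.nd (.nd (.nd (.nd (.nd (.nd .e (.nd (.nd (.nd (.lf (.negSucc (nat_lit
 441098107321471589))) .e) .e) .e)) (.nd (.nd (.nd (.nd (.lf (.negSucc (nat_lit
 69431281912509309))) .e) .e) .e) .e)) (.nd (.nd (.nd (.nd (.nd (.lf (.ofNat (nat_lit
 7619856781307060))) .e) .e) .e) (.nd (.nd (.nd (.lf (.negSucc (nat_lit 12446930498912277554)))
 .e) .e) .e)) (.nd (.nd (.nd (.nd (.lf (.negSucc (nat_lit 4875355292822485241))) .e) .e) .e) .e)))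
 (.nd (.nd (.nd (.nd (.nd (.nd (.lf (.ofNat (nat_lit 118941886441464))) .e) .e) .e) (.nd (.nd (.nd
 (.lf (.negSucc (nat_lit 9121489778502878889))) .e) .e) .e)) (.nd (.nd (.nd (.nd (.lf (.negSucc
 (nat_lit 11055909330509410427))) .e) .e) .e) .e)) (.nd (.nd (.nd (.nd (.nd (.lf (.negSucc
 (nat_lit 740109745742971089))) .e) .e) .e) .e) (.nd (.nd (.nd (.nd (.lf (.negSucc (nat_lit
 13122746582534762329))) .e) .e) .e) .e)))) (.nd (.nd (.nd (.nd (.nd (.nd (.nd (.lf (.ofNat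
 (nat_lit 451988517746656))) .e) .e) .e) .e) (.nd (.nd (.nd (.nd (.lf (.negSucc (nat_lit
 1961194865067809081))) .e) .e) .e) .e)) (.nd (.nd (.nd (.nd (.nd (.lf (.negSucc (nat_lit
 1531815639640575341))) .e) .e) .e) .e) (.nd (.nd (.nd (.nd (.lf (.negSucc (nat_lit
 2091777194291903))) .e) .e) .e) .e))) (.nd (.nd (.nd (.nd (.nd (.nd (.lf (.negSucc (nat_lit
 81953328128803889))) .e) .e) .e) .e) (.nd (.nd (.nd (.nd (.lf (.negSucc (nat_lit
 1962236512793587299))) .e) .e) .e) .e)) (.nd (.nd (.nd (.nd (.nd (.lf (.negSucc (nat_lit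
 3269745624822988959))) .e) .e) .e) .e) (.nd (.nd (.nd (.nd (.lf (.negSucc (nat_lit
 4123856392028334835))) .e) .e) .e) .e))))) .e) .e) .e)) (.nd (.nd (.nd (.nd (.nd (.nd (.nd (.nd
 .e (.nd (.nd (.nd (.nd (.lf (.negSucc (nat_lit 1236837152452063409))) .e) .e) .e) .e)) (.nd (.nd
 (.nd (.nd (.nd (.lf (.negSucc (nat_lit 128787584419057721))) .e) .e) .e) .e) (.nd (.nd (.nd (.nd
 (.lf (.negSucc (nat_lit 9383411387488320758))) .e) .e) .e) .e))) (.nd (.nd (.nd (.nd (.nd (.nd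
 (.lf (.ofNat (nat_lit 27599273764242792))) .e) .e) .e) .e) (.nd (.nd (.nd (.nd (.lf (.negSucc
 (nat_lit 10328991972155181975))) .e) .e) .e) .e)) (.nd (.nd (.nd (.nd (.nd (.lf (.negSucc
 (nat_lit 7839054031541925707))) .e) .e) .e) .e) .e))) (.nd (.nd (.nd (.nd (.nd (.nd (.nd (.lf
 (.ofNat (nat_lit 13549656420353392))) .e) .e) .e) .e) (.nd (.nd (.nd (.nd (.lf (.negSucc (nat_lit
 1971627825569567773))) .e) .e) .e) .e)) (.nd (.nd (.nd (.nd (.nd (.lf (.negSucc (nat_lit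
 2598529510095142217))) .e) .e) .e) .e) .e)) (.nd (.nd (.nd (.nd (.nd (.nd (.lf (.negSucc (nat_lit
 1111482396000566149))) .e) .e) .e) .e) (.nd (.nd (.nd (.nd (.lf (.negSucc (nat_lit
 36160354570500189))) .e) .e) .e) .e)) (.nd (.nd (.nd (.nd (.nd (.lf (.negSucc (nat_lit
 1392723378620696199))) .e) .e) .e) .e) .e)))) .e) .e) .e) (.nd (.nd (.nd (.nd (.nd (.nd (.nd (.nd
 .e (.nd (.nd (.nd (.lf (.negSucc (nat_lit 34343322743059879))) .e) .e) .e)) (.nd (.nd (.nd (.nd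
 (.lf (.negSucc (nat_lit 49924320521988079))) .e) .e) .e) (.nd (.nd (.nd (.lf (.negSucc (nat_lit
 724106236715472919))) .e) .e) .e))) (.nd (.nd (.nd (.nd (.nd (.lf (.negSucc (nat_lit
 11470702562345759))) .e) .e) .e) (.nd (.nd (.nd (.lf (.negSucc (nat_lit 5040058489791186869)))
 .e) .e) .e)) (.nd (.nd (.nd (.nd (.lf (.negSucc (nat_lit 7115689410221539))) .e) .e) .e) (.nd
 (.nd (.nd (.lf (.negSucc (nat_lit 17321803044911011049))) .e) .e) .e)))) (.nd (.nd (.nd (.nd (.nd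
 (.nd (.lf (.ofNat (nat_lit 728634548685780))) .e) .e) .e) (.nd (.nd (.nd (.lf (.negSucc (nat_lit
 3212834470863345369))) .e) .e) .e)) (.nd (.nd (.nd (.nd (.lf (.negSucc (nat_lit
 542457907488616669))) .e) .e) .e) .e)) (.nd (.nd (.nd (.nd (.nd (.lf (.ofNat (nat_lit
 27257028370459490))) .e) .e) .e) (.nd (.nd (.nd (.lf (.negSucc (nat_lit 15737508078393774249)))
 .e) .e) .e)) (.nd (.nd (.nd (.nd (.lf (.negSucc (nat_lit 16423838233930586399))) .e) .e) .e)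
 .e)))) (.nd (.nd (.nd (.nd (.nd (.nd (.nd (.lf (.negSucc (nat_lit 258705575396079))) .e) .e) .e)
 .e) (.nd (.nd (.nd (.nd (.lf (.negSucc (nat_lit 35497431386911799))) .e) .e) .e) (.nd (.nd (.nd
 (.lf (.negSucc (nat_lit 1596460568493719999))) .e) .e) .e))) (.nd (.nd (.nd (.nd (.nd (.lf
 (.negSucc (nat_lit 52000809462209559))) .e) .e) .e) (.nd (.nd (.nd (.lf (.negSucc (nat_lit
 2506957656079044149))) .e) .e) .e)) (.nd (.nd (.nd (.nd (.lf (.negSucc (nat_lit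
 1420965878692079999))) .e) .e) .e) .e))) (.nd (.nd (.nd (.nd (.nd (.nd (.lf (.ofNat (nat_lit
 15135343714439000))) .e) .e) .e) .e) (.nd (.nd (.nd (.nd (.lf (.negSucc (nat_lit
 4830109807717630499))) .e) .e) .e) (.nd (.nd (.nd (.lf (.negSucc (nat_lit 200585960308825749)))
 .e) .e) .e))) (.nd (.nd (.nd (.nd (.nd (.lf (.negSucc (nat_lit 1891092082700562499))) .e) .e) .e)
 .e) (.nd (.nd (.nd (.nd (.lf (.negSucc (nat_lit 5097590710668242719))) .e) .e) .e) .e))))) .e)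
 .e) .e)))) (.nd (.nd (.nd (.nd (.nd (.nd (.nd (.nd .e (.nd (.nd (.nd (.nd (.nd (.nd (.lf (.ofNat
 (nat_lit 999683602767826323))) .e) .e) .e) .e) .e) .e)) (.nd (.nd (.nd (.nd (.nd (.nd (.nd (.lf
 (.ofNat (nat_lit 1052684180675346156))) .e) .e) .e) .e) .e) .e) .e)) .e) .e) .e) (.nd (.nd (.nd
 (.nd (.nd (.nd (.nd (.nd .e (.nd (.nd (.nd (.lf (.negSucc (nat_lit 357556511776912125))) .e) .e)
 .e)) (.nd (.nd (.nd (.nd (.lf (.negSucc (nat_lit 303215511665395069))) .e) .e) .e) .e)) (.nd (.nd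
 (.nd (.nd (.nd (.lf (.negSucc (nat_lit 119320423229916879))) .e) .e) .e) .e) (.nd (.nd (.nd (.nd
 (.lf (.negSucc (nat_lit 3540373879789521289))) .e) .e) .e) .e))) (.nd (.nd (.nd (.nd (.nd (.nd
 (.lf (.negSucc (nat_lit 22948367243243967))) .e) .e) .e) (.nd (.nd (.nd (.lf (.negSucc (nat_lit
 3504552785061591722))) .e) .e) .e)) (.nd (.nd (.nd (.nd (.lf (.negSucc (nat_lit
 5468092786922051983))) .e) .e) .e) .e)) (.nd (.nd (.nd (.nd (.nd (.lf (.negSucc (nat_lit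
 1308211231407997235))) .e) .e) .e) .e) (.nd (.nd (.nd (.nd (.lf (.negSucc (nat_lit
 8580406640055920459))) .e) .e) .e) .e)))) (.nd (.nd (.nd (.nd (.nd (.nd (.nd (.lf (.negSucc
 (nat_lit 18906916698501))) .e) .e) .e) .e) (.nd (.nd (.nd (.nd (.lf (.negSucc (nat_lit
 1686304628159591161))) .e) .e) .e) .e)) (.nd (.nd (.nd (.nd (.nd (.lf (.negSucc (nat_lit
 970094233295618557))) .e) .e) .e) .e) (.nd (.nd (.nd (.nd (.lf (.negSucc (nat_lit
 725293154837663))) .e) .e) .e) .e))) (.nd (.nd (.nd (.nd (.nd (.nd (.lf (.negSucc (nat_lit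
 166511739893114611))) .e) .e) .e) .e) (.nd (.nd (.nd (.nd (.lf (.negSucc (nat_lit
 1990248168202364699))) .e) .e) .e) .e)) (.nd (.nd (.nd (.nd (.nd (.lf (.negSucc (nat_lit
 2606618060638772249))) .e) .e) .e) .e) (.nd (.nd (.nd (.nd (.lf (.negSucc (nat_lit
 4779526140430801375))) .e) .e) .e) .e))))) .e) .e) .e)) (.nd (.nd (.nd (.nd (.nd (.nd (.nd (.nd
 .e (.nd (.nd (.nd (.nd (.lf (.negSucc (nat_lit 261055816663472891))) .e) .e) .e) .e)) (.nd (.nd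
 (.nd (.nd (.nd (.lf (.ofNat (nat_lit 23437681490888782))) .e) .e) .e) .e) .e)) (.nd (.nd (.nd
 (.nd (.nd (.nd (.lf (.ofNat (nat_lit 12254078747197842))) .e) .e) .e) .e) (.nd (.nd (.nd (.nd
 (.lf (.negSucc (nat_lit 9964083772748410366))) .e) .e) .e) .e)) (.nd (.nd (.nd (.nd (.nd (.lf
 (.negSucc (nat_lit 3625559209171703753))) .e) .e) .e) .e) .e))) (.nd (.nd (.nd (.nd (.nd (.nd
 (.nd (.lf (.ofNat (nat_lit 4808020684712976))) .e) .e) .e) .e) (.nd (.nd (.nd (.nd (.lf (.negSucc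
 (nat_lit 4627112769699140441))) .e) .e) .e) .e)) (.nd (.nd (.nd (.nd (.nd (.lf (.negSucc (nat_lit
 6401360841786868939))) .e) .e) .e) .e) .e)) (.nd (.nd (.nd (.nd (.nd (.nd (.lf (.negSucc (nat_lit
 538189395028780933))) .e) .e) .e) .e) .e) (.nd (.nd (.nd (.nd (.nd (.lf (.negSucc (nat_lit
 4425657566554966399))) .e) .e) .e) .e) .e)))) .e) .e) .e) .e)) (.nd (.nd (.nd (.nd (.nd (.nd (.nd
 (.nd .e (.nd (.nd (.nd (.nd (.nd (.lf (.negSucc (nat_lit 552931198848012455))) .e) .e) .e) .e)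
 .e)) (.nd (.nd (.nd (.nd (.nd (.nd (.lf (.ofNat (nat_lit 62638422138912562))) .e) .e) .e) .e) .e)
 (.nd (.nd (.nd (.nd (.nd (.lf (.negSucc (nat_lit 5926355969093670887))) .e) .e) .e) .e) .e)))
 (.nd (.nd (.nd (.nd (.nd (.nd (.nd (.lf (.ofNat (nat_lit 48889702956305610))) .e) .e) .e) .e) .e)
 (.nd (.nd (.nd (.nd (.nd (.lf (.negSucc (nat_lit 2866984323219609875))) .e) .e) .e) .e) .e)) (.nd
 (.nd (.nd (.nd (.nd (.nd (.lf (.negSucc (nat_lit 3622037027561015375))) .e) .e) .e) .e) .e) .e)))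
 .e) .e) .e) (.nd (.nd (.nd (.nd (.nd (.nd (.nd (.nd .e (.nd (.nd (.nd (.lf (.ofNat (nat_lit
 23968794732419734))) .e) .e) .e)) (.nd (.nd (.nd (.nd (.lf (.ofNat (nat_lit 32995425732227800)))
 .e) .e) .e) .e)) (.nd (.nd (.nd (.nd (.nd (.lf (.ofNat (nat_lit 10215927398186764))) .e) .e) .e)
 (.nd (.nd (.nd (.lf (.negSucc (nat_lit 1439134995865728255))) .e) .e) .e)) (.nd (.nd (.nd (.nd
 (.lf (.negSucc (nat_lit 47197819394273513))) .e) .e) .e) .e))) (.nd (.nd (.nd (.nd (.nd (.nd (.lf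
 (.ofNat (nat_lit 3619810383481472))) .e) .e) .e) (.nd (.nd (.nd (.lf (.negSucc (nat_lit
 1476726984877340405))) .e) .e) .e)) (.nd (.nd (.nd (.nd (.lf (.ofNat (nat_lit
 40237190799772970))) .e) .e) .e) .e)) (.nd (.nd (.nd (.nd (.nd (.lf (.negSucc (nat_lit
 18021182847945749))) .e) .e) .e) (.nd (.nd (.nd (.lf (.negSucc (nat_lit 16770639115583255974)))
 .e) .e) .e)) (.nd (.nd (.nd (.nd (.lf (.negSucc (nat_lit 7398783320367121529))) .e) .e) .e)
 .e)))) (.nd (.nd (.nd (.nd (.nd (.nd (.nd (.lf (.ofNat (nat_lit 1645133554451720))) .e) .e) .e)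
 .e) (.nd (.nd (.nd (.nd (.lf (.negSucc (nat_lit 33494911004779753))) .e) .e) .e) .e)) (.nd (.nd
 (.nd (.nd (.nd (.lf (.ofNat (nat_lit 31385427833198452))) .e) .e) .e) (.nd (.nd (.nd (.lf
 (.negSucc (nat_lit 13389573075466053149))) .e) .e) .e)) (.nd (.nd (.nd (.nd (.lf (.negSucc
 (nat_lit 6663610091300399999))) .e) .e) .e) .e))) (.nd (.nd (.nd (.nd (.nd (.nd (.lf (.negSucc
 (nat_lit 11282508778281015))) .e) .e) .e) .e) (.nd (.nd (.nd (.nd (.lf (.negSucc (nat_lit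
 12185977160971807639))) .e) .e) .e) .e)) (.nd (.nd (.nd (.nd (.nd (.lf (.negSucc (nat_lit
 1204459400759083199))) .e) .e) .e) .e) (.nd (.nd (.nd (.nd (.lf (.negSucc (nat_lit
 2958679521551666773))) .e) .e) .e) .e))))) .e) .e) .e)) (.nd (.nd (.nd (.nd (.nd (.nd (.nd (.nd
 .e (.nd (.nd (.nd (.nd (.lf (.negSucc (nat_lit 64974028317945699))) .e) .e) .e) .e)) (.nd (.nd
 (.nd (.nd (.nd (.lf (.negSucc (nat_lit 17877507595657759))) .e) .e) .e) .e) (.nd (.nd (.nd (.nd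
 (.lf (.negSucc (nat_lit 1020511134616870559))) .e) .e) .e) .e))) (.nd (.nd (.nd (.nd (.nd (.nd
 (.lf (.negSucc (nat_lit 525920449639159))) .e) .e) .e) .e) (.nd (.nd (.nd (.nd (.lf (.negSucc
 (nat_lit 4829911373731927589))) .e) .e) .e) .e)) (.nd (.nd (.nd (.nd (.nd (.lf (.ofNat (nat_lit
 33971481491248610))) .e) .e) .e) .e) (.nd (.nd (.nd (.nd (.lf (.negSucc (nat_lit
 13314863757000768074))) .e) .e) .e) .e)))) (.nd (.nd (.nd (.nd (.nd (.nd (.nd (.lf (.negSucc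
 (nat_lit 12401905821039))) .e) .e) .e) .e) (.nd (.nd (.nd (.nd (.lf (.negSucc (nat_lit
 1057881880984251529))) .e) .e) .e) .e)) (.nd (.nd (.nd (.nd (.nd (.lf (.negSucc (nat_lit
 757309580127268649))) .e) .e) .e) .e) (.nd (.nd (.nd (.nd (.lf (.ofNat (nat_lit
 5233197187723680))) .e) .e) .e) .e))) (.nd (.nd (.nd (.nd (.nd (.nd (.lf (.ofNat (nat_lit
 22183387419380550))) .e) .e) .e) .e) (.nd (.nd (.nd (.nd (.lf (.negSucc (nat_lit
 6228839262509217349))) .e) .e) .e) .e)) (.nd (.nd (.nd (.nd (.nd (.lf (.negSucc (nat_lit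
 8456540480842681399))) .e) .e) .e) .e) .e)))) .e) .e) .e) (.nd (.nd (.nd (.nd (.nd (.nd (.nd (.nd
 .e (.nd (.nd (.nd (.lf (.negSucc (nat_lit 218739572481325283))) .e) .e) .e)) (.nd (.nd (.nd (.nd
 (.lf (.negSucc (nat_lit 40771599623758195))) .e) .e) .e) (.nd (.nd (.nd (.lf (.negSucc (nat_lit
 820960021387180247))) .e) .e) .e))) (.nd (.nd (.nd (.nd (.nd (.lf (.ofNat (nat_lit
 1170926960978038))) .e) .e) .e) (.nd (.nd (.nd (.lf (.negSucc (nat_lit 4286948005815812757))) .e)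
 .e) .e)) (.nd (.nd (.nd (.nd (.lf (.negSucc (nat_lit 1468958390139637343))) .e) .e) .e) (.nd (.nd
 (.nd (.lf (.negSucc (nat_lit 20642124952823239549))) .e) .e) .e)))) (.nd (.nd (.nd (.nd (.nd (.nd
 (.lf (.ofNat (nat_lit 1409179845231742))) .e) .e) .e) (.nd (.nd (.nd (.lf (.negSucc (nat_lit
 3864014218260791291))) .e) .e) .e)) (.nd (.nd (.nd (.nd (.lf (.negSucc (nat_lit
 1306654463678592337))) .e) .e) .e) .e)) (.nd (.nd (.nd (.nd (.nd (.lf (.negSucc (nat_lit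
 482642836285804465))) .e) .e) .e) (.nd (.nd (.nd (.lf (.negSucc (nat_lit 18287264582794915599)))
 .e) .e) .e)) (.nd (.nd (.nd (.nd (.lf (.negSucc (nat_lit 14394759300063204489))) .e) .e) .e) (.nd
 (.nd (.nd (.lf (.negSucc (nat_lit 9278901134131211949))) .e) .e) .e))))) (.nd (.nd (.nd (.nd (.nd
 (.nd (.nd (.lf (.ofNat (nat_lit 587932613329840))) .e) .e) .e) .e) (.nd (.nd (.nd (.nd (.lf
 (.negSucc (nat_lit 425172887492214597))) .e) .e) .e) (.nd (.nd (.nd (.lf (.negSucc (nat_lit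
 2507769423908977199))) .e) .e) .e))) (.nd (.nd (.nd (.nd (.nd (.lf (.negSucc (nat_lit
 161403326659519079))) .e) .e) .e) (.nd (.nd (.nd (.lf (.negSucc (nat_lit 6618085687418364899)))
 .e) .e) .e)) (.nd (.nd (.nd (.nd (.lf (.negSucc (nat_lit 2852036013359433599))) .e) .e) .e) .e)))
 (.nd (.nd (.nd (.nd (.nd (.nd (.lf (.negSucc (nat_lit 66396878191973907))) .e) .e) .e) .e) (.nd
 (.nd (.nd (.nd (.lf (.negSucc (nat_lit 7567102344704943259))) .e) .e) .e) (.nd (.nd (.nd (.lf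
 (.negSucc (nat_lit 2012318078870876599))) .e) .e) .e))) (.nd (.nd (.nd (.nd (.nd (.lf (.negSucc
 (nat_lit 2477676992038428459))) .e) .e) .e) .e) (.nd (.nd (.nd (.nd (.lf (.negSucc (nat_lit
 6509742721737843971))) .e) .e) .e) .e))))) .e) .e) .e))))) (.nd (.nd (.nd (.nd (.nd (.nd (.nd
 (.nd .e (.nd (.nd (.nd (.nd (.nd (.nd (.nd (.lf (.ofNat (nat_lit 283629309837885641))) .e) .e)
 .e) .e) .e) .e) .e)) .e) .e) .e) .e) (.nd (.nd (.nd (.nd (.nd (.nd (.nd (.nd .e (.nd (.nd (.nd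
 (.nd (.lf (.negSucc (nat_lit 106055718289313655))) .e) .e) .e) .e)) (.nd (.nd (.nd (.nd (.nd (.lf
 (.negSucc (nat_lit 63489122302167655))) .e) .e) .e) .e) .e)) (.nd (.nd (.nd (.nd (.nd (.nd (.lf
 (.negSucc (nat_lit 4834278051540967))) .e) .e) .e) .e) .e) (.nd (.nd (.nd (.nd (.nd (.lf
 (.negSucc (nat_lit 60701929216873421))) .e) .e) .e) .e) .e))) (.nd (.nd (.nd (.nd (.nd (.nd (.nd
 (.lf (.ofNat (nat_lit 2767418189231948))) .e) .e) .e) .e) (.nd (.nd (.nd (.nd (.lf (.negSucc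
 (nat_lit 875572151416485062))) .e) .e) .e) .e)) (.nd (.nd (.nd (.nd (.nd (.lf (.negSucc (nat_lit
 1112546287607034309))) .e) .e) .e) .e) .e)) (.nd (.nd (.nd (.nd (.nd (.nd (.lf (.negSucc (nat_lit
 12348959990763233))) .e) .e) .e) .e) .e) (.nd (.nd (.nd (.nd (.nd (.lf (.negSucc (nat_lit
 1415119477232621059))) .e) .e) .e) .e) .e)))) .e) .e) .e) (.nd (.nd (.nd (.nd (.nd (.nd (.nd (.nd
 .e (.nd (.nd (.nd (.lf (.ofNat (nat_lit 28425221141164368))) .e) .e) .e)) (.nd (.nd (.nd (.nd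
 (.lf (.ofNat (nat_lit 36458702933204204))) .e) .e) .e) (.nd (.nd (.nd (.lf (.negSucc (nat_lit
 149980899972165383))) .e) .e) .e))) (.nd (.nd (.nd (.nd (.nd (.lf (.ofNat (nat_lit
 11769108164947780))) .e) .e) .e) (.nd (.nd (.nd (.lf (.negSucc (nat_lit 69692301298407123))) .e)
 .e) .e)) (.nd (.nd (.nd (.nd (.lf (.negSucc (nat_lit 16961793137751895))) .e) .e) .e) .e))) (.nd
 (.nd (.nd (.nd (.nd (.nd (.lf (.ofNat (nat_lit 3508082198490340))) .e) .e) .e) (.nd (.nd (.nd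
 (.lf (.negSucc (nat_lit 41832746576321699))) .e) .e) .e)) (.nd (.nd (.nd (.nd (.lf (.ofNat
 (nat_lit 123947396520724904))) .e) .e) .e) .e)) (.nd (.nd (.nd (.nd (.nd (.lf (.negSucc (nat_lit
 17945335074387923))) .e) .e) .e) (.nd (.nd (.nd (.lf (.negSucc (nat_lit 6611083263565444799)))
 .e) .e) .e)) (.nd (.nd (.nd (.nd (.lf (.negSucc (nat_lit 193365573051895919))) .e) .e) .e) .e))))
 (.nd (.nd (.nd (.nd (.nd (.nd (.nd (.lf (.ofNat (nat_lit 1289253164560488))) .e) .e) .e) .e) (.nd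
 (.nd (.nd (.nd (.lf (.negSucc (nat_lit 16735632564333255))) .e) .e) .e) (.nd (.nd (.nd (.lf
 (.negSucc (nat_lit 732412581326921649))) .e) .e) .e))) (.nd (.nd (.nd (.nd (.nd (.lf (.ofNat
 (nat_lit 45761804932660828))) .e) .e) .e) (.nd (.nd (.nd (.lf (.negSucc (nat_lit
 2726983832094950399))) .e) .e) .e)) (.nd (.nd (.nd (.nd (.lf (.negSucc (nat_lit
 1428725599274131199))) .e) .e) .e) .e))) (.nd (.nd (.nd (.nd (.nd (.nd (.lf (.negSucc (nat_lit
 14845791667591151))) .e) .e) .e) .e) (.nd (.nd (.nd (.nd (.lf (.negSucc (nat_lit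
 2260319289656325839))) .e) .e) .e) .e)) (.nd (.nd (.nd (.nd (.nd (.lf (.negSucc (nat_lit
 33312095169700319))) .e) .e) .e) .e) (.nd (.nd (.nd (.nd (.lf (.ofNat (nat_lit
 56962407518416896))) .e) .e) .e) .e))))) .e) .e) .e))) (.nd (.nd (.nd (.nd (.nd (.nd (.nd (.nd .e
 (.nd (.nd (.nd (.nd (.nd (.lf (.ofNat (nat_lit 1689825012870598))) .e) .e) .e) .e) .e)) (.nd (.nd
 (.nd (.nd (.nd (.nd (.lf (.negSucc (nat_lit 5850961851046651))) .e) .e) .e) .e) .e) .e)) (.nd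
 (.nd (.nd (.nd (.nd (.nd (.nd (.lf (.ofNat (nat_lit 2253639510798742))) .e) .e) .e) .e) .e) (.nd
 (.nd (.nd (.nd (.nd (.lf (.negSucc (nat_lit 1550992630517879403))) .e) .e) .e) .e) .e)) (.nd (.nd
 (.nd (.nd (.nd (.nd (.lf (.negSucc (nat_lit 665045684808247195))) .e) .e) .e) .e) .e) .e))) .e)
 .e) .e) (.nd (.nd (.nd (.nd (.nd (.nd (.nd (.nd .e (.nd (.nd (.nd (.lf (.negSucc (nat_lit
 35232759026638467))) .e) .e) .e)) (.nd (.nd (.nd (.nd (.lf (.negSucc (nat_lit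
 48000421958954979))) .e) .e) .e) .e)) (.nd (.nd (.nd (.nd (.nd (.lf (.negSucc (nat_lit
 18131291696352187))) .e) .e) .e) (.nd (.nd (.nd (.lf (.ofNat (nat_lit 183807555074123382))) .e)
 .e) .e)) (.nd (.nd (.nd (.nd (.lf (.negSucc (nat_lit 11373547411612861))) .e) .e) .e) .e))) (.nd
 (.nd (.nd (.nd (.nd (.nd (.lf (.negSucc (nat_lit 4500329267973663))) .e) .e) .e) (.nd (.nd (.nd
 (.lf (.ofNat (nat_lit 200070255572756922))) .e) .e) .e)) (.nd (.nd (.nd (.nd (.lf (.negSucc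
 (nat_lit 260535101780103849))) .e) .e) .e) .e)) (.nd (.nd (.nd (.nd (.nd (.lf (.ofNat (nat_lit
 21986857539504770))) .e) .e) .e) .e) (.nd (.nd (.nd (.nd (.lf (.ofNat (nat_lit
 378060013415234110))) .e) .e) .e) .e)))) (.nd (.nd (.nd (.nd (.nd (.nd (.nd (.lf (.negSucc
 (nat_lit 23834980983799))) .e) .e) .e) .e) (.nd (.nd (.nd (.nd (.lf (.negSucc (nat_lit
 10947773684764091))) .e) .e) .e) .e)) (.nd (.nd (.nd (.nd (.nd (.lf (.negSucc (nat_lit
 63351678806227543))) .e) .e) .e) (.nd (.nd (.nd (.lf (.negSucc (nat_lit 3043196852275329474)))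
 .e) .e) .e)) (.nd (.nd (.nd (.nd (.lf (.negSucc (nat_lit 2847389905882367999))) .e) .e) .e) .e)))
 (.nd (.nd (.nd (.nd (.nd (.nd (.lf (.ofNat (nat_lit 23752175891505452))) .e) .e) .e) .e) (.nd
 (.nd (.nd (.nd (.lf (.negSucc (nat_lit 4654448403604247519))) .e) .e) .e) .e)) (.nd (.nd (.nd
 (.nd (.nd (.lf (.ofNat (nat_lit 11129567316657100))) .e) .e) .e) .e) (.nd (.nd (.nd (.nd (.lf
 (.negSucc (nat_lit 98773211203300641))) .e) .e) .e) .e))))) .e) .e) .e)) (.nd (.nd (.nd (.nd (.nd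
 (.nd (.nd (.nd .e (.nd (.nd (.nd (.nd (.lf (.negSucc (nat_lit 1739710763935199))) .e) .e) .e)
 .e)) (.nd (.nd (.nd (.nd (.nd (.lf (.negSucc (nat_lit 569417056704383))) .e) .e) .e) .e) (.nd
 (.nd (.nd (.nd (.lf (.ofNat (nat_lit 2759948605842624))) .e) .e) .e) .e))) (.nd (.nd (.nd (.nd
 (.nd (.nd (.lf (.negSucc (nat_lit 307165166771231))) .e) .e) .e) .e) (.nd (.nd (.nd (.nd (.lf
 (.negSucc (nat_lit 3134525850025919))) .e) .e) .e) .e)) (.nd (.nd (.nd (.nd (.nd (.lf (.ofNat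
 (nat_lit 365118140459520))) .e) .e) .e) .e) .e))) (.nd (.nd (.nd (.nd (.nd (.nd (.nd (.lf
 (.negSucc (nat_lit 36476483924159))) .e) .e) .e) .e) (.nd (.nd (.nd (.nd (.lf (.ofNat (nat_lit
 1454058770308704))) .e) .e) .e) .e)) (.nd (.nd (.nd (.nd (.nd (.lf (.negSucc (nat_lit
 2442314171287871))) .e) .e) .e) .e) (.nd (.nd (.nd (.nd (.lf (.negSucc (nat_lit
 712948308954335999))) .e) .e) .e) .e))) (.nd (.nd (.nd (.nd (.nd (.nd (.lf (.ofNat (nat_lit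
 217544447667456))) .e) .e) .e) .e) (.nd (.nd (.nd (.nd (.lf (.negSucc (nat_lit
 2302329495003017759))) .e) .e) .e) .e)) (.nd (.nd (.nd (.nd (.nd (.lf (.ofNat (nat_lit
 3106902579681600))) .e) .e) .e) .e) .e)))) .e) .e) .e) .e))) (.nd (.nd (.nd (.nd (.nd (.nd (.nd
 (.nd .e (.nd (.nd (.nd (.nd (.nd (.nd (.lf (.negSucc (nat_lit 195754406114733035))) .e) .e) .e)
 .e) .e) .e)) (.nd (.nd (.nd (.nd (.nd (.nd (.nd (.lf (.ofNat (nat_lit 19531709961615764))) .e)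
 .e) .e) .e) .e) .e) (.nd (.nd (.nd (.nd (.nd (.nd (.lf (.negSucc (nat_lit 774921304813700724)))
 .e) .e) .e) .e) .e) .e))) .e) .e) .e) .e) (.nd (.nd (.nd (.nd (.nd (.nd (.nd (.nd .e (.nd (.nd
 (.nd (.nd (.lf (.ofNat (nat_lit 26026587232480490))) .e) .e) .e) .e)) (.nd (.nd (.nd (.nd (.nd
 (.lf (.ofNat (nat_lit 8040885840174780))) .e) .e) .e) .e) .e)) (.nd (.nd (.nd (.nd (.nd (.nd (.lf
 (.ofNat (nat_lit 2331992521769640))) .e) .e) .e) .e) (.nd (.nd (.nd (.nd (.lf (.ofNat (nat_lit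
 31431614721644120))) .e) .e) .e) .e)) (.nd (.nd (.nd (.nd (.nd (.lf (.negSucc (nat_lit
 14581337553455269))) .e) .e) .e) .e) .e))) (.nd (.nd (.nd (.nd (.nd (.nd (.nd (.lf (.ofNat
 (nat_lit 1033821830521300))) .e) .e) .e) .e) (.nd (.nd (.nd (.nd (.lf (.negSucc (nat_lit
 27612539806596579))) .e) .e) .e) .e)) (.nd (.nd (.nd (.nd (.nd (.lf (.ofNat (nat_lit
 24853779962122450))) .e) .e) .e) .e) .e)) (.nd (.nd (.nd (.nd (.nd (.nd (.lf (.negSucc (nat_lit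
 9832601667533079))) .e) .e) .e) .e) (.nd (.nd (.nd (.nd (.lf (.negSucc (nat_lit
 2837342703141165174))) .e) .e) .e) .e)) (.nd (.nd (.nd (.nd (.nd (.lf (.negSucc (nat_lit
 1531151443341423449))) .e) .e) .e) .e) .e)))) .e) .e) .e) (.nd (.nd (.nd (.nd (.nd (.nd (.nd (.nd
 .e (.nd (.nd (.nd (.lf (.negSucc (nat_lit 24447987353312457))) .e) .e) .e)) (.nd (.nd (.nd (.nd
 (.lf (.negSucc (nat_lit 13502166008679445))) .e) .e) .e) (.nd (.nd (.nd (.lf (.ofNat (nat_lit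
 109218684931312890))) .e) .e) .e))) (.nd (.nd (.nd (.nd (.nd (.lf (.negSucc (nat_lit
 4168852196225665))) .e) .e) .e) (.nd (.nd (.nd (.lf (.ofNat (nat_lit 147106545837343862))) .e)
 .e) .e)) (.nd (.nd (.nd (.nd (.lf (.negSucc (nat_lit 160533647873973449))) .e) .e) .e) .e))) (.nd
 (.nd (.nd (.nd (.nd (.nd (.lf (.negSucc (nat_lit 1629370669278707))) .e) .e) .e) (.nd (.nd (.nd
 (.lf (.ofNat (nat_lit 111365545552462002))) .e) .e) .e)) (.nd (.nd (.nd (.nd (.lf (.negSucc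
 (nat_lit 258040852318943041))) .e) .e) .e) .e)) (.nd (.nd (.nd (.nd (.nd (.lf (.negSucc (nat_lit
 26981160871212505))) .e) .e) .e) (.nd (.nd (.nd (.lf (.negSucc (nat_lit 2236262366951311049)))
 .e) .e) .e)) (.nd (.nd (.nd (.nd (.lf (.ofNat (nat_lit 277833521302111510))) .e) .e) .e) .e))))
 (.nd (.nd (.nd (.nd (.nd (.nd (.nd (.lf (.ofNat (nat_lit 8531687885704))) .e) .e) .e) .e) (.nd
 (.nd (.nd (.nd (.lf (.negSucc (nat_lit 89647500630392717))) .e) .e) .e) (.nd (.nd (.nd (.lf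
 (.negSucc (nat_lit 314158795170249599))) .e) .e) .e))) (.nd (.nd (.nd (.nd (.nd (.lf (.negSucc
 (nat_lit 35628162270568563))) .e) .e) .e) (.nd (.nd (.nd (.lf (.negSucc (nat_lit
 1399409066798978699))) .e) .e) .e)) (.nd (.nd (.nd (.nd (.lf (.negSucc (nat_lit
 473919940790956799))) .e) .e) .e) .e))) (.nd (.nd (.nd (.nd (.nd (.nd (.lf (.ofNat (nat_lit
 3039653117781810))) .e) .e) .e) .e) (.nd (.nd (.nd (.nd (.lf (.negSucc (nat_lit
 780139654970410079))) .e) .e) .e) (.nd (.nd (.nd (.lf (.negSucc (nat_lit 357453758441122349)))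
 .e) .e) .e))) (.nd (.nd (.nd (.nd (.nd (.lf (.negSucc (nat_lit 51368875744338619))) .e) .e) .e)
 .e) (.nd (.nd (.nd (.nd (.lf (.negSucc (nat_lit 93153345460511463))) .e) .e) .e) .e))))) .e) .e)
 .e))) (.nd (.nd (.nd (.nd (.nd (.nd (.nd (.nd .e (.nd (.nd (.nd (.nd (.nd (.lf (.negSucc (nat_lit
 16406632265694209))) .e) .e) .e) .e) .e)) (.nd (.nd (.nd (.nd (.nd (.nd (.lf (.negSucc (nat_lit
 3964128985185089))) .e) .e) .e) .e) .e) (.nd (.nd (.nd (.nd (.nd (.lf (.ofNat (nat_lit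
 23595015197001470))) .e) .e) .e) .e) .e))) (.nd (.nd (.nd (.nd (.nd (.nd (.nd (.lf (.negSucc
 (nat_lit 225678422955719))) .e) .e) .e) .e) .e) (.nd (.nd (.nd (.nd (.nd (.lf (.negSucc (nat_lit
 1089439126608315129))) .e) .e) .e) .e) .e)) (.nd (.nd (.nd (.nd (.nd (.nd (.lf (.ofNat (nat_lit
 15770721938667220))) .e) .e) .e) .e) .e) (.nd (.nd (.nd (.nd (.nd (.lf (.negSucc (nat_lit
 2189225301686321699))) .e) .e) .e) .e) .e)))) .e) .e) .e) .e) (.nd (.nd (.nd (.nd (.nd (.nd (.nd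
 (.nd .e (.nd (.nd (.nd (.nd (.lf (.negSucc (nat_lit 21617721619265139))) .e) .e) .e) .e)) (.nd
 (.nd (.nd (.nd (.nd (.lf (.ofNat (nat_lit 1936687588201496))) .e) .e) .e) .e) (.nd (.nd (.nd (.nd
 (.lf (.negSucc (nat_lit 490630354461295109))) .e) .e) .e) .e))) (.nd (.nd (.nd (.nd (.nd (.nd
 (.lf (.ofNat (nat_lit 1435299576226424))) .e) .e) .e) .e) (.nd (.nd (.nd (.nd (.lf (.ofNat
 (nat_lit 56034737358481042))) .e) .e) .e) .e)) (.nd (.nd (.nd (.nd (.nd (.lf (.negSucc (nat_lit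
 272815532507558401))) .e) .e) .e) .e) (.nd (.nd (.nd (.nd (.lf (.negSucc (nat_lit
 12442279695564220249))) .e) .e) .e) .e)))) (.nd (.nd (.nd (.nd (.nd (.nd (.nd (.lf (.ofNat
 (nat_lit 1113085231267632))) .e) .e) .e) .e) (.nd (.nd (.nd (.nd (.lf (.negSucc (nat_lit
 101686787367978929))) .e) .e) .e) .e)) (.nd (.nd (.nd (.nd (.nd (.lf (.negSucc (nat_lit
 21933791552034605))) .e) .e) .e) .e) (.nd (.nd (.nd (.nd (.lf (.negSucc (nat_lit
 2657611300762655))) .e) .e) .e) .e))) (.nd (.nd (.nd (.nd (.nd (.nd (.lf (.negSucc (nat_lit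
 30290295408042519))) .e) .e) .e) .e) (.nd (.nd (.nd (.nd (.lf (.negSucc (nat_lit
 3984549703401489069))) .e) .e) .e) .e)) (.nd (.nd (.nd (.nd (.nd (.lf (.negSucc (nat_lit
 3013253977513472169))) .e) .e) .e) .e) (.nd (.nd (.nd (.nd (.lf (.negSucc (nat_lit
 4193676006096367490))) .e) .e) .e) .e))))) .e) .e) .e) .e)))))

end Pool.Agent.H58.BJ.D6
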