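import Pool.Agent.H58.BJ.D6.U10
import Pool.Agent.H58.BJ.D6.U11

/-! # Certificate data (6 jets, exponent 28/25) -/

set_option autoImplicit false

namespace Pool.Agent.H58.BJ.D6

open Pool.Agent.H58.BJ

/-- rows of a block -/
noncomputable def B11_0 : List (Row × List ℤ) := [((nat_lit 1, nat_lit 1, false), [.ofNat (nat_lit
 7252572)]), ((nat_lit 1, nat_lit 2, false), [.ofNat (nat_lit 6827215), .ofNat (nat_lit
 10159723)]), ((nat_lit 1, nat_lit 3, false), [.ofNat (nat_lit 5706626), .negSucc (nat_lit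
 2240272), .ofNat (nat_lit 10614171)]), ((nat_lit 1, nat_lit 4, false), [.ofNat (nat_lit 54170),
 .ofNat (nat_lit 8423619), .ofNat (nat_lit 64836), .ofNat (nat_lit 10415404)]), ((nat_lit 2,
 nat_lit 1, false), [.ofNat (nat_lit 10111351), .negSucc (nat_lit 1766759), .negSucc (nat_lit
 1326624), .negSucc (nat_lit 126786), .ofNat (nat_lit 10897659)]), ((nat_lit 2, nat_lit 2, false),
 [.ofNat (nat_lit 768454), .ofNat (nat_lit 14034312), .ofNat (nat_lit 426789), .negSucc (nat_lit
 3426808), .ofNat (nat_lit 8791162), .ofNat (nat_lit 14908845)]), ((nat_lit 2, nat_lit 3, false),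
 [.ofNat (nat_lit 6179198), .negSucc (nat_lit 2256303), .ofNat (nat_lit 18413035), .ofNat (nat_lit
 1072436), .ofNat (nat_lit 6016374), .negSucc (nat_lit 3508326), .ofNat (nat_lit 14372842)]),
 ((nat_lit 2, nat_lit 4, false), [.negSucc (nat_lit 4659434), .ofNat (nat_lit 5748893), .ofNat
 (nat_lit 1476168), .ofNat (nat_lit 16630706), .ofNat (nat_lit 1076799), .ofNat (nat_lit 9971656),
 .negSucc (nat_lit 2117168), .ofNat (nat_lit 13118864)]), ((nat_lit 3, nat_lit 1, false), [.ofNat
 (nat_lit 6903837), .negSucc (nat_lit 1692793), .negSucc (nat_lit 3657107), .negSucc (nat_lit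
 1013139), .negSucc (nat_lit 2349052), .ofNat (nat_lit 1285905), .negSucc (nat_lit 1840469),
 .ofNat (nat_lit 1129607), .ofNat (nat_lit 10584478)]), ((nat_lit 3, nat_lit 2, false), [.ofNat
 (nat_lit 7203779), .ofNat (nat_lit 2494676), .negSucc (nat_lit 5911808), .negSucc (nat_lit
 4573396), .negSucc (nat_lit 1925424), .negSucc (nat_lit 5938818), .negSucc (nat_lit 2806051),
 .ofNat (nat_lit 4589111), .ofNat (nat_lit 13607583), .ofNat (nat_lit 16543608)]), ((nat_lit 3,
 nat_lit 3, false), [.ofNat (nat_lit 806522), .ofNat (nat_lit 195769), .ofNat (nat_lit 7838962),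
 .negSucc (nat_lit 4101959), .negSucc (nat_lit 199636), .ofNat (nat_lit 717190), .negSucc (nat_lit
 6801426), .ofNat (nat_lit 3261314), .ofNat (nat_lit 10251887), .negSucc (nat_lit 4915933), .ofNat
 (nat_lit 13774222)]), ((nat_lit 3, nat_lit 4, false), [.negSucc (nat_lit 1138093), .ofNat
 (nat_lit 4217317), .negSucc (nat_lit 1798806), .negSucc (nat_lit 454557), .negSucc (nat_lit
 364426), .negSucc (nat_lit 5887437), .ofNat (nat_lit 1703270), .negSucc (nat_lit 411681), .ofNat
 (nat_lit 3235508), .ofNat (nat_lit 15570750), .ofNat (nat_lit 3562500), .ofNat (nat_lit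
 14623728)]), ((nat_lit 4, nat_lit 1, false), [.ofNat (nat_lit 3479240), .negSucc (nat_lit
 4833358), .negSucc (nat_lit 4703707), .ofNat (nat_lit 2501494), .ofNat (nat_lit 12279545),
 .negSucc (nat_lit 1588268), .negSucc (nat_lit 3166538), .negSucc (nat_lit 1584124), .ofNat
 (nat_lit 72854), .ofNat (nat_lit 1445000), .ofNat (nat_lit 966276), .negSucc (nat_lit 92159),
 .ofNat (nat_lit 11859394)]), ((nat_lit 4, nat_lit 2, false), [.negSucc (nat_lit 6041046), .ofNat
 (nat_lit 2105912), .negSucc (nat_lit 1618113), .negSucc (nat_lit 5327726), .ofNat (nat_lit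
 879643), .ofNat (nat_lit 16471120), .ofNat (nat_lit 1051717), .negSucc (nat_lit 6491264), .ofNat
 (nat_lit 1204148), .ofNat (nat_lit 1558171), .ofNat (nat_lit 2672927), .ofNat (nat_lit 1443112),
 .ofNat (nat_lit 12938976), .ofNat (nat_lit 13368361)]), ((nat_lit 4, nat_lit 3, false), [.negSucc
 (nat_lit 1500236), .ofNat (nat_lit 119067), .ofNat (nat_lit 3077280), .negSucc (nat_lit 691845),
 .ofNat (nat_lit 4767143), .negSucc (nat_lit 3753270), .ofNat (nat_lit 15492548), .ofNat (nat_lit
 3154480), .ofNat (nat_lit 1449737), .ofNat (nat_lit 929811), .ofNat (nat_lit 1490189), .negSucc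
 (nat_lit 826080), .ofNat (nat_lit 4082096), .negSucc (nat_lit 4650950), .ofNat (nat_lit
 15640687)]), ((nat_lit 4, nat_lit 4, false), [.negSucc (nat_lit 210960), .negSucc (nat_lit
 4796522), .negSucc (nat_lit 450976), .ofNat (nat_lit 2023812), .negSucc (nat_lit 1791451), .ofNat
 (nat_lit 3169719), .ofNat (nat_lit 148521), .ofNat (nat_lit 15821674), .negSucc (nat_lit 923664),
 .ofNat (nat_lit 59603), .negSucc (nat_lit 249926), .ofNat (nat_lit 1182241), .ofNat (nat_lit
 463152), .ofNat (nat_lit 11566114), .ofNat (nat_lit 563589), .ofNat (nat_lit 12683212)]),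
 ((nat_lit 5, nat_lit 1, false), [.ofNat (nat_lit 2394773), .ofNat (nat_lit 844061), .negSucc
 (nat_lit 1516380), .negSucc (nat_lit 1569952), .negSucc (nat_lit 4051753), .ofNat (nat_lit
 3659922), .negSucc (nat_lit 626433), .negSucc (nat_lit 1364578), .negSucc (nat_lit 1177618),
 .negSucc (nat_lit 1389135), .ofNat (nat_lit 753834), .ofNat (nat_lit 1449540), .ofNat (nat_lit
 2578021), .negSucc (nat_lit 1648963), .ofNat (nat_lit 829052), .ofNat (nat_lit 1108457), .ofNat
 (nat_lit 10288331)]), ((nat_lit 5, nat_lit 2, false), [.ofNat (nat_lit 284342), .ofNat (nat_lit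
 6285414), .ofNat (nat_lit 50043), .negSucc (nat_lit 3246474), .negSucc (nat_lit 2825609), .ofNat
 (nat_lit 2863866), .ofNat (nat_lit 1201976), .negSucc (nat_lit 371232), .negSucc (nat_lit
 1186090), .negSucc (nat_lit 4716239), .ofNat (nat_lit 563149), .ofNat (nat_lit 2605297), .ofNat
 (nat_lit 2686531), .ofNat (nat_lit 599867), .negSucc (nat_lit 122378), .negSucc (nat_lit
 2012261), .ofNat (nat_lit 15966053), .ofNat (nat_lit 14145529)]), ((nat_lit 5, nat_lit 3, false),
 [.ofNat (nat_lit 5902953), .negSucc (nat_lit 5985973), .negSucc (nat_lit 1734714), .ofNat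
 (nat_lit 1198267), .negSucc (nat_lit 5607814), .ofNat (nat_lit 3597312), .negSucc (nat_lit
 7284193), .negSucc (nat_lit 1781102), .negSucc (nat_lit 581443), .ofNat (nat_lit 4827083), .ofNat
 (nat_lit 1021326), .negSucc (nat_lit 151851), .ofNat (nat_lit 2662798), .negSucc (nat_lit
 3963770), .ofNat (nat_lit 5055697), .ofNat (nat_lit 3048538), .ofNat (nat_lit 9308380), .negSucc
 (nat_lit 9269139), .ofNat (nat_lit 15062871)]), ((nat_lit 5, nat_lit 4, false), [.negSucc
 (nat_lit 1132762), .ofNat (nat_lit 4376823), .ofNat (nat_lit 2323035), .ofNat (nat_lit 1568124),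
 .ofNat (nat_lit 133666), .ofNat (nat_lit 163501), .ofNat (nat_lit 1603900), .negSucc (nat_lit
 1684183), .negSucc (nat_lit 506862), .negSucc (nat_lit 2697245), .negSucc (nat_lit 245749),
 .negSucc (nat_lit 2255748), .ofNat (nat_lit 223113), .ofNat (nat_lit 796754), .negSucc (nat_lit
 1741171), .negSucc (nat_lit 643837), .ofNat (nat_lit 5238787), .ofNat (nat_lit 16962654), .ofNat
 (nat_lit 3562871), .ofNat (nat_lit 8945078)]), ((nat_lit 6, nat_lit 1, false), [.ofNat (nat_lit
 2613884), .negSucc (nat_lit 2315564), .negSucc (nat_lit 3005102), .ofNat (nat_lit 3099438),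
 .ofNat (nat_lit 3094462), .ofNat (nat_lit 1223978), .ofNat (nat_lit 1481258), .negSucc (nat_lit
 2111859), .ofNat (nat_lit 7434894), .negSucc (nat_lit 4128593), .negSucc (nat_lit 3714814),
 .negSucc (nat_lit 3548168), .negSucc (nat_lit 3525279), .ofNat (nat_lit 1787253), .negSucc
 (nat_lit 435771), .ofNat (nat_lit 1009918), .ofNat (nat_lit 1241333), .negSucc (nat_lit 309754),
 .negSucc (nat_lit 1365173), .negSucc (nat_lit 658627), .ofNat (nat_lit 11574993)]), ((nat_lit 6,
 nat_lit 2, false), [.ofNat (nat_lit 902785), .negSucc (nat_lit 2527333), .ofNat (nat_lit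
 2027042), .negSucc (nat_lit 353682), .ofNat (nat_lit 4358621), .negSucc (nat_lit 1990546), .ofNat
 (nat_lit 8858), .ofNat (nat_lit 1314129), .ofNat (nat_lit 1203886), .ofNat (nat_lit 5183378),
 .negSucc (nat_lit 4494930), .negSucc (nat_lit 8843988), .negSucc (nat_lit 3884042), .negSucc
 (nat_lit 1299588), .negSucc (nat_lit 765824), .ofNat (nat_lit 2425059), .negSucc (nat_lit
 443748), .ofNat (nat_lit 1615276), .negSucc (nat_lit 1604101), .ofNat (nat_lit 818209), .ofNat
 (nat_lit 16754655), .ofNat (nat_lit 15066878)]), ((nat_lit 6, nat_lit 3, false), [.negSucc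
 (nat_lit 1168407), .ofNat (nat_lit 567919), .negSucc (nat_lit 4170329), .ofNat (nat_lit 3526922),
 .negSucc (nat_lit 4311604), .ofNat (nat_lit 5310369), .ofNat (nat_lit 1660056), .negSucc (nat_lit
 5054061), .ofNat (nat_lit 5174818), .negSucc (nat_lit 2597076), .ofNat (nat_lit 11655112),
 .negSucc (nat_lit 2353942), .ofNat (nat_lit 2909921), .negSucc (nat_lit 5261365), .negSucc
 (nat_lit 5225451), .ofNat (nat_lit 8407524), .ofNat (nat_lit 2183305), .negSucc (nat_lit
 3000464), .ofNat (nat_lit 3649315), .negSucc (nat_lit 2983649), .ofNat (nat_lit 5902777),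
 .negSucc (nat_lit 7032775), .ofNat (nat_lit 19207038)]), ((nat_lit 6, nat_lit 4, false),
 [.negSucc (nat_lit 871450), .negSucc (nat_lit 2397558), .ofNat (nat_lit 2572409), .ofNat (nat_lit
 1387476), .negSucc (nat_lit 3205933), .ofNat (nat_lit 3056101), .ofNat (nat_lit 1072042),
 .negSucc (nat_lit 1179651), .negSucc (nat_lit 5530991), .ofNat (nat_lit 3194958), .ofNat (nat_lit
 2905546), .ofNat (nat_lit 10933044), .ofNat (nat_lit 49479), .negSucc (nat_lit 3969561), .ofNat
 (nat_lit 1778038), .negSucc (nat_lit 1210374), .negSucc (nat_lit 296322), .negSucc (nat_lit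
 597739), .negSucc (nat_lit 226560), .ofNat (nat_lit 2827966), .ofNat (nat_lit 3663888), .ofNat
 (nat_lit 16606379), .ofNat (nat_lit 5019179), .ofNat (nat_lit 9168662)]), ((nat_lit 8, nat_lit 1,
 false), [.ofNat (nat_lit 996316), .negSucc (nat_lit 1919045), .ofNat (nat_lit 409560), .ofNat
 (nat_lit 2532951), .ofNat (nat_lit 2729957), .negSucc (nat_lit 3903156), .negSucc (nat_lit
 5257219), .ofNat (nat_lit 1362466), .negSucc (nat_lit 608060), .ofNat (nat_lit 796051), .ofNat
 (nat_lit 119063), .negSucc (nat_lit 822709), .ofNat (nat_lit 9912970), .negSucc (nat_lit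
 1458971), .ofNat (nat_lit 279318), .negSucc (nat_lit 4433614), .negSucc (nat_lit 1518920), .ofNat
 (nat_lit 367613), .negSucc (nat_lit 481788), .ofNat (nat_lit 2261021), .ofNat (nat_lit 1432083),
 .ofNat (nat_lit 878599), .ofNat (nat_lit 250175), .negSucc (nat_lit 2816528), .ofNat (nat_lit
 8140307)]), ((nat_lit 8, nat_lit 2, false), [.ofNat (nat_lit 690597), .ofNat (nat_lit 1871085),
 .ofNat (nat_lit 2559978), .negSucc (nat_lit 206135), .negSucc (nat_lit 3225545), .negSucc
 (nat_lit 2172571), .negSucc (nat_lit 441648), .negSucc (nat_lit 5250931), .negSucc (nat_lit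
 576175), .negSucc (nat_lit 91395), .ofNat (nat_lit 659275), .negSucc (nat_lit 223313), .ofNat
 (nat_lit 4302738), .ofNat (nat_lit 8266881), .ofNat (nat_lit 2363482), .negSucc (nat_lit
 5389816), .negSucc (nat_lit 1180695), .negSucc (nat_lit 1107201), .ofNat (nat_lit 32539), .ofNat
 (nat_lit 2753266), .ofNat (nat_lit 318976), .ofNat (nat_lit 2551309), .ofNat (nat_lit 3233129),
 .negSucc (nat_lit 1249330), .ofNat (nat_lit 16775142), .ofNat (nat_lit 8344827)]), ((nat_lit 8,
 nat_lit 3, false), [.negSucc (nat_lit 570368), .ofNat (nat_lit 889079), .negSucc (nat_lit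
 6128075), .negSucc (nat_lit 2228615), .negSucc (nat_lit 4556584), .ofNat (nat_lit 375723),
 .negSucc (nat_lit 1468184), .ofNat (nat_lit 2049762), .ofNat (nat_lit 248252), .negSucc (nat_lit
 16308), .ofNat (nat_lit 1326940), .negSucc (nat_lit 2913589), .ofNat (nat_lit 5374184), .negSucc
 (nat_lit 4003889), .ofNat (nat_lit 17425859), .ofNat (nat_lit 2623253), .negSucc (nat_lit
 269626), .negSucc (nat_lit 412683), .negSucc (nat_lit 500735), .negSucc (nat_lit 515931), .ofNat
 (nat_lit 229347), .ofNat (nat_lit 1653664), .ofNat (nat_lit 2849177), .negSucc (nat_lit 1910990),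
 .ofNat (nat_lit 835161), .negSucc (nat_lit 7414317), .ofNat (nat_lit 6282037)]), ((nat_lit 8,
 nat_lit 4, false), [.ofNat (nat_lit 4972250), .ofNat (nat_lit 161083), .negSucc (nat_lit 948487),
 .negSucc (nat_lit 2526678), .ofNat (nat_lit 1379524), .negSucc (nat_lit 8803742), .ofNat (nat_lit
 2709641), .ofNat (nat_lit 1036381), .negSucc (nat_lit 2037641), .negSucc (nat_lit 981271),
 .negSucc (nat_lit 1785797), .ofNat (nat_lit 720691), .negSucc (nat_lit 6002050), .ofNat (nat_lit
 6850828), .ofNat (nat_lit 2399949), .ofNat (nat_lit 12901133), .ofNat (nat_lit 174317), .negSucc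
 (nat_lit 1276835), .ofNat (nat_lit 818740), .ofNat (nat_lit 981741), .negSucc (nat_lit 1123703),
 .ofNat (nat_lit 1403880), .ofNat (nat_lit 2195693), .ofNat (nat_lit 2786538), .ofNat (nat_lit
 9099956), .ofNat (nat_lit 8861554), .negSucc (nat_lit 65895), .ofNat (nat_lit 2190904)]),
 ((nat_lit 1, nat_lit 1, true), [.ofNat (nat_lit 177375), .ofNat (nat_lit 535789), .ofNat (nat_lit
 170065), .ofNat (nat_lit 407389), .negSucc (nat_lit 1103985), .ofNat (nat_lit 710582), .negSucc
 (nat_lit 63565), .ofNat (nat_lit 30834), .negSucc (nat_lit 129961), .negSucc (nat_lit 666868),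
 .ofNat (nat_lit 117547), .negSucc (nat_lit 264243), .ofNat (nat_lit 293651), .ofNat (nat_lit
 404645), .negSucc (nat_lit 367952), .negSucc (nat_lit 188211), .negSucc (nat_lit 163635), .ofNat
 (nat_lit 470540), .negSucc (nat_lit 467176), .ofNat (nat_lit 249551), .negSucc (nat_lit 105969),
 .negSucc (nat_lit 2537), .ofNat (nat_lit 344322), .negSucc (nat_lit 5575), .negSucc (nat_lit
 110581), .negSucc (nat_lit 22718), .negSucc (nat_lit 72434), .negSucc (nat_lit 139201), .ofNat
 (nat_lit 3657140)]), ((nat_lit 1, nat_lit 2, true), [.negSucc (nat_lit 1200878), .ofNat (nat_lit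
 2695717), .negSucc (nat_lit 481268), .ofNat (nat_lit 1541278), .negSucc (nat_lit 1286400), .ofNat
 (nat_lit 1319789), .negSucc (nat_lit 698981), .ofNat (nat_lit 207471), .ofNat (nat_lit 523557),
 .negSucc (nat_lit 2575266), .ofNat (nat_lit 256420), .negSucc (nat_lit 205647), .ofNat (nat_lit
 952067), .ofNat (nat_lit 819657), .negSucc (nat_lit 829306), .negSucc (nat_lit 587277), .ofNat
 (nat_lit 338947), .ofNat (nat_lit 498582), .negSucc (nat_lit 1003222), .ofNat (nat_lit 400265),
 .negSucc (nat_lit 278521), .ofNat (nat_lit 31142), .ofNat (nat_lit 699027), .negSucc (nat_lit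
 24178), .negSucc (nat_lit 189639), .negSucc (nat_lit 335270), .negSucc (nat_lit 149992), .negSucc
 (nat_lit 562328), .ofNat (nat_lit 6927961), .ofNat (nat_lit 5081067)]), ((nat_lit 1, nat_lit 3,
 true), [.ofNat (nat_lit 1311465), .negSucc (nat_lit 592096), .ofNat (nat_lit 2111973), .ofNat
 (nat_lit 23592), .negSucc (nat_lit 1003892), .ofNat (nat_lit 36778), .negSucc (nat_lit 988245),
 .negSucc (nat_lit 322863), .negSucc (nat_lit 986451), .ofNat (nat_lit 542093), .negSucc (nat_lit
 1032218), .negSucc (nat_lit 6996), .ofNat (nat_lit 374586), .negSucc (nat_lit 338027), .ofNat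
 (nat_lit 588187), .ofNat (nat_lit 284924), .ofNat (nat_lit 249892), .negSucc (nat_lit 674956),
 .negSucc (nat_lit 526003), .negSucc (nat_lit 422352), .ofNat (nat_lit 476357), .negSucc (nat_lit
 111535), .ofNat (nat_lit 596341), .ofNat (nat_lit 182883), .negSucc (nat_lit 24102), .ofNat
 (nat_lit 197552), .negSucc (nat_lit 328831), .negSucc (nat_lit 147117), .ofNat (nat_lit 2296663),
 .negSucc (nat_lit 3713114), .ofNat (nat_lit 5203280)]), ((nat_lit 1, nat_lit 4, true), [.negSucc
 (nat_lit 1777468), .ofNat (nat_lit 2533426), .negSucc (nat_lit 447913), .ofNat (nat_lit 1825381),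
 .negSucc (nat_lit 228400), .ofNat (nat_lit 491844), .negSucc (nat_lit 847590), .negSucc (nat_lit
 121471), .ofNat (nat_lit 408560), .negSucc (nat_lit 896626), .ofNat (nat_lit 17896), .negSucc
 (nat_lit 878852), .ofNat (nat_lit 586195), .ofNat (nat_lit 354483), .ofNat (nat_lit 69454),
 .negSucc (nat_lit 1057476), .ofNat (nat_lit 844276), .negSucc (nat_lit 463714), .negSucc (nat_lit
 792969), .negSucc (nat_lit 1440185), .negSucc (nat_lit 128053), .ofNat (nat_lit 79271), .ofNat
 (nat_lit 437772), .ofNat (nat_lit 10596), .ofNat (nat_lit 152749), .negSucc (nat_lit 228014),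
 .ofNat (nat_lit 11087), .negSucc (nat_lit 262720), .ofNat (nat_lit 2461567), .ofNat (nat_lit
 6334887), .ofNat (nat_lit 1782119), .ofNat (nat_lit 2508565)]), ((nat_lit 2, nat_lit 1, true),
 [.negSucc (nat_lit 77379), .ofNat (nat_lit 1062844), .negSucc (nat_lit 416055), .negSucc (nat_lit
 398664), .negSucc (nat_lit 901145), .ofNat (nat_lit 2275899), .negSucc (nat_lit 233174), .negSucc
 (nat_lit 658898), .negSucc (nat_lit 839527), .negSucc (nat_lit 909552), .ofNat (nat_lit 782047),
 .ofNat (nat_lit 565650), .negSucc (nat_lit 15958), .ofNat (nat_lit 774848), .negSucc (nat_lit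
 32731), .negSucc (nat_lit 375619), .ofNat (nat_lit 975484), .ofNat (nat_lit 60545), .ofNat
 (nat_lit 38744), .ofNat (nat_lit 90002), .negSucc (nat_lit 681905), .negSucc (nat_lit 168492),
 .ofNat (nat_lit 958993), .negSucc (nat_lit 98211), .negSucc (nat_lit 197836), .negSucc (nat_lit
 280423), .negSucc (nat_lit 141015), .negSucc (nat_lit 719734), .ofNat (nat_lit 6927961), .negSucc
 (nat_lit 229888), .ofNat (nat_lit 281063), .negSucc (nat_lit 89336), .ofNat (nat_lit 5067289)]),
 ((nat_lit 2, nat_lit 2, true), [.negSucc (nat_lit 1795721), .ofNat (nat_lit 4126624), .negSucc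
 (nat_lit 1703963), .negSucc (nat_lit 898517), .ofNat (nat_lit 620375), .ofNat (nat_lit 4066226),
 .negSucc (nat_lit 1898099), .negSucc (nat_lit 439965), .negSucc (nat_lit 651368), .negSucc
 (nat_lit 3117592), .ofNat (nat_lit 1094683), .ofNat (nat_lit 1551106), .ofNat (nat_lit 967181),
 .negSucc (nat_lit 724283), .ofNat (nat_lit 141887), .negSucc (nat_lit 220193), .ofNat (nat_lit
 1833510), .negSucc (nat_lit 652882), .ofNat (nat_lit 107715), .negSucc (nat_lit 167151), .negSucc
 (nat_lit 1137542), .negSucc (nat_lit 389507), .ofNat (nat_lit 1399182), .negSucc (nat_lit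
 287057), .negSucc (nat_lit 129972), .negSucc (nat_lit 837910), .negSucc (nat_lit 4844), .negSucc
 (nat_lit 1297179), .ofNat (nat_lit 8722961), .ofNat (nat_lit 8867592), .ofNat (nat_lit 1958309),
 .ofNat (nat_lit 434070), .ofNat (nat_lit 9193034), .ofNat (nat_lit 6099142)]), ((nat_lit 2,
 nat_lit 3, true), [.ofNat (nat_lit 1765183), .negSucc (nat_lit 1285911), .ofNat (nat_lit
 3843284), .negSucc (nat_lit 235507), .negSucc (nat_lit 1268740), .negSucc (nat_lit 782713),
 .negSucc (nat_lit 656475), .negSucc (nat_lit 899130), .negSucc (nat_lit 2820489), .ofNat (nat_lit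
 2984498), .negSucc (nat_lit 2416336), .ofNat (nat_lit 706286), .ofNat (nat_lit 1295053), .negSucc
 (nat_lit 808414), .ofNat (nat_lit 163127), .ofNat (nat_lit 390644), .ofNat (nat_lit 1964254),
 .negSucc (nat_lit 2801645), .ofNat (nat_lit 1152490), .negSucc (nat_lit 2427249), .ofNat (nat_lit
 770263), .ofNat (nat_lit 55897), .ofNat (nat_lit 922731), .ofNat (nat_lit 203114), .ofNat
 (nat_lit 488382), .ofNat (nat_lit 404793), .negSucc (nat_lit 827183), .negSucc (nat_lit 156561),
 .ofNat (nat_lit 4891467), .negSucc (nat_lit 7845317), .ofNat (nat_lit 12630984), .ofNat (nat_lit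
 1558239), .ofNat (nat_lit 3485711), .negSucc (nat_lit 2910075), .ofNat (nat_lit 3994339)]),
 ((nat_lit 2, nat_lit 4, true), [.negSucc (nat_lit 1480261), .ofNat (nat_lit 2787821), .negSucc
 (nat_lit 467557), .ofNat (nat_lit 726980), .ofNat (nat_lit 971455), .ofNat (nat_lit 1564047),
 .negSucc (nat_lit 1897825), .ofNat (nat_lit 391976), .negSucc (nat_lit 525216), .ofNat (nat_lit
 272478), .ofNat (nat_lit 183831), .negSucc (nat_lit 1666008), .ofNat (nat_lit 732460), .negSucc
 (nat_lit 2064956), .ofNat (nat_lit 1198627), .negSucc (nat_lit 1825978), .ofNat (nat_lit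
 1427327), .negSucc (nat_lit 2269374), .negSucc (nat_lit 528471), .negSucc (nat_lit 2414712),
 .ofNat (nat_lit 74790), .negSucc (nat_lit 212336), .ofNat (nat_lit 539865), .negSucc (nat_lit
 117919), .ofNat (nat_lit 625822), .negSucc (nat_lit 324894), .ofNat (nat_lit 113049), .ofNat
 (nat_lit 55376), .negSucc (nat_lit 697047), .ofNat (nat_lit 9942727), .ofNat (nat_lit 6362208),
 .ofNat (nat_lit 5727903), .ofNat (nat_lit 3176395), .ofNat (nat_lit 8151461), .ofNat (nat_lit
 416509), .ofNat (nat_lit 2328810)]), ((nat_lit 3, nat_lit 1, true), [.ofNat (nat_lit 1011532),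
 .negSucc (nat_lit 815537), .ofNat (nat_lit 272404), .ofNat (nat_lit 1215001), .negSucc (nat_lit
 955029), .negSucc (nat_lit 10295), .ofNat (nat_lit 209166), .ofNat (nat_lit 476204), .ofNat
 (nat_lit 1524042), .negSucc (nat_lit 673458), .negSucc (nat_lit 289463), .negSucc (nat_lit
 1381205), .negSucc (nat_lit 279443), .ofNat (nat_lit 117287), .negSucc (nat_lit 1129240), .ofNat
 (nat_lit 541891), .negSucc (nat_lit 1394590), .ofNat (nat_lit 1374301), .negSucc (nat_lit
 839448), .ofNat (nat_lit 2528471), .negSucc (nat_lit 1080156), .ofNat (nat_lit 583284), .negSucc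
 (nat_lit 229354), .ofNat (nat_lit 395432), .negSucc (nat_lit 210419), .ofNat (nat_lit 193424),
 .negSucc (nat_lit 139060), .ofNat (nat_lit 46742), .ofNat (nat_lit 2296663), .ofNat (nat_lit
 455821), .negSucc (nat_lit 1457300), .negSucc (nat_lit 1315105), .negSucc (nat_lit 3644886),
 .ofNat (nat_lit 1664737), .ofNat (nat_lit 516174), .ofNat (nat_lit 642057), .ofNat (nat_lit
 4479412)]), ((nat_lit 3, nat_lit 2, true), [.ofNat (nat_lit 936468), .negSucc (nat_lit 1541837),
 .negSucc (nat_lit 14628), .ofNat (nat_lit 3487241), .negSucc (nat_lit 1310286), .negSucc (nat_lit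
 937306), .ofNat (nat_lit 790584), .ofNat (nat_lit 795929), .ofNat (nat_lit 3105357), .ofNat
 (nat_lit 123902), .negSucc (nat_lit 1266314), .negSucc (nat_lit 2463662), .negSucc (nat_lit
 1060018), .ofNat (nat_lit 1008256), .negSucc (nat_lit 2661824), .ofNat (nat_lit 778448), .negSucc
 (nat_lit 2200149), .ofNat (nat_lit 2816459), .negSucc (nat_lit 1062449), .ofNat (nat_lit
 5595771), .negSucc (nat_lit 1406526), .negSucc (nat_lit 337475), .negSucc (nat_lit 462668),
 .ofNat (nat_lit 1202676), .negSucc (nat_lit 20759), .ofNat (nat_lit 101387), .ofNat (nat_lit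
 3508), .ofNat (nat_lit 341253), .ofNat (nat_lit 4891467), .ofNat (nat_lit 4502510), .negSucc
 (nat_lit 4382211), .negSucc (nat_lit 1752766), .negSucc (nat_lit 7450220), .ofNat (nat_lit
 1318910), .ofNat (nat_lit 2434666), .ofNat (nat_lit 863361), .ofNat (nat_lit 11820218), .ofNat
 (nat_lit 3729334)]), ((nat_lit 3, nat_lit 3, true), [.ofNat (nat_lit 1589238), .negSucc (nat_lit
 1002833), .ofNat (nat_lit 1459715), .ofNat (nat_lit 1522279), .negSucc (nat_lit 1044051), .ofNat
 (nat_lit 840818), .negSucc (nat_lit 1528393), .negSucc (nat_lit 155768), .ofNat (nat_lit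
 1553586), .negSucc (nat_lit 2692045), .ofNat (nat_lit 1651169), .negSucc (nat_lit 1241684),
 .negSucc (nat_lit 424434), .ofNat (nat_lit 484459), .ofNat (nat_lit 765782), .ofNat (nat_lit
 487888), .ofNat (nat_lit 271844), .negSucc (nat_lit 479181), .negSucc (nat_lit 1957899), .ofNat
 (nat_lit 3145481), .ofNat (nat_lit 409551), .ofNat (nat_lit 473176), .negSucc (nat_lit 2118396),
 .ofNat (nat_lit 713586), .negSucc (nat_lit 759502), .ofNat (nat_lit 92776), .negSucc (nat_lit
 954979), .negSucc (nat_lit 905009), .ofNat (nat_lit 1719971), .negSucc (nat_lit 2691869), .ofNat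
 (nat_lit 2529505), .negSucc (nat_lit 3981127), .negSucc (nat_lit 3031800), .ofNat (nat_lit
 1955486), .negSucc (nat_lit 2545013), .ofNat (nat_lit 3230401), .ofNat (nat_lit 1734208),
 .negSucc (nat_lit 1498988), .ofNat (nat_lit 3591852)]), ((nat_lit 3, nat_lit 4, true), [.negSucc
 (nat_lit 325839), .negSucc (nat_lit 832910), .negSucc (nat_lit 51822), .ofNat (nat_lit 2729937),
 .negSucc (nat_lit 287237), .negSucc (nat_lit 1117198), .ofNat (nat_lit 569996), .negSucc (nat_lit
 89935), .ofNat (nat_lit 1766225), .ofNat (nat_lit 1008753), .negSucc (nat_lit 878519), .negSucc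
 (nat_lit 564197), .negSucc (nat_lit 862520), .ofNat (nat_lit 1083133), .negSucc (nat_lit
 1637817), .ofNat (nat_lit 699074), .negSucc (nat_lit 781621), .ofNat (nat_lit 1602695), .negSucc
 (nat_lit 16312), .ofNat (nat_lit 3040152), .negSucc (nat_lit 481), .negSucc (nat_lit 1041879),
 .negSucc (nat_lit 964471), .negSucc (nat_lit 178813), .ofNat (nat_lit 151211), .negSucc (nat_lit
 96583), .ofNat (nat_lit 157732), .ofNat (nat_lit 92783), .ofNat (nat_lit 2841308), .ofNat
 (nat_lit 4670177), .negSucc (nat_lit 2623766), .negSucc (nat_lit 1061983), .negSucc (nat_lit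
 4047794), .negSucc (nat_lit 764043), .ofNat (nat_lit 2357499), .negSucc (nat_lit 646105), .ofNat
 (nat_lit 8421198), .ofNat (nat_lit 4556636), .ofNat (nat_lit 1291445), .ofNat (nat_lit 945049)]),
 ((nat_lit 4, nat_lit 1, true), [.ofNat (nat_lit 175988), .negSucc (nat_lit 18345), .negSucc
 (nat_lit 818223), .negSucc (nat_lit 1317076), .ofNat (nat_lit 885805), .ofNat (nat_lit 934384),
 .ofNat (nat_lit 238427), .negSucc (nat_lit 1371828), .negSucc (nat_lit 891383), .ofNat (nat_lit
 664246), .ofNat (nat_lit 674928), .ofNat (nat_lit 959943), .negSucc (nat_lit 144782), .ofNat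
 (nat_lit 309019), .ofNat (nat_lit 307525), .ofNat (nat_lit 889706), .ofNat (nat_lit 768624),
 .negSucc (nat_lit 128664), .ofNat (nat_lit 1171465), .negSucc (nat_lit 222672), .negSucc (nat_lit
 894327), .negSucc (nat_lit 179462), .negSucc (nat_lit 78364), .ofNat (nat_lit 744490), .negSucc
 (nat_lit 1090204), .ofNat (nat_lit 387569), .ofNat (nat_lit 460711), .ofNat (nat_lit 519797),
 .ofNat (nat_lit 2461567), .negSucc (nat_lit 232143), .negSucc (nat_lit 743860), .ofNat (nat_lit
 510101), .ofNat (nat_lit 6391832), .ofNat (nat_lit 866931), .ofNat (nat_lit 835854), .negSucc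
 (nat_lit 781849), .ofNat (nat_lit 1644895), .ofNat (nat_lit 287814), .ofNat (nat_lit 186821),
 .negSucc (nat_lit 612262), .ofNat (nat_lit 1617683)]), ((nat_lit 4, nat_lit 2, true), [.ofNat
 (nat_lit 1361990), .negSucc (nat_lit 372485), .negSucc (nat_lit 875081), .negSucc (nat_lit
 3641394), .ofNat (nat_lit 3045282), .ofNat (nat_lit 816605), .negSucc (nat_lit 384702), .negSucc
 (nat_lit 1857822), .negSucc (nat_lit 1680686), .ofNat (nat_lit 1272359), .ofNat (nat_lit 848684),
 .ofNat (nat_lit 2116287), .ofNat (nat_lit 595448), .negSucc (nat_lit 1837162), .ofNat (nat_lit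
 616363), .ofNat (nat_lit 3324052), .ofNat (nat_lit 97997), .negSucc (nat_lit 557978), .ofNat
 (nat_lit 2418782), .ofNat (nat_lit 172961), .negSucc (nat_lit 877466), .negSucc (nat_lit 432699),
 .negSucc (nat_lit 1489863), .ofNat (nat_lit 1121004), .negSucc (nat_lit 2115989), .negSucc
 (nat_lit 57687), .ofNat (nat_lit 1188788), .ofNat (nat_lit 2234490), .negSucc (nat_lit 697047),
 .ofNat (nat_lit 2969152), .ofNat (nat_lit 471839), .ofNat (nat_lit 848317), .ofNat (nat_lit
 10093248), .ofNat (nat_lit 10103406), .ofNat (nat_lit 1799966), .negSucc (nat_lit 1061092),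
 .ofNat (nat_lit 3651622), .ofNat (nat_lit 1535144), .ofNat (nat_lit 1195814), .negSucc (nat_lit
 761927), .ofNat (nat_lit 4052027), .ofNat (nat_lit 1442283)]), ((nat_lit 4, nat_lit 3, true),
 [.ofNat (nat_lit 287128), .negSucc (nat_lit 1081987), .ofNat (nat_lit 1613271), .negSucc (nat_lit
 50409), .negSucc (nat_lit 113150), .negSucc (nat_lit 835192), .ofNat (nat_lit 416461), .negSucc
 (nat_lit 329723), .negSucc (nat_lit 1857959), .ofNat (nat_lit 2950675), .negSucc (nat_lit
 1454455), .ofNat (nat_lit 611142), .ofNat (nat_lit 1033355), .negSucc (nat_lit 974198), .negSucc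
 (nat_lit 350316), .negSucc (nat_lit 129946), .ofNat (nat_lit 2165912), .negSucc (nat_lit
 2536908), .ofNat (nat_lit 2003708), .negSucc (nat_lit 1695232), .ofNat (nat_lit 610355), .negSucc
 (nat_lit 255031), .ofNat (nat_lit 39241), .ofNat (nat_lit 381479), .ofNat (nat_lit 560910),
 .ofNat (nat_lit 1302456), .negSucc (nat_lit 1615939), .ofNat (nat_lit 350503), .ofNat (nat_lit
 2841308), .negSucc (nat_lit 4374579), .ofNat (nat_lit 8285457), .ofNat (nat_lit 1610175), .ofNat
 (nat_lit 4053238), .negSucc (nat_lit 3517115), .ofNat (nat_lit 4858280), .ofNat (nat_lit 851112),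
 .ofNat (nat_lit 617797), .negSucc (nat_lit 28374), .ofNat (nat_lit 408341), .negSucc (nat_lit
 100457), .negSucc (nat_lit 512004), .negSucc (nat_lit 1494884), .ofNat (nat_lit 667795)]),
 ((nat_lit 4, nat_lit 4, true), [.ofNat (nat_lit 1851795), .negSucc (nat_lit 1014478), .ofNat
 (nat_lit 542798), .negSucc (nat_lit 1765469), .ofNat (nat_lit 1633510), .negSucc (nat_lit
 239010), .negSucc (nat_lit 628573), .negSucc (nat_lit 21427), .negSucc (nat_lit 1266237), .ofNat
 (nat_lit 2059329), .ofNat (nat_lit 164954), .negSucc (nat_lit 539766), .ofNat (nat_lit 580759),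
 .negSucc (nat_lit 2618903), .ofNat (nat_lit 807224), .ofNat (nat_lit 1102560), .negSucc (nat_lit
 455279), .negSucc (nat_lit 1491333), .ofNat (nat_lit 892908), .negSucc (nat_lit 163799), .ofNat
 (nat_lit 507858), .negSucc (nat_lit 281624), .negSucc (nat_lit 1368564), .ofNat (nat_lit 424214),
 .negSucc (nat_lit 737270), .negSucc (nat_lit 316697), .ofNat (nat_lit 555640), .ofNat (nat_lit
 2122148), .negSucc (nat_lit 4851164), .ofNat (nat_lit 2782280), .ofNat (nat_lit 4095629), .ofNat
 (nat_lit 3119863), .ofNat (nat_lit 2743904), .ofNat (nat_lit 11294154), .ofNat (nat_lit 1386623),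
 .ofNat (nat_lit 2047164), .ofNat (nat_lit 1998558), .ofNat (nat_lit 1252416), .ofNat (nat_lit
 995316), .negSucc (nat_lit 82029), .ofNat (nat_lit 2521759), .ofNat (nat_lit 1425438), .ofNat
 (nat_lit 50515), .ofNat (nat_lit 151526)])]

/-- the commands -/
noncomputable def C11 : List Cmd := [.a (nat_lit 3) (nat_lit 25) B11_0]

theorem c_ok11 : okL 6 ES C11 = true := by decide +kernel

theorem t_ok11 : eqT (run (.ofNat (nat_lit 28)) (.ofNat (nat_lit 25)) XT DD C11 U10) U11 = true := by decide +kernel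

end Pool.Agent.H58.BJ.D6
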