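import Pool.Agent.H58.BJ.D6.D

/-! # Certificate data (6 jets, exponent 28/25) -/

set_option autoImplicit false

namespace Pool.Agent.H58.BJ.D6

open Pool.Agent.H58.BJ

/-- result of the first 12 groups -/
noncomputable def U12 : Tr := (.nd (.nd (.nd (.nd (.nd (.nd (.nd .e (.nd (.nd (.nd (.nd (.nd (.nd
 (.nd (.nd .e (.nd (.lf (.ofNat (nat_lit 2080858892060975))) .e)) (.nd (.nd (.lf (.ofNat (nat_lit
 5549669996397312))) .e) .e)) (.nd (.nd (.nd (.lf (.negSucc (nat_lit 5921409863149653))) .e) .e)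
 (.nd (.nd (.lf (.negSucc (nat_lit 99054709888383999))) .e) .e))) (.nd (.nd (.nd (.nd (.lf
 (.negSucc (nat_lit 14025473567849495))) .e) .e) (.nd (.nd (.lf (.negSucc (nat_lit
 37914986215418099))) .e) .e)) (.nd (.nd (.nd (.lf (.negSucc (nat_lit 308724053664173719))) .e)
 .e) .e))) (.nd (.nd (.nd (.nd (.nd (.lf (.negSucc (nat_lit 6437326930579615))) .e) .e) (.nd (.nd
 (.lf (.negSucc (nat_lit 268998190309052399))) .e) .e)) (.nd (.nd (.nd (.lf (.negSucc (nat_lit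
 72515283490164797))) .e) .e) .e)) (.nd (.nd (.nd (.nd (.lf (.negSucc (nat_lit
 191031806661064935))) .e) .e) .e) (.nd (.nd (.nd (.lf (.ofNat (nat_lit 19188813700940400))) .e)
 .e) .e)))) (.nd (.nd (.nd (.nd (.nd (.nd (.lf (.negSucc (nat_lit 374425319739031))) .e) .e) .e)
 (.nd (.nd (.nd (.lf (.negSucc (nat_lit 22350004225803573))) .e) .e) .e)) (.nd (.nd (.nd (.nd (.lf
 (.negSucc (nat_lit 26238087324030155))) .e) .e) .e) .e)) (.nd (.nd (.nd (.nd (.nd (.lf (.negSucc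
 (nat_lit 8081081161612781))) .e) .e) .e) (.nd (.nd (.nd (.lf (.negSucc (nat_lit
 12430215730108699))) .e) .e) .e)) (.nd (.nd (.nd (.nd (.lf (.ofNat (nat_lit 25386481952184020)))
 .e) .e) .e) (.nd (.nd (.nd (.lf (.negSucc (nat_lit 12345933063495049))) .e) .e) .e))))) (.nd (.nd
 (.nd (.nd (.nd (.nd (.nd (.lf (.ofNat (nat_lit 39817808076060))) .e) .e) .e) .e) (.nd (.nd (.nd
 (.nd (.lf (.negSucc (nat_lit 15872592928336255))) .e) .e) .e) (.nd (.nd (.nd (.lf (.negSucc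
 (nat_lit 12644578370765899))) .e) .e) .e))) (.nd (.nd (.nd (.nd (.nd (.lf (.negSucc (nat_lit
 862380639141445))) .e) .e) .e) (.nd (.nd (.nd (.lf (.ofNat (nat_lit 17759971707575700))) .e) .e)
 .e)) (.nd (.nd (.nd (.nd (.lf (.ofNat (nat_lit 734446159137600))) .e) .e) .e) .e))) (.nd (.nd
 (.nd (.nd (.nd (.nd (.lf (.negSucc (nat_lit 2063545393095357))) .e) .e) .e) .e) (.nd (.nd (.nd
 (.nd (.lf (.negSucc (nat_lit 9635364834428139))) .e) .e) .e) (.nd (.nd (.nd (.lf (.negSucc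
 (nat_lit 22558531190143099))) .e) .e) .e))) (.nd (.nd (.nd (.nd (.nd (.lf (.ofNat (nat_lit
 14562635428047320))) .e) .e) .e) .e) (.nd (.nd (.nd (.nd (.lf (.ofNat (nat_lit
 10405467279647074))) .e) .e) .e) .e))))) .e)) (.nd (.nd (.nd (.nd (.nd (.nd (.nd (.nd .e (.nd
 (.nd (.lf (.negSucc (nat_lit 190881057233243739))) .e) .e)) (.nd (.nd (.nd (.lf (.negSucc
 (nat_lit 275873190889457201))) .e) .e) .e)) (.nd (.nd (.nd (.nd (.lf (.negSucc (nat_lit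
 213248873491173933))) .e) .e) .e) (.nd (.nd (.nd (.lf (.negSucc (nat_lit 1179798942582693231)))
 .e) .e) .e))) (.nd (.nd (.nd (.nd (.nd (.lf (.negSucc (nat_lit 24099182364711699))) .e) .e) .e)
 (.nd (.nd (.nd (.lf (.negSucc (nat_lit 413086790454934941))) .e) .e) .e)) (.nd (.nd (.nd (.nd
 (.lf (.negSucc (nat_lit 853341063283664565))) .e) .e) .e) (.nd (.nd (.nd (.lf (.ofNat (nat_lit
 21975216885070600))) .e) .e) .e)))) (.nd (.nd (.nd (.nd (.nd (.nd (.lf (.negSucc (nat_lit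
 5953335330437161))) .e) .e) .e) (.nd (.nd (.nd (.lf (.negSucc (nat_lit 29238196236097583))) .e)
 .e) .e)) (.nd (.nd (.nd (.nd (.lf (.negSucc (nat_lit 362947302763501633))) .e) .e) .e) .e)) (.nd
 (.nd (.nd (.nd (.nd (.lf (.negSucc (nat_lit 192814355083885917))) .e) .e) .e) (.nd (.nd (.nd (.lf
 (.negSucc (nat_lit 13006926236475359))) .e) .e) .e)) (.nd (.nd (.nd (.nd (.lf (.ofNat (nat_lit
 28829880240916090))) .e) .e) .e) (.nd (.nd (.nd (.lf (.negSucc (nat_lit 202215775537332461))) .e)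
 .e) .e))))) (.nd (.nd (.nd (.nd (.nd (.nd (.nd (.lf (.negSucc (nat_lit 226289228852719))) .e) .e)
 .e) .e) (.nd (.nd (.nd (.nd (.lf (.negSucc (nat_lit 50860092312944303))) .e) .e) .e) (.nd (.nd
 (.nd (.lf (.negSucc (nat_lit 12884125369754515))) .e) .e) .e))) (.nd (.nd (.nd (.nd (.nd (.lf
 (.negSucc (nat_lit 69270246361625697))) .e) .e) .e) (.nd (.nd (.nd (.lf (.ofNat (nat_lit
 17094025864210280))) .e) .e) .e)) (.nd (.nd (.nd (.nd (.lf (.ofNat (nat_lit 773583117494880)))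
 .e) .e) .e) .e))) (.nd (.nd (.nd (.nd (.nd (.nd (.lf (.negSucc (nat_lit 10096871176614433))) .e)
 .e) .e) .e) (.nd (.nd (.nd (.nd (.lf (.negSucc (nat_lit 10037674593364499))) .e) .e) .e) (.nd
 (.nd (.nd (.lf (.negSucc (nat_lit 18805319033296593))) .e) .e) .e))) (.nd (.nd (.nd (.nd (.nd
 (.lf (.ofNat (nat_lit 15550154445693980))) .e) .e) .e) .e) (.nd (.nd (.nd (.nd (.lf (.negSucc
 (nat_lit 43027791686531257))) .e) .e) .e) .e))))) .e) .e)) (.nd (.nd (.nd (.nd (.nd (.nd (.nd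
 (.nd .e (.nd (.nd (.nd (.lf (.negSucc (nat_lit 449067807715845875))) .e) .e) .e)) (.nd (.nd (.nd
 (.nd (.lf (.negSucc (nat_lit 567860341444457313))) .e) .e) .e) .e)) (.nd (.nd (.nd (.nd (.nd (.lf
 (.ofNat (nat_lit 147721510210458238))) .e) .e) .e) .e) (.nd (.nd (.nd (.nd (.lf (.negSucc
 (nat_lit 2313619881525089385))) .e) .e) .e) .e))) (.nd (.nd (.nd (.nd (.nd (.nd (.lf (.negSucc
 (nat_lit 11563329301068401))) .e) .e) .e) .e) (.nd (.nd (.nd (.nd (.lf (.negSucc (nat_lit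
 650092022973013939))) .e) .e) .e) .e)) (.nd (.nd (.nd (.nd (.nd (.lf (.negSucc (nat_lit
 1431471723243636075))) .e) .e) .e) .e) (.nd (.nd (.nd (.nd (.lf (.negSucc (nat_lit
 44927385274603669))) .e) .e) .e) .e)))) (.nd (.nd (.nd (.nd (.nd (.nd (.nd (.lf (.ofNat (nat_lit
 2283441399136136))) .e) .e) .e) .e) (.nd (.nd (.nd (.nd (.lf (.negSucc (nat_lit
 124358964316109489))) .e) .e) .e) .e)) (.nd (.nd (.nd (.nd (.nd (.lf (.negSucc (nat_lit
 245480066849841757))) .e) .e) .e) .e) (.nd (.nd (.nd (.nd (.lf (.negSucc (nat_lit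
 1380170850101903))) .e) .e) .e) .e))) (.nd (.nd (.nd (.nd (.nd (.nd (.lf (.negSucc (nat_lit
 196667172472360157))) .e) .e) .e) .e) (.nd (.nd (.nd (.nd (.lf (.ofNat (nat_lit
 18686691635769060))) .e) .e) .e) .e)) (.nd (.nd (.nd (.nd (.nd (.lf (.negSucc (nat_lit
 26926717614497549))) .e) .e) .e) .e) (.nd (.nd (.nd (.nd (.lf (.negSucc (nat_lit
 12867100614431823))) .e) .e) .e) .e))))) .e) .e) (.nd (.nd (.nd (.nd (.nd (.nd (.nd (.nd .e (.nd
 (.nd (.lf (.negSucc (nat_lit 182527699971722855))) .e) .e)) (.nd (.nd (.nd (.lf (.negSucc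
 (nat_lit 91967729187431813))) .e) .e) (.nd (.nd (.lf (.negSucc (nat_lit 1073216447540883124)))
 .e) .e))) (.nd (.nd (.nd (.nd (.lf (.ofNat (nat_lit 22208947833888716))) .e) .e) (.nd (.nd (.lf
 (.negSucc (nat_lit 2708906263593157799))) .e) .e)) (.nd (.nd (.nd (.lf (.negSucc (nat_lit
 2614933507187925505))) .e) .e) .e))) (.nd (.nd (.nd (.nd (.nd (.lf (.ofNat (nat_lit
 2472101557914582))) .e) .e) (.nd (.nd (.lf (.negSucc (nat_lit 2278033852112401099))) .e) .e))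
 (.nd (.nd (.nd (.lf (.negSucc (nat_lit 2976988859210293309))) .e) .e) .e)) (.nd (.nd (.nd (.nd
 (.lf (.negSucc (nat_lit 1716748317422640325))) .e) .e) .e) (.nd (.nd (.nd (.lf (.negSucc (nat_lit
 827005168317683349))) .e) .e) .e)))) (.nd (.nd (.nd (.nd (.nd (.nd (.lf (.negSucc (nat_lit
 217888605428999))) .e) .e) .e) (.nd (.nd (.nd (.lf (.negSucc (nat_lit 1026381374424166709))) .e)
 .e) .e)) (.nd (.nd (.nd (.nd (.lf (.negSucc (nat_lit 780810952907380067))) .e) .e) .e) .e)) (.nd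
 (.nd (.nd (.nd (.nd (.lf (.negSucc (nat_lit 195676214710863681))) .e) .e) .e) (.nd (.nd (.nd (.lf
 (.ofNat (nat_lit 27044471816090600))) .e) .e) .e)) (.nd (.nd (.nd (.nd (.lf (.negSucc (nat_lit
 779568043594229319))) .e) .e) .e) (.nd (.nd (.nd (.lf (.negSucc (nat_lit 87777996670349099))) .e)
 .e) .e))))) (.nd (.nd (.nd (.nd (.nd (.nd (.nd (.lf (.ofNat (nat_lit 277926788403600))) .e) .e)
 .e) .e) (.nd (.nd (.nd (.nd (.lf (.negSucc (nat_lit 273934724279978583))) .e) .e) .e) (.nd (.nd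
 (.nd (.lf (.negSucc (nat_lit 75916785344003849))) .e) .e) .e))) (.nd (.nd (.nd (.nd (.nd (.lf
 (.ofNat (nat_lit 16115100917277868))) .e) .e) .e) (.nd (.nd (.nd (.lf (.ofNat (nat_lit
 224348660088249250))) .e) .e) .e)) (.nd (.nd (.nd (.nd (.lf (.negSucc (nat_lit
 1300765913596799))) .e) .e) .e) .e))) (.nd (.nd (.nd (.nd (.nd (.nd (.lf (.negSucc (nat_lit
 44463488566233709))) .e) .e) .e) .e) (.nd (.nd (.nd (.nd (.lf (.ofNat (nat_lit
 20894548278595700))) .e) .e) .e) (.nd (.nd (.nd (.lf (.ofNat (nat_lit 54680626607280750))) .e)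
 .e) .e))) (.nd (.nd (.nd (.nd (.nd (.lf (.negSucc (nat_lit 103764914072482899))) .e) .e) .e) .e)
 (.nd (.nd (.nd (.nd (.lf (.negSucc (nat_lit 108246153562615213))) .e) .e) .e) .e))))) .e) .e)))
 (.nd (.nd (.nd (.nd (.nd (.nd (.nd (.nd .e (.nd (.nd (.nd (.nd (.lf (.negSucc (nat_lit
 661066769175293171))) .e) .e) .e) .e)) (.nd (.nd (.nd (.nd (.nd (.lf (.negSucc (nat_lit
 186953188301023691))) .e) .e) .e) .e) .e)) (.nd (.nd (.nd (.nd (.nd (.nd (.lf (.negSucc (nat_lit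
 108049254887023671))) .e) .e) .e) .e) .e) (.nd (.nd (.nd (.nd (.nd (.lf (.negSucc (nat_lit
 1935937462827266567))) .e) .e) .e) .e) .e))) (.nd (.nd (.nd (.nd (.nd (.nd (.nd (.lf (.ofNat
 (nat_lit 17582195012310994))) .e) .e) .e) .e) .e) (.nd (.nd (.nd (.nd (.nd (.lf (.negSucc
 (nat_lit 282124575208249075))) .e) .e) .e) .e) .e)) (.nd (.nd (.nd (.nd (.nd (.nd (.lf (.negSucc
 (nat_lit 354227665798543003))) .e) .e) .e) .e) .e) (.nd (.nd (.nd (.nd (.nd (.lf (.negSucc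
 (nat_lit 39689646342460879))) .e) .e) .e) .e) .e)))) .e) .e) (.nd (.nd (.nd (.nd (.nd (.nd (.nd
 (.nd .e (.nd (.nd (.lf (.negSucc (nat_lit 66319975148962019))) .e) .e)) (.nd (.nd (.nd (.lf
 (.negSucc (nat_lit 16573017701950107))) .e) .e) .e)) (.nd (.nd (.nd (.nd (.lf (.ofNat (nat_lit
 10269085266795398))) .e) .e) (.nd (.nd (.lf (.negSucc (nat_lit 5711263637336421624))) .e) .e))
 (.nd (.nd (.nd (.lf (.negSucc (nat_lit 2099024378278969807))) .e) .e) .e))) (.nd (.nd (.nd (.nd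
 (.nd (.lf (.negSucc (nat_lit 3948764903041585))) .e) .e) (.nd (.nd (.lf (.negSucc (nat_lit
 5528452191185114149))) .e) .e)) (.nd (.nd (.nd (.lf (.negSucc (nat_lit 6723145677341795739))) .e)
 .e) .e)) (.nd (.nd (.nd (.nd (.lf (.negSucc (nat_lit 737106911385759235))) .e) .e) .e) (.nd (.nd
 (.nd (.lf (.negSucc (nat_lit 11456576151102546899))) .e) .e) .e)))) (.nd (.nd (.nd (.nd (.nd (.nd
 (.lf (.negSucc (nat_lit 5393017456536403))) .e) .e) .e) (.nd (.nd (.nd (.lf (.negSucc (nat_lit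
 2709714084565489827))) .e) .e) .e)) (.nd (.nd (.nd (.nd (.lf (.negSucc (nat_lit
 741353894076227423))) .e) .e) .e) .e)) (.nd (.nd (.nd (.nd (.nd (.lf (.negSucc (nat_lit
 37430796253523143))) .e) .e) .e) (.nd (.nd (.nd (.lf (.negSucc (nat_lit 2481285999627007899)))
 .e) .e) .e)) (.nd (.nd (.nd (.nd (.lf (.negSucc (nat_lit 8468823752488093459))) .e) .e) .e) (.nd
 (.nd (.nd (.lf (.negSucc (nat_lit 5605508934038026249))) .e) .e) .e))))) (.nd (.nd (.nd (.nd (.nd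
 (.nd (.nd (.lf (.negSucc (nat_lit 1022232887594427))) .e) .e) .e) .e) (.nd (.nd (.nd (.nd (.lf
 (.negSucc (nat_lit 166789101894790369))) .e) .e) .e) (.nd (.nd (.nd (.lf (.negSucc (nat_lit
 90532030298842299))) .e) .e) .e))) (.nd (.nd (.nd (.nd (.nd (.lf (.negSucc (nat_lit
 9427988875359495))) .e) .e) .e) (.nd (.nd (.nd (.lf (.ofNat (nat_lit 228010686672986050))) .e)
 .e) .e)) (.nd (.nd (.nd (.nd (.lf (.ofNat (nat_lit 440517704793600))) .e) .e) .e) .e))) (.nd (.nd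
 (.nd (.nd (.nd (.nd (.lf (.negSucc (nat_lit 7717403930527629))) .e) .e) .e) .e) (.nd (.nd (.nd
 (.nd (.lf (.negSucc (nat_lit 1484486987144427459))) .e) .e) .e) (.nd (.nd (.nd (.lf (.ofNat
 (nat_lit 138659949700722650))) .e) .e) .e))) (.nd (.nd (.nd (.nd (.nd (.lf (.negSucc (nat_lit
 1254508416547671319))) .e) .e) .e) .e) (.nd (.nd (.nd (.nd (.lf (.negSucc (nat_lit
 3105525886082914089))) .e) .e) .e) .e))))) .e) .e)) (.nd (.nd (.nd (.nd (.nd (.nd (.nd (.nd .e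
 (.nd (.nd (.nd (.lf (.negSucc (nat_lit 1070548179950144521))) .e) .e) .e)) (.nd (.nd (.nd (.nd
 (.lf (.negSucc (nat_lit 464489733928915803))) .e) .e) .e) (.nd (.nd (.nd (.lf (.negSucc (nat_lit
 5479075236710525351))) .e) .e) .e))) (.nd (.nd (.nd (.nd (.nd (.lf (.negSucc (nat_lit
 99442952914643723))) .e) .e) .e) (.nd (.nd (.nd (.lf (.negSucc (nat_lit 9776774949510423599)))
 .e) .e) .e)) (.nd (.nd (.nd (.nd (.lf (.negSucc (nat_lit 6904466748060729675))) .e) .e) .e) .e)))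
 (.nd (.nd (.nd (.nd (.nd (.nd (.lf (.negSucc (nat_lit 21715849685982089))) .e) .e) .e) (.nd (.nd
 (.nd (.lf (.negSucc (nat_lit 3425711381188199917))) .e) .e) .e)) (.nd (.nd (.nd (.nd (.lf
 (.negSucc (nat_lit 6624623114946769865))) .e) .e) .e) .e)) (.nd (.nd (.nd (.nd (.nd (.lf
 (.negSucc (nat_lit 1014715048322343171))) .e) .e) .e) (.nd (.nd (.nd (.lf (.negSucc (nat_lit
 5868720821816883))) .e) .e) .e)) (.nd (.nd (.nd (.nd (.lf (.negSucc (nat_lit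
 2389830684795476449))) .e) .e) .e) .e)))) (.nd (.nd (.nd (.nd (.nd (.nd (.nd (.lf (.negSucc
 (nat_lit 920524899585467))) .e) .e) .e) .e) (.nd (.nd (.nd (.nd (.lf (.negSucc (nat_lit
 1503786363726870899))) .e) .e) .e) .e)) (.nd (.nd (.nd (.nd (.nd (.lf (.negSucc (nat_lit
 1024381292563063671))) .e) .e) .e) (.nd (.nd (.nd (.lf (.ofNat (nat_lit 270593202499465318))) .e)
 .e) .e)) (.nd (.nd (.nd (.nd (.lf (.ofNat (nat_lit 330809327622144))) .e) .e) .e) .e))) (.nd (.nd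
 (.nd (.nd (.nd (.nd (.lf (.negSucc (nat_lit 140939394940378111))) .e) .e) .e) .e) (.nd (.nd (.nd
 (.nd (.lf (.negSucc (nat_lit 4760774083896489))) .e) .e) .e) .e)) (.nd (.nd (.nd (.nd (.nd (.lf
 (.negSucc (nat_lit 1099259508527689829))) .e) .e) .e) .e) (.nd (.nd (.nd (.nd (.lf (.negSucc
 (nat_lit 436763344667562637))) .e) .e) .e) .e))))) .e) .e) .e))) (.nd (.nd (.nd (.nd (.nd (.nd
 (.nd (.nd .e (.nd (.nd (.nd (.nd (.nd (.lf (.ofNat (nat_lit 185427911972188740))) .e) .e) .e) .e)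
 .e)) (.nd (.nd (.nd (.nd (.nd (.nd (.lf (.ofNat (nat_lit 147477292650408004))) .e) .e) .e) .e)
 .e) .e)) (.nd (.nd (.nd (.nd (.nd (.nd (.nd (.lf (.ofNat (nat_lit 181240695282219508))) .e) .e)
 .e) .e) .e) .e) (.nd (.nd (.nd (.nd (.nd (.nd (.lf (.negSucc (nat_lit 580865846928620435))) .e)
 .e) .e) .e) .e) .e))) .e) .e) (.nd (.nd (.nd (.nd (.nd (.nd (.nd (.nd .e (.nd (.nd (.lf (.negSucc
 (nat_lit 346145504045796795))) .e) .e)) (.nd (.nd (.nd (.lf (.negSucc (nat_lit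
 334642339338030795))) .e) .e) .e)) (.nd (.nd (.nd (.nd (.lf (.negSucc (nat_lit
 30095103408703979))) .e) .e) .e) (.nd (.nd (.nd (.lf (.negSucc (nat_lit 2497617546259315541)))
 .e) .e) .e))) (.nd (.nd (.nd (.nd (.nd (.lf (.ofNat (nat_lit 11569498325204724))) .e) .e) (.nd
 (.nd (.lf (.negSucc (nat_lit 2941339514343946849))) .e) .e)) (.nd (.nd (.nd (.lf (.negSucc
 (nat_lit 4754659000493727619))) .e) .e) .e)) (.nd (.nd (.nd (.nd (.lf (.negSucc (nat_lit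
 2278662839926744811))) .e) .e) .e) (.nd (.nd (.nd (.lf (.negSucc (nat_lit 9565228309637297999)))
 .e) .e) .e)))) (.nd (.nd (.nd (.nd (.nd (.nd (.lf (.ofNat (nat_lit 2937915751306232))) .e) .e)
 .e) (.nd (.nd (.nd (.lf (.negSucc (nat_lit 3225295606571255091))) .e) .e) .e)) (.nd (.nd (.nd
 (.nd (.lf (.negSucc (nat_lit 1690100970485896401))) .e) .e) .e) .e)) (.nd (.nd (.nd (.nd (.nd
 (.lf (.negSucc (nat_lit 710988888913227605))) .e) .e) .e) (.nd (.nd (.nd (.lf (.negSucc (nat_lit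
 2450146137966873249))) .e) .e) .e)) (.nd (.nd (.nd (.nd (.lf (.negSucc (nat_lit
 7825026665582162409))) .e) .e) .e) (.nd (.nd (.nd (.lf (.negSucc (nat_lit 7054953834784778699)))
 .e) .e) .e))))) (.nd (.nd (.nd (.nd (.nd (.nd (.nd (.lf (.ofNat (nat_lit 266613536912068))) .e)
 .e) .e) .e) (.nd (.nd (.nd (.nd (.lf (.negSucc (nat_lit 555340645297322059))) .e) .e) .e) (.nd
 (.nd (.nd (.lf (.ofNat (nat_lit 137670428103204000))) .e) .e) .e))) (.nd (.nd (.nd (.nd (.nd (.lf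
 (.negSucc (nat_lit 152260938396189159))) .e) .e) .e) (.nd (.nd (.nd (.lf (.negSucc (nat_lit
 298142955094793049))) .e) .e) .e)) (.nd (.nd (.nd (.nd (.lf (.negSucc (nat_lit
 1727478381484799))) .e) .e) .e) .e))) (.nd (.nd (.nd (.nd (.nd (.nd (.lf (.negSucc (nat_lit
 111777005716840371))) .e) .e) .e) .e) (.nd (.nd (.nd (.nd (.lf (.negSucc (nat_lit
 1457497651358184899))) .e) .e) .e) (.nd (.nd (.nd (.lf (.negSucc (nat_lit 542370273934611999)))
 .e) .e) .e))) (.nd (.nd (.nd (.nd (.nd (.lf (.negSucc (nat_lit 1337610912893374039))) .e) .e) .e)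
 .e) (.nd (.nd (.nd (.nd (.lf (.negSucc (nat_lit 3427652387358485267))) .e) .e) .e) .e))))) .e)
 .e)) (.nd (.nd (.nd (.nd (.nd (.nd (.nd (.nd .e (.nd (.nd (.nd (.lf (.negSucc (nat_lit
 336261976386951239))) .e) .e) .e)) (.nd (.nd (.nd (.nd (.lf (.negSucc (nat_lit
 32211178881521209))) .e) .e) .e) .e)) (.nd (.nd (.nd (.nd (.nd (.lf (.ofNat (nat_lit
 11624938682135510))) .e) .e) .e) (.nd (.nd (.nd (.lf (.negSucc (nat_lit 12212505317073456504)))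
 .e) .e) .e)) (.nd (.nd (.nd (.nd (.lf (.negSucc (nat_lit 4231154797430164741))) .e) .e) .e) .e)))
 (.nd (.nd (.nd (.nd (.nd (.nd (.lf (.ofNat (nat_lit 2374053551670164))) .e) .e) .e) (.nd (.nd
 (.nd (.lf (.negSucc (nat_lit 8886608258794970639))) .e) .e) .e)) (.nd (.nd (.nd (.nd (.lf
 (.negSucc (nat_lit 10730829749700026677))) .e) .e) .e) .e)) (.nd (.nd (.nd (.nd (.nd (.lf
 (.negSucc (nat_lit 481985692937682289))) .e) .e) .e) .e) (.nd (.nd (.nd (.nd (.lf (.negSucc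
 (nat_lit 13125251662385220029))) .e) .e) .e) .e)))) (.nd (.nd (.nd (.nd (.nd (.nd (.nd (.lf
 (.ofNat (nat_lit 451988517746656))) .e) .e) .e) .e) (.nd (.nd (.nd (.nd (.lf (.negSucc (nat_lit
 1960748387019698831))) .e) .e) .e) .e)) (.nd (.nd (.nd (.nd (.nd (.lf (.negSucc (nat_lit
 1416392038788761741))) .e) .e) .e) .e) (.nd (.nd (.nd (.nd (.lf (.negSucc (nat_lit
 2091777194291903))) .e) .e) .e) .e))) (.nd (.nd (.nd (.nd (.nd (.nd (.lf (.negSucc (nat_lit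
 66635434295982089))) .e) .e) .e) .e) (.nd (.nd (.nd (.nd (.lf (.negSucc (nat_lit
 1962236512793587299))) .e) .e) .e) .e)) (.nd (.nd (.nd (.nd (.nd (.lf (.negSucc (nat_lit
 3269745624822988959))) .e) .e) .e) .e) (.nd (.nd (.nd (.nd (.lf (.negSucc (nat_lit
 4014927169393386835))) .e) .e) .e) .e))))) .e) .e) .e)) (.nd (.nd (.nd (.nd (.nd (.nd (.nd (.nd
 .e (.nd (.nd (.nd (.nd (.lf (.negSucc (nat_lit 984939700986190309))) .e) .e) .e) .e)) (.nd (.nd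
 (.nd (.nd (.nd (.lf (.negSucc (nat_lit 77640216066211021))) .e) .e) .e) .e) (.nd (.nd (.nd (.nd
 (.lf (.negSucc (nat_lit 8681878211010945733))) .e) .e) .e) .e))) (.nd (.nd (.nd (.nd (.nd (.nd
 (.lf (.ofNat (nat_lit 30573659686811642))) .e) .e) .e) .e) (.nd (.nd (.nd (.nd (.lf (.negSucc
 (nat_lit 9729292227009144525))) .e) .e) .e) .e)) (.nd (.nd (.nd (.nd (.nd (.lf (.negSucc (nat_lit
 7217910456667876857))) .e) .e) .e) .e) .e))) (.nd (.nd (.nd (.nd (.nd (.nd (.nd (.lf (.ofNat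
 (nat_lit 12692833172239792))) .e) .e) .e) .e) (.nd (.nd (.nd (.nd (.lf (.negSucc (nat_lit
 1900255743653796623))) .e) .e) .e) .e)) (.nd (.nd (.nd (.nd (.nd (.lf (.negSucc (nat_lit
 2382952586104319467))) .e) .e) .e) .e) .e)) (.nd (.nd (.nd (.nd (.nd (.nd (.lf (.negSucc (nat_lit
 1035336247567698849))) .e) .e) .e) .e) (.nd (.nd (.nd (.nd (.lf (.negSucc (nat_lit
 36160354570500189))) .e) .e) .e) .e)) (.nd (.nd (.nd (.nd (.nd (.lf (.negSucc (nat_lit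
 1407443712737636649))) .e) .e) .e) .e) .e)))) .e) .e) .e) (.nd (.nd (.nd (.nd (.nd (.nd (.nd (.nd
 .e (.nd (.nd (.nd (.lf (.negSucc (nat_lit 34343322743059879))) .e) .e) .e)) (.nd (.nd (.nd (.nd
 (.lf (.negSucc (nat_lit 49924320521988079))) .e) .e) .e) (.nd (.nd (.nd (.lf (.negSucc (nat_lit
 724106236715472919))) .e) .e) .e))) (.nd (.nd (.nd (.nd (.nd (.lf (.negSucc (nat_lit
 11470702562345759))) .e) .e) .e) (.nd (.nd (.nd (.lf (.negSucc (nat_lit 5040058489791186869)))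
 .e) .e) .e)) (.nd (.nd (.nd (.nd (.lf (.negSucc (nat_lit 7115689410221539))) .e) .e) .e) (.nd
 (.nd (.nd (.lf (.negSucc (nat_lit 17321803044911011049))) .e) .e) .e)))) (.nd (.nd (.nd (.nd (.nd
 (.nd (.lf (.ofNat (nat_lit 728634548685780))) .e) .e) .e) (.nd (.nd (.nd (.lf (.negSucc (nat_lit
 3212834470863345369))) .e) .e) .e)) (.nd (.nd (.nd (.nd (.lf (.negSucc (nat_lit
 542457907488616669))) .e) .e) .e) .e)) (.nd (.nd (.nd (.nd (.nd (.lf (.ofNat (nat_lit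
 27257028370459490))) .e) .e) .e) (.nd (.nd (.nd (.lf (.negSucc (nat_lit 15737508078393774249)))
 .e) .e) .e)) (.nd (.nd (.nd (.nd (.lf (.negSucc (nat_lit 16423838233930586399))) .e) .e) .e)
 .e)))) (.nd (.nd (.nd (.nd (.nd (.nd (.nd (.lf (.negSucc (nat_lit 258705575396079))) .e) .e) .e)
 .e) (.nd (.nd (.nd (.nd (.lf (.negSucc (nat_lit 35497431386911799))) .e) .e) .e) (.nd (.nd (.nd
 (.lf (.negSucc (nat_lit 1596460568493719999))) .e) .e) .e))) (.nd (.nd (.nd (.nd (.nd (.lf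
 (.negSucc (nat_lit 52000809462209559))) .e) .e) .e) (.nd (.nd (.nd (.lf (.negSucc (nat_lit
 2506957656079044149))) .e) .e) .e)) (.nd (.nd (.nd (.nd (.lf (.negSucc (nat_lit
 1420965878692079999))) .e) .e) .e) .e))) (.nd (.nd (.nd (.nd (.nd (.nd (.lf (.ofNat (nat_lit
 15135343714439000))) .e) .e) .e) .e) (.nd (.nd (.nd (.nd (.lf (.negSucc (nat_lit
 4830109807717630499))) .e) .e) .e) (.nd (.nd (.nd (.lf (.negSucc (nat_lit 200585960308825749)))
 .e) .e) .e))) (.nd (.nd (.nd (.nd (.nd (.lf (.negSucc (nat_lit 1891092082700562499))) .e) .e) .e)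
 .e) (.nd (.nd (.nd (.nd (.lf (.negSucc (nat_lit 5097590710668242719))) .e) .e) .e) .e))))) .e)
 .e) .e)))) (.nd (.nd (.nd (.nd (.nd (.nd (.nd (.nd .e (.nd (.nd (.nd (.nd (.nd (.nd (.lf (.ofNat
 (nat_lit 962712032717029173))) .e) .e) .e) .e) .e) .e)) (.nd (.nd (.nd (.nd (.nd (.nd (.nd (.lf
 (.ofNat (nat_lit 1030892156635983606))) .e) .e) .e) .e) .e) .e) .e)) .e) .e) .e) (.nd (.nd (.nd
 (.nd (.nd (.nd (.nd (.nd .e (.nd (.nd (.nd (.lf (.negSucc (nat_lit 286631798488780425))) .e) .e)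
 .e)) (.nd (.nd (.nd (.nd (.lf (.negSucc (nat_lit 270355015716228019))) .e) .e) .e) .e)) (.nd (.nd
 (.nd (.nd (.nd (.lf (.negSucc (nat_lit 107368305282811479))) .e) .e) .e) .e) (.nd (.nd (.nd (.nd
 (.lf (.negSucc (nat_lit 2966092330849971639))) .e) .e) .e) .e))) (.nd (.nd (.nd (.nd (.nd (.nd
 (.lf (.negSucc (nat_lit 20323025824979317))) .e) .e) .e) (.nd (.nd (.nd (.lf (.negSucc (nat_lit
 3253322160082216447))) .e) .e) .e)) (.nd (.nd (.nd (.nd (.lf (.negSucc (nat_lit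
 5208204977053057933))) .e) .e) .e) .e)) (.nd (.nd (.nd (.nd (.nd (.lf (.negSucc (nat_lit
 1088847117016157485))) .e) .e) .e) .e) (.nd (.nd (.nd (.nd (.lf (.negSucc (nat_lit
 8568267744924583359))) .e) .e) .e) .e)))) (.nd (.nd (.nd (.nd (.nd (.nd (.nd (.lf (.negSucc
 (nat_lit 18906916698501))) .e) .e) .e) .e) (.nd (.nd (.nd (.nd (.lf (.negSucc (nat_lit
 1564326933159370261))) .e) .e) .e) .e)) (.nd (.nd (.nd (.nd (.nd (.lf (.negSucc (nat_lit
 911324234896746907))) .e) .e) .e) .e) (.nd (.nd (.nd (.nd (.lf (.negSucc (nat_lit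
 725293154837663))) .e) .e) .e) .e))) (.nd (.nd (.nd (.nd (.nd (.nd (.lf (.negSucc (nat_lit
 127737568554315811))) .e) .e) .e) .e) (.nd (.nd (.nd (.nd (.lf (.negSucc (nat_lit
 1990248168202364699))) .e) .e) .e) .e)) (.nd (.nd (.nd (.nd (.nd (.lf (.negSucc (nat_lit
 2606618060638772249))) .e) .e) .e) .e) (.nd (.nd (.nd (.nd (.lf (.negSucc (nat_lit
 4654729945158248425))) .e) .e) .e) .e))))) .e) .e) .e)) (.nd (.nd (.nd (.nd (.nd (.nd (.nd (.nd
 .e (.nd (.nd (.nd (.nd (.lf (.negSucc (nat_lit 232651294235617591))) .e) .e) .e) .e)) (.nd (.nd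
 (.nd (.nd (.nd (.lf (.ofNat (nat_lit 23981640730286732))) .e) .e) .e) .e) .e)) (.nd (.nd (.nd
 (.nd (.nd (.nd (.lf (.ofNat (nat_lit 9465220365461242))) .e) .e) .e) .e) (.nd (.nd (.nd (.nd (.lf
 (.negSucc (nat_lit 9821463631208177066))) .e) .e) .e) .e)) (.nd (.nd (.nd (.nd (.nd (.lf
 (.negSucc (nat_lit 3375906819210885753))) .e) .e) .e) .e) .e))) (.nd (.nd (.nd (.nd (.nd (.nd
 (.nd (.lf (.ofNat (nat_lit 2552909019484276))) .e) .e) .e) .e) (.nd (.nd (.nd (.nd (.lf (.negSucc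
 (nat_lit 4633034362680993291))) .e) .e) .e) .e)) (.nd (.nd (.nd (.nd (.nd (.lf (.negSucc (nat_lit
 6305677435776814739))) .e) .e) .e) .e) .e)) (.nd (.nd (.nd (.nd (.nd (.nd (.lf (.negSucc (nat_lit
 524243285002852983))) .e) .e) .e) .e) .e) (.nd (.nd (.nd (.nd (.nd (.lf (.negSucc (nat_lit
 4423152486704508699))) .e) .e) .e) .e) .e)))) .e) .e) .e) .e)) (.nd (.nd (.nd (.nd (.nd (.nd (.nd
 (.nd .e (.nd (.nd (.nd (.nd (.nd (.lf (.negSucc (nat_lit 542525257530177855))) .e) .e) .e) .e)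
 .e)) (.nd (.nd (.nd (.nd (.nd (.nd (.lf (.ofNat (nat_lit 39723267968836162))) .e) .e) .e) .e) .e)
 (.nd (.nd (.nd (.nd (.nd (.lf (.negSucc (nat_lit 5785553208951772737))) .e) .e) .e) .e) .e)))
 (.nd (.nd (.nd (.nd (.nd (.nd (.nd (.lf (.ofNat (nat_lit 38026488771286110))) .e) .e) .e) .e) .e)
 (.nd (.nd (.nd (.nd (.nd (.lf (.negSucc (nat_lit 2779473178641600175))) .e) .e) .e) .e) .e)) (.nd
 (.nd (.nd (.nd (.nd (.nd (.lf (.negSucc (nat_lit 3595876151285269625))) .e) .e) .e) .e) .e) .e)))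
 .e) .e) .e) (.nd (.nd (.nd (.nd (.nd (.nd (.nd (.nd .e (.nd (.nd (.nd (.lf (.ofNat (nat_lit
 23968794732419734))) .e) .e) .e)) (.nd (.nd (.nd (.nd (.lf (.ofNat (nat_lit 32995425732227800)))
 .e) .e) .e) .e)) (.nd (.nd (.nd (.nd (.nd (.lf (.ofNat (nat_lit 10215927398186764))) .e) .e) .e)
 (.nd (.nd (.nd (.lf (.negSucc (nat_lit 1439134995865728255))) .e) .e) .e)) (.nd (.nd (.nd (.nd
 (.lf (.negSucc (nat_lit 47197819394273513))) .e) .e) .e) .e))) (.nd (.nd (.nd (.nd (.nd (.nd (.lf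
 (.ofNat (nat_lit 3619810383481472))) .e) .e) .e) (.nd (.nd (.nd (.lf (.negSucc (nat_lit
 1476726984877340405))) .e) .e) .e)) (.nd (.nd (.nd (.nd (.lf (.ofNat (nat_lit
 40237190799772970))) .e) .e) .e) .e)) (.nd (.nd (.nd (.nd (.nd (.lf (.negSucc (nat_lit
 18021182847945749))) .e) .e) .e) (.nd (.nd (.nd (.lf (.negSucc (nat_lit 16770639115583255974)))
 .e) .e) .e)) (.nd (.nd (.nd (.nd (.lf (.negSucc (nat_lit 7398783320367121529))) .e) .e) .e)
 .e)))) (.nd (.nd (.nd (.nd (.nd (.nd (.nd (.lf (.ofNat (nat_lit 1645133554451720))) .e) .e) .e)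
 .e) (.nd (.nd (.nd (.nd (.lf (.negSucc (nat_lit 33494911004779753))) .e) .e) .e) .e)) (.nd (.nd
 (.nd (.nd (.nd (.lf (.ofNat (nat_lit 31385427833198452))) .e) .e) .e) (.nd (.nd (.nd (.lf
 (.negSucc (nat_lit 13389573075466053149))) .e) .e) .e)) (.nd (.nd (.nd (.nd (.lf (.negSucc
 (nat_lit 6663610091300399999))) .e) .e) .e) .e))) (.nd (.nd (.nd (.nd (.nd (.nd (.lf (.negSucc
 (nat_lit 11282508778281015))) .e) .e) .e) .e) (.nd (.nd (.nd (.nd (.lf (.negSucc (nat_lit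
 12185977160971807639))) .e) .e) .e) .e)) (.nd (.nd (.nd (.nd (.nd (.lf (.negSucc (nat_lit
 1204459400759083199))) .e) .e) .e) .e) (.nd (.nd (.nd (.nd (.lf (.negSucc (nat_lit
 2958679521551666773))) .e) .e) .e) .e))))) .e) .e) .e)) (.nd (.nd (.nd (.nd (.nd (.nd (.nd (.nd
 .e (.nd (.nd (.nd (.nd (.lf (.negSucc (nat_lit 67434933562318749))) .e) .e) .e) .e)) (.nd (.nd
 (.nd (.nd (.nd (.lf (.negSucc (nat_lit 19177548895828109))) .e) .e) .e) .e) (.nd (.nd (.nd (.nd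
 (.lf (.negSucc (nat_lit 1020559730975112009))) .e) .e) .e) .e))) (.nd (.nd (.nd (.nd (.nd (.nd
 (.lf (.negSucc (nat_lit 575694297864759))) .e) .e) .e) .e) (.nd (.nd (.nd (.nd (.lf (.negSucc
 (nat_lit 4831020818070788589))) .e) .e) .e) .e)) (.nd (.nd (.nd (.nd (.nd (.lf (.ofNat (nat_lit
 34969960188562260))) .e) .e) .e) .e) (.nd (.nd (.nd (.nd (.lf (.negSucc (nat_lit
 13311905699682671824))) .e) .e) .e) .e)))) (.nd (.nd (.nd (.nd (.nd (.nd (.nd (.lf (.negSucc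
 (nat_lit 12401905821039))) .e) .e) .e) .e) (.nd (.nd (.nd (.nd (.lf (.negSucc (nat_lit
 1052871450586721629))) .e) .e) .e) .e)) (.nd (.nd (.nd (.nd (.nd (.lf (.negSucc (nat_lit
 757309580127268649))) .e) .e) .e) .e) (.nd (.nd (.nd (.nd (.lf (.ofNat (nat_lit
 5233197187723680))) .e) .e) .e) .e))) (.nd (.nd (.nd (.nd (.nd (.nd (.lf (.ofNat (nat_lit
 22558432213807200))) .e) .e) .e) .e) (.nd (.nd (.nd (.nd (.lf (.negSucc (nat_lit
 6228839262509217349))) .e) .e) .e) .e)) (.nd (.nd (.nd (.nd (.nd (.lf (.negSucc (nat_lit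
 8456540480842681399))) .e) .e) .e) .e) .e)))) .e) .e) .e) (.nd (.nd (.nd (.nd (.nd (.nd (.nd (.nd
 .e (.nd (.nd (.nd (.lf (.negSucc (nat_lit 189661227164206433))) .e) .e) .e)) (.nd (.nd (.nd (.nd
 (.lf (.negSucc (nat_lit 26588351727211195))) .e) .e) .e) (.nd (.nd (.nd (.lf (.negSucc (nat_lit
 793729419410247197))) .e) .e) .e))) (.nd (.nd (.nd (.nd (.nd (.lf (.ofNat (nat_lit
 1170926960978038))) .e) .e) .e) (.nd (.nd (.nd (.lf (.negSucc (nat_lit 4286008894956323157))) .e)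
 .e) .e)) (.nd (.nd (.nd (.nd (.lf (.negSucc (nat_lit 1334232710328119693))) .e) .e) .e) (.nd (.nd
 (.nd (.lf (.negSucc (nat_lit 20642124952823239549))) .e) .e) .e)))) (.nd (.nd (.nd (.nd (.nd (.nd
 (.lf (.ofNat (nat_lit 1409179845231742))) .e) .e) .e) (.nd (.nd (.nd (.lf (.negSucc (nat_lit
 3544425919465701191))) .e) .e) .e)) (.nd (.nd (.nd (.nd (.lf (.negSucc (nat_lit
 1219419427727235787))) .e) .e) .e) .e)) (.nd (.nd (.nd (.nd (.nd (.lf (.negSucc (nat_lit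
 387925300742848465))) .e) .e) .e) (.nd (.nd (.nd (.lf (.negSucc (nat_lit 18287264582794915599)))
 .e) .e) .e)) (.nd (.nd (.nd (.nd (.lf (.negSucc (nat_lit 14394759300063204489))) .e) .e) .e) (.nd
 (.nd (.nd (.lf (.negSucc (nat_lit 9142068401954343924))) .e) .e) .e))))) (.nd (.nd (.nd (.nd (.nd
 (.nd (.nd (.lf (.ofNat (nat_lit 587932613329840))) .e) .e) .e) .e) (.nd (.nd (.nd (.nd (.lf
 (.negSucc (nat_lit 386618412073491297))) .e) .e) .e) (.nd (.nd (.nd (.lf (.negSucc (nat_lit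
 2507643248226162899))) .e) .e) .e))) (.nd (.nd (.nd (.nd (.nd (.lf (.negSucc (nat_lit
 118853582969878079))) .e) .e) .e) (.nd (.nd (.nd (.lf (.negSucc (nat_lit 6611246773733911799)))
 .e) .e) .e)) (.nd (.nd (.nd (.nd (.lf (.negSucc (nat_lit 2852036013359433599))) .e) .e) .e) .e)))
 (.nd (.nd (.nd (.nd (.nd (.nd (.lf (.negSucc (nat_lit 52631315818484907))) .e) .e) .e) .e) (.nd
 (.nd (.nd (.nd (.lf (.negSucc (nat_lit 7567102344704943259))) .e) .e) .e) (.nd (.nd (.nd (.lf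
 (.negSucc (nat_lit 2003919184304587699))) .e) .e) .e))) (.nd (.nd (.nd (.nd (.nd (.lf (.negSucc
 (nat_lit 2477676992038428459))) .e) .e) .e) .e) (.nd (.nd (.nd (.nd (.lf (.negSucc (nat_lit
 6351170217232253921))) .e) .e) .e) .e))))) .e) .e) .e))))) (.nd (.nd (.nd (.nd (.nd (.nd (.nd
 (.nd .e (.nd (.nd (.nd (.nd (.nd (.nd (.nd (.lf (.ofNat (nat_lit 280053714726260541))) .e) .e)
 .e) .e) .e) .e) .e)) .e) .e) .e) .e) (.nd (.nd (.nd (.nd (.nd (.nd (.nd (.nd .e (.nd (.nd (.nd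
 (.nd (.lf (.negSucc (nat_lit 72270579074597505))) .e) .e) .e) .e)) (.nd (.nd (.nd (.nd (.nd (.lf
 (.negSucc (nat_lit 46169719498099555))) .e) .e) .e) .e) .e)) (.nd (.nd (.nd (.nd (.nd (.nd (.lf
 (.negSucc (nat_lit 2432797321064317))) .e) .e) .e) .e) .e) (.nd (.nd (.nd (.nd (.nd (.lf
 (.negSucc (nat_lit 11414814730291371))) .e) .e) .e) .e) .e))) (.nd (.nd (.nd (.nd (.nd (.nd (.nd
 (.lf (.ofNat (nat_lit 2267740429368948))) .e) .e) .e) .e) (.nd (.nd (.nd (.nd (.lf (.negSucc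
 (nat_lit 837243649529242587))) .e) .e) .e) .e)) (.nd (.nd (.nd (.nd (.nd (.lf (.negSucc (nat_lit
 1122080201929682709))) .e) .e) .e) .e) .e)) (.nd (.nd (.nd (.nd (.nd (.nd (.lf (.ofNat (nat_lit
 8866142078513516))) .e) .e) .e) .e) .e) (.nd (.nd (.nd (.nd (.nd (.lf (.negSucc (nat_lit
 1416510334487840409))) .e) .e) .e) .e) .e)))) .e) .e) .e) (.nd (.nd (.nd (.nd (.nd (.nd (.nd (.nd
 .e (.nd (.nd (.nd (.lf (.ofNat (nat_lit 25873796165875368))) .e) .e) .e)) (.nd (.nd (.nd (.nd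
 (.lf (.ofNat (nat_lit 35929570642362854))) .e) .e) .e) (.nd (.nd (.nd (.lf (.negSucc (nat_lit
 109029998059889933))) .e) .e) .e))) (.nd (.nd (.nd (.nd (.nd (.lf (.ofNat (nat_lit
 11769108164947780))) .e) .e) .e) (.nd (.nd (.nd (.lf (.negSucc (nat_lit 50766645978275823))) .e)
 .e) .e)) (.nd (.nd (.nd (.nd (.lf (.negSucc (nat_lit 17746204368098545))) .e) .e) .e) .e))) (.nd
 (.nd (.nd (.nd (.nd (.nd (.lf (.ofNat (nat_lit 3508082198490340))) .e) .e) .e) (.nd (.nd (.nd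
 (.lf (.negSucc (nat_lit 85553908203275849))) .e) .e) .e)) (.nd (.nd (.nd (.nd (.lf (.ofNat
 (nat_lit 116293121594857904))) .e) .e) .e) .e)) (.nd (.nd (.nd (.nd (.nd (.lf (.negSucc (nat_lit
 16284524520972473))) .e) .e) .e) (.nd (.nd (.nd (.lf (.negSucc (nat_lit 6611083263565444799)))
 .e) .e) .e)) (.nd (.nd (.nd (.nd (.lf (.negSucc (nat_lit 193365573051895919))) .e) .e) .e) .e))))
 (.nd (.nd (.nd (.nd (.nd (.nd (.nd (.lf (.ofNat (nat_lit 1289253164560488))) .e) .e) .e) .e) (.nd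
 (.nd (.nd (.nd (.lf (.negSucc (nat_lit 17696587286035455))) .e) .e) .e) (.nd (.nd (.nd (.lf
 (.negSucc (nat_lit 716679890601017799))) .e) .e) .e))) (.nd (.nd (.nd (.nd (.nd (.lf (.ofNat
 (nat_lit 44174408060136778))) .e) .e) .e) (.nd (.nd (.nd (.lf (.negSucc (nat_lit
 2744873792487477449))) .e) .e) .e)) (.nd (.nd (.nd (.nd (.lf (.negSucc (nat_lit
 1428725599274131199))) .e) .e) .e) .e))) (.nd (.nd (.nd (.nd (.nd (.nd (.lf (.negSucc (nat_lit
 14222555264993201))) .e) .e) .e) .e) (.nd (.nd (.nd (.nd (.lf (.negSucc (nat_lit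
 2260319289656325839))) .e) .e) .e) .e)) (.nd (.nd (.nd (.nd (.nd (.lf (.negSucc (nat_lit
 33312095169700319))) .e) .e) .e) .e) (.nd (.nd (.nd (.nd (.lf (.ofNat (nat_lit
 45237283106376246))) .e) .e) .e) .e))))) .e) .e) .e))) (.nd (.nd (.nd (.nd (.nd (.nd (.nd (.nd .e
 (.nd (.nd (.nd (.nd (.nd (.lf (.ofNat (nat_lit 6600649999181898))) .e) .e) .e) .e) .e)) (.nd (.nd
 (.nd (.nd (.nd (.nd (.lf (.negSucc (nat_lit 4290015512398501))) .e) .e) .e) .e) .e) .e)) (.nd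
 (.nd (.nd (.nd (.nd (.nd (.nd (.lf (.ofNat (nat_lit 1213793421987342))) .e) .e) .e) .e) .e) (.nd
 (.nd (.nd (.nd (.nd (.lf (.negSucc (nat_lit 1539527850935646253))) .e) .e) .e) .e) .e)) (.nd (.nd
 (.nd (.nd (.nd (.nd (.lf (.negSucc (nat_lit 660045039029478145))) .e) .e) .e) .e) .e) .e))) .e)
 .e) .e) (.nd (.nd (.nd (.nd (.nd (.nd (.nd (.nd .e (.nd (.nd (.nd (.lf (.negSucc (nat_lit
 34142577874196217))) .e) .e) .e)) (.nd (.nd (.nd (.nd (.lf (.negSucc (nat_lit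
 47625377164528329))) .e) .e) .e) .e)) (.nd (.nd (.nd (.nd (.nd (.lf (.negSucc (nat_lit
 18131291696352187))) .e) .e) .e) (.nd (.nd (.nd (.lf (.ofNat (nat_lit 168986320327391832))) .e)
 .e) .e)) (.nd (.nd (.nd (.nd (.lf (.negSucc (nat_lit 15485719687405261))) .e) .e) .e) .e))) (.nd
 (.nd (.nd (.nd (.nd (.nd (.lf (.negSucc (nat_lit 4500329267973663))) .e) .e) .e) (.nd (.nd (.nd
 (.lf (.ofNat (nat_lit 229776992437353822))) .e) .e) .e)) (.nd (.nd (.nd (.nd (.lf (.negSucc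
 (nat_lit 257264558322777099))) .e) .e) .e) .e)) (.nd (.nd (.nd (.nd (.nd (.lf (.ofNat (nat_lit
 19211868022273670))) .e) .e) .e) .e) (.nd (.nd (.nd (.nd (.lf (.ofNat (nat_lit
 378060013415234110))) .e) .e) .e) .e)))) (.nd (.nd (.nd (.nd (.nd (.nd (.nd (.lf (.negSucc
 (nat_lit 23834980983799))) .e) .e) .e) .e) (.nd (.nd (.nd (.nd (.lf (.negSucc (nat_lit
 11222881050149891))) .e) .e) .e) .e)) (.nd (.nd (.nd (.nd (.nd (.lf (.negSucc (nat_lit
 62226544422947593))) .e) .e) .e) (.nd (.nd (.nd (.lf (.negSucc (nat_lit 3034322680321040724)))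
 .e) .e) .e)) (.nd (.nd (.nd (.nd (.lf (.negSucc (nat_lit 2847389905882367999))) .e) .e) .e) .e)))
 (.nd (.nd (.nd (.nd (.nd (.nd (.lf (.ofNat (nat_lit 23602854346828652))) .e) .e) .e) .e) (.nd
 (.nd (.nd (.nd (.lf (.negSucc (nat_lit 4654448403604247519))) .e) .e) .e) .e)) (.nd (.nd (.nd
 (.nd (.nd (.lf (.ofNat (nat_lit 11129567316657100))) .e) .e) .e) .e) (.nd (.nd (.nd (.nd (.lf
 (.negSucc (nat_lit 87070253027293941))) .e) .e) .e) .e))))) .e) .e) .e)) (.nd (.nd (.nd (.nd (.nd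
 (.nd (.nd (.nd .e (.nd (.nd (.nd (.nd (.lf (.negSucc (nat_lit 1739710763935199))) .e) .e) .e)
 .e)) (.nd (.nd (.nd (.nd (.nd (.lf (.negSucc (nat_lit 569417056704383))) .e) .e) .e) .e) (.nd
 (.nd (.nd (.nd (.lf (.ofNat (nat_lit 2759948605842624))) .e) .e) .e) .e))) (.nd (.nd (.nd (.nd
 (.nd (.nd (.lf (.negSucc (nat_lit 307165166771231))) .e) .e) .e) .e) (.nd (.nd (.nd (.nd (.lf
 (.negSucc (nat_lit 3134525850025919))) .e) .e) .e) .e)) (.nd (.nd (.nd (.nd (.nd (.lf (.ofNat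
 (nat_lit 365118140459520))) .e) .e) .e) .e) .e))) (.nd (.nd (.nd (.nd (.nd (.nd (.nd (.lf
 (.negSucc (nat_lit 36476483924159))) .e) .e) .e) .e) (.nd (.nd (.nd (.nd (.lf (.ofNat (nat_lit
 1454058770308704))) .e) .e) .e) .e)) (.nd (.nd (.nd (.nd (.nd (.lf (.negSucc (nat_lit
 2442314171287871))) .e) .e) .e) .e) (.nd (.nd (.nd (.nd (.lf (.negSucc (nat_lit
 712948308954335999))) .e) .e) .e) .e))) (.nd (.nd (.nd (.nd (.nd (.nd (.lf (.ofNat (nat_lit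
 217544447667456))) .e) .e) .e) .e) (.nd (.nd (.nd (.nd (.lf (.negSucc (nat_lit
 2302329495003017759))) .e) .e) .e) .e)) (.nd (.nd (.nd (.nd (.nd (.lf (.ofNat (nat_lit
 3106902579681600))) .e) .e) .e) .e) .e)))) .e) .e) .e) .e))) (.nd (.nd (.nd (.nd (.nd (.nd (.nd
 (.nd .e (.nd (.nd (.nd (.nd (.nd (.nd (.lf (.negSucc (nat_lit 214704760656721335))) .e) .e) .e)
 .e) .e) .e)) (.nd (.nd (.nd (.nd (.nd (.nd (.nd (.lf (.ofNat (nat_lit 11070841428210264))) .e)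
 .e) .e) .e) .e) .e) (.nd (.nd (.nd (.nd (.nd (.nd (.lf (.negSucc (nat_lit 778628187228869849)))
 .e) .e) .e) .e) .e) .e))) .e) .e) .e) .e) (.nd (.nd (.nd (.nd (.nd (.nd (.nd (.nd .e (.nd (.nd
 (.nd (.nd (.lf (.ofNat (nat_lit 26026587232480490))) .e) .e) .e) .e)) (.nd (.nd (.nd (.nd (.nd
 (.lf (.ofNat (nat_lit 8040885840174780))) .e) .e) .e) .e) .e)) (.nd (.nd (.nd (.nd (.nd (.nd (.lf
 (.ofNat (nat_lit 2331992521769640))) .e) .e) .e) .e) (.nd (.nd (.nd (.nd (.lf (.ofNat (nat_lit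
 31431614721644120))) .e) .e) .e) .e)) (.nd (.nd (.nd (.nd (.nd (.lf (.negSucc (nat_lit
 14581337553455269))) .e) .e) .e) .e) .e))) (.nd (.nd (.nd (.nd (.nd (.nd (.nd (.lf (.ofNat
 (nat_lit 1033821830521300))) .e) .e) .e) .e) (.nd (.nd (.nd (.nd (.lf (.negSucc (nat_lit
 27612539806596579))) .e) .e) .e) .e)) (.nd (.nd (.nd (.nd (.nd (.lf (.ofNat (nat_lit
 24853779962122450))) .e) .e) .e) .e) .e)) (.nd (.nd (.nd (.nd (.nd (.nd (.lf (.negSucc (nat_lit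
 9832601667533079))) .e) .e) .e) .e) (.nd (.nd (.nd (.nd (.lf (.negSucc (nat_lit
 2837342703141165174))) .e) .e) .e) .e)) (.nd (.nd (.nd (.nd (.nd (.lf (.negSucc (nat_lit
 1531151443341423449))) .e) .e) .e) .e) .e)))) .e) .e) .e) (.nd (.nd (.nd (.nd (.nd (.nd (.nd (.nd
 .e (.nd (.nd (.nd (.lf (.negSucc (nat_lit 23811284954402457))) .e) .e) .e)) (.nd (.nd (.nd (.nd
 (.lf (.negSucc (nat_lit 13474094532795145))) .e) .e) .e) (.nd (.nd (.nd (.lf (.ofNat (nat_lit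
 100469820230864640))) .e) .e) .e))) (.nd (.nd (.nd (.nd (.nd (.lf (.negSucc (nat_lit
 4168852196225665))) .e) .e) .e) (.nd (.nd (.nd (.lf (.ofNat (nat_lit 142007468881091612))) .e)
 .e) .e)) (.nd (.nd (.nd (.nd (.lf (.negSucc (nat_lit 163196123152103999))) .e) .e) .e) .e))) (.nd
 (.nd (.nd (.nd (.nd (.nd (.lf (.negSucc (nat_lit 1629370669278707))) .e) .e) .e) (.nd (.nd (.nd
 (.lf (.ofNat (nat_lit 122392548769805052))) .e) .e) .e)) (.nd (.nd (.nd (.nd (.lf (.negSucc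
 (nat_lit 256130745122213041))) .e) .e) .e) .e)) (.nd (.nd (.nd (.nd (.nd (.lf (.negSucc (nat_lit
 27944931327133555))) .e) .e) .e) (.nd (.nd (.nd (.lf (.negSucc (nat_lit 2236262366951311049)))
 .e) .e) .e)) (.nd (.nd (.nd (.nd (.lf (.ofNat (nat_lit 277833521302111510))) .e) .e) .e) .e))))
 (.nd (.nd (.nd (.nd (.nd (.nd (.nd (.lf (.ofNat (nat_lit 8531687885704))) .e) .e) .e) .e) (.nd
 (.nd (.nd (.nd (.lf (.negSucc (nat_lit 77144990037573467))) .e) .e) .e) (.nd (.nd (.nd (.lf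
 (.negSucc (nat_lit 319911839701366949))) .e) .e) .e))) (.nd (.nd (.nd (.nd (.nd (.lf (.negSucc
 (nat_lit 35543947842915663))) .e) .e) .e) (.nd (.nd (.nd (.lf (.negSucc (nat_lit
 1395236495033320649))) .e) .e) .e)) (.nd (.nd (.nd (.nd (.lf (.negSucc (nat_lit
 473919940790956799))) .e) .e) .e) .e))) (.nd (.nd (.nd (.nd (.nd (.nd (.lf (.ofNat (nat_lit
 4538686397370810))) .e) .e) .e) .e) (.nd (.nd (.nd (.nd (.lf (.negSucc (nat_lit
 780139654970410079))) .e) .e) .e) (.nd (.nd (.nd (.lf (.negSucc (nat_lit 342536254352449949)))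
 .e) .e) .e))) (.nd (.nd (.nd (.nd (.nd (.lf (.negSucc (nat_lit 51368875744338619))) .e) .e) .e)
 .e) (.nd (.nd (.nd (.nd (.lf (.negSucc (nat_lit 88547030003567313))) .e) .e) .e) .e))))) .e) .e)
 .e))) (.nd (.nd (.nd (.nd (.nd (.nd (.nd (.nd .e (.nd (.nd (.nd (.nd (.nd (.lf (.negSucc (nat_lit
 13945727021321159))) .e) .e) .e) .e) .e)) (.nd (.nd (.nd (.nd (.nd (.nd (.lf (.negSucc (nat_lit
 2664087685014739))) .e) .e) .e) .e) .e) (.nd (.nd (.nd (.nd (.nd (.lf (.ofNat (nat_lit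
 18703199972999070))) .e) .e) .e) .e) .e))) (.nd (.nd (.nd (.nd (.nd (.nd (.nd (.lf (.negSucc
 (nat_lit 175904574730119))) .e) .e) .e) .e) .e) (.nd (.nd (.nd (.nd (.nd (.lf (.negSucc (nat_lit
 1088329682269454129))) .e) .e) .e) .e) .e)) (.nd (.nd (.nd (.nd (.nd (.nd (.lf (.ofNat (nat_lit
 15862424393795820))) .e) .e) .e) .e) .e) (.nd (.nd (.nd (.nd (.nd (.lf (.negSucc (nat_lit
 2192183359004417949))) .e) .e) .e) .e) .e)))) .e) .e) .e) .e) (.nd (.nd (.nd (.nd (.nd (.nd (.nd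
 (.nd .e (.nd (.nd (.nd (.nd (.lf (.negSucc (nat_lit 6486062996684139))) .e) .e) .e) .e)) (.nd
 (.nd (.nd (.nd (.nd (.lf (.ofNat (nat_lit 3019423396847996))) .e) .e) .e) .e) (.nd (.nd (.nd (.nd
 (.lf (.negSucc (nat_lit 292159293711860609))) .e) .e) .e) .e))) (.nd (.nd (.nd (.nd (.nd (.nd
 (.lf (.ofNat (nat_lit 1643045043759074))) .e) .e) .e) .e) (.nd (.nd (.nd (.nd (.lf (.ofNat
 (nat_lit 174199513068201142))) .e) .e) .e) .e)) (.nd (.nd (.nd (.nd (.nd (.lf (.negSucc (nat_lit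
 191907951654503851))) .e) .e) .e) .e) (.nd (.nd (.nd (.nd (.lf (.negSucc (nat_lit
 12448243015695062599))) .e) .e) .e) .e)))) (.nd (.nd (.nd (.nd (.nd (.nd (.nd (.lf (.ofNat
 (nat_lit 1113085231267632))) .e) .e) .e) .e) (.nd (.nd (.nd (.nd (.lf (.negSucc (nat_lit
 104358141394090529))) .e) .e) .e) .e)) (.nd (.nd (.nd (.nd (.nd (.lf (.ofNat (nat_lit
 16591320620188044))) .e) .e) .e) .e) (.nd (.nd (.nd (.nd (.lf (.negSucc (nat_lit
 2657611300762655))) .e) .e) .e) .e))) (.nd (.nd (.nd (.nd (.nd (.nd (.lf (.negSucc (nat_lit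
 21014299833752319))) .e) .e) .e) .e) (.nd (.nd (.nd (.nd (.lf (.negSucc (nat_lit
 3984549703401489069))) .e) .e) .e) .e)) (.nd (.nd (.nd (.nd (.nd (.lf (.negSucc (nat_lit
 3013253977513472169))) .e) .e) .e) .e) (.nd (.nd (.nd (.nd (.lf (.negSucc (nat_lit
 4132368757665073190))) .e) .e) .e) .e))))) .e) .e) .e) .e)))))

end Pool.Agent.H58.BJ.D6
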