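import Pool.Agent.H58.BJ.D6.U11
import Pool.Agent.H58.BJ.D6.U12

/-! # Certificate data (6 jets, exponent 28/25) -/

set_option autoImplicit false

namespace Pool.Agent.H58.BJ.D6

open Pool.Agent.H58.BJ

/-- rows of a block -/
noncomputable def B12_0 : List (Row × List ℤ) := [((nat_lit 1, nat_lit 1, false), [.ofNat (nat_lit
 4718437)]), ((nat_lit 2, nat_lit 1, false), [.ofNat (nat_lit 11802138), .ofNat (nat_lit
 7982491)]), ((nat_lit 3, nat_lit 1, false), [.ofNat (nat_lit 6426683), .negSucc (nat_lit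
 3448306), .ofNat (nat_lit 8959266)]), ((nat_lit 4, nat_lit 1, false), [.ofNat (nat_lit 8071958),
 .ofNat (nat_lit 16976963), .ofNat (nat_lit 273823), .ofNat (nat_lit 9944814)]), ((nat_lit 5,
 nat_lit 1, false), [.ofNat (nat_lit 3292457), .negSucc (nat_lit 2351432), .negSucc (nat_lit
 896218), .ofNat (nat_lit 2799408), .ofNat (nat_lit 9471732)]), ((nat_lit 6, nat_lit 1, false),
 [.ofNat (nat_lit 6759068), .ofNat (nat_lit 456438), .ofNat (nat_lit 15374136), .negSucc (nat_lit
 4043102), .ofNat (nat_lit 1210475), .ofNat (nat_lit 12910099)]), ((nat_lit 8, nat_lit 1, false),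
 [.negSucc (nat_lit 1412531), .ofNat (nat_lit 7856741), .ofNat (nat_lit 2952965), .ofNat (nat_lit
 18578639), .negSucc (nat_lit 726433), .negSucc (nat_lit 111467), .ofNat (nat_lit 9849094)]),
 ((nat_lit 7, nat_lit 1, false), [.negSucc (nat_lit 210975), .negSucc (nat_lit 3884971), .negSucc
 (nat_lit 1548647), .negSucc (nat_lit 295596), .negSucc (nat_lit 3292949), .ofNat (nat_lit
 2124459), .negSucc (nat_lit 2739), .ofNat (nat_lit 9238086)]), ((nat_lit 10, nat_lit 1, false),
 [.ofNat (nat_lit 4123329), .negSucc (nat_lit 4101735), .negSucc (nat_lit 1352421), .negSucc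
 (nat_lit 1717120), .ofNat (nat_lit 8437195), .negSucc (nat_lit 1207603), .ofNat (nat_lit
 4133940), .ofNat (nat_lit 8860893), .ofNat (nat_lit 8892706)]), ((nat_lit 9, nat_lit 1, false),
 [.ofNat (nat_lit 2117980), .negSucc (nat_lit 4077008), .ofNat (nat_lit 6214762), .ofNat (nat_lit
 723926), .ofNat (nat_lit 320206), .negSucc (nat_lit 4745620), .ofNat (nat_lit 781943), .ofNat
 (nat_lit 3615666), .negSucc (nat_lit 601374), .ofNat (nat_lit 10098282)]), ((nat_lit 12, nat_lit
 1, false), [.negSucc (nat_lit 1602169), .ofNat (nat_lit 2488731), .ofNat (nat_lit 4957355),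
 .negSucc (nat_lit 2607275), .negSucc (nat_lit 24421), .ofNat (nat_lit 16508022), .negSucc
 (nat_lit 4029306), .ofNat (nat_lit 6551246), .ofNat (nat_lit 3042324), .ofNat (nat_lit 2745240),
 .ofNat (nat_lit 7151603)]), ((nat_lit 16, nat_lit 1, false), [.negSucc (nat_lit 2669846),
 .negSucc (nat_lit 2248076), .ofNat (nat_lit 2798319), .ofNat (nat_lit 8564369), .negSucc (nat_lit
 1437394), .ofNat (nat_lit 553828), .ofNat (nat_lit 11716054), .ofNat (nat_lit 764616), .ofNat
 (nat_lit 106163), .ofNat (nat_lit 250765), .ofNat (nat_lit 820016), .ofNat (nat_lit 2167918)]),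
 ((nat_lit 1, nat_lit 1, true), [.ofNat (nat_lit 840409), .negSucc (nat_lit 307272), .negSucc
 (nat_lit 465359), .negSucc (nat_lit 94364), .negSucc (nat_lit 605561), .negSucc (nat_lit 122743),
 .negSucc (nat_lit 67701), .negSucc (nat_lit 108054), .ofNat (nat_lit 179089), .ofNat (nat_lit
 27487), .ofNat (nat_lit 155871), .negSucc (nat_lit 319917), .ofNat (nat_lit 1792270)]), ((nat_lit
 2, nat_lit 1, true), [.ofNat (nat_lit 2461147), .ofNat (nat_lit 15114), .negSucc (nat_lit
 1317306), .negSucc (nat_lit 997117), .negSucc (nat_lit 1263248), .negSucc (nat_lit 460622),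
 .negSucc (nat_lit 52255), .ofNat (nat_lit 252180), .ofNat (nat_lit 264853), .ofNat (nat_lit
 545551), .ofNat (nat_lit 759176), .negSucc (nat_lit 554574), .ofNat (nat_lit 5887252), .ofNat
 (nat_lit 2478570)]), ((nat_lit 3, nat_lit 1, true), [.ofNat (nat_lit 959760), .negSucc (nat_lit
 1867997), .ofNat (nat_lit 28186), .negSucc (nat_lit 488988), .negSucc (nat_lit 1903715), .negSucc
 (nat_lit 418734), .ofNat (nat_lit 223262), .ofNat (nat_lit 2258985), .ofNat (nat_lit 901093),
 .negSucc (nat_lit 1362752), .ofNat (nat_lit 188694), .negSucc (nat_lit 473787), .ofNat (nat_lit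
 1403593), .negSucc (nat_lit 2147849), .ofNat (nat_lit 2070215)]), ((nat_lit 4, nat_lit 1, true),
 [.ofNat (nat_lit 2883806), .ofNat (nat_lit 2618589), .negSucc (nat_lit 1957827), .negSucc
 (nat_lit 155722), .ofNat (nat_lit 1056561), .negSucc (nat_lit 1201619), .negSucc (nat_lit
 2187577), .negSucc (nat_lit 2079059), .ofNat (nat_lit 399150), .ofNat (nat_lit 885704), .ofNat
 (nat_lit 925597), .negSucc (nat_lit 566132), .ofNat (nat_lit 7025469), .ofNat (nat_lit 5365558),
 .negSucc (nat_lit 800465), .ofNat (nat_lit 2573587)]), ((nat_lit 5, nat_lit 1, true), [.ofNat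
 (nat_lit 293523), .ofNat (nat_lit 912195), .negSucc (nat_lit 97809), .ofNat (nat_lit 1452721),
 .ofNat (nat_lit 1787052), .negSucc (nat_lit 188071), .negSucc (nat_lit 1012116), .negSucc
 (nat_lit 3203075), .negSucc (nat_lit 1448992), .negSucc (nat_lit 9352), .negSucc (nat_lit
 339023), .negSucc (nat_lit 260282), .negSucc (nat_lit 98690), .negSucc (nat_lit 434801), .negSucc
 (nat_lit 947162), .ofNat (nat_lit 1108274), .ofNat (nat_lit 1072349)]), ((nat_lit 6, nat_lit 1,
 true), [.ofNat (nat_lit 920703), .negSucc (nat_lit 3496954), .ofNat (nat_lit 853350), .negSucc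
 (nat_lit 1929856), .negSucc (nat_lit 3442124), .ofNat (nat_lit 96838), .ofNat (nat_lit 1960911),
 .ofNat (nat_lit 5139402), .ofNat (nat_lit 415628), .negSucc (nat_lit 1211936), .negSucc (nat_lit
 312546), .negSucc (nat_lit 521619), .ofNat (nat_lit 1565486), .negSucc (nat_lit 2771708), .ofNat
 (nat_lit 3413848), .negSucc (nat_lit 2322434), .ofNat (nat_lit 640447), .ofNat (nat_lit
 746786)]), ((nat_lit 8, nat_lit 1, true), [.ofNat (nat_lit 1256740), .ofNat (nat_lit 2256075),
 .negSucc (nat_lit 1047515), .ofNat (nat_lit 761291), .ofNat (nat_lit 1718672), .negSucc (nat_lit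
 832973), .negSucc (nat_lit 2182026), .negSucc (nat_lit 2343784), .ofNat (nat_lit 251946), .ofNat
 (nat_lit 380318), .ofNat (nat_lit 445632), .negSucc (nat_lit 562777), .ofNat (nat_lit 3038540),
 .ofNat (nat_lit 2912876), .negSucc (nat_lit 610292), .ofNat (nat_lit 2596342), .ofNat (nat_lit
 177582), .ofNat (nat_lit 139773), .ofNat (nat_lit 233780)])]

/-- rows of a block -/
noncomputable def B12_1 : List (Row × List ℤ) := [((nat_lit 1, nat_lit 1, false), [.ofNat (nat_lit
 6066568)]), ((nat_lit 1, nat_lit 2, false), [.ofNat (nat_lit 5649153), .ofNat (nat_lit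
 7043045)]), ((nat_lit 2, nat_lit 1, false), [.ofNat (nat_lit 10448724), .negSucc (nat_lit
 2401910), .ofNat (nat_lit 9830182)]), ((nat_lit 2, nat_lit 2, false), [.ofNat (nat_lit 3273091),
 .ofNat (nat_lit 13944655), .ofNat (nat_lit 8523732), .ofNat (nat_lit 10807997)]), ((nat_lit 3,
 nat_lit 1, false), [.ofNat (nat_lit 6779936), .negSucc (nat_lit 2836960), .negSucc (nat_lit
 430787), .ofNat (nat_lit 4812435), .ofNat (nat_lit 11551342)]), ((nat_lit 3, nat_lit 2, false),
 [.ofNat (nat_lit 7630084), .ofNat (nat_lit 2801173), .negSucc (nat_lit 2346672), .negSucc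
 (nat_lit 3269212), .ofNat (nat_lit 7382182), .ofNat (nat_lit 13278797)]), ((nat_lit 4, nat_lit 1,
 false), [.ofNat (nat_lit 4270723), .negSucc (nat_lit 7226738), .ofNat (nat_lit 15629164),
 .negSucc (nat_lit 632292), .ofNat (nat_lit 2431376), .negSucc (nat_lit 193833), .ofNat (nat_lit
 10693753)]), ((nat_lit 4, nat_lit 2, false), [.negSucc (nat_lit 5232283), .ofNat (nat_lit
 5268885), .ofNat (nat_lit 4648103), .ofNat (nat_lit 18055795), .negSucc (nat_lit 1821196), .ofNat
 (nat_lit 2263847), .ofNat (nat_lit 8944131), .ofNat (nat_lit 10676651)]), ((nat_lit 5, nat_lit 1,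
 false), [.ofNat (nat_lit 1448796), .ofNat (nat_lit 1889408), .negSucc (nat_lit 1586395), .ofNat
 (nat_lit 2179407), .ofNat (nat_lit 1334541), .negSucc (nat_lit 2621466), .ofNat (nat_lit
 1960223), .negSucc (nat_lit 1557105), .ofNat (nat_lit 9193440)]), ((nat_lit 5, nat_lit 2, false),
 [.ofNat (nat_lit 1178759), .ofNat (nat_lit 3495394), .negSucc (nat_lit 354726), .ofNat (nat_lit
 1829433), .ofNat (nat_lit 3330693), .negSucc (nat_lit 5596660), .ofNat (nat_lit 1557246),
 .negSucc (nat_lit 181493), .ofNat (nat_lit 12529209), .ofNat (nat_lit 7560083)]), ((nat_lit 6,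
 nat_lit 1, false), [.ofNat (nat_lit 2380373), .negSucc (nat_lit 4439011), .ofNat (nat_lit
 4246381), .ofNat (nat_lit 5617037), .ofNat (nat_lit 10099130), .negSucc (nat_lit 1239334),
 .negSucc (nat_lit 5248746), .ofNat (nat_lit 2081147), .ofNat (nat_lit 1844421), .ofNat (nat_lit
 881603), .ofNat (nat_lit 11286094)]), ((nat_lit 6, nat_lit 2, false), [.negSucc (nat_lit 498601),
 .ofNat (nat_lit 2957594), .ofNat (nat_lit 3242342), .negSucc (nat_lit 4320199), .ofNat (nat_lit
 81003), .ofNat (nat_lit 14918545), .negSucc (nat_lit 4667128), .negSucc (nat_lit 1910172), .ofNat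
 (nat_lit 822092), .ofNat (nat_lit 2498110), .ofNat (nat_lit 15506974), .ofNat (nat_lit
 7750043)]), ((nat_lit 8, nat_lit 1, false), [.ofNat (nat_lit 491959), .negSucc (nat_lit 3904226),
 .ofNat (nat_lit 4458148), .negSucc (nat_lit 4439857), .ofNat (nat_lit 1103997), .negSucc (nat_lit
 1266640), .ofNat (nat_lit 11611185), .ofNat (nat_lit 2865423), .negSucc (nat_lit 1283316),
 .negSucc (nat_lit 571620), .ofNat (nat_lit 2650009), .ofNat (nat_lit 2298781), .ofNat (nat_lit
 5500463)]), ((nat_lit 8, nat_lit 2, false), [.negSucc (nat_lit 1690287), .negSucc (nat_lit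
 369361), .negSucc (nat_lit 6827462), .ofNat (nat_lit 2343395), .negSucc (nat_lit 5267760), .ofNat
 (nat_lit 2843000), .ofNat (nat_lit 7942824), .ofNat (nat_lit 16243309), .negSucc (nat_lit
 1326530), .negSucc (nat_lit 544559), .ofNat (nat_lit 2185418), .ofNat (nat_lit 3235752), .ofNat
 (nat_lit 6003783), .ofNat (nat_lit 2808925)]), ((nat_lit 1, nat_lit 1, true), [.ofNat (nat_lit
 1294060), .ofNat (nat_lit 492009), .negSucc (nat_lit 1655316), .negSucc (nat_lit 1106005),
 .negSucc (nat_lit 2117747), .ofNat (nat_lit 1859736), .negSucc (nat_lit 279483), .ofNat (nat_lit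
 590947), .negSucc (nat_lit 425128), .negSucc (nat_lit 793710), .negSucc (nat_lit 249712), .ofNat
 (nat_lit 33068), .negSucc (nat_lit 352291), .ofNat (nat_lit 181038), .ofNat (nat_lit 2812098)]),
 ((nat_lit 1, nat_lit 2, true), [.ofNat (nat_lit 1593770), .ofNat (nat_lit 1189115), .negSucc
 (nat_lit 1688939), .negSucc (nat_lit 1575742), .negSucc (nat_lit 2104368), .ofNat (nat_lit
 1656994), .negSucc (nat_lit 101813), .ofNat (nat_lit 605093), .negSucc (nat_lit 693586), .negSucc
 (nat_lit 1776918), .negSucc (nat_lit 169336), .ofNat (nat_lit 128791), .negSucc (nat_lit 718910),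
 .negSucc (nat_lit 53688), .ofNat (nat_lit 4066102), .ofNat (nat_lit 1615539)]), ((nat_lit 2,
 nat_lit 1, true), [.ofNat (nat_lit 2270871), .ofNat (nat_lit 784361), .negSucc (nat_lit 1893299),
 .negSucc (nat_lit 1049277), .negSucc (nat_lit 3651465), .ofNat (nat_lit 2958480), .negSucc
 (nat_lit 1230404), .ofNat (nat_lit 1285819), .negSucc (nat_lit 445260), .negSucc (nat_lit
 1557380), .negSucc (nat_lit 539999), .negSucc (nat_lit 11765), .negSucc (nat_lit 552696), .ofNat
 (nat_lit 331084), .ofNat (nat_lit 5532686), .ofNat (nat_lit 527807), .ofNat (nat_lit 3180108)]),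
 ((nat_lit 2, nat_lit 2, true), [.ofNat (nat_lit 1634482), .ofNat (nat_lit 1796405), .ofNat
 (nat_lit 388388), .ofNat (nat_lit 13645), .negSucc (nat_lit 943915), .ofNat (nat_lit 482988),
 .negSucc (nat_lit 249257), .negSucc (nat_lit 223221), .negSucc (nat_lit 1437425), .negSucc
 (nat_lit 1412653), .negSucc (nat_lit 235344), .ofNat (nat_lit 339307), .negSucc (nat_lit 752685),
 .ofNat (nat_lit 242539), .ofNat (nat_lit 6428539), .ofNat (nat_lit 4460025), .ofNat (nat_lit
 5008012), .ofNat (nat_lit 2026526)]), ((nat_lit 3, nat_lit 1, true), [.ofNat (nat_lit 1508670),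
 .ofNat (nat_lit 185162), .negSucc (nat_lit 2017509), .negSucc (nat_lit 2030173), .negSucc
 (nat_lit 1879514), .ofNat (nat_lit 3712347), .ofNat (nat_lit 103456), .ofNat (nat_lit 266551),
 .negSucc (nat_lit 739286), .negSucc (nat_lit 558606), .negSucc (nat_lit 1874139), .ofNat (nat_lit
 337308), .negSucc (nat_lit 763684), .ofNat (nat_lit 848871), .ofNat (nat_lit 2527474), .negSucc
 (nat_lit 574641), .negSucc (nat_lit 1143775), .ofNat (nat_lit 568957), .ofNat (nat_lit
 2873818)]), ((nat_lit 3, nat_lit 2, true), [.ofNat (nat_lit 2577483), .ofNat (nat_lit 645706),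
 .negSucc (nat_lit 3760601), .negSucc (nat_lit 4085777), .negSucc (nat_lit 4231526), .ofNat
 (nat_lit 6619497), .negSucc (nat_lit 448161), .ofNat (nat_lit 1517638), .negSucc (nat_lit
 433623), .negSucc (nat_lit 2367494), .negSucc (nat_lit 2719141), .negSucc (nat_lit 513782),
 .negSucc (nat_lit 1563976), .ofNat (nat_lit 914815), .ofNat (nat_lit 4300763), .negSucc (nat_lit
 953982), .negSucc (nat_lit 1792720), .negSucc (nat_lit 1156711), .ofNat (nat_lit 4239037), .ofNat
 (nat_lit 1035913)]), ((nat_lit 4, nat_lit 1, true), [.ofNat (nat_lit 1083835), .negSucc (nat_lit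
 5851), .negSucc (nat_lit 186317), .ofNat (nat_lit 32990), .negSucc (nat_lit 1920425), .ofNat
 (nat_lit 2299201), .negSucc (nat_lit 1286352), .ofNat (nat_lit 1039413), .negSucc (nat_lit
 304164), .negSucc (nat_lit 360461), .negSucc (nat_lit 892798), .negSucc (nat_lit 338635),
 .negSucc (nat_lit 970088), .ofNat (nat_lit 1350941), .ofNat (nat_lit 2870441), .ofNat (nat_lit
 140707), .ofNat (nat_lit 4430257), .ofNat (nat_lit 666311), .ofNat (nat_lit 1272010), .ofNat
 (nat_lit 582547), .ofNat (nat_lit 605960)]), ((nat_lit 4, nat_lit 2, true), [.ofNat (nat_lit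
 87697), .ofNat (nat_lit 402809), .ofNat (nat_lit 2029440), .ofNat (nat_lit 1508169), .ofNat
 (nat_lit 601681), .ofNat (nat_lit 179598), .negSucc (nat_lit 451151), .negSucc (nat_lit 459511),
 .negSucc (nat_lit 1036889), .ofNat (nat_lit 747823), .negSucc (nat_lit 596212), .negSucc (nat_lit
 55813), .negSucc (nat_lit 1030060), .ofNat (nat_lit 1394787), .ofNat (nat_lit 2516980), .ofNat
 (nat_lit 2569484), .ofNat (nat_lit 6226421), .ofNat (nat_lit 2704958), .ofNat (nat_lit 1314424),
 .ofNat (nat_lit 866478), .ofNat (nat_lit 699621), .ofNat (nat_lit 233780)])]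

/-- the commands -/
noncomputable def C12 : List Cmd := [.a (nat_lit 4) (nat_lit 25) B12_0, .a (nat_lit 4) (nat_lit
 25) B12_1]

theorem c_ok12 : okL 6 ES C12 = true := by decide +kernel

theorem t_ok12 : eqT (run (.ofNat (nat_lit 28)) (.ofNat (nat_lit 25)) XT DD C12 U11) U12 = true := by decide +kernel

end Pool.Agent.H58.BJ.D6
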