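import Pool.Agent.H58.BJ.D6.D

/-! # Certificate data (6 jets, exponent 28/25) -/

set_option autoImplicit false

namespace Pool.Agent.H58.BJ.D6

open Pool.Agent.H58.BJ

/-- result of the first 13 groups -/
noncomputable def U13 : Tr := (.nd (.nd (.nd (.nd (.nd (.nd (.nd .e (.nd (.nd (.nd (.nd (.nd (.nd
 (.nd (.nd .e (.nd (.lf (.ofNat (nat_lit 8296368531963875))) .e)) (.nd (.nd (.lf (.ofNat (nat_lit
 26622189189665112))) .e) .e)) (.nd (.nd (.nd (.lf (.negSucc (nat_lit 100542873963453))) .e) .e)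
 (.nd (.nd (.lf (.negSucc (nat_lit 13821682315192449))) .e) .e))) (.nd (.nd (.nd (.nd (.lf
 (.negSucc (nat_lit 16250219198349845))) .e) .e) (.nd (.nd (.lf (.negSucc (nat_lit
 621928376000699))) .e) .e)) (.nd (.nd (.nd (.lf (.ofNat (nat_lit 691590224954080))) .e) .e) .e)))
 (.nd (.nd (.nd (.nd (.nd (.lf (.negSucc (nat_lit 6437326930579615))) .e) .e) (.nd (.nd (.lf
 (.negSucc (nat_lit 7375723612522649))) .e) .e)) (.nd (.nd (.nd (.lf (.negSucc (nat_lit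
 9297725910361397))) .e) .e) .e)) (.nd (.nd (.nd (.nd (.lf (.ofNat (nat_lit 16130307431863664)))
 .e) .e) .e) (.nd (.nd (.nd (.lf (.ofNat (nat_lit 19188813700940400))) .e) .e) .e)))) (.nd (.nd
 (.nd (.nd (.nd (.nd (.lf (.negSucc (nat_lit 374425319739031))) .e) .e) .e) (.nd (.nd (.nd (.lf
 (.negSucc (nat_lit 6076402142246973))) .e) .e) .e)) (.nd (.nd (.nd (.nd (.lf (.negSucc (nat_lit
 8775486356471555))) .e) .e) .e) .e)) (.nd (.nd (.nd (.nd (.nd (.lf (.ofNat (nat_lit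
 4581513259424718))) .e) .e) .e) (.nd (.nd (.nd (.lf (.negSucc (nat_lit 12430215730108699))) .e)
 .e) .e)) (.nd (.nd (.nd (.nd (.lf (.ofNat (nat_lit 25386481952184020))) .e) .e) .e) (.nd (.nd
 (.nd (.lf (.negSucc (nat_lit 3565855908632599))) .e) .e) .e))))) (.nd (.nd (.nd (.nd (.nd (.nd
 (.nd (.lf (.ofNat (nat_lit 39817808076060))) .e) .e) .e) .e) (.nd (.nd (.nd (.nd (.lf (.ofNat
 (nat_lit 6096946646800444))) .e) .e) .e) (.nd (.nd (.nd (.lf (.negSucc (nat_lit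
 12644578370765899))) .e) .e) .e))) (.nd (.nd (.nd (.nd (.nd (.lf (.negSucc (nat_lit
 7536617530642495))) .e) .e) .e) (.nd (.nd (.nd (.lf (.ofNat (nat_lit 17759971707575700))) .e) .e)
 .e)) (.nd (.nd (.nd (.nd (.lf (.ofNat (nat_lit 734446159137600))) .e) .e) .e) .e))) (.nd (.nd
 (.nd (.nd (.nd (.nd (.lf (.ofNat (nat_lit 2132095604737592))) .e) .e) .e) .e) (.nd (.nd (.nd (.nd
 (.lf (.negSucc (nat_lit 9635364834428139))) .e) .e) .e) (.nd (.nd (.nd (.lf (.ofNat (nat_lit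
 5691782150021200))) .e) .e) .e))) (.nd (.nd (.nd (.nd (.nd (.lf (.ofNat (nat_lit
 14562635428047320))) .e) .e) .e) .e) (.nd (.nd (.nd (.nd (.lf (.negSucc (nat_lit
 4955799122752075))) .e) .e) .e) .e))))) .e)) (.nd (.nd (.nd (.nd (.nd (.nd (.nd (.nd .e (.nd (.nd
 (.lf (.ofNat (nat_lit 27413521673065410))) .e) .e)) (.nd (.nd (.nd (.lf (.ofNat (nat_lit
 23590981082890498))) .e) .e) .e)) (.nd (.nd (.nd (.nd (.lf (.negSucc (nat_lit
 15343143565614683))) .e) .e) .e) (.nd (.nd (.nd (.lf (.negSucc (nat_lit 1314832785292981))) .e)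
 .e) .e))) (.nd (.nd (.nd (.nd (.nd (.lf (.negSucc (nat_lit 13528712616813949))) .e) .e) .e) (.nd
 (.nd (.nd (.lf (.negSucc (nat_lit 11052914435557191))) .e) .e) .e)) (.nd (.nd (.nd (.nd (.lf
 (.ofNat (nat_lit 16697158824555234))) .e) .e) .e) (.nd (.nd (.nd (.lf (.ofNat (nat_lit
 21975216885070600))) .e) .e) .e)))) (.nd (.nd (.nd (.nd (.nd (.nd (.lf (.negSucc (nat_lit
 3116560913567511))) .e) .e) .e) (.nd (.nd (.nd (.lf (.negSucc (nat_lit 4485460121248283))) .e)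
 .e) .e)) (.nd (.nd (.nd (.nd (.lf (.negSucc (nat_lit 8892428182199683))) .e) .e) .e) .e)) (.nd
 (.nd (.nd (.nd (.nd (.lf (.ofNat (nat_lit 7346526449010082))) .e) .e) .e) (.nd (.nd (.nd (.lf
 (.negSucc (nat_lit 13006926236475359))) .e) .e) .e)) (.nd (.nd (.nd (.nd (.lf (.ofNat (nat_lit
 28829880240916090))) .e) .e) .e) (.nd (.nd (.nd (.lf (.negSucc (nat_lit 3553895211363011))) .e)
 .e) .e))))) (.nd (.nd (.nd (.nd (.nd (.nd (.nd (.lf (.negSucc (nat_lit 226289228852719))) .e) .e)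
 .e) .e) (.nd (.nd (.nd (.nd (.lf (.ofNat (nat_lit 7014607327559946))) .e) .e) .e) (.nd (.nd (.nd
 (.lf (.negSucc (nat_lit 12884125369754515))) .e) .e) .e))) (.nd (.nd (.nd (.nd (.nd (.lf
 (.negSucc (nat_lit 7668129078474597))) .e) .e) .e) (.nd (.nd (.nd (.lf (.ofNat (nat_lit
 17094025864210280))) .e) .e) .e)) (.nd (.nd (.nd (.nd (.lf (.ofNat (nat_lit 773583117494880)))
 .e) .e) .e) .e))) (.nd (.nd (.nd (.nd (.nd (.nd (.lf (.ofNat (nat_lit 2940753056068966))) .e) .e)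
 .e) .e) (.nd (.nd (.nd (.nd (.lf (.negSucc (nat_lit 10037674593364499))) .e) .e) .e) (.nd (.nd
 (.nd (.lf (.ofNat (nat_lit 5545602322429706))) .e) .e) .e))) (.nd (.nd (.nd (.nd (.nd (.lf
 (.ofNat (nat_lit 15550154445693980))) .e) .e) .e) .e) (.nd (.nd (.nd (.nd (.lf (.negSucc (nat_lit
 5640399366456307))) .e) .e) .e) .e))))) .e) .e)) (.nd (.nd (.nd (.nd (.nd (.nd (.nd (.nd .e (.nd
 (.nd (.nd (.lf (.ofNat (nat_lit 29042007931265924))) .e) .e) .e)) (.nd (.nd (.nd (.nd (.lf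
 (.ofNat (nat_lit 42369653206142836))) .e) .e) .e) .e)) (.nd (.nd (.nd (.nd (.nd (.lf (.ofNat
 (nat_lit 5392312483674238))) .e) .e) .e) .e) (.nd (.nd (.nd (.nd (.lf (.negSucc (nat_lit
 25349256674288835))) .e) .e) .e) .e))) (.nd (.nd (.nd (.nd (.nd (.nd (.lf (.negSucc (nat_lit
 3020892030271351))) .e) .e) .e) .e) (.nd (.nd (.nd (.nd (.lf (.ofNat (nat_lit
 16675514153326910))) .e) .e) .e) .e)) (.nd (.nd (.nd (.nd (.nd (.lf (.negSucc (nat_lit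
 8076865885843275))) .e) .e) .e) .e) (.nd (.nd (.nd (.nd (.lf (.negSucc (nat_lit
 44927385274603669))) .e) .e) .e) .e)))) (.nd (.nd (.nd (.nd (.nd (.nd (.nd (.lf (.negSucc
 (nat_lit 553333017733513))) .e) .e) .e) .e) (.nd (.nd (.nd (.nd (.lf (.negSucc (nat_lit
 12165817796872739))) .e) .e) .e) .e)) (.nd (.nd (.nd (.nd (.nd (.lf (.ofNat (nat_lit
 15093338729735692))) .e) .e) .e) .e) (.nd (.nd (.nd (.nd (.lf (.negSucc (nat_lit
 1380170850101903))) .e) .e) .e) .e))) (.nd (.nd (.nd (.nd (.nd (.nd (.lf (.negSucc (nat_lit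
 4687776724753807))) .e) .e) .e) .e) (.nd (.nd (.nd (.nd (.lf (.ofNat (nat_lit
 18686691635769060))) .e) .e) .e) .e)) (.nd (.nd (.nd (.nd (.nd (.lf (.negSucc (nat_lit
 26926717614497549))) .e) .e) .e) .e) (.nd (.nd (.nd (.nd (.lf (.ofNat (nat_lit
 10016427057096326))) .e) .e) .e) .e))))) .e) .e) (.nd (.nd (.nd (.nd (.nd (.nd (.nd (.nd .e (.nd
 (.nd (.lf (.negSucc (nat_lit 14155450774110305))) .e) .e)) (.nd (.nd (.nd (.lf (.ofNat (nat_lit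
 16322411317054536))) .e) .e) (.nd (.nd (.lf (.ofNat (nat_lit 23153108710262425))) .e) .e))) (.nd
 (.nd (.nd (.nd (.lf (.ofNat (nat_lit 19714667743026116))) .e) .e) (.nd (.nd (.lf (.negSucc
 (nat_lit 4842391625596649))) .e) .e)) (.nd (.nd (.nd (.lf (.ofNat (nat_lit 25000716244843894)))
 .e) .e) .e))) (.nd (.nd (.nd (.nd (.nd (.lf (.ofNat (nat_lit 2472101557914582))) .e) .e) (.nd
 (.nd (.lf (.ofNat (nat_lit 8849679883057300))) .e) .e)) (.nd (.nd (.nd (.lf (.ofNat (nat_lit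
 22175464539190090))) .e) .e) .e)) (.nd (.nd (.nd (.nd (.lf (.negSucc (nat_lit
 29449883638433575))) .e) .e) .e) (.nd (.nd (.nd (.lf (.negSucc (nat_lit 35352800915175099))) .e)
 .e) .e)))) (.nd (.nd (.nd (.nd (.nd (.nd (.lf (.negSucc (nat_lit 217888605428999))) .e) .e) .e)
 (.nd (.nd (.nd (.lf (.ofNat (nat_lit 12417497651414490))) .e) .e) .e)) (.nd (.nd (.nd (.nd (.lf
 (.ofNat (nat_lit 23723751698521482))) .e) .e) .e) .e)) (.nd (.nd (.nd (.nd (.nd (.lf (.negSucc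
 (nat_lit 13883605174665081))) .e) .e) .e) (.nd (.nd (.nd (.lf (.ofNat (nat_lit
 27044471816090600))) .e) .e) .e)) (.nd (.nd (.nd (.nd (.lf (.negSucc (nat_lit
 49122547080891069))) .e) .e) .e) (.nd (.nd (.nd (.lf (.ofNat (nat_lit 10424216395129500))) .e)
 .e) .e))))) (.nd (.nd (.nd (.nd (.nd (.nd (.nd (.lf (.ofNat (nat_lit 277926788403600))) .e) .e)
 .e) .e) (.nd (.nd (.nd (.nd (.lf (.negSucc (nat_lit 12061428978333183))) .e) .e) .e) (.nd (.nd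
 (.nd (.lf (.ofNat (nat_lit 25121267342221650))) .e) .e) .e))) (.nd (.nd (.nd (.nd (.nd (.lf
 (.ofNat (nat_lit 16647079297637068))) .e) .e) .e) (.nd (.nd (.nd (.lf (.negSucc (nat_lit
 37590689156693749))) .e) .e) .e)) (.nd (.nd (.nd (.nd (.lf (.negSucc (nat_lit 1300765913596799)))
 .e) .e) .e) .e))) (.nd (.nd (.nd (.nd (.nd (.nd (.lf (.negSucc (nat_lit 5919402806515759))) .e)
 .e) .e) .e) (.nd (.nd (.nd (.nd (.lf (.ofNat (nat_lit 20894548278595700))) .e) .e) .e) (.nd (.nd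
 (.nd (.lf (.negSucc (nat_lit 8532618150149699))) .e) .e) .e))) (.nd (.nd (.nd (.nd (.nd (.lf
 (.negSucc (nat_lit 30495821344099149))) .e) .e) .e) .e) (.nd (.nd (.nd (.nd (.lf (.ofNat (nat_lit
 11544619872915586))) .e) .e) .e) .e))))) .e) .e))) (.nd (.nd (.nd (.nd (.nd (.nd (.nd (.nd .e
 (.nd (.nd (.nd (.nd (.lf (.ofNat (nat_lit 35673605865158628))) .e) .e) .e) .e)) (.nd (.nd (.nd
 (.nd (.nd (.lf (.ofNat (nat_lit 37458775301443458))) .e) .e) .e) .e) .e)) (.nd (.nd (.nd (.nd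
 (.nd (.nd (.lf (.ofNat (nat_lit 8442279707985978))) .e) .e) .e) .e) .e) (.nd (.nd (.nd (.nd (.nd
 (.lf (.negSucc (nat_lit 15606002121341667))) .e) .e) .e) .e) .e))) (.nd (.nd (.nd (.nd (.nd (.nd
 (.nd (.lf (.ofNat (nat_lit 694033624116544))) .e) .e) .e) .e) .e) (.nd (.nd (.nd (.nd (.nd (.lf
 (.ofNat (nat_lit 21340494682488924))) .e) .e) .e) .e) .e)) (.nd (.nd (.nd (.nd (.nd (.nd (.lf
 (.negSucc (nat_lit 9442316712688403))) .e) .e) .e) .e) .e) (.nd (.nd (.nd (.nd (.nd (.lf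
 (.negSucc (nat_lit 39689646342460879))) .e) .e) .e) .e) .e)))) .e) .e) (.nd (.nd (.nd (.nd (.nd
 (.nd (.nd (.nd .e (.nd (.nd (.lf (.negSucc (nat_lit 3102417569158619))) .e) .e)) (.nd (.nd (.nd
 (.lf (.ofNat (nat_lit 889583265608492))) .e) .e) .e)) (.nd (.nd (.nd (.nd (.lf (.ofNat (nat_lit
 3594848375294348))) .e) .e) (.nd (.nd (.lf (.ofNat (nat_lit 26376184794633800))) .e) .e)) (.nd
 (.nd (.nd (.lf (.negSucc (nat_lit 944897513697907))) .e) .e) .e))) (.nd (.nd (.nd (.nd (.nd (.lf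
 (.negSucc (nat_lit 3948764903041585))) .e) .e) (.nd (.nd (.lf (.negSucc (nat_lit
 17808879387657499))) .e) .e)) (.nd (.nd (.nd (.lf (.ofNat (nat_lit 41953347525244210))) .e) .e)
 .e)) (.nd (.nd (.nd (.nd (.lf (.ofNat (nat_lit 299499186702064))) .e) .e) .e) (.nd (.nd (.nd (.lf
 (.negSucc (nat_lit 14842858179181499))) .e) .e) .e)))) (.nd (.nd (.nd (.nd (.nd (.nd (.lf
 (.negSucc (nat_lit 5393017456536403))) .e) .e) .e) (.nd (.nd (.nd (.lf (.negSucc (nat_lit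
 2650571503884777))) .e) .e) .e)) (.nd (.nd (.nd (.nd (.lf (.negSucc (nat_lit 5870834737037123)))
 .e) .e) .e) .e)) (.nd (.nd (.nd (.nd (.nd (.lf (.ofNat (nat_lit 556987009589356))) .e) .e) .e)
 (.nd (.nd (.nd (.lf (.ofNat (nat_lit 7248773662845500))) .e) .e) .e)) (.nd (.nd (.nd (.nd (.lf
 (.negSucc (nat_lit 10365663576222259))) .e) .e) .e) (.nd (.nd (.nd (.lf (.negSucc (nat_lit
 5816916268455349))) .e) .e) .e))))) (.nd (.nd (.nd (.nd (.nd (.nd (.nd (.lf (.negSucc (nat_lit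
 1022232887594427))) .e) .e) .e) .e) (.nd (.nd (.nd (.nd (.lf (.ofNat (nat_lit
 15039585124295230))) .e) .e) .e) (.nd (.nd (.nd (.lf (.negSucc (nat_lit 4880405986653049))) .e)
 .e) .e))) (.nd (.nd (.nd (.nd (.nd (.lf (.negSucc (nat_lit 10689026634807645))) .e) .e) .e) (.nd
 (.nd (.nd (.lf (.ofNat (nat_lit 18340621360428700))) .e) .e) .e)) (.nd (.nd (.nd (.nd (.lf
 (.ofNat (nat_lit 440517704793600))) .e) .e) .e) .e))) (.nd (.nd (.nd (.nd (.nd (.nd (.lf (.ofNat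
 (nat_lit 4869519062971220))) .e) .e) .e) .e) (.nd (.nd (.nd (.nd (.lf (.ofNat (nat_lit
 3923170568619290))) .e) .e) .e) (.nd (.nd (.nd (.lf (.ofNat (nat_lit 12287238891243050))) .e) .e)
 .e))) (.nd (.nd (.nd (.nd (.nd (.lf (.ofNat (nat_lit 3749607325664530))) .e) .e) .e) .e) (.nd
 (.nd (.nd (.nd (.lf (.negSucc (nat_lit 6358953726361039))) .e) .e) .e) .e))))) .e) .e)) (.nd (.nd
 (.nd (.nd (.nd (.nd (.nd (.nd .e (.nd (.nd (.nd (.lf (.negSucc (nat_lit 3303947057519571))) .e)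
 .e) .e)) (.nd (.nd (.nd (.nd (.lf (.negSucc (nat_lit 2699992443521703))) .e) .e) .e) (.nd (.nd
 (.nd (.lf (.ofNat (nat_lit 29414272095833998))) .e) .e) .e))) (.nd (.nd (.nd (.nd (.nd (.lf
 (.negSucc (nat_lit 4454986612525423))) .e) .e) .e) (.nd (.nd (.nd (.lf (.negSucc (nat_lit
 4694620944517049))) .e) .e) .e)) (.nd (.nd (.nd (.nd (.lf (.ofNat (nat_lit 30401443074359224)))
 .e) .e) .e) .e))) (.nd (.nd (.nd (.nd (.nd (.nd (.lf (.negSucc (nat_lit 4028118398597239))) .e)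
 .e) .e) (.nd (.nd (.nd (.lf (.negSucc (nat_lit 6566274227517717))) .e) .e) .e)) (.nd (.nd (.nd
 (.nd (.lf (.negSucc (nat_lit 3062545678999715))) .e) .e) .e) .e)) (.nd (.nd (.nd (.nd (.nd (.lf
 (.negSucc (nat_lit 4890153398727371))) .e) .e) .e) (.nd (.nd (.nd (.lf (.negSucc (nat_lit
 5868720821816883))) .e) .e) .e)) (.nd (.nd (.nd (.nd (.lf (.ofNat (nat_lit 12068101118588050)))
 .e) .e) .e) .e)))) (.nd (.nd (.nd (.nd (.nd (.nd (.nd (.lf (.negSucc (nat_lit 920524899585467)))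
 .e) .e) .e) .e) (.nd (.nd (.nd (.nd (.lf (.ofNat (nat_lit 6409188994749900))) .e) .e) .e) .e))
 (.nd (.nd (.nd (.nd (.nd (.lf (.negSucc (nat_lit 4250642069886171))) .e) .e) .e) (.nd (.nd (.nd
 (.lf (.ofNat (nat_lit 16034231641263568))) .e) .e) .e)) (.nd (.nd (.nd (.nd (.lf (.ofNat (nat_lit
 330809327622144))) .e) .e) .e) .e))) (.nd (.nd (.nd (.nd (.nd (.nd (.lf (.negSucc (nat_lit
 1171989982984861))) .e) .e) .e) .e) (.nd (.nd (.nd (.nd (.lf (.negSucc (nat_lit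
 4760774083896489))) .e) .e) .e) .e)) (.nd (.nd (.nd (.nd (.nd (.lf (.ofNat (nat_lit
 9894613391594670))) .e) .e) .e) .e) (.nd (.nd (.nd (.nd (.lf (.negSucc (nat_lit
 1150774895414587))) .e) .e) .e) .e))))) .e) .e) .e))) (.nd (.nd (.nd (.nd (.nd (.nd (.nd (.nd .e
 (.nd (.nd (.nd (.nd (.nd (.lf (.ofNat (nat_lit 20572320152122090))) .e) .e) .e) .e) .e)) (.nd
 (.nd (.nd (.nd (.nd (.nd (.lf (.ofNat (nat_lit 19592154058835254))) .e) .e) .e) .e) .e) .e)) (.nd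
 (.nd (.nd (.nd (.nd (.nd (.nd (.lf (.ofNat (nat_lit 3351761499248408))) .e) .e) .e) .e) .e) .e)
 (.nd (.nd (.nd (.nd (.nd (.nd (.lf (.negSucc (nat_lit 2978183890892685))) .e) .e) .e) .e) .e)
 .e))) .e) .e) (.nd (.nd (.nd (.nd (.nd (.nd (.nd (.nd .e (.nd (.nd (.lf (.negSucc (nat_lit
 9139344536730645))) .e) .e)) (.nd (.nd (.nd (.lf (.ofNat (nat_lit 15012255285234104))) .e) .e)
 .e)) (.nd (.nd (.nd (.nd (.lf (.ofNat (nat_lit 25879035400709520))) .e) .e) .e) (.nd (.nd (.nd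
 (.lf (.negSucc (nat_lit 9775738056362291))) .e) .e) .e))) (.nd (.nd (.nd (.nd (.nd (.lf (.ofNat
 (nat_lit 11569498325204724))) .e) .e) (.nd (.nd (.lf (.ofNat (nat_lit 48664374735090250))) .e)
 .e)) (.nd (.nd (.nd (.lf (.ofNat (nat_lit 18584747145980830))) .e) .e) .e)) (.nd (.nd (.nd (.nd
 (.lf (.negSucc (nat_lit 23802455279267411))) .e) .e) .e) (.nd (.nd (.nd (.lf (.negSucc (nat_lit
 42146787804353849))) .e) .e) .e)))) (.nd (.nd (.nd (.nd (.nd (.nd (.lf (.ofNat (nat_lit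
 2937915751306232))) .e) .e) .e) (.nd (.nd (.nd (.lf (.ofNat (nat_lit 37588556129876408))) .e) .e)
 .e)) (.nd (.nd (.nd (.nd (.lf (.ofNat (nat_lit 34219066158222548))) .e) .e) .e) .e)) (.nd (.nd
 (.nd (.nd (.nd (.lf (.negSucc (nat_lit 17452427633815355))) .e) .e) .e) (.nd (.nd (.nd (.lf
 (.ofNat (nat_lit 38388635322980150))) .e) .e) .e)) (.nd (.nd (.nd (.nd (.lf (.negSucc (nat_lit
 60514600113043209))) .e) .e) .e) (.nd (.nd (.nd (.lf (.ofNat (nat_lit 4611527905714050))) .e) .e)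
 .e))))) (.nd (.nd (.nd (.nd (.nd (.nd (.nd (.lf (.ofNat (nat_lit 266613536912068))) .e) .e) .e)
 .e) (.nd (.nd (.nd (.nd (.lf (.negSucc (nat_lit 47090693766898009))) .e) .e) .e) (.nd (.nd (.nd
 (.lf (.ofNat (nat_lit 52600663265348250))) .e) .e) .e))) (.nd (.nd (.nd (.nd (.nd (.lf (.ofNat
 (nat_lit 33716837107956590))) .e) .e) .e) (.nd (.nd (.nd (.lf (.negSucc (nat_lit
 65042767694736399))) .e) .e) .e)) (.nd (.nd (.nd (.nd (.lf (.negSucc (nat_lit 1727478381484799)))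
 .e) .e) .e) .e))) (.nd (.nd (.nd (.nd (.nd (.nd (.lf (.negSucc (nat_lit 18960216301354221))) .e)
 .e) .e) .e) (.nd (.nd (.nd (.nd (.lf (.ofNat (nat_lit 30912506354861850))) .e) .e) .e) (.nd (.nd
 (.nd (.lf (.negSucc (nat_lit 36501955603659999))) .e) .e) .e))) (.nd (.nd (.nd (.nd (.nd (.lf
 (.negSucc (nat_lit 45337779301549939))) .e) .e) .e) .e) (.nd (.nd (.nd (.nd (.lf (.ofNat (nat_lit
 24140194902205482))) .e) .e) .e) .e))))) .e) .e)) (.nd (.nd (.nd (.nd (.nd (.nd (.nd (.nd .e (.nd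
 (.nd (.nd (.lf (.ofNat (nat_lit 17792898194350710))) .e) .e) .e)) (.nd (.nd (.nd (.nd (.lf
 (.ofNat (nat_lit 29390938401629890))) .e) .e) .e) .e)) (.nd (.nd (.nd (.nd (.nd (.lf (.ofNat
 (nat_lit 11624938682135510))) .e) .e) .e) (.nd (.nd (.nd (.lf (.ofNat (nat_lit
 52031099189787795))) .e) .e) .e)) (.nd (.nd (.nd (.nd (.lf (.negSucc (nat_lit
 40854409307902441))) .e) .e) .e) .e))) (.nd (.nd (.nd (.nd (.nd (.nd (.lf (.ofNat (nat_lit
 2374053551670164))) .e) .e) .e) (.nd (.nd (.nd (.lf (.ofNat (nat_lit 9583325960139810))) .e) .e)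
 .e)) (.nd (.nd (.nd (.nd (.lf (.ofNat (nat_lit 65607330693508172))) .e) .e) .e) .e)) (.nd (.nd
 (.nd (.nd (.nd (.lf (.negSucc (nat_lit 17468515109090689))) .e) .e) .e) .e) (.nd (.nd (.nd (.nd
 (.lf (.negSucc (nat_lit 102745082918523929))) .e) .e) .e) .e)))) (.nd (.nd (.nd (.nd (.nd (.nd
 (.nd (.lf (.ofNat (nat_lit 451988517746656))) .e) .e) .e) .e) (.nd (.nd (.nd (.nd (.lf (.negSucc
 (nat_lit 18642491736237881))) .e) .e) .e) .e)) (.nd (.nd (.nd (.nd (.nd (.lf (.ofNat (nat_lit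
 27811639405082058))) .e) .e) .e) .e) (.nd (.nd (.nd (.nd (.lf (.negSucc (nat_lit
 2091777194291903))) .e) .e) .e) .e))) (.nd (.nd (.nd (.nd (.nd (.nd (.lf (.negSucc (nat_lit
 9163515326759639))) .e) .e) .e) .e) (.nd (.nd (.nd (.nd (.lf (.ofNat (nat_lit
 37954592860733300))) .e) .e) .e) .e)) (.nd (.nd (.nd (.nd (.nd (.lf (.negSucc (nat_lit
 52778456133922209))) .e) .e) .e) .e) (.nd (.nd (.nd (.nd (.lf (.ofNat (nat_lit
 10689715624602464))) .e) .e) .e) .e))))) .e) .e) .e)) (.nd (.nd (.nd (.nd (.nd (.nd (.nd (.nd .e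
 (.nd (.nd (.nd (.nd (.lf (.negSucc (nat_lit 32514186439592609))) .e) .e) .e) .e)) (.nd (.nd (.nd
 (.nd (.nd (.lf (.negSucc (nat_lit 6108970660866921))) .e) .e) .e) .e) (.nd (.nd (.nd (.nd (.lf
 (.ofNat (nat_lit 47437795053024891))) .e) .e) .e) .e))) (.nd (.nd (.nd (.nd (.nd (.nd (.lf
 (.negSucc (nat_lit 506199216947707))) .e) .e) .e) .e) (.nd (.nd (.nd (.nd (.lf (.negSucc (nat_lit
 40153818231839725))) .e) .e) .e) .e)) (.nd (.nd (.nd (.nd (.nd (.lf (.ofNat (nat_lit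
 42130964390305192))) .e) .e) .e) .e) .e))) (.nd (.nd (.nd (.nd (.nd (.nd (.nd (.lf (.negSucc
 (nat_lit 799257117312107))) .e) .e) .e) .e) (.nd (.nd (.nd (.nd (.lf (.ofNat (nat_lit
 21884959187386526))) .e) .e) .e) .e)) (.nd (.nd (.nd (.nd (.nd (.lf (.negSucc (nat_lit
 29971169568332167))) .e) .e) .e) .e) .e)) (.nd (.nd (.nd (.nd (.nd (.nd (.lf (.ofNat (nat_lit
 12576445793916400))) .e) .e) .e) .e) (.nd (.nd (.nd (.nd (.lf (.negSucc (nat_lit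
 36160354570500189))) .e) .e) .e) .e)) (.nd (.nd (.nd (.nd (.nd (.lf (.ofNat (nat_lit
 52525807924677350))) .e) .e) .e) .e) .e)))) .e) .e) .e) (.nd (.nd (.nd (.nd (.nd (.nd (.nd (.nd
 .e (.nd (.nd (.nd (.lf (.negSucc (nat_lit 34343322743059879))) .e) .e) .e)) (.nd (.nd (.nd (.nd
 (.lf (.negSucc (nat_lit 49924320521988079))) .e) .e) .e) (.nd (.nd (.nd (.lf (.ofNat (nat_lit
 6339259797865330))) .e) .e) .e))) (.nd (.nd (.nd (.nd (.nd (.lf (.negSucc (nat_lit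
 11470702562345759))) .e) .e) .e) (.nd (.nd (.nd (.lf (.negSucc (nat_lit 80291098876740119))) .e)
 .e) .e)) (.nd (.nd (.nd (.nd (.lf (.ofNat (nat_lit 66153403318162210))) .e) .e) .e) (.nd (.nd
 (.nd (.lf (.ofNat (nat_lit 78959825339952550))) .e) .e) .e)))) (.nd (.nd (.nd (.nd (.nd (.nd (.lf
 (.ofNat (nat_lit 728634548685780))) .e) .e) .e) (.nd (.nd (.nd (.lf (.negSucc (nat_lit
 16669159592206119))) .e) .e) .e)) (.nd (.nd (.nd (.nd (.lf (.negSucc (nat_lit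
 62793624396174169))) .e) .e) .e) .e)) (.nd (.nd (.nd (.nd (.nd (.lf (.ofNat (nat_lit
 27257028370459490))) .e) .e) .e) (.nd (.nd (.nd (.lf (.negSucc (nat_lit 82544984121723849))) .e)
 .e) .e)) (.nd (.nd (.nd (.nd (.lf (.ofNat (nat_lit 196525043312289500))) .e) .e) .e) .e)))) (.nd
 (.nd (.nd (.nd (.nd (.nd (.nd (.lf (.negSucc (nat_lit 258705575396079))) .e) .e) .e) .e) (.nd
 (.nd (.nd (.nd (.lf (.ofNat (nat_lit 37771661341471950))) .e) .e) .e) (.nd (.nd (.nd (.lf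
 (.negSucc (nat_lit 69265896139270649))) .e) .e) .e))) (.nd (.nd (.nd (.nd (.nd (.lf (.negSucc
 (nat_lit 43985990809262559))) .e) .e) .e) (.nd (.nd (.nd (.lf (.ofNat (nat_lit
 90143922307610750))) .e) .e) .e)) (.nd (.nd (.nd (.nd (.lf (.ofNat (nat_lit 5190740976143850)))
 .e) .e) .e) .e))) (.nd (.nd (.nd (.nd (.nd (.nd (.lf (.ofNat (nat_lit 15135343714439000))) .e)
 .e) .e) .e) (.nd (.nd (.nd (.nd (.lf (.negSucc (nat_lit 63755570416770299))) .e) .e) .e) (.nd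
 (.nd (.nd (.lf (.ofNat (nat_lit 12860230335639200))) .e) .e) .e))) (.nd (.nd (.nd (.nd (.nd (.lf
 (.ofNat (nat_lit 97432052798520600))) .e) .e) .e) .e) (.nd (.nd (.nd (.nd (.lf (.negSucc (nat_lit
 28818314298319969))) .e) .e) .e) .e))))) .e) .e) .e)))) (.nd (.nd (.nd (.nd (.nd (.nd (.nd (.nd
 .e (.nd (.nd (.nd (.nd (.nd (.nd (.lf (.ofNat (nat_lit 7245292245727398))) .e) .e) .e) .e) .e)
 .e)) (.nd (.nd (.nd (.nd (.nd (.nd (.nd (.lf (.ofNat (nat_lit 3598645808873556))) .e) .e) .e) .e)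
 .e) .e) .e)) .e) .e) .e) (.nd (.nd (.nd (.nd (.nd (.nd (.nd (.nd .e (.nd (.nd (.nd (.lf (.ofNat
 (nat_lit 10094424971523824))) .e) .e) .e)) (.nd (.nd (.nd (.nd (.lf (.ofNat (nat_lit
 9248284510066530))) .e) .e) .e) .e)) (.nd (.nd (.nd (.nd (.nd (.lf (.negSucc (nat_lit
 17758768627929))) .e) .e) .e) .e) (.nd (.nd (.nd (.nd (.lf (.negSucc (nat_lit
 14804295606457689))) .e) .e) .e) .e))) (.nd (.nd (.nd (.nd (.nd (.nd (.lf (.negSucc (nat_lit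
 692476657621867))) .e) .e) .e) (.nd (.nd (.nd (.lf (.ofNat (nat_lit 31117153950217877))) .e) .e)
 .e)) (.nd (.nd (.nd (.nd (.lf (.ofNat (nat_lit 9182581491943216))) .e) .e) .e) .e)) (.nd (.nd
 (.nd (.nd (.nd (.lf (.ofNat (nat_lit 5876856581364314))) .e) .e) .e) .e) (.nd (.nd (.nd (.nd (.lf
 (.negSucc (nat_lit 22217991315306009))) .e) .e) .e) .e)))) (.nd (.nd (.nd (.nd (.nd (.nd (.nd
 (.lf (.negSucc (nat_lit 18906916698501))) .e) .e) .e) .e) (.nd (.nd (.nd (.nd (.lf (.ofNat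
 (nat_lit 13613261743883038))) .e) .e) .e) .e)) (.nd (.nd (.nd (.nd (.nd (.lf (.ofNat (nat_lit
 7828866997895542))) .e) .e) .e) .e) (.nd (.nd (.nd (.nd (.lf (.negSucc (nat_lit
 725293154837663))) .e) .e) .e) .e))) (.nd (.nd (.nd (.nd (.nd (.nd (.lf (.ofNat (nat_lit
 1272668080014088))) .e) .e) .e) .e) (.nd (.nd (.nd (.nd (.lf (.ofNat (nat_lit 9942937451955900)))
 .e) .e) .e) .e)) (.nd (.nd (.nd (.nd (.nd (.lf (.negSucc (nat_lit 14768980760134499))) .e) .e)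
 .e) .e) (.nd (.nd (.nd (.nd (.lf (.ofNat (nat_lit 4661338431145174))) .e) .e) .e) .e))))) .e) .e)
 .e)) (.nd (.nd (.nd (.nd (.nd (.nd (.nd (.nd .e (.nd (.nd (.nd (.nd (.lf (.ofNat (nat_lit
 25459541447629758))) .e) .e) .e) .e)) (.nd (.nd (.nd (.nd (.nd (.lf (.ofNat (nat_lit
 14735603521103232))) .e) .e) .e) .e) .e)) (.nd (.nd (.nd (.nd (.nd (.nd (.lf (.ofNat (nat_lit
 8887688698926442))) .e) .e) .e) .e) (.nd (.nd (.nd (.nd (.lf (.ofNat (nat_lit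
 41048101605117683))) .e) .e) .e) .e)) (.nd (.nd (.nd (.nd (.nd (.lf (.negSucc (nat_lit
 16945931986405603))) .e) .e) .e) .e) .e))) (.nd (.nd (.nd (.nd (.nd (.nd (.nd (.lf (.ofNat
 (nat_lit 2552909019484276))) .e) .e) .e) .e) (.nd (.nd (.nd (.nd (.lf (.negSucc (nat_lit
 28864986671167341))) .e) .e) .e) .e)) (.nd (.nd (.nd (.nd (.nd (.lf (.ofNat (nat_lit
 44757459863127860))) .e) .e) .e) .e) .e)) (.nd (.nd (.nd (.nd (.nd (.nd (.lf (.negSucc (nat_lit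
 10656351589837683))) .e) .e) .e) .e) .e) (.nd (.nd (.nd (.nd (.nd (.lf (.negSucc (nat_lit
 52459919496551949))) .e) .e) .e) .e) .e)))) .e) .e) .e) .e)) (.nd (.nd (.nd (.nd (.nd (.nd (.nd
 (.nd .e (.nd (.nd (.nd (.nd (.nd (.lf (.negSucc (nat_lit 178629768165955))) .e) .e) .e) .e) .e))
 (.nd (.nd (.nd (.nd (.nd (.nd (.lf (.ofNat (nat_lit 6823067658062912))) .e) .e) .e) .e) .e) (.nd
 (.nd (.nd (.nd (.nd (.lf (.ofNat (nat_lit 24715063823422762))) .e) .e) .e) .e) .e))) (.nd (.nd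
 (.nd (.nd (.nd (.nd (.nd (.lf (.ofNat (nat_lit 2312880117510660))) .e) .e) .e) .e) .e) (.nd (.nd
 (.nd (.nd (.nd (.lf (.negSucc (nat_lit 11525709988630275))) .e) .e) .e) .e) .e)) (.nd (.nd (.nd
 (.nd (.nd (.nd (.lf (.ofNat (nat_lit 19294353741896324))) .e) .e) .e) .e) .e) .e))) .e) .e) .e)
 (.nd (.nd (.nd (.nd (.nd (.nd (.nd (.nd .e (.nd (.nd (.nd (.lf (.ofNat (nat_lit
 23968794732419734))) .e) .e) .e)) (.nd (.nd (.nd (.nd (.lf (.ofNat (nat_lit 32995425732227800)))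
 .e) .e) .e) .e)) (.nd (.nd (.nd (.nd (.nd (.lf (.ofNat (nat_lit 10215927398186764))) .e) .e) .e)
 (.nd (.nd (.nd (.lf (.ofNat (nat_lit 49275161847318494))) .e) .e) .e)) (.nd (.nd (.nd (.nd (.lf
 (.negSucc (nat_lit 47197819394273513))) .e) .e) .e) .e))) (.nd (.nd (.nd (.nd (.nd (.nd (.lf
 (.ofNat (nat_lit 3619810383481472))) .e) .e) .e) (.nd (.nd (.nd (.lf (.ofNat (nat_lit
 11683172835706344))) .e) .e) .e)) (.nd (.nd (.nd (.nd (.lf (.ofNat (nat_lit 40237190799772970)))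
 .e) .e) .e) .e)) (.nd (.nd (.nd (.nd (.nd (.lf (.negSucc (nat_lit 18021182847945749))) .e) .e)
 .e) (.nd (.nd (.nd (.lf (.ofNat (nat_lit 34945116986695450))) .e) .e) .e)) (.nd (.nd (.nd (.nd
 (.lf (.negSucc (nat_lit 110157780553138829))) .e) .e) .e) .e)))) (.nd (.nd (.nd (.nd (.nd (.nd
 (.nd (.lf (.ofNat (nat_lit 1645133554451720))) .e) .e) .e) .e) (.nd (.nd (.nd (.nd (.lf (.negSucc
 (nat_lit 33494911004779753))) .e) .e) .e) .e)) (.nd (.nd (.nd (.nd (.nd (.lf (.ofNat (nat_lit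
 31385427833198452))) .e) .e) .e) (.nd (.nd (.nd (.lf (.negSucc (nat_lit 64930308755294999))) .e)
 .e) .e)) (.nd (.nd (.nd (.nd (.lf (.negSucc (nat_lit 2015500703728499))) .e) .e) .e) .e))) (.nd
 (.nd (.nd (.nd (.nd (.nd (.lf (.negSucc (nat_lit 11282508778281015))) .e) .e) .e) .e) (.nd (.nd
 (.nd (.nd (.lf (.ofNat (nat_lit 51699554800484410))) .e) .e) .e) .e)) (.nd (.nd (.nd (.nd (.nd
 (.lf (.negSucc (nat_lit 62121445179422849))) .e) .e) .e) .e) (.nd (.nd (.nd (.nd (.lf (.ofNat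
 (nat_lit 18140793874426726))) .e) .e) .e) .e))))) .e) .e) .e)) (.nd (.nd (.nd (.nd (.nd (.nd (.nd
 (.nd .e (.nd (.nd (.nd (.nd (.lf (.negSucc (nat_lit 67434933562318749))) .e) .e) .e) .e)) (.nd
 (.nd (.nd (.nd (.nd (.lf (.negSucc (nat_lit 19177548895828109))) .e) .e) .e) .e) (.nd (.nd (.nd
 (.nd (.lf (.ofNat (nat_lit 88594390944172490))) .e) .e) .e) .e))) (.nd (.nd (.nd (.nd (.nd (.nd
 (.lf (.negSucc (nat_lit 575694297864759))) .e) .e) .e) .e) (.nd (.nd (.nd (.nd (.lf (.negSucc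
 (nat_lit 87602332656595839))) .e) .e) .e) .e)) (.nd (.nd (.nd (.nd (.nd (.lf (.ofNat (nat_lit
 34969960188562260))) .e) .e) .e) .e) (.nd (.nd (.nd (.nd (.lf (.ofNat (nat_lit
 130641211119829975))) .e) .e) .e) .e)))) (.nd (.nd (.nd (.nd (.nd (.nd (.nd (.lf (.negSucc
 (nat_lit 12401905821039))) .e) .e) .e) .e) (.nd (.nd (.nd (.nd (.lf (.ofNat (nat_lit
 56282671332562870))) .e) .e) .e) .e)) (.nd (.nd (.nd (.nd (.nd (.lf (.negSucc (nat_lit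
 61324114966826399))) .e) .e) .e) .e) (.nd (.nd (.nd (.nd (.lf (.ofNat (nat_lit
 5233197187723680))) .e) .e) .e) .e))) (.nd (.nd (.nd (.nd (.nd (.nd (.lf (.ofNat (nat_lit
 22558432213807200))) .e) .e) .e) .e) (.nd (.nd (.nd (.nd (.lf (.negSucc (nat_lit
 84688294814004499))) .e) .e) .e) .e)) (.nd (.nd (.nd (.nd (.nd (.lf (.ofNat (nat_lit
 136477121279809000))) .e) .e) .e) .e) .e)))) .e) .e) .e) (.nd (.nd (.nd (.nd (.nd (.nd (.nd (.nd
 .e (.nd (.nd (.nd (.lf (.ofNat (nat_lit 4004254035805716))) .e) .e) .e)) (.nd (.nd (.nd (.nd (.lf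
 (.ofNat (nat_lit 4310564945876404))) .e) .e) .e) (.nd (.nd (.nd (.lf (.negSucc (nat_lit
 3331666575193697))) .e) .e) .e))) (.nd (.nd (.nd (.nd (.nd (.lf (.ofNat (nat_lit
 1170926960978038))) .e) .e) .e) (.nd (.nd (.nd (.lf (.ofNat (nat_lit 6196024290001942))) .e) .e)
 .e)) (.nd (.nd (.nd (.nd (.lf (.negSucc (nat_lit 9580116256126343))) .e) .e) .e) (.nd (.nd (.nd
 (.lf (.negSucc (nat_lit 16381818686249299))) .e) .e) .e)))) (.nd (.nd (.nd (.nd (.nd (.nd (.lf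
 (.ofNat (nat_lit 1409179845231742))) .e) .e) .e) (.nd (.nd (.nd (.lf (.negSucc (nat_lit
 2349733385868941))) .e) .e) .e)) (.nd (.nd (.nd (.nd (.lf (.ofNat (nat_lit 15615195727510412)))
 .e) .e) .e) .e)) (.nd (.nd (.nd (.nd (.nd (.lf (.ofNat (nat_lit 3432089158846834))) .e) .e) .e)
 (.nd (.nd (.nd (.lf (.ofNat (nat_lit 12994144978134200))) .e) .e) .e)) (.nd (.nd (.nd (.nd (.lf
 (.negSucc (nat_lit 21625931398966089))) .e) .e) .e) (.nd (.nd (.nd (.lf (.ofNat (nat_lit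
 30309327306637375))) .e) .e) .e))))) (.nd (.nd (.nd (.nd (.nd (.nd (.nd (.lf (.ofNat (nat_lit
 587932613329840))) .e) .e) .e) .e) (.nd (.nd (.nd (.nd (.lf (.negSucc (nat_lit
 10156421154137547))) .e) .e) .e) (.nd (.nd (.nd (.lf (.ofNat (nat_lit 10782310597614550))) .e)
 .e) .e))) (.nd (.nd (.nd (.nd (.nd (.lf (.ofNat (nat_lit 10391954461896220))) .e) .e) .e) (.nd
 (.nd (.nd (.lf (.negSucc (nat_lit 15756075565786349))) .e) .e) .e)) (.nd (.nd (.nd (.nd (.lf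
 (.ofNat (nat_lit 277225977014100))) .e) .e) .e) .e))) (.nd (.nd (.nd (.nd (.nd (.nd (.lf
 (.negSucc (nat_lit 290797271654457))) .e) .e) .e) .e) (.nd (.nd (.nd (.nd (.lf (.ofNat (nat_lit
 10986815807268640))) .e) .e) .e) (.nd (.nd (.nd (.lf (.negSucc (nat_lit 4105466319679099))) .e)
 .e) .e))) (.nd (.nd (.nd (.nd (.nd (.lf (.negSucc (nat_lit 13180853425332759))) .e) .e) .e) .e)
 (.nd (.nd (.nd (.nd (.lf (.ofNat (nat_lit 32232662343398178))) .e) .e) .e) .e))))) .e) .e)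
 .e))))) (.nd (.nd (.nd (.nd (.nd (.nd (.nd (.nd .e (.nd (.nd (.nd (.nd (.nd (.nd (.nd (.lf
 (.ofNat (nat_lit 1015767783853316))) .e) .e) .e) .e) .e) .e) .e)) .e) .e) .e) .e) (.nd (.nd (.nd
 (.nd (.nd (.nd (.nd (.nd .e (.nd (.nd (.nd (.nd (.lf (.negSucc (nat_lit 21491252651740005))) .e)
 .e) .e) .e)) (.nd (.nd (.nd (.nd (.nd (.lf (.negSucc (nat_lit 11909352825207705))) .e) .e) .e)
 .e) .e)) (.nd (.nd (.nd (.nd (.nd (.nd (.lf (.negSucc (nat_lit 3674017520508817))) .e) .e) .e)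
 .e) .e) (.nd (.nd (.nd (.nd (.nd (.lf (.ofNat (nat_lit 18499009640513678))) .e) .e) .e) .e) .e)))
 (.nd (.nd (.nd (.nd (.nd (.nd (.nd (.lf (.ofNat (nat_lit 84030777621648))) .e) .e) .e) .e) (.nd
 (.nd (.nd (.nd (.lf (.ofNat (nat_lit 32949235164949537))) .e) .e) .e) .e)) (.nd (.nd (.nd (.nd
 (.nd (.lf (.negSucc (nat_lit 28220740573583859))) .e) .e) .e) .e) .e)) (.nd (.nd (.nd (.nd (.nd
 (.nd (.lf (.ofNat (nat_lit 21471717268225216))) .e) .e) .e) .e) .e) (.nd (.nd (.nd (.nd (.nd (.lf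
 (.ofNat (nat_lit 43459186174473590))) .e) .e) .e) .e) .e)))) .e) .e) .e) (.nd (.nd (.nd (.nd (.nd
 (.nd (.nd (.nd .e (.nd (.nd (.nd (.lf (.ofNat (nat_lit 25873796165875368))) .e) .e) .e)) (.nd
 (.nd (.nd (.nd (.lf (.ofNat (nat_lit 35929570642362854))) .e) .e) .e) (.nd (.nd (.nd (.lf
 (.negSucc (nat_lit 10227737442371933))) .e) .e) .e))) (.nd (.nd (.nd (.nd (.nd (.lf (.ofNat
 (nat_lit 11769108164947780))) .e) .e) .e) (.nd (.nd (.nd (.lf (.ofNat (nat_lit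
 35722765157591676))) .e) .e) .e)) (.nd (.nd (.nd (.nd (.lf (.negSucc (nat_lit
 45849435125653795))) .e) .e) .e) .e))) (.nd (.nd (.nd (.nd (.nd (.nd (.lf (.ofNat (nat_lit
 3508082198490340))) .e) .e) .e) (.nd (.nd (.nd (.lf (.ofNat (nat_lit 13248352414242150))) .e) .e)
 .e)) (.nd (.nd (.nd (.nd (.lf (.ofNat (nat_lit 41959704791385154))) .e) .e) .e) .e)) (.nd (.nd
 (.nd (.nd (.nd (.lf (.negSucc (nat_lit 16284524520972473))) .e) .e) .e) (.nd (.nd (.nd (.lf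
 (.ofNat (nat_lit 50511327031226700))) .e) .e) .e)) (.nd (.nd (.nd (.nd (.lf (.negSucc (nat_lit
 94563312434377919))) .e) .e) .e) .e)))) (.nd (.nd (.nd (.nd (.nd (.nd (.nd (.lf (.ofNat (nat_lit
 1289253164560488))) .e) .e) .e) .e) (.nd (.nd (.nd (.nd (.lf (.negSucc (nat_lit
 45799818043590705))) .e) .e) .e) (.nd (.nd (.nd (.lf (.ofNat (nat_lit 36870946071855875))) .e)
 .e) .e))) (.nd (.nd (.nd (.nd (.nd (.lf (.ofNat (nat_lit 41286749727462778))) .e) .e) .e) (.nd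
 (.nd (.nd (.lf (.negSucc (nat_lit 78668370675110999))) .e) .e) .e)) (.nd (.nd (.nd (.nd (.lf
 (.negSucc (nat_lit 2568979605907349))) .e) .e) .e) .e))) (.nd (.nd (.nd (.nd (.nd (.nd (.lf
 (.negSucc (nat_lit 14222555264993201))) .e) .e) .e) .e) (.nd (.nd (.nd (.nd (.lf (.ofNat (nat_lit
 40315132886733360))) .e) .e) .e) .e)) (.nd (.nd (.nd (.nd (.nd (.lf (.negSucc (nat_lit
 61415325927255569))) .e) .e) .e) .e) (.nd (.nd (.nd (.nd (.lf (.ofNat (nat_lit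
 28059421934411746))) .e) .e) .e) .e))))) .e) .e) .e))) (.nd (.nd (.nd (.nd (.nd (.nd (.nd (.nd .e
 (.nd (.nd (.nd (.nd (.nd (.lf (.ofNat (nat_lit 9063219895511998))) .e) .e) .e) .e) .e)) (.nd (.nd
 (.nd (.nd (.nd (.nd (.lf (.ofNat (nat_lit 4956021696784998))) .e) .e) .e) .e) .e) .e)) (.nd (.nd
 (.nd (.nd (.nd (.nd (.nd (.lf (.ofNat (nat_lit 1791325088522142))) .e) .e) .e) .e) .e) (.nd (.nd
 (.nd (.nd (.nd (.lf (.ofNat (nat_lit 16914211172537896))) .e) .e) .e) .e) .e)) (.nd (.nd (.nd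
 (.nd (.nd (.nd (.lf (.negSucc (nat_lit 8532797246236245))) .e) .e) .e) .e) .e) .e))) .e) .e) .e)
 (.nd (.nd (.nd (.nd (.nd (.nd (.nd (.nd .e (.nd (.nd (.nd (.lf (.negSucc (nat_lit
 34142577874196217))) .e) .e) .e)) (.nd (.nd (.nd (.nd (.lf (.negSucc (nat_lit
 47625377164528329))) .e) .e) .e) .e)) (.nd (.nd (.nd (.nd (.nd (.lf (.negSucc (nat_lit
 18131291696352187))) .e) .e) .e) (.nd (.nd (.nd (.lf (.negSucc (nat_lit 51452473071669467))) .e)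
 .e) .e)) (.nd (.nd (.nd (.nd (.lf (.ofNat (nat_lit 61180365596374738))) .e) .e) .e) .e))) (.nd
 (.nd (.nd (.nd (.nd (.nd (.lf (.negSucc (nat_lit 4500329267973663))) .e) .e) .e) (.nd (.nd (.nd
 (.lf (.negSucc (nat_lit 24988307062726727))) .e) .e) .e)) (.nd (.nd (.nd (.nd (.lf (.negSucc
 (nat_lit 61572588640895349))) .e) .e) .e) .e)) (.nd (.nd (.nd (.nd (.nd (.lf (.ofNat (nat_lit
 19211868022273670))) .e) .e) .e) .e) (.nd (.nd (.nd (.nd (.lf (.ofNat (nat_lit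
 129207148172155560))) .e) .e) .e) .e)))) (.nd (.nd (.nd (.nd (.nd (.nd (.nd (.lf (.negSucc
 (nat_lit 23834980983799))) .e) .e) .e) .e) (.nd (.nd (.nd (.nd (.lf (.ofNat (nat_lit
 65443204233630108))) .e) .e) .e) .e)) (.nd (.nd (.nd (.nd (.nd (.lf (.negSucc (nat_lit
 52186003999989343))) .e) .e) .e) (.nd (.nd (.nd (.lf (.ofNat (nat_lit 69850559836625175))) .e)
 .e) .e)) (.nd (.nd (.nd (.nd (.lf (.ofNat (nat_lit 4923333454079700))) .e) .e) .e) .e))) (.nd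
 (.nd (.nd (.nd (.nd (.nd (.lf (.ofNat (nat_lit 23602854346828652))) .e) .e) .e) .e) (.nd (.nd
 (.nd (.nd (.lf (.negSucc (nat_lit 53385887160007919))) .e) .e) .e) .e)) (.nd (.nd (.nd (.nd (.nd
 (.lf (.ofNat (nat_lit 91262462815885750))) .e) .e) .e) .e) (.nd (.nd (.nd (.nd (.lf (.negSucc
 (nat_lit 36413259710164791))) .e) .e) .e) .e))))) .e) .e) .e)) (.nd (.nd (.nd (.nd (.nd (.nd (.nd
 (.nd .e (.nd (.nd (.nd (.nd (.lf (.negSucc (nat_lit 1739710763935199))) .e) .e) .e) .e)) (.nd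
 (.nd (.nd (.nd (.nd (.lf (.negSucc (nat_lit 569417056704383))) .e) .e) .e) .e) (.nd (.nd (.nd
 (.nd (.lf (.ofNat (nat_lit 2759948605842624))) .e) .e) .e) .e))) (.nd (.nd (.nd (.nd (.nd (.nd
 (.lf (.negSucc (nat_lit 307165166771231))) .e) .e) .e) .e) (.nd (.nd (.nd (.nd (.lf (.negSucc
 (nat_lit 3134525850025919))) .e) .e) .e) .e)) (.nd (.nd (.nd (.nd (.nd (.lf (.ofNat (nat_lit
 365118140459520))) .e) .e) .e) .e) .e))) (.nd (.nd (.nd (.nd (.nd (.nd (.nd (.lf (.negSucc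
 (nat_lit 36476483924159))) .e) .e) .e) .e) (.nd (.nd (.nd (.nd (.lf (.ofNat (nat_lit
 1454058770308704))) .e) .e) .e) .e)) (.nd (.nd (.nd (.nd (.nd (.lf (.negSucc (nat_lit
 2442314171287871))) .e) .e) .e) .e) (.nd (.nd (.nd (.nd (.lf (.ofNat (nat_lit 900615731415525)))
 .e) .e) .e) .e))) (.nd (.nd (.nd (.nd (.nd (.nd (.lf (.ofNat (nat_lit 217544447667456))) .e) .e)
 .e) .e) (.nd (.nd (.nd (.nd (.lf (.negSucc (nat_lit 1695072459958559))) .e) .e) .e) .e)) (.nd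
 (.nd (.nd (.nd (.nd (.lf (.ofNat (nat_lit 3106902579681600))) .e) .e) .e) .e) .e)))) .e) .e) .e)
 .e))) (.nd (.nd (.nd (.nd (.nd (.nd (.nd (.nd .e (.nd (.nd (.nd (.nd (.nd (.nd (.lf (.ofNat
 (nat_lit 2540687385426564))) .e) .e) .e) .e) .e) .e)) (.nd (.nd (.nd (.nd (.nd (.nd (.nd (.lf
 (.ofNat (nat_lit 1662305717189914))) .e) .e) .e) .e) .e) .e) (.nd (.nd (.nd (.nd (.nd (.nd (.lf
 (.ofNat (nat_lit 6753191174203825))) .e) .e) .e) .e) .e) .e))) .e) .e) .e) .e) (.nd (.nd (.nd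
 (.nd (.nd (.nd (.nd (.nd .e (.nd (.nd (.nd (.nd (.lf (.ofNat (nat_lit 26026587232480490))) .e)
 .e) .e) .e)) (.nd (.nd (.nd (.nd (.nd (.lf (.ofNat (nat_lit 8040885840174780))) .e) .e) .e) .e)
 .e)) (.nd (.nd (.nd (.nd (.nd (.nd (.lf (.ofNat (nat_lit 2331992521769640))) .e) .e) .e) .e) (.nd
 (.nd (.nd (.nd (.lf (.ofNat (nat_lit 31431614721644120))) .e) .e) .e) .e)) (.nd (.nd (.nd (.nd
 (.nd (.lf (.negSucc (nat_lit 14581337553455269))) .e) .e) .e) .e) .e))) (.nd (.nd (.nd (.nd (.nd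
 (.nd (.nd (.lf (.ofNat (nat_lit 1033821830521300))) .e) .e) .e) .e) (.nd (.nd (.nd (.nd (.lf
 (.negSucc (nat_lit 27612539806596579))) .e) .e) .e) .e)) (.nd (.nd (.nd (.nd (.nd (.lf (.ofNat
 (nat_lit 24853779962122450))) .e) .e) .e) .e) .e)) (.nd (.nd (.nd (.nd (.nd (.nd (.lf (.negSucc
 (nat_lit 9832601667533079))) .e) .e) .e) .e) (.nd (.nd (.nd (.nd (.lf (.ofNat (nat_lit
 19943323178515625))) .e) .e) .e) .e)) (.nd (.nd (.nd (.nd (.nd (.lf (.negSucc (nat_lit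
 48456485382070199))) .e) .e) .e) .e) .e)))) .e) .e) .e) (.nd (.nd (.nd (.nd (.nd (.nd (.nd (.nd
 .e (.nd (.nd (.nd (.lf (.negSucc (nat_lit 8683566652376757))) .e) .e) .e)) (.nd (.nd (.nd (.nd
 (.lf (.negSucc (nat_lit 11272022921576245))) .e) .e) .e) (.nd (.nd (.nd (.lf (.ofNat (nat_lit
 6869974726014090))) .e) .e) .e))) (.nd (.nd (.nd (.nd (.nd (.lf (.negSucc (nat_lit
 4168852196225665))) .e) .e) .e) (.nd (.nd (.nd (.lf (.negSucc (nat_lit 5172231808911987))) .e)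
 .e) .e)) (.nd (.nd (.nd (.nd (.lf (.ofNat (nat_lit 10659457964254650))) .e) .e) .e) .e))) (.nd
 (.nd (.nd (.nd (.nd (.nd (.lf (.negSucc (nat_lit 1629370669278707))) .e) .e) .e) (.nd (.nd (.nd
 (.lf (.negSucc (nat_lit 2520851193722747))) .e) .e) .e)) (.nd (.nd (.nd (.nd (.lf (.negSucc
 (nat_lit 15055620534254191))) .e) .e) .e) .e)) (.nd (.nd (.nd (.nd (.nd (.lf (.ofNat (nat_lit
 2052283166641294))) .e) .e) .e) (.nd (.nd (.nd (.lf (.negSucc (nat_lit 15730836752420549))) .e)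
 .e) .e)) (.nd (.nd (.nd (.nd (.lf (.ofNat (nat_lit 23274550443909760))) .e) .e) .e) .e)))) (.nd
 (.nd (.nd (.nd (.nd (.nd (.nd (.lf (.ofNat (nat_lit 8531687885704))) .e) .e) .e) .e) (.nd (.nd
 (.nd (.nd (.lf (.ofNat (nat_lit 46381191076254582))) .e) .e) .e) (.nd (.nd (.nd (.lf (.negSucc
 (nat_lit 30634117336040249))) .e) .e) .e))) (.nd (.nd (.nd (.nd (.nd (.lf (.negSucc (nat_lit
 18897192586300713))) .e) .e) .e) (.nd (.nd (.nd (.lf (.ofNat (nat_lit 49120535873079750))) .e)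
 .e) .e)) (.nd (.nd (.nd (.nd (.lf (.ofNat (nat_lit 1465599098451150))) .e) .e) .e) .e))) (.nd
 (.nd (.nd (.nd (.nd (.nd (.lf (.ofNat (nat_lit 11089815352612710))) .e) .e) .e) .e) (.nd (.nd
 (.nd (.nd (.lf (.negSucc (nat_lit 13261514122723679))) .e) .e) .e) (.nd (.nd (.nd (.lf (.ofNat
 (nat_lit 28455433254470250))) .e) .e) .e))) (.nd (.nd (.nd (.nd (.nd (.lf (.ofNat (nat_lit
 25297209539441380))) .e) .e) .e) .e) (.nd (.nd (.nd (.nd (.lf (.negSucc (nat_lit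
 15051793093786863))) .e) .e) .e) .e))))) .e) .e) .e))) (.nd (.nd (.nd (.nd (.nd (.nd (.nd (.nd .e
 (.nd (.nd (.nd (.nd (.nd (.lf (.negSucc (nat_lit 13945727021321159))) .e) .e) .e) .e) .e)) (.nd
 (.nd (.nd (.nd (.nd (.nd (.lf (.negSucc (nat_lit 2664087685014739))) .e) .e) .e) .e) .e) (.nd
 (.nd (.nd (.nd (.nd (.lf (.ofNat (nat_lit 18703199972999070))) .e) .e) .e) .e) .e))) (.nd (.nd
 (.nd (.nd (.nd (.nd (.nd (.lf (.negSucc (nat_lit 175904574730119))) .e) .e) .e) .e) .e) (.nd (.nd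
 (.nd (.nd (.nd (.lf (.negSucc (nat_lit 39965068359529379))) .e) .e) .e) .e) .e)) (.nd (.nd (.nd
 (.nd (.nd (.nd (.lf (.ofNat (nat_lit 15862424393795820))) .e) .e) .e) .e) .e) (.nd (.nd (.nd (.nd
 (.nd (.lf (.ofNat (nat_lit 40415276643081300))) .e) .e) .e) .e) .e)))) .e) .e) .e) .e) (.nd (.nd
 (.nd (.nd (.nd (.nd (.nd (.nd .e (.nd (.nd (.nd (.nd (.lf (.ofNat (nat_lit 13353187297468760)))
 .e) .e) .e) .e)) (.nd (.nd (.nd (.nd (.nd (.lf (.ofNat (nat_lit 3019423396847996))) .e) .e) .e)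
 .e) (.nd (.nd (.nd (.nd (.lf (.negSucc (nat_lit 20067700203306659))) .e) .e) .e) .e))) (.nd (.nd
 (.nd (.nd (.nd (.nd (.lf (.ofNat (nat_lit 1643045043759074))) .e) .e) .e) .e) (.nd (.nd (.nd (.nd
 (.lf (.ofNat (nat_lit 23317366705217592))) .e) .e) .e) .e)) (.nd (.nd (.nd (.nd (.nd (.lf
 (.negSucc (nat_lit 5540871454418551))) .e) .e) .e) .e) (.nd (.nd (.nd (.nd (.lf (.negSucc
 (nat_lit 35568206573123149))) .e) .e) .e) .e)))) (.nd (.nd (.nd (.nd (.nd (.nd (.nd (.lf (.ofNat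
 (nat_lit 1113085231267632))) .e) .e) .e) .e) (.nd (.nd (.nd (.nd (.lf (.negSucc (nat_lit
 19654496494125029))) .e) .e) .e) .e)) (.nd (.nd (.nd (.nd (.nd (.lf (.ofNat (nat_lit
 23474624650279244))) .e) .e) .e) .e) (.nd (.nd (.nd (.nd (.lf (.negSucc (nat_lit
 2657611300762655))) .e) .e) .e) .e))) (.nd (.nd (.nd (.nd (.nd (.nd (.lf (.negSucc (nat_lit
 3079555771572069))) .e) .e) .e) .e) (.nd (.nd (.nd (.nd (.lf (.ofNat (nat_lit
 15832507907152130))) .e) .e) .e) .e)) (.nd (.nd (.nd (.nd (.nd (.lf (.negSucc (nat_lit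
 24309639084078669))) .e) .e) .e) .e) (.nd (.nd (.nd (.nd (.lf (.ofNat (nat_lit
 22172206204951534))) .e) .e) .e) .e))))) .e) .e) .e) .e)))))

end Pool.Agent.H58.BJ.D6
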