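import Pool.Agent.H58.BJ.D6.U12
import Pool.Agent.H58.BJ.D6.U13

/-! # Certificate data (6 jets, exponent 28/25) -/

set_option autoImplicit false

namespace Pool.Agent.H58.BJ.D6

open Pool.Agent.H58.BJ

/-- rows of a block -/
noncomputable def B13_0 : List (Row × List ℤ) := [((nat_lit 1, nat_lit 1, false), [.ofNat (nat_lit
 15725569)]), ((nat_lit 1, nat_lit 2, false), [.ofNat (nat_lit 10097080), .ofNat (nat_lit
 10099002)]), ((nat_lit 1, nat_lit 3, false), [.ofNat (nat_lit 9718337), .negSucc (nat_lit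
 1673957), .ofNat (nat_lit 9912907)]), ((nat_lit 1, nat_lit 4, false), [.ofNat (nat_lit 1827469),
 .ofNat (nat_lit 8369365), .ofNat (nat_lit 111314), .ofNat (nat_lit 9209367)]), ((nat_lit 2,
 nat_lit 1, false), [.ofNat (nat_lit 28073955), .negSucc (nat_lit 2974647), .negSucc (nat_lit
 2167662), .ofNat (nat_lit 491576), .ofNat (nat_lit 9238014)]), ((nat_lit 2, nat_lit 2, false),
 [.negSucc (nat_lit 28409092), .ofNat (nat_lit 17388907), .ofNat (nat_lit 3538932), .negSucc
 (nat_lit 6853303), .ofNat (nat_lit 8668582), .ofNat (nat_lit 15672850)]), ((nat_lit 2, nat_lit 3,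
 false), [.ofNat (nat_lit 25491736), .negSucc (nat_lit 4727932), .ofNat (nat_lit 14450264), .ofNat
 (nat_lit 3652088), .ofNat (nat_lit 6461752), .negSucc (nat_lit 5759632), .ofNat (nat_lit
 12642802)]), ((nat_lit 2, nat_lit 4, false), [.ofNat (nat_lit 4739337), .ofNat (nat_lit 2920665),
 .ofNat (nat_lit 889822), .ofNat (nat_lit 17479254), .ofNat (nat_lit 1862760), .ofNat (nat_lit
 8028159), .negSucc (nat_lit 809835), .ofNat (nat_lit 13515505)]), ((nat_lit 3, nat_lit 1, false),
 [.ofNat (nat_lit 4842399), .ofNat (nat_lit 601558), .negSucc (nat_lit 239978), .negSucc (nat_lit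
 3268523), .negSucc (nat_lit 2339216), .ofNat (nat_lit 1416744), .negSucc (nat_lit 1024900),
 .ofNat (nat_lit 845026), .ofNat (nat_lit 8664069)]), ((nat_lit 3, nat_lit 2, false), [.ofNat
 (nat_lit 7916775), .ofNat (nat_lit 4155410), .negSucc (nat_lit 2728027), .negSucc (nat_lit
 3295348), .negSucc (nat_lit 2327449), .negSucc (nat_lit 631856), .negSucc (nat_lit 527236),
 .ofNat (nat_lit 189241), .ofNat (nat_lit 16466846), .ofNat (nat_lit 11383063)]), ((nat_lit 3,
 nat_lit 3, false), [.ofNat (nat_lit 14601806), .negSucc (nat_lit 3672486), .ofNat (nat_lit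
 4019222), .negSucc (nat_lit 2076052), .ofNat (nat_lit 2846557), .negSucc (nat_lit 6277213),
 .negSucc (nat_lit 5193388), .ofNat (nat_lit 6873797), .ofNat (nat_lit 6302653), .negSucc (nat_lit
 5715412), .ofNat (nat_lit 12581352)]), ((nat_lit 3, nat_lit 4, false), [.ofNat (nat_lit 7688650),
 .ofNat (nat_lit 2827806), .negSucc (nat_lit 2202687), .ofNat (nat_lit 2405036), .ofNat (nat_lit
 1360269), .negSucc (nat_lit 4262138), .ofNat (nat_lit 1492129), .negSucc (nat_lit 1365803),
 .ofNat (nat_lit 7888297), .ofNat (nat_lit 13971716), .ofNat (nat_lit 3177084), .ofNat (nat_lit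
 7625956)]), ((nat_lit 4, nat_lit 1, false), [.negSucc (nat_lit 4206749), .negSucc (nat_lit 3407),
 .negSucc (nat_lit 2216737), .negSucc (nat_lit 2086391), .ofNat (nat_lit 6741718), .ofNat (nat_lit
 3093075), .ofNat (nat_lit 1565728), .negSucc (nat_lit 5749904), .ofNat (nat_lit 961791), .ofNat
 (nat_lit 617811), .negSucc (nat_lit 256902), .negSucc (nat_lit 1427282), .ofNat (nat_lit
 7300706)]), ((nat_lit 4, nat_lit 2, false), [.negSucc (nat_lit 27805256), .ofNat (nat_lit
 3737527), .ofNat (nat_lit 1110630), .negSucc (nat_lit 7278485), .ofNat (nat_lit 2937945), .ofNat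
 (nat_lit 11777422), .ofNat (nat_lit 2263332), .negSucc (nat_lit 1280702), .ofNat (nat_lit 54460),
 .ofNat (nat_lit 1532656), .ofNat (nat_lit 308279), .ofNat (nat_lit 1329111), .ofNat (nat_lit
 15984569), .ofNat (nat_lit 9192150)]), ((nat_lit 4, nat_lit 3, false), [.negSucc (nat_lit
 24902977), .ofNat (nat_lit 5236574), .ofNat (nat_lit 6750014), .negSucc (nat_lit 3873975), .ofNat
 (nat_lit 3766090), .ofNat (nat_lit 2299360), .ofNat (nat_lit 17253070), .negSucc (nat_lit
 5851018), .ofNat (nat_lit 1916130), .ofNat (nat_lit 642522), .ofNat (nat_lit 3321784), .negSucc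
 (nat_lit 3408870), .ofNat (nat_lit 1142187), .negSucc (nat_lit 8308625), .ofNat (nat_lit
 6965266)]), ((nat_lit 4, nat_lit 4, false), [.ofNat (nat_lit 59644363), .negSucc (nat_lit
 18498989), .negSucc (nat_lit 5248966), .ofNat (nat_lit 15761015), .ofNat (nat_lit 1166501),
 .negSucc (nat_lit 5634970), .negSucc (nat_lit 1553357), .ofNat (nat_lit 23225083), .negSucc
 (nat_lit 1415059), .ofNat (nat_lit 851525), .negSucc (nat_lit 910302), .ofNat (nat_lit 4033664),
 .ofNat (nat_lit 9412325), .ofNat (nat_lit 11337052), .negSucc (nat_lit 355085), .ofNat (nat_lit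
 3042886)]), ((nat_lit 1, nat_lit 1, true), [.ofNat (nat_lit 2693123), .ofNat (nat_lit 96726),
 .ofNat (nat_lit 434489), .ofNat (nat_lit 525424), .negSucc (nat_lit 753250), .ofNat (nat_lit
 22408), .negSucc (nat_lit 194004), .ofNat (nat_lit 541521), .negSucc (nat_lit 809762), .ofNat
 (nat_lit 177242), .negSucc (nat_lit 144606), .ofNat (nat_lit 657289), .negSucc (nat_lit 8154),
 .ofNat (nat_lit 884840), .negSucc (nat_lit 342634), .negSucc (nat_lit 280718), .ofNat (nat_lit
 2812098)]), ((nat_lit 1, nat_lit 2, true), [.ofNat (nat_lit 4968287), .ofNat (nat_lit 871150),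
 .ofNat (nat_lit 156035), .ofNat (nat_lit 1760170), .negSucc (nat_lit 1151147), .negSucc (nat_lit
 660822), .negSucc (nat_lit 818874), .ofNat (nat_lit 1338088), .negSucc (nat_lit 1042297),
 .negSucc (nat_lit 265922), .negSucc (nat_lit 624742), .ofNat (nat_lit 1081214), .ofNat (nat_lit
 326555), .ofNat (nat_lit 1704412), .negSucc (nat_lit 529281), .negSucc (nat_lit 399795), .ofNat
 (nat_lit 5532686), .ofNat (nat_lit 3223611)]), ((nat_lit 1, nat_lit 3, true), [.ofNat (nat_lit
 4005049), .negSucc (nat_lit 751100), .ofNat (nat_lit 1652860), .ofNat (nat_lit 772244), .negSucc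
 (nat_lit 412544), .ofNat (nat_lit 284102), .negSucc (nat_lit 1726629), .ofNat (nat_lit 341591),
 .negSucc (nat_lit 550179), .ofNat (nat_lit 780411), .negSucc (nat_lit 1341201), .ofNat (nat_lit
 801685), .negSucc (nat_lit 162394), .ofNat (nat_lit 1331607), .negSucc (nat_lit 890620), .ofNat
 (nat_lit 240989), .ofNat (nat_lit 2527474), .negSucc (nat_lit 1222427), .ofNat (nat_lit
 2954091)]), ((nat_lit 1, nat_lit 4, true), [.negSucc (nat_lit 2105986), .ofNat (nat_lit 1902840),
 .ofNat (nat_lit 550474), .ofNat (nat_lit 1084522), .negSucc (nat_lit 809789), .ofNat (nat_lit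
 350070), .negSucc (nat_lit 1188056), .negSucc (nat_lit 293585), .ofNat (nat_lit 146469), .negSucc
 (nat_lit 433769), .negSucc (nat_lit 933817), .negSucc (nat_lit 185262), .ofNat (nat_lit 342242),
 .ofNat (nat_lit 1043231), .negSucc (nat_lit 540802), .ofNat (nat_lit 256543), .ofNat (nat_lit
 2870441), .ofNat (nat_lit 4393509), .ofNat (nat_lit 1441153), .ofNat (nat_lit 1017676)]),
 ((nat_lit 2, nat_lit 1, true), [.ofNat (nat_lit 12568352), .negSucc (nat_lit 2029212), .negSucc
 (nat_lit 930910), .ofNat (nat_lit 2398592), .ofNat (nat_lit 265816), .negSucc (nat_lit 1695100),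
 .negSucc (nat_lit 770620), .ofNat (nat_lit 2786998), .negSucc (nat_lit 835199), .negSucc (nat_lit
 58040), .negSucc (nat_lit 446564), .ofNat (nat_lit 1430259), .negSucc (nat_lit 830600), .ofNat
 (nat_lit 2147626), .negSucc (nat_lit 253629), .ofNat (nat_lit 287673), .ofNat (nat_lit 4066102),
 .ofNat (nat_lit 264515), .negSucc (nat_lit 204802), .negSucc (nat_lit 628567), .ofNat (nat_lit
 1450157)]), ((nat_lit 2, nat_lit 2, true), [.ofNat (nat_lit 15676896), .negSucc (nat_lit
 1652709), .negSucc (nat_lit 2466625), .ofNat (nat_lit 4229406), .ofNat (nat_lit 556522), .negSucc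
 (nat_lit 2178911), .negSucc (nat_lit 2524776), .ofNat (nat_lit 4637936), .negSucc (nat_lit
 238254), .negSucc (nat_lit 602532), .negSucc (nat_lit 1430347), .ofNat (nat_lit 1318550),
 .negSucc (nat_lit 1326760), .ofNat (nat_lit 2469263), .negSucc (nat_lit 227890), .ofNat (nat_lit
 1744758), .ofNat (nat_lit 6428539), .ofNat (nat_lit 5670675), .negSucc (nat_lit 69720), .negSucc
 (nat_lit 637773), .ofNat (nat_lit 3648019), .ofNat (nat_lit 1789578)]), ((nat_lit 2, nat_lit 3,
 true), [.ofNat (nat_lit 22162965), .negSucc (nat_lit 4537388), .ofNat (nat_lit 780947), .ofNat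
 (nat_lit 4388564), .ofNat (nat_lit 1314201), .negSucc (nat_lit 3662492), .negSucc (nat_lit
 2434319), .ofNat (nat_lit 3143141), .negSucc (nat_lit 1062877), .ofNat (nat_lit 721122), .negSucc
 (nat_lit 2106384), .ofNat (nat_lit 2289180), .negSucc (nat_lit 465743), .ofNat (nat_lit 4306421),
 .negSucc (nat_lit 2405049), .ofNat (nat_lit 618258), .ofNat (nat_lit 4300763), .negSucc (nat_lit
 1924724), .ofNat (nat_lit 3984283), .negSucc (nat_lit 134893), .negSucc (nat_lit 207477),
 .negSucc (nat_lit 2075198), .ofNat (nat_lit 746786)]), ((nat_lit 2, nat_lit 4, true), [.ofNat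
 (nat_lit 108029), .ofNat (nat_lit 1102104), .negSucc (nat_lit 864237), .ofNat (nat_lit 2062488),
 .ofNat (nat_lit 88226), .ofNat (nat_lit 349183), .negSucc (nat_lit 2370858), .ofNat (nat_lit
 960421), .ofNat (nat_lit 997107), .negSucc (nat_lit 499172), .negSucc (nat_lit 1412268), .negSucc
 (nat_lit 552446), .negSucc (nat_lit 596108), .ofNat (nat_lit 603758), .negSucc (nat_lit 521867),
 .ofNat (nat_lit 1841960), .ofNat (nat_lit 2516980), .ofNat (nat_lit 6563101), .ofNat (nat_lit
 1604952), .ofNat (nat_lit 1180317), .ofNat (nat_lit 2403650), .ofNat (nat_lit 1677780), .ofNat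
 (nat_lit 139773), .ofNat (nat_lit 233780)])]

/-- rows of a block -/
noncomputable def B13_1 : List (Row × List ℤ) := [((nat_lit 1, nat_lit 1, false), [.ofNat (nat_lit
 4459277)]), ((nat_lit 2, nat_lit 1, false), [.ofNat (nat_lit 11457283), .ofNat (nat_lit
 7025855)]), ((nat_lit 3, nat_lit 1, false), [.ofNat (nat_lit 6643235), .negSucc (nat_lit
 1490557), .ofNat (nat_lit 8136948)]), ((nat_lit 4, nat_lit 1, false), [.ofNat (nat_lit 12695604),
 .ofNat (nat_lit 19903027), .ofNat (nat_lit 9603241), .ofNat (nat_lit 19148241)]), ((nat_lit 5,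
 nat_lit 1, false), [.negSucc (nat_lit 2590247), .negSucc (nat_lit 6096142), .negSucc (nat_lit
 7446338), .negSucc (nat_lit 11423241), .ofNat (nat_lit 9693784)]), ((nat_lit 6, nat_lit 1,
 false), [.ofNat (nat_lit 6365583), .negSucc (nat_lit 3502622), .ofNat (nat_lit 5086792), .negSucc
 (nat_lit 13467287), .ofNat (nat_lit 3351184), .ofNat (nat_lit 6110581)]), ((nat_lit 8, nat_lit 1,
 false), [.ofNat (nat_lit 6113468), .ofNat (nat_lit 14745691), .ofNat (nat_lit 12288852), .ofNat
 (nat_lit 23573715), .ofNat (nat_lit 85057), .ofNat (nat_lit 766213), .ofNat (nat_lit 2142139)]),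
 ((nat_lit 1, nat_lit 1, true), [.ofNat (nat_lit 913524), .ofNat (nat_lit 83951), .ofNat (nat_lit
 546012), .ofNat (nat_lit 2039837), .negSucc (nat_lit 745384), .ofNat (nat_lit 295161), .ofNat
 (nat_lit 120243), .ofNat (nat_lit 1211424)]), ((nat_lit 2, nat_lit 1, true), [.negSucc (nat_lit
 185152), .negSucc (nat_lit 2645181), .negSucc (nat_lit 4325421), .negSucc (nat_lit 5677185),
 .ofNat (nat_lit 1864176), .ofNat (nat_lit 784826), .ofNat (nat_lit 187211), .ofNat (nat_lit
 2569981), .ofNat (nat_lit 1830887)]), ((nat_lit 3, nat_lit 1, true), [.ofNat (nat_lit 3002143),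
 .ofNat (nat_lit 3143152), .ofNat (nat_lit 6493095), .ofNat (nat_lit 11601777), .negSucc (nat_lit
 4160053), .negSucc (nat_lit 528759), .negSucc (nat_lit 105224), .ofNat (nat_lit 762948), .negSucc
 (nat_lit 2232490), .ofNat (nat_lit 744943)]), ((nat_lit 4, nat_lit 1, true), [.negSucc (nat_lit
 530402), .negSucc (nat_lit 2255712), .negSucc (nat_lit 3916690), .negSucc (nat_lit 6121088),
 .ofNat (nat_lit 2115241), .ofNat (nat_lit 717111), .negSucc (nat_lit 124534), .ofNat (nat_lit
 1764055), .ofNat (nat_lit 1628172), .ofNat (nat_lit 223442), .ofNat (nat_lit 281373)])]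

/-- rows of a block -/
noncomputable def B13_2 : List (Row × List ℤ) := [((nat_lit 1, nat_lit 1, false), [.ofNat (nat_lit
 17475382)]), ((nat_lit 1, nat_lit 2, false), [.ofNat (nat_lit 1670330), .ofNat (nat_lit
 8203369)]), ((nat_lit 2, nat_lit 1, false), [.ofNat (nat_lit 51371494), .negSucc (nat_lit
 6639306), .ofNat (nat_lit 8738408)]), ((nat_lit 2, nat_lit 2, false), [.negSucc (nat_lit
 39398312), .ofNat (nat_lit 20645161), .ofNat (nat_lit 4325865), .ofNat (nat_lit 10339263)]),
 ((nat_lit 3, nat_lit 1, false), [.negSucc (nat_lit 14309671), .ofNat (nat_lit 7483121), .negSucc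
 (nat_lit 5150682), .ofNat (nat_lit 3465373), .ofNat (nat_lit 7685032)]), ((nat_lit 3, nat_lit 2,
 false), [.negSucc (nat_lit 18305105), .ofNat (nat_lit 10867400), .negSucc (nat_lit 5054037),
 .ofNat (nat_lit 2308999), .ofNat (nat_lit 11877606), .ofNat (nat_lit 5853358)]), ((nat_lit 4,
 nat_lit 1, false), [.ofNat (nat_lit 25020220), .negSucc (nat_lit 7085567), .ofNat (nat_lit
 8756603), .ofNat (nat_lit 3682692), .ofNat (nat_lit 1775878), .ofNat (nat_lit 1040609), .ofNat
 (nat_lit 4585350)]), ((nat_lit 4, nat_lit 2, false), [.negSucc (nat_lit 84892821), .ofNat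
 (nat_lit 20021878), .negSucc (nat_lit 659671), .ofNat (nat_lit 19399543), .ofNat (nat_lit
 1896937), .ofNat (nat_lit 1718321), .ofNat (nat_lit 5036489), .ofNat (nat_lit 2995608)]),
 ((nat_lit 1, nat_lit 1, true), [.negSucc (nat_lit 1049739), .ofNat (nat_lit 963463), .negSucc
 (nat_lit 900108), .negSucc (nat_lit 53707), .negSucc (nat_lit 711160), .negSucc (nat_lit 128337),
 .negSucc (nat_lit 193779), .ofNat (nat_lit 37424), .ofNat (nat_lit 1750488)]), ((nat_lit 1,
 nat_lit 2, true), [.negSucc (nat_lit 2873405), .ofNat (nat_lit 1995969), .negSucc (nat_lit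
 1358513), .negSucc (nat_lit 213262), .negSucc (nat_lit 927455), .negSucc (nat_lit 592534),
 .negSucc (nat_lit 410607), .ofNat (nat_lit 456834), .ofNat (nat_lit 2763257), .ofNat (nat_lit
 896680)]), ((nat_lit 2, nat_lit 1, true), [.negSucc (nat_lit 9458154), .ofNat (nat_lit 3516833),
 .negSucc (nat_lit 2330073), .ofNat (nat_lit 1018234), .negSucc (nat_lit 673249), .negSucc
 (nat_lit 399865), .negSucc (nat_lit 1014063), .ofNat (nat_lit 949433), .ofNat (nat_lit 2763257),
 .ofNat (nat_lit 684243), .ofNat (nat_lit 579523)]), ((nat_lit 2, nat_lit 2, true), [.negSucc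
 (nat_lit 14749055), .ofNat (nat_lit 5490436), .negSucc (nat_lit 3086297), .ofNat (nat_lit
 1208834), .negSucc (nat_lit 692233), .negSucc (nat_lit 722306), .negSucc (nat_lit 1485041),
 .ofNat (nat_lit 1473148), .ofNat (nat_lit 3766239), .ofNat (nat_lit 1984087), .ofNat (nat_lit
 727312), .ofNat (nat_lit 281373)])]

/-- rows of a block -/
noncomputable def B13_3 : List (Row × List ℤ) := [((nat_lit 1, nat_lit 1, false), [.ofNat (nat_lit
 3854547)]), ((nat_lit 2, nat_lit 1, false), [.ofNat (nat_lit 10138384), .ofNat (nat_lit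
 4818695)]), ((nat_lit 3, nat_lit 1, false), [.ofNat (nat_lit 2569737), .negSucc (nat_lit
 1778655), .ofNat (nat_lit 4380327)]), ((nat_lit 4, nat_lit 1, false), [.ofNat (nat_lit 7576590),
 .ofNat (nat_lit 6325412), .ofNat (nat_lit 615628), .ofNat (nat_lit 1934956)]), ((nat_lit 1,
 nat_lit 1, true), [.ofNat (nat_lit 136756), .negSucc (nat_lit 351722), .negSucc (nat_lit 267907),
 .negSucc (nat_lit 146451), .ofNat (nat_lit 533364)]), ((nat_lit 2, nat_lit 1, true), [.ofNat
 (nat_lit 471250), .negSucc (nat_lit 273435), .negSucc (nat_lit 71448), .negSucc (nat_lit 332360),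
 .ofNat (nat_lit 753283), .ofNat (nat_lit 319917)])]

/-- rows of a block -/
noncomputable def B13_4 : List (Row × List ℤ) := [((nat_lit 1, nat_lit 1, false), [.ofNat (nat_lit
 17813691)]), ((nat_lit 1, nat_lit 2, false), [.negSucc (nat_lit 62299232), .ofNat (nat_lit
 18372400)]), ((nat_lit 2, nat_lit 1, false), [.ofNat (nat_lit 17874327), .ofNat (nat_lit
 1571071), .ofNat (nat_lit 3596545)]), ((nat_lit 2, nat_lit 2, false), [.negSucc (nat_lit
 132240375), .ofNat (nat_lit 33816619), .ofNat (nat_lit 4050814), .ofNat (nat_lit 2519563)]),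
 ((nat_lit 1, nat_lit 1, true), [.negSucc (nat_lit 16426148), .ofNat (nat_lit 3417516), .negSucc
 (nat_lit 554309), .ofNat (nat_lit 483975), .ofNat (nat_lit 533364)]), ((nat_lit 1, nat_lit 2,
 true), [.negSucc (nat_lit 27476966), .ofNat (nat_lit 5687016), .negSucc (nat_lit 814068), .ofNat
 (nat_lit 520084), .ofNat (nat_lit 753283), .ofNat (nat_lit 319917)])]

/-- rows of a block -/
noncomputable def B13_5 : List (Row × List ℤ) := [((nat_lit 1, nat_lit 1, false), [.ofNat (nat_lit
 90837094)]), ((nat_lit 2, nat_lit 1, false), [.ofNat (nat_lit 150403503), .ofNat (nat_lit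
 1722812)]), ((nat_lit 1, nat_lit 1, true), [.ofNat (nat_lit 18760768), .ofNat (nat_lit 2707),
 .ofNat (nat_lit 413538)])]

/-- rows of a block -/
noncomputable def B13_6 : List (Row × List ℤ) := [((nat_lit 1, nat_lit 1, false), [.ofNat (nat_lit
 1673988)])]

/-- the commands -/
noncomputable def C13 : List Cmd := [.a (nat_lit 4) (nat_lit 25) B13_0, .a (nat_lit 5) (nat_lit
 25) B13_1, .a (nat_lit 5) (nat_lit 25) B13_2, .a (nat_lit 6) (nat_lit 25) B13_3, .a (nat_lit 6)
 (nat_lit 25) B13_4, .a (nat_lit 7) (nat_lit 25) B13_5, .a (nat_lit 8) (nat_lit 25) B13_6]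

theorem c_ok13 : okL 6 ES C13 = true := by decide +kernel

theorem t_ok13 : eqT (run (.ofNat (nat_lit 28)) (.ofNat (nat_lit 25)) XT DD C13 U12) U13 = true := by decide +kernel

end Pool.Agent.H58.BJ.D6
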