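import Pool.Agent.H58.BJ.D6.U13

/-! # Certificate data (6 jets, exponent 28/25) -/

set_option autoImplicit false

namespace Pool.Agent.H58.BJ.D6

open Pool.Agent.H58.BJ

/-- rows of a block -/
noncomputable def B14_0 : List (Row × List ℤ) := [((nat_lit 1, nat_lit 1, false), [.ofNat (nat_lit
 31862486)]), ((nat_lit 2, nat_lit 1, false), [.ofNat (nat_lit 56471516), .ofNat (nat_lit
 63684459)]), ((nat_lit 3, nat_lit 1, false), [.ofNat (nat_lit 26085625), .negSucc (nat_lit
 3183681), .ofNat (nat_lit 77859141)]), ((nat_lit 4, nat_lit 1, false), [.ofNat (nat_lit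
 52597300), .ofNat (nat_lit 107182001), .negSucc (nat_lit 32364753), .ofNat (nat_lit 72593635)]),
 ((nat_lit 5, nat_lit 1, false), [.ofNat (nat_lit 28110253), .ofNat (nat_lit 13984295), .negSucc
 (nat_lit 63642502), .negSucc (nat_lit 6964137), .ofNat (nat_lit 108761423)]), ((nat_lit 6,
 nat_lit 1, false), [.ofNat (nat_lit 36294721), .ofNat (nat_lit 21385373), .ofNat (nat_lit
 112619926), .negSucc (nat_lit 8892377), .ofNat (nat_lit 214396), .ofNat (nat_lit 100883622)]),
 ((nat_lit 8, nat_lit 1, false), [.ofNat (nat_lit 10891078), .ofNat (nat_lit 56624555), .negSucc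
 (nat_lit 61970685), .ofNat (nat_lit 138879217), .ofNat (nat_lit 60641413), .negSucc (nat_lit
 11975458), .ofNat (nat_lit 73481322)]), ((nat_lit 7, nat_lit 1, false), [.negSucc (nat_lit
 2760370), .negSucc (nat_lit 18468578), .ofNat (nat_lit 102035805), .negSucc (nat_lit 21294048),
 .negSucc (nat_lit 122296578), .negSucc (nat_lit 17918222), .negSucc (nat_lit 31120786), .ofNat
 (nat_lit 113821164)]), ((nat_lit 10, nat_lit 1, false), [.ofNat (nat_lit 40061359), .ofNat
 (nat_lit 34255118), .negSucc (nat_lit 80454830), .negSucc (nat_lit 13978503), .ofNat (nat_lit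
 143027425), .negSucc (nat_lit 17383296), .negSucc (nat_lit 21397231), .negSucc (nat_lit 9319262),
 .ofNat (nat_lit 101474797)]), ((nat_lit 9, nat_lit 1, false), [.ofNat (nat_lit 1318648), .negSucc
 (nat_lit 30014775), .ofNat (nat_lit 136219117), .ofNat (nat_lit 22064032), .negSucc (nat_lit
 45096134), .negSucc (nat_lit 52452464), .negSucc (nat_lit 21454524), .ofNat (nat_lit 5507485),
 .ofNat (nat_lit 28984470), .ofNat (nat_lit 82993611)]), ((nat_lit 12, nat_lit 1, false),
 [.negSucc (nat_lit 12542290), .ofNat (nat_lit 7147467), .ofNat (nat_lit 85258476), .negSucc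
 (nat_lit 5530854), .negSucc (nat_lit 85925915), .ofNat (nat_lit 116324992), .negSucc (nat_lit
 52664471), .ofNat (nat_lit 65717360), .ofNat (nat_lit 7492459), .ofNat (nat_lit 2402102), .ofNat
 (nat_lit 108904821)]), ((nat_lit 16, nat_lit 1, false), [.negSucc (nat_lit 8683142), .negSucc
 (nat_lit 16017970), .negSucc (nat_lit 27850028), .ofNat (nat_lit 54665190), .ofNat (nat_lit
 60894800), .ofNat (nat_lit 2267817), .ofNat (nat_lit 125243705), .ofNat (nat_lit 14128570),
 .ofNat (nat_lit 18715125), .ofNat (nat_lit 11653826), .ofNat (nat_lit 4366861), .ofNat (nat_lit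
 69581031)]), ((nat_lit 11, nat_lit 1, false), [.ofNat (nat_lit 16223182), .ofNat (nat_lit
 3923227), .negSucc (nat_lit 68418457), .ofNat (nat_lit 7332619), .ofNat (nat_lit 69994782),
 .negSucc (nat_lit 2060837), .ofNat (nat_lit 42009390), .negSucc (nat_lit 62757831), .negSucc
 (nat_lit 2006133), .negSucc (nat_lit 2389567), .ofNat (nat_lit 5331367), .negSucc (nat_lit
 19394731), .ofNat (nat_lit 62515380)]), ((nat_lit 14, nat_lit 1, false), [.negSucc (nat_lit
 194615), .negSucc (nat_lit 4347321), .ofNat (nat_lit 144754389), .negSucc (nat_lit 60992168),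
 .negSucc (nat_lit 200512443), .ofNat (nat_lit 7765462), .negSucc (nat_lit 51383881), .ofNat
 (nat_lit 229367573), .negSucc (nat_lit 29554228), .negSucc (nat_lit 6091234), .negSucc (nat_lit
 36996103), .ofNat (nat_lit 14423834), .negSucc (nat_lit 15446497), .ofNat (nat_lit 87787290)]),
 ((nat_lit 15, nat_lit 1, false), [.ofNat (nat_lit 17467018), .negSucc (nat_lit 2588801), .negSucc
 (nat_lit 25734394), .ofNat (nat_lit 490116), .ofNat (nat_lit 88709068), .negSucc (nat_lit
 4614115), .negSucc (nat_lit 6322637), .ofNat (nat_lit 9235753), .negSucc (nat_lit 37775383),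
 .negSucc (nat_lit 21284552), .negSucc (nat_lit 423385), .ofNat (nat_lit 8647627), .ofNat (nat_lit
 8775692), .ofNat (nat_lit 1048298), .ofNat (nat_lit 105586034)]), ((nat_lit 20, nat_lit 1,
 false), [.ofNat (nat_lit 7092801), .ofNat (nat_lit 12349725), .negSucc (nat_lit 60718113), .ofNat
 (nat_lit 29625353), .ofNat (nat_lit 90802410), .negSucc (nat_lit 21547110), .ofNat (nat_lit
 3775261), .negSucc (nat_lit 74494710), .ofNat (nat_lit 134518909), .negSucc (nat_lit 21515596),
 .negSucc (nat_lit 5867101), .negSucc (nat_lit 18635169), .ofNat (nat_lit 49536437), .negSucc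
 (nat_lit 4612379), .ofNat (nat_lit 5546939), .ofNat (nat_lit 107445118)]), ((nat_lit 18, nat_lit
 1, false), [.negSucc (nat_lit 296695), .negSucc (nat_lit 5173686), .ofNat (nat_lit 8060738),
 .ofNat (nat_lit 11325180), .ofNat (nat_lit 42174878), .ofNat (nat_lit 22240517), .ofNat (nat_lit
 21173066), .negSucc (nat_lit 16226408), .ofNat (nat_lit 2399735), .ofNat (nat_lit 106591252),
 .negSucc (nat_lit 46364424), .negSucc (nat_lit 22400972), .ofNat (nat_lit 11569900), .ofNat
 (nat_lit 11308415), .ofNat (nat_lit 15054067), .ofNat (nat_lit 9764252), .ofNat (nat_lit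
 115364346)]), ((nat_lit 24, nat_lit 1, false), [.negSucc (nat_lit 14445276), .negSucc (nat_lit
 18816403), .negSucc (nat_lit 3456065), .ofNat (nat_lit 6022764), .negSucc (nat_lit 15024957),
 .negSucc (nat_lit 10630007), .negSucc (nat_lit 5361595), .ofNat (nat_lit 25003986), .ofNat
 (nat_lit 15576347), .ofNat (nat_lit 12740970), .ofNat (nat_lit 122626662), .negSucc (nat_lit
 31941107), .negSucc (nat_lit 11840399), .ofNat (nat_lit 36779785), .ofNat (nat_lit 17126979),
 .negSucc (nat_lit 3893732), .ofNat (nat_lit 9015116), .ofNat (nat_lit 97287649)]), ((nat_lit 32,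
 nat_lit 1, false), [.negSucc (nat_lit 3551028), .negSucc (nat_lit 21319933), .ofNat (nat_lit
 19203030), .negSucc (nat_lit 50568719), .negSucc (nat_lit 23594198), .ofNat (nat_lit 16363608),
 .ofNat (nat_lit 46461481), .ofNat (nat_lit 28017211), .ofNat (nat_lit 21471155), .ofNat (nat_lit
 16705891), .ofNat (nat_lit 27669271), .ofNat (nat_lit 132072783), .ofNat (nat_lit 12728501),
 .negSucc (nat_lit 4416712), .negSucc (nat_lit 1531415), .ofNat (nat_lit 11960877), .ofNat
 (nat_lit 3328605), .negSucc (nat_lit 7572575), .ofNat (nat_lit 30125142)]), ((nat_lit 13, nat_lit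
 1, false), [.negSucc (nat_lit 572404), .negSucc (nat_lit 1904043), .ofNat (nat_lit 1510958),
 .negSucc (nat_lit 22323), .negSucc (nat_lit 9952372), .ofNat (nat_lit 751602), .negSucc (nat_lit
 633405), .ofNat (nat_lit 1218343), .ofNat (nat_lit 753606), .ofNat (nat_lit 165958), .ofNat
 (nat_lit 1794159), .negSucc (nat_lit 570080), .ofNat (nat_lit 884267), .ofNat (nat_lit 2121783),
 .negSucc (nat_lit 3656356), .negSucc (nat_lit 228028), .ofNat (nat_lit 1088482), .negSucc
 (nat_lit 3252820), .ofNat (nat_lit 1191121), .ofNat (nat_lit 27500919)]), ((nat_lit 22, nat_lit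
 1, false), [.ofNat (nat_lit 25816152), .ofNat (nat_lit 5527690), .negSucc (nat_lit 80877933),
 .ofNat (nat_lit 7439226), .ofNat (nat_lit 90052593), .negSucc (nat_lit 9025060), .ofNat (nat_lit
 58373112), .negSucc (nat_lit 86174547), .negSucc (nat_lit 975154), .negSucc (nat_lit 5057379),
 .ofNat (nat_lit 10711636), .negSucc (nat_lit 27136875), .ofNat (nat_lit 80645108), .negSucc
 (nat_lit 262751), .negSucc (nat_lit 8799437), .negSucc (nat_lit 1154821), .negSucc (nat_lit
 1231998), .negSucc (nat_lit 368066), .negSucc (nat_lit 759861), .ofNat (nat_lit 1805333), .ofNat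
 (nat_lit 34072401)]), ((nat_lit 21, nat_lit 1, false), [.negSucc (nat_lit 374028), .negSucc
 (nat_lit 35001359), .ofNat (nat_lit 150268172), .negSucc (nat_lit 5938051), .negSucc (nat_lit
 147763139), .negSucc (nat_lit 65186869), .negSucc (nat_lit 47765361), .ofNat (nat_lit 77306706),
 .ofNat (nat_lit 21028615), .negSucc (nat_lit 9755610), .ofNat (nat_lit 47264312), .ofNat (nat_lit
 6094291), .ofNat (nat_lit 11624232), .negSucc (nat_lit 52042496), .negSucc (nat_lit 20106825),
 .negSucc (nat_lit 12951583), .ofNat (nat_lit 2847824), .negSucc (nat_lit 6972921), .negSucc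
 (nat_lit 15599075), .ofNat (nat_lit 19726792), .ofNat (nat_lit 15980741), .ofNat (nat_lit
 67076561)]), ((nat_lit 28, nat_lit 1, false), [.negSucc (nat_lit 4059719), .ofNat (nat_lit
 9320576), .ofNat (nat_lit 98938235), .negSucc (nat_lit 45716228), .negSucc (nat_lit 147395225),
 .ofNat (nat_lit 20411588), .negSucc (nat_lit 51478681), .ofNat (nat_lit 162939664), .negSucc
 (nat_lit 23445040), .negSucc (nat_lit 2364865), .negSucc (nat_lit 36786030), .ofNat (nat_lit
 27284287), .negSucc (nat_lit 21181555), .ofNat (nat_lit 98782790), .negSucc (nat_lit 14316687),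
 .negSucc (nat_lit 16140160), .negSucc (nat_lit 3085482), .negSucc (nat_lit 3497032), .negSucc
 (nat_lit 6864299), .ofNat (nat_lit 21808949), .ofNat (nat_lit 7808170), .ofNat (nat_lit
 15036241), .ofNat (nat_lit 38459944)]), ((nat_lit 25, nat_lit 1, false), [.ofNat (nat_lit
 20231522), .ofNat (nat_lit 9602600), .negSucc (nat_lit 97720804), .ofNat (nat_lit 8657714),
 .ofNat (nat_lit 126712878), .ofNat (nat_lit 19559327), .ofNat (nat_lit 33922652), .negSucc
 (nat_lit 30015258), .negSucc (nat_lit 51618306), .negSucc (nat_lit 4681341), .negSucc (nat_lit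
 14604256), .negSucc (nat_lit 6166655), .ofNat (nat_lit 11966804), .negSucc (nat_lit 5692643),
 .negSucc (nat_lit 14944483), .ofNat (nat_lit 37852938), .negSucc (nat_lit 225300), .ofNat
 (nat_lit 12615764), .negSucc (nat_lit 2272023), .ofNat (nat_lit 9436281), .negSucc (nat_lit
 7110348), .ofNat (nat_lit 17698044), .negSucc (nat_lit 11117684), .ofNat (nat_lit 52382374)]),
 ((nat_lit 30, nat_lit 1, false), [.ofNat (nat_lit 9226094), .ofNat (nat_lit 2882624), .negSucc
 (nat_lit 4840660), .negSucc (nat_lit 5034000), .ofNat (nat_lit 41864004), .ofNat (nat_lit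
 17950934), .negSucc (nat_lit 449223), .negSucc (nat_lit 6128048), .ofNat (nat_lit 11205203),
 .negSucc (nat_lit 20538729), .negSucc (nat_lit 22557098), .negSucc (nat_lit 721896), .ofNat
 (nat_lit 29733872), .negSucc (nat_lit 10552666), .ofNat (nat_lit 113616801), .negSucc (nat_lit
 48992468), .negSucc (nat_lit 31832365), .ofNat (nat_lit 12607800), .ofNat (nat_lit 13297382),
 .ofNat (nat_lit 38621060), .ofNat (nat_lit 10463105), .ofNat (nat_lit 23537329), .negSucc
 (nat_lit 12496282), .ofNat (nat_lit 23409098), .ofNat (nat_lit 80526138)]), ((nat_lit 40, nat_lit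
 1, false), [.negSucc (nat_lit 16041322), .negSucc (nat_lit 28117234), .ofNat (nat_lit 35496040),
 .ofNat (nat_lit 41764404), .negSucc (nat_lit 17933546), .negSucc (nat_lit 21414032), .ofNat
 (nat_lit 10816849), .negSucc (nat_lit 32169583), .ofNat (nat_lit 41728658), .negSucc (nat_lit
 21590926), .ofNat (nat_lit 6677245), .negSucc (nat_lit 25258028), .ofNat (nat_lit 43172556),
 .negSucc (nat_lit 11553782), .ofNat (nat_lit 7100791), .ofNat (nat_lit 114893243), .negSucc
 (nat_lit 12183903), .negSucc (nat_lit 16708894), .ofNat (nat_lit 3808492), .negSucc (nat_lit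
 2649718), .ofNat (nat_lit 18892537), .ofNat (nat_lit 15770821), .ofNat (nat_lit 6301624),
 .negSucc (nat_lit 830643), .ofNat (nat_lit 8534620), .ofNat (nat_lit 32941625)]), ((nat_lit 27,
 nat_lit 1, false), [.ofNat (nat_lit 133883), .negSucc (nat_lit 12911248), .ofNat (nat_lit
 70644370), .ofNat (nat_lit 21748094), .negSucc (nat_lit 42518418), .negSucc (nat_lit 63995139),
 .negSucc (nat_lit 23636593), .negSucc (nat_lit 12447194), .ofNat (nat_lit 31967409), .ofNat
 (nat_lit 73025978), .ofNat (nat_lit 22680380), .ofNat (nat_lit 7951573), .ofNat (nat_lit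
 22707205), .negSucc (nat_lit 14145486), .ofNat (nat_lit 1950800), .negSucc (nat_lit 7327873),
 .negSucc (nat_lit 46110283), .negSucc (nat_lit 6580272), .negSucc (nat_lit 304285), .ofNat
 (nat_lit 7248695), .negSucc (nat_lit 6243612), .ofNat (nat_lit 13451883), .negSucc (nat_lit
 19372598), .ofNat (nat_lit 8000561), .negSucc (nat_lit 10070526), .negSucc (nat_lit 14123621),
 .ofNat (nat_lit 72938078)]), ((nat_lit 36, nat_lit 1, false), [.ofNat (nat_lit 4183816), .ofNat
 (nat_lit 19356237), .negSucc (nat_lit 122369979), .negSucc (nat_lit 6480219), .ofNat (nat_lit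
 79412956), .ofNat (nat_lit 43759760), .ofNat (nat_lit 11198203), .ofNat (nat_lit 7843864),
 .negSucc (nat_lit 38845096), .ofNat (nat_lit 12551581), .ofNat (nat_lit 4394457), .negSucc
 (nat_lit 15638405), .ofNat (nat_lit 18658573), .ofNat (nat_lit 12650261), .ofNat (nat_lit
 7734613), .ofNat (nat_lit 3542237), .ofNat (nat_lit 118077676), .negSucc (nat_lit 54946374),
 .negSucc (nat_lit 5161152), .negSucc (nat_lit 6898435), .ofNat (nat_lit 19224627), .ofNat
 (nat_lit 22684495), .negSucc (nat_lit 12972849), .ofNat (nat_lit 24447323), .ofNat (nat_lit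
 6219045), .negSucc (nat_lit 30055143), .ofNat (nat_lit 21619452), .ofNat (nat_lit 47338124)]),
 ((nat_lit 48, nat_lit 1, false), [.ofNat (nat_lit 4361348), .negSucc (nat_lit 5578067), .negSucc
 (nat_lit 39702835), .ofNat (nat_lit 4401923), .ofNat (nat_lit 53169717), .negSucc (nat_lit
 24599957), .ofNat (nat_lit 48108273), .negSucc (nat_lit 31937739), .ofNat (nat_lit 14238714),
 .ofNat (nat_lit 12169931), .ofNat (nat_lit 6480605), .negSucc (nat_lit 34912256), .negSucc
 (nat_lit 12827912), .ofNat (nat_lit 35549379), .ofNat (nat_lit 15188227), .negSucc (nat_lit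
 8238186), .ofNat (nat_lit 8706759), .ofNat (nat_lit 100442309), .negSucc (nat_lit 25996734),
 .ofNat (nat_lit 11349319), .negSucc (nat_lit 4104464), .ofNat (nat_lit 872332), .ofNat (nat_lit
 9567433), .negSucc (nat_lit 806775), .ofNat (nat_lit 12135670), .negSucc (nat_lit 1344117),
 .ofNat (nat_lit 7086974), .ofNat (nat_lit 3098449), .ofNat (nat_lit 10665348)]), ((nat_lit 64,
 nat_lit 1, false), [.ofNat (nat_lit 624838), .negSucc (nat_lit 3493759), .ofNat (nat_lit
 13339802), .negSucc (nat_lit 33685055), .negSucc (nat_lit 28710771), .ofNat (nat_lit 5422897),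
 .negSucc (nat_lit 8481717), .ofNat (nat_lit 12845334), .ofNat (nat_lit 4416941), .ofNat (nat_lit
 5757518), .ofNat (nat_lit 21475042), .ofNat (nat_lit 64462969), .ofNat (nat_lit 10992216),
 .negSucc (nat_lit 3284754), .negSucc (nat_lit 855936), .ofNat (nat_lit 11285833), .ofNat (nat_lit
 2810375), .negSucc (nat_lit 6523426), .ofNat (nat_lit 29835204), .negSucc (nat_lit 1454683),
 .ofNat (nat_lit 1504749), .ofNat (nat_lit 1021672), .negSucc (nat_lit 822108), .ofNat (nat_lit
 436193), .negSucc (nat_lit 556995), .ofNat (nat_lit 1080397), .negSucc (nat_lit 57619), .ofNat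
 (nat_lit 1304036), .ofNat (nat_lit 583985), .ofNat (nat_lit 702625)])]

/-- the commands -/
noncomputable def C14 : List Cmd := [.m (nat_lit 1) (nat_lit 1) B14_0]

theorem c_ok14 : okL 6 ES C14 = true := by decide +kernel

theorem fin_ok : finT (nat_lit 16535275518717) (run (.ofNat (nat_lit 28)) (.ofNat (nat_lit 25)) XT DD C14 U13) = true := by decide +kernel

end Pool.Agent.H58.BJ.D6
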