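import Pool.Agent.H58.BJ.D6.D

/-! # Certificate data (6 jets, exponent 28/25) -/

set_option autoImplicit false

namespace Pool.Agent.H58.BJ.D6

open Pool.Agent.H58.BJ

/-- result of the first 2 groups -/
noncomputable def U2 : Tr := (.nd (.nd (.nd (.nd (.nd (.nd (.nd .e (.nd (.nd (.nd (.nd (.nd (.nd
 (.nd .e (.nd (.nd (.lf (.ofNat (nat_lit 543415930322907600))) .e) .e)) (.nd (.nd (.nd (.lf
 (.ofNat (nat_lit 1160371480946361000))) .e) .e) .e)) (.nd (.nd (.nd (.nd (.lf (.ofNat (nat_lit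
 1249567894935704400))) .e) .e) .e) (.nd (.nd (.nd (.lf (.ofNat (nat_lit 1005078597112958400)))
 .e) .e) .e))) (.nd (.nd (.nd (.nd (.nd (.lf (.ofNat (nat_lit 3262905153582567000))) .e) .e) .e)
 (.nd (.nd (.nd (.lf (.ofNat (nat_lit 3935431778443639200))) .e) .e) .e)) (.nd (.nd (.nd (.nd (.lf
 (.negSucc (nat_lit 4071173712163077599))) .e) .e) .e) .e))) (.nd (.nd (.nd (.nd (.nd (.nd (.lf
 (.ofNat (nat_lit 7912921658503276800))) .e) .e) .e) (.nd (.nd (.nd (.lf (.ofNat (nat_lit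
 2732478279848874000))) .e) .e) .e)) (.nd (.nd (.nd (.nd (.lf (.negSucc (nat_lit
 1462778774240282399))) .e) .e) .e) .e)) (.nd (.nd (.nd (.nd (.nd (.lf (.negSucc (nat_lit
 5956824428164785599))) .e) .e) .e) .e) (.nd (.nd (.nd (.nd (.lf (.ofNat (nat_lit
 2334405126594222000))) .e) .e) .e) .e)))) (.nd (.nd (.nd (.nd (.nd (.nd (.nd (.lf (.ofNat
 (nat_lit 4439000780455589400))) .e) .e) .e) .e) (.nd (.nd (.nd (.nd (.lf (.negSucc (nat_lit
 445447083264404399))) .e) .e) .e) .e)) (.nd (.nd (.nd (.nd (.nd (.lf (.negSucc (nat_lit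
 2823103139067064799))) .e) .e) .e) .e) .e)) (.nd (.nd (.nd (.nd (.nd (.nd (.lf (.negSucc (nat_lit
 201795159245705999))) .e) .e) .e) .e) (.nd (.nd (.nd (.nd (.lf (.negSucc (nat_lit
 614294305916597999))) .e) .e) .e) .e)) (.nd (.nd (.nd (.nd (.nd (.lf (.ofNat (nat_lit
 992435157457500000))) .e) .e) .e) .e) (.nd (.nd (.nd (.nd (.lf (.ofNat (nat_lit
 1445208888313126800))) .e) .e) .e) .e))))) .e)) (.nd (.nd (.nd (.nd (.nd (.nd (.nd (.nd .e (.nd
 (.nd (.lf (.ofNat (nat_lit 20925980310184128))) .e) .e)) (.nd (.nd (.nd (.lf (.ofNat (nat_lit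
 3276687999291931184))) .e) .e) .e)) (.nd (.nd (.nd (.nd (.lf (.ofNat (nat_lit
 13782034919713955200))) .e) .e) .e) (.nd (.nd (.nd (.lf (.negSucc (nat_lit
 11138905532758943999))) .e) .e) .e))) (.nd (.nd (.nd (.nd (.nd (.lf (.ofNat (nat_lit
 22751696255953108400))) .e) .e) .e) (.nd (.nd (.nd (.lf (.negSucc (nat_lit
 17042404590789416703))) .e) .e) .e)) (.nd (.nd (.nd (.nd (.lf (.negSucc (nat_lit
 8750025651695971391))) .e) .e) .e) (.nd (.nd (.nd (.lf (.ofNat (nat_lit 1142275824149500000)))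
 .e) .e) .e)))) (.nd (.nd (.nd (.nd (.nd (.nd (.lf (.ofNat (nat_lit 16069847298990448480))) .e)
 .e) .e) (.nd (.nd (.nd (.lf (.negSucc (nat_lit 13026808589722183679))) .e) .e) .e)) (.nd (.nd
 (.nd (.nd (.lf (.negSucc (nat_lit 7531784671007634239))) .e) .e) .e) .e)) (.nd (.nd (.nd (.nd
 (.nd (.lf (.ofNat (nat_lit 9667845011403501312))) .e) .e) .e) (.nd (.nd (.nd (.lf (.ofNat
 (nat_lit 124883176406484000))) .e) .e) .e)) (.nd (.nd (.nd (.nd (.lf (.negSucc (nat_lit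
 6540023903242131199))) .e) .e) .e) (.nd (.nd (.nd (.lf (.negSucc (nat_lit 7263427460609342399)))
 .e) .e) .e))))) (.nd (.nd (.nd (.nd (.nd (.nd (.nd (.lf (.ofNat (nat_lit 12783561135032922648)))
 .e) .e) .e) .e) (.nd (.nd (.nd (.nd (.lf (.negSucc (nat_lit 11110732735131097055))) .e) .e) .e)
 (.nd (.nd (.nd (.lf (.negSucc (nat_lit 5023574286897361199))) .e) .e) .e))) (.nd (.nd (.nd (.nd
 (.nd (.lf (.ofNat (nat_lit 746686485958953984))) .e) .e) .e) (.nd (.nd (.nd (.lf (.negSucc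
 (nat_lit 5964839205157619999))) .e) .e) .e)) (.nd (.nd (.nd (.nd (.lf (.negSucc (nat_lit
 1283861423146091999))) .e) .e) .e) .e))) (.nd (.nd (.nd (.nd (.nd (.nd (.lf (.negSucc (nat_lit
 2582992145154643487))) .e) .e) .e) .e) (.nd (.nd (.nd (.nd (.lf (.ofNat (nat_lit
 1387284871375407360))) .e) .e) .e) (.nd (.nd (.nd (.lf (.negSucc (nat_lit 2200354338921203999)))
 .e) .e) .e))) (.nd (.nd (.nd (.nd (.nd (.lf (.negSucc (nat_lit 5971654917843881279))) .e) .e) .e)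
 .e) (.nd (.nd (.nd (.nd (.lf (.ofNat (nat_lit 883303399555504896))) .e) .e) .e) .e))))) .e) .e))
 (.nd (.nd (.nd (.nd (.nd (.nd (.nd (.nd .e (.nd (.nd (.nd (.lf (.ofNat (nat_lit
 3472373879791847128))) .e) .e) .e)) (.nd (.nd (.nd (.nd (.lf (.ofNat (nat_lit
 54722902905808378112))) .e) .e) .e) .e)) (.nd (.nd (.nd (.nd (.nd (.lf (.ofNat (nat_lit
 141830503490522779864))) .e) .e) .e) .e) (.nd (.nd (.nd (.nd (.lf (.negSucc (nat_lit
 79388366925267637055))) .e) .e) .e) .e))) (.nd (.nd (.nd (.nd (.nd (.nd (.lf (.ofNat (nat_lit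
 175487014360730970496))) .e) .e) .e) .e) (.nd (.nd (.nd (.nd (.lf (.negSucc (nat_lit
 50137320816806801855))) .e) .e) .e) .e)) (.nd (.nd (.nd (.nd (.nd (.lf (.negSucc (nat_lit
 41567000378050475135))) .e) .e) .e) .e) (.nd (.nd (.nd (.nd (.lf (.negSucc (nat_lit
 4014245883699049839))) .e) .e) .e) .e)))) (.nd (.nd (.nd (.nd (.nd (.nd (.nd (.lf (.ofNat
 (nat_lit 94455707878179716228))) .e) .e) .e) .e) (.nd (.nd (.nd (.nd (.lf (.negSucc (nat_lit
 26403486257098696031))) .e) .e) .e) .e)) (.nd (.nd (.nd (.nd (.nd (.lf (.negSucc (nat_lit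
 35602720349871814271))) .e) .e) .e) .e) (.nd (.nd (.nd (.nd (.lf (.negSucc (nat_lit
 3410767814120477999))) .e) .e) .e) .e))) (.nd (.nd (.nd (.nd (.nd (.nd (.lf (.negSucc (nat_lit
 3909666514899632783))) .e) .e) .e) .e) (.nd (.nd (.nd (.nd (.lf (.ofNat (nat_lit
 781791509228406960))) .e) .e) .e) .e)) (.nd (.nd (.nd (.nd (.nd (.lf (.negSucc (nat_lit
 26287936187220655679))) .e) .e) .e) .e) (.nd (.nd (.nd (.nd (.lf (.negSucc (nat_lit
 5065848088967563727))) .e) .e) .e) .e))))) .e) .e) (.nd (.nd (.nd (.nd (.nd (.nd (.nd (.nd .e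
 (.nd (.nd (.lf (.ofNat (nat_lit 5235445483185775200))) .e) .e)) (.nd (.nd (.nd (.lf (.ofNat
 (nat_lit 8805203679071924400))) .e) .e) .e)) (.nd (.nd (.nd (.nd (.lf (.ofNat (nat_lit
 5546071998551925600))) .e) .e) .e) (.nd (.nd (.nd (.lf (.ofNat (nat_lit 14144239922061571200)))
 .e) .e) .e))) (.nd (.nd (.nd (.nd (.nd (.lf (.ofNat (nat_lit 10664428422066066000))) .e) .e) .e)
 (.nd (.nd (.nd (.lf (.ofNat (nat_lit 43278727889123064000))) .e) .e) .e)) (.nd (.nd (.nd (.nd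
 (.lf (.negSucc (nat_lit 29619959863812033599))) .e) .e) .e) .e))) (.nd (.nd (.nd (.nd (.nd (.nd
 (.lf (.ofNat (nat_lit 38504472499096665600))) .e) .e) .e) (.nd (.nd (.nd (.lf (.ofNat (nat_lit
 46373658233938668000))) .e) .e) .e)) (.nd (.nd (.nd (.nd (.lf (.negSucc (nat_lit
 20730321269446756799))) .e) .e) .e) .e)) (.nd (.nd (.nd (.nd (.nd (.lf (.negSucc (nat_lit
 23385016989176630399))) .e) .e) .e) .e) (.nd (.nd (.nd (.nd (.lf (.ofNat (nat_lit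
 33235724646446436000))) .e) .e) .e) .e)))) (.nd (.nd (.nd (.nd (.nd (.nd (.nd (.lf (.ofNat
 (nat_lit 5589734234213154000))) .e) .e) .e) .e) (.nd (.nd (.nd (.nd (.lf (.negSucc (nat_lit
 16170663173601981599))) .e) .e) .e) .e)) (.nd (.nd (.nd (.nd (.nd (.lf (.negSucc (nat_lit
 4255021722898036799))) .e) .e) .e) .e) .e)) (.nd (.nd (.nd (.nd (.nd (.nd (.lf (.ofNat (nat_lit
 11383071731404192800))) .e) .e) .e) .e) (.nd (.nd (.nd (.nd (.lf (.ofNat (nat_lit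
 5261397893810604000))) .e) .e) .e) .e)) (.nd (.nd (.nd (.nd (.nd (.lf (.negSucc (nat_lit
 405346565294519999))) .e) .e) .e) .e) (.nd (.nd (.nd (.nd (.lf (.ofNat (nat_lit
 40127271642695973600))) .e) .e) .e) .e))))) .e) .e))) (.nd (.nd (.nd (.nd (.nd (.nd (.nd (.nd .e
 (.nd (.nd (.nd (.nd (.lf (.ofNat (nat_lit 67990332323229933824))) .e) .e) .e) .e)) (.nd (.nd (.nd
 (.nd (.nd (.lf (.ofNat (nat_lit 217702795194836233136))) .e) .e) .e) .e) .e)) (.nd (.nd (.nd (.nd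
 (.nd (.nd (.lf (.ofNat (nat_lit 196367220042629321152))) .e) .e) .e) .e) .e) (.nd (.nd (.nd (.nd
 (.nd (.lf (.negSucc (nat_lit 121773212231677575551))) .e) .e) .e) .e) .e))) (.nd (.nd (.nd (.nd
 (.nd (.nd (.nd (.lf (.ofNat (nat_lit 94308774311016911232))) .e) .e) .e) .e) .e) (.nd (.nd (.nd
 (.nd (.nd (.lf (.ofNat (nat_lit 15161737977248805504))) .e) .e) .e) .e) .e)) (.nd (.nd (.nd (.nd
 (.nd (.nd (.lf (.negSucc (nat_lit 31392610015291129631))) .e) .e) .e) .e) .e) (.nd (.nd (.nd (.nd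
 (.nd (.lf (.negSucc (nat_lit 35599419361204079999))) .e) .e) .e) .e) .e)))) .e) .e) (.nd (.nd
 (.nd (.nd (.nd (.nd (.nd (.nd .e (.nd (.nd (.lf (.ofNat (nat_lit 922802422380994400))) .e) .e))
 (.nd (.nd (.nd (.lf (.negSucc (nat_lit 10834406520172665999))) .e) .e) .e)) (.nd (.nd (.nd (.nd
 (.lf (.negSucc (nat_lit 20823004520481832799))) .e) .e) .e) (.nd (.nd (.nd (.lf (.ofNat (nat_lit
 29719143786202473600))) .e) .e) .e))) (.nd (.nd (.nd (.nd (.nd (.lf (.ofNat (nat_lit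
 29732851518165360400))) .e) .e) .e) (.nd (.nd (.nd (.lf (.ofNat (nat_lit 28512543959561054400)))
 .e) .e) .e)) (.nd (.nd (.nd (.nd (.lf (.negSucc (nat_lit 15091954257767419199))) .e) .e) .e)
 .e))) (.nd (.nd (.nd (.nd (.nd (.nd (.lf (.ofNat (nat_lit 132344027601652604800))) .e) .e) .e)
 (.nd (.nd (.nd (.lf (.ofNat (nat_lit 42080919272722706400))) .e) .e) .e)) (.nd (.nd (.nd (.nd
 (.lf (.negSucc (nat_lit 85940988389708951999))) .e) .e) .e) .e)) (.nd (.nd (.nd (.nd (.nd (.lf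
 (.negSucc (nat_lit 47843720458377647999))) .e) .e) .e) .e) (.nd (.nd (.nd (.nd (.lf (.ofNat
 (nat_lit 56602693609181028000))) .e) .e) .e) .e)))) (.nd (.nd (.nd (.nd (.nd (.nd (.nd (.lf
 (.ofNat (nat_lit 64549360821309160800))) .e) .e) .e) .e) (.nd (.nd (.nd (.nd (.lf (.negSucc
 (nat_lit 23282525482472080799))) .e) .e) .e) .e)) (.nd (.nd (.nd (.nd (.nd (.lf (.negSucc
 (nat_lit 53010855944565412799))) .e) .e) .e) .e) .e)) (.nd (.nd (.nd (.nd (.nd (.nd (.lf (.ofNat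
 (nat_lit 18045919722623824800))) .e) .e) .e) .e) (.nd (.nd (.nd (.nd (.lf (.negSucc (nat_lit
 4569062057282771999))) .e) .e) .e) .e)) (.nd (.nd (.nd (.nd (.nd (.lf (.ofNat (nat_lit
 13081160647734600000))) .e) .e) .e) .e) (.nd (.nd (.nd (.nd (.lf (.ofNat (nat_lit
 22917763281186828000))) .e) .e) .e) .e))))) .e) .e)) (.nd (.nd (.nd (.nd (.nd (.nd (.nd (.nd .e
 (.nd (.nd (.nd (.lf (.negSucc (nat_lit 25018960300582610111))) .e) .e) .e)) (.nd (.nd (.nd (.nd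
 (.lf (.negSucc (nat_lit 86000663958581359871))) .e) .e) .e) (.nd (.nd (.nd (.lf (.ofNat (nat_lit
 8299404506222747136))) .e) .e) .e))) (.nd (.nd (.nd (.nd (.nd (.lf (.negSucc (nat_lit
 270518504462882418239))) .e) .e) .e) (.nd (.nd (.nd (.lf (.negSucc (nat_lit
 19884072888655990271))) .e) .e) .e)) (.nd (.nd (.nd (.nd (.lf (.ofNat (nat_lit
 215725417818040408320))) .e) .e) .e) .e))) (.nd (.nd (.nd (.nd (.nd (.nd (.lf (.negSucc (nat_lit
 485467193558340680447))) .e) .e) .e) (.nd (.nd (.nd (.lf (.negSucc (nat_lit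
 2155750603558647551))) .e) .e) .e)) (.nd (.nd (.nd (.nd (.lf (.ofNat (nat_lit
 127520529017434576128))) .e) .e) .e) .e)) (.nd (.nd (.nd (.nd (.nd (.lf (.ofNat (nat_lit
 240081527419892997120))) .e) .e) .e) (.nd (.nd (.nd (.lf (.negSucc (nat_lit
 21238943873876495999))) .e) .e) .e)) (.nd (.nd (.nd (.nd (.lf (.negSucc (nat_lit
 14594299101070444799))) .e) .e) .e) .e)))) (.nd (.nd (.nd (.nd (.nd (.nd (.nd (.lf (.negSucc
 (nat_lit 281834091604602646847))) .e) .e) .e) .e) (.nd (.nd (.nd (.nd (.lf (.ofNat (nat_lit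
 75710046016046623104))) .e) .e) .e) .e)) (.nd (.nd (.nd (.nd (.nd (.lf (.ofNat (nat_lit
 130089959136048213504))) .e) .e) .e) (.nd (.nd (.nd (.lf (.ofNat (nat_lit 6671091880297872000)))
 .e) .e) .e)) (.nd (.nd (.nd (.nd (.lf (.ofNat (nat_lit 5091444247729392000))) .e) .e) .e) .e)))
 (.nd (.nd (.nd (.nd (.nd (.nd (.lf (.ofNat (nat_lit 25863187570629022080))) .e) .e) .e) .e) (.nd
 (.nd (.nd (.nd (.lf (.ofNat (nat_lit 8043360311732808960))) .e) .e) .e) .e)) (.nd (.nd (.nd (.nd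
 (.nd (.lf (.ofNat (nat_lit 69466293506240190720))) .e) .e) .e) .e) (.nd (.nd (.nd (.nd (.lf
 (.negSucc (nat_lit 42184457213683735295))) .e) .e) .e) .e))))) .e) .e) .e))) (.nd (.nd (.nd (.nd
 (.nd (.nd (.nd (.nd .e (.nd (.nd (.nd (.nd (.nd (.lf (.ofNat (nat_lit 132858799670592878616)))
 .e) .e) .e) .e) .e)) (.nd (.nd (.nd (.nd (.nd (.nd (.lf (.ofNat (nat_lit 215890245884431443984)))
 .e) .e) .e) .e) .e) .e)) (.nd (.nd (.nd (.nd (.nd (.nd (.nd (.lf (.ofNat (nat_lit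
 112515482456765260772))) .e) .e) .e) .e) .e) .e) (.nd (.nd (.nd (.nd (.nd (.nd (.lf (.negSucc
 (nat_lit 135113630014829809439))) .e) .e) .e) .e) .e) .e))) .e) .e) (.nd (.nd (.nd (.nd (.nd (.nd
 (.nd (.nd .e (.nd (.nd (.lf (.negSucc (nat_lit 249671752497445199))) .e) .e)) (.nd (.nd (.nd (.lf
 (.negSucc (nat_lit 14095098464303027399))) .e) .e) .e)) (.nd (.nd (.nd (.nd (.lf (.negSucc
 (nat_lit 22217892111308458799))) .e) .e) .e) (.nd (.nd (.nd (.lf (.ofNat (nat_lit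
 48418873885190145600))) .e) .e) .e))) (.nd (.nd (.nd (.nd (.nd (.lf (.ofNat (nat_lit
 76647331215129697800))) .e) .e) .e) (.nd (.nd (.nd (.lf (.ofNat (nat_lit 24034078659163989600)))
 .e) .e) .e)) (.nd (.nd (.nd (.nd (.lf (.negSucc (nat_lit 60361224079626352799))) .e) .e) .e)
 .e))) (.nd (.nd (.nd (.nd (.nd (.nd (.lf (.ofNat (nat_lit 270393945923914756800))) .e) .e) .e)
 (.nd (.nd (.nd (.lf (.ofNat (nat_lit 9456633157103478000))) .e) .e) .e)) (.nd (.nd (.nd (.nd (.lf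
 (.negSucc (nat_lit 150896029431580466399))) .e) .e) .e) .e)) (.nd (.nd (.nd (.nd (.nd (.lf
 (.negSucc (nat_lit 117698007517225675199))) .e) .e) .e) .e) (.nd (.nd (.nd (.nd (.lf (.ofNat
 (nat_lit 60575566599289746000))) .e) .e) .e) .e)))) (.nd (.nd (.nd (.nd (.nd (.nd (.nd (.lf
 (.ofNat (nat_lit 179388592170793477200))) .e) .e) .e) .e) (.nd (.nd (.nd (.nd (.lf (.negSucc
 (nat_lit 53302324926858901199))) .e) .e) .e) .e)) (.nd (.nd (.nd (.nd (.nd (.lf (.negSucc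
 (nat_lit 140429666551603096799))) .e) .e) .e) .e) .e)) (.nd (.nd (.nd (.nd (.nd (.nd (.lf (.ofNat
 (nat_lit 5365244854492232400))) .e) .e) .e) .e) (.nd (.nd (.nd (.nd (.lf (.negSucc (nat_lit
 24833387717107145999))) .e) .e) .e) .e)) (.nd (.nd (.nd (.nd (.nd (.lf (.negSucc (nat_lit
 19463375033381339999))) .e) .e) .e) .e) (.nd (.nd (.nd (.nd (.lf (.ofNat (nat_lit
 45075774821488038000))) .e) .e) .e) .e))))) .e) .e)) (.nd (.nd (.nd (.nd (.nd (.nd (.nd (.nd .e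
 (.nd (.nd (.nd (.lf (.negSucc (nat_lit 17857976043880531999))) .e) .e) .e)) (.nd (.nd (.nd (.nd
 (.lf (.negSucc (nat_lit 39940841772796966399))) .e) .e) .e) .e)) (.nd (.nd (.nd (.nd (.nd (.lf
 (.negSucc (nat_lit 117360083088366587871))) .e) .e) .e) (.nd (.nd (.nd (.lf (.negSucc (nat_lit
 82479972076917729023))) .e) .e) .e)) (.nd (.nd (.nd (.nd (.lf (.ofNat (nat_lit
 108748661881096160640))) .e) .e) .e) .e))) (.nd (.nd (.nd (.nd (.nd (.nd (.lf (.negSucc (nat_lit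
 197068384718527536575))) .e) .e) .e) (.nd (.nd (.nd (.lf (.negSucc (nat_lit
 91743412351366061567))) .e) .e) .e)) (.nd (.nd (.nd (.nd (.lf (.negSucc (nat_lit
 67249161055113361535))) .e) .e) .e) .e)) (.nd (.nd (.nd (.nd (.nd (.lf (.ofNat (nat_lit
 213706300982282907648))) .e) .e) .e) .e) (.nd (.nd (.nd (.nd (.lf (.negSucc (nat_lit
 32313074472042654719))) .e) .e) .e) .e)))) (.nd (.nd (.nd (.nd (.nd (.nd (.nd (.lf (.ofNat
 (nat_lit 439105578064576752))) .e) .e) .e) .e) (.nd (.nd (.nd (.nd (.lf (.negSucc (nat_lit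
 58256729670752462015))) .e) .e) .e) .e)) (.nd (.nd (.nd (.nd (.nd (.lf (.ofNat (nat_lit
 21934375862257984512))) .e) .e) .e) .e) (.nd (.nd (.nd (.nd (.lf (.negSucc (nat_lit
 9444318066307991999))) .e) .e) .e) .e))) (.nd (.nd (.nd (.nd (.nd (.nd (.lf (.negSucc (nat_lit
 59164366619740572863))) .e) .e) .e) .e) (.nd (.nd (.nd (.nd (.lf (.ofNat (nat_lit
 11759333262979461120))) .e) .e) .e) .e)) (.nd (.nd (.nd (.nd (.nd (.lf (.negSucc (nat_lit
 7224605787242647679))) .e) .e) .e) .e) (.nd (.nd (.nd (.nd (.lf (.ofNat (nat_lit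
 80100840147489561600))) .e) .e) .e) .e))))) .e) .e) .e)) (.nd (.nd (.nd (.nd (.nd (.nd (.nd (.nd
 .e (.nd (.nd (.nd (.nd (.lf (.negSucc (nat_lit 157855893140271777791))) .e) .e) .e) .e)) (.nd
 (.nd (.nd (.nd (.nd (.lf (.negSucc (nat_lit 255278188585391686175))) .e) .e) .e) .e) (.nd (.nd
 (.nd (.nd (.lf (.ofNat (nat_lit 66662256945798147456))) .e) .e) .e) .e))) (.nd (.nd (.nd (.nd
 (.nd (.nd (.lf (.negSucc (nat_lit 222044638088593978367))) .e) .e) .e) .e) (.nd (.nd (.nd (.nd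
 (.lf (.negSucc (nat_lit 251953980134126012159))) .e) .e) .e) .e)) (.nd (.nd (.nd (.nd (.nd (.lf
 (.ofNat (nat_lit 304790167109977265664))) .e) .e) .e) .e) .e))) (.nd (.nd (.nd (.nd (.nd (.nd
 (.nd (.lf (.negSucc (nat_lit 140059427843272195247))) .e) .e) .e) .e) (.nd (.nd (.nd (.nd (.lf
 (.negSucc (nat_lit 242668820370163243391))) .e) .e) .e) .e)) (.nd (.nd (.nd (.nd (.nd (.lf
 (.negSucc (nat_lit 28085176559121873407))) .e) .e) .e) .e) .e)) (.nd (.nd (.nd (.nd (.nd (.nd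
 (.lf (.ofNat (nat_lit 84306474646210272960))) .e) .e) .e) .e) (.nd (.nd (.nd (.nd (.lf (.ofNat
 (nat_lit 29221409233944722880))) .e) .e) .e) .e)) (.nd (.nd (.nd (.nd (.nd (.lf (.negSucc
 (nat_lit 89032718750962356479))) .e) .e) .e) .e) .e)))) .e) .e) .e) (.nd (.nd (.nd (.nd (.nd (.nd
 (.nd (.nd .e (.nd (.nd (.nd (.lf (.negSucc (nat_lit 7579960699639849999))) .e) .e) .e)) (.nd (.nd
 (.nd (.nd (.lf (.negSucc (nat_lit 7290731611727099999))) .e) .e) .e) (.nd (.nd (.nd (.lf (.ofNat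
 (nat_lit 7567059943219536000))) .e) .e) .e))) (.nd (.nd (.nd (.nd (.nd (.lf (.ofNat (nat_lit
 36025037789533946000))) .e) .e) .e) (.nd (.nd (.nd (.lf (.ofNat (nat_lit 15541812986524728000)))
 .e) .e) .e)) (.nd (.nd (.nd (.nd (.lf (.ofNat (nat_lit 2316216861239160000))) .e) .e) .e) .e)))
 (.nd (.nd (.nd (.nd (.nd (.nd (.lf (.ofNat (nat_lit 105858925342218800000))) .e) .e) .e) (.nd
 (.nd (.nd (.lf (.ofNat (nat_lit 59574790018405836000))) .e) .e) .e)) (.nd (.nd (.nd (.nd (.lf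
 (.negSucc (nat_lit 51869189941917143999))) .e) .e) .e) .e)) (.nd (.nd (.nd (.nd (.nd (.lf
 (.negSucc (nat_lit 33197427399909935999))) .e) .e) .e) .e) (.nd (.nd (.nd (.nd (.lf (.ofNat
 (nat_lit 31697075404899780000))) .e) .e) .e) .e)))) (.nd (.nd (.nd (.nd (.nd (.nd (.nd (.lf
 (.ofNat (nat_lit 902092667102076000))) .e) .e) .e) .e) (.nd (.nd (.nd (.nd (.lf (.negSucc
 (nat_lit 41698061626066595999))) .e) .e) .e) .e)) (.nd (.nd (.nd (.nd (.nd (.lf (.negSucc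
 (nat_lit 534807612444695999))) .e) .e) .e) .e) .e)) (.nd (.nd (.nd (.nd (.nd (.nd (.lf (.ofNat
 (nat_lit 41064469279853796000))) .e) .e) .e) .e) (.nd (.nd (.nd (.nd (.lf (.ofNat (nat_lit
 4735592954668620000))) .e) .e) .e) .e)) (.nd (.nd (.nd (.nd (.nd (.lf (.ofNat (nat_lit
 11706437784262920000))) .e) .e) .e) .e) (.nd (.nd (.nd (.nd (.lf (.ofNat (nat_lit
 33318460177417260000))) .e) .e) .e) .e))))) .e) .e) .e)))) (.nd (.nd (.nd (.nd (.nd (.nd (.nd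
 (.nd .e (.nd (.nd (.nd (.nd (.nd (.nd (.lf (.ofNat (nat_lit 63177211127521698592))) .e) .e) .e)
 .e) .e) .e)) (.nd (.nd (.nd (.nd (.nd (.nd (.nd (.lf (.ofNat (nat_lit 49134753085886742224))) .e)
 .e) .e) .e) .e) .e) .e)) .e) .e) .e) (.nd (.nd (.nd (.nd (.nd (.nd (.nd (.nd .e (.nd (.nd (.nd
 (.lf (.negSucc (nat_lit 30080697774289474511))) .e) .e) .e)) (.nd (.nd (.nd (.nd (.lf (.negSucc
 (nat_lit 31046585212465719167))) .e) .e) .e) .e)) (.nd (.nd (.nd (.nd (.nd (.lf (.negSucc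
 (nat_lit 75083411069230069103))) .e) .e) .e) .e) (.nd (.nd (.nd (.nd (.lf (.ofNat (nat_lit
 234823653453599017920))) .e) .e) .e) .e))) (.nd (.nd (.nd (.nd (.nd (.nd (.lf (.negSucc (nat_lit
 163954568127421803167))) .e) .e) .e) (.nd (.nd (.nd (.lf (.negSucc (nat_lit
 17923017740060500415))) .e) .e) .e)) (.nd (.nd (.nd (.nd (.lf (.ofNat (nat_lit
 61480563375251189952))) .e) .e) .e) .e)) (.nd (.nd (.nd (.nd (.nd (.lf (.ofNat (nat_lit
 137696250345089504256))) .e) .e) .e) .e) (.nd (.nd (.nd (.nd (.lf (.negSucc (nat_lit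
 21771326629533605759))) .e) .e) .e) .e)))) (.nd (.nd (.nd (.nd (.nd (.nd (.nd (.lf (.negSucc
 (nat_lit 175010957619326330615))) .e) .e) .e) .e) (.nd (.nd (.nd (.nd (.lf (.negSucc (nat_lit
 33818224693092818399))) .e) .e) .e) .e)) (.nd (.nd (.nd (.nd (.nd (.lf (.ofNat (nat_lit
 184469278954595685120))) .e) .e) .e) .e) (.nd (.nd (.nd (.nd (.lf (.negSucc (nat_lit
 6529310727867899999))) .e) .e) .e) .e))) (.nd (.nd (.nd (.nd (.nd (.nd (.lf (.ofNat (nat_lit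
 32864278149270244512))) .e) .e) .e) .e) (.nd (.nd (.nd (.nd (.lf (.ofNat (nat_lit
 39182894171319415680))) .e) .e) .e) .e)) (.nd (.nd (.nd (.nd (.nd (.lf (.ofNat (nat_lit
 180220785098395227840))) .e) .e) .e) .e) (.nd (.nd (.nd (.nd (.lf (.negSucc (nat_lit
 78758735552050974335))) .e) .e) .e) .e))))) .e) .e) .e)) (.nd (.nd (.nd (.nd (.nd (.nd (.nd (.nd
 .e (.nd (.nd (.nd (.nd (.lf (.ofNat (nat_lit 62839360153602973824))) .e) .e) .e) .e)) (.nd (.nd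
 (.nd (.nd (.nd (.lf (.ofNat (nat_lit 374540534435714000480))) .e) .e) .e) .e) .e)) (.nd (.nd (.nd
 (.nd (.nd (.nd (.lf (.ofNat (nat_lit 829515445790997245952))) .e) .e) .e) .e) (.nd (.nd (.nd (.nd
 (.lf (.negSucc (nat_lit 356420894061379090559))) .e) .e) .e) .e)) (.nd (.nd (.nd (.nd (.nd (.lf
 (.negSucc (nat_lit 138062730541098708479))) .e) .e) .e) .e) .e))) (.nd (.nd (.nd (.nd (.nd (.nd
 (.nd (.lf (.ofNat (nat_lit 568526080866998171696))) .e) .e) .e) .e) (.nd (.nd (.nd (.nd (.lf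
 (.negSucc (nat_lit 429289154803092235391))) .e) .e) .e) .e)) (.nd (.nd (.nd (.nd (.nd (.lf
 (.negSucc (nat_lit 369686177828301810431))) .e) .e) .e) .e) .e)) (.nd (.nd (.nd (.nd (.nd (.nd
 (.lf (.negSucc (nat_lit 45744192675729732671))) .e) .e) .e) .e) .e) (.nd (.nd (.nd (.nd (.nd (.lf
 (.negSucc (nat_lit 236100550794938315519))) .e) .e) .e) .e) .e)))) .e) .e) .e) .e)) (.nd (.nd
 (.nd (.nd (.nd (.nd (.nd (.nd .e (.nd (.nd (.nd (.nd (.nd (.lf (.negSucc (nat_lit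
 424107170741924708735))) .e) .e) .e) .e) .e)) (.nd (.nd (.nd (.nd (.nd (.nd (.lf (.negSucc
 (nat_lit 732291846671517297791))) .e) .e) .e) .e) .e) (.nd (.nd (.nd (.nd (.nd (.lf (.ofNat
 (nat_lit 317060273916669358080))) .e) .e) .e) .e) .e))) (.nd (.nd (.nd (.nd (.nd (.nd (.nd (.lf
 (.negSucc (nat_lit 559868987002332092447))) .e) .e) .e) .e) .e) (.nd (.nd (.nd (.nd (.nd (.lf
 (.ofNat (nat_lit 142906507521273112320))) .e) .e) .e) .e) .e)) (.nd (.nd (.nd (.nd (.nd (.nd (.lf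
 (.ofNat (nat_lit 227423751406834344192))) .e) .e) .e) .e) .e) .e))) .e) .e) .e) (.nd (.nd (.nd
 (.nd (.nd (.nd (.nd (.nd .e (.nd (.nd (.nd (.lf (.ofNat (nat_lit 2656479469274466000))) .e) .e)
 .e)) (.nd (.nd (.nd (.nd (.lf (.ofNat (nat_lit 23966100646007676000))) .e) .e) .e) .e)) (.nd (.nd
 (.nd (.nd (.nd (.lf (.ofNat (nat_lit 89210271208496670000))) .e) .e) .e) (.nd (.nd (.nd (.lf
 (.negSucc (nat_lit 22080329176303895999))) .e) .e) .e)) (.nd (.nd (.nd (.nd (.lf (.negSucc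
 (nat_lit 18187205657014295999))) .e) .e) .e) .e))) (.nd (.nd (.nd (.nd (.nd (.nd (.lf (.ofNat
 (nat_lit 161271541216117968000))) .e) .e) .e) (.nd (.nd (.nd (.lf (.negSucc (nat_lit
 1143729186388667999))) .e) .e) .e)) (.nd (.nd (.nd (.nd (.lf (.negSucc (nat_lit
 9885009107070791999))) .e) .e) .e) .e)) (.nd (.nd (.nd (.nd (.nd (.lf (.negSucc (nat_lit
 97572367057919183999))) .e) .e) .e) .e) (.nd (.nd (.nd (.nd (.lf (.negSucc (nat_lit
 32431536299923859999))) .e) .e) .e) .e)))) (.nd (.nd (.nd (.nd (.nd (.nd (.nd (.lf (.ofNat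
 (nat_lit 43628801700752160000))) .e) .e) .e) .e) (.nd (.nd (.nd (.nd (.lf (.negSucc (nat_lit
 39373788558227147999))) .e) .e) .e) .e)) (.nd (.nd (.nd (.nd (.nd (.lf (.negSucc (nat_lit
 26426933812930535999))) .e) .e) .e) .e) .e)) (.nd (.nd (.nd (.nd (.nd (.nd (.lf (.ofNat (nat_lit
 23096991761126028000))) .e) .e) .e) .e) (.nd (.nd (.nd (.nd (.lf (.negSucc (nat_lit
 20731619203397819999))) .e) .e) .e) .e)) (.nd (.nd (.nd (.nd (.nd (.lf (.ofNat (nat_lit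
 7162547817769560000))) .e) .e) .e) .e) (.nd (.nd (.nd (.nd (.lf (.negSucc (nat_lit
 1801316837715227999))) .e) .e) .e) .e))))) .e) .e) .e)) (.nd (.nd (.nd (.nd (.nd (.nd (.nd (.nd
 .e (.nd (.nd (.nd (.nd (.lf (.negSucc (nat_lit 97158903019312443519))) .e) .e) .e) .e)) (.nd (.nd
 (.nd (.nd (.nd (.lf (.negSucc (nat_lit 315517976971312516879))) .e) .e) .e) .e) (.nd (.nd (.nd
 (.nd (.lf (.ofNat (nat_lit 180891283042799219520))) .e) .e) .e) .e))) (.nd (.nd (.nd (.nd (.nd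
 (.nd (.lf (.negSucc (nat_lit 576293195056156848479))) .e) .e) .e) .e) (.nd (.nd (.nd (.nd (.lf
 (.ofNat (nat_lit 227523852965720761920))) .e) .e) .e) .e)) (.nd (.nd (.nd (.nd (.nd (.lf (.ofNat
 (nat_lit 296825828372054791680))) .e) .e) .e) .e) (.nd (.nd (.nd (.nd (.lf (.negSucc (nat_lit
 49237761390605227199))) .e) .e) .e) .e)))) (.nd (.nd (.nd (.nd (.nd (.nd (.nd (.lf (.negSucc
 (nat_lit 264827336473270542119))) .e) .e) .e) .e) (.nd (.nd (.nd (.nd (.lf (.ofNat (nat_lit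
 97069144493149423200))) .e) .e) .e) .e)) (.nd (.nd (.nd (.nd (.nd (.lf (.ofNat (nat_lit
 178725237679181264640))) .e) .e) .e) .e) (.nd (.nd (.nd (.nd (.lf (.negSucc (nat_lit
 2176436909289299999))) .e) .e) .e) .e))) (.nd (.nd (.nd (.nd (.nd (.nd (.lf (.negSucc (nat_lit
 24548207000247338399))) .e) .e) .e) .e) (.nd (.nd (.nd (.nd (.lf (.ofNat (nat_lit
 6660117773671305600))) .e) .e) .e) .e)) (.nd (.nd (.nd (.nd (.nd (.lf (.ofNat (nat_lit
 45973349531155137600))) .e) .e) .e) .e) .e)))) .e) .e) .e) (.nd (.nd (.nd (.nd (.nd (.nd (.nd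
 (.nd .e (.nd (.nd (.nd (.lf (.negSucc (nat_lit 26268659838820053599))) .e) .e) .e)) (.nd (.nd
 (.nd (.nd (.lf (.negSucc (nat_lit 46784514896647847999))) .e) .e) .e) (.nd (.nd (.nd (.lf (.ofNat
 (nat_lit 55062140648525740800))) .e) .e) .e))) (.nd (.nd (.nd (.nd (.nd (.lf (.ofNat (nat_lit
 45182616312960002400))) .e) .e) .e) (.nd (.nd (.nd (.lf (.negSucc (nat_lit
 31184099697859631999))) .e) .e) .e)) (.nd (.nd (.nd (.nd (.lf (.negSucc (nat_lit
 46826913580165987199))) .e) .e) .e) .e))) (.nd (.nd (.nd (.nd (.nd (.nd (.lf (.ofNat (nat_lit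
 234038049361755244800))) .e) .e) .e) (.nd (.nd (.nd (.lf (.ofNat (nat_lit 22908720911525640000)))
 .e) .e) .e)) (.nd (.nd (.nd (.nd (.lf (.negSucc (nat_lit 204556376870277033599))) .e) .e) .e)
 .e)) (.nd (.nd (.nd (.nd (.nd (.lf (.negSucc (nat_lit 32201585785694649599))) .e) .e) .e) .e)
 (.nd (.nd (.nd (.nd (.lf (.ofNat (nat_lit 42556845873347928000))) .e) .e) .e) .e)))) (.nd (.nd
 (.nd (.nd (.nd (.nd (.nd (.lf (.ofNat (nat_lit 187647867432834955200))) .e) .e) .e) .e) (.nd (.nd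
 (.nd (.nd (.lf (.negSucc (nat_lit 109992648776444913599))) .e) .e) .e) .e)) (.nd (.nd (.nd (.nd
 (.nd (.lf (.negSucc (nat_lit 170733209708686147199))) .e) .e) .e) .e) .e)) (.nd (.nd (.nd (.nd
 (.nd (.nd (.lf (.ofNat (nat_lit 4938176676281457600))) .e) .e) .e) .e) (.nd (.nd (.nd (.nd (.lf
 (.negSucc (nat_lit 28766720050495991999))) .e) .e) .e) .e)) (.nd (.nd (.nd (.nd (.nd (.lf
 (.negSucc (nat_lit 121430692481445071999))) .e) .e) .e) .e) (.nd (.nd (.nd (.nd (.lf (.ofNat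
 (nat_lit 185944845025946030400))) .e) .e) .e) .e))))) .e) .e) .e))))) (.nd (.nd (.nd (.nd (.nd
 (.nd (.nd (.nd .e (.nd (.nd (.nd (.nd (.nd (.nd (.nd (.lf (.ofNat (nat_lit 3947418818312495580)))
 .e) .e) .e) .e) .e) .e) .e)) .e) .e) .e) .e) (.nd (.nd (.nd (.nd (.nd (.nd (.nd (.nd .e (.nd (.nd
 (.nd (.nd (.lf (.negSucc (nat_lit 11041329728421312191))) .e) .e) .e) .e)) (.nd (.nd (.nd (.nd
 (.nd (.lf (.ofNat (nat_lit 216452079109779526992))) .e) .e) .e) .e) .e)) (.nd (.nd (.nd (.nd (.nd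
 (.nd (.lf (.ofNat (nat_lit 610312225435511028480))) .e) .e) .e) .e) .e) (.nd (.nd (.nd (.nd (.nd
 (.lf (.negSucc (nat_lit 203977061211493483775))) .e) .e) .e) .e) .e))) (.nd (.nd (.nd (.nd (.nd
 (.nd (.nd (.lf (.ofNat (nat_lit 670749662794566365832))) .e) .e) .e) .e) (.nd (.nd (.nd (.nd (.lf
 (.negSucc (nat_lit 28887202224869931935))) .e) .e) .e) .e)) (.nd (.nd (.nd (.nd (.nd (.lf
 (.negSucc (nat_lit 467188111264773172607))) .e) .e) .e) .e) .e)) (.nd (.nd (.nd (.nd (.nd (.nd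
 (.lf (.negSucc (nat_lit 184243966154212953311))) .e) .e) .e) .e) .e) (.nd (.nd (.nd (.nd (.nd
 (.lf (.negSucc (nat_lit 236199621714367489919))) .e) .e) .e) .e) .e)))) .e) .e) .e) (.nd (.nd
 (.nd (.nd (.nd (.nd (.nd (.nd .e (.nd (.nd (.nd (.lf (.negSucc (nat_lit 6997107040743295799)))
 .e) .e) .e)) (.nd (.nd (.nd (.nd (.lf (.negSucc (nat_lit 13785907534735174799))) .e) .e) .e) (.nd
 (.nd (.nd (.lf (.ofNat (nat_lit 14632535149860657600))) .e) .e) .e))) (.nd (.nd (.nd (.nd (.nd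
 (.lf (.ofNat (nat_lit 37306993489805753400))) .e) .e) .e) (.nd (.nd (.nd (.lf (.negSucc (nat_lit
 40480719435733173599))) .e) .e) .e)) (.nd (.nd (.nd (.nd (.lf (.negSucc (nat_lit
 33094996709965711199))) .e) .e) .e) .e))) (.nd (.nd (.nd (.nd (.nd (.nd (.lf (.ofNat (nat_lit
 127601662788613896000))) .e) .e) .e) (.nd (.nd (.nd (.lf (.negSucc (nat_lit
 38772276428808773999))) .e) .e) .e)) (.nd (.nd (.nd (.nd (.lf (.negSucc (nat_lit
 69323474620795053599))) .e) .e) .e) .e)) (.nd (.nd (.nd (.nd (.nd (.lf (.negSucc (nat_lit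
 46757584033215739199))) .e) .e) .e) .e) (.nd (.nd (.nd (.nd (.lf (.negSucc (nat_lit
 12924092142936257999))) .e) .e) .e) .e)))) (.nd (.nd (.nd (.nd (.nd (.nd (.nd (.lf (.ofNat
 (nat_lit 159982704343204982400))) .e) .e) .e) .e) (.nd (.nd (.nd (.nd (.lf (.negSucc (nat_lit
 14045017094303309999))) .e) .e) .e) .e)) (.nd (.nd (.nd (.nd (.nd (.lf (.negSucc (nat_lit
 129473029241626787999))) .e) .e) .e) .e) .e)) (.nd (.nd (.nd (.nd (.nd (.nd (.lf (.negSucc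
 (nat_lit 42531581973239096399))) .e) .e) .e) .e) (.nd (.nd (.nd (.nd (.lf (.negSucc (nat_lit
 38772276428808773999))) .e) .e) .e) .e)) (.nd (.nd (.nd (.nd (.nd (.lf (.negSucc (nat_lit
 53966670106762115999))) .e) .e) .e) .e) (.nd (.nd (.nd (.nd (.lf (.ofNat (nat_lit
 49022934470355171600))) .e) .e) .e) .e))))) .e) .e) .e))) (.nd (.nd (.nd (.nd (.nd (.nd (.nd (.nd
 .e (.nd (.nd (.nd (.nd (.nd (.lf (.ofNat (nat_lit 138299975969801893536))) .e) .e) .e) .e) .e))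
 (.nd (.nd (.nd (.nd (.nd (.nd (.lf (.ofNat (nat_lit 391493227127217894912))) .e) .e) .e) .e) .e)
 .e)) (.nd (.nd (.nd (.nd (.nd (.nd (.nd (.lf (.ofNat (nat_lit 352727477005646491104))) .e) .e)
 .e) .e) .e) (.nd (.nd (.nd (.nd (.nd (.lf (.negSucc (nat_lit 88890554415136290047))) .e) .e) .e)
 .e) .e)) (.nd (.nd (.nd (.nd (.nd (.nd (.lf (.negSucc (nat_lit 47493457594198271423))) .e) .e)
 .e) .e) .e) .e))) .e) .e) .e) (.nd (.nd (.nd (.nd (.nd (.nd (.nd (.nd .e (.nd (.nd (.nd (.lf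
 (.negSucc (nat_lit 6748171817089649999))) .e) .e) .e)) (.nd (.nd (.nd (.nd (.lf (.negSucc
 (nat_lit 4795697109147131999))) .e) .e) .e) .e)) (.nd (.nd (.nd (.nd (.nd (.lf (.ofNat (nat_lit
 91451341491655890000))) .e) .e) .e) (.nd (.nd (.nd (.lf (.negSucc (nat_lit
 59785929976936487999))) .e) .e) .e)) (.nd (.nd (.nd (.nd (.lf (.negSucc (nat_lit
 50501174745673511999))) .e) .e) .e) .e))) (.nd (.nd (.nd (.nd (.nd (.nd (.lf (.ofNat (nat_lit
 241237576914493104000))) .e) .e) .e) (.nd (.nd (.nd (.lf (.negSucc (nat_lit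
 47754666950516963999))) .e) .e) .e)) (.nd (.nd (.nd (.nd (.lf (.negSucc (nat_lit
 87235346840021495999))) .e) .e) .e) .e)) (.nd (.nd (.nd (.nd (.nd (.lf (.negSucc (nat_lit
 108721118438833967999))) .e) .e) .e) .e) (.nd (.nd (.nd (.nd (.lf (.negSucc (nat_lit
 31943368935736139999))) .e) .e) .e) .e)))) (.nd (.nd (.nd (.nd (.nd (.nd (.nd (.lf (.ofNat
 (nat_lit 226952203545363192000))) .e) .e) .e) .e) (.nd (.nd (.nd (.nd (.lf (.negSucc (nat_lit
 33335342211801491999))) .e) .e) .e) .e)) (.nd (.nd (.nd (.nd (.nd (.lf (.negSucc (nat_lit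
 173820886409245463999))) .e) .e) .e) .e) .e)) (.nd (.nd (.nd (.nd (.nd (.nd (.lf (.negSucc
 (nat_lit 45915486720716843999))) .e) .e) .e) .e) (.nd (.nd (.nd (.nd (.lf (.negSucc (nat_lit
 57548611959021539999))) .e) .e) .e) .e)) (.nd (.nd (.nd (.nd (.nd (.lf (.negSucc (nat_lit
 62071661178823319999))) .e) .e) .e) .e) (.nd (.nd (.nd (.nd (.lf (.ofNat (nat_lit
 55659922127236476000))) .e) .e) .e) .e))))) .e) .e) .e)) (.nd (.nd (.nd (.nd (.nd (.nd (.nd (.nd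
 .e (.nd (.nd (.nd (.nd (.lf (.negSucc (nat_lit 2309424657364355999))) .e) .e) .e) .e)) (.nd (.nd
 (.nd (.nd (.nd (.lf (.negSucc (nat_lit 1081635037129121999))) .e) .e) .e) .e) (.nd (.nd (.nd (.nd
 (.lf (.ofNat (nat_lit 197659787610600000))) .e) .e) .e) .e))) (.nd (.nd (.nd (.nd (.nd (.nd (.lf
 (.negSucc (nat_lit 5598614359757999999))) .e) .e) .e) .e) (.nd (.nd (.nd (.nd (.lf (.negSucc
 (nat_lit 22204005037493831999))) .e) .e) .e) .e)) (.nd (.nd (.nd (.nd (.nd (.lf (.ofNat (nat_lit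
 7575042966169392000))) .e) .e) .e) .e) .e))) (.nd (.nd (.nd (.nd (.nd (.nd (.nd (.lf (.negSucc
 (nat_lit 26266149717720863999))) .e) .e) .e) .e) (.nd (.nd (.nd (.nd (.lf (.negSucc (nat_lit
 19894373851882571999))) .e) .e) .e) .e)) (.nd (.nd (.nd (.nd (.nd (.lf (.negSucc (nat_lit
 6281504978016743999))) .e) .e) .e) .e) .e)) (.nd (.nd (.nd (.nd (.nd (.nd (.lf (.ofNat (nat_lit
 21888389776812300000))) .e) .e) .e) .e) (.nd (.nd (.nd (.nd (.lf (.negSucc (nat_lit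
 6529310727867899999))) .e) .e) .e) .e)) (.nd (.nd (.nd (.nd (.nd (.lf (.negSucc (nat_lit
 9191140232881319999))) .e) .e) .e) .e) .e)))) .e) .e) .e) .e))) (.nd (.nd (.nd (.nd (.nd (.nd
 (.nd (.nd .e (.nd (.nd (.nd (.nd (.nd (.nd (.lf (.negSucc (nat_lit 253999532076828976223))) .e)
 .e) .e) .e) .e) .e)) (.nd (.nd (.nd (.nd (.nd (.nd (.nd (.lf (.negSucc (nat_lit
 203624612132822538263))) .e) .e) .e) .e) .e) .e) (.nd (.nd (.nd (.nd (.nd (.nd (.lf (.ofNat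
 (nat_lit 59515139608648972128))) .e) .e) .e) .e) .e) .e))) .e) .e) .e) .e) (.nd (.nd (.nd (.nd
 (.nd (.nd (.nd (.nd .e (.nd (.nd (.nd (.nd (.lf (.ofNat (nat_lit 5210257025588188800))) .e) .e)
 .e) .e)) (.nd (.nd (.nd (.nd (.nd (.lf (.ofNat (nat_lit 29825389698447700560))) .e) .e) .e) .e)
 .e)) (.nd (.nd (.nd (.nd (.nd (.nd (.lf (.ofNat (nat_lit 100305414452747301600))) .e) .e) .e) .e)
 (.nd (.nd (.nd (.nd (.lf (.ofNat (nat_lit 13909904789212896960))) .e) .e) .e) .e)) (.nd (.nd (.nd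
 (.nd (.nd (.lf (.ofNat (nat_lit 21857032223702484480))) .e) .e) .e) .e) .e))) (.nd (.nd (.nd (.nd
 (.nd (.nd (.nd (.lf (.ofNat (nat_lit 139547589450878223240))) .e) .e) .e) .e) (.nd (.nd (.nd (.nd
 (.lf (.negSucc (nat_lit 83505901572408157919))) .e) .e) .e) .e)) (.nd (.nd (.nd (.nd (.nd (.lf
 (.ofNat (nat_lit 9064379494617258240))) .e) .e) .e) .e) .e)) (.nd (.nd (.nd (.nd (.nd (.nd (.lf
 (.negSucc (nat_lit 71596193062538204639))) .e) .e) .e) .e) (.nd (.nd (.nd (.nd (.lf (.ofNat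
 (nat_lit 8291154982037256000))) .e) .e) .e) .e)) (.nd (.nd (.nd (.nd (.nd (.lf (.ofNat (nat_lit
 34958278564429099200))) .e) .e) .e) .e) .e)))) .e) .e) .e) (.nd (.nd (.nd (.nd (.nd (.nd (.nd
 (.nd .e (.nd (.nd (.nd (.lf (.negSucc (nat_lit 4525298631022913999))) .e) .e) .e)) (.nd (.nd (.nd
 (.nd (.lf (.negSucc (nat_lit 7945438019120133599))) .e) .e) .e) (.nd (.nd (.nd (.lf (.ofNat
 (nat_lit 11009106378677059200))) .e) .e) .e))) (.nd (.nd (.nd (.nd (.nd (.lf (.ofNat (nat_lit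
 7183398467119621200))) .e) .e) .e) (.nd (.nd (.nd (.lf (.negSucc (nat_lit 13844795114269607999)))
 .e) .e) .e)) (.nd (.nd (.nd (.nd (.lf (.negSucc (nat_lit 15136983436419431999))) .e) .e) .e)
 .e))) (.nd (.nd (.nd (.nd (.nd (.nd (.lf (.ofNat (nat_lit 40728088625233584000))) .e) .e) .e)
 (.nd (.nd (.nd (.lf (.negSucc (nat_lit 10729050018689354399))) .e) .e) .e)) (.nd (.nd (.nd (.nd
 (.lf (.negSucc (nat_lit 40523830425802641599))) .e) .e) .e) .e)) (.nd (.nd (.nd (.nd (.nd (.lf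
 (.negSucc (nat_lit 3458710283862153599))) .e) .e) .e) .e) (.nd (.nd (.nd (.nd (.lf (.negSucc
 (nat_lit 616132332778187999))) .e) .e) .e) .e)))) (.nd (.nd (.nd (.nd (.nd (.nd (.nd (.lf (.ofNat
 (nat_lit 48080850377064151200))) .e) .e) .e) .e) (.nd (.nd (.nd (.nd (.lf (.negSucc (nat_lit
 24565633273635386399))) .e) .e) .e) .e)) (.nd (.nd (.nd (.nd (.nd (.lf (.negSucc (nat_lit
 43096368702928247999))) .e) .e) .e) .e) .e)) (.nd (.nd (.nd (.nd (.nd (.nd (.lf (.negSucc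
 (nat_lit 6497369283754591199))) .e) .e) .e) .e) (.nd (.nd (.nd (.nd (.lf (.negSucc (nat_lit
 8367885203317091999))) .e) .e) .e) .e)) (.nd (.nd (.nd (.nd (.nd (.lf (.negSucc (nat_lit
 39061446726845591999))) .e) .e) .e) .e) (.nd (.nd (.nd (.nd (.lf (.ofNat (nat_lit
 43837139951025199200))) .e) .e) .e) .e))))) .e) .e) .e))) (.nd (.nd (.nd (.nd (.nd (.nd (.nd (.nd
 .e (.nd (.nd (.nd (.nd (.nd (.lf (.negSucc (nat_lit 161982018345696319519))) .e) .e) .e) .e) .e))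
 (.nd (.nd (.nd (.nd (.nd (.nd (.lf (.negSucc (nat_lit 327421778201016522239))) .e) .e) .e) .e)
 .e) (.nd (.nd (.nd (.nd (.nd (.lf (.ofNat (nat_lit 276220634118054320640))) .e) .e) .e) .e) .e)))
 (.nd (.nd (.nd (.nd (.nd (.nd (.nd (.lf (.negSucc (nat_lit 311115208495594334479))) .e) .e) .e)
 .e) .e) (.nd (.nd (.nd (.nd (.nd (.lf (.ofNat (nat_lit 68072359183146174720))) .e) .e) .e) .e)
 .e)) (.nd (.nd (.nd (.nd (.nd (.nd (.lf (.ofNat (nat_lit 134115037395315491520))) .e) .e) .e) .e)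
 .e) (.nd (.nd (.nd (.nd (.nd (.lf (.negSucc (nat_lit 78146436667656796799))) .e) .e) .e) .e)
 .e)))) .e) .e) .e) .e) (.nd (.nd (.nd (.nd (.nd (.nd (.nd (.nd .e (.nd (.nd (.nd (.nd (.lf
 (.negSucc (nat_lit 26137343145445526399))) .e) .e) .e) .e)) (.nd (.nd (.nd (.nd (.nd (.lf
 (.negSucc (nat_lit 335175401571355932719))) .e) .e) .e) .e) (.nd (.nd (.nd (.nd (.lf (.ofNat
 (nat_lit 479989243422280465344))) .e) .e) .e) .e))) (.nd (.nd (.nd (.nd (.nd (.nd (.lf (.negSucc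
 (nat_lit 879954809308871433503))) .e) .e) .e) .e) (.nd (.nd (.nd (.nd (.lf (.ofNat (nat_lit
 487078267612356191424))) .e) .e) .e) .e)) (.nd (.nd (.nd (.nd (.nd (.lf (.ofNat (nat_lit
 371067314036153218560))) .e) .e) .e) .e) (.nd (.nd (.nd (.nd (.lf (.negSucc (nat_lit
 18090206299454774399))) .e) .e) .e) .e)))) (.nd (.nd (.nd (.nd (.nd (.nd (.nd (.lf (.negSucc
 (nat_lit 953916720339004917239))) .e) .e) .e) .e) (.nd (.nd (.nd (.nd (.lf (.ofNat (nat_lit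
 171816356135041295904))) .e) .e) .e) .e)) (.nd (.nd (.nd (.nd (.nd (.lf (.ofNat (nat_lit
 606492501522629762304))) .e) .e) .e) .e) (.nd (.nd (.nd (.nd (.lf (.ofNat (nat_lit
 24019354758508452000))) .e) .e) .e) .e))) (.nd (.nd (.nd (.nd (.nd (.nd (.lf (.ofNat (nat_lit
 291551380213246304544))) .e) .e) .e) .e) (.nd (.nd (.nd (.nd (.lf (.ofNat (nat_lit
 96882066564106089600))) .e) .e) .e) .e)) (.nd (.nd (.nd (.nd (.nd (.lf (.ofNat (nat_lit
 446509474497414962880))) .e) .e) .e) .e) (.nd (.nd (.nd (.nd (.lf (.negSucc (nat_lit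
 219999342451278727871))) .e) .e) .e) .e))))) .e) .e) .e) .e)))))

end Pool.Agent.H58.BJ.D6
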