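import Pool.Agent.H58.BJ.D6.U1
import Pool.Agent.H58.BJ.D6.U2

/-! # Certificate data (6 jets, exponent 28/25) -/

set_option autoImplicit false

namespace Pool.Agent.H58.BJ.D6

open Pool.Agent.H58.BJ

/-- rows of `G` -/
noncomputable def Y2 : List YRow := [([nat_lit 4], [(nat_lit 1, .negSucc (nat_lit 1)), (nat_lit 2,
 .negSucc (nat_lit 19)), (nat_lit 3, .ofNat (nat_lit 120)), (nat_lit 4, .negSucc (nat_lit 19)),
 (nat_lit 5, .negSucc (nat_lit 239)), (nat_lit 6, .ofNat (nat_lit 0)), (nat_lit 7, .ofNat (nat_lit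
 200)), (nat_lit 8, .negSucc (nat_lit 39)), (nat_lit 9, .ofNat (nat_lit 60)), (nat_lit 10, .ofNat
 (nat_lit 40)), (nat_lit 11, .negSucc (nat_lit 59)), (nat_lit 12, .ofNat (nat_lit 120)), (nat_lit
 14, .negSucc (nat_lit 19)), (nat_lit 15, .negSucc (nat_lit 59)), (nat_lit 16, .negSucc (nat_lit
 9)), (nat_lit 18, .negSucc (nat_lit 59)), (nat_lit 20, .negSucc (nat_lit 39)), (nat_lit 24,
 .ofNat (nat_lit 0)), (nat_lit 32, .negSucc (nat_lit 3))], nat_lit 5, [.negSucc (nat_lit
 1433382336948860), .negSucc (nat_lit 203714198668082), .negSucc (nat_lit 791978122999852),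
 .negSucc (nat_lit 44476657529442), .negSucc (nat_lit 289055038148360), .negSucc (nat_lit
 125661703703434), .ofNat (nat_lit 1520411641218), .ofNat (nat_lit 489801695991), .negSucc
 (nat_lit 43377449551083), .negSucc (nat_lit 50340054870554), .negSucc (nat_lit 11254526082514),
 .ofNat (nat_lit 2266611804848), .ofNat (nat_lit 5181992641165), .negSucc (nat_lit 4931357109558),
 .negSucc (nat_lit 9734405009853), .negSucc (nat_lit 2891158980509), .negSucc (nat_lit
 2130023792019), .ofNat (nat_lit 625713099385), .ofNat (nat_lit 80506224554)]), ([nat_lit 0,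
 nat_lit 3], [(nat_lit 1, .negSucc (nat_lit 3)), (nat_lit 2, .negSucc (nat_lit 39)), (nat_lit 3,
 .ofNat (nat_lit 144)), (nat_lit 4, .negSucc (nat_lit 87)), (nat_lit 5, .negSucc (nat_lit 191)),
 (nat_lit 6, .ofNat (nat_lit 288)), (nat_lit 7, .ofNat (nat_lit 80)), (nat_lit 8, .negSucc
 (nat_lit 79)), (nat_lit 9, .ofNat (nat_lit 24)), (nat_lit 10, .negSucc (nat_lit 367)), (nat_lit
 12, .ofNat (nat_lit 48)), (nat_lit 14, .ofNat (nat_lit 160)), (nat_lit 16, .negSucc (nat_lit
 67)), (nat_lit 18, .ofNat (nat_lit 48)), (nat_lit 20, .ofNat (nat_lit 32)), (nat_lit 24, .ofNat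
 (nat_lit 96)), (nat_lit 32, .negSucc (nat_lit 7))], nat_lit 5, [.ofNat (nat_lit 639452912601092),
 .negSucc (nat_lit 614237906579961), .ofNat (nat_lit 144090114463630), .negSucc (nat_lit
 46925468506895), .ofNat (nat_lit 47781836560427), .ofNat (nat_lit 66438233268627), .negSucc
 (nat_lit 16656989230703), .ofNat (nat_lit 1657059039492), .ofNat (nat_lit 35269391695313), .ofNat
 (nat_lit 0), .ofNat (nat_lit 5330193209923), .negSucc (nat_lit 4379546769550), .ofNat (nat_lit
 0), .ofNat (nat_lit 3323046427794), .ofNat (nat_lit 0), .ofNat (nat_lit 3483905681750), .ofNat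
 (nat_lit 434122701086), .negSucc (nat_lit 1545173277289), .negSucc (nat_lit 106019187437)]),
 ([nat_lit 1, nat_lit 2], [(nat_lit 1, .negSucc (nat_lit 3)), (nat_lit 2, .negSucc (nat_lit 39)),
 (nat_lit 3, .ofNat (nat_lit 96)), (nat_lit 4, .negSucc (nat_lit 111)), (nat_lit 5, .negSucc
 (nat_lit 47)), (nat_lit 6, .ofNat (nat_lit 432)), (nat_lit 8, .negSucc (nat_lit 79)), (nat_lit 9,
 .negSucc (nat_lit 431)), (nat_lit 10, .negSucc (nat_lit 191)), (nat_lit 12, .ofNat (nat_lit
 144)), (nat_lit 15, .ofNat (nat_lit 288)), (nat_lit 16, .negSucc (nat_lit 43)), (nat_lit 18,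
 .ofNat (nat_lit 0)), (nat_lit 20, .negSucc (nat_lit 47)), (nat_lit 24, .ofNat (nat_lit 48)),
 (nat_lit 32, .negSucc (nat_lit 7))], nat_lit 5, [.ofNat (nat_lit 7772435261872523), .ofNat
 (nat_lit 1088746346740359), .ofNat (nat_lit 1259337579881496), .ofNat (nat_lit 141018102567127),
 .ofNat (nat_lit 396940125106812), .ofNat (nat_lit 128575415120579), .ofNat (nat_lit
 14803908476321), .ofNat (nat_lit 68855424426523), .ofNat (nat_lit 18300280580413), .ofNat
 (nat_lit 5967379269657), .ofNat (nat_lit 8245612402528), .ofNat (nat_lit 847789105819), .ofNat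
 (nat_lit 5051035960049), .ofNat (nat_lit 840448721115), .negSucc (nat_lit 3845527585901), .ofNat
 (nat_lit 900025606923), .ofNat (nat_lit 329742407273), .ofNat (nat_lit 82472751816), .ofNat
 (nat_lit 32551058419)]), ([nat_lit 0, nat_lit 0, nat_lit 2], [(nat_lit 1, .negSucc (nat_lit 7)),
 (nat_lit 2, .negSucc (nat_lit 79)), (nat_lit 3, .ofNat (nat_lit 144)), (nat_lit 4, .negSucc
 (nat_lit 247)), (nat_lit 5, .negSucc (nat_lit 95)), (nat_lit 6, .ofNat (nat_lit 576)), (nat_lit
 8, .negSucc (nat_lit 303)), (nat_lit 10, .negSucc (nat_lit 383)), (nat_lit 12, .ofNat (nat_lit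
 576)), (nat_lit 16, .negSucc (nat_lit 159)), (nat_lit 20, .negSucc (nat_lit 383)), (nat_lit 24,
 .ofNat (nat_lit 0)), (nat_lit 32, .negSucc (nat_lit 63))], nat_lit 5, [.ofNat (nat_lit 0), .ofNat
 (nat_lit 15629798142130), .ofNat (nat_lit 0), .ofNat (nat_lit 22367566846996), .ofNat (nat_lit
 0), .negSucc (nat_lit 27881588348985), .ofNat (nat_lit 3164573593044), .ofNat (nat_lit 0),
 .negSucc (nat_lit 6510223216474), .ofNat (nat_lit 0), .ofNat (nat_lit 4310475147603), .negSucc
 (nat_lit 475012197483), .ofNat (nat_lit 0), .ofNat (nat_lit 0), .ofNat (nat_lit 0), .negSucc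
 (nat_lit 301780960734), .ofNat (nat_lit 0), .ofNat (nat_lit 264734859200), .negSucc (nat_lit
 89796841676)]), ([nat_lit 0, nat_lit 1, nat_lit 1], [(nat_lit 1, .negSucc (nat_lit 7)), (nat_lit
 2, .negSucc (nat_lit 79)), (nat_lit 3, .ofNat (nat_lit 96)), (nat_lit 4, .negSucc (nat_lit 271)),
 (nat_lit 6, .ofNat (nat_lit 576)), (nat_lit 8, .negSucc (nat_lit 351)), (nat_lit 9, .negSucc
 (nat_lit 287)), (nat_lit 12, .ofNat (nat_lit 864)), (nat_lit 16, .negSucc (nat_lit 135)),
 (nat_lit 18, .negSucc (nat_lit 575)), (nat_lit 24, .ofNat (nat_lit 192)), (nat_lit 32, .negSucc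
 (nat_lit 15))], nat_lit 5, [.negSucc (nat_lit 1353719786896425), .negSucc (nat_lit
 249644609844064), .negSucc (nat_lit 205556891686222), .negSucc (nat_lit 9302611149798), .negSucc
 (nat_lit 54341084566212), .negSucc (nat_lit 30558157960754), .negSucc (nat_lit 941961498439),
 .negSucc (nat_lit 4899973027732), .negSucc (nat_lit 3638062794128), .negSucc (nat_lit
 1617736724830), .negSucc (nat_lit 1260618158319), .negSucc (nat_lit 352290433346), .ofNat
 (nat_lit 0), .ofNat (nat_lit 985394566936), .ofNat (nat_lit 0), .negSucc (nat_lit 376696213709),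
 .ofNat (nat_lit 142661353521), .negSucc (nat_lit 135049215581), .negSucc (nat_lit 21991201857)])]

/-- the commands -/
noncomputable def C2 : List Cmd := [.g Y2]

theorem c_ok2 : okL 6 ES C2 = true := by decide +kernel

theorem t_ok2 : eqT (run (.ofNat (nat_lit 28)) (.ofNat (nat_lit 25)) XT DD C2 U1) U2 = true := by decide +kernel

end Pool.Agent.H58.BJ.D6
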