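import Pool.Agent.H58.BJ.D6.D

/-! # Certificate data (6 jets, exponent 28/25) -/

set_option autoImplicit false

namespace Pool.Agent.H58.BJ.D6

open Pool.Agent.H58.BJ

/-- result of the first 3 groups -/
noncomputable def U3 : Tr := (.nd (.nd (.nd (.nd (.nd (.nd (.nd .e (.nd (.nd (.nd (.nd (.nd (.nd
 (.nd (.nd .e (.nd (.lf (.ofNat (nat_lit 39956968410169200))) .e)) (.nd (.nd (.lf (.ofNat (nat_lit
 282787057162538288))) .e) .e)) (.nd (.nd (.nd (.lf (.ofNat (nat_lit 232780466980208152))) .e) .e)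
 (.nd (.nd (.lf (.ofNat (nat_lit 303673925597438400))) .e) .e))) (.nd (.nd (.nd (.nd (.lf
 (.negSucc (nat_lit 1745043093495780239))) .e) .e) (.nd (.nd (.lf (.ofNat (nat_lit
 1067642444928516000))) .e) .e)) (.nd (.nd (.nd (.lf (.ofNat (nat_lit 1273611946827942144))) .e)
 .e) .e))) (.nd (.nd (.nd (.nd (.nd (.lf (.negSucc (nat_lit 3289350089496433647))) .e) .e) (.nd
 (.nd (.lf (.ofNat (nat_lit 1524083904901098000))) .e) .e)) (.nd (.nd (.nd (.lf (.ofNat (nat_lit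
 3253554432603576096))) .e) .e) .e)) (.nd (.nd (.nd (.nd (.lf (.negSucc (nat_lit
 1296904393005432095))) .e) .e) .e) (.nd (.nd (.nd (.lf (.ofNat (nat_lit 12668807010732000))) .e)
 .e) .e)))) (.nd (.nd (.nd (.nd (.nd (.nd (.lf (.negSucc (nat_lit 3231372983719715823))) .e) .e)
 .e) (.nd (.nd (.nd (.lf (.ofNat (nat_lit 1789159746022108272))) .e) .e) .e)) (.nd (.nd (.nd (.nd
 (.lf (.ofNat (nat_lit 3004697298639073440))) .e) .e) .e) .e)) (.nd (.nd (.nd (.nd (.nd (.lf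
 (.negSucc (nat_lit 769852964498247551))) .e) .e) .e) (.nd (.nd (.nd (.lf (.negSucc (nat_lit
 299948396484669599))) .e) .e) .e)) (.nd (.nd (.nd (.nd (.lf (.negSucc (nat_lit
 675829652794145519))) .e) .e) .e) (.nd (.nd (.nd (.lf (.ofNat (nat_lit 408648428804390400))) .e)
 .e) .e))))) (.nd (.nd (.nd (.nd (.nd (.nd (.nd (.lf (.ofNat (nat_lit 141169690604286264))) .e)
 .e) .e) .e) (.nd (.nd (.nd (.nd (.lf (.ofNat (nat_lit 1564397711904017520))) .e) .e) .e) (.nd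
 (.nd (.nd (.lf (.negSucc (nat_lit 62992857825869999))) .e) .e) .e))) (.nd (.nd (.nd (.nd (.nd
 (.lf (.ofNat (nat_lit 113518113737885472))) .e) .e) .e) (.nd (.nd (.nd (.lf (.negSucc (nat_lit
 504681873910384799))) .e) .e) .e)) (.nd (.nd (.nd (.nd (.lf (.negSucc (nat_lit
 159309756695090399))) .e) .e) .e) .e))) (.nd (.nd (.nd (.nd (.nd (.nd (.lf (.negSucc (nat_lit
 1319367877683491423))) .e) .e) .e) .e) (.nd (.nd (.nd (.nd (.lf (.negSucc (nat_lit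
 409231956416842319))) .e) .e) .e) (.nd (.nd (.nd (.lf (.negSucc (nat_lit 106553457233637599)))
 .e) .e) .e))) (.nd (.nd (.nd (.nd (.nd (.lf (.negSucc (nat_lit 897266950319147999))) .e) .e) .e)
 .e) (.nd (.nd (.nd (.nd (.lf (.ofNat (nat_lit 1855285488044449968))) .e) .e) .e) .e))))) .e))
 (.nd (.nd (.nd (.nd (.nd (.nd (.nd (.nd .e (.nd (.nd (.lf (.negSucc (nat_lit
 590934834672398399))) .e) .e)) (.nd (.nd (.nd (.lf (.ofNat (nat_lit 1077160700845056368))) .e)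
 .e) .e)) (.nd (.nd (.nd (.nd (.lf (.negSucc (nat_lit 265801572850862591))) .e) .e) .e) (.nd (.nd
 (.nd (.lf (.negSucc (nat_lit 5271950883023036159))) .e) .e) .e))) (.nd (.nd (.nd (.nd (.nd (.lf
 (.negSucc (nat_lit 13087663985065114959))) .e) .e) .e) (.nd (.nd (.nd (.lf (.negSucc (nat_lit
 15513774967116914047))) .e) .e) .e)) (.nd (.nd (.nd (.nd (.lf (.negSucc (nat_lit
 3387618011115964223))) .e) .e) .e) (.nd (.nd (.nd (.lf (.ofNat (nat_lit 371910967137719840))) .e)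
 .e) .e)))) (.nd (.nd (.nd (.nd (.nd (.nd (.lf (.negSucc (nat_lit 31084302818606027743))) .e) .e)
 .e) (.nd (.nd (.nd (.lf (.negSucc (nat_lit 8930230090194444095))) .e) .e) .e)) (.nd (.nd (.nd
 (.nd (.lf (.negSucc (nat_lit 5616893318394725439))) .e) .e) .e) .e)) (.nd (.nd (.nd (.nd (.nd
 (.lf (.ofNat (nat_lit 20384497123510165248))) .e) .e) .e) (.nd (.nd (.nd (.lf (.negSucc (nat_lit
 2963087397528742559))) .e) .e) .e)) (.nd (.nd (.nd (.nd (.lf (.negSucc (nat_lit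
 5229745778073025599))) .e) .e) .e) (.nd (.nd (.nd (.lf (.negSucc (nat_lit 8346442535085524159)))
 .e) .e) .e))))) (.nd (.nd (.nd (.nd (.nd (.nd (.nd (.lf (.negSucc (nat_lit 8583154503518107047)))
 .e) .e) .e) .e) (.nd (.nd (.nd (.nd (.lf (.ofNat (nat_lit 13115532284946336))) .e) .e) .e) (.nd
 (.nd (.nd (.lf (.negSucc (nat_lit 4075450191374012879))) .e) .e) .e))) (.nd (.nd (.nd (.nd (.nd
 (.lf (.negSucc (nat_lit 271510127108956415))) .e) .e) .e) (.nd (.nd (.nd (.lf (.negSucc (nat_lit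
 5399131352280841439))) .e) .e) .e)) (.nd (.nd (.nd (.nd (.lf (.negSucc (nat_lit
 1026802371480537119))) .e) .e) .e) .e))) (.nd (.nd (.nd (.nd (.nd (.nd (.lf (.negSucc (nat_lit
 1154172249143980319))) .e) .e) .e) .e) (.nd (.nd (.nd (.nd (.lf (.negSucc (nat_lit
 2643806398371664319))) .e) .e) .e) (.nd (.nd (.nd (.lf (.negSucc (nat_lit 2184893477844491999)))
 .e) .e) .e))) (.nd (.nd (.nd (.nd (.nd (.lf (.negSucc (nat_lit 4362967161199599679))) .e) .e) .e)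
 .e) (.nd (.nd (.nd (.nd (.lf (.negSucc (nat_lit 365785976862664127))) .e) .e) .e) .e))))) .e)
 .e)) (.nd (.nd (.nd (.nd (.nd (.nd (.nd (.nd .e (.nd (.nd (.nd (.lf (.ofNat (nat_lit
 3004663001808509224))) .e) .e) .e)) (.nd (.nd (.nd (.nd (.lf (.negSucc (nat_lit
 5842669546354479839))) .e) .e) .e) .e)) (.nd (.nd (.nd (.nd (.nd (.lf (.negSucc (nat_lit
 18876398018162542159))) .e) .e) .e) .e) (.nd (.nd (.nd (.nd (.lf (.negSucc (nat_lit
 34641178471327137983))) .e) .e) .e) .e))) (.nd (.nd (.nd (.nd (.nd (.nd (.lf (.negSucc (nat_lit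
 17486587647933075343))) .e) .e) .e) .e) (.nd (.nd (.nd (.nd (.lf (.ofNat (nat_lit
 6757760309247535424))) .e) .e) .e) .e)) (.nd (.nd (.nd (.nd (.nd (.lf (.negSucc (nat_lit
 16998264425944353599))) .e) .e) .e) .e) (.nd (.nd (.nd (.nd (.lf (.negSucc (nat_lit
 24250256084215277519))) .e) .e) .e) .e)))) (.nd (.nd (.nd (.nd (.nd (.nd (.nd (.lf (.ofNat
 (nat_lit 28334510118884951028))) .e) .e) .e) .e) (.nd (.nd (.nd (.nd (.lf (.ofNat (nat_lit
 21330021976146036768))) .e) .e) .e) .e)) (.nd (.nd (.nd (.nd (.nd (.lf (.negSucc (nat_lit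
 19706792619807699071))) .e) .e) .e) .e) (.nd (.nd (.nd (.nd (.lf (.negSucc (nat_lit
 2978552627908145903))) .e) .e) .e) .e))) (.nd (.nd (.nd (.nd (.nd (.nd (.lf (.negSucc (nat_lit
 24449358603144430367))) .e) .e) .e) .e) (.nd (.nd (.nd (.nd (.lf (.negSucc (nat_lit
 8972402184086240879))) .e) .e) .e) .e)) (.nd (.nd (.nd (.nd (.nd (.lf (.negSucc (nat_lit
 24465480910726153279))) .e) .e) .e) .e) (.nd (.nd (.nd (.nd (.lf (.negSucc (nat_lit
 11610731824412827247))) .e) .e) .e) .e))))) .e) .e) (.nd (.nd (.nd (.nd (.nd (.nd (.nd (.nd .e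
 (.nd (.nd (.lf (.ofNat (nat_lit 3234012880762204320))) .e) .e)) (.nd (.nd (.nd (.lf (.negSucc
 (nat_lit 2131738581341050415))) .e) .e) (.nd (.nd (.lf (.ofNat (nat_lit 599629372038532800))) .e)
 .e))) (.nd (.nd (.nd (.nd (.lf (.negSucc (nat_lit 13716878166231487199))) .e) .e) (.nd (.nd (.lf
 (.ofNat (nat_lit 3965302022800152000))) .e) .e)) (.nd (.nd (.nd (.lf (.ofNat (nat_lit
 18486004135077950976))) .e) .e) .e))) (.nd (.nd (.nd (.nd (.nd (.lf (.negSucc (nat_lit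
 284256989697608735))) .e) .e) (.nd (.nd (.lf (.ofNat (nat_lit 5925564337632444000))) .e) .e))
 (.nd (.nd (.nd (.lf (.ofNat (nat_lit 38797656532146485184))) .e) .e) .e)) (.nd (.nd (.nd (.nd
 (.lf (.negSucc (nat_lit 91494288150035903))) .e) .e) .e) (.nd (.nd (.nd (.lf (.ofNat (nat_lit
 2977153557995976000))) .e) .e) .e)))) (.nd (.nd (.nd (.nd (.nd (.nd (.lf (.ofNat (nat_lit
 37887766746088680672))) .e) .e) .e) (.nd (.nd (.nd (.lf (.ofNat (nat_lit 36521767980035802144)))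
 .e) .e) .e)) (.nd (.nd (.nd (.nd (.lf (.ofNat (nat_lit 9639584624678051520))) .e) .e) .e) .e))
 (.nd (.nd (.nd (.nd (.nd (.lf (.negSucc (nat_lit 21244350690616792319))) .e) .e) .e) (.nd (.nd
 (.nd (.lf (.ofNat (nat_lit 4062805083842932800))) .e) .e) .e)) (.nd (.nd (.nd (.nd (.lf (.ofNat
 (nat_lit 13363226110537962720))) .e) .e) .e) (.nd (.nd (.nd (.lf (.ofNat (nat_lit
 9797823400213670400))) .e) .e) .e))))) (.nd (.nd (.nd (.nd (.nd (.nd (.nd (.lf (.ofNat (nat_lit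
 16538739647992502160))) .e) .e) .e) .e) (.nd (.nd (.nd (.nd (.lf (.negSucc (nat_lit
 13477117721141647583))) .e) .e) .e) (.nd (.nd (.nd (.lf (.negSucc (nat_lit 259977604698611999)))
 .e) .e) .e))) (.nd (.nd (.nd (.nd (.nd (.lf (.ofNat (nat_lit 104623801272050112))) .e) .e) .e)
 (.nd (.nd (.nd (.lf (.negSucc (nat_lit 863497931083185599))) .e) .e) .e)) (.nd (.nd (.nd (.nd
 (.lf (.ofNat (nat_lit 1093585926157099200))) .e) .e) .e) .e))) (.nd (.nd (.nd (.nd (.nd (.nd (.lf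
 (.ofNat (nat_lit 2550001966222175424))) .e) .e) .e) .e) (.nd (.nd (.nd (.nd (.lf (.ofNat (nat_lit
 2861200124279148960))) .e) .e) .e) (.nd (.nd (.nd (.lf (.ofNat (nat_lit 1160873655629572800)))
 .e) .e) .e))) (.nd (.nd (.nd (.nd (.nd (.lf (.ofNat (nat_lit 5703752082989246400))) .e) .e) .e)
 .e) (.nd (.nd (.nd (.nd (.lf (.ofNat (nat_lit 33393155587896118176))) .e) .e) .e) .e))))) .e)
 .e))) (.nd (.nd (.nd (.nd (.nd (.nd (.nd (.nd .e (.nd (.nd (.nd (.nd (.lf (.negSucc (nat_lit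
 5486562722223210495))) .e) .e) .e) .e)) (.nd (.nd (.nd (.nd (.nd (.lf (.negSucc (nat_lit
 19388499370626720559))) .e) .e) .e) .e) .e)) (.nd (.nd (.nd (.nd (.nd (.nd (.lf (.negSucc
 (nat_lit 27140953360667215679))) .e) .e) .e) .e) .e) (.nd (.nd (.nd (.nd (.nd (.lf (.negSucc
 (nat_lit 34551536600775380351))) .e) .e) .e) .e) .e))) (.nd (.nd (.nd (.nd (.nd (.nd (.nd (.lf
 (.ofNat (nat_lit 9553797942257810016))) .e) .e) .e) .e) .e) (.nd (.nd (.nd (.nd (.nd (.lf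
 (.negSucc (nat_lit 2970481012711130495))) .e) .e) .e) .e) .e)) (.nd (.nd (.nd (.nd (.nd (.nd (.lf
 (.negSucc (nat_lit 21916528271526877151))) .e) .e) .e) .e) .e) (.nd (.nd (.nd (.nd (.nd (.lf
 (.negSucc (nat_lit 19385013091582847999))) .e) .e) .e) .e) .e)))) .e) .e) (.nd (.nd (.nd (.nd
 (.nd (.nd (.nd (.nd .e (.nd (.nd (.lf (.ofNat (nat_lit 2262721971355925920))) .e) .e)) (.nd (.nd
 (.nd (.lf (.ofNat (nat_lit 205376328630662128))) .e) .e) .e)) (.nd (.nd (.nd (.nd (.lf (.negSucc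
 (nat_lit 25747488198157312799))) .e) .e) (.nd (.nd (.lf (.ofNat (nat_lit 7032335502107612800)))
 .e) .e)) (.nd (.nd (.nd (.lf (.ofNat (nat_lit 4790172313075613952))) .e) .e) .e))) (.nd (.nd (.nd
 (.nd (.nd (.lf (.negSucc (nat_lit 20542382817443284511))) .e) .e) (.nd (.nd (.lf (.ofNat (nat_lit
 20165862812103091200))) .e) .e)) (.nd (.nd (.nd (.lf (.ofNat (nat_lit 18672221675705163968))) .e)
 .e) .e)) (.nd (.nd (.nd (.nd (.lf (.negSucc (nat_lit 9958616630012006207))) .e) .e) .e) (.nd (.nd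
 (.nd (.lf (.ofNat (nat_lit 2498646102682384000))) .e) .e) .e)))) (.nd (.nd (.nd (.nd (.nd (.nd
 (.lf (.ofNat (nat_lit 27146591442776401824))) .e) .e) .e) (.nd (.nd (.nd (.lf (.ofNat (nat_lit
 25332936724327273248))) .e) .e) .e)) (.nd (.nd (.nd (.nd (.lf (.negSucc (nat_lit
 15227488211798381759))) .e) .e) .e) .e)) (.nd (.nd (.nd (.nd (.nd (.lf (.negSucc (nat_lit
 17608441022907874559))) .e) .e) .e) (.nd (.nd (.nd (.lf (.ofNat (nat_lit 338476297720550400)))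
 .e) .e) .e)) (.nd (.nd (.nd (.nd (.lf (.ofNat (nat_lit 9724646614791881440))) .e) .e) .e) (.nd
 (.nd (.nd (.lf (.ofNat (nat_lit 11835013581171465600))) .e) .e) .e))))) (.nd (.nd (.nd (.nd (.nd
 (.nd (.nd (.lf (.ofNat (nat_lit 31981794585012312960))) .e) .e) .e) .e) (.nd (.nd (.nd (.nd (.lf
 (.negSucc (nat_lit 1409051420567147807))) .e) .e) .e) (.nd (.nd (.nd (.lf (.negSucc (nat_lit
 1113002292861739199))) .e) .e) .e))) (.nd (.nd (.nd (.nd (.nd (.lf (.negSucc (nat_lit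
 18208756931747583935))) .e) .e) .e) (.nd (.nd (.nd (.lf (.negSucc (nat_lit 6226707472683772799)))
 .e) .e) .e)) (.nd (.nd (.nd (.nd (.lf (.negSucc (nat_lit 941726201414678399))) .e) .e) .e) .e)))
 (.nd (.nd (.nd (.nd (.nd (.nd (.lf (.negSucc (nat_lit 5500873655044767551))) .e) .e) .e) .e) (.nd
 (.nd (.nd (.nd (.lf (.negSucc (nat_lit 3345486148133251679))) .e) .e) .e) (.nd (.nd (.nd (.lf
 (.negSucc (nat_lit 262721887922054399))) .e) .e) .e))) (.nd (.nd (.nd (.nd (.nd (.lf (.negSucc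
 (nat_lit 2449672234407883199))) .e) .e) .e) .e) (.nd (.nd (.nd (.nd (.lf (.ofNat (nat_lit
 22339109883524556192))) .e) .e) .e) .e))))) .e) .e)) (.nd (.nd (.nd (.nd (.nd (.nd (.nd (.nd .e
 (.nd (.nd (.nd (.lf (.ofNat (nat_lit 735618306730254336))) .e) .e) .e)) (.nd (.nd (.nd (.nd (.lf
 (.ofNat (nat_lit 48974817167159593728))) .e) .e) .e) (.nd (.nd (.nd (.lf (.negSucc (nat_lit
 32944814928257601023))) .e) .e) .e))) (.nd (.nd (.nd (.nd (.nd (.lf (.ofNat (nat_lit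
 31954562961730199424))) .e) .e) .e) (.nd (.nd (.nd (.lf (.negSucc (nat_lit
 25041987869790400511))) .e) .e) .e)) (.nd (.nd (.nd (.nd (.lf (.ofNat (nat_lit
 46538223245385523200))) .e) .e) .e) .e))) (.nd (.nd (.nd (.nd (.nd (.nd (.lf (.negSucc (nat_lit
 78162972739807858175))) .e) .e) .e) (.nd (.nd (.nd (.lf (.negSucc (nat_lit 7060408925863468031)))
 .e) .e) .e)) (.nd (.nd (.nd (.nd (.lf (.ofNat (nat_lit 4166844403633187328))) .e) .e) .e) .e))
 (.nd (.nd (.nd (.nd (.nd (.lf (.ofNat (nat_lit 76738007203369205760))) .e) .e) .e) (.nd (.nd (.nd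
 (.lf (.ofNat (nat_lit 4943371919421148416))) .e) .e) .e)) (.nd (.nd (.nd (.nd (.lf (.ofNat
 (nat_lit 33066634693633912320))) .e) .e) .e) .e)))) (.nd (.nd (.nd (.nd (.nd (.nd (.nd (.lf
 (.negSucc (nat_lit 154577513933541689087))) .e) .e) .e) .e) (.nd (.nd (.nd (.nd (.lf (.negSucc
 (nat_lit 24110404979060503295))) .e) .e) .e) .e)) (.nd (.nd (.nd (.nd (.nd (.lf (.ofNat (nat_lit
 84497008288508711424))) .e) .e) .e) (.nd (.nd (.nd (.lf (.ofNat (nat_lit 21608914764116291328)))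
 .e) .e) .e)) (.nd (.nd (.nd (.nd (.lf (.ofNat (nat_lit 6771140864569638144))) .e) .e) .e) .e)))
 (.nd (.nd (.nd (.nd (.nd (.nd (.lf (.ofNat (nat_lit 67711216200351609600))) .e) .e) .e) .e) (.nd
 (.nd (.nd (.nd (.lf (.ofNat (nat_lit 23615710227084971520))) .e) .e) .e) .e)) (.nd (.nd (.nd (.nd
 (.nd (.lf (.ofNat (nat_lit 66016981666231441920))) .e) .e) .e) .e) (.nd (.nd (.nd (.nd (.lf
 (.negSucc (nat_lit 25539337663164596735))) .e) .e) .e) .e))))) .e) .e) .e))) (.nd (.nd (.nd (.nd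
 (.nd (.nd (.nd (.nd .e (.nd (.nd (.nd (.nd (.nd (.lf (.ofNat (nat_lit 10059651436051417200))) .e)
 .e) .e) .e) .e)) (.nd (.nd (.nd (.nd (.nd (.nd (.lf (.ofNat (nat_lit 36735912676699120416))) .e)
 .e) .e) .e) .e) .e)) (.nd (.nd (.nd (.nd (.nd (.nd (.nd (.lf (.ofNat (nat_lit
 59099207981173519996))) .e) .e) .e) .e) .e) .e) (.nd (.nd (.nd (.nd (.nd (.nd (.lf (.negSucc
 (nat_lit 54778918935711438911))) .e) .e) .e) .e) .e) .e))) .e) .e) (.nd (.nd (.nd (.nd (.nd (.nd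
 (.nd (.nd .e (.nd (.nd (.lf (.ofNat (nat_lit 2394025017690094800))) .e) .e)) (.nd (.nd (.nd (.lf
 (.ofNat (nat_lit 4329546608232209976))) .e) .e) .e)) (.nd (.nd (.nd (.nd (.lf (.negSucc (nat_lit
 27121301925068739599))) .e) .e) .e) (.nd (.nd (.nd (.lf (.ofNat (nat_lit 11004293229843083904)))
 .e) .e) .e))) (.nd (.nd (.nd (.nd (.nd (.lf (.ofNat (nat_lit 1926095417699091696))) .e) .e) (.nd
 (.nd (.lf (.ofNat (nat_lit 13804021269806191200))) .e) .e)) (.nd (.nd (.nd (.lf (.ofNat (nat_lit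
 15181455099105047136))) .e) .e) .e)) (.nd (.nd (.nd (.nd (.lf (.negSucc (nat_lit
 55361247667204307615))) .e) .e) .e) (.nd (.nd (.nd (.lf (.ofNat (nat_lit 2444428692542328000)))
 .e) .e) .e)))) (.nd (.nd (.nd (.nd (.nd (.nd (.lf (.ofNat (nat_lit 115224647362909309008))) .e)
 .e) .e) (.nd (.nd (.nd (.lf (.negSucc (nat_lit 9933834085340329583))) .e) .e) .e)) (.nd (.nd (.nd
 (.nd (.lf (.negSucc (nat_lit 43218795875166522719))) .e) .e) .e) .e)) (.nd (.nd (.nd (.nd (.nd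
 (.lf (.negSucc (nat_lit 70109665381862328959))) .e) .e) .e) (.nd (.nd (.nd (.lf (.negSucc
 (nat_lit 3384972765428515199))) .e) .e) .e)) (.nd (.nd (.nd (.nd (.lf (.negSucc (nat_lit
 4218002251229439119))) .e) .e) .e) (.nd (.nd (.nd (.lf (.ofNat (nat_lit 13486614272894347200)))
 .e) .e) .e))))) (.nd (.nd (.nd (.nd (.nd (.nd (.nd (.lf (.ofNat (nat_lit 141819476662224986400)))
 .e) .e) .e) .e) (.nd (.nd (.nd (.nd (.lf (.negSucc (nat_lit 20539883157161703695))) .e) .e) .e)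
 (.nd (.nd (.nd (.lf (.negSucc (nat_lit 4169168018506778399))) .e) .e) .e))) (.nd (.nd (.nd (.nd
 (.nd (.lf (.negSucc (nat_lit 81045929676689786591))) .e) .e) .e) (.nd (.nd (.nd (.lf (.negSucc
 (nat_lit 13868501462043393599))) .e) .e) .e)) (.nd (.nd (.nd (.nd (.lf (.negSucc (nat_lit
 3169514070802900799))) .e) .e) .e) .e))) (.nd (.nd (.nd (.nd (.nd (.nd (.lf (.negSucc (nat_lit
 40391229496345497503))) .e) .e) .e) .e) (.nd (.nd (.nd (.nd (.lf (.negSucc (nat_lit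
 16548669644069536559))) .e) .e) .e) (.nd (.nd (.nd (.lf (.negSucc (nat_lit 1269288243994924799)))
 .e) .e) .e))) (.nd (.nd (.nd (.nd (.nd (.lf (.negSucc (nat_lit 45788241627046418399))) .e) .e)
 .e) .e) (.nd (.nd (.nd (.nd (.lf (.ofNat (nat_lit 46323230649039558864))) .e) .e) .e) .e))))) .e)
 .e)) (.nd (.nd (.nd (.nd (.nd (.nd (.nd (.nd .e (.nd (.nd (.nd (.lf (.negSucc (nat_lit
 4051114847094233759))) .e) .e) .e)) (.nd (.nd (.nd (.nd (.lf (.negSucc (nat_lit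
 1865170619807674879))) .e) .e) .e) .e)) (.nd (.nd (.nd (.nd (.nd (.lf (.negSucc (nat_lit
 68357555969915783071))) .e) .e) .e) (.nd (.nd (.nd (.lf (.negSucc (nat_lit
 88412503532897429503))) .e) .e) .e)) (.nd (.nd (.nd (.nd (.lf (.ofNat (nat_lit
 46715849343456355200))) .e) .e) .e) .e))) (.nd (.nd (.nd (.nd (.nd (.nd (.lf (.negSucc (nat_lit
 153488449963734871359))) .e) .e) .e) (.nd (.nd (.nd (.lf (.negSucc (nat_lit
 88200416238152379647))) .e) .e) .e)) (.nd (.nd (.nd (.nd (.lf (.negSucc (nat_lit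
 165749537204003358335))) .e) .e) .e) .e)) (.nd (.nd (.nd (.nd (.nd (.lf (.ofNat (nat_lit
 176722963421982117888))) .e) .e) .e) .e) (.nd (.nd (.nd (.nd (.lf (.ofNat (nat_lit
 1937094158788879360))) .e) .e) .e) .e)))) (.nd (.nd (.nd (.nd (.nd (.nd (.nd (.lf (.negSucc
 (nat_lit 55795535105831836559))) .e) .e) .e) .e) (.nd (.nd (.nd (.nd (.lf (.negSucc (nat_lit
 76118371590183408575))) .e) .e) .e) .e)) (.nd (.nd (.nd (.nd (.nd (.lf (.negSucc (nat_lit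
 30825188488481768447))) .e) .e) .e) .e) (.nd (.nd (.nd (.nd (.lf (.negSucc (nat_lit
 3722653340131475903))) .e) .e) .e) .e))) (.nd (.nd (.nd (.nd (.nd (.nd (.lf (.ofNat (nat_lit
 13981673977599892416))) .e) .e) .e) .e) (.nd (.nd (.nd (.nd (.lf (.negSucc (nat_lit
 10318117196776650239))) .e) .e) .e) .e)) (.nd (.nd (.nd (.nd (.nd (.lf (.negSucc (nat_lit
 3891195384970250879))) .e) .e) .e) .e) (.nd (.nd (.nd (.nd (.lf (.ofNat (nat_lit
 87094973195383948800))) .e) .e) .e) .e))))) .e) .e) .e)) (.nd (.nd (.nd (.nd (.nd (.nd (.nd (.nd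
 .e (.nd (.nd (.nd (.nd (.lf (.negSucc (nat_lit 24574251438965588351))) .e) .e) .e) .e)) (.nd (.nd
 (.nd (.nd (.nd (.lf (.ofNat (nat_lit 14288382222942467520))) .e) .e) .e) .e) (.nd (.nd (.nd (.nd
 (.lf (.ofNat (nat_lit 21479563362276786816))) .e) .e) .e) .e))) (.nd (.nd (.nd (.nd (.nd (.nd
 (.lf (.ofNat (nat_lit 81749489121292118208))) .e) .e) .e) .e) (.nd (.nd (.nd (.nd (.lf (.negSucc
 (nat_lit 145477126829615420159))) .e) .e) .e) .e)) (.nd (.nd (.nd (.nd (.nd (.lf (.ofNat (nat_lit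
 189036945361465784064))) .e) .e) .e) .e) .e))) (.nd (.nd (.nd (.nd (.nd (.nd (.nd (.lf (.ofNat
 (nat_lit 53242782007975792656))) .e) .e) .e) .e) (.nd (.nd (.nd (.nd (.lf (.negSucc (nat_lit
 274306394741687367551))) .e) .e) .e) .e)) (.nd (.nd (.nd (.nd (.nd (.lf (.negSucc (nat_lit
 63577349587272688127))) .e) .e) .e) .e) .e)) (.nd (.nd (.nd (.nd (.nd (.nd (.lf (.ofNat (nat_lit
 37252267167587322240))) .e) .e) .e) .e) (.nd (.nd (.nd (.nd (.lf (.ofNat (nat_lit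
 4785188590142763840))) .e) .e) .e) .e)) (.nd (.nd (.nd (.nd (.nd (.lf (.ofNat (nat_lit
 8285272221413502720))) .e) .e) .e) .e) .e)))) .e) .e) .e) (.nd (.nd (.nd (.nd (.nd (.nd (.nd (.nd
 .e (.nd (.nd (.nd (.lf (.negSucc (nat_lit 7673657055199446159))) .e) .e) .e)) (.nd (.nd (.nd (.nd
 (.lf (.negSucc (nat_lit 16920941202383815199))) .e) .e) .e) (.nd (.nd (.nd (.lf (.ofNat (nat_lit
 9480454348196163840))) .e) .e) .e))) (.nd (.nd (.nd (.nd (.nd (.lf (.ofNat (nat_lit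
 5397715826839081440))) .e) .e) .e) (.nd (.nd (.nd (.lf (.ofNat (nat_lit 14369372227822682560)))
 .e) .e) .e)) (.nd (.nd (.nd (.nd (.lf (.ofNat (nat_lit 22289037345079439040))) .e) .e) .e) (.nd
 (.nd (.nd (.lf (.negSucc (nat_lit 366173091378559999))) .e) .e) .e)))) (.nd (.nd (.nd (.nd (.nd
 (.nd (.lf (.ofNat (nat_lit 54644000054478239520))) .e) .e) .e) (.nd (.nd (.nd (.lf (.ofNat
 (nat_lit 52126954491389972640))) .e) .e) .e)) (.nd (.nd (.nd (.nd (.lf (.negSucc (nat_lit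
 29813192750994206399))) .e) .e) .e) .e)) (.nd (.nd (.nd (.nd (.nd (.lf (.negSucc (nat_lit
 1309727434984508159))) .e) .e) .e) (.nd (.nd (.nd (.lf (.negSucc (nat_lit 9861210660573359999)))
 .e) .e) .e)) (.nd (.nd (.nd (.nd (.lf (.ofNat (nat_lit 29644780410222888800))) .e) .e) .e) .e))))
 (.nd (.nd (.nd (.nd (.nd (.nd (.nd (.lf (.ofNat (nat_lit 1314832763856779520))) .e) .e) .e) .e)
 (.nd (.nd (.nd (.nd (.lf (.negSucc (nat_lit 23082798831182952479))) .e) .e) .e) (.nd (.nd (.nd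
 (.lf (.negSucc (nat_lit 2421174430931567999))) .e) .e) .e))) (.nd (.nd (.nd (.nd (.nd (.lf
 (.ofNat (nat_lit 3490309375791988800))) .e) .e) .e) (.nd (.nd (.nd (.lf (.negSucc (nat_lit
 6821757341525759999))) .e) .e) .e)) (.nd (.nd (.nd (.nd (.lf (.negSucc (nat_lit
 707383873684319999))) .e) .e) .e) .e))) (.nd (.nd (.nd (.nd (.nd (.nd (.lf (.ofNat (nat_lit
 24492897472658669760))) .e) .e) .e) .e) (.nd (.nd (.nd (.nd (.lf (.ofNat (nat_lit
 2130804517304013600))) .e) .e) .e) (.nd (.nd (.nd (.lf (.ofNat (nat_lit 269306923617168000))) .e)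
 .e) .e))) (.nd (.nd (.nd (.nd (.nd (.lf (.ofNat (nat_lit 25232027933086248000))) .e) .e) .e) .e)
 (.nd (.nd (.nd (.nd (.lf (.ofNat (nat_lit 23311679658744156960))) .e) .e) .e) .e))))) .e) .e)
 .e)))) (.nd (.nd (.nd (.nd (.nd (.nd (.nd (.nd .e (.nd (.nd (.nd (.nd (.nd (.nd (.lf (.ofNat
 (nat_lit 13692293640121533664))) .e) .e) .e) .e) .e) .e)) (.nd (.nd (.nd (.nd (.nd (.nd (.nd (.lf
 (.ofNat (nat_lit 22768461480775081120))) .e) .e) .e) .e) .e) .e) .e)) .e) .e) .e) (.nd (.nd (.nd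
 (.nd (.nd (.nd (.nd (.nd .e (.nd (.nd (.nd (.lf (.negSucc (nat_lit 7823916936435493871))) .e) .e)
 .e)) (.nd (.nd (.nd (.nd (.lf (.ofNat (nat_lit 32079035063748170112))) .e) .e) .e) .e)) (.nd (.nd
 (.nd (.nd (.nd (.lf (.ofNat (nat_lit 320895419795270736))) .e) .e) .e) .e) (.nd (.nd (.nd (.nd
 (.lf (.ofNat (nat_lit 111887709537457730880))) .e) .e) .e) .e))) (.nd (.nd (.nd (.nd (.nd (.nd
 (.lf (.negSucc (nat_lit 96781031931213819743))) .e) .e) .e) (.nd (.nd (.nd (.lf (.ofNat (nat_lit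
 739672205714348544))) .e) .e) .e)) (.nd (.nd (.nd (.nd (.lf (.negSucc (nat_lit
 101896670850104587967))) .e) .e) .e) .e)) (.nd (.nd (.nd (.nd (.nd (.lf (.ofNat (nat_lit
 85053458154035114496))) .e) .e) .e) .e) (.nd (.nd (.nd (.nd (.lf (.ofNat (nat_lit
 44522542781385279360))) .e) .e) .e) .e)))) (.nd (.nd (.nd (.nd (.nd (.nd (.nd (.lf (.negSucc
 (nat_lit 259212615806502701783))) .e) .e) .e) .e) (.nd (.nd (.nd (.nd (.lf (.negSucc (nat_lit
 75554050127080027679))) .e) .e) .e) .e)) (.nd (.nd (.nd (.nd (.nd (.lf (.ofNat (nat_lit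
 144234827858262562560))) .e) .e) .e) .e) (.nd (.nd (.nd (.nd (.lf (.negSucc (nat_lit
 5250807814958453663))) .e) .e) .e) .e))) (.nd (.nd (.nd (.nd (.nd (.nd (.lf (.ofNat (nat_lit
 128348030027789351712))) .e) .e) .e) .e) (.nd (.nd (.nd (.nd (.lf (.ofNat (nat_lit
 36661497128716026240))) .e) .e) .e) .e)) (.nd (.nd (.nd (.nd (.nd (.lf (.ofNat (nat_lit
 135409692185667858240))) .e) .e) .e) .e) (.nd (.nd (.nd (.nd (.lf (.negSucc (nat_lit
 37672757333178615935))) .e) .e) .e) .e))))) .e) .e) .e)) (.nd (.nd (.nd (.nd (.nd (.nd (.nd (.nd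
 .e (.nd (.nd (.nd (.nd (.lf (.ofNat (nat_lit 25889485887336013824))) .e) .e) .e) .e)) (.nd (.nd
 (.nd (.nd (.nd (.lf (.ofNat (nat_lit 93946752019413247360))) .e) .e) .e) .e) .e)) (.nd (.nd (.nd
 (.nd (.nd (.nd (.lf (.ofNat (nat_lit 248903746786659685952))) .e) .e) .e) .e) (.nd (.nd (.nd (.nd
 (.lf (.negSucc (nat_lit 168732840955626981759))) .e) .e) .e) .e)) (.nd (.nd (.nd (.nd (.nd (.lf
 (.ofNat (nat_lit 48007636626235772160))) .e) .e) .e) .e) .e))) (.nd (.nd (.nd (.nd (.nd (.nd (.nd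
 (.lf (.ofNat (nat_lit 405867252756503469296))) .e) .e) .e) .e) (.nd (.nd (.nd (.nd (.lf (.negSucc
 (nat_lit 260002374323125590911))) .e) .e) .e) .e)) (.nd (.nd (.nd (.nd (.nd (.lf (.negSucc
 (nat_lit 306425540464022176511))) .e) .e) .e) .e) .e)) (.nd (.nd (.nd (.nd (.nd (.nd (.lf
 (.negSucc (nat_lit 137086893569893462271))) .e) .e) .e) .e) .e) (.nd (.nd (.nd (.nd (.nd (.lf
 (.negSucc (nat_lit 162548633804966283519))) .e) .e) .e) .e) .e)))) .e) .e) .e) .e)) (.nd (.nd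
 (.nd (.nd (.nd (.nd (.nd (.nd .e (.nd (.nd (.nd (.nd (.nd (.lf (.negSucc (nat_lit
 160382768368774331327))) .e) .e) .e) .e) .e)) (.nd (.nd (.nd (.nd (.nd (.nd (.lf (.negSucc
 (nat_lit 342610070270690040191))) .e) .e) .e) .e) .e) (.nd (.nd (.nd (.nd (.nd (.lf (.ofNat
 (nat_lit 177524915514221998080))) .e) .e) .e) .e) .e))) (.nd (.nd (.nd (.nd (.nd (.nd (.nd (.lf
 (.negSucc (nat_lit 436990188406534865759))) .e) .e) .e) .e) .e) (.nd (.nd (.nd (.nd (.nd (.lf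
 (.ofNat (nat_lit 236829117635452788480))) .e) .e) .e) .e) .e)) (.nd (.nd (.nd (.nd (.nd (.nd (.lf
 (.ofNat (nat_lit 201680810582567478912))) .e) .e) .e) .e) .e) .e))) .e) .e) .e) (.nd (.nd (.nd
 (.nd (.nd (.nd (.nd (.nd .e (.nd (.nd (.nd (.lf (.negSucc (nat_lit 4616207218490463215))) .e) .e)
 .e)) (.nd (.nd (.nd (.nd (.lf (.negSucc (nat_lit 3600591614730578399))) .e) .e) .e) .e)) (.nd
 (.nd (.nd (.nd (.nd (.lf (.negSucc (nat_lit 2577880852595360735))) .e) .e) .e) (.nd (.nd (.nd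
 (.lf (.negSucc (nat_lit 11559705075001957055))) .e) .e) .e)) (.nd (.nd (.nd (.nd (.lf (.ofNat
 (nat_lit 5797830355599894336))) .e) .e) .e) .e))) (.nd (.nd (.nd (.nd (.nd (.nd (.lf (.negSucc
 (nat_lit 816836022777623327))) .e) .e) .e) (.nd (.nd (.nd (.lf (.ofNat (nat_lit
 10090816672427845344))) .e) .e) .e)) (.nd (.nd (.nd (.nd (.lf (.negSucc (nat_lit
 17433468586749276479))) .e) .e) .e) .e)) (.nd (.nd (.nd (.nd (.nd (.lf (.ofNat (nat_lit
 11339245001328019200))) .e) .e) .e) (.nd (.nd (.nd (.lf (.negSucc (nat_lit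
 16407521751349583999))) .e) .e) .e)) (.nd (.nd (.nd (.nd (.lf (.negSucc (nat_lit
 315884950257888479))) .e) .e) .e) .e)))) (.nd (.nd (.nd (.nd (.nd (.nd (.nd (.lf (.negSucc
 (nat_lit 64475985563990879))) .e) .e) .e) .e) (.nd (.nd (.nd (.nd (.lf (.negSucc (nat_lit
 1205999766715905503))) .e) .e) .e) .e)) (.nd (.nd (.nd (.nd (.nd (.lf (.negSucc (nat_lit
 4652364570618973247))) .e) .e) .e) (.nd (.nd (.nd (.lf (.negSucc (nat_lit 17226142141754735999)))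
 .e) .e) .e)) (.nd (.nd (.nd (.nd (.lf (.negSucc (nat_lit 6663610091300399999))) .e) .e) .e) .e)))
 (.nd (.nd (.nd (.nd (.nd (.nd (.lf (.ofNat (nat_lit 3264028938717182784))) .e) .e) .e) .e) (.nd
 (.nd (.nd (.nd (.lf (.negSucc (nat_lit 11683272584883803039))) .e) .e) .e) .e)) (.nd (.nd (.nd
 (.nd (.nd (.lf (.ofNat (nat_lit 290197726776638400))) .e) .e) .e) .e) (.nd (.nd (.nd (.nd (.lf
 (.ofNat (nat_lit 2376726677946900576))) .e) .e) .e) .e))))) .e) .e) .e)) (.nd (.nd (.nd (.nd (.nd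
 (.nd (.nd (.nd .e (.nd (.nd (.nd (.nd (.lf (.negSucc (nat_lit 37928965257356475519))) .e) .e) .e)
 .e)) (.nd (.nd (.nd (.nd (.nd (.lf (.negSucc (nat_lit 51611474060616946959))) .e) .e) .e) .e)
 (.nd (.nd (.nd (.nd (.lf (.ofNat (nat_lit 100260480876092514240))) .e) .e) .e) .e))) (.nd (.nd
 (.nd (.nd (.nd (.nd (.lf (.negSucc (nat_lit 71801076049145505439))) .e) .e) .e) .e) (.nd (.nd
 (.nd (.nd (.lf (.negSucc (nat_lit 12144221396848265279))) .e) .e) .e) .e)) (.nd (.nd (.nd (.nd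
 (.nd (.lf (.ofNat (nat_lit 82210923140673177600))) .e) .e) .e) .e) (.nd (.nd (.nd (.nd (.lf
 (.ofNat (nat_lit 14744826487885763200))) .e) .e) .e) .e)))) (.nd (.nd (.nd (.nd (.nd (.nd (.nd
 (.lf (.negSucc (nat_lit 129040430009418987719))) .e) .e) .e) .e) (.nd (.nd (.nd (.nd (.lf
 (.negSucc (nat_lit 26122584363087327839))) .e) .e) .e) .e)) (.nd (.nd (.nd (.nd (.nd (.lf (.ofNat
 (nat_lit 71177903612710621440))) .e) .e) .e) .e) (.nd (.nd (.nd (.nd (.lf (.ofNat (nat_lit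
 2859561217218763680))) .e) .e) .e) .e))) (.nd (.nd (.nd (.nd (.nd (.nd (.lf (.ofNat (nat_lit
 70340728499621424480))) .e) .e) .e) .e) (.nd (.nd (.nd (.nd (.lf (.ofNat (nat_lit
 14320556449638297600))) .e) .e) .e) .e)) (.nd (.nd (.nd (.nd (.nd (.lf (.ofNat (nat_lit
 60457141352226225600))) .e) .e) .e) .e) .e)))) .e) .e) .e) (.nd (.nd (.nd (.nd (.nd (.nd (.nd
 (.nd .e (.nd (.nd (.nd (.lf (.negSucc (nat_lit 21509541259699948895))) .e) .e) .e)) (.nd (.nd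
 (.nd (.nd (.lf (.negSucc (nat_lit 72559926143645342399))) .e) .e) .e) (.nd (.nd (.nd (.lf (.ofNat
 (nat_lit 47691860235925188096))) .e) .e) .e))) (.nd (.nd (.nd (.nd (.nd (.lf (.negSucc (nat_lit
 44430486101712686015))) .e) .e) .e) (.nd (.nd (.nd (.lf (.negSucc (nat_lit
 37205555840070827135))) .e) .e) .e)) (.nd (.nd (.nd (.nd (.lf (.ofNat (nat_lit
 14566927276507199616))) .e) .e) .e) (.nd (.nd (.nd (.lf (.ofNat (nat_lit 467657608109712000)))
 .e) .e) .e)))) (.nd (.nd (.nd (.nd (.nd (.nd (.lf (.ofNat (nat_lit 83538034338286228032))) .e)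
 .e) .e) (.nd (.nd (.nd (.lf (.negSucc (nat_lit 6321269687117535935))) .e) .e) .e)) (.nd (.nd (.nd
 (.nd (.lf (.negSucc (nat_lit 106462070553377508479))) .e) .e) .e) .e)) (.nd (.nd (.nd (.nd (.nd
 (.lf (.ofNat (nat_lit 52149455585025408000))) .e) .e) .e) (.nd (.nd (.nd (.lf (.negSucc (nat_lit
 25126615031316566399))) .e) .e) .e)) (.nd (.nd (.nd (.nd (.lf (.ofNat (nat_lit
 15334607445608829120))) .e) .e) .e) (.nd (.nd (.nd (.lf (.ofNat (nat_lit 4965264000923385600)))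
 .e) .e) .e))))) (.nd (.nd (.nd (.nd (.nd (.nd (.nd (.lf (.ofNat (nat_lit 200205117258563646720)))
 .e) .e) .e) .e) (.nd (.nd (.nd (.nd (.lf (.negSucc (nat_lit 53481348970796217023))) .e) .e) .e)
 (.nd (.nd (.nd (.lf (.negSucc (nat_lit 8133810263554075199))) .e) .e) .e))) (.nd (.nd (.nd (.nd
 (.nd (.lf (.negSucc (nat_lit 148405383879631221887))) .e) .e) .e) (.nd (.nd (.nd (.lf (.negSucc
 (nat_lit 22327458009214435199))) .e) .e) .e)) (.nd (.nd (.nd (.nd (.lf (.negSucc (nat_lit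
 1805323069882281599))) .e) .e) .e) .e))) (.nd (.nd (.nd (.nd (.nd (.nd (.lf (.negSucc (nat_lit
 58000947993119834495))) .e) .e) .e) .e) (.nd (.nd (.nd (.nd (.lf (.negSucc (nat_lit
 35288769011402082239))) .e) .e) .e) (.nd (.nd (.nd (.lf (.ofNat (nat_lit 1413967730062204800)))
 .e) .e) .e))) (.nd (.nd (.nd (.nd (.nd (.lf (.negSucc (nat_lit 81504936824899881599))) .e) .e)
 .e) .e) (.nd (.nd (.nd (.nd (.lf (.ofNat (nat_lit 152882901535846049856))) .e) .e) .e) .e)))))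
 .e) .e) .e))))) (.nd (.nd (.nd (.nd (.nd (.nd (.nd (.nd .e (.nd (.nd (.nd (.nd (.nd (.nd (.nd
 (.lf (.ofNat (nat_lit 2056549544651808924))) .e) .e) .e) .e) .e) .e) .e)) .e) .e) .e) .e) (.nd
 (.nd (.nd (.nd (.nd (.nd (.nd (.nd .e (.nd (.nd (.nd (.nd (.lf (.ofNat (nat_lit
 44051576129376248448))) .e) .e) .e) .e)) (.nd (.nd (.nd (.nd (.nd (.lf (.ofNat (nat_lit
 288955536239815999872))) .e) .e) .e) .e) .e)) (.nd (.nd (.nd (.nd (.nd (.nd (.lf (.ofNat (nat_lit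
 712313370319698064992))) .e) .e) .e) .e) .e) (.nd (.nd (.nd (.nd (.nd (.lf (.negSucc (nat_lit
 330258856890108064895))) .e) .e) .e) .e) .e))) (.nd (.nd (.nd (.nd (.nd (.nd (.nd (.lf (.ofNat
 (nat_lit 755225640544681812648))) .e) .e) .e) .e) (.nd (.nd (.nd (.nd (.lf (.negSucc (nat_lit
 36020790717853872095))) .e) .e) .e) .e)) (.nd (.nd (.nd (.nd (.nd (.lf (.negSucc (nat_lit
 426579382508297493887))) .e) .e) .e) .e) .e)) (.nd (.nd (.nd (.nd (.nd (.nd (.lf (.negSucc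
 (nat_lit 247054729108276668671))) .e) .e) .e) .e) .e) (.nd (.nd (.nd (.nd (.nd (.lf (.negSucc
 (nat_lit 232489346032457301119))) .e) .e) .e) .e) .e)))) .e) .e) .e) (.nd (.nd (.nd (.nd (.nd
 (.nd (.nd (.nd .e (.nd (.nd (.nd (.lf (.negSucc (nat_lit 5724822986486662295))) .e) .e) .e)) (.nd
 (.nd (.nd (.nd (.lf (.negSucc (nat_lit 12419192010624567599))) .e) .e) .e) (.nd (.nd (.nd (.lf
 (.ofNat (nat_lit 15952296777377993856))) .e) .e) .e))) (.nd (.nd (.nd (.nd (.nd (.lf (.ofNat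
 (nat_lit 36667931346101634384))) .e) .e) .e) (.nd (.nd (.nd (.lf (.negSucc (nat_lit
 28523634458733216095))) .e) .e) .e)) (.nd (.nd (.nd (.nd (.lf (.negSucc (nat_lit
 36195421355982899423))) .e) .e) .e) .e))) (.nd (.nd (.nd (.nd (.nd (.nd (.lf (.ofNat (nat_lit
 132063702679992005232))) .e) .e) .e) (.nd (.nd (.nd (.lf (.negSucc (nat_lit
 26575501530445166735))) .e) .e) .e)) (.nd (.nd (.nd (.nd (.lf (.negSucc (nat_lit
 63438216442133851679))) .e) .e) .e) .e)) (.nd (.nd (.nd (.nd (.nd (.lf (.negSucc (nat_lit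
 42140746382662350719))) .e) .e) .e) (.nd (.nd (.nd (.lf (.negSucc (nat_lit 6354917332700932799)))
 .e) .e) .e)) (.nd (.nd (.nd (.nd (.lf (.negSucc (nat_lit 5236490840320717679))) .e) .e) .e)
 .e)))) (.nd (.nd (.nd (.nd (.nd (.nd (.nd (.lf (.ofNat (nat_lit 180625645576431566160))) .e) .e)
 .e) .e) (.nd (.nd (.nd (.nd (.lf (.negSucc (nat_lit 15727556266872320303))) .e) .e) .e) (.nd (.nd
 (.nd (.lf (.negSucc (nat_lit 2492046553521412799))) .e) .e) .e))) (.nd (.nd (.nd (.nd (.nd (.lf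
 (.negSucc (nat_lit 111388313342373575327))) .e) .e) .e) (.nd (.nd (.nd (.lf (.negSucc (nat_lit
 8958935446838870399))) .e) .e) .e)) (.nd (.nd (.nd (.nd (.lf (.negSucc (nat_lit
 3731869284893971199))) .e) .e) .e) .e))) (.nd (.nd (.nd (.nd (.nd (.nd (.lf (.negSucc (nat_lit
 63340072802469068255))) .e) .e) .e) .e) (.nd (.nd (.nd (.nd (.lf (.negSucc (nat_lit
 24258839993337324239))) .e) .e) .e) .e)) (.nd (.nd (.nd (.nd (.nd (.lf (.negSucc (nat_lit
 64835675369618397599))) .e) .e) .e) .e) (.nd (.nd (.nd (.nd (.lf (.ofNat (nat_lit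
 55590854049501220656))) .e) .e) .e) .e))))) .e) .e) .e))) (.nd (.nd (.nd (.nd (.nd (.nd (.nd (.nd
 .e (.nd (.nd (.nd (.nd (.nd (.lf (.negSucc (nat_lit 9850212273034393823))) .e) .e) .e) .e) .e))
 (.nd (.nd (.nd (.nd (.nd (.nd (.lf (.ofNat (nat_lit 43357188813555155712))) .e) .e) .e) .e) .e)
 .e)) (.nd (.nd (.nd (.nd (.nd (.nd (.nd (.lf (.ofNat (nat_lit 93826841083554139104))) .e) .e) .e)
 .e) .e) (.nd (.nd (.nd (.nd (.nd (.lf (.negSucc (nat_lit 62946065639376822527))) .e) .e) .e) .e)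
 .e)) (.nd (.nd (.nd (.nd (.nd (.nd (.lf (.ofNat (nat_lit 16162635350392255296))) .e) .e) .e) .e)
 .e) .e))) .e) .e) .e) (.nd (.nd (.nd (.nd (.nd (.nd (.nd (.nd .e (.nd (.nd (.nd (.lf (.negSucc
 (nat_lit 9093015617296274447))) .e) .e) .e)) (.nd (.nd (.nd (.nd (.lf (.negSucc (nat_lit
 5845146656898170399))) .e) .e) .e) .e)) (.nd (.nd (.nd (.nd (.nd (.lf (.ofNat (nat_lit
 87576116895089517792))) .e) .e) .e) (.nd (.nd (.nd (.lf (.negSucc (nat_lit
 35169555215780624447))) .e) .e) .e)) (.nd (.nd (.nd (.nd (.lf (.negSucc (nat_lit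
 53566290744615726911))) .e) .e) .e) .e))) (.nd (.nd (.nd (.nd (.nd (.nd (.lf (.ofNat (nat_lit
 247553328796950400416))) .e) .e) .e) (.nd (.nd (.nd (.lf (.negSucc (nat_lit
 20220954464097161567))) .e) .e) .e)) (.nd (.nd (.nd (.nd (.lf (.negSucc (nat_lit
 102491914878581903039))) .e) .e) .e) .e)) (.nd (.nd (.nd (.nd (.nd (.lf (.negSucc (nat_lit
 88388080244592917759))) .e) .e) .e) .e) (.nd (.nd (.nd (.nd (.lf (.ofNat (nat_lit
 2328779562488696160))) .e) .e) .e) .e)))) (.nd (.nd (.nd (.nd (.nd (.nd (.nd (.lf (.ofNat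
 (nat_lit 260649414598690210080))) .e) .e) .e) .e) (.nd (.nd (.nd (.nd (.lf (.negSucc (nat_lit
 35084435056007825951))) .e) .e) .e) .e)) (.nd (.nd (.nd (.nd (.nd (.lf (.negSucc (nat_lit
 151164860785815075263))) .e) .e) .e) (.nd (.nd (.nd (.lf (.negSucc (nat_lit
 7987158141596351999))) .e) .e) .e)) (.nd (.nd (.nd (.nd (.lf (.negSucc (nat_lit
 7128881935928927999))) .e) .e) .e) .e))) (.nd (.nd (.nd (.nd (.nd (.nd (.lf (.negSucc (nat_lit
 75767038129761784127))) .e) .e) .e) .e) (.nd (.nd (.nd (.nd (.lf (.negSucc (nat_lit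
 32613105249456657119))) .e) .e) .e) .e)) (.nd (.nd (.nd (.nd (.nd (.lf (.negSucc (nat_lit
 76510129239263140799))) .e) .e) .e) .e) (.nd (.nd (.nd (.nd (.lf (.ofNat (nat_lit
 67593673980996157728))) .e) .e) .e) .e))))) .e) .e) .e)) (.nd (.nd (.nd (.nd (.nd (.nd (.nd (.nd
 .e (.nd (.nd (.nd (.nd (.lf (.negSucc (nat_lit 3735449677891999199))) .e) .e) .e) .e)) (.nd (.nd
 (.nd (.nd (.nd (.lf (.negSucc (nat_lit 3082042284685020383))) .e) .e) .e) .e) (.nd (.nd (.nd (.nd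
 (.lf (.ofNat (nat_lit 10496329923142050624))) .e) .e) .e) .e))) (.nd (.nd (.nd (.nd (.nd (.nd
 (.lf (.negSucc (nat_lit 869298840640931231))) .e) .e) .e) .e) (.nd (.nd (.nd (.nd (.lf (.negSucc
 (nat_lit 9965454733286041919))) .e) .e) .e) .e)) (.nd (.nd (.nd (.nd (.nd (.lf (.ofNat (nat_lit
 13451018157782795520))) .e) .e) .e) .e) .e))) (.nd (.nd (.nd (.nd (.nd (.nd (.nd (.lf (.negSucc
 (nat_lit 72452449440104159))) .e) .e) .e) .e) (.nd (.nd (.nd (.nd (.lf (.negSucc (nat_lit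
 14913454774466467295))) .e) .e) .e) .e)) (.nd (.nd (.nd (.nd (.nd (.lf (.negSucc (nat_lit
 2257480686250423871))) .e) .e) .e) .e) (.nd (.nd (.nd (.nd (.lf (.negSucc (nat_lit
 712948308954335999))) .e) .e) .e) .e))) (.nd (.nd (.nd (.nd (.nd (.nd (.lf (.ofNat (nat_lit
 2527188563932635456))) .e) .e) .e) .e) (.nd (.nd (.nd (.nd (.lf (.negSucc (nat_lit
 2302329495003017759))) .e) .e) .e) .e)) (.nd (.nd (.nd (.nd (.nd (.lf (.ofNat (nat_lit
 716688907587441600))) .e) .e) .e) .e) .e)))) .e) .e) .e) .e))) (.nd (.nd (.nd (.nd (.nd (.nd (.nd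
 (.nd .e (.nd (.nd (.nd (.nd (.nd (.nd (.lf (.negSucc (nat_lit 73108064427872509631))) .e) .e) .e)
 .e) .e) .e)) (.nd (.nd (.nd (.nd (.nd (.nd (.nd (.lf (.negSucc (nat_lit 90749071257888181799)))
 .e) .e) .e) .e) .e) .e) (.nd (.nd (.nd (.nd (.nd (.nd (.lf (.ofNat (nat_lit
 35733935956737014208))) .e) .e) .e) .e) .e) .e))) .e) .e) .e) .e) (.nd (.nd (.nd (.nd (.nd (.nd
 (.nd (.nd .e (.nd (.nd (.nd (.nd (.lf (.negSucc (nat_lit 6590444013354748799))) .e) .e) .e) .e))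
 (.nd (.nd (.nd (.nd (.nd (.lf (.negSucc (nat_lit 9984757380262904879))) .e) .e) .e) .e) .e)) (.nd
 (.nd (.nd (.nd (.nd (.nd (.lf (.negSucc (nat_lit 3351034253011764959))) .e) .e) .e) .e) (.nd (.nd
 (.nd (.nd (.lf (.negSucc (nat_lit 61712362588602805439))) .e) .e) .e) .e)) (.nd (.nd (.nd (.nd
 (.nd (.lf (.ofNat (nat_lit 59910776685550218240))) .e) .e) .e) .e) .e))) (.nd (.nd (.nd (.nd (.nd
 (.nd (.nd (.lf (.negSucc (nat_lit 281548787066976599))) .e) .e) .e) .e) (.nd (.nd (.nd (.nd (.lf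
 (.negSucc (nat_lit 81878504545133771039))) .e) .e) .e) .e)) (.nd (.nd (.nd (.nd (.nd (.lf
 (.negSucc (nat_lit 14723423408380181759))) .e) .e) .e) .e) .e)) (.nd (.nd (.nd (.nd (.nd (.nd
 (.lf (.ofNat (nat_lit 13080326162728212000))) .e) .e) .e) .e) (.nd (.nd (.nd (.nd (.lf (.negSucc
 (nat_lit 2660126267860905599))) .e) .e) .e) .e)) (.nd (.nd (.nd (.nd (.nd (.lf (.ofNat (nat_lit
 3462333986460667200))) .e) .e) .e) .e) .e)))) .e) .e) .e) (.nd (.nd (.nd (.nd (.nd (.nd (.nd (.nd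
 .e (.nd (.nd (.nd (.lf (.negSucc (nat_lit 4214244881504049359))) .e) .e) .e)) (.nd (.nd (.nd (.nd
 (.lf (.negSucc (nat_lit 9524536477016445599))) .e) .e) .e) (.nd (.nd (.nd (.lf (.ofNat (nat_lit
 11358811474100732160))) .e) .e) .e))) (.nd (.nd (.nd (.nd (.nd (.lf (.ofNat (nat_lit
 5650604988656972640))) .e) .e) .e) (.nd (.nd (.nd (.lf (.negSucc (nat_lit 12431177113693431359)))
 .e) .e) .e)) (.nd (.nd (.nd (.nd (.lf (.negSucc (nat_lit 4408421071311627839))) .e) .e) .e) .e)))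
 (.nd (.nd (.nd (.nd (.nd (.nd (.lf (.ofNat (nat_lit 43938018391632805920))) .e) .e) .e) (.nd (.nd
 (.nd (.lf (.negSucc (nat_lit 13825761715221752159))) .e) .e) .e)) (.nd (.nd (.nd (.nd (.lf
 (.negSucc (nat_lit 28957729238248958399))) .e) .e) .e) .e)) (.nd (.nd (.nd (.nd (.nd (.lf
 (.negSucc (nat_lit 111663349314796799))) .e) .e) .e) (.nd (.nd (.nd (.lf (.negSucc (nat_lit
 3954941541394675199))) .e) .e) .e)) (.nd (.nd (.nd (.nd (.lf (.ofNat (nat_lit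
 369249195045007200))) .e) .e) .e) .e)))) (.nd (.nd (.nd (.nd (.nd (.nd (.nd (.lf (.ofNat (nat_lit
 66776621411183851200))) .e) .e) .e) .e) (.nd (.nd (.nd (.nd (.lf (.negSucc (nat_lit
 19321649227045499039))) .e) .e) .e) (.nd (.nd (.nd (.lf (.negSucc (nat_lit 1969429357190059199)))
 .e) .e) .e))) (.nd (.nd (.nd (.nd (.nd (.lf (.negSucc (nat_lit 44435198784816780479))) .e) .e)
 .e) (.nd (.nd (.nd (.lf (.negSucc (nat_lit 3952835971968585599))) .e) .e) .e)) (.nd (.nd (.nd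
 (.nd (.lf (.negSucc (nat_lit 132435598013308799))) .e) .e) .e) .e))) (.nd (.nd (.nd (.nd (.nd
 (.nd (.lf (.negSucc (nat_lit 18853133566527236159))) .e) .e) .e) .e) (.nd (.nd (.nd (.nd (.lf
 (.negSucc (nat_lit 8933501855864498399))) .e) .e) .e) (.nd (.nd (.nd (.lf (.ofNat (nat_lit
 269152281497808000))) .e) .e) .e))) (.nd (.nd (.nd (.nd (.nd (.lf (.negSucc (nat_lit
 26363810226963767999))) .e) .e) .e) .e) (.nd (.nd (.nd (.nd (.lf (.ofNat (nat_lit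
 36048326156363792160))) .e) .e) .e) .e))))) .e) .e) .e))) (.nd (.nd (.nd (.nd (.nd (.nd (.nd (.nd
 .e (.nd (.nd (.nd (.nd (.nd (.lf (.negSucc (nat_lit 35040132984058261119))) .e) .e) .e) .e) .e))
 (.nd (.nd (.nd (.nd (.nd (.nd (.lf (.negSucc (nat_lit 25673254710890690239))) .e) .e) .e) .e) .e)
 (.nd (.nd (.nd (.nd (.nd (.lf (.ofNat (nat_lit 167859922065156829440))) .e) .e) .e) .e) .e)))
 (.nd (.nd (.nd (.nd (.nd (.nd (.nd (.lf (.negSucc (nat_lit 32948597587952793679))) .e) .e) .e)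
 .e) .e) (.nd (.nd (.nd (.nd (.nd (.lf (.negSucc (nat_lit 20764582124151924479))) .e) .e) .e) .e)
 .e)) (.nd (.nd (.nd (.nd (.nd (.nd (.lf (.ofNat (nat_lit 49981282085561368320))) .e) .e) .e) .e)
 .e) (.nd (.nd (.nd (.nd (.nd (.lf (.ofNat (nat_lit 13483243305198723200))) .e) .e) .e) .e) .e))))
 .e) .e) .e) .e) (.nd (.nd (.nd (.nd (.nd (.nd (.nd (.nd .e (.nd (.nd (.nd (.nd (.lf (.negSucc
 (nat_lit 28664704539958788479))) .e) .e) .e) .e)) (.nd (.nd (.nd (.nd (.nd (.lf (.negSucc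
 (nat_lit 371642142487801281839))) .e) .e) .e) .e) (.nd (.nd (.nd (.nd (.lf (.ofNat (nat_lit
 412750224743377990464))) .e) .e) .e) .e))) (.nd (.nd (.nd (.nd (.nd (.nd (.lf (.negSucc (nat_lit
 980829256121301597407))) .e) .e) .e) .e) (.nd (.nd (.nd (.nd (.lf (.ofNat (nat_lit
 395042861619173031744))) .e) .e) .e) .e)) (.nd (.nd (.nd (.nd (.nd (.lf (.ofNat (nat_lit
 410193828133167928320))) .e) .e) .e) .e) (.nd (.nd (.nd (.nd (.lf (.ofNat (nat_lit
 5715178583087930880))) .e) .e) .e) .e)))) (.nd (.nd (.nd (.nd (.nd (.nd (.nd (.lf (.negSucc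
 (nat_lit 1093514025085839375191))) .e) .e) .e) .e) (.nd (.nd (.nd (.nd (.lf (.ofNat (nat_lit
 152042354144765424864))) .e) .e) .e) .e)) (.nd (.nd (.nd (.nd (.nd (.lf (.ofNat (nat_lit
 639417506121377351424))) .e) .e) .e) .e) (.nd (.nd (.nd (.nd (.lf (.ofNat (nat_lit
 18133859992413733344))) .e) .e) .e) .e))) (.nd (.nd (.nd (.nd (.nd (.nd (.lf (.ofNat (nat_lit
 355094692829754207264))) .e) .e) .e) .e) (.nd (.nd (.nd (.nd (.lf (.ofNat (nat_lit
 118050494508202026240))) .e) .e) .e) .e)) (.nd (.nd (.nd (.nd (.nd (.lf (.ofNat (nat_lit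
 343675533194279004480))) .e) .e) .e) .e) (.nd (.nd (.nd (.nd (.lf (.negSucc (nat_lit
 187879633257284629631))) .e) .e) .e) .e))))) .e) .e) .e) .e)))))

end Pool.Agent.H58.BJ.D6
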