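import Pool.Agent.H58.BJ.D6.U2
import Pool.Agent.H58.BJ.D6.U3

/-! # Certificate data (6 jets, exponent 28/25) -/

set_option autoImplicit false

namespace Pool.Agent.H58.BJ.D6

open Pool.Agent.H58.BJ

/-- rows of `G` -/
noncomputable def Y3 : List YRow := [([nat_lit 0, nat_lit 0, nat_lit 0, nat_lit 1], [(nat_lit 1,
 .negSucc (nat_lit 15)), (nat_lit 2, .negSucc (nat_lit 159)), (nat_lit 3, .ofNat (nat_lit 96)),
 (nat_lit 4, .negSucc (nat_lit 591)), (nat_lit 6, .ofNat (nat_lit 576)), (nat_lit 8, .negSucc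
 (nat_lit 991)), (nat_lit 12, .ofNat (nat_lit 1152)), (nat_lit 16, .negSucc (nat_lit 703)),
 (nat_lit 24, .ofNat (nat_lit 768)), (nat_lit 32, .negSucc (nat_lit 127))], nat_lit 5, [.ofNat
 (nat_lit 0), .ofNat (nat_lit 0), .ofNat (nat_lit 0), .negSucc (nat_lit 10661550202736), .ofNat
 (nat_lit 0), .ofNat (nat_lit 0), .ofNat (nat_lit 1545595501502), .ofNat (nat_lit 0), .ofNat
 (nat_lit 0), .ofNat (nat_lit 0), .negSucc (nat_lit 844268914044), .ofNat (nat_lit 567684361879),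
 .ofNat (nat_lit 0), .ofNat (nat_lit 0), .ofNat (nat_lit 0), .ofNat (nat_lit 0), .ofNat (nat_lit
 0), .ofNat (nat_lit 20713131345), .ofNat (nat_lit 28159022303)]), ([nat_lit 0, nat_lit 0, nat_lit
 0, nat_lit 0, nat_lit 0], [(nat_lit 1, .negSucc (nat_lit 31)), (nat_lit 2, .negSucc (nat_lit
 319)), (nat_lit 4, .negSucc (nat_lit 1279)), (nat_lit 8, .negSucc (nat_lit 2559)), (nat_lit 16,
 .negSucc (nat_lit 2559)), (nat_lit 32, .negSucc (nat_lit 1023))], nat_lit 5, [.ofNat (nat_lit 0),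
 .ofNat (nat_lit 0), .ofNat (nat_lit 0), .ofNat (nat_lit 0), .ofNat (nat_lit 0), .ofNat (nat_lit
 0), .ofNat (nat_lit 0), .ofNat (nat_lit 0), .ofNat (nat_lit 0), .ofNat (nat_lit 0), .ofNat
 (nat_lit 0), .negSucc (nat_lit 16166699435), .ofNat (nat_lit 0), .ofNat (nat_lit 0), .ofNat
 (nat_lit 0), .ofNat (nat_lit 0), .ofNat (nat_lit 0), .ofNat (nat_lit 0), .ofNat (nat_lit
 249003726)]), ([nat_lit 5], [(nat_lit 1, .ofNat (nat_lit 2)), (nat_lit 2, .ofNat (nat_lit 24)),
 (nat_lit 3, .negSucc (nat_lit 179)), (nat_lit 4, .ofNat (nat_lit 30)), (nat_lit 5, .ofNat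
 (nat_lit 480)), (nat_lit 6, .ofNat (nat_lit 0)), (nat_lit 7, .negSucc (nat_lit 599)), (nat_lit 8,
 .ofNat (nat_lit 80)), (nat_lit 9, .negSucc (nat_lit 179)), (nat_lit 10, .negSucc (nat_lit 119)),
 (nat_lit 11, .ofNat (nat_lit 360)), (nat_lit 12, .negSucc (nat_lit 359)), (nat_lit 13, .negSucc
 (nat_lit 83)), (nat_lit 14, .ofNat (nat_lit 120)), (nat_lit 15, .ofNat (nat_lit 360)), (nat_lit
 16, .ofNat (nat_lit 30)), (nat_lit 18, .ofNat (nat_lit 360)), (nat_lit 20, .ofNat (nat_lit 240)),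
 (nat_lit 21, .negSucc (nat_lit 107)), (nat_lit 22, .negSucc (nat_lit 35)), (nat_lit 24, .ofNat
 (nat_lit 0)), (nat_lit 25, .negSucc (nat_lit 65)), (nat_lit 27, .negSucc (nat_lit 59)), (nat_lit
 28, .negSucc (nat_lit 59)), (nat_lit 30, .negSucc (nat_lit 215)), (nat_lit 32, .ofNat (nat_lit
 24)), (nat_lit 36, .negSucc (nat_lit 53)), (nat_lit 40, .negSucc (nat_lit 11)), (nat_lit 48,
 .negSucc (nat_lit 35)), (nat_lit 64, .ofNat (nat_lit 2))], nat_lit 6, [.ofNat (nat_lit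
 854378820651022), .ofNat (nat_lit 104962248460467), .negSucc (nat_lit 30794520424658), .ofNat
 (nat_lit 8828380173860), .negSucc (nat_lit 37551880297263), .negSucc (nat_lit 11933326303792),
 .ofNat (nat_lit 1849824054856), .negSucc (nat_lit 2357808105159), .negSucc (nat_lit
 7392315998495), .negSucc (nat_lit 3779811612677), .negSucc (nat_lit 1240625035638), .ofNat
 (nat_lit 487369996018), .ofNat (nat_lit 404165708024), .negSucc (nat_lit 1007531674859), .negSucc
 (nat_lit 539749078672), .negSucc (nat_lit 515161828549), .negSucc (nat_lit 340985707603), .ofNat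
 (nat_lit 145231558626), .ofNat (nat_lit 15928072041)]), ([nat_lit 0, nat_lit 4], [(nat_lit 1,
 .ofNat (nat_lit 4)), (nat_lit 2, .ofNat (nat_lit 48)), (nat_lit 3, .negSucc (nat_lit 239)),
 (nat_lit 4, .ofNat (nat_lit 120)), (nat_lit 5, .ofNat (nat_lit 480)), (nat_lit 6, .negSucc
 (nat_lit 479)), (nat_lit 7, .negSucc (nat_lit 399)), (nat_lit 8, .ofNat (nat_lit 160)), (nat_lit
 9, .negSucc (nat_lit 119)), (nat_lit 10, .ofNat (nat_lit 880)), (nat_lit 11, .ofNat (nat_lit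
 120)), (nat_lit 12, .negSucc (nat_lit 239)), (nat_lit 14, .negSucc (nat_lit 759)), (nat_lit 15,
 .ofNat (nat_lit 120)), (nat_lit 16, .ofNat (nat_lit 180)), (nat_lit 18, .negSucc (nat_lit 119)),
 (nat_lit 20, .negSucc (nat_lit 79)), (nat_lit 22, .ofNat (nat_lit 240)), (nat_lit 24, .negSucc
 (nat_lit 479)), (nat_lit 28, .ofNat (nat_lit 80)), (nat_lit 30, .ofNat (nat_lit 240)), (nat_lit
 32, .ofNat (nat_lit 48)), (nat_lit 36, .ofNat (nat_lit 240)), (nat_lit 40, .ofNat (nat_lit 160)),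
 (nat_lit 48, .ofNat (nat_lit 0)), (nat_lit 64, .ofNat (nat_lit 16))], nat_lit 6, [.negSucc
 (nat_lit 171467802515376), .negSucc (nat_lit 360946980521749), .ofNat (nat_lit 3308782794166),
 .negSucc (nat_lit 35695540967649), .ofNat (nat_lit 5279943045878), .negSucc (nat_lit
 12338019360584), .negSucc (nat_lit 5344886519120), .negSucc (nat_lit 791494388733), .ofNat
 (nat_lit 7538596216537), .negSucc (nat_lit 18536675139), .negSucc (nat_lit 940840731117),
 .negSucc (nat_lit 849547437330), .negSucc (nat_lit 314036665484), .ofNat (nat_lit 1109219873948),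
 .ofNat (nat_lit 0), .ofNat (nat_lit 492226257310), .ofNat (nat_lit 112932631334), .negSucc
 (nat_lit 361032445543), .negSucc (nat_lit 12229594471)])]

/-- the commands -/
noncomputable def C3 : List Cmd := [.g Y3]

theorem c_ok3 : okL 6 ES C3 = true := by decide +kernel

theorem t_ok3 : eqT (run (.ofNat (nat_lit 28)) (.ofNat (nat_lit 25)) XT DD C3 U2) U3 = true := by decide +kernel

end Pool.Agent.H58.BJ.D6
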