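import Pool.Agent.H58.BJ.D6.D

/-! # Certificate data (6 jets, exponent 28/25) -/

set_option autoImplicit false

namespace Pool.Agent.H58.BJ.D6

open Pool.Agent.H58.BJ

/-- result of the first 4 groups -/
noncomputable def U4 : Tr := (.nd (.nd (.nd (.nd (.nd (.nd (.nd .e (.nd (.nd (.nd (.nd (.nd (.nd
 (.nd (.nd .e (.nd (.lf (.ofNat (nat_lit 2806560323601600))) .e)) (.nd (.nd (.lf (.ofNat (nat_lit
 68090645193557904))) .e) .e)) (.nd (.nd (.nd (.lf (.negSucc (nat_lit 691022515821024887))) .e)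
 .e) (.nd (.nd (.lf (.ofNat (nat_lit 632916050543856000))) .e) .e))) (.nd (.nd (.nd (.nd (.lf
 (.negSucc (nat_lit 2921014361512299791))) .e) .e) (.nd (.nd (.lf (.ofNat (nat_lit
 1467535775840465600))) .e) .e)) (.nd (.nd (.nd (.lf (.ofNat (nat_lit 2503412804950419072))) .e)
 .e) .e))) (.nd (.nd (.nd (.nd (.nd (.lf (.negSucc (nat_lit 4317401804230397951))) .e) .e) (.nd
 (.nd (.lf (.ofNat (nat_lit 1939746337005093600))) .e) .e)) (.nd (.nd (.nd (.lf (.ofNat (nat_lit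
 4635734531458098272))) .e) .e) .e)) (.nd (.nd (.nd (.nd (.lf (.ofNat (nat_lit
 2538931453068859296))) .e) .e) .e) (.nd (.nd (.nd (.lf (.ofNat (nat_lit 1479390562600288000)))
 .e) .e) .e)))) (.nd (.nd (.nd (.nd (.nd (.nd (.lf (.negSucc (nat_lit 4234073092199659503))) .e)
 .e) .e) (.nd (.nd (.nd (.lf (.ofNat (nat_lit 4354681068962389776))) .e) .e) .e)) (.nd (.nd (.nd
 (.nd (.lf (.ofNat (nat_lit 3729964739513024480))) .e) .e) .e) .e)) (.nd (.nd (.nd (.nd (.nd (.lf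
 (.ofNat (nat_lit 598433830541616384))) .e) .e) .e) (.nd (.nd (.nd (.lf (.ofNat (nat_lit
 59794679420534400))) .e) .e) .e)) (.nd (.nd (.nd (.nd (.lf (.ofNat (nat_lit
 1217217953485122160))) .e) .e) .e) (.nd (.nd (.nd (.lf (.ofNat (nat_lit 1849426546750104000)))
 .e) .e) .e))))) (.nd (.nd (.nd (.nd (.nd (.nd (.nd (.lf (.negSucc (nat_lit 4803630871764322487)))
 .e) .e) .e) .e) (.nd (.nd (.nd (.nd (.lf (.ofNat (nat_lit 1238551437623609424))) .e) .e) .e) (.nd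
 (.nd (.nd (.lf (.negSucc (nat_lit 86264567092418399))) .e) .e) .e))) (.nd (.nd (.nd (.nd (.nd
 (.lf (.ofNat (nat_lit 3528103412438299296))) .e) .e) .e) (.nd (.nd (.nd (.lf (.negSucc (nat_lit
 20304000869524799))) .e) .e) .e)) (.nd (.nd (.nd (.nd (.lf (.negSucc (nat_lit
 59654442955262399))) .e) .e) .e) .e))) (.nd (.nd (.nd (.nd (.nd (.nd (.lf (.ofNat (nat_lit
 1685236558324889088))) .e) .e) .e) .e) (.nd (.nd (.nd (.nd (.lf (.ofNat (nat_lit
 602268560924990160))) .e) .e) .e) (.nd (.nd (.nd (.lf (.ofNat (nat_lit 159853069540468800))) .e)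
 .e) .e))) (.nd (.nd (.nd (.nd (.nd (.lf (.ofNat (nat_lit 2106385725123364960))) .e) .e) .e) .e)
 (.nd (.nd (.nd (.nd (.lf (.ofNat (nat_lit 900089020797814992))) .e) .e) .e) .e))))) .e)) (.nd
 (.nd (.nd (.nd (.nd (.nd (.nd (.nd .e (.nd (.nd (.lf (.ofNat (nat_lit 113572699997579328))) .e)
 .e)) (.nd (.nd (.nd (.lf (.negSucc (nat_lit 1443383059073774703))) .e) .e) .e)) (.nd (.nd (.nd
 (.nd (.lf (.negSucc (nat_lit 5517154472681726719))) .e) .e) .e) (.nd (.nd (.nd (.lf (.ofNat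
 (nat_lit 876841909226289408))) .e) .e) .e))) (.nd (.nd (.nd (.nd (.nd (.lf (.negSucc (nat_lit
 13244187708547349679))) .e) .e) .e) (.nd (.nd (.nd (.lf (.ofNat (nat_lit 11493092872263752064)))
 .e) .e) .e)) (.nd (.nd (.nd (.nd (.lf (.ofNat (nat_lit 7074235547015657280))) .e) .e) .e) (.nd
 (.nd (.nd (.lf (.ofNat (nat_lit 6123655804941300000))) .e) .e) .e)))) (.nd (.nd (.nd (.nd (.nd
 (.nd (.lf (.negSucc (nat_lit 22680620100277462111))) .e) .e) .e) (.nd (.nd (.nd (.lf (.ofNat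
 (nat_lit 11173145294913192000))) .e) .e) .e)) (.nd (.nd (.nd (.nd (.lf (.ofNat (nat_lit
 13636540859265622336))) .e) .e) .e) .e)) (.nd (.nd (.nd (.nd (.nd (.lf (.ofNat (nat_lit
 9050604947014804224))) .e) .e) .e) (.nd (.nd (.nd (.lf (.ofNat (nat_lit 413220851571625440))) .e)
 .e) .e)) (.nd (.nd (.nd (.nd (.lf (.ofNat (nat_lit 3361159699122058560))) .e) .e) .e) (.nd (.nd
 (.nd (.lf (.ofNat (nat_lit 2838580548617772864))) .e) .e) .e))))) (.nd (.nd (.nd (.nd (.nd (.nd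
 (.nd (.lf (.negSucc (nat_lit 29409156318384160199))) .e) .e) .e) .e) (.nd (.nd (.nd (.nd (.lf
 (.ofNat (nat_lit 2008333048196264928))) .e) .e) .e) (.nd (.nd (.nd (.lf (.negSucc (nat_lit
 2283997622000220815))) .e) .e) .e))) (.nd (.nd (.nd (.nd (.nd (.lf (.ofNat (nat_lit
 20715915324951035136))) .e) .e) .e) (.nd (.nd (.nd (.lf (.negSucc (nat_lit 1461581254436596319)))
 .e) .e) .e)) (.nd (.nd (.nd (.nd (.lf (.negSucc (nat_lit 406724528007561119))) .e) .e) .e) .e)))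
 (.nd (.nd (.nd (.nd (.nd (.nd (.lf (.ofNat (nat_lit 12809056310151039264))) .e) .e) .e) .e) (.nd
 (.nd (.nd (.nd (.lf (.ofNat (nat_lit 3492244561570971840))) .e) .e) .e) (.nd (.nd (.nd (.lf
 (.negSucc (nat_lit 425408299969354463))) .e) .e) .e))) (.nd (.nd (.nd (.nd (.nd (.lf (.ofNat
 (nat_lit 11918891766374315840))) .e) .e) .e) .e) (.nd (.nd (.nd (.nd (.lf (.negSucc (nat_lit
 10016189083320655679))) .e) .e) .e) .e))))) .e) .e)) (.nd (.nd (.nd (.nd (.nd (.nd (.nd (.nd .e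
 (.nd (.nd (.nd (.lf (.negSucc (nat_lit 3616082655358840855))) .e) .e) .e)) (.nd (.nd (.nd (.nd
 (.lf (.negSucc (nat_lit 24776648080853017311))) .e) .e) .e) .e)) (.nd (.nd (.nd (.nd (.nd (.lf
 (.negSucc (nat_lit 46419639112300899007))) .e) .e) .e) .e) (.nd (.nd (.nd (.nd (.lf (.ofNat
 (nat_lit 26767106478804324672))) .e) .e) .e) .e))) (.nd (.nd (.nd (.nd (.nd (.nd (.lf (.negSucc
 (nat_lit 60933491357734381519))) .e) .e) .e) .e) (.nd (.nd (.nd (.nd (.lf (.ofNat (nat_lit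
 23084310303682229312))) .e) .e) .e) .e)) (.nd (.nd (.nd (.nd (.nd (.lf (.ofNat (nat_lit
 18938371646360669760))) .e) .e) .e) .e) (.nd (.nd (.nd (.nd (.lf (.ofNat (nat_lit
 3568960067126173200))) .e) .e) .e) .e)))) (.nd (.nd (.nd (.nd (.nd (.nd (.nd (.lf (.negSucc
 (nat_lit 65830460934173887851))) .e) .e) .e) .e) (.nd (.nd (.nd (.nd (.lf (.ofNat (nat_lit
 14778541704534699936))) .e) .e) .e) .e)) (.nd (.nd (.nd (.nd (.nd (.lf (.ofNat (nat_lit
 40228079581626420480))) .e) .e) .e) .e) (.nd (.nd (.nd (.nd (.lf (.negSucc (nat_lit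
 1059263956855133903))) .e) .e) .e) .e))) (.nd (.nd (.nd (.nd (.nd (.nd (.lf (.ofNat (nat_lit
 24474051366730252416))) .e) .e) .e) .e) (.nd (.nd (.nd (.nd (.lf (.ofNat (nat_lit
 7541533045211765040))) .e) .e) .e) .e)) (.nd (.nd (.nd (.nd (.nd (.lf (.ofNat (nat_lit
 24051881832655441600))) .e) .e) .e) .e) (.nd (.nd (.nd (.nd (.lf (.negSucc (nat_lit
 20917939706224932815))) .e) .e) .e) .e))))) .e) .e) (.nd (.nd (.nd (.nd (.nd (.nd (.nd (.nd .e
 (.nd (.nd (.lf (.ofNat (nat_lit 1612919683842977760))) .e) .e)) (.nd (.nd (.nd (.lf (.ofNat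
 (nat_lit 3047818333600317168))) .e) .e) (.nd (.nd (.lf (.ofNat (nat_lit 1760296124364249600)))
 .e) .e))) (.nd (.nd (.nd (.nd (.lf (.negSucc (nat_lit 4031455330609135583))) .e) .e) (.nd (.nd
 (.lf (.ofNat (nat_lit 814292753618275200))) .e) .e)) (.nd (.nd (.nd (.lf (.ofNat (nat_lit
 3267651599542579968))) .e) .e) .e))) (.nd (.nd (.nd (.nd (.nd (.lf (.negSucc (nat_lit
 699925963145492351))) .e) .e) (.nd (.nd (.lf (.ofNat (nat_lit 8831508927167620800))) .e) .e))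
 (.nd (.nd (.nd (.lf (.ofNat (nat_lit 3986189414435679552))) .e) .e) .e)) (.nd (.nd (.nd (.nd (.lf
 (.negSucc (nat_lit 12706305024681559871))) .e) .e) .e) (.nd (.nd (.nd (.lf (.negSucc (nat_lit
 3918015056395295999))) .e) .e) .e)))) (.nd (.nd (.nd (.nd (.nd (.nd (.lf (.ofNat (nat_lit
 16672813185902676192))) .e) .e) .e) (.nd (.nd (.nd (.lf (.ofNat (nat_lit 9307242439347815136)))
 .e) .e) .e)) (.nd (.nd (.nd (.nd (.lf (.negSucc (nat_lit 810673792313064383))) .e) .e) .e) .e))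
 (.nd (.nd (.nd (.nd (.nd (.lf (.negSucc (nat_lit 15167962579139126783))) .e) .e) .e) (.nd (.nd
 (.nd (.lf (.negSucc (nat_lit 531352958926579199))) .e) .e) .e)) (.nd (.nd (.nd (.nd (.lf
 (.negSucc (nat_lit 463308233224612319))) .e) .e) .e) (.nd (.nd (.nd (.lf (.negSucc (nat_lit
 2403154237628015999))) .e) .e) .e))))) (.nd (.nd (.nd (.nd (.nd (.nd (.nd (.lf (.ofNat (nat_lit
 28655990947458855024))) .e) .e) .e) .e) (.nd (.nd (.nd (.nd (.lf (.ofNat (nat_lit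
 4717094000267147616))) .e) .e) .e) (.nd (.nd (.nd (.lf (.ofNat (nat_lit 915421080477556800))) .e)
 .e) .e))) (.nd (.nd (.nd (.nd (.nd (.lf (.negSucc (nat_lit 15764587547829468479))) .e) .e) .e)
 (.nd (.nd (.nd (.lf (.ofNat (nat_lit 1789668220926614400))) .e) .e) .e)) (.nd (.nd (.nd (.nd (.lf
 (.ofNat (nat_lit 451362121650115200))) .e) .e) .e) .e))) (.nd (.nd (.nd (.nd (.nd (.nd (.lf
 (.negSucc (nat_lit 12555766073842603775))) .e) .e) .e) .e) (.nd (.nd (.nd (.nd (.lf (.negSucc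
 (nat_lit 3341898691555128479))) .e) .e) .e) (.nd (.nd (.nd (.lf (.ofNat (nat_lit
 1526942193359875200))) .e) .e) .e))) (.nd (.nd (.nd (.nd (.nd (.lf (.negSucc (nat_lit
 10838801976265510079))) .e) .e) .e) .e) (.nd (.nd (.nd (.nd (.lf (.ofNat (nat_lit
 13976182896075648864))) .e) .e) .e) .e))))) .e) .e))) (.nd (.nd (.nd (.nd (.nd (.nd (.nd (.nd .e
 (.nd (.nd (.nd (.nd (.lf (.negSucc (nat_lit 18089264356637483007))) .e) .e) .e) .e)) (.nd (.nd
 (.nd (.nd (.nd (.lf (.negSucc (nat_lit 50848059410735652015))) .e) .e) .e) .e) .e)) (.nd (.nd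
 (.nd (.nd (.nd (.nd (.lf (.negSucc (nat_lit 71602157163285431615))) .e) .e) .e) .e) .e) (.nd (.nd
 (.nd (.nd (.nd (.lf (.ofNat (nat_lit 11983976807360673408))) .e) .e) .e) .e) .e))) (.nd (.nd (.nd
 (.nd (.nd (.nd (.nd (.lf (.negSucc (nat_lit 91702990438669807775))) .e) .e) .e) .e) .e) (.nd (.nd
 (.nd (.nd (.nd (.lf (.ofNat (nat_lit 57653131295193734784))) .e) .e) .e) .e) .e)) (.nd (.nd (.nd
 (.nd (.nd (.nd (.lf (.ofNat (nat_lit 34512411212069259552))) .e) .e) .e) .e) .e) (.nd (.nd (.nd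
 (.nd (.nd (.lf (.ofNat (nat_lit 36179204709588352000))) .e) .e) .e) .e) .e)))) .e) .e) (.nd (.nd
 (.nd (.nd (.nd (.nd (.nd (.nd .e (.nd (.nd (.lf (.ofNat (nat_lit 5435027998037742240))) .e) .e))
 (.nd (.nd (.nd (.lf (.ofNat (nat_lit 7152323990377669072))) .e) .e) .e)) (.nd (.nd (.nd (.nd (.lf
 (.negSucc (nat_lit 14698148283445223967))) .e) .e) (.nd (.nd (.lf (.ofNat (nat_lit
 5279167643276985600))) .e) .e)) (.nd (.nd (.nd (.lf (.negSucc (nat_lit 6765648144801503999))) .e)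
 .e) .e))) (.nd (.nd (.nd (.nd (.nd (.lf (.negSucc (nat_lit 32316222884829528319))) .e) .e) (.nd
 (.nd (.lf (.ofNat (nat_lit 20716015025867788800))) .e) .e)) (.nd (.nd (.nd (.lf (.ofNat (nat_lit
 29277993327426357696))) .e) .e) .e)) (.nd (.nd (.nd (.nd (.lf (.negSucc (nat_lit
 6326432396842358207))) .e) .e) .e) (.nd (.nd (.nd (.lf (.negSucc (nat_lit 6642795436746383999)))
 .e) .e) .e)))) (.nd (.nd (.nd (.nd (.nd (.nd (.lf (.negSucc (nat_lit 27707050126201469407))) .e)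
 .e) .e) (.nd (.nd (.nd (.lf (.ofNat (nat_lit 15356777919887583648))) .e) .e) .e)) (.nd (.nd (.nd
 (.nd (.lf (.ofNat (nat_lit 18385451351786190784))) .e) .e) .e) .e)) (.nd (.nd (.nd (.nd (.nd (.lf
 (.negSucc (nat_lit 6956278984237417727))) .e) .e) .e) (.nd (.nd (.nd (.lf (.negSucc (nat_lit
 1214347530728937599))) .e) .e) .e)) (.nd (.nd (.nd (.nd (.lf (.negSucc (nat_lit
 965086595513922719))) .e) .e) .e) (.nd (.nd (.nd (.lf (.ofNat (nat_lit 13361861737444310400)))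
 .e) .e) .e))))) (.nd (.nd (.nd (.nd (.nd (.nd (.nd (.lf (.negSucc (nat_lit
 28409433415963351263))) .e) .e) .e) .e) (.nd (.nd (.nd (.nd (.lf (.ofNat (nat_lit
 3376092729910287264))) .e) .e) .e) (.nd (.nd (.nd (.lf (.negSucc (nat_lit 1901140757837375999)))
 .e) .e) .e))) (.nd (.nd (.nd (.nd (.nd (.lf (.ofNat (nat_lit 20056686178505008704))) .e) .e) .e)
 (.nd (.nd (.nd (.lf (.negSucc (nat_lit 1958787128874892799))) .e) .e) .e)) (.nd (.nd (.nd (.nd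
 (.lf (.negSucc (nat_lit 316728040542950399))) .e) .e) .e) .e))) (.nd (.nd (.nd (.nd (.nd (.nd
 (.lf (.ofNat (nat_lit 9874473154082740224))) .e) .e) .e) .e) (.nd (.nd (.nd (.nd (.lf (.ofNat
 (nat_lit 2385632095246528800))) .e) .e) .e) (.nd (.nd (.nd (.lf (.ofNat (nat_lit
 2088655475453779200))) .e) .e) .e))) (.nd (.nd (.nd (.nd (.nd (.lf (.ofNat (nat_lit
 12997034459805544640))) .e) .e) .e) .e) (.nd (.nd (.nd (.nd (.lf (.ofNat (nat_lit
 2518427915502978336))) .e) .e) .e) .e))))) .e) .e)) (.nd (.nd (.nd (.nd (.nd (.nd (.nd (.nd .e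
 (.nd (.nd (.nd (.lf (.ofNat (nat_lit 19912236289671399552))) .e) .e) .e)) (.nd (.nd (.nd (.nd
 (.lf (.ofNat (nat_lit 74931481301519189760))) .e) .e) .e) (.nd (.nd (.nd (.lf (.negSucc (nat_lit
 40998955949224017407))) .e) .e) .e))) (.nd (.nd (.nd (.nd (.nd (.lf (.ofNat (nat_lit
 122928941829296707968))) .e) .e) .e) (.nd (.nd (.nd (.lf (.negSucc (nat_lit
 34580439508263742463))) .e) .e) .e)) (.nd (.nd (.nd (.nd (.lf (.negSucc (nat_lit
 90397249636814820863))) .e) .e) .e) .e))) (.nd (.nd (.nd (.nd (.nd (.nd (.lf (.ofNat (nat_lit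
 132267043729459713024))) .e) .e) .e) (.nd (.nd (.nd (.lf (.negSucc (nat_lit
 43339713474801443327))) .e) .e) .e)) (.nd (.nd (.nd (.nd (.lf (.negSucc (nat_lit
 45523244835789797375))) .e) .e) .e) .e)) (.nd (.nd (.nd (.nd (.nd (.lf (.negSucc (nat_lit
 46917719349162430463))) .e) .e) .e) (.nd (.nd (.nd (.lf (.negSucc (nat_lit 2016785505628387583)))
 .e) .e) .e)) (.nd (.nd (.nd (.nd (.lf (.negSucc (nat_lit 5912217778447073279))) .e) .e) .e)
 .e)))) (.nd (.nd (.nd (.nd (.nd (.nd (.nd (.lf (.ofNat (nat_lit 117504360207565027200))) .e) .e)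
 .e) .e) (.nd (.nd (.nd (.nd (.lf (.negSucc (nat_lit 40844242817908028927))) .e) .e) .e) .e)) (.nd
 (.nd (.nd (.nd (.nd (.lf (.negSucc (nat_lit 69860422604281591295))) .e) .e) .e) (.nd (.nd (.nd
 (.lf (.ofNat (nat_lit 9838754499462951168))) .e) .e) .e)) (.nd (.nd (.nd (.nd (.lf (.ofNat
 (nat_lit 2194375397722470144))) .e) .e) .e) .e))) (.nd (.nd (.nd (.nd (.nd (.nd (.lf (.negSucc
 (nat_lit 41238095050018697471))) .e) .e) .e) .e) (.nd (.nd (.nd (.nd (.lf (.negSucc (nat_lit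
 11759775890393871359))) .e) .e) .e) .e)) (.nd (.nd (.nd (.nd (.nd (.lf (.negSucc (nat_lit
 39307303482598010879))) .e) .e) .e) .e) (.nd (.nd (.nd (.nd (.lf (.ofNat (nat_lit
 36926288812990761984))) .e) .e) .e) .e))))) .e) .e) .e))) (.nd (.nd (.nd (.nd (.nd (.nd (.nd (.nd
 .e (.nd (.nd (.nd (.nd (.nd (.lf (.negSucc (nat_lit 19866958418276119535))) .e) .e) .e) .e) .e))
 (.nd (.nd (.nd (.nd (.nd (.nd (.lf (.negSucc (nat_lit 41283562858720777055))) .e) .e) .e) .e) .e)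
 .e)) (.nd (.nd (.nd (.nd (.nd (.nd (.nd (.lf (.negSucc (nat_lit 55440957754654655667))) .e) .e)
 .e) .e) .e) .e) (.nd (.nd (.nd (.nd (.nd (.nd (.lf (.ofNat (nat_lit 25888492968543347136))) .e)
 .e) .e) .e) .e) .e))) .e) .e) (.nd (.nd (.nd (.nd (.nd (.nd (.nd (.nd .e (.nd (.nd (.lf (.ofNat
 (nat_lit 3845838331222215120))) .e) .e)) (.nd (.nd (.nd (.lf (.ofNat (nat_lit
 8762138000549222568))) .e) .e) .e)) (.nd (.nd (.nd (.nd (.lf (.negSucc (nat_lit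
 23824661478913275791))) .e) .e) .e) (.nd (.nd (.nd (.lf (.negSucc (nat_lit 2666209566249763199)))
 .e) .e) .e))) (.nd (.nd (.nd (.nd (.nd (.lf (.negSucc (nat_lit 55899961716680723711))) .e) .e)
 (.nd (.nd (.lf (.ofNat (nat_lit 17261284426554110400))) .e) .e)) (.nd (.nd (.nd (.lf (.ofNat
 (nat_lit 15028447850361623520))) .e) .e) .e)) (.nd (.nd (.nd (.nd (.lf (.negSucc (nat_lit
 13160417143868690399))) .e) .e) .e) (.nd (.nd (.nd (.lf (.ofNat (nat_lit 1345770689324760000)))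
 .e) .e) .e)))) (.nd (.nd (.nd (.nd (.nd (.nd (.lf (.negSucc (nat_lit 50702577912536664431))) .e)
 .e) .e) (.nd (.nd (.nd (.lf (.negSucc (nat_lit 23779768258360256687))) .e) .e) .e)) (.nd (.nd
 (.nd (.nd (.lf (.ofNat (nat_lit 10522312766894984928))) .e) .e) .e) .e)) (.nd (.nd (.nd (.nd (.nd
 (.lf (.negSucc (nat_lit 1461195952390334591))) .e) .e) .e) (.nd (.nd (.nd (.lf (.negSucc (nat_lit
 3283895683243771199))) .e) .e) .e)) (.nd (.nd (.nd (.nd (.lf (.negSucc (nat_lit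
 12392371475353106639))) .e) .e) .e) (.nd (.nd (.nd (.lf (.ofNat (nat_lit 23235092065678507200)))
 .e) .e) .e))))) (.nd (.nd (.nd (.nd (.nd (.nd (.nd (.lf (.negSucc (nat_lit
 15053366548424961167))) .e) .e) .e) .e) (.nd (.nd (.nd (.nd (.lf (.ofNat (nat_lit
 1836869853771495504))) .e) .e) .e) (.nd (.nd (.nd (.lf (.negSucc (nat_lit 1370787200562556799)))
 .e) .e) .e))) (.nd (.nd (.nd (.nd (.nd (.lf (.ofNat (nat_lit 4139811621213652512))) .e) .e) .e)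
 (.nd (.nd (.nd (.lf (.negSucc (nat_lit 4636838067455577599))) .e) .e) .e)) (.nd (.nd (.nd (.nd
 (.lf (.negSucc (nat_lit 814693454277292799))) .e) .e) .e) .e))) (.nd (.nd (.nd (.nd (.nd (.nd
 (.lf (.ofNat (nat_lit 1398965010942180096))) .e) .e) .e) .e) (.nd (.nd (.nd (.nd (.lf (.negSucc
 (nat_lit 2176058523328919279))) .e) .e) .e) (.nd (.nd (.nd (.lf (.ofNat (nat_lit
 3076442236581091200))) .e) .e) .e))) (.nd (.nd (.nd (.nd (.nd (.lf (.negSucc (nat_lit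
 5602812844081172639))) .e) .e) .e) .e) (.nd (.nd (.nd (.nd (.lf (.ofNat (nat_lit
 2624929185549493008))) .e) .e) .e) .e))))) .e) .e)) (.nd (.nd (.nd (.nd (.nd (.nd (.nd (.nd .e
 (.nd (.nd (.nd (.lf (.ofNat (nat_lit 19292332063974944928))) .e) .e) .e)) (.nd (.nd (.nd (.nd
 (.lf (.ofNat (nat_lit 14279823149859664896))) .e) .e) .e) .e)) (.nd (.nd (.nd (.nd (.nd (.lf
 (.negSucc (nat_lit 22974027050951573343))) .e) .e) .e) (.nd (.nd (.nd (.lf (.ofNat (nat_lit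
 25559994455820211200))) .e) .e) .e)) (.nd (.nd (.nd (.nd (.lf (.negSucc (nat_lit
 12535462363570070399))) .e) .e) .e) .e))) (.nd (.nd (.nd (.nd (.nd (.nd (.lf (.negSucc (nat_lit
 61082763512000817215))) .e) .e) .e) (.nd (.nd (.nd (.lf (.negSucc (nat_lit 4148936100794458367)))
 .e) .e) .e)) (.nd (.nd (.nd (.nd (.lf (.ofNat (nat_lit 41691586262492536960))) .e) .e) .e) .e))
 (.nd (.nd (.nd (.nd (.nd (.lf (.negSucc (nat_lit 10591022064854903807))) .e) .e) .e) .e) (.nd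
 (.nd (.nd (.nd (.lf (.negSucc (nat_lit 4184410992450470399))) .e) .e) .e) .e)))) (.nd (.nd (.nd
 (.nd (.nd (.nd (.nd (.lf (.negSucc (nat_lit 115685891241167375055))) .e) .e) .e) .e) (.nd (.nd
 (.nd (.nd (.lf (.negSucc (nat_lit 21666578613886431551))) .e) .e) .e) .e)) (.nd (.nd (.nd (.nd
 (.nd (.lf (.ofNat (nat_lit 80583401019348747264))) .e) .e) .e) .e) (.nd (.nd (.nd (.nd (.lf
 (.negSucc (nat_lit 1429350289309139903))) .e) .e) .e) .e))) (.nd (.nd (.nd (.nd (.nd (.nd (.lf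
 (.ofNat (nat_lit 44756502066567061056))) .e) .e) .e) .e) (.nd (.nd (.nd (.nd (.lf (.ofNat
 (nat_lit 15504219373464683520))) .e) .e) .e) .e)) (.nd (.nd (.nd (.nd (.nd (.lf (.ofNat (nat_lit
 52220962840557944960))) .e) .e) .e) .e) (.nd (.nd (.nd (.nd (.lf (.negSucc (nat_lit
 22641762094865080319))) .e) .e) .e) .e))))) .e) .e) .e)) (.nd (.nd (.nd (.nd (.nd (.nd (.nd (.nd
 .e (.nd (.nd (.nd (.nd (.lf (.ofNat (nat_lit 52205662749332938368))) .e) .e) .e) .e)) (.nd (.nd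
 (.nd (.nd (.nd (.lf (.ofNat (nat_lit 109969602025900825344))) .e) .e) .e) .e) (.nd (.nd (.nd (.nd
 (.lf (.negSucc (nat_lit 88353077441362010495))) .e) .e) .e) .e))) (.nd (.nd (.nd (.nd (.nd (.nd
 (.lf (.ofNat (nat_lit 179978024604010322880))) .e) .e) .e) .e) (.nd (.nd (.nd (.nd (.lf (.negSucc
 (nat_lit 41702759224843927295))) .e) .e) .e) .e)) (.nd (.nd (.nd (.nd (.nd (.lf (.negSucc
 (nat_lit 79353956169031797503))) .e) .e) .e) .e) .e))) (.nd (.nd (.nd (.nd (.nd (.nd (.nd (.lf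
 (.ofNat (nat_lit 284561038706823988368))) .e) .e) .e) .e) (.nd (.nd (.nd (.nd (.lf (.ofNat
 (nat_lit 31036302537265572480))) .e) .e) .e) .e)) (.nd (.nd (.nd (.nd (.nd (.lf (.negSucc
 (nat_lit 183099317260799333375))) .e) .e) .e) .e) .e)) (.nd (.nd (.nd (.nd (.nd (.nd (.lf
 (.negSucc (nat_lit 123923357038915711487))) .e) .e) .e) .e) (.nd (.nd (.nd (.nd (.lf (.negSucc
 (nat_lit 37814987668823023679))) .e) .e) .e) .e)) (.nd (.nd (.nd (.nd (.nd (.lf (.negSucc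
 (nat_lit 126015885575202151679))) .e) .e) .e) .e) .e)))) .e) .e) .e) (.nd (.nd (.nd (.nd (.nd
 (.nd (.nd (.nd .e (.nd (.nd (.nd (.lf (.ofNat (nat_lit 13660456326539159120))) .e) .e) .e)) (.nd
 (.nd (.nd (.nd (.lf (.ofNat (nat_lit 13030712002277521120))) .e) .e) .e) (.nd (.nd (.nd (.lf
 (.negSucc (nat_lit 25755289721549771519))) .e) .e) .e))) (.nd (.nd (.nd (.nd (.nd (.lf (.ofNat
 (nat_lit 5864632181256170240))) .e) .e) .e) (.nd (.nd (.nd (.lf (.negSucc (nat_lit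
 1211255831607193919))) .e) .e) .e)) (.nd (.nd (.nd (.nd (.lf (.negSucc (nat_lit
 26537189550568059839))) .e) .e) .e) (.nd (.nd (.nd (.lf (.negSucc (nat_lit
 15197634796008239999))) .e) .e) .e)))) (.nd (.nd (.nd (.nd (.nd (.nd (.lf (.ofNat (nat_lit
 1089375363072267680))) .e) .e) .e) (.nd (.nd (.nd (.lf (.ofNat (nat_lit 1473553407278242080)))
 .e) .e) .e)) (.nd (.nd (.nd (.nd (.lf (.ofNat (nat_lit 437779481623263680))) .e) .e) .e) .e))
 (.nd (.nd (.nd (.nd (.nd (.lf (.negSucc (nat_lit 11125124680297532159))) .e) .e) .e) (.nd (.nd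
 (.nd (.lf (.negSucc (nat_lit 17198386584713279999))) .e) .e) .e)) (.nd (.nd (.nd (.nd (.lf
 (.negSucc (nat_lit 11114375978374701599))) .e) .e) .e) .e)))) (.nd (.nd (.nd (.nd (.nd (.nd (.nd
 (.lf (.negSucc (nat_lit 4533331615568479))) .e) .e) .e) .e) (.nd (.nd (.nd (.nd (.lf (.ofNat
 (nat_lit 1105585492415152800))) .e) .e) .e) (.nd (.nd (.nd (.lf (.negSucc (nat_lit
 1596460568493719999))) .e) .e) .e))) (.nd (.nd (.nd (.nd (.nd (.lf (.negSucc (nat_lit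
 252432197206157759))) .e) .e) .e) (.nd (.nd (.nd (.lf (.negSucc (nat_lit 3220563746585039999)))
 .e) .e) .e)) (.nd (.nd (.nd (.nd (.lf (.negSucc (nat_lit 1420965878692079999))) .e) .e) .e) .e)))
 (.nd (.nd (.nd (.nd (.nd (.nd (.lf (.negSucc (nat_lit 1549360546948915199))) .e) .e) .e) .e) (.nd
 (.nd (.nd (.nd (.lf (.negSucc (nat_lit 5877805438598747999))) .e) .e) .e) (.nd (.nd (.nd (.lf
 (.ofNat (nat_lit 872019104463120000))) .e) .e) .e))) (.nd (.nd (.nd (.nd (.nd (.lf (.negSucc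
 (nat_lit 264697776166241599))) .e) .e) .e) .e) (.nd (.nd (.nd (.nd (.lf (.negSucc (nat_lit
 4795366732462842719))) .e) .e) .e) .e))))) .e) .e) .e)))) (.nd (.nd (.nd (.nd (.nd (.nd (.nd (.nd
 .e (.nd (.nd (.nd (.nd (.nd (.nd (.lf (.negSucc (nat_lit 7743237913769518111))) .e) .e) .e) .e)
 .e) .e)) (.nd (.nd (.nd (.nd (.nd (.nd (.nd (.lf (.negSucc (nat_lit 13386432549818379679))) .e)
 .e) .e) .e) .e) .e) .e)) .e) .e) .e) (.nd (.nd (.nd (.nd (.nd (.nd (.nd (.nd .e (.nd (.nd (.nd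
 (.lf (.ofNat (nat_lit 28575889788231749808))) .e) .e) .e)) (.nd (.nd (.nd (.nd (.lf (.ofNat
 (nat_lit 75700926738257026176))) .e) .e) .e) .e)) (.nd (.nd (.nd (.nd (.nd (.lf (.ofNat (nat_lit
 37299804699254154672))) .e) .e) .e) .e) (.nd (.nd (.nd (.nd (.lf (.ofNat (nat_lit
 1773224033335768512))) .e) .e) .e) .e))) (.nd (.nd (.nd (.nd (.nd (.nd (.lf (.negSucc (nat_lit
 68994456685207252703))) .e) .e) .e) (.nd (.nd (.nd (.lf (.negSucc (nat_lit
 13027273490457411839))) .e) .e) .e)) (.nd (.nd (.nd (.nd (.lf (.negSucc (nat_lit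
 5334154383050216255))) .e) .e) .e) .e)) (.nd (.nd (.nd (.nd (.nd (.lf (.negSucc (nat_lit
 14925298571086279679))) .e) .e) .e) .e) (.nd (.nd (.nd (.nd (.lf (.negSucc (nat_lit
 8719713655163245439))) .e) .e) .e) .e)))) (.nd (.nd (.nd (.nd (.nd (.nd (.nd (.lf (.negSucc
 (nat_lit 219956854524107152631))) .e) .e) .e) .e) (.nd (.nd (.nd (.nd (.lf (.negSucc (nat_lit
 63904959404108545247))) .e) .e) .e) .e)) (.nd (.nd (.nd (.nd (.nd (.lf (.ofNat (nat_lit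
 146310720345813627648))) .e) .e) .e) .e) (.nd (.nd (.nd (.nd (.lf (.negSucc (nat_lit
 6107106220967765663))) .e) .e) .e) .e))) (.nd (.nd (.nd (.nd (.nd (.nd (.lf (.ofNat (nat_lit
 88951705505306500320))) .e) .e) .e) .e) (.nd (.nd (.nd (.nd (.lf (.ofNat (nat_lit
 30065115615067336320))) .e) .e) .e) .e)) (.nd (.nd (.nd (.nd (.nd (.lf (.ofNat (nat_lit
 105801771574743026880))) .e) .e) .e) .e) (.nd (.nd (.nd (.nd (.lf (.negSucc (nat_lit
 52185287346168249215))) .e) .e) .e) .e))))) .e) .e) .e)) (.nd (.nd (.nd (.nd (.nd (.nd (.nd (.nd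
 .e (.nd (.nd (.nd (.nd (.lf (.ofNat (nat_lit 28137257015067600896))) .e) .e) .e) .e)) (.nd (.nd
 (.nd (.nd (.nd (.lf (.ofNat (nat_lit 3759134957773332224))) .e) .e) .e) .e) .e)) (.nd (.nd (.nd
 (.nd (.nd (.nd (.lf (.negSucc (nat_lit 33423812953546468031))) .e) .e) .e) .e) (.nd (.nd (.nd
 (.nd (.lf (.ofNat (nat_lit 10598595290221614208))) .e) .e) .e) .e)) (.nd (.nd (.nd (.nd (.nd (.lf
 (.negSucc (nat_lit 25310432098422253823))) .e) .e) .e) .e) .e))) (.nd (.nd (.nd (.nd (.nd (.nd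
 (.nd (.lf (.negSucc (nat_lit 76371433614105084175))) .e) .e) .e) .e) (.nd (.nd (.nd (.nd (.lf
 (.negSucc (nat_lit 15971935738278823295))) .e) .e) .e) .e)) (.nd (.nd (.nd (.nd (.nd (.lf (.ofNat
 (nat_lit 49462665492706293504))) .e) .e) .e) .e) .e)) (.nd (.nd (.nd (.nd (.nd (.nd (.lf (.ofNat
 (nat_lit 25812432590543417856))) .e) .e) .e) .e) .e) (.nd (.nd (.nd (.nd (.nd (.lf (.ofNat
 (nat_lit 31365568980371802880))) .e) .e) .e) .e) .e)))) .e) .e) .e) .e)) (.nd (.nd (.nd (.nd (.nd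
 (.nd (.nd (.nd .e (.nd (.nd (.nd (.nd (.nd (.lf (.ofNat (nat_lit 40653100133757655104))) .e) .e)
 .e) .e) .e)) (.nd (.nd (.nd (.nd (.nd (.nd (.lf (.ofNat (nat_lit 91293808101362013312))) .e) .e)
 .e) .e) .e) (.nd (.nd (.nd (.nd (.nd (.lf (.negSucc (nat_lit 17457587857549283327))) .e) .e) .e)
 .e) .e))) (.nd (.nd (.nd (.nd (.nd (.nd (.nd (.lf (.ofNat (nat_lit 170821746128686646304))) .e)
 .e) .e) .e) .e) (.nd (.nd (.nd (.nd (.nd (.lf (.negSucc (nat_lit 113367573158692186367))) .e) .e)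
 .e) .e) .e)) (.nd (.nd (.nd (.nd (.nd (.nd (.lf (.negSucc (nat_lit 72510939258921228671))) .e)
 .e) .e) .e) .e) .e))) .e) .e) .e) (.nd (.nd (.nd (.nd (.nd (.nd (.nd (.nd .e (.nd (.nd (.nd (.lf
 (.ofNat (nat_lit 1344217449147380784))) .e) .e) .e)) (.nd (.nd (.nd (.nd (.lf (.ofNat (nat_lit
 2965401874705677600))) .e) .e) .e) .e)) (.nd (.nd (.nd (.nd (.nd (.lf (.ofNat (nat_lit
 2110720763765691264))) .e) .e) .e) (.nd (.nd (.nd (.lf (.ofNat (nat_lit 4070294016102490944)))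
 .e) .e) .e)) (.nd (.nd (.nd (.nd (.lf (.negSucc (nat_lit 9756431910466265663))) .e) .e) .e) .e)))
 (.nd (.nd (.nd (.nd (.nd (.nd (.lf (.ofNat (nat_lit 550171937366328672))) .e) .e) .e) (.nd (.nd
 (.nd (.lf (.ofNat (nat_lit 7314106430329189344))) .e) .e) .e)) (.nd (.nd (.nd (.nd (.lf (.ofNat
 (nat_lit 4061262378825683520))) .e) .e) .e) .e)) (.nd (.nd (.nd (.nd (.nd (.lf (.negSucc (nat_lit
 6471587461251628799))) .e) .e) .e) (.nd (.nd (.nd (.lf (.negSucc (nat_lit 16407521751349583999)))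
 .e) .e) .e)) (.nd (.nd (.nd (.nd (.lf (.negSucc (nat_lit 9571585757253408479))) .e) .e) .e)
 .e)))) (.nd (.nd (.nd (.nd (.nd (.nd (.nd (.lf (.ofNat (nat_lit 49441344448005120))) .e) .e) .e)
 .e) (.nd (.nd (.nd (.nd (.lf (.ofNat (nat_lit 4430138906594438496))) .e) .e) .e) .e)) (.nd (.nd
 (.nd (.nd (.nd (.lf (.ofNat (nat_lit 858361591767586752))) .e) .e) .e) (.nd (.nd (.nd (.lf
 (.negSucc (nat_lit 13389092376043535999))) .e) .e) .e)) (.nd (.nd (.nd (.nd (.lf (.negSucc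
 (nat_lit 6663610091300399999))) .e) .e) .e) .e))) (.nd (.nd (.nd (.nd (.nd (.nd (.lf (.negSucc
 (nat_lit 1028847430000233215))) .e) .e) .e) .e) (.nd (.nd (.nd (.nd (.lf (.negSucc (nat_lit
 11683272584883803039))) .e) .e) .e) .e)) (.nd (.nd (.nd (.nd (.nd (.lf (.negSucc (nat_lit
 2023727474972241599))) .e) .e) .e) .e) (.nd (.nd (.nd (.nd (.lf (.negSucc (nat_lit
 6063694967166443423))) .e) .e) .e) .e))))) .e) .e) .e)) (.nd (.nd (.nd (.nd (.nd (.nd (.nd (.nd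
 .e (.nd (.nd (.nd (.nd (.lf (.ofNat (nat_lit 2315814961060652160))) .e) .e) .e) .e)) (.nd (.nd
 (.nd (.nd (.nd (.lf (.ofNat (nat_lit 1558408764139202320))) .e) .e) .e) .e) (.nd (.nd (.nd (.nd
 (.lf (.negSucc (nat_lit 9872543681503784639))) .e) .e) .e) .e))) (.nd (.nd (.nd (.nd (.nd (.nd
 (.lf (.ofNat (nat_lit 788907341779327200))) .e) .e) .e) .e) (.nd (.nd (.nd (.nd (.lf (.negSucc
 (nat_lit 1304241808703158719))) .e) .e) .e) .e)) (.nd (.nd (.nd (.nd (.nd (.lf (.negSucc (nat_lit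
 5790990512047603199))) .e) .e) .e) .e) (.nd (.nd (.nd (.nd (.lf (.negSucc (nat_lit
 9763298343145315199))) .e) .e) .e) .e)))) (.nd (.nd (.nd (.nd (.nd (.nd (.nd (.lf (.ofNat
 (nat_lit 142779757252532440))) .e) .e) .e) .e) (.nd (.nd (.nd (.nd (.lf (.ofNat (nat_lit
 393765162963788640))) .e) .e) .e) .e)) (.nd (.nd (.nd (.nd (.nd (.lf (.negSucc (nat_lit
 503704491576487679))) .e) .e) .e) .e) (.nd (.nd (.nd (.nd (.lf (.ofNat (nat_lit
 5233197187723680))) .e) .e) .e) .e))) (.nd (.nd (.nd (.nd (.nd (.nd (.lf (.negSucc (nat_lit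
 847308497897766239))) .e) .e) .e) .e) (.nd (.nd (.nd (.nd (.lf (.negSucc (nat_lit
 7667381929190668799))) .e) .e) .e) .e)) (.nd (.nd (.nd (.nd (.nd (.lf (.negSucc (nat_lit
 6121442735914980799))) .e) .e) .e) .e) .e)))) .e) .e) .e) (.nd (.nd (.nd (.nd (.nd (.nd (.nd (.nd
 .e (.nd (.nd (.nd (.lf (.ofNat (nat_lit 853911405655081440))) .e) .e) .e)) (.nd (.nd (.nd (.nd
 (.lf (.negSucc (nat_lit 49043942926755861695))) .e) .e) .e) (.nd (.nd (.nd (.lf (.ofNat (nat_lit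
 10962565201374027264))) .e) .e) .e))) (.nd (.nd (.nd (.nd (.nd (.lf (.negSucc (nat_lit
 43119050876219135231))) .e) .e) .e) (.nd (.nd (.nd (.lf (.ofNat (nat_lit 15655330669014906240)))
 .e) .e) .e)) (.nd (.nd (.nd (.nd (.lf (.negSucc (nat_lit 26879782700279389823))) .e) .e) .e) (.nd
 (.nd (.nd (.lf (.negSucc (nat_lit 18129061713576431999))) .e) .e) .e)))) (.nd (.nd (.nd (.nd (.nd
 (.nd (.lf (.ofNat (nat_lit 39642711112324719936))) .e) .e) .e) (.nd (.nd (.nd (.lf (.negSucc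
 (nat_lit 15653480564781286847))) .e) .e) .e)) (.nd (.nd (.nd (.nd (.lf (.negSucc (nat_lit
 939886211101606271))) .e) .e) .e) .e)) (.nd (.nd (.nd (.nd (.nd (.lf (.negSucc (nat_lit
 12817210293869497343))) .e) .e) .e) (.nd (.nd (.nd (.lf (.negSucc (nat_lit
 24359205078174326399))) .e) .e) .e)) (.nd (.nd (.nd (.nd (.lf (.negSucc (nat_lit
 15921731973800239679))) .e) .e) .e) (.nd (.nd (.nd (.lf (.ofNat (nat_lit 9801980863542662400)))
 .e) .e) .e))))) (.nd (.nd (.nd (.nd (.nd (.nd (.nd (.lf (.ofNat (nat_lit 148550963580953667264)))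
 .e) .e) .e) .e) (.nd (.nd (.nd (.nd (.lf (.ofNat (nat_lit 21705172305500058048))) .e) .e) .e)
 (.nd (.nd (.nd (.lf (.ofNat (nat_lit 6722547146332488000))) .e) .e) .e))) (.nd (.nd (.nd (.nd
 (.nd (.lf (.negSucc (nat_lit 97737044234535540863))) .e) .e) .e) (.nd (.nd (.nd (.lf (.ofNat
 (nat_lit 3210989740196860800))) .e) .e) .e)) (.nd (.nd (.nd (.nd (.lf (.negSucc (nat_lit
 949024663872969599))) .e) .e) .e) .e))) (.nd (.nd (.nd (.nd (.nd (.nd (.lf (.negSucc (nat_lit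
 60782592844404979199))) .e) .e) .e) .e) (.nd (.nd (.nd (.nd (.lf (.negSucc (nat_lit
 29697037642231600319))) .e) .e) .e) (.nd (.nd (.nd (.lf (.ofNat (nat_lit 9648677132049110400)))
 .e) .e) .e))) (.nd (.nd (.nd (.nd (.nd (.lf (.negSucc (nat_lit 73711987655543118719))) .e) .e)
 .e) .e) (.nd (.nd (.nd (.nd (.lf (.ofNat (nat_lit 44338169770987275072))) .e) .e) .e) .e))))) .e)
 .e) .e))))) (.nd (.nd (.nd (.nd (.nd (.nd (.nd (.nd .e (.nd (.nd (.nd (.nd (.nd (.nd (.nd (.lf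
 (.negSucc (nat_lit 807500433217847171))) .e) .e) .e) .e) .e) .e) .e)) .e) .e) .e) .e) (.nd (.nd
 (.nd (.nd (.nd (.nd (.nd (.nd .e (.nd (.nd (.nd (.nd (.lf (.ofNat (nat_lit
 41497134442569602688))) .e) .e) .e) .e)) (.nd (.nd (.nd (.nd (.nd (.lf (.ofNat (nat_lit
 22656515880586121472))) .e) .e) .e) .e) .e)) (.nd (.nd (.nd (.nd (.nd (.nd (.lf (.negSucc
 (nat_lit 34578960126523702559))) .e) .e) .e) .e) .e) (.nd (.nd (.nd (.nd (.nd (.lf (.ofNat
 (nat_lit 25386369996127386240))) .e) .e) .e) .e) .e))) (.nd (.nd (.nd (.nd (.nd (.nd (.nd (.lf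
 (.negSucc (nat_lit 110775591008146117847))) .e) .e) .e) .e) (.nd (.nd (.nd (.nd (.lf (.negSucc
 (nat_lit 22059836301830836319))) .e) .e) .e) .e)) (.nd (.nd (.nd (.nd (.nd (.lf (.ofNat (nat_lit
 70184191667021175168))) .e) .e) .e) .e) .e)) (.nd (.nd (.nd (.nd (.nd (.nd (.lf (.ofNat (nat_lit
 50693490705857227776))) .e) .e) .e) .e) .e) (.nd (.nd (.nd (.nd (.nd (.lf (.ofNat (nat_lit
 53497267846160680320))) .e) .e) .e) .e) .e)))) .e) .e) .e) (.nd (.nd (.nd (.nd (.nd (.nd (.nd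
 (.nd .e (.nd (.nd (.nd (.lf (.negSucc (nat_lit 4558700197007737031))) .e) .e) .e)) (.nd (.nd (.nd
 (.nd (.lf (.negSucc (nat_lit 4688954658265957295))) .e) .e) .e) (.nd (.nd (.nd (.lf (.ofNat
 (nat_lit 8551197472522386816))) .e) .e) .e))) (.nd (.nd (.nd (.nd (.nd (.lf (.negSucc (nat_lit
 3582019128701411519))) .e) .e) .e) (.nd (.nd (.nd (.lf (.negSucc (nat_lit 6676038783334921823)))
 .e) .e) .e)) (.nd (.nd (.nd (.nd (.lf (.ofNat (nat_lit 21180601627923940704))) .e) .e) .e) .e)))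
 (.nd (.nd (.nd (.nd (.nd (.nd (.lf (.negSucc (nat_lit 1724035152522887759))) .e) .e) .e) (.nd
 (.nd (.nd (.lf (.negSucc (nat_lit 22314887973788893199))) .e) .e) .e)) (.nd (.nd (.nd (.nd (.lf
 (.negSucc (nat_lit 4026293461814188895))) .e) .e) .e) .e)) (.nd (.nd (.nd (.nd (.nd (.lf (.ofNat
 (nat_lit 10550850353546760576))) .e) .e) .e) (.nd (.nd (.nd (.lf (.negSucc (nat_lit
 6611083263565444799))) .e) .e) .e)) (.nd (.nd (.nd (.nd (.lf (.negSucc (nat_lit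
 193365573051895919))) .e) .e) .e) .e)))) (.nd (.nd (.nd (.nd (.nd (.nd (.nd (.lf (.ofNat (nat_lit
 130282235752577088))) .e) .e) .e) .e) (.nd (.nd (.nd (.nd (.lf (.negSucc (nat_lit
 8324568525323901455))) .e) .e) .e) (.nd (.nd (.nd (.lf (.negSucc (nat_lit 688048093740484799)))
 .e) .e) .e))) (.nd (.nd (.nd (.nd (.nd (.lf (.negSucc (nat_lit 862564268174938271))) .e) .e) .e)
 (.nd (.nd (.nd (.lf (.negSucc (nat_lit 2726983832094950399))) .e) .e) .e)) (.nd (.nd (.nd (.nd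
 (.lf (.negSucc (nat_lit 1428725599274131199))) .e) .e) .e) .e))) (.nd (.nd (.nd (.nd (.nd (.nd
 (.lf (.ofNat (nat_lit 2710640920938507648))) .e) .e) .e) .e) (.nd (.nd (.nd (.nd (.lf (.negSucc
 (nat_lit 2260319289656325839))) .e) .e) .e) .e)) (.nd (.nd (.nd (.nd (.nd (.lf (.negSucc (nat_lit
 33312095169700319))) .e) .e) .e) .e) (.nd (.nd (.nd (.nd (.lf (.ofNat (nat_lit
 4177937907630152496))) .e) .e) .e) .e))))) .e) .e) .e))) (.nd (.nd (.nd (.nd (.nd (.nd (.nd (.nd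
 .e (.nd (.nd (.nd (.nd (.nd (.lf (.ofNat (nat_lit 34317794754957044256))) .e) .e) .e) .e) .e))
 (.nd (.nd (.nd (.nd (.nd (.nd (.lf (.ofNat (nat_lit 2207548575044234496))) .e) .e) .e) .e) .e)
 .e)) (.nd (.nd (.nd (.nd (.nd (.nd (.nd (.lf (.negSucc (nat_lit 11707119824773343903))) .e) .e)
 .e) .e) .e) (.nd (.nd (.nd (.nd (.nd (.lf (.ofNat (nat_lit 7760983799799371520))) .e) .e) .e) .e)
 .e)) (.nd (.nd (.nd (.nd (.nd (.nd (.lf (.negSucc (nat_lit 11582627574534969023))) .e) .e) .e)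
 .e) .e) .e))) .e) .e) .e) (.nd (.nd (.nd (.nd (.nd (.nd (.nd (.nd .e (.nd (.nd (.nd (.lf
 (.negSucc (nat_lit 5229287668387038767))) .e) .e) .e)) (.nd (.nd (.nd (.nd (.lf (.negSucc
 (nat_lit 7264515677120750879))) .e) .e) .e) .e)) (.nd (.nd (.nd (.nd (.nd (.lf (.negSucc (nat_lit
 3530696543841660287))) .e) .e) .e) (.nd (.nd (.nd (.lf (.negSucc (nat_lit 5962218396722837567)))
 .e) .e) .e)) (.nd (.nd (.nd (.nd (.lf (.ofNat (nat_lit 21381728488007565888))) .e) .e) .e) .e)))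
 (.nd (.nd (.nd (.nd (.nd (.nd (.lf (.negSucc (nat_lit 642595811713316063))) .e) .e) .e) (.nd (.nd
 (.nd (.lf (.negSucc (nat_lit 20785031133818380127))) .e) .e) .e)) (.nd (.nd (.nd (.nd (.lf
 (.negSucc (nat_lit 4023820730905319999))) .e) .e) .e) .e)) (.nd (.nd (.nd (.nd (.nd (.lf (.ofNat
 (nat_lit 11092651578114059520))) .e) .e) .e) .e) (.nd (.nd (.nd (.nd (.lf (.negSucc (nat_lit
 296325139231527839))) .e) .e) .e) .e)))) (.nd (.nd (.nd (.nd (.nd (.nd (.nd (.lf (.negSucc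
 (nat_lit 14629495931035199))) .e) .e) .e) .e) (.nd (.nd (.nd (.nd (.lf (.negSucc (nat_lit
 6198201863960330591))) .e) .e) .e) .e)) (.nd (.nd (.nd (.nd (.nd (.lf (.negSucc (nat_lit
 1358757236646558143))) .e) .e) .e) (.nd (.nd (.nd (.lf (.negSucc (nat_lit 1212840960021791999)))
 .e) .e) .e)) (.nd (.nd (.nd (.nd (.lf (.negSucc (nat_lit 2847389905882367999))) .e) .e) .e) .e)))
 (.nd (.nd (.nd (.nd (.nd (.nd (.lf (.ofNat (nat_lit 2189843269576388352))) .e) .e) .e) .e) (.nd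
 (.nd (.nd (.nd (.lf (.negSucc (nat_lit 4654448403604247519))) .e) .e) .e) .e)) (.nd (.nd (.nd
 (.nd (.nd (.lf (.ofNat (nat_lit 868764706351953600))) .e) .e) .e) .e) (.nd (.nd (.nd (.nd (.lf
 (.ofNat (nat_lit 2964171982146635808))) .e) .e) .e) .e))))) .e) .e) .e)) (.nd (.nd (.nd (.nd (.nd
 (.nd (.nd (.nd .e (.nd (.nd (.nd (.nd (.lf (.negSucc (nat_lit 1668523532982079199))) .e) .e) .e)
 .e)) (.nd (.nd (.nd (.nd (.nd (.lf (.negSucc (nat_lit 1018807133280768383))) .e) .e) .e) .e) (.nd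
 (.nd (.nd (.nd (.lf (.ofNat (nat_lit 5771927737894578624))) .e) .e) .e) .e))) (.nd (.nd (.nd (.nd
 (.nd (.nd (.lf (.negSucc (nat_lit 249220997167955231))) .e) .e) .e) .e) (.nd (.nd (.nd (.nd (.lf
 (.negSucc (nat_lit 954640200593257919))) .e) .e) .e) .e)) (.nd (.nd (.nd (.nd (.nd (.lf (.ofNat
 (nat_lit 3145915381278539520))) .e) .e) .e) .e) .e))) (.nd (.nd (.nd (.nd (.nd (.nd (.nd (.lf
 (.negSucc (nat_lit 20779295817356159))) .e) .e) .e) .e) (.nd (.nd (.nd (.nd (.lf (.negSucc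
 (nat_lit 2238770429240347295))) .e) .e) .e) .e)) (.nd (.nd (.nd (.nd (.nd (.lf (.negSucc (nat_lit
 161026593295159871))) .e) .e) .e) .e) (.nd (.nd (.nd (.nd (.lf (.negSucc (nat_lit
 712948308954335999))) .e) .e) .e) .e))) (.nd (.nd (.nd (.nd (.nd (.nd (.lf (.ofNat (nat_lit
 452880432011379456))) .e) .e) .e) .e) (.nd (.nd (.nd (.nd (.lf (.negSucc (nat_lit
 2302329495003017759))) .e) .e) .e) .e)) (.nd (.nd (.nd (.nd (.nd (.lf (.ofNat (nat_lit
 3106902579681600))) .e) .e) .e) .e) .e)))) .e) .e) .e) .e))) (.nd (.nd (.nd (.nd (.nd (.nd (.nd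
 (.nd .e (.nd (.nd (.nd (.nd (.nd (.nd (.lf (.ofNat (nat_lit 18030580585431600192))) .e) .e) .e)
 .e) .e) .e)) (.nd (.nd (.nd (.nd (.nd (.nd (.nd (.lf (.ofNat (nat_lit 26591784660250313976))) .e)
 .e) .e) .e) .e) .e) (.nd (.nd (.nd (.nd (.nd (.nd (.lf (.negSucc (nat_lit 11447606269777136831)))
 .e) .e) .e) .e) .e) .e))) .e) .e) .e) .e) (.nd (.nd (.nd (.nd (.nd (.nd (.nd (.nd .e (.nd (.nd
 (.nd (.nd (.lf (.ofNat (nat_lit 11518875516004886400))) .e) .e) .e) .e)) (.nd (.nd (.nd (.nd (.nd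
 (.lf (.ofNat (nat_lit 7276179052716283440))) .e) .e) .e) .e) .e)) (.nd (.nd (.nd (.nd (.nd (.nd
 (.lf (.ofNat (nat_lit 1780366562452663200))) .e) .e) .e) .e) (.nd (.nd (.nd (.nd (.lf (.ofNat
 (nat_lit 11957813305326264000))) .e) .e) .e) .e)) (.nd (.nd (.nd (.nd (.nd (.lf (.negSucc
 (nat_lit 23848756190204382719))) .e) .e) .e) .e) .e))) (.nd (.nd (.nd (.nd (.nd (.nd (.nd (.lf
 (.ofNat (nat_lit 146067947555059080))) .e) .e) .e) .e) (.nd (.nd (.nd (.nd (.lf (.ofNat (nat_lit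
 16294653982270640160))) .e) .e) .e) .e)) (.nd (.nd (.nd (.nd (.nd (.lf (.ofNat (nat_lit
 2135759736197364480))) .e) .e) .e) .e) .e)) (.nd (.nd (.nd (.nd (.nd (.nd (.lf (.negSucc (nat_lit
 3711809125957692959))) .e) .e) .e) .e) (.nd (.nd (.nd (.nd (.lf (.negSucc (nat_lit
 2660126267860905599))) .e) .e) .e) .e)) (.nd (.nd (.nd (.nd (.nd (.lf (.negSucc (nat_lit
 2034650608246574399))) .e) .e) .e) .e) .e)))) .e) .e) .e) (.nd (.nd (.nd (.nd (.nd (.nd (.nd (.nd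
 .e (.nd (.nd (.nd (.lf (.negSucc (nat_lit 1321727319105273455))) .e) .e) .e)) (.nd (.nd (.nd (.nd
 (.lf (.negSucc (nat_lit 8022946688010339743))) .e) .e) .e) (.nd (.nd (.nd (.lf (.ofNat (nat_lit
 3785267426410029312))) .e) .e) .e))) (.nd (.nd (.nd (.nd (.nd (.lf (.negSucc (nat_lit
 19729315407841296383))) .e) .e) .e) (.nd (.nd (.nd (.lf (.negSucc (nat_lit 1154946972117439295)))
 .e) .e) .e)) (.nd (.nd (.nd (.nd (.lf (.ofNat (nat_lit 13445178438942100800))) .e) .e) .e) .e)))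
 (.nd (.nd (.nd (.nd (.nd (.nd (.lf (.negSucc (nat_lit 29942538842444445023))) .e) .e) .e) (.nd
 (.nd (.nd (.lf (.negSucc (nat_lit 14568159793301634527))) .e) .e) .e)) (.nd (.nd (.nd (.nd (.lf
 (.ofNat (nat_lit 8572161763116165312))) .e) .e) .e) .e)) (.nd (.nd (.nd (.nd (.nd (.lf (.ofNat
 (nat_lit 19897768601267261184))) .e) .e) .e) (.nd (.nd (.nd (.lf (.negSucc (nat_lit
 2803826611681315199))) .e) .e) .e)) (.nd (.nd (.nd (.nd (.lf (.negSucc (nat_lit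
 2328865806016115999))) .e) .e) .e) .e)))) (.nd (.nd (.nd (.nd (.nd (.nd (.nd (.lf (.negSucc
 (nat_lit 11374406804825700383))) .e) .e) .e) .e) (.nd (.nd (.nd (.nd (.lf (.ofNat (nat_lit
 2233583124132372768))) .e) .e) .e) (.nd (.nd (.nd (.lf (.ofNat (nat_lit 3399747446514384000)))
 .e) .e) .e))) (.nd (.nd (.nd (.nd (.nd (.lf (.ofNat (nat_lit 2236247654141019456))) .e) .e) .e)
 (.nd (.nd (.nd (.lf (.ofNat (nat_lit 2977629722793734400))) .e) .e) .e)) (.nd (.nd (.nd (.nd (.lf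
 (.ofNat (nat_lit 1152012011000659200))) .e) .e) .e) .e))) (.nd (.nd (.nd (.nd (.nd (.nd (.lf
 (.ofNat (nat_lit 2655976638417744384))) .e) .e) .e) .e) (.nd (.nd (.nd (.nd (.lf (.negSucc
 (nat_lit 545904802108775519))) .e) .e) .e) (.nd (.nd (.nd (.lf (.ofNat (nat_lit
 1738603443584793600))) .e) .e) .e))) (.nd (.nd (.nd (.nd (.nd (.lf (.negSucc (nat_lit
 3627787940915503679))) .e) .e) .e) .e) (.nd (.nd (.nd (.nd (.lf (.negSucc (nat_lit
 717399327097067615))) .e) .e) .e) .e))))) .e) .e) .e))) (.nd (.nd (.nd (.nd (.nd (.nd (.nd (.nd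
 .e (.nd (.nd (.nd (.nd (.nd (.lf (.ofNat (nat_lit 23354793751542307840))) .e) .e) .e) .e) .e))
 (.nd (.nd (.nd (.nd (.nd (.nd (.lf (.ofNat (nat_lit 5918051217536992320))) .e) .e) .e) .e) .e)
 (.nd (.nd (.nd (.nd (.nd (.lf (.negSucc (nat_lit 78451136343614864639))) .e) .e) .e) .e) .e)))
 (.nd (.nd (.nd (.nd (.nd (.nd (.nd (.lf (.ofNat (nat_lit 467522360439792560))) .e) .e) .e) .e)
 .e) (.nd (.nd (.nd (.nd (.nd (.lf (.ofNat (nat_lit 4499992512956947200))) .e) .e) .e) .e) .e))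
 (.nd (.nd (.nd (.nd (.nd (.nd (.lf (.negSucc (nat_lit 12048915911960110079))) .e) .e) .e) .e) .e)
 (.nd (.nd (.nd (.nd (.nd (.lf (.negSucc (nat_lit 1629644914897135999))) .e) .e) .e) .e) .e))))
 .e) .e) .e) .e) (.nd (.nd (.nd (.nd (.nd (.nd (.nd (.nd .e (.nd (.nd (.nd (.nd (.lf (.negSucc
 (nat_lit 44660350829783844479))) .e) .e) .e) .e)) (.nd (.nd (.nd (.nd (.nd (.lf (.negSucc
 (nat_lit 33978757769540306639))) .e) .e) .e) .e) (.nd (.nd (.nd (.nd (.lf (.ofNat (nat_lit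
 51871859177089420224))) .e) .e) .e) .e))) (.nd (.nd (.nd (.nd (.nd (.nd (.lf (.ofNat (nat_lit
 15610392986561862048))) .e) .e) .e) .e) (.nd (.nd (.nd (.nd (.lf (.negSucc (nat_lit
 20986866872921239871))) .e) .e) .e) .e)) (.nd (.nd (.nd (.nd (.nd (.lf (.ofNat (nat_lit
 38673573582857513472))) .e) .e) .e) .e) (.nd (.nd (.nd (.nd (.lf (.negSucc (nat_lit
 13395523769095787519))) .e) .e) .e) .e)))) (.nd (.nd (.nd (.nd (.nd (.nd (.nd (.lf (.ofNat
 (nat_lit 73516288809082402440))) .e) .e) .e) .e) (.nd (.nd (.nd (.nd (.lf (.negSucc (nat_lit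
 22087694900439735263))) .e) .e) .e) .e)) (.nd (.nd (.nd (.nd (.nd (.lf (.negSucc (nat_lit
 49797483169819541759))) .e) .e) .e) .e) (.nd (.nd (.nd (.nd (.lf (.ofNat (nat_lit
 948848063442469344))) .e) .e) .e) .e))) (.nd (.nd (.nd (.nd (.nd (.nd (.lf (.negSucc (nat_lit
 27701767113304723487))) .e) .e) .e) .e) (.nd (.nd (.nd (.nd (.lf (.negSucc (nat_lit
 15045844032886751999))) .e) .e) .e) .e)) (.nd (.nd (.nd (.nd (.nd (.lf (.negSucc (nat_lit
 39011296557169761599))) .e) .e) .e) .e) (.nd (.nd (.nd (.nd (.lf (.ofNat (nat_lit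
 21343815235513385856))) .e) .e) .e) .e))))) .e) .e) .e) .e)))))

end Pool.Agent.H58.BJ.D6
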