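import Pool.Agent.H58.BJ.D6.U3
import Pool.Agent.H58.BJ.D6.U4

/-! # Certificate data (6 jets, exponent 28/25) -/

set_option autoImplicit false

namespace Pool.Agent.H58.BJ.D6

open Pool.Agent.H58.BJ

/-- rows of `G` -/
noncomputable def Y4 : List YRow := [([nat_lit 1, nat_lit 3], [(nat_lit 1, .ofNat (nat_lit 4)),
 (nat_lit 2, .ofNat (nat_lit 48)), (nat_lit 3, .negSucc (nat_lit 167)), (nat_lit 4, .ofNat
 (nat_lit 156)), (nat_lit 5, .ofNat (nat_lit 192)), (nat_lit 6, .negSucc (nat_lit 767)), (nat_lit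
 7, .negSucc (nat_lit 79)), (nat_lit 8, .ofNat (nat_lit 160)), (nat_lit 9, .ofNat (nat_lit 840)),
 (nat_lit 10, .ofNat (nat_lit 752)), (nat_lit 12, .negSucc (nat_lit 335)), (nat_lit 14, .negSucc
 (nat_lit 319)), (nat_lit 15, .negSucc (nat_lit 1151)), (nat_lit 16, .ofNat (nat_lit 156)),
 (nat_lit 18, .negSucc (nat_lit 95)), (nat_lit 20, .ofNat (nat_lit 128)), (nat_lit 21, .ofNat
 (nat_lit 480)), (nat_lit 24, .negSucc (nat_lit 383)), (nat_lit 27, .ofNat (nat_lit 144)),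
 (nat_lit 28, .negSucc (nat_lit 79)), (nat_lit 30, .ofNat (nat_lit 96)), (nat_lit 32, .ofNat
 (nat_lit 48)), (nat_lit 36, .ofNat (nat_lit 264)), (nat_lit 40, .negSucc (nat_lit 15)), (nat_lit
 48, .negSucc (nat_lit 71)), (nat_lit 64, .ofNat (nat_lit 4))], nat_lit 6, [.ofNat (nat_lit
 1028597573481620), .ofNat (nat_lit 41616874414775), .ofNat (nat_lit 160392929600206), .ofNat
 (nat_lit 4716844502936), .ofNat (nat_lit 46015843695938), .ofNat (nat_lit 7917146557422), .ofNat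
 (nat_lit 432304527440), .ofNat (nat_lit 6578775775875), .ofNat (nat_lit 2212614112260), .ofNat
 (nat_lit 2114459476842), .ofNat (nat_lit 624771657707), .ofNat (nat_lit 7561887348), .ofNat
 (nat_lit 424751193457), .ofNat (nat_lit 19290028834), .negSucc (nat_lit 43164434216), .ofNat
 (nat_lit 105498740000), .ofNat (nat_lit 35182760250), .ofNat (nat_lit 9209608413), .ofNat
 (nat_lit 466714529)]), ([nat_lit 0, nat_lit 0, nat_lit 3], [(nat_lit 1, .ofNat (nat_lit 8)),
 (nat_lit 2, .ofNat (nat_lit 96)), (nat_lit 3, .negSucc (nat_lit 287)), (nat_lit 4, .ofNat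
 (nat_lit 336)), (nat_lit 5, .ofNat (nat_lit 384)), (nat_lit 6, .negSucc (nat_lit 1151)), (nat_lit
 7, .negSucc (nat_lit 159)), (nat_lit 8, .ofNat (nat_lit 512)), (nat_lit 9, .negSucc (nat_lit
 47)), (nat_lit 10, .ofNat (nat_lit 1504)), (nat_lit 12, .negSucc (nat_lit 1247)), (nat_lit 14,
 .negSucc (nat_lit 639)), (nat_lit 16, .ofNat (nat_lit 456)), (nat_lit 18, .negSucc (nat_lit
 191)), (nat_lit 20, .ofNat (nat_lit 1408)), (nat_lit 24, .negSucc (nat_lit 383)), (nat_lit 28,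
 .negSucc (nat_lit 639)), (nat_lit 32, .ofNat (nat_lit 288)), (nat_lit 36, .negSucc (nat_lit
 191)), (nat_lit 40, .negSucc (nat_lit 127)), (nat_lit 48, .negSucc (nat_lit 383)), (nat_lit 64,
 .ofNat (nat_lit 32))], nat_lit 6, [.ofNat (nat_lit 0), .ofNat (nat_lit 86081969656268), .ofNat
 (nat_lit 0), .ofNat (nat_lit 9513823059838), .ofNat (nat_lit 0), .ofNat (nat_lit 4653503283734),
 .ofNat (nat_lit 958763758219), .ofNat (nat_lit 0), .negSucc (nat_lit 1244586444871), .ofNat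
 (nat_lit 0), .ofNat (nat_lit 1634855356269), .negSucc (nat_lit 108086332300), .ofNat (nat_lit 0),
 .negSucc (nat_lit 218023034825), .ofNat (nat_lit 0), .ofNat (nat_lit 119554356527), .ofNat
 (nat_lit 0), .ofNat (nat_lit 52766435091), .negSucc (nat_lit 20569636829)]), ([nat_lit 2, nat_lit
 2], [(nat_lit 1, .ofNat (nat_lit 4)), (nat_lit 2, .ofNat (nat_lit 48)), (nat_lit 3, .negSucc
 (nat_lit 143)), (nat_lit 4, .ofNat (nat_lit 168)), (nat_lit 5, .ofNat (nat_lit 96)), (nat_lit 6,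
 .negSucc (nat_lit 863)), (nat_lit 8, .ofNat (nat_lit 160)), (nat_lit 9, .ofNat (nat_lit 1296)),
 (nat_lit 10, .ofNat (nat_lit 576)), (nat_lit 12, .negSucc (nat_lit 431)), (nat_lit 15, .negSucc
 (nat_lit 1727)), (nat_lit 16, .ofNat (nat_lit 132)), (nat_lit 18, .ofNat (nat_lit 0)), (nat_lit
 20, .ofNat (nat_lit 288)), (nat_lit 24, .negSucc (nat_lit 287)), (nat_lit 25, .ofNat (nat_lit
 576)), (nat_lit 30, .ofNat (nat_lit 0)), (nat_lit 32, .ofNat (nat_lit 48)), (nat_lit 36, .ofNat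
 (nat_lit 0)), (nat_lit 40, .ofNat (nat_lit 192)), (nat_lit 48, .ofNat (nat_lit 0)), (nat_lit 64,
 .ofNat (nat_lit 16))], nat_lit 6, [.ofNat (nat_lit 684295633913081), .ofNat (nat_lit
 85092529829255), .ofNat (nat_lit 107089091338313), .ofNat (nat_lit 9713976598642), .ofNat
 (nat_lit 30226491528958), .ofNat (nat_lit 8839586289831), .ofNat (nat_lit 872174720049), .ofNat
 (nat_lit 4123701023295), .ofNat (nat_lit 1318334239053), .ofNat (nat_lit 1626885972825), .ofNat
 (nat_lit 498363737051), .ofNat (nat_lit 38257227911), .ofNat (nat_lit 190405397290), .ofNat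
 (nat_lit 92567622124), .ofNat (nat_lit 169223695), .ofNat (nat_lit 33372298605), .ofNat (nat_lit
 55114376533), .ofNat (nat_lit 7863506855), .ofNat (nat_lit 390367006)])]

/-- the commands -/
noncomputable def C4 : List Cmd := [.g Y4]

theorem c_ok4 : okL 6 ES C4 = true := by decide +kernel

theorem t_ok4 : eqT (run (.ofNat (nat_lit 28)) (.ofNat (nat_lit 25)) XT DD C4 U3) U4 = true := by decide +kernel

end Pool.Agent.H58.BJ.D6
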