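import Pool.Agent.H58.BJ.D6.D

/-! # Certificate data (6 jets, exponent 28/25) -/

set_option autoImplicit false

namespace Pool.Agent.H58.BJ.D6

open Pool.Agent.H58.BJ

/-- result of the first 5 groups -/
noncomputable def U5 : Tr := (.nd (.nd (.nd (.nd (.nd (.nd (.nd .e (.nd (.nd (.nd (.nd (.nd (.nd
 (.nd (.nd .e (.nd (.lf (.ofNat (nat_lit 45725605115952000))) .e)) (.nd (.nd (.lf (.ofNat (nat_lit
 583230734971782800))) .e) .e)) (.nd (.nd (.nd (.lf (.ofNat (nat_lit 1034457352662667016))) .e)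
 .e) (.nd (.nd (.lf (.ofNat (nat_lit 403855768308585600))) .e) .e))) (.nd (.nd (.nd (.nd (.lf
 (.ofNat (nat_lit 1241467679582443824))) .e) .e) (.nd (.nd (.lf (.negSucc (nat_lit
 234580838720987199))) .e) .e)) (.nd (.nd (.nd (.lf (.ofNat (nat_lit 989503957876289280))) .e) .e)
 .e))) (.nd (.nd (.nd (.nd (.nd (.lf (.ofNat (nat_lit 1126367745578070144))) .e) .e) (.nd (.nd
 (.lf (.negSucc (nat_lit 124874175486458399))) .e) .e)) (.nd (.nd (.nd (.lf (.ofNat (nat_lit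
 131506082454102752))) .e) .e) .e)) (.nd (.nd (.nd (.nd (.lf (.ofNat (nat_lit
 598382608350908064))) .e) .e) .e) (.nd (.nd (.nd (.lf (.ofNat (nat_lit 126602251763104000))) .e)
 .e) .e)))) (.nd (.nd (.nd (.nd (.nd (.nd (.lf (.ofNat (nat_lit 626476406683169808))) .e) .e) .e)
 (.nd (.nd (.nd (.lf (.ofNat (nat_lit 530224736470280976))) .e) .e) .e)) (.nd (.nd (.nd (.nd (.lf
 (.negSucc (nat_lit 244565021777329055))) .e) .e) .e) .e)) (.nd (.nd (.nd (.nd (.nd (.lf (.negSucc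
 (nat_lit 557846399813423231))) .e) .e) .e) (.nd (.nd (.nd (.lf (.negSucc (nat_lit
 73942926565737599))) .e) .e) .e)) (.nd (.nd (.nd (.nd (.lf (.ofNat (nat_lit 136714958044804720)))
 .e) .e) .e) (.nd (.nd (.nd (.lf (.ofNat (nat_lit 372289712731377600))) .e) .e) .e))))) (.nd (.nd
 (.nd (.nd (.nd (.nd (.nd (.lf (.ofNat (nat_lit 138493547336319144))) .e) .e) .e) .e) (.nd (.nd
 (.nd (.nd (.lf (.ofNat (nat_lit 56157504424099344))) .e) .e) .e) (.nd (.nd (.nd (.lf (.ofNat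
 (nat_lit 184857307780596000))) .e) .e) .e))) (.nd (.nd (.nd (.nd (.nd (.lf (.negSucc (nat_lit
 137474068727558495))) .e) .e) .e) (.nd (.nd (.nd (.lf (.ofNat (nat_lit 239867436509707200))) .e)
 .e) .e)) (.nd (.nd (.nd (.nd (.lf (.ofNat (nat_lit 734446159137600))) .e) .e) .e) .e))) (.nd (.nd
 (.nd (.nd (.nd (.nd (.lf (.negSucc (nat_lit 303008661362347007))) .e) .e) .e) .e) (.nd (.nd (.nd
 (.nd (.lf (.ofNat (nat_lit 3839864552702160))) .e) .e) .e) (.nd (.nd (.nd (.lf (.ofNat (nat_lit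
 188530304177870400))) .e) .e) .e))) (.nd (.nd (.nd (.nd (.nd (.lf (.negSucc (nat_lit
 34104801039566879))) .e) .e) .e) .e) (.nd (.nd (.nd (.nd (.lf (.ofNat (nat_lit
 1432366187745641424))) .e) .e) .e) .e))))) .e)) (.nd (.nd (.nd (.nd (.nd (.nd (.nd (.nd .e (.nd
 (.nd (.lf (.ofNat (nat_lit 1527840394406428224))) .e) .e)) (.nd (.nd (.nd (.lf (.ofNat (nat_lit
 4708650698003582288))) .e) .e) .e)) (.nd (.nd (.nd (.nd (.lf (.ofNat (nat_lit
 3264026358514749696))) .e) .e) .e) (.nd (.nd (.nd (.lf (.ofNat (nat_lit 3645611132930707968)))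
 .e) .e) .e))) (.nd (.nd (.nd (.nd (.nd (.lf (.ofNat (nat_lit 1544804063790539600))) .e) .e) .e)
 (.nd (.nd (.nd (.lf (.negSucc (nat_lit 1573349509985476991))) .e) .e) .e)) (.nd (.nd (.nd (.nd
 (.lf (.ofNat (nat_lit 3309092728868894784))) .e) .e) .e) (.nd (.nd (.nd (.lf (.ofNat (nat_lit
 563342919295284000))) .e) .e) .e)))) (.nd (.nd (.nd (.nd (.nd (.nd (.lf (.ofNat (nat_lit
 429903735992919712))) .e) .e) .e) (.nd (.nd (.nd (.lf (.ofNat (nat_lit 176267008822142016))) .e)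
 .e) .e)) (.nd (.nd (.nd (.nd (.lf (.ofNat (nat_lit 251512462489834816))) .e) .e) .e) .e)) (.nd
 (.nd (.nd (.nd (.nd (.lf (.ofNat (nat_lit 1897374970820946432))) .e) .e) .e) (.nd (.nd (.nd (.lf
 (.negSucc (nat_lit 312062720921110559))) .e) .e) .e)) (.nd (.nd (.nd (.nd (.lf (.ofNat (nat_lit
 771434309328095040))) .e) .e) .e) (.nd (.nd (.nd (.lf (.negSucc (nat_lit 333830434363883711)))
 .e) .e) .e))))) (.nd (.nd (.nd (.nd (.nd (.nd (.nd (.lf (.ofNat (nat_lit 17971636686783224))) .e)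
 .e) .e) .e) (.nd (.nd (.nd (.nd (.lf (.negSucc (nat_lit 1915934626543708703))) .e) .e) .e) (.nd
 (.nd (.nd (.lf (.negSucc (nat_lit 554102310493116815))) .e) .e) .e))) (.nd (.nd (.nd (.nd (.nd
 (.lf (.ofNat (nat_lit 1103406160783229952))) .e) .e) .e) (.nd (.nd (.nd (.lf (.ofNat (nat_lit
 258101826872779680))) .e) .e) .e)) (.nd (.nd (.nd (.nd (.lf (.ofNat (nat_lit 773583117494880)))
 .e) .e) .e) .e))) (.nd (.nd (.nd (.nd (.nd (.nd (.lf (.ofNat (nat_lit 805238398968995616))) .e)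
 .e) .e) .e) (.nd (.nd (.nd (.nd (.lf (.negSucc (nat_lit 45373540971643199))) .e) .e) .e) (.nd
 (.nd (.nd (.lf (.ofNat (nat_lit 712876853136865056))) .e) .e) .e))) (.nd (.nd (.nd (.nd (.nd (.lf
 (.ofNat (nat_lit 314092833830722880))) .e) .e) .e) .e) (.nd (.nd (.nd (.nd (.lf (.negSucc
 (nat_lit 3284580601482700607))) .e) .e) .e) .e))))) .e) .e)) (.nd (.nd (.nd (.nd (.nd (.nd (.nd
 (.nd .e (.nd (.nd (.nd (.lf (.ofNat (nat_lit 4681517850110741224))) .e) .e) .e)) (.nd (.nd (.nd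
 (.nd (.lf (.ofNat (nat_lit 7278362398628971936))) .e) .e) .e) .e)) (.nd (.nd (.nd (.nd (.nd (.lf
 (.ofNat (nat_lit 2790548398628082688))) .e) .e) .e) .e) (.nd (.nd (.nd (.nd (.lf (.ofNat (nat_lit
 2610638849170649664))) .e) .e) .e) .e))) (.nd (.nd (.nd (.nd (.nd (.nd (.lf (.ofNat (nat_lit
 629628923722917808))) .e) .e) .e) .e) (.nd (.nd (.nd (.nd (.lf (.negSucc (nat_lit
 2931517244252597439))) .e) .e) .e) .e)) (.nd (.nd (.nd (.nd (.nd (.lf (.ofNat (nat_lit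
 214661021332857024))) .e) .e) .e) .e) (.nd (.nd (.nd (.nd (.lf (.negSucc (nat_lit
 402219587856175919))) .e) .e) .e) .e)))) (.nd (.nd (.nd (.nd (.nd (.nd (.nd (.lf (.ofNat (nat_lit
 146012475304339156))) .e) .e) .e) .e) (.nd (.nd (.nd (.nd (.lf (.ofNat (nat_lit
 401549129998707360))) .e) .e) .e) .e)) (.nd (.nd (.nd (.nd (.nd (.lf (.negSucc (nat_lit
 1200684492626510207))) .e) .e) .e) .e) (.nd (.nd (.nd (.nd (.lf (.negSucc (nat_lit
 1380170850101903))) .e) .e) .e) .e))) (.nd (.nd (.nd (.nd (.nd (.nd (.lf (.negSucc (nat_lit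
 514610250083044607))) .e) .e) .e) .e) (.nd (.nd (.nd (.nd (.lf (.ofNat (nat_lit
 162060238994978160))) .e) .e) .e) .e)) (.nd (.nd (.nd (.nd (.nd (.lf (.ofNat (nat_lit
 234814130045867200))) .e) .e) .e) .e) (.nd (.nd (.nd (.nd (.lf (.negSucc (nat_lit
 2116577000887995023))) .e) .e) .e) .e))))) .e) .e) (.nd (.nd (.nd (.nd (.nd (.nd (.nd (.nd .e
 (.nd (.nd (.lf (.ofNat (nat_lit 1867028397708402144))) .e) .e)) (.nd (.nd (.nd (.lf (.ofNat
 (nat_lit 2937849906567626736))) .e) .e) (.nd (.nd (.lf (.negSucc (nat_lit 1142758309599532799)))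
 .e) .e))) (.nd (.nd (.nd (.nd (.lf (.ofNat (nat_lit 1976332662830656416))) .e) .e) (.nd (.nd (.lf
 (.negSucc (nat_lit 2131008804014121599))) .e) .e)) (.nd (.nd (.nd (.lf (.negSucc (nat_lit
 4616524671033171455))) .e) .e) .e))) (.nd (.nd (.nd (.nd (.nd (.lf (.ofNat (nat_lit
 843178923525071232))) .e) .e) (.nd (.nd (.lf (.negSucc (nat_lit 3597786132924283199))) .e) .e))
 (.nd (.nd (.nd (.lf (.negSucc (nat_lit 3392621928129255359))) .e) .e) .e)) (.nd (.nd (.nd (.nd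
 (.lf (.negSucc (nat_lit 1025977407401952575))) .e) .e) .e) (.nd (.nd (.nd (.lf (.negSucc (nat_lit
 914119150126367999))) .e) .e) .e)))) (.nd (.nd (.nd (.nd (.nd (.nd (.lf (.negSucc (nat_lit
 816040768663783199))) .e) .e) .e) (.nd (.nd (.nd (.lf (.negSucc (nat_lit 3397698073534390559)))
 .e) .e) .e)) (.nd (.nd (.nd (.nd (.lf (.negSucc (nat_lit 1299389522330981567))) .e) .e) .e) .e))
 (.nd (.nd (.nd (.nd (.nd (.lf (.ofNat (nat_lit 318819158946931968))) .e) .e) .e) (.nd (.nd (.nd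
 (.lf (.ofNat (nat_lit 116788550141260800))) .e) .e) .e)) (.nd (.nd (.nd (.nd (.lf (.negSucc
 (nat_lit 1766875426278589919))) .e) .e) .e) (.nd (.nd (.nd (.lf (.negSucc (nat_lit
 3573703281315772799))) .e) .e) .e))))) (.nd (.nd (.nd (.nd (.nd (.nd (.nd (.lf (.negSucc (nat_lit
 581443721022737999))) .e) .e) .e) .e) (.nd (.nd (.nd (.nd (.lf (.ofNat (nat_lit
 2027982230099138016))) .e) .e) .e) (.nd (.nd (.nd (.lf (.negSucc (nat_lit 917638293298564799)))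
 .e) .e) .e))) (.nd (.nd (.nd (.nd (.nd (.lf (.ofNat (nat_lit 898366900873099968))) .e) .e) .e)
 (.nd (.nd (.nd (.lf (.negSucc (nat_lit 88669317416745599))) .e) .e) .e)) (.nd (.nd (.nd (.nd (.lf
 (.negSucc (nat_lit 1300765913596799))) .e) .e) .e) .e))) (.nd (.nd (.nd (.nd (.nd (.nd (.lf
 (.ofNat (nat_lit 750373448615850240))) .e) .e) .e) .e) (.nd (.nd (.nd (.nd (.lf (.ofNat (nat_lit
 142765335296373600))) .e) .e) .e) (.nd (.nd (.nd (.lf (.ofNat (nat_lit 62108469225475200))) .e)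
 .e) .e))) (.nd (.nd (.nd (.nd (.nd (.lf (.negSucc (nat_lit 472147268155915199))) .e) .e) .e) .e)
 (.nd (.nd (.nd (.nd (.lf (.ofNat (nat_lit 4380353931317341536))) .e) .e) .e) .e))))) .e) .e)))
 (.nd (.nd (.nd (.nd (.nd (.nd (.nd (.nd .e (.nd (.nd (.nd (.nd (.lf (.ofNat (nat_lit
 3503259884279068928))) .e) .e) .e) .e)) (.nd (.nd (.nd (.nd (.nd (.lf (.ofNat (nat_lit
 4116013460152417808))) .e) .e) .e) .e) .e)) (.nd (.nd (.nd (.nd (.nd (.nd (.lf (.ofNat (nat_lit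
 369777539619345088))) .e) .e) .e) .e) .e) (.nd (.nd (.nd (.nd (.nd (.lf (.negSucc (nat_lit
 1972626965429002367))) .e) .e) .e) .e) .e))) (.nd (.nd (.nd (.nd (.nd (.nd (.nd (.lf (.negSucc
 (nat_lit 171778511085914015))) .e) .e) .e) .e) .e) (.nd (.nd (.nd (.nd (.nd (.lf (.negSucc
 (nat_lit 865544099602306175))) .e) .e) .e) .e) .e)) (.nd (.nd (.nd (.nd (.nd (.nd (.lf (.negSucc
 (nat_lit 274686258254308703))) .e) .e) .e) .e) .e) (.nd (.nd (.nd (.nd (.nd (.lf (.negSucc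
 (nat_lit 510848080784110079))) .e) .e) .e) .e) .e)))) .e) .e) (.nd (.nd (.nd (.nd (.nd (.nd (.nd
 (.nd .e (.nd (.nd (.lf (.negSucc (nat_lit 136204538766676319))) .e) .e)) (.nd (.nd (.nd (.lf
 (.ofNat (nat_lit 97327583173973392))) .e) .e) .e)) (.nd (.nd (.nd (.nd (.lf (.ofNat (nat_lit
 482345672854516448))) .e) .e) (.nd (.nd (.lf (.negSucc (nat_lit 4004823723030969599))) .e) .e))
 (.nd (.nd (.nd (.lf (.negSucc (nat_lit 2494195779202679807))) .e) .e) .e))) (.nd (.nd (.nd (.nd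
 (.nd (.lf (.ofNat (nat_lit 736849279234987264))) .e) .e) (.nd (.nd (.lf (.negSucc (nat_lit
 6823461808860998399))) .e) .e)) (.nd (.nd (.nd (.lf (.negSucc (nat_lit 6218237651145311039))) .e)
 .e) .e)) (.nd (.nd (.nd (.nd (.lf (.negSucc (nat_lit 2811659143130579135))) .e) .e) .e) (.nd (.nd
 (.nd (.lf (.negSucc (nat_lit 13001830895688143999))) .e) .e) .e)))) (.nd (.nd (.nd (.nd (.nd (.nd
 (.lf (.negSucc (nat_lit 537322800045166303))) .e) .e) .e) (.nd (.nd (.nd (.lf (.negSucc (nat_lit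
 1683308758886303327))) .e) .e) .e)) (.nd (.nd (.nd (.nd (.lf (.negSucc (nat_lit
 7237829544178946623))) .e) .e) .e) .e)) (.nd (.nd (.nd (.nd (.nd (.lf (.negSucc (nat_lit
 1544101618774431743))) .e) .e) .e) (.nd (.nd (.nd (.lf (.negSucc (nat_lit 2186810334072489599)))
 .e) .e) .e)) (.nd (.nd (.nd (.nd (.lf (.negSucc (nat_lit 8423488667103372959))) .e) .e) .e) (.nd
 (.nd (.nd (.lf (.negSucc (nat_lit 5717874003981763199))) .e) .e) .e))))) (.nd (.nd (.nd (.nd (.nd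
 (.nd (.nd (.lf (.negSucc (nat_lit 441629795100308127))) .e) .e) .e) .e) (.nd (.nd (.nd (.nd (.lf
 (.ofNat (nat_lit 4375690863806136480))) .e) .e) .e) (.nd (.nd (.nd (.lf (.negSucc (nat_lit
 377573570868307199))) .e) .e) .e))) (.nd (.nd (.nd (.nd (.nd (.lf (.negSucc (nat_lit
 1913208000948770495))) .e) .e) .e) (.nd (.nd (.nd (.lf (.negSucc (nat_lit 602860513633996799)))
 .e) .e) .e)) (.nd (.nd (.nd (.nd (.lf (.ofNat (nat_lit 440517704793600))) .e) .e) .e) .e))) (.nd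
 (.nd (.nd (.nd (.nd (.nd (.lf (.ofNat (nat_lit 650291231201041920))) .e) .e) .e) .e) (.nd (.nd
 (.nd (.nd (.lf (.negSucc (nat_lit 1304341710678824159))) .e) .e) .e) (.nd (.nd (.nd (.lf
 (.negSucc (nat_lit 887645213247878399))) .e) .e) .e))) (.nd (.nd (.nd (.nd (.nd (.lf (.negSucc
 (nat_lit 709432470020518719))) .e) .e) .e) .e) (.nd (.nd (.nd (.nd (.lf (.negSucc (nat_lit
 907134899939171039))) .e) .e) .e) .e))))) .e) .e)) (.nd (.nd (.nd (.nd (.nd (.nd (.nd (.nd .e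
 (.nd (.nd (.nd (.lf (.ofNat (nat_lit 3105958453601680128))) .e) .e) .e)) (.nd (.nd (.nd (.nd (.lf
 (.ofNat (nat_lit 3543148891511824896))) .e) .e) .e) (.nd (.nd (.nd (.lf (.negSucc (nat_lit
 5007623792610442751))) .e) .e) .e))) (.nd (.nd (.nd (.nd (.nd (.lf (.ofNat (nat_lit
 4861716268503384576))) .e) .e) .e) (.nd (.nd (.nd (.lf (.negSucc (nat_lit 10770529752934387199)))
 .e) .e) .e)) (.nd (.nd (.nd (.nd (.lf (.negSucc (nat_lit 14894495631442584575))) .e) .e) .e)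
 .e))) (.nd (.nd (.nd (.nd (.nd (.nd (.lf (.ofNat (nat_lit 2540964975722204160))) .e) .e) .e) (.nd
 (.nd (.nd (.lf (.ofNat (nat_lit 5371063116579032832))) .e) .e) .e)) (.nd (.nd (.nd (.nd (.lf
 (.negSucc (nat_lit 6796083817127010815))) .e) .e) .e) .e)) (.nd (.nd (.nd (.nd (.nd (.lf
 (.negSucc (nat_lit 7640135644071094271))) .e) .e) .e) (.nd (.nd (.nd (.lf (.negSucc (nat_lit
 92994800119363583))) .e) .e) .e)) (.nd (.nd (.nd (.nd (.lf (.negSucc (nat_lit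
 2976126107487494399))) .e) .e) .e) .e)))) (.nd (.nd (.nd (.nd (.nd (.nd (.nd (.lf (.ofNat
 (nat_lit 815254944235151232))) .e) .e) .e) .e) (.nd (.nd (.nd (.nd (.lf (.negSucc (nat_lit
 8085175789944326399))) .e) .e) .e) .e)) (.nd (.nd (.nd (.nd (.nd (.lf (.negSucc (nat_lit
 1943079992975158271))) .e) .e) .e) (.nd (.nd (.nd (.lf (.ofNat (nat_lit 1471094585306247168)))
 .e) .e) .e)) (.nd (.nd (.nd (.nd (.lf (.ofNat (nat_lit 330809327622144))) .e) .e) .e) .e))) (.nd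
 (.nd (.nd (.nd (.nd (.nd (.lf (.negSucc (nat_lit 1383238803607206911))) .e) .e) .e) .e) (.nd (.nd
 (.nd (.nd (.lf (.ofNat (nat_lit 70024821760200960))) .e) .e) .e) .e)) (.nd (.nd (.nd (.nd (.nd
 (.lf (.negSucc (nat_lit 2063027334877678079))) .e) .e) .e) .e) (.nd (.nd (.nd (.nd (.lf (.negSucc
 (nat_lit 2832147259430969087))) .e) .e) .e) .e))))) .e) .e) .e))) (.nd (.nd (.nd (.nd (.nd (.nd
 (.nd (.nd .e (.nd (.nd (.nd (.nd (.nd (.lf (.ofNat (nat_lit 1699754832629061840))) .e) .e) .e)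
 .e) .e)) (.nd (.nd (.nd (.nd (.nd (.nd (.lf (.ofNat (nat_lit 1053922950370721184))) .e) .e) .e)
 .e) .e) .e)) (.nd (.nd (.nd (.nd (.nd (.nd (.nd (.lf (.ofNat (nat_lit 483455098543112108))) .e)
 .e) .e) .e) .e) .e) (.nd (.nd (.nd (.nd (.nd (.nd (.lf (.negSucc (nat_lit 670896592042614335)))
 .e) .e) .e) .e) .e) .e))) .e) .e) (.nd (.nd (.nd (.nd (.nd (.nd (.nd (.nd .e (.nd (.nd (.lf
 (.negSucc (nat_lit 519012844726126895))) .e) .e)) (.nd (.nd (.nd (.lf (.negSucc (nat_lit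
 559961133465816695))) .e) .e) .e)) (.nd (.nd (.nd (.nd (.lf (.ofNat (nat_lit
 1121920736258503920))) .e) .e) .e) (.nd (.nd (.nd (.lf (.negSucc (nat_lit 3166406987633966591)))
 .e) .e) .e))) (.nd (.nd (.nd (.nd (.nd (.lf (.ofNat (nat_lit 464879181150685824))) .e) .e) (.nd
 (.nd (.lf (.negSucc (nat_lit 289462629164788799))) .e) .e)) (.nd (.nd (.nd (.lf (.negSucc
 (nat_lit 5660802485389199519))) .e) .e) .e)) (.nd (.nd (.nd (.nd (.lf (.negSucc (nat_lit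
 2418903218955714911))) .e) .e) .e) (.nd (.nd (.nd (.lf (.negSucc (nat_lit 8696395713485735999)))
 .e) .e) .e)))) (.nd (.nd (.nd (.nd (.nd (.nd (.lf (.ofNat (nat_lit 6981001434262032))) .e) .e)
 .e) (.nd (.nd (.nd (.lf (.negSucc (nat_lit 15115747493118966191))) .e) .e) .e)) (.nd (.nd (.nd
 (.nd (.lf (.negSucc (nat_lit 310883345421867551))) .e) .e) .e) .e)) (.nd (.nd (.nd (.nd (.nd (.lf
 (.negSucc (nat_lit 3271348449650566655))) .e) .e) .e) (.nd (.nd (.nd (.lf (.negSucc (nat_lit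
 2452709165601787199))) .e) .e) .e)) (.nd (.nd (.nd (.nd (.lf (.negSucc (nat_lit
 6747994425036465359))) .e) .e) .e) (.nd (.nd (.nd (.lf (.negSucc (nat_lit 5433041992697697599)))
 .e) .e) .e))))) (.nd (.nd (.nd (.nd (.nd (.nd (.nd (.lf (.ofNat (nat_lit 935478868197229968)))
 .e) .e) .e) .e) (.nd (.nd (.nd (.nd (.lf (.ofNat (nat_lit 864840787710175440))) .e) .e) .e) (.nd
 (.nd (.nd (.lf (.ofNat (nat_lit 486165920279760000))) .e) .e) .e))) (.nd (.nd (.nd (.nd (.nd (.lf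
 (.ofNat (nat_lit 909298346898702240))) .e) .e) .e) (.nd (.nd (.nd (.lf (.negSucc (nat_lit
 2059743152846937599))) .e) .e) .e)) (.nd (.nd (.nd (.nd (.lf (.negSucc (nat_lit
 1727478381484799))) .e) .e) .e) .e))) (.nd (.nd (.nd (.nd (.nd (.nd (.lf (.ofNat (nat_lit
 4416897727349699328))) .e) .e) .e) .e) (.nd (.nd (.nd (.nd (.lf (.negSucc (nat_lit
 1501570472891957999))) .e) .e) .e) (.nd (.nd (.nd (.lf (.negSucc (nat_lit 669262753225295999)))
 .e) .e) .e))) (.nd (.nd (.nd (.nd (.nd (.lf (.negSucc (nat_lit 1554079180843220639))) .e) .e) .e)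
 .e) (.nd (.nd (.nd (.nd (.lf (.negSucc (nat_lit 4147977264416617967))) .e) .e) .e) .e))))) .e)
 .e)) (.nd (.nd (.nd (.nd (.nd (.nd (.nd (.nd .e (.nd (.nd (.nd (.lf (.negSucc (nat_lit
 1975080404800691039))) .e) .e) .e)) (.nd (.nd (.nd (.nd (.lf (.ofNat (nat_lit
 1959168035247171840))) .e) .e) .e) .e)) (.nd (.nd (.nd (.nd (.nd (.lf (.ofNat (nat_lit
 1663763010704387360))) .e) .e) .e) (.nd (.nd (.nd (.lf (.negSucc (nat_lit 6695478101094919679)))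
 .e) .e) .e)) (.nd (.nd (.nd (.nd (.lf (.negSucc (nat_lit 6718574861623377791))) .e) .e) .e) .e)))
 (.nd (.nd (.nd (.nd (.nd (.nd (.lf (.negSucc (nat_lit 263530457571625535))) .e) .e) .e) (.nd (.nd
 (.nd (.lf (.negSucc (nat_lit 10911566565248394239))) .e) .e) .e)) (.nd (.nd (.nd (.nd (.lf
 (.negSucc (nat_lit 6241358426575699327))) .e) .e) .e) .e)) (.nd (.nd (.nd (.nd (.nd (.lf
 (.negSucc (nat_lit 92932534858467839))) .e) .e) .e) .e) (.nd (.nd (.nd (.nd (.lf (.negSucc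
 (nat_lit 17261635228515828479))) .e) .e) .e) .e)))) (.nd (.nd (.nd (.nd (.nd (.nd (.nd (.lf
 (.ofNat (nat_lit 91514680175911856))) .e) .e) .e) .e) (.nd (.nd (.nd (.nd (.lf (.negSucc (nat_lit
 2722139259252474431))) .e) .e) .e) .e)) (.nd (.nd (.nd (.nd (.nd (.lf (.negSucc (nat_lit
 2393275274466388991))) .e) .e) .e) .e) (.nd (.nd (.nd (.nd (.lf (.negSucc (nat_lit
 2091777194291903))) .e) .e) .e) .e))) (.nd (.nd (.nd (.nd (.nd (.nd (.lf (.negSucc (nat_lit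
 312295597634408639))) .e) .e) .e) .e) (.nd (.nd (.nd (.nd (.lf (.negSucc (nat_lit
 1100662753199404799))) .e) .e) .e) .e)) (.nd (.nd (.nd (.nd (.nd (.lf (.negSucc (nat_lit
 4336742072137548159))) .e) .e) .e) .e) (.nd (.nd (.nd (.nd (.lf (.negSucc (nat_lit
 5278820597624430335))) .e) .e) .e) .e))))) .e) .e) .e)) (.nd (.nd (.nd (.nd (.nd (.nd (.nd (.nd
 .e (.nd (.nd (.nd (.nd (.lf (.negSucc (nat_lit 1309381108893797759))) .e) .e) .e) .e)) (.nd (.nd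
 (.nd (.nd (.nd (.lf (.negSucc (nat_lit 2428870591459721471))) .e) .e) .e) .e) (.nd (.nd (.nd (.nd
 (.lf (.negSucc (nat_lit 4660914063477734783))) .e) .e) .e) .e))) (.nd (.nd (.nd (.nd (.nd (.nd
 (.lf (.negSucc (nat_lit 2547450128655148607))) .e) .e) .e) .e) (.nd (.nd (.nd (.nd (.lf (.negSucc
 (nat_lit 10258530731590008575))) .e) .e) .e) .e)) (.nd (.nd (.nd (.nd (.nd (.lf (.negSucc
 (nat_lit 2745277201888766207))) .e) .e) .e) .e) .e))) (.nd (.nd (.nd (.nd (.nd (.nd (.nd (.lf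
 (.negSucc (nat_lit 465868190855300207))) .e) .e) .e) .e) (.nd (.nd (.nd (.nd (.lf (.negSucc
 (nat_lit 3069479878123953023))) .e) .e) .e) .e)) (.nd (.nd (.nd (.nd (.nd (.lf (.negSucc (nat_lit
 3258103016633338367))) .e) .e) .e) .e) .e)) (.nd (.nd (.nd (.nd (.nd (.nd (.lf (.negSucc (nat_lit
 4601513145063513599))) .e) .e) .e) .e) (.nd (.nd (.nd (.nd (.lf (.negSucc (nat_lit
 397013577910021439))) .e) .e) .e) .e)) (.nd (.nd (.nd (.nd (.nd (.lf (.negSucc (nat_lit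
 1143839643405676799))) .e) .e) .e) .e) .e)))) .e) .e) .e) (.nd (.nd (.nd (.nd (.nd (.nd (.nd (.nd
 .e (.nd (.nd (.nd (.lf (.ofNat (nat_lit 312937368541391120))) .e) .e) .e)) (.nd (.nd (.nd (.nd
 (.lf (.negSucc (nat_lit 378184715374606879))) .e) .e) .e) (.nd (.nd (.nd (.lf (.negSucc (nat_lit
 166778317788779519))) .e) .e) .e))) (.nd (.nd (.nd (.nd (.nd (.lf (.negSucc (nat_lit
 516350101039797759))) .e) .e) .e) (.nd (.nd (.nd (.lf (.negSucc (nat_lit 9341330310757945919)))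
 .e) .e) .e)) (.nd (.nd (.nd (.nd (.lf (.ofNat (nat_lit 526114923353636160))) .e) .e) .e) (.nd
 (.nd (.nd (.lf (.negSucc (nat_lit 15197634796008239999))) .e) .e) .e)))) (.nd (.nd (.nd (.nd (.nd
 (.nd (.lf (.negSucc (nat_lit 345291429468692319))) .e) .e) .e) (.nd (.nd (.nd (.lf (.negSucc
 (nat_lit 2075176716197533919))) .e) .e) .e)) (.nd (.nd (.nd (.nd (.lf (.negSucc (nat_lit
 3275138080636640319))) .e) .e) .e) .e)) (.nd (.nd (.nd (.nd (.nd (.lf (.negSucc (nat_lit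
 303956574886172159))) .e) .e) .e) (.nd (.nd (.nd (.lf (.negSucc (nat_lit 17198386584713279999)))
 .e) .e) .e)) (.nd (.nd (.nd (.nd (.lf (.negSucc (nat_lit 11114375978374701599))) .e) .e) .e)
 .e)))) (.nd (.nd (.nd (.nd (.nd (.nd (.nd (.lf (.negSucc (nat_lit 124088897660648479))) .e) .e)
 .e) .e) (.nd (.nd (.nd (.nd (.lf (.ofNat (nat_lit 1274761993492624800))) .e) .e) .e) (.nd (.nd
 (.nd (.lf (.negSucc (nat_lit 1596460568493719999))) .e) .e) .e))) (.nd (.nd (.nd (.nd (.nd (.lf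
 (.negSucc (nat_lit 871251790916141759))) .e) .e) .e) (.nd (.nd (.nd (.lf (.negSucc (nat_lit
 3220563746585039999))) .e) .e) .e)) (.nd (.nd (.nd (.nd (.lf (.negSucc (nat_lit
 1420965878692079999))) .e) .e) .e) .e))) (.nd (.nd (.nd (.nd (.nd (.nd (.lf (.ofNat (nat_lit
 35342813868748800))) .e) .e) .e) .e) (.nd (.nd (.nd (.nd (.lf (.negSucc (nat_lit
 5877805438598747999))) .e) .e) .e) (.nd (.nd (.nd (.lf (.negSucc (nat_lit 639980996569583999)))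
 .e) .e) .e))) (.nd (.nd (.nd (.nd (.nd (.lf (.negSucc (nat_lit 264697776166241599))) .e) .e) .e)
 .e) (.nd (.nd (.nd (.nd (.lf (.negSucc (nat_lit 6203845441724730719))) .e) .e) .e) .e))))) .e)
 .e) .e)))) (.nd (.nd (.nd (.nd (.nd (.nd (.nd (.nd .e (.nd (.nd (.nd (.nd (.nd (.nd (.lf (.ofNat
 (nat_lit 1112911873613529568))) .e) .e) .e) .e) .e) .e)) (.nd (.nd (.nd (.nd (.nd (.nd (.nd (.lf
 (.ofNat (nat_lit 1059677099116088288))) .e) .e) .e) .e) .e) .e) .e)) .e) .e) .e) (.nd (.nd (.nd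
 (.nd (.nd (.nd (.nd (.nd .e (.nd (.nd (.nd (.lf (.negSucc (nat_lit 1133737858905397775))) .e) .e)
 .e)) (.nd (.nd (.nd (.nd (.lf (.ofNat (nat_lit 884635410281719680))) .e) .e) .e) .e)) (.nd (.nd
 (.nd (.nd (.nd (.lf (.negSucc (nat_lit 1801856251642912079))) .e) .e) .e) .e) (.nd (.nd (.nd (.nd
 (.lf (.negSucc (nat_lit 7854510536897682239))) .e) .e) .e) .e))) (.nd (.nd (.nd (.nd (.nd (.nd
 (.lf (.negSucc (nat_lit 1652019446896217567))) .e) .e) .e) (.nd (.nd (.nd (.lf (.ofNat (nat_lit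
 8893865082670186752))) .e) .e) .e)) (.nd (.nd (.nd (.nd (.lf (.negSucc (nat_lit
 7816781685834225983))) .e) .e) .e) .e)) (.nd (.nd (.nd (.nd (.nd (.lf (.negSucc (nat_lit
 5979342531185531135))) .e) .e) .e) .e) (.nd (.nd (.nd (.nd (.lf (.negSucc (nat_lit
 9679873936048997759))) .e) .e) .e) .e)))) (.nd (.nd (.nd (.nd (.nd (.nd (.nd (.lf (.ofNat
 (nat_lit 406313784677525448))) .e) .e) .e) .e) (.nd (.nd (.nd (.nd (.lf (.negSucc (nat_lit
 6965058694993862111))) .e) .e) .e) .e)) (.nd (.nd (.nd (.nd (.nd (.lf (.ofNat (nat_lit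
 1371932068851873792))) .e) .e) .e) .e) (.nd (.nd (.nd (.nd (.lf (.negSucc (nat_lit
 725293154837663))) .e) .e) .e) .e))) (.nd (.nd (.nd (.nd (.nd (.nd (.lf (.negSucc (nat_lit
 3083221772668353311))) .e) .e) .e) .e) (.nd (.nd (.nd (.nd (.lf (.negSucc (nat_lit
 2118808308531427199))) .e) .e) .e) .e)) (.nd (.nd (.nd (.nd (.nd (.lf (.negSucc (nat_lit
 3239348698226183999))) .e) .e) .e) .e) (.nd (.nd (.nd (.nd (.lf (.ofNat (nat_lit
 4235890434140317824))) .e) .e) .e) .e))))) .e) .e) .e)) (.nd (.nd (.nd (.nd (.nd (.nd (.nd (.nd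
 .e (.nd (.nd (.nd (.nd (.lf (.negSucc (nat_lit 3114593363131391))) .e) .e) .e) .e)) (.nd (.nd
 (.nd (.nd (.nd (.lf (.ofNat (nat_lit 3081569138064866432))) .e) .e) .e) .e) .e)) (.nd (.nd (.nd
 (.nd (.nd (.nd (.lf (.ofNat (nat_lit 422625269421417792))) .e) .e) .e) .e) (.nd (.nd (.nd (.nd
 (.lf (.negSucc (nat_lit 6276433254164100991))) .e) .e) .e) .e)) (.nd (.nd (.nd (.nd (.nd (.lf
 (.negSucc (nat_lit 4999966144140482303))) .e) .e) .e) .e) .e))) (.nd (.nd (.nd (.nd (.nd (.nd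
 (.nd (.lf (.negSucc (nat_lit 157917099300043023))) .e) .e) .e) .e) (.nd (.nd (.nd (.nd (.lf
 (.negSucc (nat_lit 6024630280141905791))) .e) .e) .e) .e)) (.nd (.nd (.nd (.nd (.nd (.lf
 (.negSucc (nat_lit 5765977895019421439))) .e) .e) .e) .e) .e)) (.nd (.nd (.nd (.nd (.nd (.nd (.lf
 (.negSucc (nat_lit 2258721839925590783))) .e) .e) .e) .e) .e) (.nd (.nd (.nd (.nd (.nd (.lf
 (.negSucc (nat_lit 5912784605465043199))) .e) .e) .e) .e) .e)))) .e) .e) .e) .e)) (.nd (.nd (.nd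
 (.nd (.nd (.nd (.nd (.nd .e (.nd (.nd (.nd (.nd (.nd (.lf (.ofNat (nat_lit 1646366760627274944)))
 .e) .e) .e) .e) .e)) (.nd (.nd (.nd (.nd (.nd (.nd (.lf (.ofNat (nat_lit 373426569257181312)))
 .e) .e) .e) .e) .e) (.nd (.nd (.nd (.nd (.nd (.lf (.negSucc (nat_lit 2738149515742169087))) .e)
 .e) .e) .e) .e))) (.nd (.nd (.nd (.nd (.nd (.nd (.nd (.lf (.ofNat (nat_lit 675387488515587360)))
 .e) .e) .e) .e) .e) (.nd (.nd (.nd (.nd (.nd (.lf (.negSucc (nat_lit 2827049526318686975))) .e)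
 .e) .e) .e) .e)) (.nd (.nd (.nd (.nd (.nd (.nd (.lf (.negSucc (nat_lit 697203446955854975))) .e)
 .e) .e) .e) .e) .e))) .e) .e) .e) (.nd (.nd (.nd (.nd (.nd (.nd (.nd (.nd .e (.nd (.nd (.nd (.lf
 (.negSucc (nat_lit 43334692845795215))) .e) .e) .e)) (.nd (.nd (.nd (.nd (.lf (.ofNat (nat_lit
 521912706344109600))) .e) .e) .e) .e)) (.nd (.nd (.nd (.nd (.nd (.lf (.ofNat (nat_lit
 449922280186107264))) .e) .e) .e) (.nd (.nd (.nd (.lf (.negSucc (nat_lit 305788598943493055)))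
 .e) .e) .e)) (.nd (.nd (.nd (.nd (.lf (.negSucc (nat_lit 645705468269561663))) .e) .e) .e) .e)))
 (.nd (.nd (.nd (.nd (.nd (.nd (.lf (.ofNat (nat_lit 125329558543320672))) .e) .e) .e) (.nd (.nd
 (.nd (.lf (.negSucc (nat_lit 1457536473231706655))) .e) .e) .e)) (.nd (.nd (.nd (.nd (.lf (.ofNat
 (nat_lit 1143873968795027520))) .e) .e) .e) .e)) (.nd (.nd (.nd (.nd (.nd (.lf (.negSucc (nat_lit
 515667097699660799))) .e) .e) .e) (.nd (.nd (.nd (.lf (.negSucc (nat_lit 16407521751349583999)))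
 .e) .e) .e)) (.nd (.nd (.nd (.nd (.lf (.negSucc (nat_lit 9571585757253408479))) .e) .e) .e)
 .e)))) (.nd (.nd (.nd (.nd (.nd (.nd (.nd (.lf (.ofNat (nat_lit 14037812879421120))) .e) .e) .e)
 .e) (.nd (.nd (.nd (.nd (.lf (.ofNat (nat_lit 49186873181222496))) .e) .e) .e) .e)) (.nd (.nd
 (.nd (.nd (.nd (.lf (.ofNat (nat_lit 372130190095810752))) .e) .e) .e) (.nd (.nd (.nd (.lf
 (.negSucc (nat_lit 13389092376043535999))) .e) .e) .e)) (.nd (.nd (.nd (.nd (.lf (.negSucc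
 (nat_lit 6663610091300399999))) .e) .e) .e) .e))) (.nd (.nd (.nd (.nd (.nd (.nd (.lf (.negSucc
 (nat_lit 102020608929321215))) .e) .e) .e) .e) (.nd (.nd (.nd (.nd (.lf (.negSucc (nat_lit
 11683272584883803039))) .e) .e) .e) .e)) (.nd (.nd (.nd (.nd (.nd (.lf (.negSucc (nat_lit
 2023727474972241599))) .e) .e) .e) .e) (.nd (.nd (.nd (.nd (.lf (.negSucc (nat_lit
 3146306557135787423))) .e) .e) .e) .e))))) .e) .e) .e)) (.nd (.nd (.nd (.nd (.nd (.nd (.nd (.nd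
 .e (.nd (.nd (.nd (.nd (.lf (.negSucc (nat_lit 2413315987379510399))) .e) .e) .e) .e)) (.nd (.nd
 (.nd (.nd (.nd (.lf (.negSucc (nat_lit 1242675720182040559))) .e) .e) .e) .e) (.nd (.nd (.nd (.nd
 (.lf (.ofNat (nat_lit 2617523389207794240))) .e) .e) .e) .e))) (.nd (.nd (.nd (.nd (.nd (.nd (.lf
 (.ofNat (nat_lit 82105548298191840))) .e) .e) .e) .e) (.nd (.nd (.nd (.nd (.lf (.negSucc (nat_lit
 8315259208906133439))) .e) .e) .e) .e)) (.nd (.nd (.nd (.nd (.nd (.lf (.ofNat (nat_lit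
 2430292517201852160))) .e) .e) .e) .e) (.nd (.nd (.nd (.nd (.lf (.negSucc (nat_lit
 9763298343145315199))) .e) .e) .e) .e)))) (.nd (.nd (.nd (.nd (.nd (.nd (.nd (.lf (.ofNat
 (nat_lit 83879607795771160))) .e) .e) .e) .e) (.nd (.nd (.nd (.nd (.lf (.negSucc (nat_lit
 1263490753768536479))) .e) .e) .e) .e)) (.nd (.nd (.nd (.nd (.nd (.lf (.negSucc (nat_lit
 1672207391610316799))) .e) .e) .e) .e) (.nd (.nd (.nd (.nd (.lf (.ofNat (nat_lit
 5233197187723680))) .e) .e) .e) .e))) (.nd (.nd (.nd (.nd (.nd (.nd (.lf (.ofNat (nat_lit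
 618540468271101600))) .e) .e) .e) .e) (.nd (.nd (.nd (.nd (.lf (.negSucc (nat_lit
 7667381929190668799))) .e) .e) .e) .e)) (.nd (.nd (.nd (.nd (.nd (.lf (.negSucc (nat_lit
 6121442735914980799))) .e) .e) .e) .e) .e)))) .e) .e) .e) (.nd (.nd (.nd (.nd (.nd (.nd (.nd (.nd
 .e (.nd (.nd (.nd (.lf (.ofNat (nat_lit 285238359028408416))) .e) .e) .e)) (.nd (.nd (.nd (.nd
 (.lf (.ofNat (nat_lit 1291546436278903104))) .e) .e) .e) (.nd (.nd (.nd (.lf (.ofNat (nat_lit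
 953147152444925952))) .e) .e) .e))) (.nd (.nd (.nd (.nd (.nd (.lf (.negSucc (nat_lit
 2509562368972691711))) .e) .e) .e) (.nd (.nd (.nd (.lf (.negSucc (nat_lit 4647531833941780607)))
 .e) .e) .e)) (.nd (.nd (.nd (.nd (.lf (.ofNat (nat_lit 3360543417231785856))) .e) .e) .e) (.nd
 (.nd (.nd (.lf (.negSucc (nat_lit 20946019132100207999))) .e) .e) .e)))) (.nd (.nd (.nd (.nd (.nd
 (.nd (.lf (.negSucc (nat_lit 2644786969510742207))) .e) .e) .e) (.nd (.nd (.nd (.lf (.negSucc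
 (nat_lit 14459886152980512191))) .e) .e) .e)) (.nd (.nd (.nd (.nd (.lf (.negSucc (nat_lit
 1182790804266569087))) .e) .e) .e) .e)) (.nd (.nd (.nd (.nd (.nd (.lf (.negSucc (nat_lit
 2925582569660284415))) .e) .e) .e) (.nd (.nd (.nd (.lf (.negSucc (nat_lit 18524428258113014399)))
 .e) .e) .e)) (.nd (.nd (.nd (.nd (.lf (.negSucc (nat_lit 12142489716437874239))) .e) .e) .e) (.nd
 (.nd (.nd (.lf (.negSucc (nat_lit 7231074701820076799))) .e) .e) .e))))) (.nd (.nd (.nd (.nd (.nd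
 (.nd (.nd (.lf (.ofNat (nat_lit 719711438235723840))) .e) .e) .e) .e) (.nd (.nd (.nd (.nd (.lf
 (.ofNat (nat_lit 3049472219858569152))) .e) .e) .e) (.nd (.nd (.nd (.lf (.negSucc (nat_lit
 2418855975481924799))) .e) .e) .e))) (.nd (.nd (.nd (.nd (.nd (.lf (.negSucc (nat_lit
 899866065834276479))) .e) .e) .e) (.nd (.nd (.nd (.lf (.negSucc (nat_lit 4924569951248515199)))
 .e) .e) .e)) (.nd (.nd (.nd (.nd (.lf (.negSucc (nat_lit 2852036013359433599))) .e) .e) .e) .e)))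
 (.nd (.nd (.nd (.nd (.nd (.nd (.lf (.ofNat (nat_lit 4716300506542382592))) .e) .e) .e) .e) (.nd
 (.nd (.nd (.nd (.lf (.negSucc (nat_lit 7557194806679482559))) .e) .e) .e) (.nd (.nd (.nd (.lf
 (.negSucc (nat_lit 789244651827215999))) .e) .e) .e))) (.nd (.nd (.nd (.nd (.nd (.lf (.negSucc
 (nat_lit 1715978619630322559))) .e) .e) .e) .e) (.nd (.nd (.nd (.nd (.lf (.negSucc (nat_lit
 9380716126000788671))) .e) .e) .e) .e))))) .e) .e) .e))))) (.nd (.nd (.nd (.nd (.nd (.nd (.nd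
 (.nd .e (.nd (.nd (.nd (.nd (.nd (.nd (.nd (.lf (.ofNat (nat_lit 334840997336531772))) .e) .e)
 .e) .e) .e) .e) .e)) .e) .e) .e) .e) (.nd (.nd (.nd (.nd (.nd (.nd (.nd (.nd .e (.nd (.nd (.nd
 (.nd (.lf (.ofNat (nat_lit 2535148809074012544))) .e) .e) .e) .e)) (.nd (.nd (.nd (.nd (.nd (.lf
 (.negSucc (nat_lit 383284060884344255))) .e) .e) .e) .e) .e)) (.nd (.nd (.nd (.nd (.nd (.nd (.lf
 (.negSucc (nat_lit 1178977622793915167))) .e) .e) .e) .e) .e) (.nd (.nd (.nd (.nd (.nd (.lf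
 (.ofNat (nat_lit 4053797846663200128))) .e) .e) .e) .e) .e))) (.nd (.nd (.nd (.nd (.nd (.nd (.nd
 (.lf (.negSucc (nat_lit 189199259642075351))) .e) .e) .e) .e) (.nd (.nd (.nd (.nd (.lf (.ofNat
 (nat_lit 308128161728375712))) .e) .e) .e) .e)) (.nd (.nd (.nd (.nd (.nd (.lf (.negSucc (nat_lit
 618301705249560959))) .e) .e) .e) .e) .e)) (.nd (.nd (.nd (.nd (.nd (.nd (.lf (.negSucc (nat_lit
 14593281936614783))) .e) .e) .e) .e) .e) (.nd (.nd (.nd (.nd (.nd (.lf (.negSucc (nat_lit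
 761515610548920959))) .e) .e) .e) .e) .e)))) .e) .e) .e) (.nd (.nd (.nd (.nd (.nd (.nd (.nd (.nd
 .e (.nd (.nd (.nd (.lf (.negSucc (nat_lit 444225395411816231))) .e) .e) .e)) (.nd (.nd (.nd (.nd
 (.lf (.ofNat (nat_lit 1648747680415018704))) .e) .e) .e) (.nd (.nd (.nd (.lf (.ofNat (nat_lit
 742774823674223616))) .e) .e) .e))) (.nd (.nd (.nd (.nd (.nd (.lf (.ofNat (nat_lit
 342009774523375680))) .e) .e) .e) (.nd (.nd (.nd (.lf (.ofNat (nat_lit 180013558025887776))) .e)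
 .e) .e)) (.nd (.nd (.nd (.nd (.lf (.negSucc (nat_lit 387713197778232095))) .e) .e) .e) .e))) (.nd
 (.nd (.nd (.nd (.nd (.nd (.lf (.negSucc (nat_lit 755923434500318159))) .e) .e) .e) (.nd (.nd (.nd
 (.lf (.negSucc (nat_lit 1174970807698006799))) .e) .e) .e)) (.nd (.nd (.nd (.nd (.lf (.ofNat
 (nat_lit 544408099093017504))) .e) .e) .e) .e)) (.nd (.nd (.nd (.nd (.nd (.lf (.negSucc (nat_lit
 1828273856208609023))) .e) .e) .e) (.nd (.nd (.nd (.lf (.negSucc (nat_lit 6611083263565444799)))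
 .e) .e) .e)) (.nd (.nd (.nd (.nd (.lf (.negSucc (nat_lit 193365573051895919))) .e) .e) .e) .e))))
 (.nd (.nd (.nd (.nd (.nd (.nd (.nd (.lf (.ofNat (nat_lit 210958212254457888))) .e) .e) .e) .e)
 (.nd (.nd (.nd (.nd (.lf (.ofNat (nat_lit 388436936879224944))) .e) .e) .e) (.nd (.nd (.nd (.lf
 (.negSucc (nat_lit 688048093740484799))) .e) .e) .e))) (.nd (.nd (.nd (.nd (.nd (.lf (.negSucc
 (nat_lit 100780674690403871))) .e) .e) .e) (.nd (.nd (.nd (.lf (.negSucc (nat_lit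
 2726983832094950399))) .e) .e) .e)) (.nd (.nd (.nd (.nd (.lf (.negSucc (nat_lit
 1428725599274131199))) .e) .e) .e) .e))) (.nd (.nd (.nd (.nd (.nd (.nd (.lf (.ofNat (nat_lit
 877581547162386048))) .e) .e) .e) .e) (.nd (.nd (.nd (.nd (.lf (.negSucc (nat_lit
 2260319289656325839))) .e) .e) .e) .e)) (.nd (.nd (.nd (.nd (.nd (.lf (.negSucc (nat_lit
 33312095169700319))) .e) .e) .e) .e) (.nd (.nd (.nd (.nd (.lf (.negSucc (nat_lit
 392763653277053903))) .e) .e) .e) .e))))) .e) .e) .e))) (.nd (.nd (.nd (.nd (.nd (.nd (.nd (.nd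
 .e (.nd (.nd (.nd (.nd (.nd (.lf (.ofNat (nat_lit 624706324151554848))) .e) .e) .e) .e) .e)) (.nd
 (.nd (.nd (.nd (.nd (.nd (.lf (.negSucc (nat_lit 516876333004330751))) .e) .e) .e) .e) .e) .e))
 (.nd (.nd (.nd (.nd (.nd (.nd (.nd (.lf (.ofNat (nat_lit 298008098926672992))) .e) .e) .e) .e)
 .e) (.nd (.nd (.nd (.nd (.nd (.lf (.negSucc (nat_lit 975039305255311103))) .e) .e) .e) .e) .e))
 (.nd (.nd (.nd (.nd (.nd (.nd (.lf (.ofNat (nat_lit 233504550777501504))) .e) .e) .e) .e) .e)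
 .e))) .e) .e) .e) (.nd (.nd (.nd (.nd (.nd (.nd (.nd (.nd .e (.nd (.nd (.nd (.lf (.negSucc
 (nat_lit 987768838211142767))) .e) .e) .e)) (.nd (.nd (.nd (.nd (.lf (.negSucc (nat_lit
 891536303028878879))) .e) .e) .e) .e)) (.nd (.nd (.nd (.nd (.nd (.lf (.ofNat (nat_lit
 343929363426947712))) .e) .e) .e) (.nd (.nd (.nd (.lf (.ofNat (nat_lit 139451371861194432))) .e)
 .e) .e)) (.nd (.nd (.nd (.nd (.lf (.ofNat (nat_lit 109927564159917888))) .e) .e) .e) .e))) (.nd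
 (.nd (.nd (.nd (.nd (.nd (.lf (.ofNat (nat_lit 306228857974587936))) .e) .e) .e) (.nd (.nd (.nd
 (.lf (.ofNat (nat_lit 54576189765811872))) .e) .e) .e)) (.nd (.nd (.nd (.nd (.lf (.ofNat (nat_lit
 43959114817368000))) .e) .e) .e) .e)) (.nd (.nd (.nd (.nd (.nd (.lf (.negSucc (nat_lit
 785417557759188479))) .e) .e) .e) .e) (.nd (.nd (.nd (.nd (.lf (.negSucc (nat_lit
 296325139231527839))) .e) .e) .e) .e)))) (.nd (.nd (.nd (.nd (.nd (.nd (.nd (.lf (.ofNat (nat_lit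
 64439226542956800))) .e) .e) .e) .e) (.nd (.nd (.nd (.nd (.lf (.ofNat (nat_lit
 2062534851227733408))) .e) .e) .e) .e)) (.nd (.nd (.nd (.nd (.nd (.lf (.negSucc (nat_lit
 680793929026110143))) .e) .e) .e) (.nd (.nd (.nd (.lf (.negSucc (nat_lit 1212840960021791999)))
 .e) .e) .e)) (.nd (.nd (.nd (.nd (.lf (.negSucc (nat_lit 2847389905882367999))) .e) .e) .e) .e)))
 (.nd (.nd (.nd (.nd (.nd (.nd (.lf (.ofNat (nat_lit 450848387234564352))) .e) .e) .e) .e) (.nd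
 (.nd (.nd (.nd (.lf (.negSucc (nat_lit 4654448403604247519))) .e) .e) .e) .e)) (.nd (.nd (.nd
 (.nd (.nd (.lf (.ofNat (nat_lit 868764706351953600))) .e) .e) .e) .e) (.nd (.nd (.nd (.nd (.lf
 (.negSucc (nat_lit 1103607863576052191))) .e) .e) .e) .e))))) .e) .e) .e)) (.nd (.nd (.nd (.nd
 (.nd (.nd (.nd (.nd .e (.nd (.nd (.nd (.nd (.lf (.negSucc (nat_lit 1739710763935199))) .e) .e)
 .e) .e)) (.nd (.nd (.nd (.nd (.nd (.lf (.negSucc (nat_lit 569417056704383))) .e) .e) .e) .e) (.nd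
 (.nd (.nd (.nd (.lf (.ofNat (nat_lit 2759948605842624))) .e) .e) .e) .e))) (.nd (.nd (.nd (.nd
 (.nd (.nd (.lf (.negSucc (nat_lit 307165166771231))) .e) .e) .e) .e) (.nd (.nd (.nd (.nd (.lf
 (.negSucc (nat_lit 3134525850025919))) .e) .e) .e) .e)) (.nd (.nd (.nd (.nd (.nd (.lf (.ofNat
 (nat_lit 365118140459520))) .e) .e) .e) .e) .e))) (.nd (.nd (.nd (.nd (.nd (.nd (.nd (.lf
 (.negSucc (nat_lit 36476483924159))) .e) .e) .e) .e) (.nd (.nd (.nd (.nd (.lf (.ofNat (nat_lit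
 1454058770308704))) .e) .e) .e) .e)) (.nd (.nd (.nd (.nd (.nd (.lf (.negSucc (nat_lit
 2442314171287871))) .e) .e) .e) .e) (.nd (.nd (.nd (.nd (.lf (.negSucc (nat_lit
 712948308954335999))) .e) .e) .e) .e))) (.nd (.nd (.nd (.nd (.nd (.nd (.lf (.ofNat (nat_lit
 217544447667456))) .e) .e) .e) .e) (.nd (.nd (.nd (.nd (.lf (.negSucc (nat_lit
 2302329495003017759))) .e) .e) .e) .e)) (.nd (.nd (.nd (.nd (.nd (.lf (.ofNat (nat_lit
 3106902579681600))) .e) .e) .e) .e) .e)))) .e) .e) .e) .e))) (.nd (.nd (.nd (.nd (.nd (.nd (.nd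
 (.nd .e (.nd (.nd (.nd (.nd (.nd (.nd (.lf (.negSucc (nat_lit 867085532678003135))) .e) .e) .e)
 .e) .e) .e)) (.nd (.nd (.nd (.nd (.nd (.nd (.nd (.lf (.ofNat (nat_lit 108710378248532664))) .e)
 .e) .e) .e) .e) .e) (.nd (.nd (.nd (.nd (.nd (.nd (.lf (.negSucc (nat_lit 721839769948555199)))
 .e) .e) .e) .e) .e) .e))) .e) .e) .e) .e) (.nd (.nd (.nd (.nd (.nd (.nd (.nd (.nd .e (.nd (.nd
 (.nd (.nd (.lf (.ofNat (nat_lit 362897963374861440))) .e) .e) .e) .e)) (.nd (.nd (.nd (.nd (.nd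
 (.lf (.ofNat (nat_lit 160550876237989680))) .e) .e) .e) .e) .e)) (.nd (.nd (.nd (.nd (.nd (.nd
 (.lf (.negSucc (nat_lit 5159741128299359))) .e) .e) .e) .e) (.nd (.nd (.nd (.nd (.lf (.ofNat
 (nat_lit 887891887550205120))) .e) .e) .e) .e)) (.nd (.nd (.nd (.nd (.nd (.lf (.negSucc (nat_lit
 391663436268107519))) .e) .e) .e) .e) .e))) (.nd (.nd (.nd (.nd (.nd (.nd (.nd (.lf (.negSucc
 (nat_lit 2725911076687799))) .e) .e) .e) .e) (.nd (.nd (.nd (.nd (.lf (.negSucc (nat_lit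
 53768061961094879))) .e) .e) .e) .e)) (.nd (.nd (.nd (.nd (.nd (.lf (.ofNat (nat_lit
 290772833234688000))) .e) .e) .e) .e) .e)) (.nd (.nd (.nd (.nd (.nd (.nd (.lf (.negSucc (nat_lit
 87802443104654879))) .e) .e) .e) .e) (.nd (.nd (.nd (.nd (.lf (.negSucc (nat_lit
 2660126267860905599))) .e) .e) .e) .e)) (.nd (.nd (.nd (.nd (.nd (.lf (.negSucc (nat_lit
 2034650608246574399))) .e) .e) .e) .e) .e)))) .e) .e) .e) (.nd (.nd (.nd (.nd (.nd (.nd (.nd (.nd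
 .e (.nd (.nd (.nd (.lf (.negSucc (nat_lit 276515346260876207))) .e) .e) .e)) (.nd (.nd (.nd (.nd
 (.lf (.negSucc (nat_lit 1295294352184718495))) .e) .e) .e) (.nd (.nd (.nd (.lf (.ofNat (nat_lit
 1170570280431191040))) .e) .e) .e))) (.nd (.nd (.nd (.nd (.nd (.lf (.ofNat (nat_lit
 231345656123069184))) .e) .e) .e) (.nd (.nd (.nd (.lf (.negSucc (nat_lit 423055238686797887)))
 .e) .e) .e)) (.nd (.nd (.nd (.nd (.lf (.ofNat (nat_lit 996408300833179200))) .e) .e) .e) .e)))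
 (.nd (.nd (.nd (.nd (.nd (.nd (.lf (.ofNat (nat_lit 675392516199986592))) .e) .e) .e) (.nd (.nd
 (.nd (.lf (.negSucc (nat_lit 1933401587659335647))) .e) .e) .e)) (.nd (.nd (.nd (.nd (.lf (.ofNat
 (nat_lit 1179268464072316608))) .e) .e) .e) .e)) (.nd (.nd (.nd (.nd (.nd (.lf (.negSucc (nat_lit
 907440180563552255))) .e) .e) .e) (.nd (.nd (.nd (.lf (.negSucc (nat_lit 2236717150940707199)))
 .e) .e) .e)) (.nd (.nd (.nd (.nd (.lf (.negSucc (nat_lit 1705083175910219039))) .e) .e) .e)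
 .e)))) (.nd (.nd (.nd (.nd (.nd (.nd (.nd (.lf (.ofNat (nat_lit 158881645314671904))) .e) .e) .e)
 .e) (.nd (.nd (.nd (.nd (.lf (.ofNat (nat_lit 825041136284377632))) .e) .e) .e) (.nd (.nd (.nd
 (.lf (.negSucc (nat_lit 314158795170249599))) .e) .e) .e))) (.nd (.nd (.nd (.nd (.nd (.lf
 (.negSucc (nat_lit 473539182660195263))) .e) .e) .e) (.nd (.nd (.nd (.lf (.negSucc (nat_lit
 1061818858411257599))) .e) .e) .e)) (.nd (.nd (.nd (.nd (.lf (.negSucc (nat_lit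
 473919940790956799))) .e) .e) .e) .e))) (.nd (.nd (.nd (.nd (.nd (.nd (.lf (.ofNat (nat_lit
 187098364151861760))) .e) .e) .e) .e) (.nd (.nd (.nd (.nd (.lf (.negSucc (nat_lit
 780139654970410079))) .e) .e) .e) (.nd (.nd (.nd (.lf (.ofNat (nat_lit 289732681443456000))) .e)
 .e) .e))) (.nd (.nd (.nd (.nd (.nd (.lf (.negSucc (nat_lit 230561019356857919))) .e) .e) .e) .e)
 (.nd (.nd (.nd (.nd (.lf (.negSucc (nat_lit 1426009884200698463))) .e) .e) .e) .e))))) .e) .e)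
 .e))) (.nd (.nd (.nd (.nd (.nd (.nd (.nd (.nd .e (.nd (.nd (.nd (.nd (.nd (.lf (.negSucc (nat_lit
 197657701816588159))) .e) .e) .e) .e) .e)) (.nd (.nd (.nd (.nd (.nd (.nd (.lf (.negSucc (nat_lit
 4796948743189439))) .e) .e) .e) .e) .e) (.nd (.nd (.nd (.nd (.nd (.lf (.negSucc (nat_lit
 101683087861082879))) .e) .e) .e) .e) .e))) (.nd (.nd (.nd (.nd (.nd (.nd (.nd (.lf (.negSucc
 (nat_lit 26048320083555919))) .e) .e) .e) .e) .e) (.nd (.nd (.nd (.nd (.nd (.lf (.negSucc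
 (nat_lit 1713066418015860479))) .e) .e) .e) .e) .e)) (.nd (.nd (.nd (.nd (.nd (.nd (.lf (.ofNat
 (nat_lit 74662844123915520))) .e) .e) .e) .e) .e) (.nd (.nd (.nd (.nd (.nd (.lf (.negSucc
 (nat_lit 1629644914897135999))) .e) .e) .e) .e) .e)))) .e) .e) .e) .e) (.nd (.nd (.nd (.nd (.nd
 (.nd (.nd (.nd .e (.nd (.nd (.nd (.nd (.lf (.ofNat (nat_lit 5666737526618924160))) .e) .e) .e)
 .e)) (.nd (.nd (.nd (.nd (.nd (.lf (.ofNat (nat_lit 1170778670556258096))) .e) .e) .e) .e) (.nd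
 (.nd (.nd (.nd (.lf (.negSucc (nat_lit 7621242898866212159))) .e) .e) .e) .e))) (.nd (.nd (.nd
 (.nd (.nd (.nd (.lf (.negSucc (nat_lit 1908750566435738975))) .e) .e) .e) .e) (.nd (.nd (.nd (.nd
 (.lf (.negSucc (nat_lit 2765404003691059007))) .e) .e) .e) .e)) (.nd (.nd (.nd (.nd (.nd (.lf
 (.ofNat (nat_lit 339080977831534848))) .e) .e) .e) .e) (.nd (.nd (.nd (.nd (.lf (.negSucc
 (nat_lit 11505902640414604799))) .e) .e) .e) .e)))) (.nd (.nd (.nd (.nd (.nd (.nd (.nd (.lf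
 (.negSucc (nat_lit 97286804949891767))) .e) .e) .e) .e) (.nd (.nd (.nd (.nd (.lf (.negSucc
 (nat_lit 3702263425298938079))) .e) .e) .e) .e)) (.nd (.nd (.nd (.nd (.nd (.lf (.ofNat (nat_lit
 1678258442166534144))) .e) .e) .e) .e) (.nd (.nd (.nd (.nd (.lf (.negSucc (nat_lit
 2657611300762655))) .e) .e) .e) .e))) (.nd (.nd (.nd (.nd (.nd (.nd (.lf (.negSucc (nat_lit
 1508790944085657119))) .e) .e) .e) .e) (.nd (.nd (.nd (.nd (.lf (.negSucc (nat_lit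
 3975922615110693119))) .e) .e) .e) .e)) (.nd (.nd (.nd (.nd (.nd (.lf (.negSucc (nat_lit
 3013292039213363519))) .e) .e) .e) .e) (.nd (.nd (.nd (.nd (.lf (.negSucc (nat_lit
 1257363821639961215))) .e) .e) .e) .e))))) .e) .e) .e) .e)))))

end Pool.Agent.H58.BJ.D6
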