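import Pool.Agent.H58.BJ.D6.U4
import Pool.Agent.H58.BJ.D6.U5

/-! # Certificate data (6 jets, exponent 28/25) -/

set_option autoImplicit false

namespace Pool.Agent.H58.BJ.D6

open Pool.Agent.H58.BJ

/-- rows of `G` -/
noncomputable def Y5 : List YRow := [([nat_lit 0, nat_lit 1, nat_lit 2], [(nat_lit 1, .ofNat
 (nat_lit 8)), (nat_lit 2, .ofNat (nat_lit 96)), (nat_lit 3, .negSucc (nat_lit 191)), (nat_lit 4,
 .ofNat (nat_lit 384)), (nat_lit 5, .ofNat (nat_lit 96)), (nat_lit 6, .negSucc (nat_lit 1247)),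
 (nat_lit 8, .ofNat (nat_lit 608)), (nat_lit 9, .ofNat (nat_lit 864)), (nat_lit 10, .ofNat
 (nat_lit 576)), (nat_lit 12, .negSucc (nat_lit 2015)), (nat_lit 15, .negSucc (nat_lit 575)),
 (nat_lit 16, .ofNat (nat_lit 408)), (nat_lit 18, .ofNat (nat_lit 1728)), (nat_lit 20, .ofNat
 (nat_lit 864)), (nat_lit 24, .negSucc (nat_lit 671)), (nat_lit 30, .negSucc (nat_lit 1151)),
 (nat_lit 32, .ofNat (nat_lit 192)), (nat_lit 36, .ofNat (nat_lit 0)), (nat_lit 40, .ofNat
 (nat_lit 192)), (nat_lit 48, .negSucc (nat_lit 191)), (nat_lit 64, .ofNat (nat_lit 32))], nat_lit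
 6, [.negSucc (nat_lit 344519936262182), .negSucc (nat_lit 74798020463946), .negSucc (nat_lit
 54842520320245), .negSucc (nat_lit 7866090634622), .negSucc (nat_lit 14011916730370), .negSucc
 (nat_lit 6605677318362), .negSucc (nat_lit 938267725851), .negSucc (nat_lit 1009391751669),
 .negSucc (nat_lit 200221193929), .negSucc (nat_lit 1034108672464), .ofNat (nat_lit 326818330867),
 .negSucc (nat_lit 195686184713), .ofNat (nat_lit 78662836867), .ofNat (nat_lit 139933958506),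
 .negSucc (nat_lit 115231058283), .ofNat (nat_lit 88443213647), .negSucc (nat_lit 6522960594),
 .negSucc (nat_lit 54929263259), .negSucc (nat_lit 7450296695)]), ([nat_lit 0, nat_lit 0, nat_lit
 0, nat_lit 2], [(nat_lit 1, .ofNat (nat_lit 16)), (nat_lit 2, .ofNat (nat_lit 192)), (nat_lit 3,
 .negSucc (nat_lit 287)), (nat_lit 4, .ofNat (nat_lit 816)), (nat_lit 5, .ofNat (nat_lit 192)),
 (nat_lit 6, .negSucc (nat_lit 1727)), (nat_lit 8, .ofNat (nat_lit 1600)), (nat_lit 10, .ofNat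
 (nat_lit 1152)), (nat_lit 12, .negSucc (nat_lit 3455)), (nat_lit 16, .ofNat (nat_lit 1536)),
 (nat_lit 20, .ofNat (nat_lit 2304)), (nat_lit 24, .negSucc (nat_lit 2303)), (nat_lit 32, .ofNat
 (nat_lit 768)), (nat_lit 40, .ofNat (nat_lit 1536)), (nat_lit 48, .ofNat (nat_lit 0)), (nat_lit
 64, .ofNat (nat_lit 256))], nat_lit 6, [.ofNat (nat_lit 0), .ofNat (nat_lit 0), .ofNat (nat_lit
 0), .ofNat (nat_lit 39765691061), .ofNat (nat_lit 0), .ofNat (nat_lit 0), .ofNat (nat_lit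
 523738967819), .ofNat (nat_lit 0), .ofNat (nat_lit 0), .ofNat (nat_lit 0), .negSucc (nat_lit
 324771660391), .ofNat (nat_lit 118546227793), .ofNat (nat_lit 0), .ofNat (nat_lit 0), .ofNat
 (nat_lit 0), .negSucc (nat_lit 46308921725), .ofNat (nat_lit 0), .ofNat (nat_lit 25891449795),
 .ofNat (nat_lit 3470832287)]), ([nat_lit 1, nat_lit 1, nat_lit 1], [(nat_lit 1, .ofNat (nat_lit
 8)), (nat_lit 2, .ofNat (nat_lit 96)), (nat_lit 3, .negSucc (nat_lit 143)), (nat_lit 4, .ofNat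
 (nat_lit 408)), (nat_lit 6, .negSucc (nat_lit 1151)), (nat_lit 8, .ofNat (nat_lit 704)), (nat_lit
 9, .ofNat (nat_lit 864)), (nat_lit 12, .negSucc (nat_lit 2591)), (nat_lit 16, .ofNat (nat_lit
 408)), (nat_lit 18, .ofNat (nat_lit 3456)), (nat_lit 24, .negSucc (nat_lit 1151)), (nat_lit 27,
 .negSucc (nat_lit 1727)), (nat_lit 32, .ofNat (nat_lit 96)), (nat_lit 36, .ofNat (nat_lit 864)),
 (nat_lit 48, .negSucc (nat_lit 143)), (nat_lit 64, .ofNat (nat_lit 8))], nat_lit 6, [.negSucc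
 (nat_lit 831739002559), .negSucc (nat_lit 7919133119242), .negSucc (nat_lit 190796796881),
 .negSucc (nat_lit 754208118466), .ofNat (nat_lit 202717795455), .negSucc (nat_lit 658228412257),
 .negSucc (nat_lit 92006069522), .ofNat (nat_lit 242057211119), .ofNat (nat_lit 87497377550),
 .negSucc (nat_lit 37077875181), .negSucc (nat_lit 34584286134), .negSucc (nat_lit 19835024250),
 .ofNat (nat_lit 44806325832), .ofNat (nat_lit 26440024746), .negSucc (nat_lit 24478245156),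
 .ofNat (nat_lit 15424790608), .negSucc (nat_lit 1990624171), .negSucc (nat_lit 6637083369),
 .negSucc (nat_lit 1203665019)]), ([nat_lit 0, nat_lit 0, nat_lit 1, nat_lit 1], [(nat_lit 1,
 .ofNat (nat_lit 16)), (nat_lit 2, .ofNat (nat_lit 192)), (nat_lit 3, .negSucc (nat_lit 191)),
 (nat_lit 4, .ofNat (nat_lit 864)), (nat_lit 6, .negSucc (nat_lit 1535)), (nat_lit 8, .ofNat
 (nat_lit 1792)), (nat_lit 9, .ofNat (nat_lit 576)), (nat_lit 12, .negSucc (nat_lit 4031)),
 (nat_lit 16, .ofNat (nat_lit 1680)), (nat_lit 18, .ofNat (nat_lit 2304)), (nat_lit 24, .negSucc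
 (nat_lit 3839)), (nat_lit 32, .ofNat (nat_lit 576)), (nat_lit 36, .ofNat (nat_lit 2304)),
 (nat_lit 48, .negSucc (nat_lit 767)), (nat_lit 64, .ofNat (nat_lit 64))], nat_lit 6, [.ofNat
 (nat_lit 0), .ofNat (nat_lit 8786420819120), .ofNat (nat_lit 0), .ofNat (nat_lit 770311499675),
 .ofNat (nat_lit 0), .ofNat (nat_lit 41778018823), .ofNat (nat_lit 721704261959), .ofNat (nat_lit
 0), .negSucc (nat_lit 337871404400), .ofNat (nat_lit 0), .negSucc (nat_lit 105501705560), .ofNat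
 (nat_lit 115135318859), .ofNat (nat_lit 0), .negSucc (nat_lit 10079763888), .ofNat (nat_lit 0),
 .negSucc (nat_lit 53439727092), .ofNat (nat_lit 1310577992), .ofNat (nat_lit 23001861014), .ofNat
 (nat_lit 1718090294)]), ([nat_lit 0, nat_lit 0, nat_lit 0, nat_lit 0, nat_lit 1], [(nat_lit 1,
 .ofNat (nat_lit 32)), (nat_lit 2, .ofNat (nat_lit 384)), (nat_lit 3, .negSucc (nat_lit 191)),
 (nat_lit 4, .ofNat (nat_lit 1824)), (nat_lit 6, .negSucc (nat_lit 1535)), (nat_lit 8, .ofNat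
 (nat_lit 4352)), (nat_lit 12, .negSucc (nat_lit 4607)), (nat_lit 16, .ofNat (nat_lit 5376)),
 (nat_lit 24, .negSucc (nat_lit 6143)), (nat_lit 32, .ofNat (nat_lit 3072)), (nat_lit 48, .negSucc
 (nat_lit 3071)), (nat_lit 64, .ofNat (nat_lit 512))], nat_lit 6, [.ofNat (nat_lit 0), .ofNat
 (nat_lit 0), .ofNat (nat_lit 0), .ofNat (nat_lit 0), .ofNat (nat_lit 0), .ofNat (nat_lit 0),
 .negSucc (nat_lit 189388970311), .ofNat (nat_lit 0), .ofNat (nat_lit 0), .ofNat (nat_lit 0),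
 .ofNat (nat_lit 0), .negSucc (nat_lit 21285769883), .ofNat (nat_lit 0), .ofNat (nat_lit 0),
 .ofNat (nat_lit 0), .ofNat (nat_lit 0), .ofNat (nat_lit 0), .negSucc (nat_lit 7174774341), .ofNat
 (nat_lit 1859594823)])]

/-- the commands -/
noncomputable def C5 : List Cmd := [.g Y5]

theorem c_ok5 : okL 6 ES C5 = true := by decide +kernel

theorem t_ok5 : eqT (run (.ofNat (nat_lit 28)) (.ofNat (nat_lit 25)) XT DD C5 U4) U5 = true := by decide +kernel

end Pool.Agent.H58.BJ.D6
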