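import Pool.Agent.H58.BJ.D6.U5
import Pool.Agent.H58.BJ.D6.U6

/-! # Certificate data (6 jets, exponent 28/25) -/

set_option autoImplicit false

namespace Pool.Agent.H58.BJ.D6

open Pool.Agent.H58.BJ

/-- rows of `G` -/
noncomputable def Y6 : List YRow := [([nat_lit 0, nat_lit 0, nat_lit 0, nat_lit 0, nat_lit 0,
 nat_lit 0], [(nat_lit 1, .ofNat (nat_lit 64)), (nat_lit 2, .ofNat (nat_lit 768)), (nat_lit 4,
 .ofNat (nat_lit 3840)), (nat_lit 8, .ofNat (nat_lit 10240)), (nat_lit 16, .ofNat (nat_lit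
 15360)), (nat_lit 32, .ofNat (nat_lit 12288)), (nat_lit 64, .ofNat (nat_lit 4096))], nat_lit 6,
 [.ofNat (nat_lit 0), .ofNat (nat_lit 0), .ofNat (nat_lit 0), .ofNat (nat_lit 0), .ofNat (nat_lit
 0), .ofNat (nat_lit 0), .ofNat (nat_lit 0), .ofNat (nat_lit 0), .ofNat (nat_lit 0), .ofNat
 (nat_lit 0), .ofNat (nat_lit 0), .ofNat (nat_lit 0), .ofNat (nat_lit 0), .ofNat (nat_lit 0),
 .ofNat (nat_lit 0), .ofNat (nat_lit 0), .ofNat (nat_lit 0), .ofNat (nat_lit 0), .negSucc (nat_lit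
 283425111)])]

/-- the commands -/
noncomputable def C6 : List Cmd := [.g Y6]

theorem c_ok6 : okL 6 ES C6 = true := by decide +kernel

theorem t_ok6 : eqT (run (.ofNat (nat_lit 28)) (.ofNat (nat_lit 25)) XT DD C6 U5) U6 = true := by decide +kernel

end Pool.Agent.H58.BJ.D6
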