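import Pool.Agent.H58.BJ.D6.D

/-! # Certificate data (6 jets, exponent 28/25) -/

set_option autoImplicit false

namespace Pool.Agent.H58.BJ.D6

open Pool.Agent.H58.BJ

/-- result of the first 7 groups -/
noncomputable def U7 : Tr := (.nd (.nd (.nd (.nd (.nd (.nd (.nd .e (.nd (.nd (.nd (.nd (.nd (.nd
 (.nd (.nd .e (.nd (.lf (.negSucc (nat_lit 96766687826147249))) .e)) (.nd (.nd (.lf (.negSucc
 (nat_lit 361947517260252887))) .e) .e)) (.nd (.nd (.nd (.lf (.negSucc (nat_lit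
 272675859794784803))) .e) .e) (.nd (.nd (.lf (.negSucc (nat_lit 407123623757974299))) .e) .e)))
 (.nd (.nd (.nd (.nd (.lf (.ofNat (nat_lit 3627167664071004))) .e) .e) (.nd (.nd (.lf (.negSucc
 (nat_lit 153708245617719599))) .e) .e)) (.nd (.nd (.nd (.lf (.negSucc (nat_lit
 749619019758701319))) .e) .e) .e))) (.nd (.nd (.nd (.nd (.nd (.lf (.ofNat (nat_lit
 262017183620275684))) .e) .e) (.nd (.nd (.lf (.negSucc (nat_lit 128472238508455599))) .e) .e))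
 (.nd (.nd (.nd (.lf (.ofNat (nat_lit 134222032074005952))) .e) .e) .e)) (.nd (.nd (.nd (.nd (.lf
 (.negSucc (nat_lit 928530307694354835))) .e) .e) .e) (.nd (.nd (.nd (.lf (.ofNat (nat_lit
 12363780301971900))) .e) .e) .e)))) (.nd (.nd (.nd (.nd (.nd (.nd (.lf (.ofNat (nat_lit
 279975829815857368))) .e) .e) .e) (.nd (.nd (.nd (.lf (.ofNat (nat_lit 601117521423894976))) .e)
 .e) .e)) (.nd (.nd (.nd (.nd (.lf (.negSucc (nat_lit 743026406910823755))) .e) .e) .e) .e)) (.nd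
 (.nd (.nd (.nd (.nd (.lf (.negSucc (nat_lit 953722949569707131))) .e) .e) .e) (.nd (.nd (.nd (.lf
 (.negSucc (nat_lit 12703326771324899))) .e) .e) .e)) (.nd (.nd (.nd (.nd (.lf (.ofNat (nat_lit
 22969098852331720))) .e) .e) .e) (.nd (.nd (.nd (.lf (.ofNat (nat_lit 351726518145383300))) .e)
 .e) .e))))) (.nd (.nd (.nd (.nd (.nd (.nd (.nd (.lf (.ofNat (nat_lit 81796410582588560))) .e) .e)
 .e) .e) (.nd (.nd (.nd (.nd (.lf (.ofNat (nat_lit 490189235578114844))) .e) .e) .e) (.nd (.nd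
 (.nd (.lf (.ofNat (nat_lit 184857307780596000))) .e) .e) .e))) (.nd (.nd (.nd (.nd (.nd (.lf
 (.negSucc (nat_lit 420885573509443795))) .e) .e) .e) (.nd (.nd (.nd (.lf (.ofNat (nat_lit
 23890430690617500))) .e) .e) .e)) (.nd (.nd (.nd (.nd (.lf (.ofNat (nat_lit 734446159137600)))
 .e) .e) .e) .e))) (.nd (.nd (.nd (.nd (.nd (.nd (.lf (.negSucc (nat_lit 405216778666735707))) .e)
 .e) .e) .e) (.nd (.nd (.nd (.nd (.lf (.negSucc (nat_lit 9635364834428139))) .e) .e) .e) (.nd (.nd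
 (.nd (.lf (.ofNat (nat_lit 5606476904832700))) .e) .e) .e))) (.nd (.nd (.nd (.nd (.nd (.lf
 (.ofNat (nat_lit 14562635428047320))) .e) .e) .e) .e) (.nd (.nd (.nd (.nd (.lf (.ofNat (nat_lit
 1299592973257117424))) .e) .e) .e) .e))))) .e)) (.nd (.nd (.nd (.nd (.nd (.nd (.nd (.nd .e (.nd
 (.nd (.lf (.negSucc (nat_lit 343040199178785139))) .e) .e)) (.nd (.nd (.nd (.lf (.negSucc
 (nat_lit 797409685788897351))) .e) .e) .e)) (.nd (.nd (.nd (.nd (.lf (.negSucc (nat_lit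
 767402200931935483))) .e) .e) .e) (.nd (.nd (.nd (.lf (.negSucc (nat_lit 1668741695584760431)))
 .e) .e) .e))) (.nd (.nd (.nd (.nd (.nd (.lf (.negSucc (nat_lit 468119208611007199))) .e) .e) .e)
 (.nd (.nd (.nd (.lf (.negSucc (nat_lit 593756591479324291))) .e) .e) .e)) (.nd (.nd (.nd (.nd
 (.lf (.negSucc (nat_lit 1413595081518973715))) .e) .e) .e) (.nd (.nd (.nd (.lf (.ofNat (nat_lit
 25822441423934700))) .e) .e) .e)))) (.nd (.nd (.nd (.nd (.nd (.nd (.lf (.negSucc (nat_lit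
 444260627220101911))) .e) .e) .e) (.nd (.nd (.nd (.lf (.negSucc (nat_lit 495706267647072683)))
 .e) .e) .e)) (.nd (.nd (.nd (.nd (.lf (.ofNat (nat_lit 264635646395096516))) .e) .e) .e) .e))
 (.nd (.nd (.nd (.nd (.nd (.lf (.ofNat (nat_lit 892954130299023232))) .e) .e) .e) (.nd (.nd (.nd
 (.lf (.negSucc (nat_lit 13111647323693759))) .e) .e) .e)) (.nd (.nd (.nd (.nd (.lf (.ofNat
 (nat_lit 43770141528491140))) .e) .e) .e) (.nd (.nd (.nd (.lf (.ofNat (nat_lit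
 40848753891045188))) .e) .e) .e))))) (.nd (.nd (.nd (.nd (.nd (.nd (.nd (.lf (.negSucc (nat_lit
 184594206203915619))) .e) .e) .e) .e) (.nd (.nd (.nd (.nd (.lf (.negSucc (nat_lit
 1590529626474279303))) .e) .e) .e) (.nd (.nd (.nd (.lf (.negSucc (nat_lit 554102310493116815)))
 .e) .e) .e))) (.nd (.nd (.nd (.nd (.nd (.lf (.ofNat (nat_lit 770498321784640152))) .e) .e) .e)
 (.nd (.nd (.nd (.lf (.ofNat (nat_lit 22915779644518580))) .e) .e) .e)) (.nd (.nd (.nd (.nd (.lf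
 (.ofNat (nat_lit 773583117494880))) .e) .e) .e) .e))) (.nd (.nd (.nd (.nd (.nd (.nd (.lf (.ofNat
 (nat_lit 1007281017137338216))) .e) .e) .e) .e) (.nd (.nd (.nd (.nd (.lf (.negSucc (nat_lit
 9764563552148299))) .e) .e) .e) (.nd (.nd (.nd (.lf (.ofNat (nat_lit 71786461080921656))) .e) .e)
 .e))) (.nd (.nd (.nd (.nd (.nd (.lf (.ofNat (nat_lit 17967537545546280))) .e) .e) .e) .e) (.nd
 (.nd (.nd (.nd (.lf (.negSucc (nat_lit 2651144125654746107))) .e) .e) .e) .e))))) .e) .e)) (.nd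
 (.nd (.nd (.nd (.nd (.nd (.nd (.nd .e (.nd (.nd (.nd (.lf (.negSucc (nat_lit 98686763050838175)))
 .e) .e) .e)) (.nd (.nd (.nd (.nd (.lf (.negSucc (nat_lit 44029686426790563))) .e) .e) .e) .e))
 (.nd (.nd (.nd (.nd (.nd (.lf (.ofNat (nat_lit 452786194499388588))) .e) .e) .e) .e) (.nd (.nd
 (.nd (.nd (.lf (.negSucc (nat_lit 2833510047310844935))) .e) .e) .e) .e))) (.nd (.nd (.nd (.nd
 (.nd (.nd (.lf (.ofNat (nat_lit 327056608362370748))) .e) .e) .e) .e) (.nd (.nd (.nd (.nd (.lf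
 (.negSucc (nat_lit 555763808990227939))) .e) .e) .e) .e)) (.nd (.nd (.nd (.nd (.nd (.lf (.negSucc
 (nat_lit 2003144878150843875))) .e) .e) .e) .e) (.nd (.nd (.nd (.nd (.lf (.negSucc (nat_lit
 31844370264539019))) .e) .e) .e) .e)))) (.nd (.nd (.nd (.nd (.nd (.nd (.nd (.lf (.ofNat (nat_lit
 129543404961616036))) .e) .e) .e) .e) (.nd (.nd (.nd (.nd (.lf (.negSucc (nat_lit
 420044366984826539))) .e) .e) .e) .e)) (.nd (.nd (.nd (.nd (.nd (.lf (.negSucc (nat_lit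
 263364251785402607))) .e) .e) .e) .e) (.nd (.nd (.nd (.nd (.lf (.negSucc (nat_lit
 1380170850101903))) .e) .e) .e) .e))) (.nd (.nd (.nd (.nd (.nd (.nd (.lf (.negSucc (nat_lit
 492029979691501207))) .e) .e) .e) .e) (.nd (.nd (.nd (.nd (.lf (.ofNat (nat_lit
 18791412722987460))) .e) .e) .e) .e)) (.nd (.nd (.nd (.nd (.nd (.lf (.negSucc (nat_lit
 35137312494969899))) .e) .e) .e) .e) (.nd (.nd (.nd (.nd (.lf (.negSucc (nat_lit
 2840793640895840423))) .e) .e) .e) .e))))) .e) .e) (.nd (.nd (.nd (.nd (.nd (.nd (.nd (.nd .e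
 (.nd (.nd (.lf (.negSucc (nat_lit 812228288984060055))) .e) .e)) (.nd (.nd (.nd (.lf (.negSucc
 (nat_lit 610759759780146263))) .e) .e) (.nd (.nd (.lf (.negSucc (nat_lit 1277963606346997299)))
 .e) .e))) (.nd (.nd (.nd (.nd (.lf (.negSucc (nat_lit 231941417763852083))) .e) .e) (.nd (.nd
 (.lf (.negSucc (nat_lit 2587230353921033299))) .e) .e)) (.nd (.nd (.nd (.lf (.negSucc (nat_lit
 4634051738824965255))) .e) .e) .e))) (.nd (.nd (.nd (.nd (.nd (.lf (.ofNat (nat_lit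
 13639988561582732))) .e) .e) (.nd (.nd (.lf (.negSucc (nat_lit 3811603766815843599))) .e) .e))
 (.nd (.nd (.nd (.lf (.negSucc (nat_lit 3292962633628081959))) .e) .e) .e)) (.nd (.nd (.nd (.nd
 (.lf (.negSucc (nat_lit 841078829204628675))) .e) .e) .e) (.nd (.nd (.nd (.lf (.negSucc (nat_lit
 837616118214048699))) .e) .e) .e)))) (.nd (.nd (.nd (.nd (.nd (.nd (.lf (.negSucc (nat_lit
 944552296929507599))) .e) .e) .e) (.nd (.nd (.nd (.lf (.negSucc (nat_lit 3563792027466006759)))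
 .e) .e) .e)) (.nd (.nd (.nd (.nd (.lf (.negSucc (nat_lit 949914062146248367))) .e) .e) .e) .e))
 (.nd (.nd (.nd (.nd (.nd (.lf (.negSucc (nat_lit 159504975409276331))) .e) .e) .e) (.nd (.nd (.nd
 (.lf (.ofNat (nat_lit 26763942458611800))) .e) .e) .e)) (.nd (.nd (.nd (.nd (.lf (.negSucc
 (nat_lit 786133090698732019))) .e) .e) .e) (.nd (.nd (.nd (.lf (.negSucc (nat_lit
 3444219405146968799))) .e) .e) .e))))) (.nd (.nd (.nd (.nd (.nd (.nd (.nd (.lf (.negSucc (nat_lit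
 564895119793012899))) .e) .e) .e) .e) (.nd (.nd (.nd (.nd (.lf (.ofNat (nat_lit
 2595359041068494216))) .e) .e) .e) (.nd (.nd (.nd (.lf (.negSucc (nat_lit 917638293298564799)))
 .e) .e) .e))) (.nd (.nd (.nd (.nd (.nd (.lf (.ofNat (nat_lit 1387124388242297368))) .e) .e) .e)
 (.nd (.nd (.nd (.lf (.ofNat (nat_lit 245408321308556200))) .e) .e) .e)) (.nd (.nd (.nd (.nd (.lf
 (.negSucc (nat_lit 1300765913596799))) .e) .e) .e) .e))) (.nd (.nd (.nd (.nd (.nd (.nd (.lf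
 (.ofNat (nat_lit 392143366951999640))) .e) .e) .e) .e) (.nd (.nd (.nd (.nd (.lf (.ofNat (nat_lit
 20894548278595700))) .e) .e) .e) (.nd (.nd (.nd (.lf (.ofNat (nat_lit 87388014587903700))) .e)
 .e) .e))) (.nd (.nd (.nd (.nd (.nd (.lf (.negSucc (nat_lit 103764914072482899))) .e) .e) .e) .e)
 (.nd (.nd (.nd (.nd (.lf (.ofNat (nat_lit 3289675976902975736))) .e) .e) .e) .e))))) .e) .e)))
 (.nd (.nd (.nd (.nd (.nd (.nd (.nd (.nd .e (.nd (.nd (.nd (.nd (.lf (.negSucc (nat_lit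
 276257614913113621))) .e) .e) .e) .e)) (.nd (.nd (.nd (.nd (.nd (.lf (.ofNat (nat_lit
 742500687831693308))) .e) .e) .e) .e) .e)) (.nd (.nd (.nd (.nd (.nd (.nd (.lf (.negSucc (nat_lit
 217770267853139171))) .e) .e) .e) .e) .e) (.nd (.nd (.nd (.nd (.nd (.lf (.negSucc (nat_lit
 3428444027602320267))) .e) .e) .e) .e) .e))) (.nd (.nd (.nd (.nd (.nd (.nd (.nd (.lf (.negSucc
 (nat_lit 184614873844005955))) .e) .e) .e) .e) .e) (.nd (.nd (.nd (.nd (.nd (.lf (.negSucc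
 (nat_lit 722593501347038775))) .e) .e) .e) .e) .e)) (.nd (.nd (.nd (.nd (.nd (.nd (.lf (.negSucc
 (nat_lit 411510052742131803))) .e) .e) .e) .e) .e) (.nd (.nd (.nd (.nd (.nd (.lf (.negSucc
 (nat_lit 56811795508155979))) .e) .e) .e) .e) .e)))) .e) .e) (.nd (.nd (.nd (.nd (.nd (.nd (.nd
 (.nd .e (.nd (.nd (.lf (.negSucc (nat_lit 7372959657238419))) .e) .e)) (.nd (.nd (.nd (.lf
 (.negSucc (nat_lit 330613080001705007))) .e) .e) .e)) (.nd (.nd (.nd (.nd (.lf (.negSucc (nat_lit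
 235912773133591551))) .e) .e) (.nd (.nd (.lf (.negSucc (nat_lit 5075070140642252949))) .e) .e))
 (.nd (.nd (.nd (.lf (.negSucc (nat_lit 2457556825956913907))) .e) .e) .e))) (.nd (.nd (.nd (.nd
 (.nd (.lf (.ofNat (nat_lit 849160480977308864))) .e) .e) (.nd (.nd (.lf (.negSucc (nat_lit
 5542310032311507999))) .e) .e)) (.nd (.nd (.nd (.lf (.negSucc (nat_lit 7530486282170608839))) .e)
 .e) .e)) (.nd (.nd (.nd (.nd (.lf (.negSucc (nat_lit 1542180105239823335))) .e) .e) .e) (.nd (.nd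
 (.nd (.lf (.negSucc (nat_lit 11454263438953473199))) .e) .e) .e)))) (.nd (.nd (.nd (.nd (.nd (.nd
 (.lf (.ofNat (nat_lit 21271093310647296))) .e) .e) .e) (.nd (.nd (.nd (.lf (.negSucc (nat_lit
 3025878060402888027))) .e) .e) .e)) (.nd (.nd (.nd (.nd (.lf (.negSucc (nat_lit
 2171289213072471723))) .e) .e) .e) .e)) (.nd (.nd (.nd (.nd (.nd (.lf (.negSucc (nat_lit
 1698846328386929043))) .e) .e) .e) (.nd (.nd (.nd (.lf (.negSucc (nat_lit 2483126288691747599)))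
 .e) .e) .e)) (.nd (.nd (.nd (.nd (.lf (.negSucc (nat_lit 8463134275630449059))) .e) .e) .e) (.nd
 (.nd (.nd (.lf (.negSucc (nat_lit 6148008813836212399))) .e) .e) .e))))) (.nd (.nd (.nd (.nd (.nd
 (.nd (.nd (.lf (.negSucc (nat_lit 266184774967476327))) .e) .e) .e) .e) (.nd (.nd (.nd (.nd (.lf
 (.ofNat (nat_lit 1337368628309718780))) .e) .e) .e) (.nd (.nd (.nd (.lf (.negSucc (nat_lit
 377573570868307199))) .e) .e) .e))) (.nd (.nd (.nd (.nd (.nd (.lf (.ofNat (nat_lit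
 670176473105000904))) .e) .e) .e) (.nd (.nd (.nd (.lf (.ofNat (nat_lit 251120919570872500))) .e)
 .e) .e)) (.nd (.nd (.nd (.nd (.lf (.ofNat (nat_lit 440517704793600))) .e) .e) .e) .e))) (.nd (.nd
 (.nd (.nd (.nd (.nd (.lf (.ofNat (nat_lit 110070546274316420))) .e) .e) .e) .e) (.nd (.nd (.nd
 (.nd (.lf (.negSucc (nat_lit 1484486987144427459))) .e) .e) .e) (.nd (.nd (.nd (.lf (.ofNat
 (nat_lit 149968206749772800))) .e) .e) .e))) (.nd (.nd (.nd (.nd (.nd (.lf (.negSucc (nat_lit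
 1254508416547671319))) .e) .e) .e) .e) (.nd (.nd (.nd (.nd (.lf (.negSucc (nat_lit
 1345741547053800239))) .e) .e) .e) .e))))) .e) .e)) (.nd (.nd (.nd (.nd (.nd (.nd (.nd (.nd .e
 (.nd (.nd (.nd (.lf (.negSucc (nat_lit 3062395718410289271))) .e) .e) .e)) (.nd (.nd (.nd (.nd
 (.lf (.negSucc (nat_lit 761713269876472603))) .e) .e) .e) (.nd (.nd (.nd (.lf (.negSucc (nat_lit
 5887763761166679751))) .e) .e) .e))) (.nd (.nd (.nd (.nd (.nd (.lf (.ofNat (nat_lit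
 1933704921377242876))) .e) .e) .e) (.nd (.nd (.nd (.lf (.negSucc (nat_lit 11588353658058778299)))
 .e) .e) .e)) (.nd (.nd (.nd (.nd (.lf (.negSucc (nat_lit 14397564760327580175))) .e) .e) .e)
 .e))) (.nd (.nd (.nd (.nd (.nd (.nd (.lf (.ofNat (nat_lit 1384889417766517160))) .e) .e) .e) (.nd
 (.nd (.nd (.lf (.ofNat (nat_lit 4283250787799915232))) .e) .e) .e)) (.nd (.nd (.nd (.nd (.lf
 (.negSucc (nat_lit 9168471956760872015))) .e) .e) .e) .e)) (.nd (.nd (.nd (.nd (.nd (.lf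
 (.negSucc (nat_lit 5245965055521086971))) .e) .e) .e) (.nd (.nd (.nd (.lf (.negSucc (nat_lit
 7482489697483983))) .e) .e) .e)) (.nd (.nd (.nd (.nd (.lf (.negSucc (nat_lit
 2396487888117791699))) .e) .e) .e) .e)))) (.nd (.nd (.nd (.nd (.nd (.nd (.nd (.lf (.ofNat
 (nat_lit 683232873219987032))) .e) .e) .e) .e) (.nd (.nd (.nd (.nd (.lf (.negSucc (nat_lit
 7477874484545104299))) .e) .e) .e) .e)) (.nd (.nd (.nd (.nd (.nd (.lf (.negSucc (nat_lit
 2507568069609766371))) .e) .e) .e) (.nd (.nd (.nd (.lf (.ofNat (nat_lit 304646655422047468))) .e)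
 .e) .e)) (.nd (.nd (.nd (.nd (.lf (.ofNat (nat_lit 330809327622144))) .e) .e) .e) .e))) (.nd (.nd
 (.nd (.nd (.nd (.nd (.lf (.negSucc (nat_lit 503435986917610611))) .e) .e) .e) .e) (.nd (.nd (.nd
 (.nd (.lf (.negSucc (nat_lit 4676097409761139))) .e) .e) .e) .e)) (.nd (.nd (.nd (.nd (.nd (.lf
 (.negSucc (nat_lit 1094508671111384479))) .e) .e) .e) .e) (.nd (.nd (.nd (.nd (.lf (.negSucc
 (nat_lit 1407685202550695487))) .e) .e) .e) .e))))) .e) .e) .e))) (.nd (.nd (.nd (.nd (.nd (.nd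
 (.nd (.nd .e (.nd (.nd (.nd (.nd (.nd (.lf (.ofNat (nat_lit 763320769353181690))) .e) .e) .e) .e)
 .e)) (.nd (.nd (.nd (.nd (.nd (.nd (.lf (.ofNat (nat_lit 639203870967575904))) .e) .e) .e) .e)
 .e) .e)) (.nd (.nd (.nd (.nd (.nd (.nd (.nd (.lf (.ofNat (nat_lit 448911904074301208))) .e) .e)
 .e) .e) .e) .e) (.nd (.nd (.nd (.nd (.nd (.nd (.lf (.negSucc (nat_lit 742451999312636535))) .e)
 .e) .e) .e) .e) .e))) .e) .e) (.nd (.nd (.nd (.nd (.nd (.nd (.nd (.nd .e (.nd (.nd (.lf (.negSucc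
 (nat_lit 129632493703399495))) .e) .e)) (.nd (.nd (.nd (.lf (.negSucc (nat_lit
 196563102322299295))) .e) .e) .e)) (.nd (.nd (.nd (.nd (.lf (.ofNat (nat_lit
 418323989065542420))) .e) .e) .e) (.nd (.nd (.nd (.lf (.negSucc (nat_lit 2523457395094235491)))
 .e) .e) .e))) (.nd (.nd (.nd (.nd (.nd (.lf (.ofNat (nat_lit 95610556638158324))) .e) .e) (.nd
 (.nd (.lf (.negSucc (nat_lit 1468230733806497099))) .e) .e)) (.nd (.nd (.nd (.lf (.negSucc
 (nat_lit 4914280646893818319))) .e) .e) .e)) (.nd (.nd (.nd (.nd (.lf (.negSucc (nat_lit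
 1857155867600217511))) .e) .e) .e) (.nd (.nd (.nd (.lf (.negSucc (nat_lit 9563132451991619899)))
 .e) .e) .e)))) (.nd (.nd (.nd (.nd (.nd (.nd (.lf (.ofNat (nat_lit 22791972151581132))) .e) .e)
 .e) (.nd (.nd (.nd (.lf (.negSucc (nat_lit 14729126529993413691))) .e) .e) .e)) (.nd (.nd (.nd
 (.nd (.lf (.negSucc (nat_lit 2119981707800324151))) .e) .e) .e) .e)) (.nd (.nd (.nd (.nd (.nd
 (.lf (.negSucc (nat_lit 3857752235469157155))) .e) .e) .e) (.nd (.nd (.nd (.lf (.negSucc (nat_lit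
 2451367824467486699))) .e) .e) .e)) (.nd (.nd (.nd (.nd (.lf (.negSucc (nat_lit
 7829311959502053659))) .e) .e) .e) (.nd (.nd (.nd (.lf (.negSucc (nat_lit 5715758820831422799)))
 .e) .e) .e))))) (.nd (.nd (.nd (.nd (.nd (.nd (.nd (.lf (.ofNat (nat_lit 935220710716887268)))
 .e) .e) .e) .e) (.nd (.nd (.nd (.nd (.lf (.ofNat (nat_lit 3060926793286135640))) .e) .e) .e) (.nd
 (.nd (.nd (.lf (.ofNat (nat_lit 486165920279760000))) .e) .e) .e))) (.nd (.nd (.nd (.nd (.nd (.lf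
 (.negSucc (nat_lit 1065454747518075559))) .e) .e) .e) (.nd (.nd (.nd (.lf (.negSucc (nat_lit
 374422280128082799))) .e) .e) .e)) (.nd (.nd (.nd (.nd (.lf (.negSucc (nat_lit
 1727478381484799))) .e) .e) .e) .e))) (.nd (.nd (.nd (.nd (.nd (.nd (.lf (.ofNat (nat_lit
 4514118123038339628))) .e) .e) .e) .e) (.nd (.nd (.nd (.nd (.lf (.negSucc (nat_lit
 1457497651358184899))) .e) .e) .e) (.nd (.nd (.nd (.lf (.negSucc (nat_lit 621476065144005099)))
 .e) .e) .e))) (.nd (.nd (.nd (.nd (.nd (.lf (.negSucc (nat_lit 1337610912893374039))) .e) .e) .e)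
 .e) (.nd (.nd (.nd (.nd (.lf (.negSucc (nat_lit 5166579109354217667))) .e) .e) .e) .e))))) .e)
 .e)) (.nd (.nd (.nd (.nd (.nd (.nd (.nd (.nd .e (.nd (.nd (.nd (.lf (.negSucc (nat_lit
 475757673610807139))) .e) .e) .e)) (.nd (.nd (.nd (.nd (.lf (.ofNat (nat_lit 61499378813016440)))
 .e) .e) .e) .e)) (.nd (.nd (.nd (.nd (.nd (.lf (.negSucc (nat_lit 497685469348065639))) .e) .e)
 .e) (.nd (.nd (.nd (.lf (.negSucc (nat_lit 12077440685019500079))) .e) .e) .e)) (.nd (.nd (.nd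
 (.nd (.lf (.negSucc (nat_lit 4354861908934277191))) .e) .e) .e) .e))) (.nd (.nd (.nd (.nd (.nd
 (.nd (.lf (.negSucc (nat_lit 278690696007896435))) .e) .e) .e) (.nd (.nd (.nd (.lf (.negSucc
 (nat_lit 7999230723151767839))) .e) .e) .e)) (.nd (.nd (.nd (.nd (.lf (.negSucc (nat_lit
 10215240177942647527))) .e) .e) .e) .e)) (.nd (.nd (.nd (.nd (.nd (.lf (.ofNat (nat_lit
 688103197780455760))) .e) .e) .e) .e) (.nd (.nd (.nd (.nd (.lf (.negSucc (nat_lit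
 13117345128752968579))) .e) .e) .e) .e)))) (.nd (.nd (.nd (.nd (.nd (.nd (.nd (.lf (.ofNat
 (nat_lit 306446238264666556))) .e) .e) .e) .e) (.nd (.nd (.nd (.nd (.lf (.negSucc (nat_lit
 3356844490879430431))) .e) .e) .e) .e)) (.nd (.nd (.nd (.nd (.nd (.lf (.negSucc (nat_lit
 2048319976123493191))) .e) .e) .e) .e) (.nd (.nd (.nd (.nd (.lf (.negSucc (nat_lit
 2091777194291903))) .e) .e) .e) .e))) (.nd (.nd (.nd (.nd (.nd (.nd (.lf (.negSucc (nat_lit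
 533243489345925239))) .e) .e) .e) .e) (.nd (.nd (.nd (.nd (.lf (.negSucc (nat_lit
 1960396223728847599))) .e) .e) .e) .e)) (.nd (.nd (.nd (.nd (.nd (.lf (.negSucc (nat_lit
 3275435101680633359))) .e) .e) .e) .e) (.nd (.nd (.nd (.nd (.lf (.negSucc (nat_lit
 4776704339685786135))) .e) .e) .e) .e))))) .e) .e) .e)) (.nd (.nd (.nd (.nd (.nd (.nd (.nd (.nd
 .e (.nd (.nd (.nd (.nd (.lf (.negSucc (nat_lit 2850534317444314059))) .e) .e) .e) .e)) (.nd (.nd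
 (.nd (.nd (.nd (.lf (.negSucc (nat_lit 1467445702201288571))) .e) .e) .e) .e) (.nd (.nd (.nd (.nd
 (.lf (.negSucc (nat_lit 6466732803496308833))) .e) .e) .e) .e))) (.nd (.nd (.nd (.nd (.nd (.nd
 (.lf (.negSucc (nat_lit 1555358019949971007))) .e) .e) .e) .e) (.nd (.nd (.nd (.nd (.lf (.negSucc
 (nat_lit 8974357362565525675))) .e) .e) .e) .e)) (.nd (.nd (.nd (.nd (.nd (.lf (.negSucc (nat_lit
 4739309784673507107))) .e) .e) .e) .e) .e))) (.nd (.nd (.nd (.nd (.nd (.nd (.nd (.lf (.negSucc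
 (nat_lit 224792744636686107))) .e) .e) .e) .e) (.nd (.nd (.nd (.nd (.lf (.negSucc (nat_lit
 2987281327665278523))) .e) .e) .e) .e)) (.nd (.nd (.nd (.nd (.nd (.lf (.negSucc (nat_lit
 3507930819346988867))) .e) .e) .e) .e) .e)) (.nd (.nd (.nd (.nd (.nd (.nd (.lf (.negSucc (nat_lit
 4530004599819858699))) .e) .e) .e) .e) (.nd (.nd (.nd (.nd (.lf (.negSucc (nat_lit
 34765600626141639))) .e) .e) .e) .e)) (.nd (.nd (.nd (.nd (.nd (.lf (.negSucc (nat_lit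
 1384383349501107899))) .e) .e) .e) .e) .e)))) .e) .e) .e) (.nd (.nd (.nd (.nd (.nd (.nd (.nd (.nd
 .e (.nd (.nd (.nd (.lf (.negSucc (nat_lit 7943094082090179))) .e) .e) .e)) (.nd (.nd (.nd (.nd
 (.lf (.negSucc (nat_lit 31118975809587479))) .e) .e) .e) (.nd (.nd (.nd (.lf (.negSucc (nat_lit
 728850432018311319))) .e) .e) .e))) (.nd (.nd (.nd (.nd (.nd (.lf (.negSucc (nat_lit
 10608232485251259))) .e) .e) .e) (.nd (.nd (.nd (.lf (.negSucc (nat_lit 5035380975240593519)))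
 .e) .e) .e)) (.nd (.nd (.nd (.nd (.lf (.ofNat (nat_lit 4185809902421260))) .e) .e) .e) (.nd (.nd
 (.nd (.lf (.negSucc (nat_lit 17336990916949107049))) .e) .e) .e)))) (.nd (.nd (.nd (.nd (.nd (.nd
 (.lf (.negSucc (nat_lit 948616953176519))) .e) .e) .e) (.nd (.nd (.nd (.lf (.negSucc (nat_lit
 3214063264477259419))) .e) .e) .e)) (.nd (.nd (.nd (.nd (.lf (.negSucc (nat_lit
 539985462710316819))) .e) .e) .e) .e)) (.nd (.nd (.nd (.nd (.nd (.lf (.ofNat (nat_lit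
 36742014204872040))) .e) .e) .e) (.nd (.nd (.nd (.lf (.negSucc (nat_lit 15737990336659688099)))
 .e) .e) .e)) (.nd (.nd (.nd (.nd (.lf (.negSucc (nat_lit 16441361157537055799))) .e) .e) .e)
 .e)))) (.nd (.nd (.nd (.nd (.nd (.nd (.nd (.lf (.negSucc (nat_lit 258705575396079))) .e) .e) .e)
 .e) (.nd (.nd (.nd (.nd (.lf (.negSucc (nat_lit 38280542517392699))) .e) .e) .e) (.nd (.nd (.nd
 (.lf (.negSucc (nat_lit 1596460568493719999))) .e) .e) .e))) (.nd (.nd (.nd (.nd (.nd (.lf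
 (.negSucc (nat_lit 52000809462209559))) .e) .e) .e) (.nd (.nd (.nd (.lf (.negSucc (nat_lit
 2508160901550891899))) .e) .e) .e)) (.nd (.nd (.nd (.nd (.lf (.negSucc (nat_lit
 1420965878692079999))) .e) .e) .e) .e))) (.nd (.nd (.nd (.nd (.nd (.nd (.lf (.ofNat (nat_lit
 17389756433253800))) .e) .e) .e) .e) (.nd (.nd (.nd (.nd (.lf (.negSucc (nat_lit
 4830109807717630499))) .e) .e) .e) (.nd (.nd (.nd (.lf (.negSucc (nat_lit 200848070249585499)))
 .e) .e) .e))) (.nd (.nd (.nd (.nd (.nd (.lf (.negSucc (nat_lit 1891092082700562499))) .e) .e) .e)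
 .e) (.nd (.nd (.nd (.nd (.lf (.negSucc (nat_lit 5096775057226077619))) .e) .e) .e) .e))))) .e)
 .e) .e)))) (.nd (.nd (.nd (.nd (.nd (.nd (.nd (.nd .e (.nd (.nd (.nd (.nd (.nd (.nd (.lf (.ofNat
 (nat_lit 1045504840422868498))) .e) .e) .e) .e) .e) .e)) (.nd (.nd (.nd (.nd (.nd (.nd (.nd (.lf
 (.ofNat (nat_lit 1044082647544490756))) .e) .e) .e) .e) .e) .e) .e)) .e) .e) .e) (.nd (.nd (.nd
 (.nd (.nd (.nd (.nd (.nd .e (.nd (.nd (.nd (.lf (.negSucc (nat_lit 1770866646038513475))) .e) .e)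
 .e)) (.nd (.nd (.nd (.nd (.lf (.ofNat (nat_lit 1188341230282820080))) .e) .e) .e) .e)) (.nd (.nd
 (.nd (.nd (.nd (.lf (.negSucc (nat_lit 1150433478772843479))) .e) .e) .e) .e) (.nd (.nd (.nd (.nd
 (.lf (.negSucc (nat_lit 5919848197322993539))) .e) .e) .e) .e))) (.nd (.nd (.nd (.nd (.nd (.nd
 (.lf (.negSucc (nat_lit 1580145923729207667))) .e) .e) .e) (.nd (.nd (.nd (.lf (.ofNat (nat_lit
 5550608499912129202))) .e) .e) .e)) (.nd (.nd (.nd (.nd (.lf (.negSucc (nat_lit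
 4613816506210689983))) .e) .e) .e) .e)) (.nd (.nd (.nd (.nd (.nd (.lf (.negSucc (nat_lit
 4883262622769909235))) .e) .e) .e) .e) (.nd (.nd (.nd (.nd (.lf (.negSucc (nat_lit
 8591924143819762359))) .e) .e) .e) .e)))) (.nd (.nd (.nd (.nd (.nd (.nd (.nd (.lf (.ofNat
 (nat_lit 316587734752674048))) .e) .e) .e) .e) (.nd (.nd (.nd (.nd (.lf (.negSucc (nat_lit
 6761317436925968211))) .e) .e) .e) .e)) (.nd (.nd (.nd (.nd (.nd (.lf (.ofNat (nat_lit
 1065589450526649692))) .e) .e) .e) .e) (.nd (.nd (.nd (.nd (.lf (.negSucc (nat_lit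
 725293154837663))) .e) .e) .e) .e))) (.nd (.nd (.nd (.nd (.nd (.nd (.lf (.negSucc (nat_lit
 2594077327285090411))) .e) .e) .e) .e) (.nd (.nd (.nd (.nd (.lf (.negSucc (nat_lit
 1989256691696895099))) .e) .e) .e) .e)) (.nd (.nd (.nd (.nd (.nd (.lf (.negSucc (nat_lit
 2606734420232466099))) .e) .e) .e) .e) (.nd (.nd (.nd (.nd (.lf (.ofNat (nat_lit
 2751229708274693024))) .e) .e) .e) .e))))) .e) .e) .e)) (.nd (.nd (.nd (.nd (.nd (.nd (.nd (.nd
 .e (.nd (.nd (.nd (.nd (.lf (.negSucc (nat_lit 826431672332464191))) .e) .e) .e) .e)) (.nd (.nd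
 (.nd (.nd (.nd (.lf (.ofNat (nat_lit 1022516209321182032))) .e) .e) .e) .e) .e)) (.nd (.nd (.nd
 (.nd (.nd (.nd (.lf (.ofNat (nat_lit 139574128326622492))) .e) .e) .e) .e) (.nd (.nd (.nd (.nd
 (.lf (.negSucc (nat_lit 8865607729475311341))) .e) .e) .e) .e)) (.nd (.nd (.nd (.nd (.nd (.lf
 (.negSucc (nat_lit 2881467982589226803))) .e) .e) .e) .e) .e))) (.nd (.nd (.nd (.nd (.nd (.nd
 (.nd (.lf (.negSucc (nat_lit 46227553702693223))) .e) .e) .e) .e) (.nd (.nd (.nd (.nd (.lf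
 (.negSucc (nat_lit 5660179783636501591))) .e) .e) .e) .e)) (.nd (.nd (.nd (.nd (.nd (.lf
 (.negSucc (nat_lit 6949857617647562139))) .e) .e) .e) .e) .e)) (.nd (.nd (.nd (.nd (.nd (.nd (.lf
 (.negSucc (nat_lit 1712605203931056183))) .e) .e) .e) .e) .e) (.nd (.nd (.nd (.nd (.nd (.lf
 (.negSucc (nat_lit 4433269949391945599))) .e) .e) .e) .e) .e)))) .e) .e) .e) .e)) (.nd (.nd (.nd
 (.nd (.nd (.nd (.nd (.nd .e (.nd (.nd (.nd (.nd (.nd (.lf (.ofNat (nat_lit 885236475013035044)))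
 .e) .e) .e) .e) .e)) (.nd (.nd (.nd (.nd (.nd (.nd (.lf (.ofNat (nat_lit 135380075920018212)))
 .e) .e) .e) .e) .e) (.nd (.nd (.nd (.nd (.nd (.lf (.negSucc (nat_lit 4089587201425485987))) .e)
 .e) .e) .e) .e))) (.nd (.nd (.nd (.nd (.nd (.nd (.nd (.lf (.ofNat (nat_lit 613545117791911760)))
 .e) .e) .e) .e) .e) (.nd (.nd (.nd (.nd (.nd (.lf (.negSucc (nat_lit 2812866443069404075))) .e)
 .e) .e) .e) .e)) (.nd (.nd (.nd (.nd (.nd (.nd (.lf (.negSucc (nat_lit 1390102003137091475))) .e)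
 .e) .e) .e) .e) .e))) .e) .e) .e) (.nd (.nd (.nd (.nd (.nd (.nd (.nd (.nd .e (.nd (.nd (.nd (.lf
 (.ofNat (nat_lit 23726413981228084))) .e) .e) .e)) (.nd (.nd (.nd (.nd (.lf (.ofNat (nat_lit
 32848006857178200))) .e) .e) .e) .e)) (.nd (.nd (.nd (.nd (.nd (.lf (.ofNat (nat_lit
 10454348235246064))) .e) .e) .e) (.nd (.nd (.nd (.lf (.negSucc (nat_lit 1438653176657419255)))
 .e) .e) .e)) (.nd (.nd (.nd (.nd (.lf (.negSucc (nat_lit 47473333272069863))) .e) .e) .e) .e)))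
 (.nd (.nd (.nd (.nd (.nd (.nd (.lf (.ofNat (nat_lit 3603310611833472))) .e) .e) .e) (.nd (.nd
 (.nd (.lf (.negSucc (nat_lit 1476774179615963355))) .e) .e) .e)) (.nd (.nd (.nd (.nd (.lf (.ofNat
 (nat_lit 40583224842450820))) .e) .e) .e) .e)) (.nd (.nd (.nd (.nd (.nd (.lf (.negSucc (nat_lit
 17765859957567699))) .e) .e) .e) (.nd (.nd (.nd (.lf (.negSucc (nat_lit 16771806649743339349)))
 .e) .e) .e)) (.nd (.nd (.nd (.nd (.lf (.negSucc (nat_lit 7399122371366687479))) .e) .e) .e)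
 .e)))) (.nd (.nd (.nd (.nd (.nd (.nd (.nd (.lf (.ofNat (nat_lit 1645133554451720))) .e) .e) .e)
 .e) (.nd (.nd (.nd (.nd (.lf (.negSucc (nat_lit 34022157998357203))) .e) .e) .e) .e)) (.nd (.nd
 (.nd (.nd (.nd (.lf (.ofNat (nat_lit 31385427833198452))) .e) .e) .e) (.nd (.nd (.nd (.lf
 (.negSucc (nat_lit 13389092376043535999))) .e) .e) .e)) (.nd (.nd (.nd (.nd (.lf (.negSucc
 (nat_lit 6663610091300399999))) .e) .e) .e) .e))) (.nd (.nd (.nd (.nd (.nd (.nd (.lf (.negSucc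
 (nat_lit 11346667591093515))) .e) .e) .e) .e) (.nd (.nd (.nd (.nd (.lf (.negSucc (nat_lit
 12185977160971807639))) .e) .e) .e) .e)) (.nd (.nd (.nd (.nd (.nd (.lf (.negSucc (nat_lit
 1204459400759083199))) .e) .e) .e) .e) (.nd (.nd (.nd (.nd (.lf (.negSucc (nat_lit
 2959041041642855623))) .e) .e) .e) .e))))) .e) .e) .e)) (.nd (.nd (.nd (.nd (.nd (.nd (.nd (.nd
 .e (.nd (.nd (.nd (.nd (.lf (.negSucc (nat_lit 86504551509845799))) .e) .e) .e) .e)) (.nd (.nd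
 (.nd (.nd (.nd (.lf (.negSucc (nat_lit 37599591493628359))) .e) .e) .e) .e) (.nd (.nd (.nd (.nd
 (.lf (.negSucc (nat_lit 1002901591699977359))) .e) .e) .e) .e))) (.nd (.nd (.nd (.nd (.nd (.nd
 (.lf (.negSucc (nat_lit 2575080901367659))) .e) .e) .e) .e) (.nd (.nd (.nd (.nd (.lf (.negSucc
 (nat_lit 4832086675458226939))) .e) .e) .e) .e)) (.nd (.nd (.nd (.nd (.nd (.lf (.ofNat (nat_lit
 46016383117846160))) .e) .e) .e) .e) (.nd (.nd (.nd (.nd (.lf (.negSucc (nat_lit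
 13306341068499048199))) .e) .e) .e) .e)))) (.nd (.nd (.nd (.nd (.nd (.nd (.nd (.lf (.ofNat
 (nat_lit 1664849596041260))) .e) .e) .e) .e) (.nd (.nd (.nd (.nd (.lf (.negSucc (nat_lit
 1065546510421657179))) .e) .e) .e) .e)) (.nd (.nd (.nd (.nd (.nd (.lf (.negSucc (nat_lit
 759782024905568499))) .e) .e) .e) .e) (.nd (.nd (.nd (.nd (.lf (.ofNat (nat_lit
 5233197187723680))) .e) .e) .e) .e))) (.nd (.nd (.nd (.nd (.nd (.nd (.lf (.ofNat (nat_lit
 25901401550010800))) .e) .e) .e) .e) (.nd (.nd (.nd (.nd (.lf (.negSucc (nat_lit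
 6228357004243303499))) .e) .e) .e) .e)) (.nd (.nd (.nd (.nd (.nd (.lf (.negSucc (nat_lit
 8439017557236211999))) .e) .e) .e) .e) .e)))) .e) .e) .e) (.nd (.nd (.nd (.nd (.nd (.nd (.nd (.nd
 .e (.nd (.nd (.nd (.lf (.negSucc (nat_lit 497660325622317283))) .e) .e) .e)) (.nd (.nd (.nd (.nd
 (.lf (.ofNat (nat_lit 839240641479106804))) .e) .e) .e) (.nd (.nd (.nd (.lf (.ofNat (nat_lit
 3815934560181447852))) .e) .e) .e))) (.nd (.nd (.nd (.nd (.nd (.lf (.negSucc (nat_lit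
 1080670119273822211))) .e) .e) .e) (.nd (.nd (.nd (.lf (.negSucc (nat_lit 4275837003541074307)))
 .e) .e) .e)) (.nd (.nd (.nd (.nd (.lf (.ofNat (nat_lit 1595398397263553456))) .e) .e) .e) (.nd
 (.nd (.nd (.lf (.negSucc (nat_lit 20641166008288742299))) .e) .e) .e)))) (.nd (.nd (.nd (.nd (.nd
 (.nd (.lf (.negSucc (nat_lit 1585314571498598007))) .e) .e) .e) (.nd (.nd (.nd (.lf (.negSucc
 (nat_lit 11295719526254629791))) .e) .e) .e)) (.nd (.nd (.nd (.nd (.lf (.negSucc (nat_lit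
 884856269938261987))) .e) .e) .e) .e)) (.nd (.nd (.nd (.nd (.nd (.lf (.negSucc (nat_lit
 5822755082702412115))) .e) .e) .e) (.nd (.nd (.nd (.lf (.negSucc (nat_lit 18288574284379363999)))
 .e) .e) .e)) (.nd (.nd (.nd (.nd (.lf (.negSucc (nat_lit 14393760224467764339))) .e) .e) .e) (.nd
 (.nd (.nd (.lf (.negSucc (nat_lit 8412416993609223449))) .e) .e) .e))))) (.nd (.nd (.nd (.nd (.nd
 (.nd (.nd (.lf (.ofNat (nat_lit 904784880051818640))) .e) .e) .e) .e) (.nd (.nd (.nd (.nd (.lf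
 (.ofNat (nat_lit 2678864500055313252))) .e) .e) .e) (.nd (.nd (.nd (.lf (.negSucc (nat_lit
 2418855975481924799))) .e) .e) .e))) (.nd (.nd (.nd (.nd (.nd (.lf (.negSucc (nat_lit
 1012002639540721879))) .e) .e) .e) (.nd (.nd (.nd (.lf (.negSucc (nat_lit 6618205369457931299)))
 .e) .e) .e)) (.nd (.nd (.nd (.nd (.lf (.negSucc (nat_lit 2852036013359433599))) .e) .e) .e) .e)))
 (.nd (.nd (.nd (.nd (.nd (.nd (.lf (.ofNat (nat_lit 4067973879459009192))) .e) .e) .e) .e) (.nd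
 (.nd (.nd (.nd (.lf (.negSucc (nat_lit 7567102344704943259))) .e) .e) .e) (.nd (.nd (.nd (.lf
 (.negSucc (nat_lit 2013600865953563899))) .e) .e) .e))) (.nd (.nd (.nd (.nd (.nd (.lf (.negSucc
 (nat_lit 2477676992038428459))) .e) .e) .e) .e) (.nd (.nd (.nd (.nd (.lf (.negSucc (nat_lit
 7978822616464719871))) .e) .e) .e) .e))))) .e) .e) .e))))) (.nd (.nd (.nd (.nd (.nd (.nd (.nd
 (.nd .e (.nd (.nd (.nd (.nd (.nd (.nd (.nd (.lf (.ofNat (nat_lit 329152587823858266))) .e) .e)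
 .e) .e) .e) .e) .e)) .e) .e) .e) .e) (.nd (.nd (.nd (.nd (.nd (.nd (.nd (.nd .e (.nd (.nd (.nd
 (.nd (.lf (.ofNat (nat_lit 2056208705528836144))) .e) .e) .e) .e)) (.nd (.nd (.nd (.nd (.nd (.lf
 (.negSucc (nat_lit 166408010809390955))) .e) .e) .e) .e) .e)) (.nd (.nd (.nd (.nd (.nd (.nd (.lf
 (.negSucc (nat_lit 992387265088497967))) .e) .e) .e) .e) .e) (.nd (.nd (.nd (.nd (.nd (.lf
 (.ofNat (nat_lit 3773998209981705928))) .e) .e) .e) .e) .e))) (.nd (.nd (.nd (.nd (.nd (.nd (.nd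
 (.lf (.negSucc (nat_lit 139520529879045351))) .e) .e) .e) .e) (.nd (.nd (.nd (.nd (.lf (.negSucc
 (nat_lit 312334813272170287))) .e) .e) .e) .e)) (.nd (.nd (.nd (.nd (.nd (.lf (.negSucc (nat_lit
 346606172658550059))) .e) .e) .e) .e) .e)) (.nd (.nd (.nd (.nd (.nd (.nd (.lf (.negSucc (nat_lit
 263125990176862183))) .e) .e) .e) .e) .e) (.nd (.nd (.nd (.nd (.nd (.lf (.negSucc (nat_lit
 1415757516008572159))) .e) .e) .e) .e) .e)))) .e) .e) .e) (.nd (.nd (.nd (.nd (.nd (.nd (.nd (.nd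
 .e (.nd (.nd (.nd (.lf (.negSucc (nat_lit 444225395411816231))) .e) .e) .e)) (.nd (.nd (.nd (.nd
 (.lf (.ofNat (nat_lit 1648747680415018704))) .e) .e) .e) (.nd (.nd (.nd (.lf (.ofNat (nat_lit
 742774823674223616))) .e) .e) .e))) (.nd (.nd (.nd (.nd (.nd (.lf (.ofNat (nat_lit
 342009774523375680))) .e) .e) .e) (.nd (.nd (.nd (.lf (.ofNat (nat_lit 180013558025887776))) .e)
 .e) .e)) (.nd (.nd (.nd (.nd (.lf (.negSucc (nat_lit 387713197778232095))) .e) .e) .e) .e))) (.nd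
 (.nd (.nd (.nd (.nd (.nd (.lf (.negSucc (nat_lit 755923434500318159))) .e) .e) .e) (.nd (.nd (.nd
 (.lf (.negSucc (nat_lit 1174970807698006799))) .e) .e) .e)) (.nd (.nd (.nd (.nd (.lf (.ofNat
 (nat_lit 544408099093017504))) .e) .e) .e) .e)) (.nd (.nd (.nd (.nd (.nd (.lf (.negSucc (nat_lit
 1828273856208609023))) .e) .e) .e) (.nd (.nd (.nd (.lf (.negSucc (nat_lit 6611083263565444799)))
 .e) .e) .e)) (.nd (.nd (.nd (.nd (.lf (.negSucc (nat_lit 193365573051895919))) .e) .e) .e) .e))))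
 (.nd (.nd (.nd (.nd (.nd (.nd (.nd (.lf (.ofNat (nat_lit 210958212254457888))) .e) .e) .e) .e)
 (.nd (.nd (.nd (.nd (.lf (.ofNat (nat_lit 388436936879224944))) .e) .e) .e) (.nd (.nd (.nd (.lf
 (.negSucc (nat_lit 688048093740484799))) .e) .e) .e))) (.nd (.nd (.nd (.nd (.nd (.lf (.negSucc
 (nat_lit 100780674690403871))) .e) .e) .e) (.nd (.nd (.nd (.lf (.negSucc (nat_lit
 2726983832094950399))) .e) .e) .e)) (.nd (.nd (.nd (.nd (.lf (.negSucc (nat_lit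
 1428725599274131199))) .e) .e) .e) .e))) (.nd (.nd (.nd (.nd (.nd (.nd (.lf (.ofNat (nat_lit
 877581547162386048))) .e) .e) .e) .e) (.nd (.nd (.nd (.nd (.lf (.negSucc (nat_lit
 2260319289656325839))) .e) .e) .e) .e)) (.nd (.nd (.nd (.nd (.nd (.lf (.negSucc (nat_lit
 33312095169700319))) .e) .e) .e) .e) (.nd (.nd (.nd (.nd (.lf (.negSucc (nat_lit
 392763653277053903))) .e) .e) .e) .e))))) .e) .e) .e))) (.nd (.nd (.nd (.nd (.nd (.nd (.nd (.nd
 .e (.nd (.nd (.nd (.nd (.nd (.lf (.ofNat (nat_lit 276432613953179548))) .e) .e) .e) .e) .e)) (.nd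
 (.nd (.nd (.nd (.nd (.nd (.lf (.negSucc (nat_lit 555239442053977251))) .e) .e) .e) .e) .e) .e))
 (.nd (.nd (.nd (.nd (.nd (.nd (.nd (.lf (.ofNat (nat_lit 269891461081921992))) .e) .e) .e) .e)
 .e) (.nd (.nd (.nd (.nd (.nd (.lf (.negSucc (nat_lit 1322629185809138803))) .e) .e) .e) .e) .e))
 (.nd (.nd (.nd (.nd (.nd (.nd (.lf (.ofNat (nat_lit 112107607300586604))) .e) .e) .e) .e) .e)
 .e))) .e) .e) .e) (.nd (.nd (.nd (.nd (.nd (.nd (.nd (.nd .e (.nd (.nd (.nd (.lf (.negSucc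
 (nat_lit 34189609680827667))) .e) .e) .e)) (.nd (.nd (.nd (.nd (.lf (.negSucc (nat_lit
 46856193595828479))) .e) .e) .e) .e)) (.nd (.nd (.nd (.nd (.nd (.lf (.negSucc (nat_lit
 17776578789036187))) .e) .e) .e) (.nd (.nd (.nd (.lf (.ofNat (nat_lit 183163314812619132))) .e)
 .e) .e)) (.nd (.nd (.nd (.nd (.lf (.negSucc (nat_lit 7357338817202611))) .e) .e) .e) .e))) (.nd
 (.nd (.nd (.nd (.nd (.nd (.lf (.negSucc (nat_lit 4548989150997663))) .e) .e) .e) (.nd (.nd (.nd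
 (.lf (.ofNat (nat_lit 203045675427253872))) .e) .e) .e)) (.nd (.nd (.nd (.nd (.lf (.negSucc
 (nat_lit 260828743815941199))) .e) .e) .e) .e)) (.nd (.nd (.nd (.nd (.nd (.lf (.ofNat (nat_lit
 23722814779494020))) .e) .e) .e) .e) (.nd (.nd (.nd (.nd (.lf (.ofNat (nat_lit
 376805141572305160))) .e) .e) .e) .e)))) (.nd (.nd (.nd (.nd (.nd (.nd (.nd (.lf (.negSucc
 (nat_lit 23834980983799))) .e) .e) .e) .e) (.nd (.nd (.nd (.nd (.lf (.negSucc (nat_lit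
 9212998838315591))) .e) .e) .e) .e)) (.nd (.nd (.nd (.nd (.nd (.lf (.negSucc (nat_lit
 63351678806227543))) .e) .e) .e) (.nd (.nd (.nd (.lf (.negSucc (nat_lit 3044784016081007499)))
 .e) .e) .e)) (.nd (.nd (.nd (.nd (.lf (.negSucc (nat_lit 2847389905882367999))) .e) .e) .e) .e)))
 (.nd (.nd (.nd (.nd (.nd (.nd (.lf (.ofNat (nat_lit 23908049700922952))) .e) .e) .e) .e) (.nd
 (.nd (.nd (.nd (.lf (.negSucc (nat_lit 4654448403604247519))) .e) .e) .e) .e)) (.nd (.nd (.nd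
 (.nd (.nd (.lf (.ofNat (nat_lit 11129567316657100))) .e) .e) .e) .e) (.nd (.nd (.nd (.nd (.lf
 (.negSucc (nat_lit 99074781830970291))) .e) .e) .e) .e))))) .e) .e) .e)) (.nd (.nd (.nd (.nd (.nd
 (.nd (.nd (.nd .e (.nd (.nd (.nd (.nd (.lf (.negSucc (nat_lit 1739710763935199))) .e) .e) .e)
 .e)) (.nd (.nd (.nd (.nd (.nd (.lf (.negSucc (nat_lit 569417056704383))) .e) .e) .e) .e) (.nd
 (.nd (.nd (.nd (.lf (.ofNat (nat_lit 2759948605842624))) .e) .e) .e) .e))) (.nd (.nd (.nd (.nd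
 (.nd (.nd (.lf (.negSucc (nat_lit 307165166771231))) .e) .e) .e) .e) (.nd (.nd (.nd (.nd (.lf
 (.negSucc (nat_lit 3134525850025919))) .e) .e) .e) .e)) (.nd (.nd (.nd (.nd (.nd (.lf (.ofNat
 (nat_lit 365118140459520))) .e) .e) .e) .e) .e))) (.nd (.nd (.nd (.nd (.nd (.nd (.nd (.lf
 (.negSucc (nat_lit 36476483924159))) .e) .e) .e) .e) (.nd (.nd (.nd (.nd (.lf (.ofNat (nat_lit
 1454058770308704))) .e) .e) .e) .e)) (.nd (.nd (.nd (.nd (.nd (.lf (.negSucc (nat_lit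
 2442314171287871))) .e) .e) .e) .e) (.nd (.nd (.nd (.nd (.lf (.negSucc (nat_lit
 712948308954335999))) .e) .e) .e) .e))) (.nd (.nd (.nd (.nd (.nd (.nd (.lf (.ofNat (nat_lit
 217544447667456))) .e) .e) .e) .e) (.nd (.nd (.nd (.nd (.lf (.negSucc (nat_lit
 2302329495003017759))) .e) .e) .e) .e)) (.nd (.nd (.nd (.nd (.nd (.lf (.ofNat (nat_lit
 3106902579681600))) .e) .e) .e) .e) .e)))) .e) .e) .e) .e))) (.nd (.nd (.nd (.nd (.nd (.nd (.nd
 (.nd .e (.nd (.nd (.nd (.nd (.nd (.nd (.lf (.negSucc (nat_lit 802761592554859435))) .e) .e) .e)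
 .e) .e) .e)) (.nd (.nd (.nd (.nd (.nd (.nd (.nd (.lf (.ofNat (nat_lit 114570194249709864))) .e)
 .e) .e) .e) .e) .e) (.nd (.nd (.nd (.nd (.nd (.nd (.lf (.negSucc (nat_lit 845268402327379349)))
 .e) .e) .e) .e) .e) .e))) .e) .e) .e) .e) (.nd (.nd (.nd (.nd (.nd (.nd (.nd (.nd .e (.nd (.nd
 (.nd (.nd (.lf (.ofNat (nat_lit 26268967983672140))) .e) .e) .e) .e)) (.nd (.nd (.nd (.nd (.nd
 (.lf (.ofNat (nat_lit 8188304715224380))) .e) .e) .e) .e) .e)) (.nd (.nd (.nd (.nd (.nd (.nd (.lf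
 (.ofNat (nat_lit 2093571684710340))) .e) .e) .e) .e) (.nd (.nd (.nd (.nd (.lf (.ofNat (nat_lit
 30949795513335120))) .e) .e) .e) .e)) (.nd (.nd (.nd (.nd (.nd (.lf (.negSucc (nat_lit
 14529765193236019))) .e) .e) .e) .e) .e))) (.nd (.nd (.nd (.nd (.nd (.nd (.nd (.lf (.ofNat
 (nat_lit 1050321602169300))) .e) .e) .e) .e) (.nd (.nd (.nd (.nd (.lf (.negSucc (nat_lit
 28470304200316979))) .e) .e) .e) .e)) (.nd (.nd (.nd (.nd (.nd (.lf (.ofNat (nat_lit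
 24507745919444600))) .e) .e) .e) .e) .e)) (.nd (.nd (.nd (.nd (.nd (.nd (.lf (.negSucc (nat_lit
 10339507817669879))) .e) .e) .e) .e) (.nd (.nd (.nd (.nd (.lf (.negSucc (nat_lit
 2836175168981081799))) .e) .e) .e) .e)) (.nd (.nd (.nd (.nd (.nd (.lf (.negSucc (nat_lit
 1530812392341857499))) .e) .e) .e) .e) .e)))) .e) .e) .e) (.nd (.nd (.nd (.nd (.nd (.nd (.nd (.nd
 .e (.nd (.nd (.nd (.lf (.ofNat (nat_lit 77157140384086592))) .e) .e) .e)) (.nd (.nd (.nd (.nd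
 (.lf (.ofNat (nat_lit 26399807410959604))) .e) .e) .e) (.nd (.nd (.nd (.lf (.ofNat (nat_lit
 166358341721170740))) .e) .e) .e))) (.nd (.nd (.nd (.nd (.nd (.lf (.negSucc (nat_lit
 4918929611829715))) .e) .e) .e) (.nd (.nd (.nd (.lf (.ofNat (nat_lit 155987202800300012))) .e)
 .e) .e)) (.nd (.nd (.nd (.nd (.lf (.negSucc (nat_lit 105811376032220399))) .e) .e) .e) .e))) (.nd
 (.nd (.nd (.nd (.nd (.nd (.lf (.negSucc (nat_lit 3676292425481207))) .e) .e) .e) (.nd (.nd (.nd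
 (.lf (.ofNat (nat_lit 66423566958738252))) .e) .e) .e)) (.nd (.nd (.nd (.nd (.lf (.negSucc
 (nat_lit 252700520613444991))) .e) .e) .e) .e)) (.nd (.nd (.nd (.nd (.nd (.lf (.ofNat (nat_lit
 2792803513376344))) .e) .e) .e) (.nd (.nd (.nd (.lf (.negSucc (nat_lit 2236717150940707199))) .e)
 .e) .e)) (.nd (.nd (.nd (.nd (.lf (.ofNat (nat_lit 277241462979646960))) .e) .e) .e) .e)))) (.nd
 (.nd (.nd (.nd (.nd (.nd (.nd (.lf (.ofNat (nat_lit 8531687885704))) .e) .e) .e) .e) (.nd (.nd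
 (.nd (.nd (.lf (.negSucc (nat_lit 129659661234690467))) .e) .e) .e) (.nd (.nd (.nd (.lf (.negSucc
 (nat_lit 314158795170249599))) .e) .e) .e))) (.nd (.nd (.nd (.nd (.nd (.lf (.negSucc (nat_lit
 35628162270568563))) .e) .e) .e) (.nd (.nd (.nd (.lf (.negSucc (nat_lit 1399222592836076999)))
 .e) .e) .e)) (.nd (.nd (.nd (.nd (.lf (.negSucc (nat_lit 473919940790956799))) .e) .e) .e) .e)))
 (.nd (.nd (.nd (.nd (.nd (.nd (.lf (.ofNat (nat_lit 5239060751323260))) .e) .e) .e) .e) (.nd (.nd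
 (.nd (.nd (.lf (.negSucc (nat_lit 780139654970410079))) .e) .e) .e) (.nd (.nd (.nd (.lf (.negSucc
 (nat_lit 394065631692906449))) .e) .e) .e))) (.nd (.nd (.nd (.nd (.nd (.lf (.negSucc (nat_lit
 51368875744338619))) .e) .e) .e) .e) (.nd (.nd (.nd (.nd (.lf (.negSucc (nat_lit
 94847262152997663))) .e) .e) .e) .e))))) .e) .e) .e))) (.nd (.nd (.nd (.nd (.nd (.nd (.nd (.nd .e
 (.nd (.nd (.nd (.nd (.nd (.lf (.negSucc (nat_lit 21800622848807859))) .e) .e) .e) .e) .e)) (.nd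
 (.nd (.nd (.nd (.nd (.nd (.lf (.negSucc (nat_lit 3530724071318239))) .e) .e) .e) .e) .e) (.nd
 (.nd (.nd (.nd (.nd (.lf (.ofNat (nat_lit 24878655848102320))) .e) .e) .e) .e) .e))) (.nd (.nd
 (.nd (.nd (.nd (.nd (.nd (.lf (.ofNat (nat_lit 909054015205780))) .e) .e) .e) .e) .e) (.nd (.nd
 (.nd (.nd (.nd (.lf (.negSucc (nat_lit 1091840815890052579))) .e) .e) .e) .e) .e)) (.nd (.nd (.nd
 (.nd (.nd (.nd (.lf (.ofNat (nat_lit 15925958753078320))) .e) .e) .e) .e) .e) (.nd (.nd (.nd (.nd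
 (.nd (.lf (.negSucc (nat_lit 2182031063548052899))) .e) .e) .e) .e) .e)))) .e) .e) .e) .e) (.nd
 (.nd (.nd (.nd (.nd (.nd (.nd (.nd .e (.nd (.nd (.nd (.nd (.lf (.ofNat (nat_lit
 3684383091927778960))) .e) .e) .e) .e)) (.nd (.nd (.nd (.nd (.nd (.lf (.ofNat (nat_lit
 1151505271344403796))) .e) .e) .e) .e) (.nd (.nd (.nd (.nd (.lf (.negSucc (nat_lit
 6032979267969391859))) .e) .e) .e) .e))) (.nd (.nd (.nd (.nd (.nd (.nd (.lf (.negSucc (nat_lit
 1264408033020439175))) .e) .e) .e) .e) (.nd (.nd (.nd (.nd (.lf (.negSucc (nat_lit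
 1897851529626769107))) .e) .e) .e) .e)) (.nd (.nd (.nd (.nd (.nd (.lf (.ofNat (nat_lit
 148254237662927648))) .e) .e) .e) .e) (.nd (.nd (.nd (.nd (.lf (.negSucc (nat_lit
 12439453686335509999))) .e) .e) .e) .e)))) (.nd (.nd (.nd (.nd (.nd (.nd (.nd (.lf (.ofNat
 (nat_lit 53918940799801932))) .e) .e) .e) .e) (.nd (.nd (.nd (.nd (.lf (.negSucc (nat_lit
 2351192707203890979))) .e) .e) .e) .e)) (.nd (.nd (.nd (.nd (.nd (.lf (.ofNat (nat_lit
 993820041401836744))) .e) .e) .e) .e) (.nd (.nd (.nd (.nd (.lf (.negSucc (nat_lit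
 2657611300762655))) .e) .e) .e) .e))) (.nd (.nd (.nd (.nd (.nd (.nd (.lf (.negSucc (nat_lit
 1198334682328660519))) .e) .e) .e) .e) (.nd (.nd (.nd (.nd (.lf (.negSucc (nat_lit
 3983765700181597319))) .e) .e) .e) .e)) (.nd (.nd (.nd (.nd (.nd (.lf (.negSucc (nat_lit
 3012166974471359319))) .e) .e) .e) .e) (.nd (.nd (.nd (.nd (.lf (.negSucc (nat_lit
 2069949375763246165))) .e) .e) .e) .e))))) .e) .e) .e) .e)))))

end Pool.Agent.H58.BJ.D6
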