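import Pool.Agent.H58.BJ.D6.U6
import Pool.Agent.H58.BJ.D6.U7

/-! # Certificate data (6 jets, exponent 28/25) -/

set_option autoImplicit false

namespace Pool.Agent.H58.BJ.D6

open Pool.Agent.H58.BJ

/-- rows of a block -/
noncomputable def B7_0 : List (Row × List ℤ) := [((nat_lit 1, nat_lit 1, false), [.ofNat (nat_lit
 5159781)]), ((nat_lit 1, nat_lit 2, false), [.ofNat (nat_lit 4279670), .ofNat (nat_lit
 6642572)]), ((nat_lit 2, nat_lit 1, false), [.ofNat (nat_lit 13922693), .negSucc (nat_lit 22498),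
 .ofNat (nat_lit 8731726)]), ((nat_lit 2, nat_lit 2, false), [.ofNat (nat_lit 2047823), .ofNat
 (nat_lit 22170738), .ofNat (nat_lit 4457327), .ofNat (nat_lit 14685346)]), ((nat_lit 3, nat_lit
 1, false), [.ofNat (nat_lit 278228), .negSucc (nat_lit 8834443), .negSucc (nat_lit 13254644),
 .negSucc (nat_lit 565728), .ofNat (nat_lit 18472887)]), ((nat_lit 3, nat_lit 2, false), [.negSucc
 (nat_lit 2511731), .negSucc (nat_lit 6914283), .negSucc (nat_lit 15634063), .negSucc (nat_lit
 6801906), .ofNat (nat_lit 21633846), .ofNat (nat_lit 13129587)]), ((nat_lit 4, nat_lit 1, false),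
 [.ofNat (nat_lit 2066848), .ofNat (nat_lit 5320622), .ofNat (nat_lit 14936433), .ofNat (nat_lit
 17249912), .negSucc (nat_lit 2858691), .ofNat (nat_lit 7520303), .ofNat (nat_lit 20232793)]),
 ((nat_lit 4, nat_lit 2, false), [.negSucc (nat_lit 17245150), .ofNat (nat_lit 26371372), .ofNat
 (nat_lit 2799353), .ofNat (nat_lit 46099692), .negSucc (nat_lit 4627451), .ofNat (nat_lit
 6244615), .ofNat (nat_lit 16158243), .ofNat (nat_lit 10373474)]), ((nat_lit 5, nat_lit 1, false),
 [.negSucc (nat_lit 10232649), .ofNat (nat_lit 17907395), .negSucc (nat_lit 2875295), .ofNat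
 (nat_lit 33539313), .negSucc (nat_lit 10010113), .ofNat (nat_lit 5369168), .ofNat (nat_lit
 23104548), .ofNat (nat_lit 1348343), .ofNat (nat_lit 16768807)]), ((nat_lit 5, nat_lit 2, false),
 [.ofNat (nat_lit 16634963), .ofNat (nat_lit 34855733), .ofNat (nat_lit 28319359), .ofNat (nat_lit
 23290139), .negSucc (nat_lit 48600733), .negSucc (nat_lit 9256668), .ofNat (nat_lit 13087849),
 .ofNat (nat_lit 1149984), .ofNat (nat_lit 10845062), .ofNat (nat_lit 23901999)]), ((nat_lit 6,
 nat_lit 1, false), [.ofNat (nat_lit 15959649), .negSucc (nat_lit 18995437), .negSucc (nat_lit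
 1554736), .negSucc (nat_lit 23245762), .ofNat (nat_lit 19111178), .negSucc (nat_lit 13948145),
 .negSucc (nat_lit 20657569), .ofNat (nat_lit 245293), .negSucc (nat_lit 4996946), .ofNat (nat_lit
 4959986), .ofNat (nat_lit 13658376)]), ((nat_lit 6, nat_lit 2, false), [.ofNat (nat_lit
 17586735), .negSucc (nat_lit 20074729), .ofNat (nat_lit 127434), .negSucc (nat_lit 42723398),
 .ofNat (nat_lit 15634893), .ofNat (nat_lit 5165539), .negSucc (nat_lit 35446820), .negSucc
 (nat_lit 5315860), .negSucc (nat_lit 9919415), .ofNat (nat_lit 5335833), .ofNat (nat_lit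
 12074401), .ofNat (nat_lit 15279723)]), ((nat_lit 8, nat_lit 1, false), [.negSucc (nat_lit
 1892016), .ofNat (nat_lit 4237644), .ofNat (nat_lit 9616630), .ofNat (nat_lit 9667058), .negSucc
 (nat_lit 6807178), .ofNat (nat_lit 4841320), .ofNat (nat_lit 21950260), .negSucc (nat_lit
 2580779), .negSucc (nat_lit 3686021), .ofNat (nat_lit 2514784), .ofNat (nat_lit 2586255), .ofNat
 (nat_lit 4005410), .ofNat (nat_lit 11581572)]), ((nat_lit 8, nat_lit 2, false), [.negSucc
 (nat_lit 8688310), .negSucc (nat_lit 163761), .negSucc (nat_lit 4721666), .ofNat (nat_lit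
 13662486), .negSucc (nat_lit 764598), .ofNat (nat_lit 6145410), .ofNat (nat_lit 10729995), .ofNat
 (nat_lit 19606119), .negSucc (nat_lit 1107469), .negSucc (nat_lit 1837575), .ofNat (nat_lit
 344936), .ofNat (nat_lit 3120346), .ofNat (nat_lit 5990939), .ofNat (nat_lit 10826484)]),
 ((nat_lit 7, nat_lit 1, false), [.ofNat (nat_lit 20637323), .negSucc (nat_lit 31533433), .negSucc
 (nat_lit 7379572), .negSucc (nat_lit 52637181), .ofNat (nat_lit 24341192), .negSucc (nat_lit
 11423893), .negSucc (nat_lit 44225109), .negSucc (nat_lit 5863606), .negSucc (nat_lit 18566454),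
 .negSucc (nat_lit 6517485), .ofNat (nat_lit 4837896), .ofNat (nat_lit 5121750), .ofNat (nat_lit
 3939745), .ofNat (nat_lit 460766), .ofNat (nat_lit 18231898)]), ((nat_lit 7, nat_lit 2, false),
 [.ofNat (nat_lit 14149268), .negSucc (nat_lit 52302219), .negSucc (nat_lit 27815941), .negSucc
 (nat_lit 77799288), .ofNat (nat_lit 65617783), .negSucc (nat_lit 14818252), .negSucc (nat_lit
 59897651), .negSucc (nat_lit 6624681), .negSucc (nat_lit 19401952), .negSucc (nat_lit 23783070),
 .ofNat (nat_lit 5536876), .ofNat (nat_lit 9046565), .ofNat (nat_lit 7027407), .ofNat (nat_lit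
 2468475), .ofNat (nat_lit 26758905), .ofNat (nat_lit 12420296)]), ((nat_lit 10, nat_lit 1,
 false), [.negSucc (nat_lit 23395515), .ofNat (nat_lit 25221696), .negSucc (nat_lit 2753652),
 .ofNat (nat_lit 60297192), .negSucc (nat_lit 14340912), .ofNat (nat_lit 18015417), .ofNat
 (nat_lit 47170869), .ofNat (nat_lit 7332566), .ofNat (nat_lit 29279452), .negSucc (nat_lit
 3751041), .negSucc (nat_lit 4480854), .negSucc (nat_lit 3215462), .negSucc (nat_lit 1627382),
 .negSucc (nat_lit 2358486), .negSucc (nat_lit 5687312), .negSucc (nat_lit 5342769), .ofNat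
 (nat_lit 13363794)]), ((nat_lit 10, nat_lit 2, false), [.ofNat (nat_lit 28924908), .ofNat
 (nat_lit 49713754), .ofNat (nat_lit 56911368), .ofNat (nat_lit 34468349), .negSucc (nat_lit
 88904085), .negSucc (nat_lit 7865843), .ofNat (nat_lit 21969689), .ofNat (nat_lit 3738929),
 .ofNat (nat_lit 5869661), .ofNat (nat_lit 44329477), .negSucc (nat_lit 4524497), .negSucc
 (nat_lit 4542966), .negSucc (nat_lit 3605488), .negSucc (nat_lit 2095280), .negSucc (nat_lit
 9921524), .negSucc (nat_lit 9253946), .ofNat (nat_lit 14135228), .ofNat (nat_lit 13509628)]),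
 ((nat_lit 9, nat_lit 1, false), [.negSucc (nat_lit 12740873), .negSucc (nat_lit 6484476),
 .negSucc (nat_lit 18141057), .ofNat (nat_lit 7763981), .ofNat (nat_lit 22248533), .ofNat (nat_lit
 700977), .ofNat (nat_lit 7765944), .ofNat (nat_lit 716225), .ofNat (nat_lit 2756619), .negSucc
 (nat_lit 3641630), .negSucc (nat_lit 3837213), .ofNat (nat_lit 1410111), .negSucc (nat_lit
 555788), .negSucc (nat_lit 290631), .ofNat (nat_lit 1126698), .negSucc (nat_lit 2586137), .ofNat
 (nat_lit 1303502), .negSucc (nat_lit 211231), .ofNat (nat_lit 10292366)]), ((nat_lit 9, nat_lit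
 2, false), [.negSucc (nat_lit 51357497), .negSucc (nat_lit 4837442), .negSucc (nat_lit 47909867),
 .ofNat (nat_lit 34874278), .ofNat (nat_lit 57757946), .ofNat (nat_lit 25443305), .ofNat (nat_lit
 34547037), .ofNat (nat_lit 4582971), .ofNat (nat_lit 19452314), .negSucc (nat_lit 23420878),
 .negSucc (nat_lit 7217152), .negSucc (nat_lit 6313022), .ofNat (nat_lit 697617), .ofNat (nat_lit
 574055), .ofNat (nat_lit 3192061), .ofNat (nat_lit 7618824), .ofNat (nat_lit 66922), .negSucc
 (nat_lit 2166685), .ofNat (nat_lit 10575248), .ofNat (nat_lit 17293992)]), ((nat_lit 12, nat_lit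
 1, false), [.negSucc (nat_lit 1000367), .negSucc (nat_lit 378584), .ofNat (nat_lit 3457747),
 .negSucc (nat_lit 1349588), .ofNat (nat_lit 2232555), .negSucc (nat_lit 6940725), .ofNat (nat_lit
 851289), .negSucc (nat_lit 442460), .negSucc (nat_lit 925896), .ofNat (nat_lit 717173), .ofNat
 (nat_lit 14808467), .negSucc (nat_lit 7627884), .negSucc (nat_lit 6413307), .ofNat (nat_lit
 3918012), .ofNat (nat_lit 1366501), .negSucc (nat_lit 634813), .ofNat (nat_lit 741047), .ofNat
 (nat_lit 373583), .negSucc (nat_lit 99910), .ofNat (nat_lit 2678859), .ofNat (nat_lit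
 12828993)]), ((nat_lit 12, nat_lit 2, false), [.ofNat (nat_lit 5279347), .negSucc (nat_lit
 6106948), .ofNat (nat_lit 4092669), .negSucc (nat_lit 14179279), .negSucc (nat_lit 2481927),
 .negSucc (nat_lit 4895516), .negSucc (nat_lit 14835975), .negSucc (nat_lit 3108947), .negSucc
 (nat_lit 6196553), .ofNat (nat_lit 1101507), .ofNat (nat_lit 3775554), .ofNat (nat_lit 15909691),
 .negSucc (nat_lit 5540419), .negSucc (nat_lit 1994897), .ofNat (nat_lit 691634), .ofNat (nat_lit
 265339), .ofNat (nat_lit 2481621), .negSucc (nat_lit 2949536), .ofNat (nat_lit 1625162), .ofNat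
 (nat_lit 2989005), .ofNat (nat_lit 9798036), .ofNat (nat_lit 14418480)]), ((nat_lit 16, nat_lit
 1, false), [.ofNat (nat_lit 3317716), .ofNat (nat_lit 1689913), .ofNat (nat_lit 1521906),
 .negSucc (nat_lit 6820288), .negSucc (nat_lit 1987087), .negSucc (nat_lit 6172967), .negSucc
 (nat_lit 1843304), .negSucc (nat_lit 9396397), .negSucc (nat_lit 4409167), .ofNat (nat_lit
 2847421), .ofNat (nat_lit 3607806), .ofNat (nat_lit 2948515), .ofNat (nat_lit 15301269), .negSucc
 (nat_lit 977615), .negSucc (nat_lit 1230656), .negSucc (nat_lit 923091), .ofNat (nat_lit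
 1347317), .negSucc (nat_lit 1165757), .ofNat (nat_lit 247767), .negSucc (nat_lit 162389),
 .negSucc (nat_lit 245477), .ofNat (nat_lit 4002221), .ofNat (nat_lit 9581879)]), ((nat_lit 16,
 nat_lit 2, false), [.ofNat (nat_lit 4960459), .negSucc (nat_lit 13285227), .negSucc (nat_lit
 6588337), .negSucc (nat_lit 23179594), .ofNat (nat_lit 11953043), .ofNat (nat_lit 352172),
 .negSucc (nat_lit 10923462), .ofNat (nat_lit 3176634), .negSucc (nat_lit 663166), .negSucc
 (nat_lit 4820139), .negSucc (nat_lit 1117808), .ofNat (nat_lit 1518035), .ofNat (nat_lit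
 1611767), .ofNat (nat_lit 19049846), .negSucc (nat_lit 501159), .negSucc (nat_lit 1695146),
 .ofNat (nat_lit 1454129), .negSucc (nat_lit 46696), .negSucc (nat_lit 247382), .ofNat (nat_lit
 286851), .ofNat (nat_lit 393995), .ofNat (nat_lit 2978514), .ofNat (nat_lit 11631452), .ofNat
 (nat_lit 5013484)]), ((nat_lit 11, nat_lit 1, false), [.negSucc (nat_lit 7318590), .ofNat
 (nat_lit 23371662), .ofNat (nat_lit 7142147), .ofNat (nat_lit 33008512), .negSucc (nat_lit
 24510352), .ofNat (nat_lit 7838127), .ofNat (nat_lit 28273418), .ofNat (nat_lit 3289939), .ofNat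
 (nat_lit 8204133), .ofNat (nat_lit 6780174), .negSucc (nat_lit 1360523), .negSucc (nat_lit
 4321891), .negSucc (nat_lit 3607082), .ofNat (nat_lit 85357), .negSucc (nat_lit 9046584),
 .negSucc (nat_lit 2092546), .ofNat (nat_lit 1559363), .negSucc (nat_lit 410925), .ofNat (nat_lit
 14424), .negSucc (nat_lit 407047), .negSucc (nat_lit 1479995), .ofNat (nat_lit 69662), .ofNat
 (nat_lit 177067), .negSucc (nat_lit 776793), .ofNat (nat_lit 8340476)]), ((nat_lit 11, nat_lit 2,
 false), [.negSucc (nat_lit 6294077), .ofNat (nat_lit 33788559), .ofNat (nat_lit 14390751), .ofNat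
 (nat_lit 44720421), .negSucc (nat_lit 39458822), .ofNat (nat_lit 9057516), .ofNat (nat_lit
 39067986), .ofNat (nat_lit 6085985), .ofNat (nat_lit 10805167), .ofNat (nat_lit 11847454),
 .negSucc (nat_lit 2386351), .negSucc (nat_lit 5443057), .negSucc (nat_lit 4827143), .negSucc
 (nat_lit 1828689), .negSucc (nat_lit 13414330), .negSucc (nat_lit 5256056), .ofNat (nat_lit
 2589484), .ofNat (nat_lit 840074), .negSucc (nat_lit 232958), .negSucc (nat_lit 1089983),
 .negSucc (nat_lit 1423801), .negSucc (nat_lit 407933), .ofNat (nat_lit 543754), .negSucc (nat_lit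
 74890), .ofNat (nat_lit 11735510), .ofNat (nat_lit 4415907)]), ((nat_lit 14, nat_lit 1, false),
 [.ofNat (nat_lit 20382743), .negSucc (nat_lit 46016453), .negSucc (nat_lit 17932697), .negSucc
 (nat_lit 68362724), .ofNat (nat_lit 48752148), .negSucc (nat_lit 17841010), .negSucc (nat_lit
 62535206), .negSucc (nat_lit 7808030), .negSucc (nat_lit 18530315), .negSucc (nat_lit 15454131),
 .ofNat (nat_lit 5815330), .ofNat (nat_lit 7845684), .ofNat (nat_lit 10110040), .ofNat (nat_lit
 1645698), .ofNat (nat_lit 25777973), .ofNat (nat_lit 10172409), .negSucc (nat_lit 2986156),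
 .negSucc (nat_lit 2629925), .negSucc (nat_lit 1123374), .ofNat (nat_lit 4063629), .ofNat (nat_lit
 1422569), .negSucc (nat_lit 2036099), .negSucc (nat_lit 1066609), .ofNat (nat_lit 1138850),
 .ofNat (nat_lit 1223621), .negSucc (nat_lit 2273437), .ofNat (nat_lit 9548742)]), ((nat_lit 14,
 nat_lit 2, false), [.ofNat (nat_lit 1713975), .negSucc (nat_lit 62241867), .negSucc (nat_lit
 45844922), .negSucc (nat_lit 81582743), .ofNat (nat_lit 99819502), .negSucc (nat_lit 19081425),
 .negSucc (nat_lit 68920284), .negSucc (nat_lit 8945209), .negSucc (nat_lit 12144726), .negSucc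
 (nat_lit 37780700), .ofNat (nat_lit 5741864), .ofNat (nat_lit 10826103), .ofNat (nat_lit
 13272333), .ofNat (nat_lit 6048321), .ofNat (nat_lit 32493572), .ofNat (nat_lit 29385751),
 .negSucc (nat_lit 3548662), .negSucc (nat_lit 5185175), .negSucc (nat_lit 925691), .ofNat
 (nat_lit 3250821), .ofNat (nat_lit 1569666), .negSucc (nat_lit 1805870), .negSucc (nat_lit
 1470974), .ofNat (nat_lit 748065), .ofNat (nat_lit 1743672), .negSucc (nat_lit 1735010), .ofNat
 (nat_lit 13473357), .ofNat (nat_lit 4771369)]), ((nat_lit 15, nat_lit 1, false), [.negSucc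
 (nat_lit 752930), .negSucc (nat_lit 1425495), .negSucc (nat_lit 3948284), .ofNat (nat_lit
 1948945), .negSucc (nat_lit 1284783), .ofNat (nat_lit 2394786), .ofNat (nat_lit 855634), .negSucc
 (nat_lit 3066784), .ofNat (nat_lit 155855), .ofNat (nat_lit 2513497), .ofNat (nat_lit 970091),
 .ofNat (nat_lit 3341947), .negSucc (nat_lit 1475824), .ofNat (nat_lit 787495), .ofNat (nat_lit
 1950212), .negSucc (nat_lit 3194986), .negSucc (nat_lit 4806550), .ofNat (nat_lit 5026849),
 .negSucc (nat_lit 1679034), .negSucc (nat_lit 4229230), .ofNat (nat_lit 1536316), .negSucc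
 (nat_lit 726378), .ofNat (nat_lit 806260), .negSucc (nat_lit 1642642), .ofNat (nat_lit 2100499),
 .negSucc (nat_lit 534181), .ofNat (nat_lit 149988), .ofNat (nat_lit 945278), .ofNat (nat_lit
 14366825)]), ((nat_lit 15, nat_lit 2, false), [.ofNat (nat_lit 18148887), .negSucc (nat_lit
 9126615), .ofNat (nat_lit 9828592), .negSucc (nat_lit 30339966), .negSucc (nat_lit 6744261),
 .negSucc (nat_lit 5623079), .negSucc (nat_lit 21341919), .negSucc (nat_lit 3375666), .negSucc
 (nat_lit 11799435), .ofNat (nat_lit 12128986), .ofNat (nat_lit 3453329), .ofNat (nat_lit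
 1387077), .negSucc (nat_lit 2002020), .negSucc (nat_lit 1641934), .ofNat (nat_lit 7608512),
 .negSucc (nat_lit 6987232), .negSucc (nat_lit 2227319), .negSucc (nat_lit 689397), .negSucc
 (nat_lit 89322), .negSucc (nat_lit 11856152), .ofNat (nat_lit 1640640), .ofNat (nat_lit 2563333),
 .ofNat (nat_lit 1879277), .negSucc (nat_lit 573906), .negSucc (nat_lit 3565309), .ofNat (nat_lit
 1902557), .negSucc (nat_lit 1334817), .negSucc (nat_lit 1909778), .ofNat (nat_lit 18751311),
 .ofNat (nat_lit 10971466)]), ((nat_lit 20, nat_lit 1, false), [.negSucc (nat_lit 50328337),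
 .negSucc (nat_lit 5085919), .negSucc (nat_lit 37956406), .ofNat (nat_lit 39742549), .ofNat
 (nat_lit 41888051), .ofNat (nat_lit 31763044), .ofNat (nat_lit 43824452), .ofNat (nat_lit
 5986005), .ofNat (nat_lit 18584029), .negSucc (nat_lit 29487305), .negSucc (nat_lit 5326837),
 .negSucc (nat_lit 5340316), .negSucc (nat_lit 7257415), .ofNat (nat_lit 1724340), .negSucc
 (nat_lit 6950735), .negSucc (nat_lit 1548508), .ofNat (nat_lit 13123343), .ofNat (nat_lit
 964004), .negSucc (nat_lit 83614), .ofNat (nat_lit 1671998), .negSucc (nat_lit 3285783), .ofNat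
 (nat_lit 3122941), .ofNat (nat_lit 2740613), .negSucc (nat_lit 5179777), .negSucc (nat_lit
 283801), .negSucc (nat_lit 4391339), .ofNat (nat_lit 893105), .negSucc (nat_lit 369178), .ofNat
 (nat_lit 2523360), .ofNat (nat_lit 2216672), .ofNat (nat_lit 10188080)]), ((nat_lit 20, nat_lit
 2, false), [.negSucc (nat_lit 25339943), .ofNat (nat_lit 5093917), .negSucc (nat_lit 9362771),
 .ofNat (nat_lit 25632793), .ofNat (nat_lit 1791791), .ofNat (nat_lit 20921520), .ofNat (nat_lit
 30614254), .ofNat (nat_lit 3182157), .ofNat (nat_lit 834096), .negSucc (nat_lit 4672021),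
 .negSucc (nat_lit 3157940), .negSucc (nat_lit 6296745), .negSucc (nat_lit 8855199), .ofNat
 (nat_lit 1226038), .negSucc (nat_lit 13489886), .negSucc (nat_lit 5419888), .ofNat (nat_lit
 11731017), .ofNat (nat_lit 17527013), .ofNat (nat_lit 381076), .negSucc (nat_lit 480356),
 .negSucc (nat_lit 3373949), .ofNat (nat_lit 1551332), .ofNat (nat_lit 3378654), .negSucc (nat_lit
 5487468), .ofNat (nat_lit 525416), .negSucc (nat_lit 4021600), .negSucc (nat_lit 65688), .ofNat
 (nat_lit 220202), .ofNat (nat_lit 2044811), .ofNat (nat_lit 4451582), .ofNat (nat_lit 13827135),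
 .ofNat (nat_lit 4481611)]), ((nat_lit 18, nat_lit 1, false), [.ofNat (nat_lit 28486218), .ofNat
 (nat_lit 1908613), .ofNat (nat_lit 24106390), .negSucc (nat_lit 19779128), .negSucc (nat_lit
 27600219), .negSucc (nat_lit 21646732), .negSucc (nat_lit 19824590), .negSucc (nat_lit 1300780),
 .negSucc (nat_lit 10186359), .ofNat (nat_lit 16331131), .ofNat (nat_lit 4583351), .ofNat (nat_lit
 5487706), .ofNat (nat_lit 1139265), .negSucc (nat_lit 1215337), .negSucc (nat_lit 754848),
 .negSucc (nat_lit 5040377), .ofNat (nat_lit 541762), .negSucc (nat_lit 2165487), .ofNat (nat_lit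
 10256260), .negSucc (nat_lit 7763836), .negSucc (nat_lit 5073661), .ofNat (nat_lit 268834),
 .negSucc (nat_lit 1431455), .ofNat (nat_lit 1125915), .ofNat (nat_lit 1338168), .negSucc (nat_lit
 554313), .ofNat (nat_lit 2454768), .ofNat (nat_lit 1759238), .ofNat (nat_lit 1876634), .negSucc
 (nat_lit 653079), .negSucc (nat_lit 1093762), .ofNat (nat_lit 1197902), .ofNat (nat_lit
 13900618)]), ((nat_lit 18, nat_lit 2, false), [.ofNat (nat_lit 1850691), .ofNat (nat_lit
 4107137), .ofNat (nat_lit 4646517), .negSucc (nat_lit 2627467), .negSucc (nat_lit 4430684),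
 .negSucc (nat_lit 1775366), .negSucc (nat_lit 4217102), .negSucc (nat_lit 249975), .ofNat
 (nat_lit 2281890), .negSucc (nat_lit 826740), .ofNat (nat_lit 3543354), .ofNat (nat_lit 1864028),
 .ofNat (nat_lit 4773369), .ofNat (nat_lit 133942), .ofNat (nat_lit 2552386), .ofNat (nat_lit
 8324385), .negSucc (nat_lit 287301), .negSucc (nat_lit 4303361), .ofNat (nat_lit 5916337), .ofNat
 (nat_lit 10385276), .negSucc (nat_lit 1916698), .negSucc (nat_lit 8274478), .negSucc (nat_lit
 1574065), .ofNat (nat_lit 2050208), .ofNat (nat_lit 1895189), .ofNat (nat_lit 2799270), .ofNat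
 (nat_lit 62159), .ofNat (nat_lit 1862381), .ofNat (nat_lit 498036), .ofNat (nat_lit 600396),
 .negSucc (nat_lit 1785657), .negSucc (nat_lit 2153476), .ofNat (nat_lit 18728680), .ofNat
 (nat_lit 6614845)]), ((nat_lit 24, nat_lit 1, false), [.negSucc (nat_lit 4153663), .ofNat
 (nat_lit 6533864), .negSucc (nat_lit 1570992), .ofNat (nat_lit 9112907), .negSucc (nat_lit
 3502129), .ofNat (nat_lit 4186051), .ofNat (nat_lit 9623883), .ofNat (nat_lit 104893), .ofNat
 (nat_lit 2749350), .negSucc (nat_lit 962154), .ofNat (nat_lit 1416957), .negSucc (nat_lit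
 7661901), .ofNat (nat_lit 1560624), .ofNat (nat_lit 3081473), .ofNat (nat_lit 647155), .negSucc
 (nat_lit 146990), .negSucc (nat_lit 1549256), .ofNat (nat_lit 2852306), .negSucc (nat_lit
 1786187), .ofNat (nat_lit 597257), .ofNat (nat_lit 12734473), .negSucc (nat_lit 3129815),
 .negSucc (nat_lit 4984741), .ofNat (nat_lit 2413252), .ofNat (nat_lit 1863353), .negSucc (nat_lit
 381573), .negSucc (nat_lit 762953), .negSucc (nat_lit 1443012), .negSucc (nat_lit 402314),
 .negSucc (nat_lit 1143963), .ofNat (nat_lit 2717024), .ofNat (nat_lit 1598347), .ofNat (nat_lit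
 4056111), .ofNat (nat_lit 2816076), .ofNat (nat_lit 8950774)]), ((nat_lit 24, nat_lit 2, false),
 [.negSucc (nat_lit 1665156), .ofNat (nat_lit 3754135), .negSucc (nat_lit 3923885), .ofNat
 (nat_lit 9179408), .negSucc (nat_lit 2095988), .negSucc (nat_lit 100530), .ofNat (nat_lit
 6659086), .ofNat (nat_lit 3947212), .ofNat (nat_lit 2952214), .ofNat (nat_lit 8539), .negSucc
 (nat_lit 7279654), .negSucc (nat_lit 774046), .ofNat (nat_lit 4910988), .negSucc (nat_lit
 4339620), .negSucc (nat_lit 1081203), .ofNat (nat_lit 1564259), .negSucc (nat_lit 143420),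
 .negSucc (nat_lit 194293), .ofNat (nat_lit 232640), .ofNat (nat_lit 781737), .ofNat (nat_lit
 8661689), .ofNat (nat_lit 11865772), .negSucc (nat_lit 4962088), .negSucc (nat_lit 54466), .ofNat
 (nat_lit 1738413), .negSucc (nat_lit 64597), .negSucc (nat_lit 280689), .negSucc (nat_lit
 850591), .negSucc (nat_lit 260986), .negSucc (nat_lit 61191), .ofNat (nat_lit 1438130), .ofNat
 (nat_lit 1719414), .ofNat (nat_lit 3480942), .ofNat (nat_lit 3853395), .ofNat (nat_lit 12103773),
 .ofNat (nat_lit 2207997)]), ((nat_lit 32, nat_lit 1, false), [.negSucc (nat_lit 680939), .ofNat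
 (nat_lit 3766025), .negSucc (nat_lit 120332), .ofNat (nat_lit 3674186), .negSucc (nat_lit
 1475379), .negSucc (nat_lit 3639923), .negSucc (nat_lit 4570122), .negSucc (nat_lit 6549182),
 .negSucc (nat_lit 1485976), .ofNat (nat_lit 1780682), .ofNat (nat_lit 1682425), .negSucc (nat_lit
 1909386), .ofNat (nat_lit 3869466), .negSucc (nat_lit 4186495), .negSucc (nat_lit 1324274),
 .negSucc (nat_lit 1666294), .ofNat (nat_lit 1195703), .ofNat (nat_lit 16234), .ofNat (nat_lit
 141016), .ofNat (nat_lit 159202), .negSucc (nat_lit 318390), .ofNat (nat_lit 3256262), .ofNat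
 (nat_lit 11649005), .ofNat (nat_lit 2224924), .ofNat (nat_lit 12622), .negSucc (nat_lit 332494),
 .ofNat (nat_lit 480964), .ofNat (nat_lit 144866), .ofNat (nat_lit 256961), .ofNat (nat_lit
 198180), .negSucc (nat_lit 914841), .negSucc (nat_lit 439338), .negSucc (nat_lit 367567),
 .negSucc (nat_lit 195466), .ofNat (nat_lit 3038899), .ofNat (nat_lit 1530462), .ofNat (nat_lit
 1313332)]), ((nat_lit 32, nat_lit 2, false), [.negSucc (nat_lit 519002), .negSucc (nat_lit
 1289209), .negSucc (nat_lit 1704698), .negSucc (nat_lit 2563095), .ofNat (nat_lit 4593742),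
 .ofNat (nat_lit 300073), .negSucc (nat_lit 6495438), .negSucc (nat_lit 5761811), .negSucc
 (nat_lit 335677), .negSucc (nat_lit 1508486), .negSucc (nat_lit 807188), .negSucc (nat_lit
 2448536), .negSucc (nat_lit 4233763), .ofNat (nat_lit 5004484), .negSucc (nat_lit 623673),
 .negSucc (nat_lit 2443180), .ofNat (nat_lit 1275301), .ofNat (nat_lit 1190608), .negSucc (nat_lit
 362839), .ofNat (nat_lit 609064), .ofNat (nat_lit 309885), .ofNat (nat_lit 2247362), .ofNat
 (nat_lit 13677706), .ofNat (nat_lit 7280357), .ofNat (nat_lit 24251), .negSucc (nat_lit 308339),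
 .ofNat (nat_lit 443250), .ofNat (nat_lit 176763), .ofNat (nat_lit 244217), .ofNat (nat_lit
 285054), .negSucc (nat_lit 884103), .negSucc (nat_lit 389485), .negSucc (nat_lit 373152),
 .negSucc (nat_lit 134354), .ofNat (nat_lit 2986833), .ofNat (nat_lit 1657095), .ofNat (nat_lit
 1353908), .ofNat (nat_lit 237854)])]

/-- rows of a block -/
noncomputable def B7_1 : List (Row × List ℤ) := [((nat_lit 1, nat_lit 1, false), [.ofNat (nat_lit
 9047160)]), ((nat_lit 1, nat_lit 2, false), [.negSucc (nat_lit 8413295), .ofNat (nat_lit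
 20703923)]), ((nat_lit 1, nat_lit 3, false), [.negSucc (nat_lit 9663125), .ofNat (nat_lit
 15347690), .ofNat (nat_lit 17766924)]), ((nat_lit 1, nat_lit 4, false), [.ofNat (nat_lit
 9728023), .negSucc (nat_lit 1054581), .ofNat (nat_lit 19193273), .ofNat (nat_lit 26348218)]),
 ((nat_lit 2, nat_lit 1, false), [.ofNat (nat_lit 9025031), .negSucc (nat_lit 7266446), .ofNat
 (nat_lit 929678), .ofNat (nat_lit 519912), .ofNat (nat_lit 18739420)]), ((nat_lit 2, nat_lit 2,
 false), [.negSucc (nat_lit 32328483), .ofNat (nat_lit 21665450), .negSucc (nat_lit 32152326),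
 .negSucc (nat_lit 25123149), .ofNat (nat_lit 16656298), .ofNat (nat_lit 20473161)]), ((nat_lit 2,
 nat_lit 3, false), [.negSucc (nat_lit 47063790), .ofNat (nat_lit 61567219), .ofNat (nat_lit
 64995894), .ofNat (nat_lit 12435737), .negSucc (nat_lit 1488927), .negSucc (nat_lit 8464753),
 .ofNat (nat_lit 16219079)]), ((nat_lit 2, nat_lit 4, false), [.ofNat (nat_lit 26205662), .negSucc
 (nat_lit 17714803), .ofNat (nat_lit 36867295), .ofNat (nat_lit 51359631), .negSucc (nat_lit
 8348), .ofNat (nat_lit 6957125), .negSucc (nat_lit 924230), .ofNat (nat_lit 14745061)]),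
 ((nat_lit 3, nat_lit 1, false), [.ofNat (nat_lit 2065098), .ofNat (nat_lit 16736909), .negSucc
 (nat_lit 26508841), .negSucc (nat_lit 25177319), .negSucc (nat_lit 17870531), .ofNat (nat_lit
 1242182), .ofNat (nat_lit 2520823), .ofNat (nat_lit 1828041), .ofNat (nat_lit 15254947)]),
 ((nat_lit 3, nat_lit 2, false), [.negSucc (nat_lit 13348042), .ofNat (nat_lit 31221080), .negSucc
 (nat_lit 18241500), .negSucc (nat_lit 17367060), .negSucc (nat_lit 10003499), .negSucc (nat_lit
 13511272), .negSucc (nat_lit 2350015), .ofNat (nat_lit 3619523), .ofNat (nat_lit 15301870),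
 .ofNat (nat_lit 16963387)]), ((nat_lit 3, nat_lit 3, false), [.negSucc (nat_lit 52818236), .ofNat
 (nat_lit 21359473), .negSucc (nat_lit 34596681), .negSucc (nat_lit 47150807), .ofNat (nat_lit
 25934143), .ofNat (nat_lit 5792697), .negSucc (nat_lit 17291422), .ofNat (nat_lit 962088), .ofNat
 (nat_lit 7888318), .ofNat (nat_lit 1793756), .ofNat (nat_lit 19220017)]), ((nat_lit 3, nat_lit 4,
 false), [.negSucc (nat_lit 48903217), .ofNat (nat_lit 14770416), .negSucc (nat_lit 49923007),
 .negSucc (nat_lit 44623944), .ofNat (nat_lit 27841490), .negSucc (nat_lit 2529730), .negSucc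
 (nat_lit 9695547), .negSucc (nat_lit 11777288), .ofNat (nat_lit 10122825), .ofNat (nat_lit
 19965859), .ofNat (nat_lit 10754915), .ofNat (nat_lit 21792789)]), ((nat_lit 4, nat_lit 1,
 false), [.ofNat (nat_lit 17913747), .negSucc (nat_lit 26813248), .negSucc (nat_lit 21964156),
 .negSucc (nat_lit 10655811), .ofNat (nat_lit 19661460), .ofNat (nat_lit 2018774), .negSucc
 (nat_lit 1803426), .negSucc (nat_lit 2673288), .ofNat (nat_lit 4446878), .negSucc (nat_lit
 345167), .negSucc (nat_lit 2259577), .ofNat (nat_lit 1800505), .ofNat (nat_lit 12207720)]),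
 ((nat_lit 4, nat_lit 2, false), [.negSucc (nat_lit 12846191), .negSucc (nat_lit 11572926),
 .negSucc (nat_lit 69543189), .negSucc (nat_lit 53236886), .ofNat (nat_lit 6294210), .ofNat
 (nat_lit 28484347), .ofNat (nat_lit 1067953), .negSucc (nat_lit 7850959), .ofNat (nat_lit
 1371605), .ofNat (nat_lit 4106398), .negSucc (nat_lit 1124360), .ofNat (nat_lit 2921319), .ofNat
 (nat_lit 9287651), .ofNat (nat_lit 14292266)]), ((nat_lit 4, nat_lit 3, false), [.negSucc
 (nat_lit 41460814), .ofNat (nat_lit 44931183), .ofNat (nat_lit 12415321), .negSucc (nat_lit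
 14347131), .negSucc (nat_lit 7815449), .negSucc (nat_lit 3480589), .ofNat (nat_lit 20827178),
 .ofNat (nat_lit 334425), .ofNat (nat_lit 3609127), .ofNat (nat_lit 1222984), .ofNat (nat_lit
 3336703), .ofNat (nat_lit 4520997), .ofNat (nat_lit 5969074), .negSucc (nat_lit 3037892), .ofNat
 (nat_lit 15214437)]), ((nat_lit 4, nat_lit 4, false), [.ofNat (nat_lit 11230558), .negSucc
 (nat_lit 11218975), .ofNat (nat_lit 2421896), .ofNat (nat_lit 6458630), .negSucc (nat_lit
 518242), .ofNat (nat_lit 1975208), .negSucc (nat_lit 2363402), .ofNat (nat_lit 19233073),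
 .negSucc (nat_lit 190629), .ofNat (nat_lit 1693658), .ofNat (nat_lit 3376545), .ofNat (nat_lit
 3907210), .ofNat (nat_lit 2227270), .ofNat (nat_lit 7011527), .negSucc (nat_lit 2630903), .ofNat
 (nat_lit 13139125)]), ((nat_lit 5, nat_lit 1, false), [.ofNat (nat_lit 36913751), .negSucc
 (nat_lit 35936801), .negSucc (nat_lit 33766304), .negSucc (nat_lit 13641990), .negSucc (nat_lit
 2272880), .ofNat (nat_lit 14380321), .negSucc (nat_lit 1847801), .negSucc (nat_lit 4811699),
 .negSucc (nat_lit 5421841), .negSucc (nat_lit 576667), .ofNat (nat_lit 781831), .ofNat (nat_lit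
 2966075), .ofNat (nat_lit 3458642), .ofNat (nat_lit 135330), .ofNat (nat_lit 2700697), .negSucc
 (nat_lit 504232), .ofNat (nat_lit 13033137)]), ((nat_lit 5, nat_lit 2, false), [.negSucc (nat_lit
 5242545), .ofNat (nat_lit 22601468), .negSucc (nat_lit 24045942), .negSucc (nat_lit 24320672),
 .negSucc (nat_lit 20499929), .ofNat (nat_lit 12097901), .ofNat (nat_lit 7890413), .ofNat (nat_lit
 1334579), .negSucc (nat_lit 2874982), .negSucc (nat_lit 10890264), .negSucc (nat_lit 4641887),
 .ofNat (nat_lit 3100075), .ofNat (nat_lit 5594512), .ofNat (nat_lit 677686), .ofNat (nat_lit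
 3108871), .negSucc (nat_lit 3883299), .ofNat (nat_lit 17288147), .ofNat (nat_lit 15766901)]),
 ((nat_lit 5, nat_lit 3, false), [.ofNat (nat_lit 95626310), .negSucc (nat_lit 52877528), .negSucc
 (nat_lit 29598242), .ofNat (nat_lit 1669274), .negSucc (nat_lit 46319926), .ofNat (nat_lit
 7427608), .negSucc (nat_lit 724044), .negSucc (nat_lit 298000), .ofNat (nat_lit 6879936), .ofNat
 (nat_lit 3218037), .negSucc (nat_lit 11497085), .negSucc (nat_lit 715809), .ofNat (nat_lit
 10543448), .negSucc (nat_lit 1132244), .ofNat (nat_lit 6480835), .ofNat (nat_lit 786070), .ofNat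
 (nat_lit 8952776), .negSucc (nat_lit 4723957), .ofNat (nat_lit 20520840)]), ((nat_lit 5, nat_lit
 4, false), [.negSucc (nat_lit 4988916), .ofNat (nat_lit 106594663), .ofNat (nat_lit 96826051),
 .ofNat (nat_lit 53278291), .negSucc (nat_lit 95801206), .negSucc (nat_lit 17797766), .ofNat
 (nat_lit 35764981), .ofNat (nat_lit 17996931), .ofNat (nat_lit 6514914), .negSucc (nat_lit
 20278831), .negSucc (nat_lit 29243448), .negSucc (nat_lit 17936853), .ofNat (nat_lit 7317795),
 .ofNat (nat_lit 782727), .negSucc (nat_lit 1753345), .negSucc (nat_lit 7244174), .ofNat (nat_lit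
 1021762), .ofNat (nat_lit 25337102), .ofNat (nat_lit 10137600), .ofNat (nat_lit 16421241)]),
 ((nat_lit 6, nat_lit 1, false), [.ofNat (nat_lit 41668749), .negSucc (nat_lit 10250930), .ofNat
 (nat_lit 11148404), .ofNat (nat_lit 17076981), .negSucc (nat_lit 23247629), .negSucc (nat_lit
 1185328), .ofNat (nat_lit 8641028), .ofNat (nat_lit 4251677), .ofNat (nat_lit 11000660), .negSucc
 (nat_lit 7367045), .negSucc (nat_lit 7390650), .negSucc (nat_lit 7046649), .negSucc (nat_lit
 4156083), .ofNat (nat_lit 2152857), .ofNat (nat_lit 1042762), .ofNat (nat_lit 310583), .ofNat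
 (nat_lit 1590515), .ofNat (nat_lit 352587), .ofNat (nat_lit 2110226), .ofNat (nat_lit 939520),
 .ofNat (nat_lit 13509665)]), ((nat_lit 6, nat_lit 2, false), [.ofNat (nat_lit 2467918), .ofNat
 (nat_lit 14953494), .ofNat (nat_lit 82448313), .ofNat (nat_lit 61475467), .negSucc (nat_lit
 533462), .negSucc (nat_lit 17485786), .ofNat (nat_lit 3549322), .ofNat (nat_lit 11243264),
 .negSucc (nat_lit 7669965), .ofNat (nat_lit 4444092), .negSucc (nat_lit 8991014), .negSucc
 (nat_lit 20668605), .negSucc (nat_lit 7479250), .negSucc (nat_lit 4130927), .negSucc (nat_lit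
 2409093), .ofNat (nat_lit 1782553), .negSucc (nat_lit 3372669), .ofNat (nat_lit 3672241),
 .negSucc (nat_lit 4565935), .ofNat (nat_lit 2973395), .ofNat (nat_lit 13743346), .ofNat (nat_lit
 16637045)]), ((nat_lit 6, nat_lit 3, false), [.ofNat (nat_lit 93741977), .negSucc (nat_lit
 99046126), .negSucc (nat_lit 64368034), .negSucc (nat_lit 8595294), .ofNat (nat_lit 2010783),
 .ofNat (nat_lit 21663706), .negSucc (nat_lit 15073204), .negSucc (nat_lit 8071825), .ofNat
 (nat_lit 78453), .ofNat (nat_lit 1086993), .ofNat (nat_lit 15498885), .negSucc (nat_lit 7204108),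
 .ofNat (nat_lit 9835629), .negSucc (nat_lit 2476233), .negSucc (nat_lit 3043699), .ofNat (nat_lit
 6296038), .ofNat (nat_lit 7232398), .negSucc (nat_lit 5397884), .ofNat (nat_lit 11428542),
 .negSucc (nat_lit 4143762), .ofNat (nat_lit 9750221), .negSucc (nat_lit 7829789), .ofNat (nat_lit
 20485354)]), ((nat_lit 6, nat_lit 4, false), [.ofNat (nat_lit 254662), .negSucc (nat_lit
 1861067), .negSucc (nat_lit 12851294), .negSucc (nat_lit 12072895), .negSucc (nat_lit 7380985),
 .ofNat (nat_lit 5457976), .ofNat (nat_lit 2811000), .negSucc (nat_lit 3706596), .ofNat (nat_lit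
 1707056), .ofNat (nat_lit 715015), .negSucc (nat_lit 913894), .ofNat (nat_lit 11133738), .ofNat
 (nat_lit 2102314), .negSucc (nat_lit 4723167), .ofNat (nat_lit 1406257), .negSucc (nat_lit
 2761940), .negSucc (nat_lit 1926322), .ofNat (nat_lit 3125259), .ofNat (nat_lit 1387247), .ofNat
 (nat_lit 4333709), .ofNat (nat_lit 3876124), .ofNat (nat_lit 12498752), .ofNat (nat_lit 5757620),
 .ofNat (nat_lit 17372133)]), ((nat_lit 8, nat_lit 1, false), [.ofNat (nat_lit 7998943), .negSucc
 (nat_lit 2066671), .ofNat (nat_lit 26671074), .ofNat (nat_lit 21478203), .ofNat (nat_lit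
 5222167), .negSucc (nat_lit 11168330), .negSucc (nat_lit 1841428), .ofNat (nat_lit 3224656),
 .ofNat (nat_lit 1142133), .negSucc (nat_lit 2993079), .negSucc (nat_lit 4514495), .negSucc
 (nat_lit 2233835), .ofNat (nat_lit 12794812), .negSucc (nat_lit 1089559), .negSucc (nat_lit
 3659232), .negSucc (nat_lit 3089375), .negSucc (nat_lit 1358043), .negSucc (nat_lit 506334),
 .negSucc (nat_lit 4317170), .ofNat (nat_lit 1256914), .negSucc (nat_lit 635641), .ofNat (nat_lit
 4019552), .ofNat (nat_lit 170286), .negSucc (nat_lit 1742854), .ofNat (nat_lit 9569952)]),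
 ((nat_lit 8, nat_lit 2, false), [.ofNat (nat_lit 17467100), .negSucc (nat_lit 3998283), .ofNat
 (nat_lit 21909190), .ofNat (nat_lit 18164304), .negSucc (nat_lit 10941036), .negSucc (nat_lit
 5389233), .ofNat (nat_lit 3097921), .negSucc (nat_lit 7437014), .negSucc (nat_lit 3905788),
 .ofNat (nat_lit 1471415), .negSucc (nat_lit 3719502), .negSucc (nat_lit 2978745), .ofNat (nat_lit
 3293049), .ofNat (nat_lit 15343686), .ofNat (nat_lit 1733148), .negSucc (nat_lit 4669069),
 .negSucc (nat_lit 1850497), .negSucc (nat_lit 725256), .negSucc (nat_lit 457819), .ofNat (nat_lit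
 756983), .ofNat (nat_lit 1035327), .ofNat (nat_lit 3919106), .ofNat (nat_lit 1272833), .ofNat
 (nat_lit 1918856), .ofNat (nat_lit 10968528), .ofNat (nat_lit 11415774)]), ((nat_lit 8, nat_lit
 3, false), [.ofNat (nat_lit 44759978), .negSucc (nat_lit 34034762), .negSucc (nat_lit 34727323),
 .negSucc (nat_lit 8113050), .negSucc (nat_lit 21614242), .ofNat (nat_lit 8811922), .ofNat
 (nat_lit 2010634), .ofNat (nat_lit 864853), .ofNat (nat_lit 1798230), .negSucc (nat_lit 578528),
 .negSucc (nat_lit 2284038), .negSucc (nat_lit 2155157), .ofNat (nat_lit 6673545), .negSucc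
 (nat_lit 3166106), .ofNat (nat_lit 18423732), .ofNat (nat_lit 3712432), .ofNat (nat_lit 934978),
 .negSucc (nat_lit 361260), .ofNat (nat_lit 951240), .ofNat (nat_lit 2464167), .ofNat (nat_lit
 1338176), .negSucc (nat_lit 1124690), .ofNat (nat_lit 3025021), .negSucc (nat_lit 842744), .ofNat
 (nat_lit 5807511), .negSucc (nat_lit 6102647), .ofNat (nat_lit 12625931)]), ((nat_lit 8, nat_lit
 4, false), [.negSucc (nat_lit 16919909), .ofNat (nat_lit 8443382), .negSucc (nat_lit 15754208),
 .negSucc (nat_lit 21049324), .ofNat (nat_lit 11048625), .negSucc (nat_lit 4440542), .negSucc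
 (nat_lit 2621040), .negSucc (nat_lit 6003382), .negSucc (nat_lit 1434980), .negSucc (nat_lit
 399805), .ofNat (nat_lit 3874152), .ofNat (nat_lit 4835990), .negSucc (nat_lit 1555643), .ofNat
 (nat_lit 2368963), .negSucc (nat_lit 502279), .ofNat (nat_lit 20465212), .negSucc (nat_lit
 1346742), .ofNat (nat_lit 1769475), .negSucc (nat_lit 52542), .ofNat (nat_lit 2412666), .negSucc
 (nat_lit 891040), .ofNat (nat_lit 1810833), .negSucc (nat_lit 55572), .ofNat (nat_lit 1214969),
 .ofNat (nat_lit 337279), .ofNat (nat_lit 11469360), .ofNat (nat_lit 844160), .ofNat (nat_lit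
 8459124)]), ((nat_lit 7, nat_lit 1, false), [.negSucc (nat_lit 41566392), .ofNat (nat_lit
 23590162), .negSucc (nat_lit 6702632), .negSucc (nat_lit 17533772), .ofNat (nat_lit 17923636),
 .negSucc (nat_lit 697357), .negSucc (nat_lit 6232175), .ofNat (nat_lit 377441), .ofNat (nat_lit
 273910), .ofNat (nat_lit 1718711), .ofNat (nat_lit 7697257), .ofNat (nat_lit 2186950), .negSucc
 (nat_lit 2263596), .negSucc (nat_lit 2408048), .negSucc (nat_lit 4189099), .ofNat (nat_lit
 1605005), .negSucc (nat_lit 6003161), .negSucc (nat_lit 1150814), .negSucc (nat_lit 5473796),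
 .negSucc (nat_lit 1991129), .ofNat (nat_lit 852499), .ofNat (nat_lit 889386), .negSucc (nat_lit
 2680506), .negSucc (nat_lit 1284360), .negSucc (nat_lit 1144466), .ofNat (nat_lit 848959),
 .negSucc (nat_lit 825047), .negSucc (nat_lit 1090063), .ofNat (nat_lit 11096709)]), ((nat_lit 7,
 nat_lit 2, false), [.negSucc (nat_lit 9201354), .negSucc (nat_lit 19958317), .ofNat (nat_lit
 38953237), .ofNat (nat_lit 37737978), .ofNat (nat_lit 48892384), .negSucc (nat_lit 10918695),
 .negSucc (nat_lit 20480526), .ofNat (nat_lit 359379), .negSucc (nat_lit 11147832), .ofNat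
 (nat_lit 8152115), .ofNat (nat_lit 12876508), .negSucc (nat_lit 3047772), .negSucc (nat_lit
 9229972), .ofNat (nat_lit 2170896), .negSucc (nat_lit 9484909), .ofNat (nat_lit 1522137),
 .negSucc (nat_lit 8962349), .negSucc (nat_lit 8554787), .negSucc (nat_lit 11134442), .negSucc
 (nat_lit 7008539), .ofNat (nat_lit 3119426), .ofNat (nat_lit 2420019), .ofNat (nat_lit 1439919),
 .negSucc (nat_lit 4368879), .negSucc (nat_lit 2175324), .negSucc (nat_lit 128814), .ofNat
 (nat_lit 886792), .ofNat (nat_lit 1913224), .ofNat (nat_lit 21644024), .ofNat (nat_lit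
 13070327)]), ((nat_lit 7, nat_lit 3, false), [.negSucc (nat_lit 96196456), .ofNat (nat_lit
 44151010), .negSucc (nat_lit 102315656), .negSucc (nat_lit 111188653), .ofNat (nat_lit 27348335),
 .ofNat (nat_lit 21275533), .negSucc (nat_lit 10932681), .negSucc (nat_lit 7451281), .ofNat
 (nat_lit 12378439), .negSucc (nat_lit 565409), .ofNat (nat_lit 16390299), .ofNat (nat_lit
 17347764), .ofNat (nat_lit 1105091), .negSucc (nat_lit 7798158), .ofNat (nat_lit 2725300), .ofNat
 (nat_lit 4956811), .negSucc (nat_lit 4630804), .ofNat (nat_lit 1673711), .negSucc (nat_lit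
 6390123), .negSucc (nat_lit 3418826), .negSucc (nat_lit 1218171), .ofNat (nat_lit 784553),
 .negSucc (nat_lit 5782332), .negSucc (nat_lit 303534), .negSucc (nat_lit 1083421), .ofNat
 (nat_lit 2326336), .negSucc (nat_lit 4749891), .negSucc (nat_lit 6473952), .ofNat (nat_lit
 7528542), .negSucc (nat_lit 8545856), .ofNat (nat_lit 9921153)]), ((nat_lit 7, nat_lit 4, false),
 [.ofNat (nat_lit 18575184), .negSucc (nat_lit 62238624), .ofNat (nat_lit 11588423), .ofNat
 (nat_lit 30943973), .ofNat (nat_lit 58687704), .negSucc (nat_lit 1933031), .negSucc (nat_lit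
 25707578), .negSucc (nat_lit 8239679), .negSucc (nat_lit 11227589), .ofNat (nat_lit 10773227),
 .ofNat (nat_lit 14948900), .ofNat (nat_lit 298881), .negSucc (nat_lit 8398931), .ofNat (nat_lit
 3344586), .negSucc (nat_lit 5146594), .ofNat (nat_lit 3468000), .negSucc (nat_lit 4639218),
 .negSucc (nat_lit 10360120), .negSucc (nat_lit 9756737), .negSucc (nat_lit 10369628), .ofNat
 (nat_lit 1754787), .ofNat (nat_lit 2090322), .ofNat (nat_lit 3141444), .negSucc (nat_lit
 3375041), .negSucc (nat_lit 1182640), .negSucc (nat_lit 583501), .ofNat (nat_lit 1035406), .ofNat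
 (nat_lit 2180221), .ofNat (nat_lit 12555884), .ofNat (nat_lit 15146751), .ofNat (nat_lit
 2770485), .ofNat (nat_lit 5652689)]), ((nat_lit 10, nat_lit 1, false), [.negSucc (nat_lit
 1850239), .negSucc (nat_lit 65788444), .negSucc (nat_lit 47629043), .negSucc (nat_lit 24384981),
 .ofNat (nat_lit 70449288), .ofNat (nat_lit 13548708), .negSucc (nat_lit 18943424), .negSucc
 (nat_lit 15293523), .negSucc (nat_lit 10983683), .ofNat (nat_lit 11423258), .ofNat (nat_lit
 18149015), .ofNat (nat_lit 11988025), .negSucc (nat_lit 7303505), .ofNat (nat_lit 2170718),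
 .ofNat (nat_lit 313720), .ofNat (nat_lit 2787849), .ofNat (nat_lit 10189710), .negSucc (nat_lit
 8444562), .negSucc (nat_lit 9067747), .negSucc (nat_lit 8714835), .negSucc (nat_lit 3829407),
 .ofNat (nat_lit 2173585), .negSucc (nat_lit 1026488), .negSucc (nat_lit 2271157), .ofNat (nat_lit
 2562414), .negSucc (nat_lit 1209602), .ofNat (nat_lit 27592), .ofNat (nat_lit 2391943), .ofNat
 (nat_lit 850967), .negSucc (nat_lit 770927), .negSucc (nat_lit 910844), .ofNat (nat_lit 2669696),
 .ofNat (nat_lit 10065264)]), ((nat_lit 10, nat_lit 2, false), [.negSucc (nat_lit 8457521),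
 .negSucc (nat_lit 64562394), .negSucc (nat_lit 100827489), .negSucc (nat_lit 66601038), .ofNat
 (nat_lit 65157780), .ofNat (nat_lit 19922271), .negSucc (nat_lit 21840694), .negSucc (nat_lit
 15065151), .negSucc (nat_lit 1327127), .ofNat (nat_lit 8468831), .ofNat (nat_lit 19086501),
 .ofNat (nat_lit 17146922), .negSucc (nat_lit 2086435), .negSucc (nat_lit 2632319), .ofNat
 (nat_lit 2664407), .ofNat (nat_lit 7203413), .ofNat (nat_lit 6939220), .negSucc (nat_lit
 1651934), .negSucc (nat_lit 1927974), .negSucc (nat_lit 15091606), .negSucc (nat_lit 2347008),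
 .negSucc (nat_lit 1800913), .ofNat (nat_lit 1315267), .ofNat (nat_lit 609409), .ofNat (nat_lit
 2639279), .ofNat (nat_lit 2061652), .negSucc (nat_lit 749760), .negSucc (nat_lit 689334),
 .negSucc (nat_lit 3104574), .ofNat (nat_lit 92337), .negSucc (nat_lit 1581925), .ofNat (nat_lit
 3447192), .ofNat (nat_lit 20217450), .ofNat (nat_lit 11986581)]), ((nat_lit 10, nat_lit 3,
 false), [.negSucc (nat_lit 98334031), .ofNat (nat_lit 89895685), .ofNat (nat_lit 5535770),
 .negSucc (nat_lit 34518396), .ofNat (nat_lit 816883), .negSucc (nat_lit 13992491), .ofNat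
 (nat_lit 6517063), .negSucc (nat_lit 4627981), .ofNat (nat_lit 18022104), .ofNat (nat_lit
 7697281), .ofNat (nat_lit 322771), .ofNat (nat_lit 11363467), .negSucc (nat_lit 3870120), .ofNat
 (nat_lit 1318167), .negSucc (nat_lit 6039705), .ofNat (nat_lit 1094756), .negSucc (nat_lit
 2034450), .negSucc (nat_lit 2181223), .ofNat (nat_lit 8396702), .ofNat (nat_lit 919577), .negSucc
 (nat_lit 7022196), .ofNat (nat_lit 5309215), .negSucc (nat_lit 11702353), .negSucc (nat_lit
 4671535), .ofNat (nat_lit 3443888), .negSucc (nat_lit 2474180), .ofNat (nat_lit 3266327), .ofNat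
 (nat_lit 554873), .ofNat (nat_lit 7937149), .negSucc (nat_lit 6203371), .ofNat (nat_lit 3823435),
 .ofNat (nat_lit 7596435), .ofNat (nat_lit 5619598), .negSucc (nat_lit 7679268), .ofNat (nat_lit
 13257723)]), ((nat_lit 10, nat_lit 4, false), [.ofNat (nat_lit 2323029), .ofNat (nat_lit
 75155756), .ofNat (nat_lit 41803016), .ofNat (nat_lit 16360900), .negSucc (nat_lit 80902758),
 .negSucc (nat_lit 14224255), .ofNat (nat_lit 25615201), .ofNat (nat_lit 14084800), .ofNat
 (nat_lit 15394570), .negSucc (nat_lit 9897433), .negSucc (nat_lit 21267433), .negSucc (nat_lit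
 11624599), .ofNat (nat_lit 8028219), .negSucc (nat_lit 4182856), .negSucc (nat_lit 1031495),
 .negSucc (nat_lit 742219), .negSucc (nat_lit 8706090), .ofNat (nat_lit 16104239), .ofNat (nat_lit
 16556008), .ofNat (nat_lit 13816284), .negSucc (nat_lit 396777), .negSucc (nat_lit 3493624),
 .ofNat (nat_lit 63546), .negSucc (nat_lit 21697), .ofNat (nat_lit 209711), .ofNat (nat_lit
 3812051), .negSucc (nat_lit 1103160), .negSucc (nat_lit 4562025), .negSucc (nat_lit 3166905),
 .negSucc (nat_lit 1815665), .ofNat (nat_lit 1018515), .ofNat (nat_lit 2130831), .ofNat (nat_lit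
 10241618), .ofNat (nat_lit 14403237), .ofNat (nat_lit 2815451), .ofNat (nat_lit 4785238)]),
 ((nat_lit 9, nat_lit 1, false), [.negSucc (nat_lit 21773040), .ofNat (nat_lit 49584844), .ofNat
 (nat_lit 34745614), .ofNat (nat_lit 11096648), .negSucc (nat_lit 29655650), .negSucc (nat_lit
 5113014), .ofNat (nat_lit 15216317), .ofNat (nat_lit 5266400), .ofNat (nat_lit 7011963), .negSucc
 (nat_lit 7554358), .negSucc (nat_lit 8188556), .negSucc (nat_lit 7948662), .negSucc (nat_lit
 874620), .negSucc (nat_lit 66386), .negSucc (nat_lit 1701534), .negSucc (nat_lit 2101884),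
 .negSucc (nat_lit 462230), .ofNat (nat_lit 1582152), .negSucc (nat_lit 3832004), .ofNat (nat_lit
 4601965), .negSucc (nat_lit 4096031), .ofNat (nat_lit 3215814), .negSucc (nat_lit 2951991),
 .ofNat (nat_lit 3308691), .ofNat (nat_lit 1140943), .negSucc (nat_lit 658415), .negSucc (nat_lit
 86113), .ofNat (nat_lit 2223155), .ofNat (nat_lit 1850039), .negSucc (nat_lit 591949), .negSucc
 (nat_lit 422680), .negSucc (nat_lit 1286458), .ofNat (nat_lit 399059), .negSucc (nat_lit 528716),
 .ofNat (nat_lit 1640499), .ofNat (nat_lit 80328), .ofNat (nat_lit 10647779)]), ((nat_lit 9,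
 nat_lit 2, false), [.ofNat (nat_lit 63110688), .negSucc (nat_lit 19290974), .ofNat (nat_lit
 50010699), .ofNat (nat_lit 52209549), .negSucc (nat_lit 39468135), .negSucc (nat_lit 694439),
 .ofNat (nat_lit 15429507), .ofNat (nat_lit 1592542), .negSucc (nat_lit 3655611), .negSucc
 (nat_lit 3562058), .negSucc (nat_lit 17819461), .negSucc (nat_lit 11833834), .ofNat (nat_lit
 2154415), .ofNat (nat_lit 2919194), .ofNat (nat_lit 2109669), .negSucc (nat_lit 1689526), .ofNat
 (nat_lit 8400865), .negSucc (nat_lit 1861889), .negSucc (nat_lit 1882044), .ofNat (nat_lit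
 3509205), .negSucc (nat_lit 1317584), .negSucc (nat_lit 2302256), .ofNat (nat_lit 1836688),
 .ofNat (nat_lit 6317085), .ofNat (nat_lit 2536294), .negSucc (nat_lit 2516060), .ofNat (nat_lit
 2145014), .ofNat (nat_lit 3542712), .negSucc (nat_lit 561525), .ofNat (nat_lit 3734233), .negSucc
 (nat_lit 766853), .negSucc (nat_lit 957668), .negSucc (nat_lit 1250286), .negSucc (nat_lit
 507125), .negSucc (nat_lit 866942), .ofNat (nat_lit 657455), .ofNat (nat_lit 16185597), .ofNat
 (nat_lit 14779937)]), ((nat_lit 9, nat_lit 3, false), [.negSucc (nat_lit 74825535), .ofNat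
 (nat_lit 56582737), .ofNat (nat_lit 51538950), .ofNat (nat_lit 13301692), .ofNat (nat_lit
 23786445), .negSucc (nat_lit 9850837), .negSucc (nat_lit 2606719), .ofNat (nat_lit 11304758),
 .negSucc (nat_lit 7355674), .negSucc (nat_lit 5142187), .ofNat (nat_lit 10978597), .negSucc
 (nat_lit 13898173), .negSucc (nat_lit 6957804), .negSucc (nat_lit 468392), .ofNat (nat_lit
 166321), .negSucc (nat_lit 4148353), .negSucc (nat_lit 4353698), .ofNat (nat_lit 6702723),
 .negSucc (nat_lit 7582830), .ofNat (nat_lit 6504162), .negSucc (nat_lit 1466520), .ofNat (nat_lit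
 4103853), .negSucc (nat_lit 12422773), .ofNat (nat_lit 6207168), .ofNat (nat_lit 3180936),
 .negSucc (nat_lit 2161228), .negSucc (nat_lit 3788414), .ofNat (nat_lit 3416718), .ofNat (nat_lit
 3927881), .negSucc (nat_lit 4545512), .ofNat (nat_lit 3025647), .negSucc (nat_lit 4605665),
 .negSucc (nat_lit 1270686), .negSucc (nat_lit 1423583), .ofNat (nat_lit 4540067), .ofNat (nat_lit
 2157063), .ofNat (nat_lit 8746746), .negSucc (nat_lit 4467825), .ofNat (nat_lit 13288869)]),
 ((nat_lit 9, nat_lit 4, false), [.ofNat (nat_lit 25879663), .negSucc (nat_lit 77055797), .negSucc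
 (nat_lit 8686333), .ofNat (nat_lit 13168368), .ofNat (nat_lit 56683686), .ofNat (nat_lit
 10570411), .negSucc (nat_lit 17428125), .negSucc (nat_lit 12108158), .negSucc (nat_lit 17958793),
 .ofNat (nat_lit 13681569), .ofNat (nat_lit 11355321), .ofNat (nat_lit 6964844), .negSucc (nat_lit
 4983452), .ofNat (nat_lit 2763171), .ofNat (nat_lit 2520993), .ofNat (nat_lit 1122266), .ofNat
 (nat_lit 5649530), .negSucc (nat_lit 3399042), .negSucc (nat_lit 7094405), .negSucc (nat_lit
 5297221), .negSucc (nat_lit 240879), .negSucc (nat_lit 1630596), .ofNat (nat_lit 2240151),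
 .negSucc (nat_lit 6457531), .ofNat (nat_lit 2246530), .negSucc (nat_lit 2883453), .ofNat (nat_lit
 1383028), .ofNat (nat_lit 1428413), .ofNat (nat_lit 53084), .ofNat (nat_lit 2625156), .negSucc
 (nat_lit 1515737), .negSucc (nat_lit 711771), .negSucc (nat_lit 2190510), .negSucc (nat_lit
 854404), .negSucc (nat_lit 2394464), .negSucc (nat_lit 1582795), .ofNat (nat_lit 4661146), .ofNat
 (nat_lit 18102614), .ofNat (nat_lit 5575399), .ofNat (nat_lit 7107354)]), ((nat_lit 12, nat_lit
 1, false), [.ofNat (nat_lit 16658919), .negSucc (nat_lit 11348088), .negSucc (nat_lit 27693199),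
 .negSucc (nat_lit 15728286), .negSucc (nat_lit 12115995), .ofNat (nat_lit 3653152), .ofNat
 (nat_lit 1106312), .negSucc (nat_lit 3462986), .ofNat (nat_lit 8572006), .negSucc (nat_lit
 1871649), .negSucc (nat_lit 3566033), .ofNat (nat_lit 7852876), .ofNat (nat_lit 3232404), .ofNat
 (nat_lit 2480882), .ofNat (nat_lit 4261628), .negSucc (nat_lit 364419), .ofNat (nat_lit 1598038),
 .negSucc (nat_lit 1346438), .ofNat (nat_lit 4488650), .negSucc (nat_lit 1547053), .ofNat (nat_lit
 10813319), .negSucc (nat_lit 4813744), .negSucc (nat_lit 2806638), .negSucc (nat_lit 3571692),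
 .negSucc (nat_lit 4803471), .ofNat (nat_lit 2306456), .negSucc (nat_lit 446575), .ofNat (nat_lit
 857087), .negSucc (nat_lit 1133345), .negSucc (nat_lit 715612), .negSucc (nat_lit 1653315),
 .ofNat (nat_lit 2447535), .ofNat (nat_lit 1597309), .ofNat (nat_lit 262380), .negSucc (nat_lit
 385109), .negSucc (nat_lit 953331), .ofNat (nat_lit 1700329), .negSucc (nat_lit 235753), .negSucc
 (nat_lit 1622195), .negSucc (nat_lit 2128300), .ofNat (nat_lit 9224009)]), ((nat_lit 12, nat_lit
 2, false), [.negSucc (nat_lit 33289399), .ofNat (nat_lit 6984567), .negSucc (nat_lit 26263946),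
 .negSucc (nat_lit 27577609), .ofNat (nat_lit 18630173), .ofNat (nat_lit 4227331), .negSucc
 (nat_lit 8448097), .negSucc (nat_lit 2892317), .negSucc (nat_lit 746680), .ofNat (nat_lit
 3081119), .ofNat (nat_lit 8282477), .ofNat (nat_lit 4001927), .ofNat (nat_lit 1942925), .negSucc
 (nat_lit 233573), .negSucc (nat_lit 493629), .ofNat (nat_lit 2499706), .negSucc (nat_lit 595675),
 .negSucc (nat_lit 808236), .negSucc (nat_lit 1950462), .negSucc (nat_lit 3922965), .ofNat
 (nat_lit 2076849), .ofNat (nat_lit 4185630), .negSucc (nat_lit 2989282), .negSucc (nat_lit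
 9747361), .negSucc (nat_lit 5862171), .negSucc (nat_lit 605456), .negSucc (nat_lit 621981),
 .negSucc (nat_lit 1187858), .negSucc (nat_lit 1188095), .negSucc (nat_lit 2633090), .negSucc
 (nat_lit 175165), .negSucc (nat_lit 572499), .negSucc (nat_lit 32099), .ofNat (nat_lit 2479776),
 .negSucc (nat_lit 880353), .ofNat (nat_lit 1727750), .negSucc (nat_lit 709113), .ofNat (nat_lit
 2628472), .ofNat (nat_lit 343180), .negSucc (nat_lit 240243), .ofNat (nat_lit 18852243), .ofNat
 (nat_lit 10306741)]), ((nat_lit 12, nat_lit 3, false), [.ofNat (nat_lit 3717554), .ofNat (nat_lit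
 845897), .ofNat (nat_lit 70100003), .ofNat (nat_lit 57921417), .ofNat (nat_lit 11590595),
 .negSucc (nat_lit 15650532), .ofNat (nat_lit 5830941), .ofNat (nat_lit 3449980), .negSucc
 (nat_lit 15042446), .ofNat (nat_lit 1405297), .negSucc (nat_lit 4912028), .negSucc (nat_lit
 3412065), .negSucc (nat_lit 5184391), .ofNat (nat_lit 5000902), .negSucc (nat_lit 1801698),
 .negSucc (nat_lit 7541250), .negSucc (nat_lit 3663749), .ofNat (nat_lit 1195304), .negSucc
 (nat_lit 6800207), .ofNat (nat_lit 2684141), .ofNat (nat_lit 571063), .ofNat (nat_lit 1157946),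
 .ofNat (nat_lit 11339792), .negSucc (nat_lit 5572135), .negSucc (nat_lit 23349), .negSucc
 (nat_lit 3171526), .negSucc (nat_lit 7142912), .ofNat (nat_lit 13914440), .ofNat (nat_lit
 6596342), .negSucc (nat_lit 5557950), .negSucc (nat_lit 669060), .ofNat (nat_lit 4638314), .ofNat
 (nat_lit 1696827), .negSucc (nat_lit 1865874), .ofNat (nat_lit 7155454), .negSucc (nat_lit
 1024759), .ofNat (nat_lit 3252041), .negSucc (nat_lit 1777658), .ofNat (nat_lit 2420401),
 .negSucc (nat_lit 1328402), .ofNat (nat_lit 1928349), .negSucc (nat_lit 5285828), .ofNat (nat_lit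
 12509386)]), ((nat_lit 12, nat_lit 4, false), [.ofNat (nat_lit 6376750), .ofNat (nat_lit
 10300011), .ofNat (nat_lit 6731198), .ofNat (nat_lit 2471243), .negSucc (nat_lit 14485669),
 .negSucc (nat_lit 319290), .ofNat (nat_lit 5340947), .ofNat (nat_lit 6598093), .ofNat (nat_lit
 268171), .negSucc (nat_lit 7280637), .ofNat (nat_lit 594974), .negSucc (nat_lit 2799410),
 .negSucc (nat_lit 997994), .ofNat (nat_lit 2911933), .negSucc (nat_lit 1276895), .negSucc
 (nat_lit 3587530), .negSucc (nat_lit 664829), .ofNat (nat_lit 791989), .negSucc (nat_lit 654101),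
 .ofNat (nat_lit 1027855), .negSucc (nat_lit 6716791), .ofNat (nat_lit 4270860), .ofNat (nat_lit
 4874940), .ofNat (nat_lit 10572358), .negSucc (nat_lit 845349), .negSucc (nat_lit 4112517),
 .ofNat (nat_lit 1104432), .negSucc (nat_lit 2934403), .ofNat (nat_lit 1808982), .negSucc (nat_lit
 2311449), .ofNat (nat_lit 1400481), .negSucc (nat_lit 856853), .negSucc (nat_lit 887569), .ofNat
 (nat_lit 567967), .ofNat (nat_lit 538371), .ofNat (nat_lit 2637293), .negSucc (nat_lit 2328978),
 .ofNat (nat_lit 1965087), .ofNat (nat_lit 2322142), .ofNat (nat_lit 2734772), .ofNat (nat_lit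
 9464370), .ofNat (nat_lit 11896352), .ofNat (nat_lit 3839092), .ofNat (nat_lit 2537647)]),
 ((nat_lit 16, nat_lit 1, false), [.negSucc (nat_lit 8265847), .ofNat (nat_lit 8862778), .ofNat
 (nat_lit 12697306), .ofNat (nat_lit 7878814), .ofNat (nat_lit 2417185), .negSucc (nat_lit
 3834504), .negSucc (nat_lit 1355077), .ofNat (nat_lit 7526714), .ofNat (nat_lit 1356723),
 .negSucc (nat_lit 1961521), .ofNat (nat_lit 1166505), .negSucc (nat_lit 1352615), .ofNat (nat_lit
 2835428), .negSucc (nat_lit 5760335), .negSucc (nat_lit 4432149), .negSucc (nat_lit 2108071),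
 .ofNat (nat_lit 280227), .negSucc (nat_lit 826696), .negSucc (nat_lit 2159514), .negSucc (nat_lit
 1633098), .negSucc (nat_lit 223014), .ofNat (nat_lit 1191041), .negSucc (nat_lit 209921),
 .negSucc (nat_lit 2056160), .ofNat (nat_lit 9486198), .ofNat (nat_lit 772983), .ofNat (nat_lit
 670579), .negSucc (nat_lit 3853561), .ofNat (nat_lit 865613), .negSucc (nat_lit 564943), .ofNat
 (nat_lit 935170), .negSucc (nat_lit 1983870), .negSucc (nat_lit 1492995), .ofNat (nat_lit
 183153), .negSucc (nat_lit 1429638), .ofNat (nat_lit 1390047), .negSucc (nat_lit 655599),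
 .negSucc (nat_lit 409055), .ofNat (nat_lit 92494), .ofNat (nat_lit 926778), .ofNat (nat_lit
 2206538), .ofNat (nat_lit 609703), .ofNat (nat_lit 1504283), .negSucc (nat_lit 2260784), .ofNat
 (nat_lit 4280723)]), ((nat_lit 16, nat_lit 2, false), [.ofNat (nat_lit 9154636), .negSucc
 (nat_lit 393654), .ofNat (nat_lit 19236893), .ofNat (nat_lit 20766690), .negSucc (nat_lit
 6196663), .negSucc (nat_lit 3173084), .ofNat (nat_lit 1767494), .ofNat (nat_lit 8604132), .ofNat
 (nat_lit 2210523), .ofNat (nat_lit 305191), .ofNat (nat_lit 6797), .negSucc (nat_lit 3770199),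
 .negSucc (nat_lit 4290761), .negSucc (nat_lit 4829363), .ofNat (nat_lit 1212926), .negSucc
 (nat_lit 8301952), .ofNat (nat_lit 388995), .negSucc (nat_lit 95471), .ofNat (nat_lit 2303744),
 .negSucc (nat_lit 3021015), .ofNat (nat_lit 44258), .negSucc (nat_lit 1587406), .ofNat (nat_lit
 134288), .ofNat (nat_lit 805261), .ofNat (nat_lit 7935562), .ofNat (nat_lit 13115791), .ofNat
 (nat_lit 2674434), .negSucc (nat_lit 3677590), .ofNat (nat_lit 2192316), .negSucc (nat_lit
 615477), .ofNat (nat_lit 1223299), .negSucc (nat_lit 3012748), .negSucc (nat_lit 1844504),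
 .negSucc (nat_lit 1072713), .negSucc (nat_lit 1636780), .ofNat (nat_lit 2342300), .negSucc
 (nat_lit 1322234), .negSucc (nat_lit 1176644), .ofNat (nat_lit 571113), .ofNat (nat_lit 1856168),
 .ofNat (nat_lit 3369881), .ofNat (nat_lit 2532731), .ofNat (nat_lit 6051229), .negSucc (nat_lit
 2868216), .ofNat (nat_lit 10048285), .ofNat (nat_lit 3568215)]), ((nat_lit 16, nat_lit 3, false),
 [.ofNat (nat_lit 19169549), .negSucc (nat_lit 14480471), .ofNat (nat_lit 16450007), .ofNat
 (nat_lit 21470811), .negSucc (nat_lit 1219394), .ofNat (nat_lit 1031534), .negSucc (nat_lit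
 3097803), .negSucc (nat_lit 1189860), .negSucc (nat_lit 3189911), .negSucc (nat_lit 740479),
 .negSucc (nat_lit 3818405), .negSucc (nat_lit 5451968), .negSucc (nat_lit 3472195), .ofNat
 (nat_lit 710731), .ofNat (nat_lit 270685), .ofNat (nat_lit 3131354), .negSucc (nat_lit 305678),
 .ofNat (nat_lit 858923), .negSucc (nat_lit 3272905), .ofNat (nat_lit 3475153), .negSucc (nat_lit
 750948), .negSucc (nat_lit 22792), .ofNat (nat_lit 1803189), .negSucc (nat_lit 3309239), .ofNat
 (nat_lit 7583290), .negSucc (nat_lit 7439391), .ofNat (nat_lit 13656944), .ofNat (nat_lit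
 3292078), .ofNat (nat_lit 1086721), .negSucc (nat_lit 1070744), .ofNat (nat_lit 708728), .ofNat
 (nat_lit 255386), .negSucc (nat_lit 398799), .negSucc (nat_lit 82813), .ofNat (nat_lit 166528),
 .ofNat (nat_lit 74375), .ofNat (nat_lit 260312), .negSucc (nat_lit 431467), .ofNat (nat_lit
 138086), .negSucc (nat_lit 62105), .ofNat (nat_lit 561326), .ofNat (nat_lit 599246), .ofNat
 (nat_lit 753827), .negSucc (nat_lit 237915), .negSucc (nat_lit 1064824), .negSucc (nat_lit
 3632400), .ofNat (nat_lit 1437896)]), ((nat_lit 16, nat_lit 4, false), [.negSucc (nat_lit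
 10583992), .ofNat (nat_lit 2665554), .negSucc (nat_lit 4132759), .negSucc (nat_lit 3577942),
 .ofNat (nat_lit 7750027), .ofNat (nat_lit 1518569), .negSucc (nat_lit 105717), .negSucc (nat_lit
 3967809), .ofNat (nat_lit 1643732), .ofNat (nat_lit 147210), .negSucc (nat_lit 269933), .ofNat
 (nat_lit 431611), .negSucc (nat_lit 4275579), .negSucc (nat_lit 5884742), .ofNat (nat_lit
 2367384), .ofNat (nat_lit 2744964), .negSucc (nat_lit 747099), .ofNat (nat_lit 2700698), .ofNat
 (nat_lit 553509), .ofNat (nat_lit 1572804), .negSucc (nat_lit 2269015), .negSucc (nat_lit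
 885643), .negSucc (nat_lit 839077), .ofNat (nat_lit 417061), .negSucc (nat_lit 2627859), .ofNat
 (nat_lit 12386771), .ofNat (nat_lit 2823269), .ofNat (nat_lit 8594718), .ofNat (nat_lit 1329098),
 .negSucc (nat_lit 81232), .ofNat (nat_lit 306849), .negSucc (nat_lit 1007561), .negSucc (nat_lit
 337140), .negSucc (nat_lit 1242971), .negSucc (nat_lit 208264), .ofNat (nat_lit 1038211),
 .negSucc (nat_lit 676746), .negSucc (nat_lit 769763), .ofNat (nat_lit 475430), .ofNat (nat_lit
 1018851), .ofNat (nat_lit 1153436), .ofNat (nat_lit 1910590), .ofNat (nat_lit 4487210), .negSucc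
 (nat_lit 532084), .ofNat (nat_lit 5885772), .ofNat (nat_lit 3547919), .ofNat (nat_lit 51674),
 .ofNat (nat_lit 237854)])]

/-- the commands -/
noncomputable def C7 : List Cmd := [.m (nat_lit 2) (nat_lit 25) B7_0, .m (nat_lit 2) (nat_lit 25)
 B7_1]

theorem c_ok7 : okL 6 ES C7 = true := by decide +kernel

theorem t_ok7 : eqT (run (.ofNat (nat_lit 28)) (.ofNat (nat_lit 25)) XT DD C7 U6) U7 = true := by decide +kernel

end Pool.Agent.H58.BJ.D6
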