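import Pool.Agent.H58.BJ.D6.D

/-! # Certificate data (6 jets, exponent 28/25) -/

set_option autoImplicit false

namespace Pool.Agent.H58.BJ.D6

open Pool.Agent.H58.BJ

/-- result of the first 8 groups -/
noncomputable def U8 : Tr := (.nd (.nd (.nd (.nd (.nd (.nd (.nd .e (.nd (.nd (.nd (.nd (.nd (.nd
 (.nd (.nd .e (.nd (.lf (.negSucc (nat_lit 136412525777550349))) .e)) (.nd (.nd (.lf (.negSucc
 (nat_lit 408314675215402687))) .e) .e)) (.nd (.nd (.nd (.lf (.negSucc (nat_lit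
 167897700971211103))) .e) .e) (.nd (.nd (.lf (.negSucc (nat_lit 374081005626066599))) .e) .e)))
 (.nd (.nd (.nd (.nd (.lf (.negSucc (nat_lit 4547826185002295))) .e) .e) (.nd (.nd (.lf (.negSucc
 (nat_lit 82124382677065599))) .e) .e)) (.nd (.nd (.nd (.lf (.negSucc (nat_lit
 825292366268642719))) .e) .e) .e))) (.nd (.nd (.nd (.nd (.nd (.lf (.ofNat (nat_lit
 10014324797407584))) .e) .e) (.nd (.nd (.lf (.negSucc (nat_lit 172540583815981999))) .e) .e))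
 (.nd (.nd (.nd (.lf (.negSucc (nat_lit 143172589076749447))) .e) .e) .e)) (.nd (.nd (.nd (.nd
 (.lf (.negSucc (nat_lit 457196434733175535))) .e) .e) .e) (.nd (.nd (.nd (.lf (.ofNat (nat_lit
 12363780301971900))) .e) .e) .e)))) (.nd (.nd (.nd (.nd (.nd (.nd (.lf (.ofNat (nat_lit
 2013646106250668))) .e) .e) .e) (.nd (.nd (.nd (.lf (.negSucc (nat_lit 50571382322134723))) .e)
 .e) .e)) (.nd (.nd (.nd (.nd (.lf (.negSucc (nat_lit 62943041614444855))) .e) .e) .e) .e)) (.nd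
 (.nd (.nd (.nd (.nd (.lf (.negSucc (nat_lit 68650231849253531))) .e) .e) .e) (.nd (.nd (.nd (.lf
 (.negSucc (nat_lit 12703326771324899))) .e) .e) .e)) (.nd (.nd (.nd (.nd (.lf (.ofNat (nat_lit
 22969098852331720))) .e) .e) .e) (.nd (.nd (.nd (.lf (.ofNat (nat_lit 19972852493725800))) .e)
 .e) .e))))) (.nd (.nd (.nd (.nd (.nd (.nd (.nd (.lf (.ofNat (nat_lit 39817808076060))) .e) .e)
 .e) .e) (.nd (.nd (.nd (.nd (.lf (.negSucc (nat_lit 11192079331726255))) .e) .e) .e) (.nd (.nd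
 (.nd (.lf (.negSucc (nat_lit 20872998298224199))) .e) .e) .e))) (.nd (.nd (.nd (.nd (.nd (.lf
 (.negSucc (nat_lit 14393354998124395))) .e) .e) .e) (.nd (.nd (.nd (.lf (.ofNat (nat_lit
 23890430690617500))) .e) .e) .e)) (.nd (.nd (.nd (.nd (.lf (.ofNat (nat_lit 734446159137600)))
 .e) .e) .e) .e))) (.nd (.nd (.nd (.nd (.nd (.nd (.lf (.negSucc (nat_lit 2466530734239207))) .e)
 .e) .e) .e) (.nd (.nd (.nd (.nd (.lf (.negSucc (nat_lit 9635364834428139))) .e) .e) .e) (.nd (.nd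
 (.nd (.lf (.ofNat (nat_lit 5606476904832700))) .e) .e) .e))) (.nd (.nd (.nd (.nd (.nd (.lf
 (.ofNat (nat_lit 14562635428047320))) .e) .e) .e) .e) (.nd (.nd (.nd (.nd (.lf (.ofNat (nat_lit
 4716135114056224))) .e) .e) .e) .e))))) .e)) (.nd (.nd (.nd (.nd (.nd (.nd (.nd (.nd .e (.nd (.nd
 (.lf (.negSucc (nat_lit 521550045847419789))) .e) .e)) (.nd (.nd (.nd (.lf (.negSucc (nat_lit
 720464333484550851))) .e) .e) .e)) (.nd (.nd (.nd (.nd (.lf (.negSucc (nat_lit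
 408682422414991983))) .e) .e) .e) (.nd (.nd (.nd (.lf (.negSucc (nat_lit 2228002975057935531)))
 .e) .e) .e))) (.nd (.nd (.nd (.nd (.nd (.lf (.negSucc (nat_lit 86325677156220399))) .e) .e) .e)
 (.nd (.nd (.nd (.lf (.negSucc (nat_lit 575228604547989491))) .e) .e) .e)) (.nd (.nd (.nd (.nd
 (.lf (.negSucc (nat_lit 1651996110596592715))) .e) .e) .e) (.nd (.nd (.nd (.lf (.ofNat (nat_lit
 25822441423934700))) .e) .e) .e)))) (.nd (.nd (.nd (.nd (.nd (.nd (.lf (.negSucc (nat_lit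
 20551978266358211))) .e) .e) .e) (.nd (.nd (.nd (.lf (.negSucc (nat_lit 108555426343718283))) .e)
 .e) .e)) (.nd (.nd (.nd (.nd (.lf (.negSucc (nat_lit 477064900389006383))) .e) .e) .e) .e)) (.nd
 (.nd (.nd (.nd (.nd (.lf (.negSucc (nat_lit 527688132039517567))) .e) .e) .e) (.nd (.nd (.nd (.lf
 (.negSucc (nat_lit 13111647323693759))) .e) .e) .e)) (.nd (.nd (.nd (.nd (.lf (.ofNat (nat_lit
 43770141528491140))) .e) .e) .e) (.nd (.nd (.nd (.lf (.negSucc (nat_lit 187683979638875711))) .e)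
 .e) .e))))) (.nd (.nd (.nd (.nd (.nd (.nd (.nd (.lf (.negSucc (nat_lit 2614360654842419))) .e)
 .e) .e) .e) (.nd (.nd (.nd (.nd (.lf (.negSucc (nat_lit 14497431543458803))) .e) .e) .e) (.nd
 (.nd (.nd (.lf (.negSucc (nat_lit 19192677143131615))) .e) .e) .e))) (.nd (.nd (.nd (.nd (.nd
 (.lf (.negSucc (nat_lit 109327358054353147))) .e) .e) .e) (.nd (.nd (.nd (.lf (.ofNat (nat_lit
 22915779644518580))) .e) .e) .e)) (.nd (.nd (.nd (.nd (.lf (.ofNat (nat_lit 773583117494880)))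
 .e) .e) .e) .e))) (.nd (.nd (.nd (.nd (.nd (.nd (.lf (.negSucc (nat_lit 54633751478551783))) .e)
 .e) .e) .e) (.nd (.nd (.nd (.nd (.lf (.negSucc (nat_lit 9764563552148299))) .e) .e) .e) (.nd (.nd
 (.nd (.lf (.ofNat (nat_lit 71786461080921656))) .e) .e) .e))) (.nd (.nd (.nd (.nd (.nd (.lf
 (.ofNat (nat_lit 17967537545546280))) .e) .e) .e) .e) (.nd (.nd (.nd (.nd (.lf (.negSucc (nat_lit
 91711729158349707))) .e) .e) .e) .e))))) .e) .e)) (.nd (.nd (.nd (.nd (.nd (.nd (.nd (.nd .e (.nd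
 (.nd (.nd (.lf (.negSucc (nat_lit 614396598253483075))) .e) .e) .e)) (.nd (.nd (.nd (.nd (.lf
 (.negSucc (nat_lit 389888783362109563))) .e) .e) .e) .e)) (.nd (.nd (.nd (.nd (.nd (.lf (.ofNat
 (nat_lit 375525799349949388))) .e) .e) .e) .e) (.nd (.nd (.nd (.nd (.lf (.negSucc (nat_lit
 3434651844903182935))) .e) .e) .e) .e))) (.nd (.nd (.nd (.nd (.nd (.nd (.lf (.ofNat (nat_lit
 34511224973020448))) .e) .e) .e) .e) (.nd (.nd (.nd (.nd (.lf (.negSucc (nat_lit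
 763312249329026239))) .e) .e) .e) .e)) (.nd (.nd (.nd (.nd (.nd (.lf (.negSucc (nat_lit
 2059664274136944175))) .e) .e) .e) .e) (.nd (.nd (.nd (.nd (.lf (.negSucc (nat_lit
 31844370264539019))) .e) .e) .e) .e)))) (.nd (.nd (.nd (.nd (.nd (.nd (.nd (.lf (.negSucc
 (nat_lit 858787410993163))) .e) .e) .e) .e) (.nd (.nd (.nd (.nd (.lf (.negSucc (nat_lit
 101112639552769439))) .e) .e) .e) .e)) (.nd (.nd (.nd (.nd (.nd (.lf (.negSucc (nat_lit
 283290110568360007))) .e) .e) .e) .e) (.nd (.nd (.nd (.nd (.lf (.negSucc (nat_lit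
 1380170850101903))) .e) .e) .e) .e))) (.nd (.nd (.nd (.nd (.nd (.nd (.lf (.negSucc (nat_lit
 308478036428056707))) .e) .e) .e) .e) (.nd (.nd (.nd (.nd (.lf (.ofNat (nat_lit
 18791412722987460))) .e) .e) .e) .e)) (.nd (.nd (.nd (.nd (.nd (.lf (.negSucc (nat_lit
 35137312494969899))) .e) .e) .e) .e) (.nd (.nd (.nd (.nd (.lf (.negSucc (nat_lit
 78208643392228023))) .e) .e) .e) .e))))) .e) .e) (.nd (.nd (.nd (.nd (.nd (.nd (.nd (.nd .e (.nd
 (.nd (.lf (.negSucc (nat_lit 674737282150211355))) .e) .e)) (.nd (.nd (.nd (.lf (.negSucc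
 (nat_lit 399507173821985163))) .e) .e) (.nd (.nd (.lf (.negSucc (nat_lit 1666034811468810199)))
 .e) .e))) (.nd (.nd (.nd (.nd (.lf (.negSucc (nat_lit 45706274505738983))) .e) .e) (.nd (.nd (.lf
 (.negSucc (nat_lit 2996380421384283499))) .e) .e)) (.nd (.nd (.nd (.lf (.negSucc (nat_lit
 4482919980386136855))) .e) .e) .e))) (.nd (.nd (.nd (.nd (.nd (.lf (.ofNat (nat_lit
 14797116377617732))) .e) .e) (.nd (.nd (.lf (.negSucc (nat_lit 2517694375826500599))) .e) .e))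
 (.nd (.nd (.nd (.lf (.negSucc (nat_lit 3440991541534560959))) .e) .e) .e)) (.nd (.nd (.nd (.nd
 (.lf (.negSucc (nat_lit 2642927581586658975))) .e) .e) .e) (.nd (.nd (.nd (.lf (.negSucc (nat_lit
 837616118214048699))) .e) .e) .e)))) (.nd (.nd (.nd (.nd (.nd (.nd (.lf (.ofNat (nat_lit
 3248766388950400))) .e) .e) .e) (.nd (.nd (.nd (.lf (.negSucc (nat_lit 1668461651927960959))) .e)
 .e) .e)) (.nd (.nd (.nd (.nd (.lf (.negSucc (nat_lit 1059260656864957067))) .e) .e) .e) .e)) (.nd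
 (.nd (.nd (.nd (.nd (.lf (.negSucc (nat_lit 435450652517724631))) .e) .e) .e) (.nd (.nd (.nd (.lf
 (.ofNat (nat_lit 26763942458611800))) .e) .e) .e)) (.nd (.nd (.nd (.nd (.lf (.negSucc (nat_lit
 786133090698732019))) .e) .e) .e) (.nd (.nd (.nd (.lf (.negSucc (nat_lit 130731343729477999)))
 .e) .e) .e))))) (.nd (.nd (.nd (.nd (.nd (.nd (.nd (.lf (.ofNat (nat_lit 277926788403600))) .e)
 .e) .e) .e) (.nd (.nd (.nd (.nd (.lf (.negSucc (nat_lit 424413335078797683))) .e) .e) .e) (.nd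
 (.nd (.nd (.lf (.negSucc (nat_lit 105718299092123699))) .e) .e) .e))) (.nd (.nd (.nd (.nd (.nd
 (.lf (.negSucc (nat_lit 75172917315729331))) .e) .e) .e) (.nd (.nd (.nd (.lf (.ofNat (nat_lit
 245408321308556200))) .e) .e) .e)) (.nd (.nd (.nd (.nd (.lf (.negSucc (nat_lit
 1300765913596799))) .e) .e) .e) .e))) (.nd (.nd (.nd (.nd (.nd (.nd (.lf (.negSucc (nat_lit
 59349641577095959))) .e) .e) .e) .e) (.nd (.nd (.nd (.nd (.lf (.ofNat (nat_lit
 20894548278595700))) .e) .e) .e) (.nd (.nd (.nd (.lf (.ofNat (nat_lit 87388014587903700))) .e)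
 .e) .e))) (.nd (.nd (.nd (.nd (.nd (.lf (.negSucc (nat_lit 103764914072482899))) .e) .e) .e) .e)
 (.nd (.nd (.nd (.nd (.lf (.negSucc (nat_lit 204713010778261063))) .e) .e) .e) .e))))) .e) .e)))
 (.nd (.nd (.nd (.nd (.nd (.nd (.nd (.nd .e (.nd (.nd (.nd (.nd (.lf (.negSucc (nat_lit
 167042385304626771))) .e) .e) .e) .e)) (.nd (.nd (.nd (.nd (.nd (.lf (.ofNat (nat_lit
 599342397968859608))) .e) .e) .e) .e) .e)) (.nd (.nd (.nd (.nd (.nd (.nd (.lf (.ofNat (nat_lit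
 117769072016955028))) .e) .e) .e) .e) .e) (.nd (.nd (.nd (.nd (.nd (.lf (.negSucc (nat_lit
 2455592055078399767))) .e) .e) .e) .e) .e))) (.nd (.nd (.nd (.nd (.nd (.nd (.nd (.lf (.ofNat
 (nat_lit 39909841279146944))) .e) .e) .e) .e) .e) (.nd (.nd (.nd (.nd (.nd (.lf (.negSucc
 (nat_lit 281520607394689675))) .e) .e) .e) .e) .e)) (.nd (.nd (.nd (.nd (.nd (.nd (.lf (.negSucc
 (nat_lit 461968005966570503))) .e) .e) .e) .e) .e) (.nd (.nd (.nd (.nd (.nd (.lf (.negSucc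
 (nat_lit 56811795508155979))) .e) .e) .e) .e) .e)))) .e) .e) (.nd (.nd (.nd (.nd (.nd (.nd (.nd
 (.nd .e (.nd (.nd (.lf (.negSucc (nat_lit 111633373377693619))) .e) .e)) (.nd (.nd (.nd (.lf
 (.negSucc (nat_lit 66333901759502207))) .e) .e) .e)) (.nd (.nd (.nd (.nd (.lf (.negSucc (nat_lit
 48524545295433651))) .e) .e) (.nd (.nd (.lf (.negSucc (nat_lit 5850085640025567499))) .e) .e))
 (.nd (.nd (.nd (.lf (.negSucc (nat_lit 2591542972792447807))) .e) .e) .e))) (.nd (.nd (.nd (.nd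
 (.nd (.lf (.negSucc (nat_lit 21361336203921335))) .e) .e) (.nd (.nd (.lf (.negSucc (nat_lit
 5352727902357176799))) .e) .e)) (.nd (.nd (.nd (.lf (.negSucc (nat_lit 7050171797266920739))) .e)
 .e) .e)) (.nd (.nd (.nd (.nd (.lf (.negSucc (nat_lit 1002960655080817635))) .e) .e) .e) (.nd (.nd
 (.nd (.lf (.negSucc (nat_lit 11454263438953473199))) .e) .e) .e)))) (.nd (.nd (.nd (.nd (.nd (.nd
 (.lf (.negSucc (nat_lit 6289244618210603))) .e) .e) .e) (.nd (.nd (.nd (.lf (.negSucc (nat_lit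
 2770485028278189527))) .e) .e) .e)) (.nd (.nd (.nd (.nd (.lf (.negSucc (nat_lit
 875088132252184423))) .e) .e) .e) .e)) (.nd (.nd (.nd (.nd (.nd (.lf (.negSucc (nat_lit
 158776202072591443))) .e) .e) .e) (.nd (.nd (.nd (.lf (.negSucc (nat_lit 2483126288691747599)))
 .e) .e) .e)) (.nd (.nd (.nd (.nd (.lf (.negSucc (nat_lit 8463134275630449059))) .e) .e) .e) (.nd
 (.nd (.nd (.lf (.negSucc (nat_lit 5592326681694936599))) .e) .e) .e))))) (.nd (.nd (.nd (.nd (.nd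
 (.nd (.nd (.lf (.negSucc (nat_lit 1022232887594427))) .e) .e) .e) .e) (.nd (.nd (.nd (.nd (.lf
 (.negSucc (nat_lit 157886229973672819))) .e) .e) .e) (.nd (.nd (.nd (.lf (.negSucc (nat_lit
 125705750565153099))) .e) .e) .e))) (.nd (.nd (.nd (.nd (.nd (.lf (.negSucc (nat_lit
 49491779661466995))) .e) .e) .e) (.nd (.nd (.nd (.lf (.ofNat (nat_lit 251120919570872500))) .e)
 .e) .e)) (.nd (.nd (.nd (.nd (.lf (.ofNat (nat_lit 440517704793600))) .e) .e) .e) .e))) (.nd (.nd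
 (.nd (.nd (.nd (.nd (.lf (.negSucc (nat_lit 22541955435634779))) .e) .e) .e) .e) (.nd (.nd (.nd
 (.nd (.lf (.negSucc (nat_lit 1484486987144427459))) .e) .e) .e) (.nd (.nd (.nd (.lf (.ofNat
 (nat_lit 149968206749772800))) .e) .e) .e))) (.nd (.nd (.nd (.nd (.nd (.lf (.negSucc (nat_lit
 1254508416547671319))) .e) .e) .e) .e) (.nd (.nd (.nd (.nd (.lf (.negSucc (nat_lit
 3157577186371350939))) .e) .e) .e) .e))))) .e) .e)) (.nd (.nd (.nd (.nd (.nd (.nd (.nd (.nd .e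
 (.nd (.nd (.nd (.lf (.negSucc (nat_lit 1939414571078307571))) .e) .e) .e)) (.nd (.nd (.nd (.nd
 (.lf (.negSucc (nat_lit 848356978511258303))) .e) .e) .e) (.nd (.nd (.nd (.lf (.negSucc (nat_lit
 7203769522447519251))) .e) .e) .e))) (.nd (.nd (.nd (.nd (.nd (.lf (.negSucc (nat_lit
 143498818855539223))) .e) .e) .e) (.nd (.nd (.nd (.lf (.negSucc (nat_lit 10639761719649717799)))
 .e) .e) .e)) (.nd (.nd (.nd (.nd (.lf (.negSucc (nat_lit 9004163357432659475))) .e) .e) .e) .e)))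
 (.nd (.nd (.nd (.nd (.nd (.nd (.lf (.negSucc (nat_lit 13601123693825339))) .e) .e) .e) (.nd (.nd
 (.nd (.lf (.negSucc (nat_lit 4585921723671558467))) .e) .e) .e)) (.nd (.nd (.nd (.nd (.lf
 (.negSucc (nat_lit 7222563324378326615))) .e) .e) .e) .e)) (.nd (.nd (.nd (.nd (.nd (.lf
 (.negSucc (nat_lit 1810112953638160671))) .e) .e) .e) (.nd (.nd (.nd (.lf (.negSucc (nat_lit
 7482489697483983))) .e) .e) .e)) (.nd (.nd (.nd (.nd (.lf (.negSucc (nat_lit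
 2396487888117791699))) .e) .e) .e) .e)))) (.nd (.nd (.nd (.nd (.nd (.nd (.nd (.lf (.negSucc
 (nat_lit 618529015852467))) .e) .e) .e) .e) (.nd (.nd (.nd (.nd (.lf (.negSucc (nat_lit
 1825403822765434299))) .e) .e) .e) .e)) (.nd (.nd (.nd (.nd (.nd (.lf (.negSucc (nat_lit
 1234154046131273271))) .e) .e) .e) (.nd (.nd (.nd (.lf (.ofNat (nat_lit 304646655422047468))) .e)
 .e) .e)) (.nd (.nd (.nd (.nd (.lf (.ofNat (nat_lit 330809327622144))) .e) .e) .e) .e))) (.nd (.nd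
 (.nd (.nd (.nd (.nd (.lf (.negSucc (nat_lit 266211614773139211))) .e) .e) .e) .e) (.nd (.nd (.nd
 (.nd (.lf (.negSucc (nat_lit 4676097409761139))) .e) .e) .e) .e)) (.nd (.nd (.nd (.nd (.nd (.lf
 (.negSucc (nat_lit 1094508671111384479))) .e) .e) .e) .e) (.nd (.nd (.nd (.nd (.lf (.negSucc
 (nat_lit 574762522356001487))) .e) .e) .e) .e))))) .e) .e) .e))) (.nd (.nd (.nd (.nd (.nd (.nd
 (.nd (.nd .e (.nd (.nd (.nd (.nd (.nd (.lf (.ofNat (nat_lit 546253000159869840))) .e) .e) .e) .e)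
 .e)) (.nd (.nd (.nd (.nd (.nd (.nd (.lf (.ofNat (nat_lit 461136387563247004))) .e) .e) .e) .e)
 .e) .e)) (.nd (.nd (.nd (.nd (.nd (.nd (.nd (.lf (.ofNat (nat_lit 242951691662428308))) .e) .e)
 .e) .e) .e) .e) (.nd (.nd (.nd (.nd (.nd (.nd (.lf (.negSucc (nat_lit 590204170925037035))) .e)
 .e) .e) .e) .e) .e))) .e) .e) (.nd (.nd (.nd (.nd (.nd (.nd (.nd (.nd .e (.nd (.nd (.lf (.negSucc
 (nat_lit 235623148058700395))) .e) .e)) (.nd (.nd (.nd (.lf (.negSucc (nat_lit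
 363383119203039195))) .e) .e) .e)) (.nd (.nd (.nd (.nd (.lf (.negSucc (nat_lit
 73532558252531679))) .e) .e) .e) (.nd (.nd (.nd (.lf (.negSucc (nat_lit 2731370927495527491)))
 .e) .e) .e))) (.nd (.nd (.nd (.nd (.nd (.lf (.negSucc (nat_lit 3793322445174475))) .e) .e) (.nd
 (.nd (.lf (.negSucc (nat_lit 3998741436307298149))) .e) .e)) (.nd (.nd (.nd (.lf (.negSucc
 (nat_lit 4740000288191123019))) .e) .e) .e)) (.nd (.nd (.nd (.nd (.lf (.negSucc (nat_lit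
 2734281792085363911))) .e) .e) .e) (.nd (.nd (.nd (.lf (.negSucc (nat_lit 9563132451991619899)))
 .e) .e) .e)))) (.nd (.nd (.nd (.nd (.nd (.nd (.lf (.ofNat (nat_lit 1894192195398832))) .e) .e)
 .e) (.nd (.nd (.nd (.lf (.negSucc (nat_lit 4501715734635301291))) .e) .e) .e)) (.nd (.nd (.nd
 (.nd (.lf (.negSucc (nat_lit 1932346641815389851))) .e) .e) .e) .e)) (.nd (.nd (.nd (.nd (.nd
 (.lf (.negSucc (nat_lit 861406534518783055))) .e) .e) .e) (.nd (.nd (.nd (.lf (.negSucc (nat_lit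
 2451367824467486699))) .e) .e) .e)) (.nd (.nd (.nd (.nd (.lf (.negSucc (nat_lit
 7829311959502053659))) .e) .e) .e) (.nd (.nd (.nd (.lf (.negSucc (nat_lit 7546116696761920899)))
 .e) .e) .e))))) (.nd (.nd (.nd (.nd (.nd (.nd (.nd (.lf (.ofNat (nat_lit 266613536912068))) .e)
 .e) .e) .e) (.nd (.nd (.nd (.nd (.lf (.negSucc (nat_lit 800851773638006359))) .e) .e) .e) (.nd
 (.nd (.nd (.lf (.ofNat (nat_lit 244966801743782400))) .e) .e) .e))) (.nd (.nd (.nd (.nd (.nd (.lf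
 (.negSucc (nat_lit 230775177488218359))) .e) .e) .e) (.nd (.nd (.nd (.lf (.negSucc (nat_lit
 374422280128082799))) .e) .e) .e)) (.nd (.nd (.nd (.nd (.lf (.negSucc (nat_lit
 1727478381484799))) .e) .e) .e) .e))) (.nd (.nd (.nd (.nd (.nd (.nd (.lf (.negSucc (nat_lit
 127262556138159771))) .e) .e) .e) .e) (.nd (.nd (.nd (.nd (.lf (.negSucc (nat_lit
 1457497651358184899))) .e) .e) .e) (.nd (.nd (.nd (.lf (.negSucc (nat_lit 621476065144005099)))
 .e) .e) .e))) (.nd (.nd (.nd (.nd (.nd (.lf (.negSucc (nat_lit 1337610912893374039))) .e) .e) .e)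
 .e) (.nd (.nd (.nd (.nd (.lf (.negSucc (nat_lit 3673105863174740867))) .e) .e) .e) .e))))) .e)
 .e)) (.nd (.nd (.nd (.nd (.nd (.nd (.nd (.nd .e (.nd (.nd (.nd (.lf (.negSucc (nat_lit
 549486926237817239))) .e) .e) .e)) (.nd (.nd (.nd (.nd (.lf (.negSucc (nat_lit
 137235495808169459))) .e) .e) .e) .e)) (.nd (.nd (.nd (.nd (.nd (.lf (.ofNat (nat_lit
 22396620037679760))) .e) .e) .e) (.nd (.nd (.nd (.lf (.negSucc (nat_lit 12460607574993270929)))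
 .e) .e) .e)) (.nd (.nd (.nd (.nd (.lf (.negSucc (nat_lit 4895627743794932091))) .e) .e) .e) .e)))
 (.nd (.nd (.nd (.nd (.nd (.nd (.lf (.ofNat (nat_lit 12384269285874064))) .e) .e) .e) (.nd (.nd
 (.nd (.lf (.negSucc (nat_lit 9116670974514880539))) .e) .e) .e)) (.nd (.nd (.nd (.nd (.lf
 (.negSucc (nat_lit 11027803750550223027))) .e) .e) .e) .e)) (.nd (.nd (.nd (.nd (.nd (.lf
 (.negSucc (nat_lit 805302180147164739))) .e) .e) .e) .e) (.nd (.nd (.nd (.nd (.lf (.negSucc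
 (nat_lit 13117345128752968579))) .e) .e) .e) .e)))) (.nd (.nd (.nd (.nd (.nd (.nd (.nd (.lf
 (.ofNat (nat_lit 1348215679420856))) .e) .e) .e) .e) (.nd (.nd (.nd (.nd (.lf (.negSucc (nat_lit
 1929399708657426531))) .e) .e) .e) .e)) (.nd (.nd (.nd (.nd (.nd (.lf (.negSucc (nat_lit
 1510392573586942191))) .e) .e) .e) .e) (.nd (.nd (.nd (.nd (.lf (.negSucc (nat_lit
 2091777194291903))) .e) .e) .e) .e))) (.nd (.nd (.nd (.nd (.nd (.nd (.lf (.negSucc (nat_lit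
 102895821727010639))) .e) .e) .e) .e) (.nd (.nd (.nd (.nd (.lf (.negSucc (nat_lit
 1960396223728847599))) .e) .e) .e) .e)) (.nd (.nd (.nd (.nd (.nd (.lf (.negSucc (nat_lit
 3275435101680633359))) .e) .e) .e) .e) (.nd (.nd (.nd (.nd (.lf (.negSucc (nat_lit
 4158391709553641535))) .e) .e) .e) .e))))) .e) .e) .e)) (.nd (.nd (.nd (.nd (.nd (.nd (.nd (.nd
 .e (.nd (.nd (.nd (.nd (.lf (.negSucc (nat_lit 1808793568895777659))) .e) .e) .e) .e)) (.nd (.nd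
 (.nd (.nd (.nd (.lf (.negSucc (nat_lit 285697577989263371))) .e) .e) .e) .e) (.nd (.nd (.nd (.nd
 (.lf (.negSucc (nat_lit 9337838985745486933))) .e) .e) .e) .e))) (.nd (.nd (.nd (.nd (.nd (.nd
 (.lf (.ofNat (nat_lit 25350447962118492))) .e) .e) .e) .e) (.nd (.nd (.nd (.nd (.lf (.negSucc
 (nat_lit 10383472453867054675))) .e) .e) .e) .e)) (.nd (.nd (.nd (.nd (.nd (.lf (.negSucc
 (nat_lit 7734861675881735407))) .e) .e) .e) .e) .e))) (.nd (.nd (.nd (.nd (.nd (.nd (.nd (.lf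
 (.ofNat (nat_lit 13460469569332692))) .e) .e) .e) .e) (.nd (.nd (.nd (.nd (.lf (.negSucc (nat_lit
 2148889718445341723))) .e) .e) .e) .e)) (.nd (.nd (.nd (.nd (.nd (.lf (.negSucc (nat_lit
 2612624730598283967))) .e) .e) .e) .e) .e)) (.nd (.nd (.nd (.nd (.nd (.nd (.lf (.negSucc (nat_lit
 1130507729526580099))) .e) .e) .e) .e) (.nd (.nd (.nd (.nd (.lf (.negSucc (nat_lit
 34765600626141639))) .e) .e) .e) .e)) (.nd (.nd (.nd (.nd (.nd (.lf (.negSucc (nat_lit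
 1384383349501107899))) .e) .e) .e) .e) .e)))) .e) .e) .e) (.nd (.nd (.nd (.nd (.nd (.nd (.nd (.nd
 .e (.nd (.nd (.nd (.lf (.negSucc (nat_lit 7943094082090179))) .e) .e) .e)) (.nd (.nd (.nd (.nd
 (.lf (.negSucc (nat_lit 31118975809587479))) .e) .e) .e) (.nd (.nd (.nd (.lf (.negSucc (nat_lit
 728850432018311319))) .e) .e) .e))) (.nd (.nd (.nd (.nd (.nd (.lf (.negSucc (nat_lit
 10608232485251259))) .e) .e) .e) (.nd (.nd (.nd (.lf (.negSucc (nat_lit 5035380975240593519)))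
 .e) .e) .e)) (.nd (.nd (.nd (.nd (.lf (.ofNat (nat_lit 4185809902421260))) .e) .e) .e) (.nd (.nd
 (.nd (.lf (.negSucc (nat_lit 17336990916949107049))) .e) .e) .e)))) (.nd (.nd (.nd (.nd (.nd (.nd
 (.lf (.negSucc (nat_lit 948616953176519))) .e) .e) .e) (.nd (.nd (.nd (.lf (.negSucc (nat_lit
 3214063264477259419))) .e) .e) .e)) (.nd (.nd (.nd (.nd (.lf (.negSucc (nat_lit
 539985462710316819))) .e) .e) .e) .e)) (.nd (.nd (.nd (.nd (.nd (.lf (.ofNat (nat_lit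
 36742014204872040))) .e) .e) .e) (.nd (.nd (.nd (.lf (.negSucc (nat_lit 15737990336659688099)))
 .e) .e) .e)) (.nd (.nd (.nd (.nd (.lf (.negSucc (nat_lit 16441361157537055799))) .e) .e) .e)
 .e)))) (.nd (.nd (.nd (.nd (.nd (.nd (.nd (.lf (.negSucc (nat_lit 258705575396079))) .e) .e) .e)
 .e) (.nd (.nd (.nd (.nd (.lf (.negSucc (nat_lit 38280542517392699))) .e) .e) .e) (.nd (.nd (.nd
 (.lf (.negSucc (nat_lit 1596460568493719999))) .e) .e) .e))) (.nd (.nd (.nd (.nd (.nd (.lf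
 (.negSucc (nat_lit 52000809462209559))) .e) .e) .e) (.nd (.nd (.nd (.lf (.negSucc (nat_lit
 2508160901550891899))) .e) .e) .e)) (.nd (.nd (.nd (.nd (.lf (.negSucc (nat_lit
 1420965878692079999))) .e) .e) .e) .e))) (.nd (.nd (.nd (.nd (.nd (.nd (.lf (.ofNat (nat_lit
 17389756433253800))) .e) .e) .e) .e) (.nd (.nd (.nd (.nd (.lf (.negSucc (nat_lit
 4830109807717630499))) .e) .e) .e) (.nd (.nd (.nd (.lf (.negSucc (nat_lit 200848070249585499)))
 .e) .e) .e))) (.nd (.nd (.nd (.nd (.nd (.lf (.negSucc (nat_lit 1891092082700562499))) .e) .e) .e)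
 .e) (.nd (.nd (.nd (.nd (.lf (.negSucc (nat_lit 5096775057226077619))) .e) .e) .e) .e))))) .e)
 .e) .e)))) (.nd (.nd (.nd (.nd (.nd (.nd (.nd (.nd .e (.nd (.nd (.nd (.nd (.nd (.nd (.lf (.ofNat
 (nat_lit 1068185667476233098))) .e) .e) .e) .e) .e) .e)) (.nd (.nd (.nd (.nd (.nd (.nd (.nd (.lf
 (.ofNat (nat_lit 1087224410942745956))) .e) .e) .e) .e) .e) .e) .e)) .e) .e) .e) (.nd (.nd (.nd
 (.nd (.nd (.nd (.nd (.nd .e (.nd (.nd (.nd (.lf (.negSucc (nat_lit 416238049581386275))) .e) .e)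
 .e)) (.nd (.nd (.nd (.nd (.lf (.negSucc (nat_lit 388534818849434919))) .e) .e) .e) .e)) (.nd (.nd
 (.nd (.nd (.nd (.lf (.negSucc (nat_lit 149761374301651179))) .e) .e) .e) .e) (.nd (.nd (.nd (.nd
 (.lf (.negSucc (nat_lit 3924785701204458439))) .e) .e) .e) .e))) (.nd (.nd (.nd (.nd (.nd (.nd
 (.lf (.negSucc (nat_lit 19658906166105667))) .e) .e) .e) (.nd (.nd (.nd (.lf (.negSucc (nat_lit
 3727284013867501047))) .e) .e) .e)) (.nd (.nd (.nd (.nd (.lf (.negSucc (nat_lit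
 5473389656852551883))) .e) .e) .e) .e)) (.nd (.nd (.nd (.nd (.nd (.lf (.negSucc (nat_lit
 1411853777215110935))) .e) .e) .e) .e) (.nd (.nd (.nd (.nd (.lf (.negSucc (nat_lit
 8591924143819762359))) .e) .e) .e) .e)))) (.nd (.nd (.nd (.nd (.nd (.nd (.nd (.lf (.ofNat
 (nat_lit 1065920830713948))) .e) .e) .e) .e) (.nd (.nd (.nd (.nd (.lf (.negSucc (nat_lit
 1879977283402135011))) .e) .e) .e) .e)) (.nd (.nd (.nd (.nd (.nd (.lf (.negSucc (nat_lit
 975508053189993007))) .e) .e) .e) .e) (.nd (.nd (.nd (.nd (.lf (.negSucc (nat_lit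
 725293154837663))) .e) .e) .e) .e))) (.nd (.nd (.nd (.nd (.nd (.nd (.lf (.negSucc (nat_lit
 194997291552821111))) .e) .e) .e) .e) (.nd (.nd (.nd (.nd (.lf (.negSucc (nat_lit
 1989256691696895099))) .e) .e) .e) .e)) (.nd (.nd (.nd (.nd (.nd (.lf (.negSucc (nat_lit
 2606734420232466099))) .e) .e) .e) .e) (.nd (.nd (.nd (.nd (.lf (.negSucc (nat_lit
 4767427707400270875))) .e) .e) .e) .e))))) .e) .e) .e)) (.nd (.nd (.nd (.nd (.nd (.nd (.nd (.nd
 .e (.nd (.nd (.nd (.nd (.lf (.negSucc (nat_lit 202573183625911291))) .e) .e) .e) .e)) (.nd (.nd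
 (.nd (.nd (.nd (.lf (.ofNat (nat_lit 106860916723542032))) .e) .e) .e) .e) .e)) (.nd (.nd (.nd
 (.nd (.nd (.nd (.lf (.ofNat (nat_lit 48080093962705392))) .e) .e) .e) .e) (.nd (.nd (.nd (.nd
 (.lf (.negSucc (nat_lit 9912470715358736741))) .e) .e) .e) .e)) (.nd (.nd (.nd (.nd (.nd (.lf
 (.negSucc (nat_lit 3701775401456811903))) .e) .e) .e) .e) .e))) (.nd (.nd (.nd (.nd (.nd (.nd
 (.nd (.lf (.ofNat (nat_lit 12458253744818076))) .e) .e) .e) .e) (.nd (.nd (.nd (.nd (.lf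
 (.negSucc (nat_lit 4597269355522492191))) .e) .e) .e) .e)) (.nd (.nd (.nd (.nd (.nd (.lf
 (.negSucc (nat_lit 6341431127912107739))) .e) .e) .e) .e) .e)) (.nd (.nd (.nd (.nd (.nd (.nd (.lf
 (.negSucc (nat_lit 549758323340381183))) .e) .e) .e) .e) .e) (.nd (.nd (.nd (.nd (.nd (.lf
 (.negSucc (nat_lit 4433269949391945599))) .e) .e) .e) .e) .e)))) .e) .e) .e) .e)) (.nd (.nd (.nd
 (.nd (.nd (.nd (.nd (.nd .e (.nd (.nd (.nd (.nd (.nd (.lf (.negSucc (nat_lit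
 631363677493664655))) .e) .e) .e) .e) .e)) (.nd (.nd (.nd (.nd (.nd (.nd (.lf (.ofNat (nat_lit
 120076876579334712))) .e) .e) .e) .e) .e) (.nd (.nd (.nd (.nd (.nd (.lf (.negSucc (nat_lit
 5805737924612344737))) .e) .e) .e) .e) .e))) (.nd (.nd (.nd (.nd (.nd (.nd (.nd (.lf (.ofNat
 (nat_lit 73910154425955360))) .e) .e) .e) .e) .e) (.nd (.nd (.nd (.nd (.nd (.lf (.negSucc
 (nat_lit 2883025224448229975))) .e) .e) .e) .e) .e)) (.nd (.nd (.nd (.nd (.nd (.nd (.lf (.negSucc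
 (nat_lit 3527754366072965475))) .e) .e) .e) .e) .e) .e))) .e) .e) .e) (.nd (.nd (.nd (.nd (.nd
 (.nd (.nd (.nd .e (.nd (.nd (.nd (.lf (.ofNat (nat_lit 23726413981228084))) .e) .e) .e)) (.nd
 (.nd (.nd (.nd (.lf (.ofNat (nat_lit 32848006857178200))) .e) .e) .e) .e)) (.nd (.nd (.nd (.nd
 (.nd (.lf (.ofNat (nat_lit 10454348235246064))) .e) .e) .e) (.nd (.nd (.nd (.lf (.negSucc
 (nat_lit 1438653176657419255))) .e) .e) .e)) (.nd (.nd (.nd (.nd (.lf (.negSucc (nat_lit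
 47473333272069863))) .e) .e) .e) .e))) (.nd (.nd (.nd (.nd (.nd (.nd (.lf (.ofNat (nat_lit
 3603310611833472))) .e) .e) .e) (.nd (.nd (.nd (.lf (.negSucc (nat_lit 1476774179615963355))) .e)
 .e) .e)) (.nd (.nd (.nd (.nd (.lf (.ofNat (nat_lit 40583224842450820))) .e) .e) .e) .e)) (.nd
 (.nd (.nd (.nd (.nd (.lf (.negSucc (nat_lit 17765859957567699))) .e) .e) .e) (.nd (.nd (.nd (.lf
 (.negSucc (nat_lit 16771806649743339349))) .e) .e) .e)) (.nd (.nd (.nd (.nd (.lf (.negSucc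
 (nat_lit 7399122371366687479))) .e) .e) .e) .e)))) (.nd (.nd (.nd (.nd (.nd (.nd (.nd (.lf
 (.ofNat (nat_lit 1645133554451720))) .e) .e) .e) .e) (.nd (.nd (.nd (.nd (.lf (.negSucc (nat_lit
 34022157998357203))) .e) .e) .e) .e)) (.nd (.nd (.nd (.nd (.nd (.lf (.ofNat (nat_lit
 31385427833198452))) .e) .e) .e) (.nd (.nd (.nd (.lf (.negSucc (nat_lit 13389092376043535999)))
 .e) .e) .e)) (.nd (.nd (.nd (.nd (.lf (.negSucc (nat_lit 6663610091300399999))) .e) .e) .e) .e)))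
 (.nd (.nd (.nd (.nd (.nd (.nd (.lf (.negSucc (nat_lit 11346667591093515))) .e) .e) .e) .e) (.nd
 (.nd (.nd (.nd (.lf (.negSucc (nat_lit 12185977160971807639))) .e) .e) .e) .e)) (.nd (.nd (.nd
 (.nd (.nd (.lf (.negSucc (nat_lit 1204459400759083199))) .e) .e) .e) .e) (.nd (.nd (.nd (.nd (.lf
 (.negSucc (nat_lit 2959041041642855623))) .e) .e) .e) .e))))) .e) .e) .e)) (.nd (.nd (.nd (.nd
 (.nd (.nd (.nd (.nd .e (.nd (.nd (.nd (.nd (.lf (.negSucc (nat_lit 86504551509845799))) .e) .e)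
 .e) .e)) (.nd (.nd (.nd (.nd (.nd (.lf (.negSucc (nat_lit 37599591493628359))) .e) .e) .e) .e)
 (.nd (.nd (.nd (.nd (.lf (.negSucc (nat_lit 1002901591699977359))) .e) .e) .e) .e))) (.nd (.nd
 (.nd (.nd (.nd (.nd (.lf (.negSucc (nat_lit 2575080901367659))) .e) .e) .e) .e) (.nd (.nd (.nd
 (.nd (.lf (.negSucc (nat_lit 4832086675458226939))) .e) .e) .e) .e)) (.nd (.nd (.nd (.nd (.nd
 (.lf (.ofNat (nat_lit 46016383117846160))) .e) .e) .e) .e) (.nd (.nd (.nd (.nd (.lf (.negSucc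
 (nat_lit 13306341068499048199))) .e) .e) .e) .e)))) (.nd (.nd (.nd (.nd (.nd (.nd (.nd (.lf
 (.ofNat (nat_lit 1664849596041260))) .e) .e) .e) .e) (.nd (.nd (.nd (.nd (.lf (.negSucc (nat_lit
 1065546510421657179))) .e) .e) .e) .e)) (.nd (.nd (.nd (.nd (.nd (.lf (.negSucc (nat_lit
 759782024905568499))) .e) .e) .e) .e) (.nd (.nd (.nd (.nd (.lf (.ofNat (nat_lit
 5233197187723680))) .e) .e) .e) .e))) (.nd (.nd (.nd (.nd (.nd (.nd (.lf (.ofNat (nat_lit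
 25901401550010800))) .e) .e) .e) .e) (.nd (.nd (.nd (.nd (.lf (.negSucc (nat_lit
 6228357004243303499))) .e) .e) .e) .e)) (.nd (.nd (.nd (.nd (.nd (.lf (.negSucc (nat_lit
 8439017557236211999))) .e) .e) .e) .e) .e)))) .e) .e) .e) (.nd (.nd (.nd (.nd (.nd (.nd (.nd (.nd
 .e (.nd (.nd (.nd (.lf (.negSucc (nat_lit 246574685757938983))) .e) .e) .e)) (.nd (.nd (.nd (.nd
 (.lf (.negSucc (nat_lit 70454262671745195))) .e) .e) .e) (.nd (.nd (.nd (.lf (.negSucc (nat_lit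
 803545320209466847))) .e) .e) .e))) (.nd (.nd (.nd (.nd (.nd (.lf (.negSucc (nat_lit
 9588872731747911))) .e) .e) .e) (.nd (.nd (.nd (.lf (.negSucc (nat_lit 4320200020154554907))) .e)
 .e) .e)) (.nd (.nd (.nd (.nd (.lf (.negSucc (nat_lit 1482062417953094743))) .e) .e) .e) (.nd (.nd
 (.nd (.lf (.negSucc (nat_lit 20641166008288742299))) .e) .e) .e)))) (.nd (.nd (.nd (.nd (.nd (.nd
 (.lf (.negSucc (nat_lit 1083272563110107))) .e) .e) .e) (.nd (.nd (.nd (.lf (.negSucc (nat_lit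
 3873489841926075991))) .e) .e) .e)) (.nd (.nd (.nd (.nd (.lf (.negSucc (nat_lit
 1329553437547122287))) .e) .e) .e) .e)) (.nd (.nd (.nd (.nd (.nd (.lf (.negSucc (nat_lit
 510940606999315715))) .e) .e) .e) (.nd (.nd (.nd (.lf (.negSucc (nat_lit 18288574284379363999)))
 .e) .e) .e)) (.nd (.nd (.nd (.nd (.lf (.negSucc (nat_lit 14393760224467764339))) .e) .e) .e) (.nd
 (.nd (.nd (.lf (.negSucc (nat_lit 9324573575749939249))) .e) .e) .e))))) (.nd (.nd (.nd (.nd (.nd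
 (.nd (.nd (.lf (.ofNat (nat_lit 587932613329840))) .e) .e) .e) .e) (.nd (.nd (.nd (.nd (.lf
 (.negSucc (nat_lit 429200812796391747))) .e) .e) .e) (.nd (.nd (.nd (.lf (.negSucc (nat_lit
 2507769423908977199))) .e) .e) .e))) (.nd (.nd (.nd (.nd (.nd (.lf (.negSucc (nat_lit
 161403326659519079))) .e) .e) .e) (.nd (.nd (.nd (.lf (.negSucc (nat_lit 6618205369457931299)))
 .e) .e) .e)) (.nd (.nd (.nd (.nd (.lf (.negSucc (nat_lit 2852036013359433599))) .e) .e) .e) .e)))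
 (.nd (.nd (.nd (.nd (.nd (.nd (.lf (.negSucc (nat_lit 75108898696816107))) .e) .e) .e) .e) (.nd
 (.nd (.nd (.nd (.lf (.negSucc (nat_lit 7567102344704943259))) .e) .e) .e) (.nd (.nd (.nd (.lf
 (.negSucc (nat_lit 2013600865953563899))) .e) .e) .e))) (.nd (.nd (.nd (.nd (.nd (.lf (.negSucc
 (nat_lit 2477676992038428459))) .e) .e) .e) .e) (.nd (.nd (.nd (.nd (.lf (.negSucc (nat_lit
 6534358771461468071))) .e) .e) .e) .e))))) .e) .e) .e))))) (.nd (.nd (.nd (.nd (.nd (.nd (.nd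
 (.nd .e (.nd (.nd (.nd (.nd (.nd (.nd (.nd (.lf (.ofNat (nat_lit 289057324186027066))) .e) .e)
 .e) .e) .e) .e) .e)) .e) .e) .e) .e) (.nd (.nd (.nd (.nd (.nd (.nd (.nd (.nd .e (.nd (.nd (.nd
 (.nd (.lf (.negSucc (nat_lit 144849945584846355))) .e) .e) .e) .e)) (.nd (.nd (.nd (.nd (.nd (.lf
 (.negSucc (nat_lit 135450620223280655))) .e) .e) .e) .e) .e)) (.nd (.nd (.nd (.nd (.nd (.nd (.lf
 (.negSucc (nat_lit 31523144714049867))) .e) .e) .e) .e) .e) (.nd (.nd (.nd (.nd (.nd (.lf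
 (.negSucc (nat_lit 90940201806865471))) .e) .e) .e) .e) .e))) (.nd (.nd (.nd (.nd (.nd (.nd (.nd
 (.lf (.ofNat (nat_lit 2419024372809848))) .e) .e) .e) .e) (.nd (.nd (.nd (.nd (.lf (.negSucc
 (nat_lit 896119242704567137))) .e) .e) .e) .e)) (.nd (.nd (.nd (.nd (.nd (.lf (.negSucc (nat_lit
 1102424914012366359))) .e) .e) .e) .e) .e)) (.nd (.nd (.nd (.nd (.nd (.nd (.lf (.ofNat (nat_lit
 1804493878674916))) .e) .e) .e) .e) .e) (.nd (.nd (.nd (.nd (.nd (.lf (.negSucc (nat_lit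
 1415757516008572159))) .e) .e) .e) .e) .e)))) .e) .e) .e) (.nd (.nd (.nd (.nd (.nd (.nd (.nd (.nd
 .e (.nd (.nd (.nd (.lf (.ofNat (nat_lit 28425221141164368))) .e) .e) .e)) (.nd (.nd (.nd (.nd
 (.lf (.ofNat (nat_lit 36458702933204204))) .e) .e) .e) (.nd (.nd (.nd (.lf (.negSucc (nat_lit
 149980899972165383))) .e) .e) .e))) (.nd (.nd (.nd (.nd (.nd (.lf (.ofNat (nat_lit
 11769108164947780))) .e) .e) .e) (.nd (.nd (.nd (.lf (.negSucc (nat_lit 69692301298407123))) .e)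
 .e) .e)) (.nd (.nd (.nd (.nd (.lf (.negSucc (nat_lit 16961793137751895))) .e) .e) .e) .e))) (.nd
 (.nd (.nd (.nd (.nd (.nd (.lf (.ofNat (nat_lit 3508082198490340))) .e) .e) .e) (.nd (.nd (.nd
 (.lf (.negSucc (nat_lit 41832746576321699))) .e) .e) .e)) (.nd (.nd (.nd (.nd (.lf (.ofNat
 (nat_lit 123947396520724904))) .e) .e) .e) .e)) (.nd (.nd (.nd (.nd (.nd (.lf (.negSucc (nat_lit
 17945335074387923))) .e) .e) .e) (.nd (.nd (.nd (.lf (.negSucc (nat_lit 6611083263565444799)))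
 .e) .e) .e)) (.nd (.nd (.nd (.nd (.lf (.negSucc (nat_lit 193365573051895919))) .e) .e) .e) .e))))
 (.nd (.nd (.nd (.nd (.nd (.nd (.nd (.lf (.ofNat (nat_lit 1289253164560488))) .e) .e) .e) .e) (.nd
 (.nd (.nd (.nd (.lf (.negSucc (nat_lit 16735632564333255))) .e) .e) .e) (.nd (.nd (.nd (.lf
 (.negSucc (nat_lit 732412581326921649))) .e) .e) .e))) (.nd (.nd (.nd (.nd (.nd (.lf (.ofNat
 (nat_lit 45761804932660828))) .e) .e) .e) (.nd (.nd (.nd (.lf (.negSucc (nat_lit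
 2726983832094950399))) .e) .e) .e)) (.nd (.nd (.nd (.nd (.lf (.negSucc (nat_lit
 1428725599274131199))) .e) .e) .e) .e))) (.nd (.nd (.nd (.nd (.nd (.nd (.lf (.negSucc (nat_lit
 14845791667591151))) .e) .e) .e) .e) (.nd (.nd (.nd (.nd (.lf (.negSucc (nat_lit
 2260319289656325839))) .e) .e) .e) .e)) (.nd (.nd (.nd (.nd (.nd (.lf (.negSucc (nat_lit
 33312095169700319))) .e) .e) .e) .e) (.nd (.nd (.nd (.nd (.lf (.ofNat (nat_lit
 56962407518416896))) .e) .e) .e) .e))))) .e) .e) .e))) (.nd (.nd (.nd (.nd (.nd (.nd (.nd (.nd .e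
 (.nd (.nd (.nd (.nd (.nd (.lf (.ofNat (nat_lit 15377823134039048))) .e) .e) .e) .e) .e)) (.nd
 (.nd (.nd (.nd (.nd (.nd (.lf (.negSucc (nat_lit 20441578329451))) .e) .e) .e) .e) .e) .e)) (.nd
 (.nd (.nd (.nd (.nd (.nd (.nd (.lf (.ofNat (nat_lit 5765063062439592))) .e) .e) .e) .e) .e) (.nd
 (.nd (.nd (.nd (.nd (.lf (.negSucc (nat_lit 1532440023208097653))) .e) .e) .e) .e) .e)) (.nd (.nd
 (.nd (.nd (.nd (.nd (.lf (.negSucc (nat_lit 661235804312026595))) .e) .e) .e) .e) .e) .e))) .e)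
 .e) .e) (.nd (.nd (.nd (.nd (.nd (.nd (.nd (.nd .e (.nd (.nd (.nd (.lf (.negSucc (nat_lit
 34189609680827667))) .e) .e) .e)) (.nd (.nd (.nd (.nd (.lf (.negSucc (nat_lit
 46856193595828479))) .e) .e) .e) .e)) (.nd (.nd (.nd (.nd (.nd (.lf (.negSucc (nat_lit
 17776578789036187))) .e) .e) .e) (.nd (.nd (.nd (.lf (.ofNat (nat_lit 183163314812619132))) .e)
 .e) .e)) (.nd (.nd (.nd (.nd (.lf (.negSucc (nat_lit 7357338817202611))) .e) .e) .e) .e))) (.nd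
 (.nd (.nd (.nd (.nd (.nd (.lf (.negSucc (nat_lit 4548989150997663))) .e) .e) .e) (.nd (.nd (.nd
 (.lf (.ofNat (nat_lit 203045675427253872))) .e) .e) .e)) (.nd (.nd (.nd (.nd (.lf (.negSucc
 (nat_lit 260828743815941199))) .e) .e) .e) .e)) (.nd (.nd (.nd (.nd (.nd (.lf (.ofNat (nat_lit
 23722814779494020))) .e) .e) .e) .e) (.nd (.nd (.nd (.nd (.lf (.ofNat (nat_lit
 376805141572305160))) .e) .e) .e) .e)))) (.nd (.nd (.nd (.nd (.nd (.nd (.nd (.lf (.negSucc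
 (nat_lit 23834980983799))) .e) .e) .e) .e) (.nd (.nd (.nd (.nd (.lf (.negSucc (nat_lit
 9212998838315591))) .e) .e) .e) .e)) (.nd (.nd (.nd (.nd (.nd (.lf (.negSucc (nat_lit
 63351678806227543))) .e) .e) .e) (.nd (.nd (.nd (.lf (.negSucc (nat_lit 3044784016081007499)))
 .e) .e) .e)) (.nd (.nd (.nd (.nd (.lf (.negSucc (nat_lit 2847389905882367999))) .e) .e) .e) .e)))
 (.nd (.nd (.nd (.nd (.nd (.nd (.lf (.ofNat (nat_lit 23908049700922952))) .e) .e) .e) .e) (.nd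
 (.nd (.nd (.nd (.lf (.negSucc (nat_lit 4654448403604247519))) .e) .e) .e) .e)) (.nd (.nd (.nd
 (.nd (.nd (.lf (.ofNat (nat_lit 11129567316657100))) .e) .e) .e) .e) (.nd (.nd (.nd (.nd (.lf
 (.negSucc (nat_lit 99074781830970291))) .e) .e) .e) .e))))) .e) .e) .e)) (.nd (.nd (.nd (.nd (.nd
 (.nd (.nd (.nd .e (.nd (.nd (.nd (.nd (.lf (.negSucc (nat_lit 1739710763935199))) .e) .e) .e)
 .e)) (.nd (.nd (.nd (.nd (.nd (.lf (.negSucc (nat_lit 569417056704383))) .e) .e) .e) .e) (.nd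
 (.nd (.nd (.nd (.lf (.ofNat (nat_lit 2759948605842624))) .e) .e) .e) .e))) (.nd (.nd (.nd (.nd
 (.nd (.nd (.lf (.negSucc (nat_lit 307165166771231))) .e) .e) .e) .e) (.nd (.nd (.nd (.nd (.lf
 (.negSucc (nat_lit 3134525850025919))) .e) .e) .e) .e)) (.nd (.nd (.nd (.nd (.nd (.lf (.ofNat
 (nat_lit 365118140459520))) .e) .e) .e) .e) .e))) (.nd (.nd (.nd (.nd (.nd (.nd (.nd (.lf
 (.negSucc (nat_lit 36476483924159))) .e) .e) .e) .e) (.nd (.nd (.nd (.nd (.lf (.ofNat (nat_lit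
 1454058770308704))) .e) .e) .e) .e)) (.nd (.nd (.nd (.nd (.nd (.lf (.negSucc (nat_lit
 2442314171287871))) .e) .e) .e) .e) (.nd (.nd (.nd (.nd (.lf (.negSucc (nat_lit
 712948308954335999))) .e) .e) .e) .e))) (.nd (.nd (.nd (.nd (.nd (.nd (.lf (.ofNat (nat_lit
 217544447667456))) .e) .e) .e) .e) (.nd (.nd (.nd (.nd (.lf (.negSucc (nat_lit
 2302329495003017759))) .e) .e) .e) .e)) (.nd (.nd (.nd (.nd (.nd (.lf (.ofNat (nat_lit
 3106902579681600))) .e) .e) .e) .e) .e)))) .e) .e) .e) .e))) (.nd (.nd (.nd (.nd (.nd (.nd (.nd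
 (.nd .e (.nd (.nd (.nd (.nd (.nd (.nd (.lf (.negSucc (nat_lit 167115638400747335))) .e) .e) .e)
 .e) .e) .e)) (.nd (.nd (.nd (.nd (.nd (.nd (.nd (.lf (.ofNat (nat_lit 34712091177795464))) .e)
 .e) .e) .e) .e) .e) (.nd (.nd (.nd (.nd (.nd (.nd (.lf (.negSucc (nat_lit 745283126911642249)))
 .e) .e) .e) .e) .e) .e))) .e) .e) .e) .e) (.nd (.nd (.nd (.nd (.nd (.nd (.nd (.nd .e (.nd (.nd
 (.nd (.nd (.lf (.ofNat (nat_lit 26268967983672140))) .e) .e) .e) .e)) (.nd (.nd (.nd (.nd (.nd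
 (.lf (.ofNat (nat_lit 8188304715224380))) .e) .e) .e) .e) .e)) (.nd (.nd (.nd (.nd (.nd (.nd (.lf
 (.ofNat (nat_lit 2093571684710340))) .e) .e) .e) .e) (.nd (.nd (.nd (.nd (.lf (.ofNat (nat_lit
 30949795513335120))) .e) .e) .e) .e)) (.nd (.nd (.nd (.nd (.nd (.lf (.negSucc (nat_lit
 14529765193236019))) .e) .e) .e) .e) .e))) (.nd (.nd (.nd (.nd (.nd (.nd (.nd (.lf (.ofNat
 (nat_lit 1050321602169300))) .e) .e) .e) .e) (.nd (.nd (.nd (.nd (.lf (.negSucc (nat_lit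
 28470304200316979))) .e) .e) .e) .e)) (.nd (.nd (.nd (.nd (.nd (.lf (.ofNat (nat_lit
 24507745919444600))) .e) .e) .e) .e) .e)) (.nd (.nd (.nd (.nd (.nd (.nd (.lf (.negSucc (nat_lit
 10339507817669879))) .e) .e) .e) .e) (.nd (.nd (.nd (.nd (.lf (.negSucc (nat_lit
 2836175168981081799))) .e) .e) .e) .e)) (.nd (.nd (.nd (.nd (.nd (.lf (.negSucc (nat_lit
 1530812392341857499))) .e) .e) .e) .e) .e)))) .e) .e) .e) (.nd (.nd (.nd (.nd (.nd (.nd (.nd (.nd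
 .e (.nd (.nd (.nd (.lf (.ofNat (nat_lit 77157140384086592))) .e) .e) .e)) (.nd (.nd (.nd (.nd
 (.lf (.ofNat (nat_lit 26399807410959604))) .e) .e) .e) (.nd (.nd (.nd (.lf (.ofNat (nat_lit
 166358341721170740))) .e) .e) .e))) (.nd (.nd (.nd (.nd (.nd (.lf (.negSucc (nat_lit
 4918929611829715))) .e) .e) .e) (.nd (.nd (.nd (.lf (.ofNat (nat_lit 155987202800300012))) .e)
 .e) .e)) (.nd (.nd (.nd (.nd (.lf (.negSucc (nat_lit 105811376032220399))) .e) .e) .e) .e))) (.nd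
 (.nd (.nd (.nd (.nd (.nd (.lf (.negSucc (nat_lit 3676292425481207))) .e) .e) .e) (.nd (.nd (.nd
 (.lf (.ofNat (nat_lit 66423566958738252))) .e) .e) .e)) (.nd (.nd (.nd (.nd (.lf (.negSucc
 (nat_lit 252700520613444991))) .e) .e) .e) .e)) (.nd (.nd (.nd (.nd (.nd (.lf (.ofNat (nat_lit
 2792803513376344))) .e) .e) .e) (.nd (.nd (.nd (.lf (.negSucc (nat_lit 2236717150940707199))) .e)
 .e) .e)) (.nd (.nd (.nd (.nd (.lf (.ofNat (nat_lit 277241462979646960))) .e) .e) .e) .e)))) (.nd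
 (.nd (.nd (.nd (.nd (.nd (.nd (.lf (.ofNat (nat_lit 8531687885704))) .e) .e) .e) .e) (.nd (.nd
 (.nd (.nd (.lf (.negSucc (nat_lit 129659661234690467))) .e) .e) .e) (.nd (.nd (.nd (.lf (.negSucc
 (nat_lit 314158795170249599))) .e) .e) .e))) (.nd (.nd (.nd (.nd (.nd (.lf (.negSucc (nat_lit
 35628162270568563))) .e) .e) .e) (.nd (.nd (.nd (.lf (.negSucc (nat_lit 1399222592836076999)))
 .e) .e) .e)) (.nd (.nd (.nd (.nd (.lf (.negSucc (nat_lit 473919940790956799))) .e) .e) .e) .e)))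
 (.nd (.nd (.nd (.nd (.nd (.nd (.lf (.ofNat (nat_lit 5239060751323260))) .e) .e) .e) .e) (.nd (.nd
 (.nd (.nd (.lf (.negSucc (nat_lit 780139654970410079))) .e) .e) .e) (.nd (.nd (.nd (.lf (.negSucc
 (nat_lit 394065631692906449))) .e) .e) .e))) (.nd (.nd (.nd (.nd (.nd (.lf (.negSucc (nat_lit
 51368875744338619))) .e) .e) .e) .e) (.nd (.nd (.nd (.nd (.lf (.negSucc (nat_lit
 94847262152997663))) .e) .e) .e) .e))))) .e) .e) .e))) (.nd (.nd (.nd (.nd (.nd (.nd (.nd (.nd .e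
 (.nd (.nd (.nd (.nd (.nd (.lf (.negSucc (nat_lit 21800622848807859))) .e) .e) .e) .e) .e)) (.nd
 (.nd (.nd (.nd (.nd (.nd (.lf (.negSucc (nat_lit 3530724071318239))) .e) .e) .e) .e) .e) (.nd
 (.nd (.nd (.nd (.nd (.lf (.ofNat (nat_lit 24878655848102320))) .e) .e) .e) .e) .e))) (.nd (.nd
 (.nd (.nd (.nd (.nd (.nd (.lf (.ofNat (nat_lit 909054015205780))) .e) .e) .e) .e) .e) (.nd (.nd
 (.nd (.nd (.nd (.lf (.negSucc (nat_lit 1091840815890052579))) .e) .e) .e) .e) .e)) (.nd (.nd (.nd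
 (.nd (.nd (.nd (.lf (.ofNat (nat_lit 15925958753078320))) .e) .e) .e) .e) .e) (.nd (.nd (.nd (.nd
 (.nd (.lf (.negSucc (nat_lit 2182031063548052899))) .e) .e) .e) .e) .e)))) .e) .e) .e) .e) (.nd
 (.nd (.nd (.nd (.nd (.nd (.nd (.nd .e (.nd (.nd (.nd (.nd (.lf (.negSucc (nat_lit
 25490131013217139))) .e) .e) .e) .e)) (.nd (.nd (.nd (.nd (.nd (.lf (.negSucc (nat_lit
 2073970824770203))) .e) .e) .e) .e) (.nd (.nd (.nd (.nd (.lf (.negSucc (nat_lit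
 476054759969259159))) .e) .e) .e) .e))) (.nd (.nd (.nd (.nd (.nd (.nd (.lf (.negSucc (nat_lit
 2011621307847475))) .e) .e) .e) .e) (.nd (.nd (.nd (.nd (.lf (.ofNat (nat_lit
 46217137874508192))) .e) .e) .e) .e)) (.nd (.nd (.nd (.nd (.nd (.lf (.negSucc (nat_lit
 275906592718213151))) .e) .e) .e) .e) (.nd (.nd (.nd (.nd (.lf (.negSucc (nat_lit
 12439453686335509999))) .e) .e) .e) .e)))) (.nd (.nd (.nd (.nd (.nd (.nd (.nd (.lf (.ofNat
 (nat_lit 1538500435292332))) .e) .e) .e) .e) (.nd (.nd (.nd (.nd (.lf (.negSucc (nat_lit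
 99674778057038679))) .e) .e) .e) .e)) (.nd (.nd (.nd (.nd (.nd (.lf (.negSucc (nat_lit
 9428312941857955))) .e) .e) .e) .e) (.nd (.nd (.nd (.nd (.lf (.negSucc (nat_lit
 2657611300762655))) .e) .e) .e) .e))) (.nd (.nd (.nd (.nd (.nd (.nd (.lf (.negSucc (nat_lit
 29852579108285219))) .e) .e) .e) .e) (.nd (.nd (.nd (.nd (.lf (.negSucc (nat_lit
 3983765700181597319))) .e) .e) .e) .e)) (.nd (.nd (.nd (.nd (.nd (.lf (.negSucc (nat_lit
 3012166974471359319))) .e) .e) .e) .e) (.nd (.nd (.nd (.nd (.lf (.negSucc (nat_lit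
 4177152074203133515))) .e) .e) .e) .e))))) .e) .e) .e) .e)))))

end Pool.Agent.H58.BJ.D6
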