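import Pool.Agent.H58.BJ.D6.U7
import Pool.Agent.H58.BJ.D6.U8

/-! # Certificate data (6 jets, exponent 28/25) -/

set_option autoImplicit false

namespace Pool.Agent.H58.BJ.D6

open Pool.Agent.H58.BJ

/-- rows of a block -/
noncomputable def B8_0 : List (Row × List ℤ) := [((nat_lit 1, nat_lit 1, false), [.ofNat (nat_lit
 28317932)]), ((nat_lit 1, nat_lit 2, false), [.negSucc (nat_lit 7617392), .ofNat (nat_lit
 16806152)]), ((nat_lit 1, nat_lit 3, false), [.ofNat (nat_lit 14100271), .negSucc (nat_lit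
 6832498), .ofNat (nat_lit 40822570)]), ((nat_lit 1, nat_lit 4, false), [.ofNat (nat_lit
 34515201), .ofNat (nat_lit 1869430), .ofNat (nat_lit 15147733), .ofNat (nat_lit 16978957)]),
 ((nat_lit 1, nat_lit 5, false), [.ofNat (nat_lit 46635891), .negSucc (nat_lit 9708208), .ofNat
 (nat_lit 5737404), .ofNat (nat_lit 2601795), .ofNat (nat_lit 17699366)]), ((nat_lit 1, nat_lit 6,
 false), [.ofNat (nat_lit 94393452), .negSucc (nat_lit 12473448), .negSucc (nat_lit 8537395),
 .ofNat (nat_lit 7122617), .negSucc (nat_lit 7028961), .ofNat (nat_lit 21184023)]), ((nat_lit 1,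
 nat_lit 8, false), [.negSucc (nat_lit 28299438), .ofNat (nat_lit 9412012), .negSucc (nat_lit
 5959308), .ofNat (nat_lit 4329435), .negSucc (nat_lit 6821450), .negSucc (nat_lit 4987376),
 .ofNat (nat_lit 13922123)]), ((nat_lit 2, nat_lit 1, false), [.negSucc (nat_lit 7617392), .ofNat
 (nat_lit 2783458), .ofNat (nat_lit 3712964), .negSucc (nat_lit 7054178), .ofNat (nat_lit
 4852604), .negSucc (nat_lit 6790247), .negSucc (nat_lit 164613), .ofNat (nat_lit 11894083)]),
 ((nat_lit 2, nat_lit 2, false), [.negSucc (nat_lit 20032524), .ofNat (nat_lit 16980922), .ofNat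
 (nat_lit 1450652), .negSucc (nat_lit 2990853), .ofNat (nat_lit 18361913), .negSucc (nat_lit
 1868881), .negSucc (nat_lit 9511646), .ofNat (nat_lit 9103267), .ofNat (nat_lit 16271510)]),
 ((nat_lit 2, nat_lit 3, false), [.negSucc (nat_lit 104385957), .ofNat (nat_lit 7925129), .ofNat
 (nat_lit 89745123), .negSucc (nat_lit 6968663), .negSucc (nat_lit 4668969), .negSucc (nat_lit
 11225038), .ofNat (nat_lit 7627312), .negSucc (nat_lit 720785), .negSucc (nat_lit 3072243),
 .ofNat (nat_lit 18499212)]), ((nat_lit 2, nat_lit 4, false), [.ofNat (nat_lit 24149213), .negSucc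
 (nat_lit 7186049), .ofNat (nat_lit 10201577), .ofNat (nat_lit 14455252), .ofNat (nat_lit
 16721401), .negSucc (nat_lit 2284253), .negSucc (nat_lit 2842631), .ofNat (nat_lit 6985563),
 .ofNat (nat_lit 9760270), .negSucc (nat_lit 1683018), .ofNat (nat_lit 18422446)]), ((nat_lit 2,
 nat_lit 5, false), [.negSucc (nat_lit 79726635), .ofNat (nat_lit 8390727), .negSucc (nat_lit
 14712357), .negSucc (nat_lit 18257580), .ofNat (nat_lit 34373113), .negSucc (nat_lit 13094682),
 .negSucc (nat_lit 42486), .ofNat (nat_lit 22739976), .negSucc (nat_lit 4875825), .negSucc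
 (nat_lit 17123428), .ofNat (nat_lit 841570), .ofNat (nat_lit 21729232)]), ((nat_lit 2, nat_lit 6,
 false), [.ofNat (nat_lit 3570997), .ofNat (nat_lit 4851415), .negSucc (nat_lit 43058976),
 .negSucc (nat_lit 5975808), .negSucc (nat_lit 16631614), .ofNat (nat_lit 17674312), .ofNat
 (nat_lit 7178234), .ofNat (nat_lit 8939129), .negSucc (nat_lit 1422941), .negSucc (nat_lit
 1768430), .negSucc (nat_lit 1849831), .ofNat (nat_lit 12299536), .ofNat (nat_lit 18221248)]),
 ((nat_lit 2, nat_lit 8, false), [.negSucc (nat_lit 45028524), .ofNat (nat_lit 5241704), .negSucc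
 (nat_lit 9415190), .negSucc (nat_lit 626443), .negSucc (nat_lit 9713323), .negSucc (nat_lit
 5014664), .ofNat (nat_lit 22882705), .ofNat (nat_lit 2251821), .ofNat (nat_lit 1041979), .ofNat
 (nat_lit 366704), .ofNat (nat_lit 8608879), .negSucc (nat_lit 2093361), .negSucc (nat_lit
 4035987), .ofNat (nat_lit 14996375)]), ((nat_lit 3, nat_lit 1, false), [.ofNat (nat_lit
 14100271), .ofNat (nat_lit 7887277), .negSucc (nat_lit 38320060), .negSucc (nat_lit 5805672),
 .negSucc (nat_lit 4753973), .ofNat (nat_lit 1217894), .ofNat (nat_lit 4902206), .negSucc (nat_lit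
 278223), .negSucc (nat_lit 846994), .negSucc (nat_lit 2437714), .ofNat (nat_lit 2867653), .ofNat
 (nat_lit 611398), .ofNat (nat_lit 757718), .negSucc (nat_lit 2330364), .ofNat (nat_lit
 8908916)]), ((nat_lit 3, nat_lit 2, false), [.negSucc (nat_lit 104385957), .ofNat (nat_lit
 26667223), .negSucc (nat_lit 77169235), .negSucc (nat_lit 24086157), .negSucc (nat_lit 9435810),
 .negSucc (nat_lit 4635956), .ofNat (nat_lit 9948611), .ofNat (nat_lit 16102882), .negSucc
 (nat_lit 12816125), .negSucc (nat_lit 14543820), .ofNat (nat_lit 9378381), .ofNat (nat_lit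
 7731925), .ofNat (nat_lit 5150510), .negSucc (nat_lit 56520), .ofNat (nat_lit 15345779), .ofNat
 (nat_lit 14933094)]), ((nat_lit 3, nat_lit 3, false), [.negSucc (nat_lit 102826563), .ofNat
 (nat_lit 18499436), .ofNat (nat_lit 6163928), .negSucc (nat_lit 15473584), .ofNat (nat_lit
 2622944), .negSucc (nat_lit 9488339), .ofNat (nat_lit 5970685), .ofNat (nat_lit 4304544),
 .negSucc (nat_lit 674601), .negSucc (nat_lit 7746744), .ofNat (nat_lit 3361162), .ofNat (nat_lit
 1274205), .ofNat (nat_lit 2101994), .negSucc (nat_lit 3427860), .ofNat (nat_lit 9225176),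
 .negSucc (nat_lit 3382121), .ofNat (nat_lit 12064218)]), ((nat_lit 3, nat_lit 4, false),
 [.negSucc (nat_lit 98236309), .ofNat (nat_lit 7231639), .negSucc (nat_lit 21081295), .negSucc
 (nat_lit 12483922), .negSucc (nat_lit 7769103), .negSucc (nat_lit 7520362), .negSucc (nat_lit
 1253074), .ofNat (nat_lit 18146714), .negSucc (nat_lit 10518838), .negSucc (nat_lit 16981291),
 .negSucc (nat_lit 1236387), .ofNat (nat_lit 14872635), .ofNat (nat_lit 7919636), .ofNat (nat_lit
 5966642), .ofNat (nat_lit 6164614), .ofNat (nat_lit 20603624), .ofNat (nat_lit 600267), .ofNat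
 (nat_lit 14790247)]), ((nat_lit 3, nat_lit 5, false), [.ofNat (nat_lit 102712001), .negSucc
 (nat_lit 9559863), .ofNat (nat_lit 55496479), .ofNat (nat_lit 24293250), .ofNat (nat_lit
 1679458), .ofNat (nat_lit 10697585), .ofNat (nat_lit 13323082), .negSucc (nat_lit 37186242),
 .ofNat (nat_lit 1298145), .ofNat (nat_lit 36495746), .ofNat (nat_lit 338796), .negSucc (nat_lit
 31167411), .negSucc (nat_lit 7948157), .negSucc (nat_lit 4573961), .ofNat (nat_lit 973825),
 .negSucc (nat_lit 8127370), .negSucc (nat_lit 1743871), .ofNat (nat_lit 896834), .ofNat (nat_lit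
 19972186)]), ((nat_lit 3, nat_lit 6, false), [.ofNat (nat_lit 225609684), .negSucc (nat_lit
 47138729), .ofNat (nat_lit 104959696), .ofNat (nat_lit 37404414), .ofNat (nat_lit 17754730),
 .ofNat (nat_lit 16951000), .negSucc (nat_lit 13343527), .negSucc (nat_lit 21995386), .ofNat
 (nat_lit 8598795), .ofNat (nat_lit 21334497), .negSucc (nat_lit 3512745), .negSucc (nat_lit
 24860465), .negSucc (nat_lit 13218565), .ofNat (nat_lit 4128387), .negSucc (nat_lit 2144757),
 .negSucc (nat_lit 3969554), .ofNat (nat_lit 12209369), .negSucc (nat_lit 7505805), .ofNat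
 (nat_lit 11320768), .ofNat (nat_lit 23402563)]), ((nat_lit 3, nat_lit 8, false), [.ofNat (nat_lit
 81158501), .negSucc (nat_lit 24267019), .ofNat (nat_lit 33610028), .ofNat (nat_lit 10764155),
 .ofNat (nat_lit 1063701), .negSucc (nat_lit 2381110), .negSucc (nat_lit 9032462), .ofNat (nat_lit
 2503067), .ofNat (nat_lit 4198965), .negSucc (nat_lit 5526538), .negSucc (nat_lit 10157480),
 .ofNat (nat_lit 5019019), .ofNat (nat_lit 5251418), .ofNat (nat_lit 440114), .negSucc (nat_lit
 3190350), .ofNat (nat_lit 2141516), .negSucc (nat_lit 1610977), .ofNat (nat_lit 16309374),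
 .negSucc (nat_lit 890280), .ofNat (nat_lit 6664670), .ofNat (nat_lit 11348488)]), ((nat_lit 4,
 nat_lit 1, false), [.ofNat (nat_lit 34515201), .negSucc (nat_lit 3470522), .negSucc (nat_lit
 16853518), .negSucc (nat_lit 37558), .negSucc (nat_lit 1189671), .negSucc (nat_lit 333097),
 .negSucc (nat_lit 755853), .ofNat (nat_lit 8977263), .ofNat (nat_lit 1137964), .ofNat (nat_lit
 981543), .negSucc (nat_lit 3919226), .negSucc (nat_lit 3332131), .negSucc (nat_lit 1111085),
 .negSucc (nat_lit 506099), .ofNat (nat_lit 468286), .negSucc (nat_lit 865271), .ofNat (nat_lit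
 1467766), .negSucc (nat_lit 508904), .ofNat (nat_lit 1502504), .negSucc (nat_lit 1826190),
 .negSucc (nat_lit 423064), .ofNat (nat_lit 10153444)]), ((nat_lit 4, nat_lit 2, false), [.ofNat
 (nat_lit 24149213), .ofNat (nat_lit 5718970), .negSucc (nat_lit 13275494), .ofNat (nat_lit
 1522313), .ofNat (nat_lit 497614), .ofNat (nat_lit 5056032), .negSucc (nat_lit 8634976), .negSucc
 (nat_lit 3881148), .ofNat (nat_lit 17853134), .ofNat (nat_lit 854841), .negSucc (nat_lit
 11176070), .ofNat (nat_lit 11307), .negSucc (nat_lit 830130), .negSucc (nat_lit 2174645), .ofNat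
 (nat_lit 318088), .negSucc (nat_lit 62674), .ofNat (nat_lit 1256023), .ofNat (nat_lit 1978458),
 .ofNat (nat_lit 2399139), .negSucc (nat_lit 2031523), .negSucc (nat_lit 1349129), .ofNat (nat_lit
 13534547), .ofNat (nat_lit 12918099)]), ((nat_lit 4, nat_lit 3, false), [.negSucc (nat_lit
 98236309), .ofNat (nat_lit 15430554), .ofNat (nat_lit 28470370), .negSucc (nat_lit 3568861),
 .negSucc (nat_lit 2979062), .negSucc (nat_lit 8428401), .ofNat (nat_lit 12613796), .negSucc
 (nat_lit 7818798), .negSucc (nat_lit 4731254), .ofNat (nat_lit 27518025), .ofNat (nat_lit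
 5921534), .negSucc (nat_lit 6391310), .negSucc (nat_lit 5799880), .negSucc (nat_lit 2589525),
 .ofNat (nat_lit 2133942), .ofNat (nat_lit 2133110), .ofNat (nat_lit 1804068), .negSucc (nat_lit
 1868014), .ofNat (nat_lit 309112), .negSucc (nat_lit 250002), .negSucc (nat_lit 135924), .ofNat
 (nat_lit 5676776), .negSucc (nat_lit 5385658), .ofNat (nat_lit 12935941)]), ((nat_lit 4, nat_lit
 4, false), [.ofNat (nat_lit 11577942), .negSucc (nat_lit 1388781), .negSucc (nat_lit 436950),
 .negSucc (nat_lit 1412992), .ofNat (nat_lit 4431027), .ofNat (nat_lit 598076), .negSucc (nat_lit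
 7779834), .negSucc (nat_lit 3912969), .ofNat (nat_lit 2045347), .ofNat (nat_lit 556272), .ofNat
 (nat_lit 10246590), .ofNat (nat_lit 2239949), .ofNat (nat_lit 3229092), .negSucc (nat_lit
 8381667), .negSucc (nat_lit 1638785), .negSucc (nat_lit 2483226), .ofNat (nat_lit 534184), .ofNat
 (nat_lit 3797010), .ofNat (nat_lit 751410), .ofNat (nat_lit 1539375), .ofNat (nat_lit 3559666),
 .ofNat (nat_lit 3577584), .ofNat (nat_lit 14625924), .ofNat (nat_lit 830888), .ofNat (nat_lit
 14445844)]), ((nat_lit 4, nat_lit 5, false), [.negSucc (nat_lit 41162389), .ofNat (nat_lit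
 27439085), .negSucc (nat_lit 12455531), .negSucc (nat_lit 3974442), .ofNat (nat_lit 15705867),
 .negSucc (nat_lit 4323406), .negSucc (nat_lit 1640814), .negSucc (nat_lit 3694043), .ofNat
 (nat_lit 6790731), .ofNat (nat_lit 4447082), .negSucc (nat_lit 4185174), .ofNat (nat_lit
 10598052), .negSucc (nat_lit 10995635), .negSucc (nat_lit 3487287), .negSucc (nat_lit 3086031),
 .negSucc (nat_lit 11495735), .ofNat (nat_lit 2434720), .negSucc (nat_lit 2364064), .ofNat
 (nat_lit 10193861), .ofNat (nat_lit 6840238), .ofNat (nat_lit 165520), .ofNat (nat_lit 6248373),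
 .negSucc (nat_lit 6395258), .negSucc (nat_lit 3434147), .ofNat (nat_lit 4545756), .ofNat (nat_lit
 16730779)]), ((nat_lit 4, nat_lit 6, false), [.ofNat (nat_lit 15664726), .negSucc (nat_lit
 10892038), .negSucc (nat_lit 12779090), .ofNat (nat_lit 661755), .negSucc (nat_lit 3511358),
 .negSucc (nat_lit 1571240), .negSucc (nat_lit 1738832), .ofNat (nat_lit 4578019), .ofNat (nat_lit
 758268), .negSucc (nat_lit 3522941), .negSucc (nat_lit 1206279), .ofNat (nat_lit 6066423), .ofNat
 (nat_lit 15599974), .ofNat (nat_lit 6909729), .ofNat (nat_lit 1610420), .ofNat (nat_lit 1088656),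
 .negSucc (nat_lit 123942), .negSucc (nat_lit 2543489), .ofNat (nat_lit 1437456), .ofNat (nat_lit
 1825745), .negSucc (nat_lit 641378), .negSucc (nat_lit 1439314), .ofNat (nat_lit 1753131), .ofNat
 (nat_lit 9597951), .negSucc (nat_lit 4333344), .ofNat (nat_lit 4891948), .ofNat (nat_lit
 13871447)]), ((nat_lit 4, nat_lit 8, false), [.ofNat (nat_lit 7966407), .negSucc (nat_lit
 7231898), .ofNat (nat_lit 28220320), .negSucc (nat_lit 2632680), .ofNat (nat_lit 1295391),
 .negSucc (nat_lit 824921), .negSucc (nat_lit 6270624), .ofNat (nat_lit 2603363), .negSucc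
 (nat_lit 2514919), .negSucc (nat_lit 3567604), .negSucc (nat_lit 2184412), .ofNat (nat_lit
 651751), .negSucc (nat_lit 63092), .ofNat (nat_lit 19647946), .negSucc (nat_lit 1540517),
 .negSucc (nat_lit 3314023), .negSucc (nat_lit 753321), .ofNat (nat_lit 2185140), .negSucc
 (nat_lit 897688), .ofNat (nat_lit 1687809), .ofNat (nat_lit 1334112), .ofNat (nat_lit 1654602),
 .ofNat (nat_lit 1851856), .ofNat (nat_lit 223063), .ofNat (nat_lit 14759317), .negSucc (nat_lit
 2803984), .negSucc (nat_lit 1218046), .ofNat (nat_lit 8545975)]), ((nat_lit 5, nat_lit 1, false),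
 [.ofNat (nat_lit 46635891), .ofNat (nat_lit 3678110), .negSucc (nat_lit 9076983), .ofNat (nat_lit
 2736489), .ofNat (nat_lit 138404), .ofNat (nat_lit 3244369), .negSucc (nat_lit 6426934), .negSucc
 (nat_lit 8415008), .ofNat (nat_lit 8516165), .negSucc (nat_lit 1113508), .negSucc (nat_lit
 4278961), .ofNat (nat_lit 2825174), .ofNat (nat_lit 135948), .negSucc (nat_lit 588095), .negSucc
 (nat_lit 2353452), .negSucc (nat_lit 2211997), .ofNat (nat_lit 1411630), .ofNat (nat_lit
 1548016), .negSucc (nat_lit 744802), .ofNat (nat_lit 960984), .ofNat (nat_lit 976775), .ofNat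
 (nat_lit 2939458), .negSucc (nat_lit 2131150), .negSucc (nat_lit 816534), .ofNat (nat_lit
 1492171), .ofNat (nat_lit 858877), .negSucc (nat_lit 3915), .ofNat (nat_lit 1235748), .ofNat
 (nat_lit 9225986)]), ((nat_lit 5, nat_lit 2, false), [.negSucc (nat_lit 79726635), .ofNat
 (nat_lit 37112270), .ofNat (nat_lit 21194256), .negSucc (nat_lit 5967274), .ofNat (nat_lit
 9897780), .negSucc (nat_lit 7887896), .negSucc (nat_lit 4539699), .negSucc (nat_lit 15588458),
 .ofNat (nat_lit 11240385), .ofNat (nat_lit 8985136), .negSucc (nat_lit 4218705), .negSucc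
 (nat_lit 2008467), .negSucc (nat_lit 5306179), .negSucc (nat_lit 2632336), .negSucc (nat_lit
 6275267), .negSucc (nat_lit 10057148), .ofNat (nat_lit 2432464), .ofNat (nat_lit 1331935), .ofNat
 (nat_lit 3172356), .ofNat (nat_lit 7370601), .ofNat (nat_lit 279328), .ofNat (nat_lit 6141164),
 .negSucc (nat_lit 3543502), .negSucc (nat_lit 2435936), .ofNat (nat_lit 1485693), .ofNat (nat_lit
 5309737), .ofNat (nat_lit 6449), .ofNat (nat_lit 3451902), .ofNat (nat_lit 15827173), .ofNat
 (nat_lit 12981610)]), ((nat_lit 5, nat_lit 3, false), [.ofNat (nat_lit 102712001), .negSucc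
 (nat_lit 29804616), .negSucc (nat_lit 62731058), .negSucc (nat_lit 3598858), .negSucc (nat_lit
 14011887), .ofNat (nat_lit 8982132), .negSucc (nat_lit 10925009), .ofNat (nat_lit 21608491),
 .negSucc (nat_lit 1718533), .negSucc (nat_lit 33339773), .negSucc (nat_lit 2380555), .ofNat
 (nat_lit 23623430), .ofNat (nat_lit 12489925), .ofNat (nat_lit 3639720), .ofNat (nat_lit
 3574195), .ofNat (nat_lit 10600426), .negSucc (nat_lit 990950), .ofNat (nat_lit 3709384),
 .negSucc (nat_lit 9414165), .negSucc (nat_lit 10308502), .ofNat (nat_lit 4199876), .negSucc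
 (nat_lit 1355295), .ofNat (nat_lit 1038938), .ofNat (nat_lit 4523002), .negSucc (nat_lit 390053),
 .negSucc (nat_lit 6308710), .negSucc (nat_lit 2721159), .negSucc (nat_lit 250154), .ofNat
 (nat_lit 8904800), .negSucc (nat_lit 6598848), .ofNat (nat_lit 14307340)]), ((nat_lit 5, nat_lit
 4, false), [.negSucc (nat_lit 41162389), .ofNat (nat_lit 7144362), .ofNat (nat_lit 15404356),
 .negSucc (nat_lit 5558889), .ofNat (nat_lit 23570021), .negSucc (nat_lit 10325313), .negSucc
 (nat_lit 10037005), .ofNat (nat_lit 13343652), .ofNat (nat_lit 1191447), .negSucc (nat_lit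
 10467806), .negSucc (nat_lit 3496410), .ofNat (nat_lit 11221477), .negSucc (nat_lit 2444824),
 .ofNat (nat_lit 3992948), .negSucc (nat_lit 3021003), .negSucc (nat_lit 3605155), .ofNat (nat_lit
 1584236), .negSucc (nat_lit 2608010), .negSucc (nat_lit 4114781), .ofNat (nat_lit 4950377),
 .ofNat (nat_lit 1409686), .ofNat (nat_lit 1865632), .negSucc (nat_lit 1186727), .negSucc (nat_lit
 417761), .ofNat (nat_lit 2159453), .ofNat (nat_lit 3768411), .negSucc (nat_lit 1246327), .negSucc
 (nat_lit 631491), .ofNat (nat_lit 3714160), .ofNat (nat_lit 19186567), .ofNat (nat_lit 2985339),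
 .ofNat (nat_lit 14413617)]), ((nat_lit 5, nat_lit 5, false), [.negSucc (nat_lit 18504245), .ofNat
 (nat_lit 8331830), .ofNat (nat_lit 976713), .negSucc (nat_lit 5387943), .ofNat (nat_lit
 12404472), .negSucc (nat_lit 4604925), .negSucc (nat_lit 3149895), .negSucc (nat_lit 1410819),
 .ofNat (nat_lit 3008896), .negSucc (nat_lit 2097964), .negSucc (nat_lit 558835), .negSucc
 (nat_lit 110649), .ofNat (nat_lit 3177924), .negSucc (nat_lit 1595364), .negSucc (nat_lit
 450922), .negSucc (nat_lit 554736), .ofNat (nat_lit 383868), .ofNat (nat_lit 972738), .negSucc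
 (nat_lit 4539404), .ofNat (nat_lit 940702), .negSucc (nat_lit 2025678), .ofNat (nat_lit 1350809),
 .ofNat (nat_lit 22444), .negSucc (nat_lit 1561107), .ofNat (nat_lit 1369831), .ofNat (nat_lit
 3279526), .ofNat (nat_lit 182488), .ofNat (nat_lit 3297012), .ofNat (nat_lit 5651156), .negSucc
 (nat_lit 5409098), .negSucc (nat_lit 1315064), .ofNat (nat_lit 4589477), .ofNat (nat_lit
 9647987)]), ((nat_lit 5, nat_lit 6, false), [.negSucc (nat_lit 45639255), .negSucc (nat_lit
 1603781), .negSucc (nat_lit 23386040), .negSucc (nat_lit 4930761), .negSucc (nat_lit 18340831),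
 .ofNat (nat_lit 9577796), .ofNat (nat_lit 12755602), .ofNat (nat_lit 3212833), .negSucc (nat_lit
 9691407), .ofNat (nat_lit 4364355), .ofNat (nat_lit 6348599), .negSucc (nat_lit 6410411),
 .negSucc (nat_lit 1351709), .ofNat (nat_lit 1897689), .ofNat (nat_lit 4640909), .ofNat (nat_lit
 6438612), .negSucc (nat_lit 3058923), .ofNat (nat_lit 864232), .negSucc (nat_lit 342128),
 .negSucc (nat_lit 9957208), .negSucc (nat_lit 129420), .negSucc (nat_lit 4156026), .ofNat
 (nat_lit 4801690), .ofNat (nat_lit 1764917), .negSucc (nat_lit 5607303), .negSucc (nat_lit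
 383994), .ofNat (nat_lit 3791197), .ofNat (nat_lit 587767), .ofNat (nat_lit 5259122), .ofNat
 (nat_lit 393866), .ofNat (nat_lit 17792409), .negSucc (nat_lit 7860878), .ofNat (nat_lit
 3575377), .ofNat (nat_lit 13488288)]), ((nat_lit 5, nat_lit 8, false), [.ofNat (nat_lit
 65106940), .negSucc (nat_lit 16599941), .negSucc (nat_lit 38663731), .ofNat (nat_lit 980495),
 .ofNat (nat_lit 11476972), .ofNat (nat_lit 3051967), .negSucc (nat_lit 1979672), .ofNat (nat_lit
 17528065), .negSucc (nat_lit 4558652), .negSucc (nat_lit 14042981), .ofNat (nat_lit 530104),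
 .ofNat (nat_lit 10167819), .ofNat (nat_lit 564314), .ofNat (nat_lit 2303533), .ofNat (nat_lit
 3112705), .ofNat (nat_lit 3643487), .ofNat (nat_lit 796037), .negSucc (nat_lit 3388961), .negSucc
 (nat_lit 6976075), .negSucc (nat_lit 2504820), .negSucc (nat_lit 1971572), .negSucc (nat_lit
 1236791), .negSucc (nat_lit 106679), .ofNat (nat_lit 1268624), .ofNat (nat_lit 2817339), .ofNat
 (nat_lit 506234), .ofNat (nat_lit 211175), .negSucc (nat_lit 4525578), .negSucc (nat_lit
 5706707), .ofNat (nat_lit 6531635), .ofNat (nat_lit 4231598), .ofNat (nat_lit 15966323), .negSucc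
 (nat_lit 984242), .ofNat (nat_lit 2552522), .ofNat (nat_lit 4862675)]), ((nat_lit 6, nat_lit 1,
 false), [.ofNat (nat_lit 94393452), .negSucc (nat_lit 17530254), .ofNat (nat_lit 3107604), .ofNat
 (nat_lit 10242753), .negSucc (nat_lit 5412877), .ofNat (nat_lit 6433300), .negSucc (nat_lit
 1454740), .negSucc (nat_lit 2556679), .ofNat (nat_lit 1874668), .ofNat (nat_lit 6277066),
 .negSucc (nat_lit 2067276), .negSucc (nat_lit 4439709), .negSucc (nat_lit 3205381), .ofNat
 (nat_lit 931438), .ofNat (nat_lit 6342624), .negSucc (nat_lit 2879066), .negSucc (nat_lit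
 4167730), .negSucc (nat_lit 1025853), .ofNat (nat_lit 992691), .ofNat (nat_lit 291223), .ofNat
 (nat_lit 3919593), .negSucc (nat_lit 5483697), .ofNat (nat_lit 2588213), .negSucc (nat_lit
 108653), .ofNat (nat_lit 58528), .ofNat (nat_lit 847204), .ofNat (nat_lit 691017), .negSucc
 (nat_lit 1001028), .ofNat (nat_lit 1110208), .ofNat (nat_lit 444823), .negSucc (nat_lit 610173),
 .negSucc (nat_lit 1020932), .negSucc (nat_lit 776786), .ofNat (nat_lit 674875), .negSucc (nat_lit
 577445), .ofNat (nat_lit 8456850)]), ((nat_lit 6, nat_lit 2, false), [.ofNat (nat_lit 3570997),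
 .negSucc (nat_lit 11888314), .ofNat (nat_lit 44009614), .ofNat (nat_lit 5656954), .negSucc
 (nat_lit 1221583), .negSucc (nat_lit 2550477), .ofNat (nat_lit 4647339), .negSucc (nat_lit
 1639657), .negSucc (nat_lit 4851336), .ofNat (nat_lit 10820491), .ofNat (nat_lit 2285949),
 .negSucc (nat_lit 12058805), .negSucc (nat_lit 1414300), .ofNat (nat_lit 1066356), .ofNat
 (nat_lit 2563418), .ofNat (nat_lit 3768254), .negSucc (nat_lit 5993511), .negSucc (nat_lit
 8417813), .ofNat (nat_lit 6767422), .ofNat (nat_lit 1413204), .ofNat (nat_lit 3595097), .negSucc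
 (nat_lit 6390595), .ofNat (nat_lit 1140092), .ofNat (nat_lit 118348), .ofNat (nat_lit 2301936),
 .ofNat (nat_lit 887398), .negSucc (nat_lit 2157209), .ofNat (nat_lit 649819), .negSucc (nat_lit
 158381), .ofNat (nat_lit 2807125), .negSucc (nat_lit 1886174), .negSucc (nat_lit 1749298),
 .negSucc (nat_lit 1722259), .ofNat (nat_lit 370018), .negSucc (nat_lit 3652830), .ofNat (nat_lit
 17412876), .ofNat (nat_lit 10629723)]), ((nat_lit 6, nat_lit 3, false), [.ofNat (nat_lit
 225609684), .negSucc (nat_lit 17476798), .negSucc (nat_lit 121912654), .ofNat (nat_lit 11593956),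
 .negSucc (nat_lit 9732899), .ofNat (nat_lit 23650958), .negSucc (nat_lit 12193582), .negSucc
 (nat_lit 278539), .ofNat (nat_lit 13436770), .negSucc (nat_lit 15263723), .negSucc (nat_lit
 7641382), .ofNat (nat_lit 19171966), .ofNat (nat_lit 2224697), .negSucc (nat_lit 1147158), .ofNat
 (nat_lit 11772767), .negSucc (nat_lit 2879150), .ofNat (nat_lit 11206941), .ofNat (nat_lit
 3804215), .negSucc (nat_lit 13349420), .negSucc (nat_lit 16654710), .ofNat (nat_lit 5954712),
 .ofNat (nat_lit 1648413), .negSucc (nat_lit 2789971), .negSucc (nat_lit 4306793), .ofNat (nat_lit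
 4011975), .ofNat (nat_lit 1791067), .ofNat (nat_lit 5437090), .negSucc (nat_lit 6097055), .ofNat
 (nat_lit 822365), .negSucc (nat_lit 1562447), .ofNat (nat_lit 1828461), .ofNat (nat_lit 1513137),
 .ofNat (nat_lit 1081583), .negSucc (nat_lit 2723862), .ofNat (nat_lit 3266132), .ofNat (nat_lit
 5296824), .negSucc (nat_lit 4258351), .ofNat (nat_lit 15378996)]), ((nat_lit 6, nat_lit 4,
 false), [.ofNat (nat_lit 15664726), .negSucc (nat_lit 2027026), .ofNat (nat_lit 10027239), .ofNat
 (nat_lit 5810583), .negSucc (nat_lit 2551115), .ofNat (nat_lit 4935237), .ofNat (nat_lit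
 2416569), .negSucc (nat_lit 10708194), .ofNat (nat_lit 1064719), .ofNat (nat_lit 8211020), .ofNat
 (nat_lit 1586398), .negSucc (nat_lit 5097056), .negSucc (nat_lit 2469915), .ofNat (nat_lit
 785193), .negSucc (nat_lit 2589207), .ofNat (nat_lit 2496083), .ofNat (nat_lit 2506889), .ofNat
 (nat_lit 901918), .ofNat (nat_lit 3324541), .negSucc (nat_lit 1998637), .negSucc (nat_lit
 6386492), .ofNat (nat_lit 2212392), .negSucc (nat_lit 3194817), .negSucc (nat_lit 1076450),
 .ofNat (nat_lit 193186), .negSucc (nat_lit 196627), .negSucc (nat_lit 969081), .ofNat (nat_lit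
 559705), .negSucc (nat_lit 2545535), .ofNat (nat_lit 32102), .negSucc (nat_lit 947828), .ofNat
 (nat_lit 1831718), .ofNat (nat_lit 277273), .negSucc (nat_lit 183196), .ofNat (nat_lit 1078630),
 .ofNat (nat_lit 5668105), .ofNat (nat_lit 18168084), .ofNat (nat_lit 1861944), .ofNat (nat_lit
 12135883)]), ((nat_lit 6, nat_lit 5, false), [.negSucc (nat_lit 45639255), .negSucc (nat_lit
 10379269), .ofNat (nat_lit 25707914), .ofNat (nat_lit 1482997), .negSucc (nat_lit 16646126),
 .ofNat (nat_lit 4583389), .ofNat (nat_lit 6545236), .ofNat (nat_lit 2515744), .negSucc (nat_lit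
 9457672), .ofNat (nat_lit 5458133), .ofNat (nat_lit 1330340), .ofNat (nat_lit 6144), .negSucc
 (nat_lit 2073239), .ofNat (nat_lit 6078373), .ofNat (nat_lit 3703107), .ofNat (nat_lit 4100694),
 .negSucc (nat_lit 4622667), .ofNat (nat_lit 3383373), .ofNat (nat_lit 13735277), .negSucc
 (nat_lit 7924237), .negSucc (nat_lit 662979), .negSucc (nat_lit 9182070), .ofNat (nat_lit
 6747469), .negSucc (nat_lit 463944), .negSucc (nat_lit 5635892), .negSucc (nat_lit 11161793),
 .ofNat (nat_lit 1905550), .ofNat (nat_lit 1293232), .ofNat (nat_lit 5766155), .negSucc (nat_lit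
 7695925), .ofNat (nat_lit 2509269), .ofNat (nat_lit 3440659), .ofNat (nat_lit 1402344), .ofNat
 (nat_lit 3222160), .negSucc (nat_lit 2272610), .ofNat (nat_lit 1772130), .negSucc (nat_lit
 4675180), .negSucc (nat_lit 2616444), .ofNat (nat_lit 5517699), .ofNat (nat_lit 12651323)]),
 ((nat_lit 6, nat_lit 6, false), [.negSucc (nat_lit 215763486), .ofNat (nat_lit 39240939), .ofNat
 (nat_lit 8083959), .negSucc (nat_lit 24339662), .ofNat (nat_lit 14316413), .negSucc (nat_lit
 22272791), .ofNat (nat_lit 4371663), .ofNat (nat_lit 10808891), .negSucc (nat_lit 1788915),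
 .negSucc (nat_lit 5881037), .ofNat (nat_lit 3181640), .ofNat (nat_lit 6862102), .ofNat (nat_lit
 4821769), .negSucc (nat_lit 5966358), .negSucc (nat_lit 5512013), .negSucc (nat_lit 1004094),
 .ofNat (nat_lit 1225233), .negSucc (nat_lit 1238950), .negSucc (nat_lit 1239504), .ofNat (nat_lit
 10997311), .negSucc (nat_lit 2654930), .ofNat (nat_lit 3499807), .negSucc (nat_lit 106357),
 .negSucc (nat_lit 3426599), .negSucc (nat_lit 1613640), .negSucc (nat_lit 4357479), .negSucc
 (nat_lit 2393380), .ofNat (nat_lit 8554412), .negSucc (nat_lit 262961), .ofNat (nat_lit 72583),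
 .ofNat (nat_lit 679336), .ofNat (nat_lit 1340577), .ofNat (nat_lit 1406198), .ofNat (nat_lit
 1975826), .ofNat (nat_lit 1243277), .ofNat (nat_lit 4829171), .negSucc (nat_lit 2265324), .ofNat
 (nat_lit 18359862), .negSucc (nat_lit 5082440), .ofNat (nat_lit 2595141), .ofNat (nat_lit
 13098486)]), ((nat_lit 6, nat_lit 8, false), [.ofNat (nat_lit 29441623), .ofNat (nat_lit
 3916189), .negSucc (nat_lit 17868498), .negSucc (nat_lit 314579), .negSucc (nat_lit 1887971),
 .ofNat (nat_lit 2889960), .ofNat (nat_lit 2438290), .negSucc (nat_lit 5008188), .ofNat (nat_lit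
 4982089), .ofNat (nat_lit 4219452), .ofNat (nat_lit 865495), .negSucc (nat_lit 2323844), .negSucc
 (nat_lit 2949351), .negSucc (nat_lit 5451294), .negSucc (nat_lit 1082072), .negSucc (nat_lit
 8518537), .ofNat (nat_lit 882428), .ofNat (nat_lit 8283744), .negSucc (nat_lit 2711067), .ofNat
 (nat_lit 4249426), .ofNat (nat_lit 4677711), .ofNat (nat_lit 3381415), .negSucc (nat_lit
 1124879), .negSucc (nat_lit 2310675), .negSucc (nat_lit 3914086), .negSucc (nat_lit 375586),
 .ofNat (nat_lit 4577029), .negSucc (nat_lit 2030412), .negSucc (nat_lit 1411473), .negSucc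
 (nat_lit 1498070), .negSucc (nat_lit 11678), .ofNat (nat_lit 1407049), .ofNat (nat_lit 2846533),
 .ofNat (nat_lit 959534), .ofNat (nat_lit 4567032), .negSucc (nat_lit 4503979), .ofNat (nat_lit
 7179880), .ofNat (nat_lit 1655033), .ofNat (nat_lit 13663353), .negSucc (nat_lit 501321), .ofNat
 (nat_lit 3941616), .ofNat (nat_lit 2673649)]), ((nat_lit 8, nat_lit 1, false), [.negSucc (nat_lit
 28299438), .negSucc (nat_lit 1665903), .ofNat (nat_lit 8835374), .negSucc (nat_lit 3761125),
 .negSucc (nat_lit 3566371), .negSucc (nat_lit 4636078), .ofNat (nat_lit 3869651), .ofNat (nat_lit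
 7561966), .negSucc (nat_lit 4985000), .negSucc (nat_lit 4401769), .negSucc (nat_lit 465115),
 .negSucc (nat_lit 1294171), .ofNat (nat_lit 1622503), .ofNat (nat_lit 3752739), .negSucc (nat_lit
 1256262), .ofNat (nat_lit 1437077), .ofNat (nat_lit 204704), .negSucc (nat_lit 760491), .ofNat
 (nat_lit 886210), .negSucc (nat_lit 886604), .negSucc (nat_lit 403661), .ofNat (nat_lit 7746498),
 .ofNat (nat_lit 149889), .negSucc (nat_lit 52846), .negSucc (nat_lit 4189181), .negSucc (nat_lit
 693068), .negSucc (nat_lit 2746807), .ofNat (nat_lit 1087987), .negSucc (nat_lit 776180),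
 .negSucc (nat_lit 319150), .ofNat (nat_lit 163665), .ofNat (nat_lit 585692), .negSucc (nat_lit
 2053441), .ofNat (nat_lit 654582), .negSucc (nat_lit 2568147), .ofNat (nat_lit 1555633), .ofNat
 (nat_lit 362447), .negSucc (nat_lit 672943), .negSucc (nat_lit 891976), .ofNat (nat_lit 1312250),
 .negSucc (nat_lit 1271753), .ofNat (nat_lit 1308082), .ofNat (nat_lit 5471087)]), ((nat_lit 8,
 nat_lit 2, false), [.negSucc (nat_lit 45028524), .negSucc (nat_lit 358006), .ofNat (nat_lit
 13192919), .negSucc (nat_lit 4172315), .negSucc (nat_lit 10879977), .negSucc (nat_lit 2937369),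
 .ofNat (nat_lit 9101768), .ofNat (nat_lit 3785185), .negSucc (nat_lit 3140006), .negSucc (nat_lit
 4642028), .negSucc (nat_lit 3715643), .ofNat (nat_lit 2166173), .negSucc (nat_lit 927368), .ofNat
 (nat_lit 7650181), .negSucc (nat_lit 1553257), .ofNat (nat_lit 5211150), .ofNat (nat_lit 201685),
 .negSucc (nat_lit 592839), .negSucc (nat_lit 191019), .negSucc (nat_lit 1739913), .negSucc
 (nat_lit 2296057), .ofNat (nat_lit 4025444), .ofNat (nat_lit 7556269), .ofNat (nat_lit 913395),
 .negSucc (nat_lit 10097535), .ofNat (nat_lit 2206971), .negSucc (nat_lit 3429358), .negSucc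
 (nat_lit 2802203), .negSucc (nat_lit 703674), .negSucc (nat_lit 1055219), .ofNat (nat_lit
 148544), .ofNat (nat_lit 870294), .negSucc (nat_lit 3329462), .ofNat (nat_lit 1048382), .negSucc
 (nat_lit 3249886), .ofNat (nat_lit 1250251), .ofNat (nat_lit 631115), .ofNat (nat_lit 231449),
 .ofNat (nat_lit 310035), .ofNat (nat_lit 3266913), .negSucc (nat_lit 2406797), .ofNat (nat_lit
 1906212), .ofNat (nat_lit 14756149), .ofNat (nat_lit 7521721)]), ((nat_lit 8, nat_lit 3, false),
 [.ofNat (nat_lit 81158501), .ofNat (nat_lit 2017294), .negSucc (nat_lit 39747477), .ofNat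
 (nat_lit 7572124), .ofNat (nat_lit 2054871), .ofNat (nat_lit 11173518), .ofNat (nat_lit 4603840),
 .negSucc (nat_lit 12257929), .negSucc (nat_lit 610256), .ofNat (nat_lit 6738314), .ofNat (nat_lit
 4478077), .negSucc (nat_lit 7103489), .negSucc (nat_lit 6765729), .negSucc (nat_lit 7087321),
 .ofNat (nat_lit 1007869), .negSucc (nat_lit 596050), .ofNat (nat_lit 1220286), .negSucc (nat_lit
 1138418), .negSucc (nat_lit 778819), .negSucc (nat_lit 1537924), .ofNat (nat_lit 1879322), .ofNat
 (nat_lit 7510717), .negSucc (nat_lit 6149837), .ofNat (nat_lit 13064869), .ofNat (nat_lit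
 3805612), .negSucc (nat_lit 689849), .negSucc (nat_lit 2266930), .ofNat (nat_lit 2074761),
 .negSucc (nat_lit 770224), .negSucc (nat_lit 697627), .negSucc (nat_lit 1458787), .ofNat (nat_lit
 1195591), .negSucc (nat_lit 2030510), .negSucc (nat_lit 2602873), .negSucc (nat_lit 25270),
 .ofNat (nat_lit 680943), .ofNat (nat_lit 1740828), .ofNat (nat_lit 3082998), .negSucc (nat_lit
 1920206), .ofNat (nat_lit 329567), .negSucc (nat_lit 1241851), .negSucc (nat_lit 1387170), .ofNat
 (nat_lit 3117667), .negSucc (nat_lit 5649839), .ofNat (nat_lit 7693968)]), ((nat_lit 8, nat_lit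
 4, false), [.ofNat (nat_lit 7966407), .ofNat (nat_lit 8753167), .negSucc (nat_lit 28331847),
 .negSucc (nat_lit 523300), .ofNat (nat_lit 270741), .ofNat (nat_lit 1599797), .ofNat (nat_lit
 6262843), .negSucc (nat_lit 2843482), .negSucc (nat_lit 1958777), .ofNat (nat_lit 4923220),
 .ofNat (nat_lit 1087197), .negSucc (nat_lit 320234), .negSucc (nat_lit 1811509), .negSucc
 (nat_lit 8085987), .ofNat (nat_lit 165971), .negSucc (nat_lit 328939), .ofNat (nat_lit 835614),
 .negSucc (nat_lit 1348506), .negSucc (nat_lit 1496375), .ofNat (nat_lit 391302), .ofNat (nat_lit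
 14370), .negSucc (nat_lit 5080430), .ofNat (nat_lit 816957), .ofNat (nat_lit 2731253), .ofNat
 (nat_lit 6646697), .ofNat (nat_lit 4956193), .ofNat (nat_lit 2275841), .negSucc (nat_lit
 5246513), .ofNat (nat_lit 527015), .ofNat (nat_lit 285726), .negSucc (nat_lit 724286), .negSucc
 (nat_lit 903069), .ofNat (nat_lit 1516835), .ofNat (nat_lit 1317503), .ofNat (nat_lit 645883),
 .negSucc (nat_lit 2596597), .negSucc (nat_lit 485243), .ofNat (nat_lit 1811829), .ofNat (nat_lit
 3914476), .ofNat (nat_lit 1052133), .ofNat (nat_lit 2365613), .ofNat (nat_lit 1814706), .ofNat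
 (nat_lit 13018376), .ofNat (nat_lit 15816777), .negSucc (nat_lit 304326), .ofNat (nat_lit
 3934495)]), ((nat_lit 8, nat_lit 5, false), [.ofNat (nat_lit 65106940), .ofNat (nat_lit 2802358),
 .ofNat (nat_lit 33494172), .ofNat (nat_lit 15761795), .negSucc (nat_lit 6292887), .ofNat (nat_lit
 4782765), .negSucc (nat_lit 7474274), .negSucc (nat_lit 20024648), .ofNat (nat_lit 9525883),
 .ofNat (nat_lit 15487921), .negSucc (nat_lit 6958825), .negSucc (nat_lit 6497250), .negSucc
 (nat_lit 9134290), .ofNat (nat_lit 974205), .negSucc (nat_lit 4238378), .negSucc (nat_lit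
 9737457), .ofNat (nat_lit 1257099), .negSucc (nat_lit 1349473), .ofNat (nat_lit 9299177), .ofNat
 (nat_lit 6717726), .ofNat (nat_lit 1201241), .ofNat (nat_lit 4746550), .negSucc (nat_lit
 4153576), .negSucc (nat_lit 3670450), .ofNat (nat_lit 3321452), .ofNat (nat_lit 16724311), .ofNat
 (nat_lit 329935), .ofNat (nat_lit 1190390), .ofNat (nat_lit 1347385), .negSucc (nat_lit 2206117),
 .ofNat (nat_lit 1166685), .ofNat (nat_lit 1349760), .negSucc (nat_lit 1598608), .ofNat (nat_lit
 374191), .negSucc (nat_lit 2119273), .ofNat (nat_lit 585944), .negSucc (nat_lit 145987), .negSucc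
 (nat_lit 769516), .negSucc (nat_lit 132051), .ofNat (nat_lit 2881136), .ofNat (nat_lit 1102142),
 .ofNat (nat_lit 792881), .ofNat (nat_lit 84045), .negSucc (nat_lit 1513645), .negSucc (nat_lit
 3893330), .ofNat (nat_lit 1480640), .ofNat (nat_lit 3187019)]), ((nat_lit 8, nat_lit 6, false),
 [.ofNat (nat_lit 29441623), .negSucc (nat_lit 8448083), .ofNat (nat_lit 16484519), .ofNat
 (nat_lit 3109763), .ofNat (nat_lit 5398288), .negSucc (nat_lit 1396872), .negSucc (nat_lit
 7303830), .ofNat (nat_lit 1107959), .negSucc (nat_lit 2379099), .negSucc (nat_lit 10102432),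
 .ofNat (nat_lit 339055), .negSucc (nat_lit 994545), .negSucc (nat_lit 1717547), .ofNat (nat_lit
 3158665), .ofNat (nat_lit 596351), .negSucc (nat_lit 704135), .negSucc (nat_lit 2097065),
 .negSucc (nat_lit 1264369), .negSucc (nat_lit 1209963), .ofNat (nat_lit 275842), .negSucc
 (nat_lit 1178542), .negSucc (nat_lit 1564036), .ofNat (nat_lit 4546526), .ofNat (nat_lit
 7912783), .negSucc (nat_lit 2058225), .ofNat (nat_lit 2265983), .ofNat (nat_lit 11988947), .ofNat
 (nat_lit 6251030), .negSucc (nat_lit 228226), .negSucc (nat_lit 1500128), .negSucc (nat_lit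
 1114564), .ofNat (nat_lit 1261024), .negSucc (nat_lit 2657654), .negSucc (nat_lit 2781577),
 .negSucc (nat_lit 36048), .negSucc (nat_lit 141360), .ofNat (nat_lit 2157284), .ofNat (nat_lit
 3445757), .negSucc (nat_lit 1205014), .ofNat (nat_lit 943661), .negSucc (nat_lit 727201),
 .negSucc (nat_lit 1700134), .ofNat (nat_lit 3894524), .negSucc (nat_lit 6755606), .ofNat (nat_lit
 8192677), .negSucc (nat_lit 3677377), .ofNat (nat_lit 705775), .ofNat (nat_lit 1437896)]),
 ((nat_lit 8, nat_lit 8, false), [.negSucc (nat_lit 5946766), .ofNat (nat_lit 8393649), .ofNat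
 (nat_lit 297023), .negSucc (nat_lit 1342083), .ofNat (nat_lit 12166523), .negSucc (nat_lit
 3234923), .negSucc (nat_lit 7780444), .ofNat (nat_lit 2088888), .ofNat (nat_lit 813291), .negSucc
 (nat_lit 1116567), .negSucc (nat_lit 5544350), .ofNat (nat_lit 46919), .ofNat (nat_lit 1751730),
 .negSucc (nat_lit 596349), .ofNat (nat_lit 424858), .negSucc (nat_lit 4111202), .negSucc (nat_lit
 650525), .negSucc (nat_lit 652026), .negSucc (nat_lit 1147072), .ofNat (nat_lit 1174810),
 .negSucc (nat_lit 1177186), .ofNat (nat_lit 72075), .negSucc (nat_lit 6451886), .ofNat (nat_lit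
 1156847), .ofNat (nat_lit 12862976), .negSucc (nat_lit 739908), .ofNat (nat_lit 1718110), .ofNat
 (nat_lit 7179017), .ofNat (nat_lit 421705), .ofNat (nat_lit 1018276), .negSucc (nat_lit 675801),
 .negSucc (nat_lit 1165433), .ofNat (nat_lit 2745878), .ofNat (nat_lit 905075), .ofNat (nat_lit
 1415083), .negSucc (nat_lit 2290959), .negSucc (nat_lit 736582), .ofNat (nat_lit 890570), .ofNat
 (nat_lit 2670739), .negSucc (nat_lit 879952), .ofNat (nat_lit 3448650), .ofNat (nat_lit 1295792),
 .ofNat (nat_lit 3741506), .ofNat (nat_lit 8298429), .negSucc (nat_lit 265332), .ofNat (nat_lit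
 3975585), .ofNat (nat_lit 136614), .ofNat (nat_lit 51674), .ofNat (nat_lit 237854)])]

/-- the commands -/
noncomputable def C8 : List Cmd := [.m (nat_lit 2) (nat_lit 25) B8_0]

theorem c_ok8 : okL 6 ES C8 = true := by decide +kernel

theorem t_ok8 : eqT (run (.ofNat (nat_lit 28)) (.ofNat (nat_lit 25)) XT DD C8 U7) U8 = true := by decide +kernel

end Pool.Agent.H58.BJ.D6
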