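import Pool.Agent.H58.BJ.D6.U8
import Pool.Agent.H58.BJ.D6.U9

/-! # Certificate data (6 jets, exponent 28/25) -/

set_option autoImplicit false

namespace Pool.Agent.H58.BJ.D6

open Pool.Agent.H58.BJ

/-- rows of a block -/
noncomputable def B9_0 : List (Row × List ℤ) := [((nat_lit 1, nat_lit 1, false), [.ofNat (nat_lit
 4644160)]), ((nat_lit 2, nat_lit 1, false), [.ofNat (nat_lit 11242809), .ofNat (nat_lit
 8063731)]), ((nat_lit 3, nat_lit 1, false), [.ofNat (nat_lit 6998850), .negSucc (nat_lit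
 3213729), .ofNat (nat_lit 9538216)]), ((nat_lit 4, nat_lit 1, false), [.ofNat (nat_lit 7364220),
 .ofNat (nat_lit 16609706), .negSucc (nat_lit 238248), .ofNat (nat_lit 10311403)]), ((nat_lit 5,
 nat_lit 1, false), [.ofNat (nat_lit 4207432), .negSucc (nat_lit 3107442), .negSucc (nat_lit
 1678067), .ofNat (nat_lit 1943483), .ofNat (nat_lit 10355915)]), ((nat_lit 6, nat_lit 1, false),
 [.ofNat (nat_lit 7149677), .ofNat (nat_lit 1785967), .ofNat (nat_lit 14854562), .negSucc (nat_lit
 4712888), .negSucc (nat_lit 228776), .ofNat (nat_lit 13810357)]), ((nat_lit 8, nat_lit 1, false),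
 [.negSucc (nat_lit 745115), .ofNat (nat_lit 7011760), .ofNat (nat_lit 967810), .ofNat (nat_lit
 17778479), .ofNat (nat_lit 246260), .ofNat (nat_lit 126913), .ofNat (nat_lit 11002050)]),
 ((nat_lit 7, nat_lit 1, false), [.ofNat (nat_lit 2154284), .negSucc (nat_lit 2785085), .negSucc
 (nat_lit 2569237), .ofNat (nat_lit 1464301), .negSucc (nat_lit 2109724), .ofNat (nat_lit 936006),
 .negSucc (nat_lit 447988), .ofNat (nat_lit 9758096)]), ((nat_lit 10, nat_lit 1, false), [.ofNat
 (nat_lit 4906195), .ofNat (nat_lit 386714), .negSucc (nat_lit 2415995), .negSucc (nat_lit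
 1462305), .ofNat (nat_lit 16517472), .negSucc (nat_lit 1841242), .ofNat (nat_lit 1395015), .ofNat
 (nat_lit 1471523), .ofNat (nat_lit 13617705)]), ((nat_lit 9, nat_lit 1, false), [.ofNat (nat_lit
 1956435), .negSucc (nat_lit 4387439), .ofNat (nat_lit 9439630), .ofNat (nat_lit 2167829), .ofNat
 (nat_lit 1604810), .negSucc (nat_lit 4153984), .negSucc (nat_lit 285238), .ofNat (nat_lit
 1881608), .ofNat (nat_lit 1159521), .ofNat (nat_lit 13000195)]), ((nat_lit 12, nat_lit 1, false),
 [.negSucc (nat_lit 2278558), .ofNat (nat_lit 2071669), .ofNat (nat_lit 2051460), .ofNat (nat_lit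
 247995), .ofNat (nat_lit 179760), .ofNat (nat_lit 16825972), .negSucc (nat_lit 3264371), .ofNat
 (nat_lit 1372882), .ofNat (nat_lit 1220664), .ofNat (nat_lit 1087106), .ofNat (nat_lit
 16033688)]), ((nat_lit 16, nat_lit 1, false), [.negSucc (nat_lit 2030145), .negSucc (nat_lit
 4302834), .ofNat (nat_lit 757433), .ofNat (nat_lit 4061586), .negSucc (nat_lit 994558), .ofNat
 (nat_lit 2736730), .ofNat (nat_lit 19286694), .negSucc (nat_lit 227658), .ofNat (nat_lit 879111),
 .ofNat (nat_lit 357505), .ofNat (nat_lit 19229), .ofNat (nat_lit 9859741)]), ((nat_lit 11,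
 nat_lit 1, false), [.ofNat (nat_lit 71056), .negSucc (nat_lit 849539), .negSucc (nat_lit
 1401270), .ofNat (nat_lit 1083286), .negSucc (nat_lit 1382428), .ofNat (nat_lit 1238211),
 .negSucc (nat_lit 1030827), .negSucc (nat_lit 559726), .ofNat (nat_lit 637957), .negSucc (nat_lit
 212383), .negSucc (nat_lit 586654), .ofNat (nat_lit 545766), .ofNat (nat_lit 6076449)]),
 ((nat_lit 14, nat_lit 1, false), [.ofNat (nat_lit 3545473), .negSucc (nat_lit 1936738), .negSucc
 (nat_lit 2041955), .negSucc (nat_lit 1892039), .negSucc (nat_lit 2593548), .negSucc (nat_lit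
 512333), .ofNat (nat_lit 2427837), .ofNat (nat_lit 11457258), .negSucc (nat_lit 1934556),
 .negSucc (nat_lit 2703155), .ofNat (nat_lit 1014638), .negSucc (nat_lit 1771047), .ofNat (nat_lit
 4070906), .ofNat (nat_lit 9276439)]), ((nat_lit 15, nat_lit 1, false), [.ofNat (nat_lit 2762240),
 .negSucc (nat_lit 3956896), .ofNat (nat_lit 1272607), .ofNat (nat_lit 2577651), .ofNat (nat_lit
 5729637), .negSucc (nat_lit 3283570), .negSucc (nat_lit 433812), .ofNat (nat_lit 1970809),
 .negSucc (nat_lit 6063449), .negSucc (nat_lit 3030518), .ofNat (nat_lit 2424227), .ofNat (nat_lit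
 1733465), .ofNat (nat_lit 4518492), .negSucc (nat_lit 1663555), .ofNat (nat_lit 15538161)]),
 ((nat_lit 20, nat_lit 1, false), [.negSucc (nat_lit 1113556), .ofNat (nat_lit 3989409), .negSucc
 (nat_lit 621633), .negSucc (nat_lit 1852201), .ofNat (nat_lit 4865802), .negSucc (nat_lit
 121084), .negSucc (nat_lit 2510268), .ofNat (nat_lit 1321592), .ofNat (nat_lit 15817433),
 .negSucc (nat_lit 2212588), .negSucc (nat_lit 2466181), .ofNat (nat_lit 4665957), .ofNat (nat_lit
 3516863), .ofNat (nat_lit 4405412), .ofNat (nat_lit 3098203), .ofNat (nat_lit 9192979)]),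
 ((nat_lit 18, nat_lit 1, false), [.negSucc (nat_lit 1452906), .ofNat (nat_lit 321714), .ofNat
 (nat_lit 3118307), .negSucc (nat_lit 401359), .ofNat (nat_lit 512789), .ofNat (nat_lit 3918415),
 .ofNat (nat_lit 106237), .ofNat (nat_lit 3073701), .ofNat (nat_lit 688158), .ofNat (nat_lit
 14906308), .negSucc (nat_lit 7619938), .ofNat (nat_lit 476600), .ofNat (nat_lit 1908722), .ofNat
 (nat_lit 2598958), .ofNat (nat_lit 5241841), .negSucc (nat_lit 3644964), .ofNat (nat_lit
 14508151)]), ((nat_lit 24, nat_lit 1, false), [.negSucc (nat_lit 2162602), .negSucc (nat_lit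
 2620890), .negSucc (nat_lit 2829618), .ofNat (nat_lit 3284758), .ofNat (nat_lit 693828), .negSucc
 (nat_lit 54298), .ofNat (nat_lit 651720), .ofNat (nat_lit 669931), .ofNat (nat_lit 1401358),
 .ofNat (nat_lit 487372), .ofNat (nat_lit 17627743), .negSucc (nat_lit 6116555), .ofNat (nat_lit
 404078), .ofNat (nat_lit 3322023), .ofNat (nat_lit 2351628), .ofNat (nat_lit 2809990), .ofNat
 (nat_lit 3955006), .ofNat (nat_lit 7315331)]), ((nat_lit 32, nat_lit 1, false), [.negSucc
 (nat_lit 546039), .negSucc (nat_lit 2715190), .negSucc (nat_lit 629063), .negSucc (nat_lit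
 3846793), .negSucc (nat_lit 1314414), .ofNat (nat_lit 2529080), .ofNat (nat_lit 8377692),
 .negSucc (nat_lit 301878), .ofNat (nat_lit 842039), .ofNat (nat_lit 284354), .ofNat (nat_lit
 280575), .ofNat (nat_lit 10695196), .negSucc (nat_lit 11174), .ofNat (nat_lit 215185), .ofNat
 (nat_lit 67668), .ofNat (nat_lit 429635), .ofNat (nat_lit 490288), .ofNat (nat_lit 942784),
 .ofNat (nat_lit 1493372)]), ((nat_lit 1, nat_lit 1, true), [.ofNat (nat_lit 889411), .negSucc
 (nat_lit 367115), .negSucc (nat_lit 388321), .negSucc (nat_lit 76770), .negSucc (nat_lit 115296),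
 .ofNat (nat_lit 67969), .ofNat (nat_lit 134683), .negSucc (nat_lit 453802), .negSucc (nat_lit
 32915), .negSucc (nat_lit 103419), .ofNat (nat_lit 12760), .ofNat (nat_lit 5437), .negSucc
 (nat_lit 125648), .negSucc (nat_lit 41297), .negSucc (nat_lit 167051), .negSucc (nat_lit 140765),
 .ofNat (nat_lit 83053), .ofNat (nat_lit 1008), .ofNat (nat_lit 133074), .ofNat (nat_lit
 2209417)]), ((nat_lit 2, nat_lit 1, true), [.ofNat (nat_lit 2300266), .ofNat (nat_lit 241947),
 .negSucc (nat_lit 1301014), .negSucc (nat_lit 723789), .ofNat (nat_lit 50861), .negSucc (nat_lit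
 127020), .ofNat (nat_lit 450893), .negSucc (nat_lit 1193270), .negSucc (nat_lit 288948), .negSucc
 (nat_lit 183593), .negSucc (nat_lit 45054), .ofNat (nat_lit 89538), .ofNat (nat_lit 127515),
 .negSucc (nat_lit 82638), .ofNat (nat_lit 83027), .negSucc (nat_lit 337415), .ofNat (nat_lit
 429101), .ofNat (nat_lit 122475), .ofNat (nat_lit 244865), .ofNat (nat_lit 8192018), .ofNat
 (nat_lit 3913871)]), ((nat_lit 3, nat_lit 1, true), [.ofNat (nat_lit 1526554), .negSucc (nat_lit
 1219848), .ofNat (nat_lit 1210669), .negSucc (nat_lit 19735), .negSucc (nat_lit 1021692),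
 .negSucc (nat_lit 278551), .negSucc (nat_lit 39846), .negSucc (nat_lit 100600), .ofNat (nat_lit
 264697), .negSucc (nat_lit 1962376), .ofNat (nat_lit 55420), .ofNat (nat_lit 109132), .ofNat
 (nat_lit 380233), .ofNat (nat_lit 115945), .negSucc (nat_lit 642392), .negSucc (nat_lit 311446),
 .ofNat (nat_lit 83219), .negSucc (nat_lit 106058), .ofNat (nat_lit 65803), .ofNat (nat_lit
 3170146), .negSucc (nat_lit 2442490), .ofNat (nat_lit 3833406)]), ((nat_lit 4, nat_lit 1, true),
 [.ofNat (nat_lit 1813041), .ofNat (nat_lit 2132432), .negSucc (nat_lit 1587236), .ofNat (nat_lit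
 216058), .ofNat (nat_lit 641506), .negSucc (nat_lit 1005396), .negSucc (nat_lit 559980), .negSucc
 (nat_lit 915403), .negSucc (nat_lit 447788), .ofNat (nat_lit 611770), .negSucc (nat_lit 489823),
 .negSucc (nat_lit 207126), .ofNat (nat_lit 329287), .ofNat (nat_lit 346502), .ofNat (nat_lit
 427153), .negSucc (nat_lit 370484), .ofNat (nat_lit 1096588), .ofNat (nat_lit 558959), .ofNat
 (nat_lit 310621), .ofNat (nat_lit 11424501), .ofNat (nat_lit 11783929), .negSucc (nat_lit
 534885), .ofNat (nat_lit 4043058)]), ((nat_lit 5, nat_lit 1, true), [.ofNat (nat_lit 910200),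
 .negSucc (nat_lit 753642), .negSucc (nat_lit 753535), .ofNat (nat_lit 649979), .ofNat (nat_lit
 1155713), .ofNat (nat_lit 512286), .negSucc (nat_lit 85440), .negSucc (nat_lit 522218), .negSucc
 (nat_lit 1254932), .ofNat (nat_lit 522392), .negSucc (nat_lit 340395), .negSucc (nat_lit 396855),
 .ofNat (nat_lit 239716), .ofNat (nat_lit 251705), .negSucc (nat_lit 1628427), .negSucc (nat_lit
 294911), .negSucc (nat_lit 40570), .negSucc (nat_lit 92343), .ofNat (nat_lit 20581), .ofNat
 (nat_lit 398795), .negSucc (nat_lit 1494145), .negSucc (nat_lit 1249311), .ofNat (nat_lit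
 953187), .ofNat (nat_lit 2375816)]), ((nat_lit 6, nat_lit 1, true), [.ofNat (nat_lit 2271995),
 .negSucc (nat_lit 1121342), .ofNat (nat_lit 1671096), .negSucc (nat_lit 1310839), .negSucc
 (nat_lit 1073979), .ofNat (nat_lit 1581276), .ofNat (nat_lit 416788), .ofNat (nat_lit 428539),
 .negSucc (nat_lit 310371), .negSucc (nat_lit 5583283), .negSucc (nat_lit 1555284), .ofNat
 (nat_lit 369356), .ofNat (nat_lit 626307), .negSucc (nat_lit 103928), .ofNat (nat_lit 785472),
 .negSucc (nat_lit 52282), .negSucc (nat_lit 29616), .negSucc (nat_lit 592), .ofNat (nat_lit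
 129410), .ofNat (nat_lit 7298409), .negSucc (nat_lit 3523215), .ofNat (nat_lit 9313164), .negSucc
 (nat_lit 3856891), .ofNat (nat_lit 711132), .ofNat (nat_lit 4425330)]), ((nat_lit 8, nat_lit 1,
 true), [.ofNat (nat_lit 239956), .ofNat (nat_lit 2030378), .negSucc (nat_lit 366191), .ofNat
 (nat_lit 2333747), .ofNat (nat_lit 691161), .negSucc (nat_lit 1733900), .negSucc (nat_lit
 1459498), .negSucc (nat_lit 169826), .negSucc (nat_lit 55164), .ofNat (nat_lit 1410708), .negSucc
 (nat_lit 803138), .negSucc (nat_lit 1949054), .ofNat (nat_lit 420792), .ofNat (nat_lit 872934),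
 .negSucc (nat_lit 212291), .negSucc (nat_lit 102356), .ofNat (nat_lit 1128576), .ofNat (nat_lit
 730956), .ofNat (nat_lit 244598), .ofNat (nat_lit 7124913), .ofNat (nat_lit 12116107), .negSucc
 (nat_lit 886511), .ofNat (nat_lit 8765482), .ofNat (nat_lit 332083), .negSucc (nat_lit 656994),
 .ofNat (nat_lit 1939051)]), ((nat_lit 7, nat_lit 1, true), [.ofNat (nat_lit 69851), .negSucc
 (nat_lit 261778), .negSucc (nat_lit 339321), .ofNat (nat_lit 561643), .negSucc (nat_lit 78282),
 .ofNat (nat_lit 210986), .negSucc (nat_lit 385864), .ofNat (nat_lit 538685), .ofNat (nat_lit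
 254933), .ofNat (nat_lit 342197), .negSucc (nat_lit 110257), .ofNat (nat_lit 154055), .negSucc
 (nat_lit 859111), .negSucc (nat_lit 1461242), .ofNat (nat_lit 29856), .negSucc (nat_lit 48609),
 .negSucc (nat_lit 8073), .ofNat (nat_lit 69044), .ofNat (nat_lit 75446), .negSucc (nat_lit
 206135), .negSucc (nat_lit 192676), .negSucc (nat_lit 668375), .ofNat (nat_lit 413494), .negSucc
 (nat_lit 268649), .ofNat (nat_lit 748077), .negSucc (nat_lit 393404), .ofNat (nat_lit 1213018)]),
 ((nat_lit 10, nat_lit 1, true), [.ofNat (nat_lit 1347652), .negSucc (nat_lit 866034), .negSucc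
 (nat_lit 971081), .ofNat (nat_lit 453604), .ofNat (nat_lit 1568939), .ofNat (nat_lit 309103),
 .ofNat (nat_lit 373452), .negSucc (nat_lit 593865), .negSucc (nat_lit 1355768), .ofNat (nat_lit
 816503), .negSucc (nat_lit 67967), .negSucc (nat_lit 957077), .ofNat (nat_lit 688002), .negSucc
 (nat_lit 339134), .negSucc (nat_lit 2011127), .negSucc (nat_lit 1704180), .negSucc (nat_lit
 176482), .negSucc (nat_lit 254254), .negSucc (nat_lit 44159), .ofNat (nat_lit 533733), .negSucc
 (nat_lit 1956711), .negSucc (nat_lit 2031391), .ofNat (nat_lit 698282), .ofNat (nat_lit 3196911),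
 .negSucc (nat_lit 968927), .ofNat (nat_lit 849818), .ofNat (nat_lit 492941), .ofNat (nat_lit
 1242067)]), ((nat_lit 9, nat_lit 1, true), [.ofNat (nat_lit 679421), .negSucc (nat_lit 1032309),
 .ofNat (nat_lit 1427903), .ofNat (nat_lit 583569), .negSucc (nat_lit 708406), .negSucc (nat_lit
 1378705), .negSucc (nat_lit 424826), .ofNat (nat_lit 207831), .ofNat (nat_lit 527241), .ofNat
 (nat_lit 1096800), .ofNat (nat_lit 978032), .ofNat (nat_lit 146857), .ofNat (nat_lit 703001),
 .negSucc (nat_lit 97072), .negSucc (nat_lit 1457668), .ofNat (nat_lit 140778), .negSucc (nat_lit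
 1931514), .negSucc (nat_lit 414544), .negSucc (nat_lit 50724), .ofNat (nat_lit 319315), .negSucc
 (nat_lit 1665198), .ofNat (nat_lit 555081), .ofNat (nat_lit 1331417), .negSucc (nat_lit 269898),
 .negSucc (nat_lit 2710480), .negSucc (nat_lit 552647), .ofNat (nat_lit 653088), .negSucc (nat_lit
 899939), .ofNat (nat_lit 1918244)]), ((nat_lit 12, nat_lit 1, true), [.ofNat (nat_lit 808135),
 .ofNat (nat_lit 63357), .ofNat (nat_lit 117875), .negSucc (nat_lit 966891), .ofNat (nat_lit
 139293), .ofNat (nat_lit 2316231), .negSucc (nat_lit 124635), .ofNat (nat_lit 928057), .negSucc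
 (nat_lit 715614), .negSucc (nat_lit 3590232), .negSucc (nat_lit 1704674), .ofNat (nat_lit
 1035920), .negSucc (nat_lit 232390), .negSucc (nat_lit 656543), .ofNat (nat_lit 1476056),
 .negSucc (nat_lit 207286), .negSucc (nat_lit 273137), .negSucc (nat_lit 946331), .negSucc
 (nat_lit 13889), .ofNat (nat_lit 4387263), .negSucc (nat_lit 1500391), .ofNat (nat_lit 5509281),
 .negSucc (nat_lit 4339799), .ofNat (nat_lit 883365), .ofNat (nat_lit 5266656), .negSucc (nat_lit
 1905350), .ofNat (nat_lit 472312), .ofNat (nat_lit 190040), .ofNat (nat_lit 506224), .ofNat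
 (nat_lit 667795)]), ((nat_lit 16, nat_lit 1, true), [.negSucc (nat_lit 153476), .ofNat (nat_lit
 487721), .ofNat (nat_lit 302994), .ofNat (nat_lit 1486478), .ofNat (nat_lit 219337), .negSucc
 (nat_lit 916724), .negSucc (nat_lit 577704), .ofNat (nat_lit 6916), .ofNat (nat_lit 148637),
 .ofNat (nat_lit 728282), .negSucc (nat_lit 377292), .negSucc (nat_lit 1681458), .ofNat (nat_lit
 353511), .ofNat (nat_lit 493180), .negSucc (nat_lit 376391), .ofNat (nat_lit 49373), .ofNat
 (nat_lit 367402), .ofNat (nat_lit 313106), .negSucc (nat_lit 76103), .ofNat (nat_lit 1716190),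
 .ofNat (nat_lit 4226029), .negSucc (nat_lit 339704), .ofNat (nat_lit 4758251), .ofNat (nat_lit
 365072), .negSucc (nat_lit 626936), .ofNat (nat_lit 1966352), .ofNat (nat_lit 19815), .ofNat
 (nat_lit 49265), .ofNat (nat_lit 80154), .ofNat (nat_lit 50515), .ofNat (nat_lit 151526)])]

/-- the commands -/
noncomputable def C9 : List Cmd := [.a (nat_lit 3) (nat_lit 25) B9_0]

theorem c_ok9 : okL 6 ES C9 = true := by decide +kernel

theorem t_ok9 : eqT (run (.ofNat (nat_lit 28)) (.ofNat (nat_lit 25)) XT DD C9 U8) U9 = true := by decide +kernel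

end Pool.Agent.H58.BJ.D6
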