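import Pool.Agent.H58.BJ.D6.G1
import Pool.Agent.H58.BJ.D6.G2
import Pool.Agent.H58.BJ.D6.G3
import Pool.Agent.H58.BJ.D6.G4
import Pool.Agent.H58.BJ.D6.G5
import Pool.Agent.H58.BJ.D6.G6
import Pool.Agent.H58.BJ.D6.G7
import Pool.Agent.H58.BJ.D6.G8
import Pool.Agent.H58.BJ.D6.G9
import Pool.Agent.H58.BJ.D6.G10
import Pool.Agent.H58.BJ.D6.G11
import Pool.Agent.H58.BJ.D6.G12
import Pool.Agent.H58.BJ.D6.G13
import Pool.Agent.H58.BJ.D6.G14
import Pool.Agent.H58.BJ.Cert

/-! # Certificate data (6 jets, exponent 28/25) -/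

set_option autoImplicit false

namespace Pool.Agent.H58.BJ.D6

open Pool.Agent.H58.BJ

/-- all commands -/
noncomputable def CC : List Cmd := (((((((((((((C1 ++ C2) ++ C3) ++ C4) ++ C5) ++ C6) ++ C7) ++ C8) ++ C9) ++ C10) ++ C11) ++ C12) ++ C13) ++ C14)

theorem cc_ok : okL 6 ES CC = true := (okL_append (okL_append (okL_append (okL_append (okL_append (okL_append (okL_append (okL_append (okL_append (okL_append (okL_append (okL_append (okL_append c_ok1 c_ok2) c_ok3) c_ok4) c_ok5) c_ok6) c_ok7) c_ok8) c_ok9) c_ok10) c_ok11) c_ok12) c_ok13) c_ok14)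

theorem tot_ok : finT (nat_lit 16535275518717) (run (.ofNat (nat_lit 28)) (.ofNat (nat_lit 25)) XT DD CC U0) = true := by
  rw [CC, run_append, run_append, run_append, run_append, run_append, run_append, run_append, run_append, run_append, run_append, run_append, run_append, run_append]
  rw [eqT_eq t_ok1]
  rw [eqT_eq t_ok2]
  rw [eqT_eq t_ok3]
  rw [eqT_eq t_ok4]
  rw [eqT_eq t_ok5]
  rw [eqT_eq t_ok6]
  rw [eqT_eq t_ok7]
  rw [eqT_eq t_ok8]
  rw [eqT_eq t_ok9]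
  rw [eqT_eq t_ok10]
  rw [eqT_eq t_ok11]
  rw [eqT_eq t_ok12]
  rw [eqT_eq t_ok13]
  exact fin_ok

/-- **The certificate**: `G` is negative on the region described by the area inequalities. -/
theorem cert : ∃ κ : ℝ, 0 < κ ∧ ∀ c r η : ℕ → ℂ, c 0 = 1 → Slack c → RelR c r → RelY 1 r η →
    (G (((28 : ℤ) : ℝ) / ((25 : ℤ) : ℝ)) (CC.flatMap (cmdMu XT)) η).re ≤ -κ :=
  cert_sound (N := 6) (by norm_num) (by norm_num) (by norm_num) rec_ok tab_ok d_ok cc_ok tot_ok

end Pool.Agent.H58.BJ.D6
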