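import Pool.Agent.H58.BJ.D6.D

/-! # Certificate data (6 jets, exponent 28/25) -/

set_option autoImplicit false

namespace Pool.Agent.H58.BJ.D6

open Pool.Agent.H58.BJ

/-- result of the first 1 groups -/
noncomputable def U1 : Tr := (.nd (.nd (.nd (.nd (.nd (.nd (.nd .e (.nd (.nd (.nd (.nd (.nd (.nd
 .e (.nd (.nd (.nd (.lf (.ofNat (nat_lit 304370953695571200))) .e) .e) .e)) (.nd (.nd (.nd (.nd
 (.lf (.negSucc (nat_lit 1388434645276309199))) .e) .e) .e) .e)) (.nd (.nd (.nd (.nd (.nd (.lf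
 (.ofNat (nat_lit 1744599247143066600))) .e) .e) .e) .e) (.nd (.nd (.nd (.nd (.lf (.ofNat (nat_lit
 3056834339681817600))) .e) .e) .e) .e))) (.nd (.nd (.nd (.nd (.nd (.nd (.lf (.ofNat (nat_lit
 7808578175042722800))) .e) .e) .e) .e) (.nd (.nd (.nd (.nd (.lf (.ofNat (nat_lit
 1160406707958196800))) .e) .e) .e) .e)) (.nd (.nd (.nd (.nd (.nd (.lf (.negSucc (nat_lit
 4760996610163823999))) .e) .e) .e) .e) .e))) (.nd (.nd (.nd (.nd (.nd (.nd (.nd (.lf (.ofNat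
 (nat_lit 4428566432109534000))) .e) .e) .e) .e) (.nd (.nd (.nd (.nd (.lf (.ofNat (nat_lit
 356127109280848800))) .e) .e) .e) .e)) (.nd (.nd (.nd (.nd (.nd (.lf (.ofNat (nat_lit
 1979234023989060000))) .e) .e) .e) .e) .e)) (.nd (.nd (.nd (.nd (.nd (.nd (.lf (.negSucc (nat_lit
 2403659104440274799))) .e) .e) .e) .e) .e) (.nd (.nd (.nd (.nd (.nd (.lf (.negSucc (nat_lit
 2324797476547703999))) .e) .e) .e) .e) .e)))) .e)) (.nd (.nd (.nd (.nd (.nd (.nd (.nd .e (.nd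
 (.nd (.nd (.lf (.ofNat (nat_lit 106285961404962816))) .e) .e) .e)) (.nd (.nd (.nd (.nd (.lf
 (.negSucc (nat_lit 5387719555625141375))) .e) .e) .e) .e)) (.nd (.nd (.nd (.nd (.nd (.lf
 (.negSucc (nat_lit 16624006961589976671))) .e) .e) .e) .e) (.nd (.nd (.nd (.nd (.lf (.ofNat
 (nat_lit 19775934602210512896))) .e) .e) .e) .e))) (.nd (.nd (.nd (.nd (.nd (.nd (.lf (.negSucc
 (nat_lit 25482534600730088191))) .e) .e) .e) .e) (.nd (.nd (.nd (.nd (.lf (.ofNat (nat_lit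
 17001988523851537792))) .e) .e) .e) .e)) (.nd (.nd (.nd (.nd (.nd (.lf (.ofNat (nat_lit
 17182478081818795008))) .e) .e) .e) .e) .e))) (.nd (.nd (.nd (.nd (.nd (.nd (.nd (.lf (.negSucc
 (nat_lit 11091058281211332047))) .e) .e) .e) .e) (.nd (.nd (.nd (.nd (.lf (.ofNat (nat_lit
 8003498771721854400))) .e) .e) .e) .e)) (.nd (.nd (.nd (.nd (.nd (.lf (.ofNat (nat_lit
 315358946004893952))) .e) .e) .e) .e) .e)) (.nd (.nd (.nd (.nd (.nd (.nd (.lf (.ofNat (nat_lit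
 8847865134535152192))) .e) .e) .e) .e) .e) (.nd (.nd (.nd (.nd (.nd (.lf (.ofNat (nat_lit
 11918891203220251520))) .e) .e) .e) .e) .e)))) .e) .e)) (.nd (.nd (.nd (.nd (.nd (.nd (.nd (.nd
 .e (.nd (.nd (.nd (.lf (.negSucc (nat_lit 5692710518369163183))) .e) .e) .e)) (.nd (.nd (.nd (.nd
 (.lf (.negSucc (nat_lit 5892388078652714079))) .e) .e) .e) .e)) (.nd (.nd (.nd (.nd (.nd (.lf
 (.negSucc (nat_lit 5164023688986202559))) .e) .e) .e) .e) (.nd (.nd (.nd (.nd (.lf (.ofNat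
 (nat_lit 15625693429795325568))) .e) .e) .e) .e))) (.nd (.nd (.nd (.nd (.nd (.nd (.lf (.negSucc
 (nat_lit 29923464075766106591))) .e) .e) .e) .e) (.nd (.nd (.nd (.nd (.lf (.negSucc (nat_lit
 14312037787660384127))) .e) .e) .e) .e)) (.nd (.nd (.nd (.nd (.nd (.lf (.ofNat (nat_lit
 56997556426945544832))) .e) .e) .e) .e) (.nd (.nd (.nd (.nd (.lf (.ofNat (nat_lit
 6070690907688653760))) .e) .e) .e) .e)))) (.nd (.nd (.nd (.nd (.nd (.nd (.nd (.lf (.negSucc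
 (nat_lit 31992682295069570503))) .e) .e) .e) .e) (.nd (.nd (.nd (.nd (.lf (.negSucc (nat_lit
 12059831111820007103))) .e) .e) .e) .e)) (.nd (.nd (.nd (.nd (.nd (.lf (.negSucc (nat_lit
 29043619413821367743))) .e) .e) .e) .e) (.nd (.nd (.nd (.nd (.lf (.ofNat (nat_lit
 2344607867609448000))) .e) .e) .e) .e))) (.nd (.nd (.nd (.nd (.nd (.nd (.lf (.ofNat (nat_lit
 34097418173596637952))) .e) .e) .e) .e) (.nd (.nd (.nd (.nd (.lf (.negSucc (nat_lit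
 770962131098944319))) .e) .e) .e) .e)) (.nd (.nd (.nd (.nd (.nd (.lf (.ofNat (nat_lit
 34597501493545507200))) .e) .e) .e) .e) (.nd (.nd (.nd (.nd (.lf (.ofNat (nat_lit
 18245942984691297600))) .e) .e) .e) .e))))) .e) .e) (.nd (.nd (.nd (.nd (.nd (.nd (.nd .e (.nd
 (.nd (.nd (.lf (.ofNat (nat_lit 2788709932138272000))) .e) .e) .e)) (.nd (.nd (.nd (.nd (.lf
 (.negSucc (nat_lit 22989269294514453599))) .e) .e) .e) .e)) (.nd (.nd (.nd (.nd (.nd (.lf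
 (.negSucc (nat_lit 541574100712520399))) .e) .e) .e) .e) (.nd (.nd (.nd (.nd (.lf (.ofNat
 (nat_lit 60455430320718873600))) .e) .e) .e) .e))) (.nd (.nd (.nd (.nd (.nd (.nd (.lf (.ofNat
 (nat_lit 36880822071727149600))) .e) .e) .e) .e) (.nd (.nd (.nd (.nd (.lf (.ofNat (nat_lit
 39143898278894256000))) .e) .e) .e) .e)) (.nd (.nd (.nd (.nd (.nd (.lf (.negSucc (nat_lit
 41755025731704249599))) .e) .e) .e) .e) .e))) (.nd (.nd (.nd (.nd (.nd (.nd (.nd (.lf (.ofNat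
 (nat_lit 5427369191476202400))) .e) .e) .e) .e) (.nd (.nd (.nd (.nd (.lf (.ofNat (nat_lit
 20833415173472644800))) .e) .e) .e) .e)) (.nd (.nd (.nd (.nd (.nd (.lf (.ofNat (nat_lit
 8467245282794846400))) .e) .e) .e) .e) .e)) (.nd (.nd (.nd (.nd (.nd (.nd (.lf (.ofNat (nat_lit
 1960270104803148000))) .e) .e) .e) .e) .e) (.nd (.nd (.nd (.nd (.nd (.lf (.ofNat (nat_lit
 1391683739819376000))) .e) .e) .e) .e) .e)))) .e) .e))) (.nd (.nd (.nd (.nd (.nd (.nd (.nd (.nd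
 .e (.nd (.nd (.nd (.nd (.lf (.negSucc (nat_lit 21353972860324967935))) .e) .e) .e) .e)) (.nd (.nd
 (.nd (.nd (.nd (.lf (.negSucc (nat_lit 77333193967961983727))) .e) .e) .e) .e) .e)) (.nd (.nd
 (.nd (.nd (.nd (.nd (.lf (.negSucc (nat_lit 91861078670648758527))) .e) .e) .e) .e) .e) (.nd (.nd
 (.nd (.nd (.nd (.lf (.ofNat (nat_lit 37808277722466348672))) .e) .e) .e) .e) .e))) (.nd (.nd (.nd
 (.nd (.nd (.nd (.nd (.lf (.negSucc (nat_lit 38533492893534985231))) .e) .e) .e) .e) .e) (.nd (.nd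
 (.nd (.nd (.nd (.lf (.ofNat (nat_lit 65793468008404309632))) .e) .e) .e) .e) .e)) (.nd (.nd (.nd
 (.nd (.nd (.nd (.lf (.negSucc (nat_lit 19193606166525279071))) .e) .e) .e) .e) .e) (.nd (.nd (.nd
 (.nd (.nd (.lf (.negSucc (nat_lit 60633637336904683519))) .e) .e) .e) .e) .e)))) .e) .e) (.nd
 (.nd (.nd (.nd (.nd (.nd (.nd .e (.nd (.nd (.nd (.lf (.ofNat (nat_lit 1718159316976084800))) .e)
 .e) .e)) (.nd (.nd (.nd (.nd (.lf (.negSucc (nat_lit 18338193566523226399))) .e) .e) .e) .e))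
 (.nd (.nd (.nd (.nd (.nd (.lf (.ofNat (nat_lit 44287321437530972400))) .e) .e) .e) .e) (.nd (.nd
 (.nd (.nd (.lf (.ofNat (nat_lit 25179065274993158400))) .e) .e) .e) .e))) (.nd (.nd (.nd (.nd
 (.nd (.nd (.lf (.ofNat (nat_lit 143051628007563952800))) .e) .e) .e) .e) (.nd (.nd (.nd (.nd (.lf
 (.ofNat (nat_lit 38512083314275977600))) .e) .e) .e) .e)) (.nd (.nd (.nd (.nd (.nd (.lf (.negSucc
 (nat_lit 127716107112695500799))) .e) .e) .e) .e) .e))) (.nd (.nd (.nd (.nd (.nd (.nd (.nd (.lf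
 (.ofNat (nat_lit 65620120861900295600))) .e) .e) .e) .e) (.nd (.nd (.nd (.nd (.lf (.negSucc
 (nat_lit 9946340197053191999))) .e) .e) .e) .e)) (.nd (.nd (.nd (.nd (.nd (.lf (.ofNat (nat_lit
 33468741987781089600))) .e) .e) .e) .e) .e)) (.nd (.nd (.nd (.nd (.nd (.nd (.lf (.negSucc
 (nat_lit 38505943685935735199))) .e) .e) .e) .e) .e) (.nd (.nd (.nd (.nd (.nd (.lf (.negSucc
 (nat_lit 31211903357345615999))) .e) .e) .e) .e) .e)))) .e) .e)) (.nd (.nd (.nd (.nd (.nd (.nd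
 (.nd (.nd .e (.nd (.nd (.nd (.lf (.ofNat (nat_lit 9717739145190603840))) .e) .e) .e)) (.nd (.nd
 (.nd (.nd (.lf (.negSucc (nat_lit 23038943688225626879))) .e) .e) .e) .e)) (.nd (.nd (.nd (.nd
 (.nd (.lf (.negSucc (nat_lit 159837810410407751999))) .e) .e) .e) .e) (.nd (.nd (.nd (.nd (.lf
 (.ofNat (nat_lit 73720943835186836736))) .e) .e) .e) .e))) (.nd (.nd (.nd (.nd (.nd (.nd (.lf
 (.negSucc (nat_lit 281395668588870701951))) .e) .e) .e) .e) (.nd (.nd (.nd (.nd (.lf (.ofNat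
 (nat_lit 146851188523368473856))) .e) .e) .e) .e)) (.nd (.nd (.nd (.nd (.nd (.lf (.ofNat (nat_lit
 111844376509331759616))) .e) .e) .e) .e) .e))) (.nd (.nd (.nd (.nd (.nd (.nd (.nd (.lf (.negSucc
 (nat_lit 148209160579817496095))) .e) .e) .e) .e) (.nd (.nd (.nd (.nd (.lf (.ofNat (nat_lit
 32881604637888957312))) .e) .e) .e) .e)) (.nd (.nd (.nd (.nd (.nd (.lf (.ofNat (nat_lit
 87173737076529414144))) .e) .e) .e) .e) .e)) (.nd (.nd (.nd (.nd (.nd (.nd (.lf (.ofNat (nat_lit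
 26043795393801651072))) .e) .e) .e) .e) .e) (.nd (.nd (.nd (.nd (.nd (.lf (.ofNat (nat_lit
 52923726658132788480))) .e) .e) .e) .e) .e)))) .e) .e) .e))) (.nd (.nd (.nd (.nd (.nd (.nd (.nd
 (.nd .e (.nd (.nd (.nd (.nd (.nd (.lf (.negSucc (nat_lit 87084617674439681783))) .e) .e) .e) .e)
 .e)) (.nd (.nd (.nd (.nd (.nd (.nd (.lf (.negSucc (nat_lit 213695142596092012895))) .e) .e) .e)
 .e) .e) .e)) (.nd (.nd (.nd (.nd (.nd (.nd (.nd (.lf (.negSucc (nat_lit 178504641887394120795)))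
 .e) .e) .e) .e) .e) .e) (.nd (.nd (.nd (.nd (.nd (.nd (.lf (.negSucc (nat_lit
 27373245433374560351))) .e) .e) .e) .e) .e) .e))) .e) .e) (.nd (.nd (.nd (.nd (.nd (.nd (.nd .e
 (.nd (.nd (.nd (.lf (.ofNat (nat_lit 10738517859535658400))) .e) .e) .e)) (.nd (.nd (.nd (.nd
 (.lf (.ofNat (nat_lit 9395864133014166000))) .e) .e) .e) .e)) (.nd (.nd (.nd (.nd (.nd (.lf
 (.ofNat (nat_lit 118697542104817899000))) .e) .e) .e) .e) (.nd (.nd (.nd (.nd (.lf (.negSucc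
 (nat_lit 87481783761562108799))) .e) .e) .e) .e))) (.nd (.nd (.nd (.nd (.nd (.nd (.lf (.ofNat
 (nat_lit 295686382848487102800))) .e) .e) .e) .e) (.nd (.nd (.nd (.nd (.lf (.negSucc (nat_lit
 953304181776071999))) .e) .e) .e) .e)) (.nd (.nd (.nd (.nd (.nd (.lf (.negSucc (nat_lit
 275158004122387007999))) .e) .e) .e) .e) .e))) (.nd (.nd (.nd (.nd (.nd (.nd (.nd (.lf (.ofNat
 (nat_lit 181917835863250711800))) .e) .e) .e) .e) (.nd (.nd (.nd (.nd (.lf (.ofNat (nat_lit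
 9583020726821416800))) .e) .e) .e) .e)) (.nd (.nd (.nd (.nd (.nd (.lf (.ofNat (nat_lit
 43561815147747856800))) .e) .e) .e) .e) .e)) (.nd (.nd (.nd (.nd (.nd (.nd (.lf (.negSucc
 (nat_lit 112873828762710133199))) .e) .e) .e) .e) .e) (.nd (.nd (.nd (.nd (.nd (.lf (.negSucc
 (nat_lit 136668015342901223999))) .e) .e) .e) .e) .e)))) .e) .e)) (.nd (.nd (.nd (.nd (.nd (.nd
 (.nd (.nd .e (.nd (.nd (.nd (.lf (.ofNat (nat_lit 24848384332969191744))) .e) .e) .e)) (.nd (.nd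
 (.nd (.nd (.lf (.negSucc (nat_lit 35042848841736886783))) .e) .e) .e) .e)) (.nd (.nd (.nd (.nd
 (.nd (.lf (.negSucc (nat_lit 200543468642538617855))) .e) .e) .e) .e) (.nd (.nd (.nd (.nd (.lf
 (.ofNat (nat_lit 68700471738036439296))) .e) .e) .e) .e))) (.nd (.nd (.nd (.nd (.nd (.nd (.lf
 (.negSucc (nat_lit 310668889508058198143))) .e) .e) .e) .e) (.nd (.nd (.nd (.nd (.lf (.ofNat
 (nat_lit 228596641277384792064))) .e) .e) .e) .e)) (.nd (.nd (.nd (.nd (.nd (.lf (.negSucc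
 (nat_lit 80600132989423517183))) .e) .e) .e) .e) .e))) (.nd (.nd (.nd (.nd (.nd (.nd (.nd (.lf
 (.negSucc (nat_lit 109519415044764629535))) .e) .e) .e) .e) (.nd (.nd (.nd (.nd (.lf (.ofNat
 (nat_lit 179768798617485982464))) .e) .e) .e) .e)) (.nd (.nd (.nd (.nd (.nd (.lf (.ofNat (nat_lit
 10614448760332051968))) .e) .e) .e) .e) .e)) (.nd (.nd (.nd (.nd (.nd (.nd (.lf (.negSucc
 (nat_lit 2775426889800502271))) .e) .e) .e) .e) .e) (.nd (.nd (.nd (.nd (.nd (.lf (.ofNat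
 (nat_lit 127704019298096409600))) .e) .e) .e) .e) .e)))) .e) .e) .e)) (.nd (.nd (.nd (.nd (.nd
 (.nd (.nd (.nd .e (.nd (.nd (.nd (.nd (.lf (.ofNat (nat_lit 110838628593676573824))) .e) .e) .e)
 .e)) (.nd (.nd (.nd (.nd (.nd (.lf (.ofNat (nat_lit 279534280803588450048))) .e) .e) .e) .e) (.nd
 (.nd (.nd (.nd (.lf (.negSucc (nat_lit 21754011013666290431))) .e) .e) .e) .e))) (.nd (.nd (.nd
 (.nd (.nd (.nd (.lf (.ofNat (nat_lit 96955823586535455360))) .e) .e) .e) .e) (.nd (.nd (.nd (.nd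
 (.lf (.ofNat (nat_lit 30176813659017945600))) .e) .e) .e) .e)) (.nd (.nd (.nd (.nd (.nd (.lf
 (.negSucc (nat_lit 205953561611493023231))) .e) .e) .e) .e) .e))) (.nd (.nd (.nd (.nd (.nd (.nd
 (.nd (.lf (.negSucc (nat_lit 115711001661261213983))) .e) .e) .e) .e) (.nd (.nd (.nd (.nd (.lf
 (.ofNat (nat_lit 159090436270538636544))) .e) .e) .e) .e)) (.nd (.nd (.nd (.nd (.nd (.lf
 (.negSucc (nat_lit 260187288383041014527))) .e) .e) .e) .e) .e)) (.nd (.nd (.nd (.nd (.nd (.nd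
 (.lf (.ofNat (nat_lit 170998596372734963712))) .e) .e) .e) .e) (.nd (.nd (.nd (.nd (.lf (.negSucc
 (nat_lit 50696163277414652159))) .e) .e) .e) .e)) (.nd (.nd (.nd (.nd (.nd (.lf (.ofNat (nat_lit
 337051466385874859520))) .e) .e) .e) .e) .e)))) .e) .e) .e) (.nd (.nd (.nd (.nd (.nd (.nd (.nd
 (.nd .e (.nd (.nd (.nd (.lf (.negSucc (nat_lit 6652120288403831999))) .e) .e) .e)) (.nd (.nd (.nd
 (.nd (.lf (.negSucc (nat_lit 24247121096331987999))) .e) .e) .e) .e)) (.nd (.nd (.nd (.nd (.nd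
 (.lf (.ofNat (nat_lit 33312970888498950000))) .e) .e) .e) .e) (.nd (.nd (.nd (.nd (.lf (.ofNat
 (nat_lit 73853136444602784000))) .e) .e) .e) .e))) (.nd (.nd (.nd (.nd (.nd (.nd (.lf (.ofNat
 (nat_lit 107100579556805700000))) .e) .e) .e) .e) (.nd (.nd (.nd (.nd (.lf (.ofNat (nat_lit
 28490915672516208000))) .e) .e) .e) .e)) (.nd (.nd (.nd (.nd (.nd (.lf (.negSucc (nat_lit
 67794194447514623999))) .e) .e) .e) .e) .e))) (.nd (.nd (.nd (.nd (.nd (.nd (.nd (.lf (.ofNat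
 (nat_lit 1026258088560766000))) .e) .e) .e) .e) (.nd (.nd (.nd (.nd (.lf (.negSucc (nat_lit
 21507766369143623999))) .e) .e) .e) .e)) (.nd (.nd (.nd (.nd (.nd (.lf (.ofNat (nat_lit
 18647671742550792000))) .e) .e) .e) .e) .e)) (.nd (.nd (.nd (.nd (.nd (.nd (.lf (.ofNat (nat_lit
 25707101761088604000))) .e) .e) .e) .e) .e) (.nd (.nd (.nd (.nd (.nd (.lf (.ofNat (nat_lit
 12432475423153200000))) .e) .e) .e) .e) .e)))) .e) .e) .e)))) (.nd (.nd (.nd (.nd (.nd (.nd (.nd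
 (.nd .e (.nd (.nd (.nd (.nd (.nd (.nd (.lf (.negSucc (nat_lit 60200143156106882047))) .e) .e) .e)
 .e) .e) .e)) (.nd (.nd (.nd (.nd (.nd (.nd (.nd (.lf (.negSucc (nat_lit 67673501848879134759)))
 .e) .e) .e) .e) .e) .e) .e)) .e) .e) .e) (.nd (.nd (.nd (.nd (.nd (.nd (.nd (.nd .e (.nd (.nd
 (.nd (.lf (.ofNat (nat_lit 31532994314540089344))) .e) .e) .e)) (.nd (.nd (.nd (.nd (.lf (.ofNat
 (nat_lit 46658700741992648064))) .e) .e) .e) .e)) (.nd (.nd (.nd (.nd (.nd (.lf (.ofNat (nat_lit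
 9832945390022507616))) .e) .e) .e) .e) (.nd (.nd (.nd (.nd (.lf (.negSucc (nat_lit
 104166127742986672127))) .e) .e) .e) .e))) (.nd (.nd (.nd (.nd (.nd (.nd (.lf (.ofNat (nat_lit
 80309904955971914880))) .e) .e) .e) .e) (.nd (.nd (.nd (.nd (.lf (.ofNat (nat_lit
 104845523353776862848))) .e) .e) .e) .e)) (.nd (.nd (.nd (.nd (.nd (.lf (.negSucc (nat_lit
 298139684932908721151))) .e) .e) .e) .e) .e))) (.nd (.nd (.nd (.nd (.nd (.nd (.nd (.lf (.ofNat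
 (nat_lit 174691482682086442848))) .e) .e) .e) .e) (.nd (.nd (.nd (.nd (.lf (.ofNat (nat_lit
 61218147975885914688))) .e) .e) .e) .e)) (.nd (.nd (.nd (.nd (.nd (.lf (.ofNat (nat_lit
 42995168312367820032))) .e) .e) .e) .e) .e)) (.nd (.nd (.nd (.nd (.nd (.nd (.lf (.negSucc
 (nat_lit 174330049521057804863))) .e) .e) .e) .e) .e) (.nd (.nd (.nd (.nd (.nd (.lf (.negSucc
 (nat_lit 64071070312502309759))) .e) .e) .e) .e) .e)))) .e) .e) .e)) (.nd (.nd (.nd (.nd (.nd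
 (.nd (.nd (.nd .e (.nd (.nd (.nd (.nd (.lf (.ofNat (nat_lit 75327302429677179392))) .e) .e) .e)
 .e)) (.nd (.nd (.nd (.nd (.nd (.lf (.ofNat (nat_lit 94588711665474779840))) .e) .e) .e) .e) .e))
 (.nd (.nd (.nd (.nd (.nd (.nd (.lf (.negSucc (nat_lit 181440874766014869247))) .e) .e) .e) .e)
 (.nd (.nd (.nd (.nd (.lf (.negSucc (nat_lit 578701148283439871))) .e) .e) .e) .e)) (.nd (.nd (.nd
 (.nd (.nd (.lf (.negSucc (nat_lit 254568061361471622143))) .e) .e) .e) .e) .e))) (.nd (.nd (.nd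
 (.nd (.nd (.nd (.nd (.lf (.negSucc (nat_lit 350640603771229092031))) .e) .e) .e) .e) (.nd (.nd
 (.nd (.nd (.lf (.ofNat (nat_lit 46767302537008483584))) .e) .e) .e) .e)) (.nd (.nd (.nd (.nd (.nd
 (.lf (.negSucc (nat_lit 349218735012825298943))) .e) .e) .e) .e) .e)) (.nd (.nd (.nd (.nd (.nd
 (.nd (.lf (.ofNat (nat_lit 225621107149293410688))) .e) .e) .e) .e) .e) (.nd (.nd (.nd (.nd (.nd
 (.lf (.ofNat (nat_lit 540345656964321830400))) .e) .e) .e) .e) .e)))) .e) .e) .e) .e)) (.nd (.nd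
 (.nd (.nd (.nd (.nd (.nd (.nd .e (.nd (.nd (.nd (.nd (.nd (.lf (.ofNat (nat_lit
 299418063934982999424))) .e) .e) .e) .e) .e)) (.nd (.nd (.nd (.nd (.nd (.nd (.lf (.ofNat (nat_lit
 682879918539551409408))) .e) .e) .e) .e) .e) (.nd (.nd (.nd (.nd (.nd (.lf (.negSucc (nat_lit
 133932698139546731519))) .e) .e) .e) .e) .e))) (.nd (.nd (.nd (.nd (.nd (.nd (.nd (.lf (.ofNat
 (nat_lit 757959390495744728064))) .e) .e) .e) .e) .e) (.nd (.nd (.nd (.nd (.nd (.lf (.negSucc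
 (nat_lit 636079319535832236287))) .e) .e) .e) .e) .e)) (.nd (.nd (.nd (.nd (.nd (.nd (.lf
 (.negSucc (nat_lit 62551800227873970431))) .e) .e) .e) .e) .e) .e))) .e) .e) .e) (.nd (.nd (.nd
 (.nd (.nd (.nd (.nd (.nd .e (.nd (.nd (.nd (.lf (.negSucc (nat_lit 8275200408679991999))) .e) .e)
 .e)) (.nd (.nd (.nd (.nd (.lf (.ofNat (nat_lit 13635872553060660000))) .e) .e) .e) .e)) (.nd (.nd
 (.nd (.nd (.nd (.lf (.ofNat (nat_lit 76580735619365346000))) .e) .e) .e) .e) (.nd (.nd (.nd (.nd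
 (.lf (.negSucc (nat_lit 20593012797044063999))) .e) .e) .e) .e))) (.nd (.nd (.nd (.nd (.nd (.nd
 (.lf (.ofNat (nat_lit 160647125334085548000))) .e) .e) .e) .e) (.nd (.nd (.nd (.nd (.lf (.negSucc
 (nat_lit 69784179099434159999))) .e) .e) .e) .e)) (.nd (.nd (.nd (.nd (.nd (.lf (.negSucc
 (nat_lit 52785837801972287999))) .e) .e) .e) .e) .e))) (.nd (.nd (.nd (.nd (.nd (.nd (.nd (.lf
 (.ofNat (nat_lit 43566360112548918000))) .e) .e) .e) .e) (.nd (.nd (.nd (.nd (.lf (.negSucc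
 (nat_lit 41503899221605655999))) .e) .e) .e) .e)) (.nd (.nd (.nd (.nd (.nd (.lf (.ofNat (nat_lit
 29029397516391672000))) .e) .e) .e) .e) .e)) (.nd (.nd (.nd (.nd (.nd (.nd (.lf (.ofNat (nat_lit
 2833247639122740000))) .e) .e) .e) .e) .e) (.nd (.nd (.nd (.nd (.nd (.lf (.negSucc (nat_lit
 49182351244160879999))) .e) .e) .e) .e) .e)))) .e) .e) .e)) (.nd (.nd (.nd (.nd (.nd (.nd (.nd
 (.nd .e (.nd (.nd (.nd (.nd (.lf (.negSucc (nat_lit 69132854047074351999))) .e) .e) .e) .e)) (.nd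
 (.nd (.nd (.nd (.nd (.lf (.negSucc (nat_lit 244017841866092222879))) .e) .e) .e) .e) (.nd (.nd
 (.nd (.nd (.lf (.ofNat (nat_lit 77819045842184651520))) .e) .e) .e) .e))) (.nd (.nd (.nd (.nd
 (.nd (.nd (.lf (.negSucc (nat_lit 365637942060367319039))) .e) .e) .e) .e) (.nd (.nd (.nd (.nd
 (.lf (.ofNat (nat_lit 121190111467081104000))) .e) .e) .e) .e)) (.nd (.nd (.nd (.nd (.nd (.lf
 (.ofNat (nat_lit 202328578974208919040))) .e) .e) .e) .e) .e))) (.nd (.nd (.nd (.nd (.nd (.nd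
 (.nd (.lf (.negSucc (nat_lit 128733503473190222239))) .e) .e) .e) .e) (.nd (.nd (.nd (.nd (.lf
 (.ofNat (nat_lit 117577931589910774080))) .e) .e) .e) .e)) (.nd (.nd (.nd (.nd (.nd (.lf (.ofNat
 (nat_lit 19456047459820151040))) .e) .e) .e) .e) .e)) (.nd (.nd (.nd (.nd (.nd (.nd (.lf (.ofNat
 (nat_lit 60863720095101720000))) .e) .e) .e) .e) .e) (.nd (.nd (.nd (.nd (.nd (.lf (.ofNat
 (nat_lit 84329345019248438400))) .e) .e) .e) .e) .e)))) .e) .e) .e) (.nd (.nd (.nd (.nd (.nd (.nd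
 (.nd (.nd .e (.nd (.nd (.nd (.lf (.ofNat (nat_lit 19420979136966172800))) .e) .e) .e)) (.nd (.nd
 (.nd (.nd (.lf (.ofNat (nat_lit 25520283981151483200))) .e) .e) .e) .e)) (.nd (.nd (.nd (.nd (.nd
 (.lf (.ofNat (nat_lit 141313890921235696800))) .e) .e) .e) .e) (.nd (.nd (.nd (.nd (.lf (.negSucc
 (nat_lit 153287553188218406399))) .e) .e) .e) .e))) (.nd (.nd (.nd (.nd (.nd (.nd (.lf (.ofNat
 (nat_lit 278698826667203236800))) .e) .e) .e) .e) (.nd (.nd (.nd (.nd (.lf (.ofNat (nat_lit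
 25992260023925433600))) .e) .e) .e) .e)) (.nd (.nd (.nd (.nd (.nd (.lf (.negSucc (nat_lit
 392074836801950822399))) .e) .e) .e) .e) .e))) (.nd (.nd (.nd (.nd (.nd (.nd (.nd (.lf (.ofNat
 (nat_lit 192113945163379754400))) .e) .e) .e) .e) (.nd (.nd (.nd (.nd (.lf (.ofNat (nat_lit
 157470258306711312000))) .e) .e) .e) .e)) (.nd (.nd (.nd (.nd (.nd (.lf (.ofNat (nat_lit
 39356378406626889600))) .e) .e) .e) .e) .e)) (.nd (.nd (.nd (.nd (.nd (.nd (.lf (.negSucc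
 (nat_lit 160085492550751089599))) .e) .e) .e) .e) .e) (.nd (.nd (.nd (.nd (.nd (.lf (.negSucc
 (nat_lit 243392635594855007999))) .e) .e) .e) .e) .e)))) .e) .e) .e))))) (.nd (.nd (.nd (.nd (.nd
 (.nd (.nd (.nd .e (.nd (.nd (.nd (.nd (.nd (.nd (.nd (.lf (.negSucc (nat_lit
 6499633132327806311))) .e) .e) .e) .e) .e) .e) .e)) .e) .e) .e) .e) (.nd (.nd (.nd (.nd (.nd (.nd
 (.nd (.nd .e (.nd (.nd (.nd (.nd (.lf (.ofNat (nat_lit 94879800175453746816))) .e) .e) .e) .e))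
 (.nd (.nd (.nd (.nd (.nd (.lf (.ofNat (nat_lit 9606158728136853600))) .e) .e) .e) .e) .e)) (.nd
 (.nd (.nd (.nd (.nd (.nd (.lf (.negSucc (nat_lit 328908495485969058431))) .e) .e) .e) .e) .e)
 (.nd (.nd (.nd (.nd (.nd (.lf (.ofNat (nat_lit 76587526432434894336))) .e) .e) .e) .e) .e))) (.nd
 (.nd (.nd (.nd (.nd (.nd (.nd (.lf (.negSucc (nat_lit 556239852363234426239))) .e) .e) .e) .e)
 (.nd (.nd (.nd (.nd (.lf (.negSucc (nat_lit 59373859044418204607))) .e) .e) .e) .e)) (.nd (.nd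
 (.nd (.nd (.nd (.lf (.ofNat (nat_lit 181321567567782361344))) .e) .e) .e) .e) .e)) (.nd (.nd (.nd
 (.nd (.nd (.nd (.lf (.ofNat (nat_lit 200777064039783435456))) .e) .e) .e) .e) .e) (.nd (.nd (.nd
 (.nd (.nd (.lf (.ofNat (nat_lit 400026581547221548800))) .e) .e) .e) .e) .e)))) .e) .e) .e) (.nd
 (.nd (.nd (.nd (.nd (.nd (.nd (.nd .e (.nd (.nd (.nd (.lf (.ofNat (nat_lit
 12878096251430436000))) .e) .e) .e)) (.nd (.nd (.nd (.nd (.lf (.ofNat (nat_lit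
 36449835334238437200))) .e) .e) .e) .e)) (.nd (.nd (.nd (.nd (.nd (.lf (.ofNat (nat_lit
 84373667649083545800))) .e) .e) .e) .e) (.nd (.nd (.nd (.nd (.lf (.negSucc (nat_lit
 154537155017165231999))) .e) .e) .e) .e))) (.nd (.nd (.nd (.nd (.nd (.nd (.lf (.ofNat (nat_lit
 152719534223100702000))) .e) .e) .e) .e) (.nd (.nd (.nd (.nd (.lf (.negSucc (nat_lit
 36641518307224939199))) .e) .e) .e) .e)) (.nd (.nd (.nd (.nd (.nd (.lf (.negSucc (nat_lit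
 178450400381961657599))) .e) .e) .e) .e) .e))) (.nd (.nd (.nd (.nd (.nd (.nd (.nd (.lf (.ofNat
 (nat_lit 162494491486653663000))) .e) .e) .e) .e) (.nd (.nd (.nd (.nd (.lf (.ofNat (nat_lit
 78875522825633834400))) .e) .e) .e) .e)) (.nd (.nd (.nd (.nd (.nd (.lf (.ofNat (nat_lit
 40248611623468965600))) .e) .e) .e) .e) .e)) (.nd (.nd (.nd (.nd (.nd (.nd (.lf (.negSucc
 (nat_lit 149341205130577959599))) .e) .e) .e) .e) .e) (.nd (.nd (.nd (.nd (.nd (.lf (.negSucc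
 (nat_lit 183207591536124695999))) .e) .e) .e) .e) .e)))) .e) .e) .e))) (.nd (.nd (.nd (.nd (.nd
 (.nd (.nd (.nd .e (.nd (.nd (.nd (.nd (.nd (.lf (.ofNat (nat_lit 351291397063798788576))) .e) .e)
 .e) .e) .e)) (.nd (.nd (.nd (.nd (.nd (.nd (.lf (.ofNat (nat_lit 379360262716943776512))) .e) .e)
 .e) .e) .e) .e)) (.nd (.nd (.nd (.nd (.nd (.nd (.nd (.lf (.ofNat (nat_lit
 261739710959394632352))) .e) .e) .e) .e) .e) (.nd (.nd (.nd (.nd (.nd (.lf (.negSucc (nat_lit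
 317185204993296217343))) .e) .e) .e) .e) .e)) (.nd (.nd (.nd (.nd (.nd (.nd (.lf (.ofNat (nat_lit
 6867011456163700416))) .e) .e) .e) .e) .e) .e))) .e) .e) .e) (.nd (.nd (.nd (.nd (.nd (.nd (.nd
 (.nd .e (.nd (.nd (.nd (.lf (.ofNat (nat_lit 11499472135953336000))) .e) .e) .e)) (.nd (.nd (.nd
 (.nd (.lf (.ofNat (nat_lit 50311996777987980000))) .e) .e) .e) .e)) (.nd (.nd (.nd (.nd (.nd (.lf
 (.ofNat (nat_lit 141208823389748718000))) .e) .e) .e) .e) (.nd (.nd (.nd (.nd (.lf (.negSucc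
 (nat_lit 197941374482042015999))) .e) .e) .e) .e))) (.nd (.nd (.nd (.nd (.nd (.nd (.lf (.ofNat
 (nat_lit 271061772940281204000))) .e) .e) .e) .e) (.nd (.nd (.nd (.nd (.lf (.negSucc (nat_lit
 79477878138807119999))) .e) .e) .e) .e)) (.nd (.nd (.nd (.nd (.nd (.lf (.negSucc (nat_lit
 241942928165985599999))) .e) .e) .e) .e) .e))) (.nd (.nd (.nd (.nd (.nd (.nd (.nd (.lf (.ofNat
 (nat_lit 229934623147942002000))) .e) .e) .e) .e) (.nd (.nd (.nd (.nd (.lf (.ofNat (nat_lit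
 74031874454311704000))) .e) .e) .e) .e)) (.nd (.nd (.nd (.nd (.nd (.lf (.ofNat (nat_lit
 59929052501942280000))) .e) .e) .e) .e) .e)) (.nd (.nd (.nd (.nd (.nd (.nd (.lf (.negSucc
 (nat_lit 184994091130835987999))) .e) .e) .e) .e) .e) (.nd (.nd (.nd (.nd (.nd (.lf (.negSucc
 (nat_lit 247520118567530639999))) .e) .e) .e) .e) .e)))) .e) .e) .e)) (.nd (.nd (.nd (.nd (.nd
 (.nd (.nd (.nd .e (.nd (.nd (.nd (.nd (.lf (.ofNat (nat_lit 10529189574096564000))) .e) .e) .e)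
 .e)) (.nd (.nd (.nd (.nd (.nd (.lf (.ofNat (nat_lit 12974838450195426000))) .e) .e) .e) .e) (.nd
 (.nd (.nd (.nd (.lf (.negSucc (nat_lit 28135294411313375999))) .e) .e) .e) .e))) (.nd (.nd (.nd
 (.nd (.nd (.nd (.lf (.ofNat (nat_lit 820692755972460000))) .e) .e) .e) .e) (.nd (.nd (.nd (.nd
 (.lf (.negSucc (nat_lit 6191101865154863999))) .e) .e) .e) .e)) (.nd (.nd (.nd (.nd (.nd (.lf
 (.negSucc (nat_lit 38247955263395135999))) .e) .e) .e) .e) .e))) (.nd (.nd (.nd (.nd (.nd (.nd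
 (.nd (.lf (.negSucc (nat_lit 25624219006147817999))) .e) .e) .e) .e) (.nd (.nd (.nd (.nd (.lf
 (.ofNat (nat_lit 19399313649814056000))) .e) .e) .e) .e)) (.nd (.nd (.nd (.nd (.nd (.lf (.ofNat
 (nat_lit 24927182181184248000))) .e) .e) .e) .e) .e)) (.nd (.nd (.nd (.nd (.nd (.nd (.lf
 (.negSucc (nat_lit 1353120174382283999))) .e) .e) .e) .e) .e) (.nd (.nd (.nd (.nd (.nd (.lf
 (.negSucc (nat_lit 30955509325774319999))) .e) .e) .e) .e) .e)))) .e) .e) .e) .e))) (.nd (.nd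
 (.nd (.nd (.nd (.nd (.nd (.nd .e (.nd (.nd (.nd (.nd (.nd (.nd (.lf (.ofNat (nat_lit
 19608296738707937856))) .e) .e) .e) .e) .e) .e)) (.nd (.nd (.nd (.nd (.nd (.nd (.nd (.lf (.ofNat
 (nat_lit 64675272380838368232))) .e) .e) .e) .e) .e) .e) (.nd (.nd (.nd (.nd (.nd (.nd (.lf
 (.negSucc (nat_lit 11308593908751749855))) .e) .e) .e) .e) .e) .e))) .e) .e) .e) .e) (.nd (.nd
 (.nd (.nd (.nd (.nd (.nd (.nd .e (.nd (.nd (.nd (.nd (.lf (.ofNat (nat_lit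
 16632649602416634240))) .e) .e) .e) .e)) (.nd (.nd (.nd (.nd (.nd (.lf (.ofNat (nat_lit
 108771885500977568160))) .e) .e) .e) .e) .e)) (.nd (.nd (.nd (.nd (.nd (.nd (.lf (.ofNat (nat_lit
 188463247378519353600))) .e) .e) .e) .e) (.nd (.nd (.nd (.nd (.lf (.negSucc (nat_lit
 34085695954183578239))) .e) .e) .e) .e)) (.nd (.nd (.nd (.nd (.nd (.lf (.negSucc (nat_lit
 197668269562958645759))) .e) .e) .e) .e) .e))) (.nd (.nd (.nd (.nd (.nd (.nd (.nd (.lf (.ofNat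
 (nat_lit 191023026652762953120))) .e) .e) .e) .e) (.nd (.nd (.nd (.nd (.lf (.ofNat (nat_lit
 108914153778976800960))) .e) .e) .e) .e)) (.nd (.nd (.nd (.nd (.nd (.lf (.negSucc (nat_lit
 97872371948458840319))) .e) .e) .e) .e) .e)) (.nd (.nd (.nd (.nd (.nd (.nd (.lf (.negSucc
 (nat_lit 78921781004262997439))) .e) .e) .e) .e) .e) (.nd (.nd (.nd (.nd (.nd (.lf (.negSucc
 (nat_lit 20559207644412931199))) .e) .e) .e) .e) .e)))) .e) .e) .e) (.nd (.nd (.nd (.nd (.nd (.nd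
 (.nd (.nd .e (.nd (.nd (.nd (.lf (.ofNat (nat_lit 6480140405618625600))) .e) .e) .e)) (.nd (.nd
 (.nd (.nd (.lf (.ofNat (nat_lit 15062476582048744800))) .e) .e) .e) .e)) (.nd (.nd (.nd (.nd (.nd
 (.lf (.ofNat (nat_lit 32892746482766305200))) .e) .e) .e) .e) (.nd (.nd (.nd (.nd (.lf (.negSucc
 (nat_lit 63146885694528787199))) .e) .e) .e) .e))) (.nd (.nd (.nd (.nd (.nd (.nd (.lf (.ofNat
 (nat_lit 51729860319839604000))) .e) .e) .e) .e) (.nd (.nd (.nd (.nd (.lf (.negSucc (nat_lit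
 6300796167965903999))) .e) .e) .e) .e)) (.nd (.nd (.nd (.nd (.nd (.lf (.negSucc (nat_lit
 88691054574235622399))) .e) .e) .e) .e) .e))) (.nd (.nd (.nd (.nd (.nd (.nd (.nd (.lf (.ofNat
 (nat_lit 49181027546524753200))) .e) .e) .e) .e) (.nd (.nd (.nd (.nd (.lf (.ofNat (nat_lit
 46554601662247089600))) .e) .e) .e) .e)) (.nd (.nd (.nd (.nd (.nd (.lf (.ofNat (nat_lit
 1683804918056846400))) .e) .e) .e) .e) .e)) (.nd (.nd (.nd (.nd (.nd (.nd (.lf (.negSucc (nat_lit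
 43092846809309383199))) .e) .e) .e) .e) .e) (.nd (.nd (.nd (.nd (.nd (.lf (.negSucc (nat_lit
 68040978772066319999))) .e) .e) .e) .e) .e)))) .e) .e) .e))) (.nd (.nd (.nd (.nd (.nd (.nd (.nd
 (.nd .e (.nd (.nd (.nd (.nd (.nd (.lf (.negSucc (nat_lit 227581127210425129279))) .e) .e) .e) .e)
 .e)) (.nd (.nd (.nd (.nd (.nd (.nd (.lf (.negSucc (nat_lit 483559639679011832319))) .e) .e) .e)
 .e) .e) (.nd (.nd (.nd (.nd (.nd (.lf (.negSucc (nat_lit 49677393005408409599))) .e) .e) .e) .e)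
 .e))) (.nd (.nd (.nd (.nd (.nd (.nd (.nd (.lf (.negSucc (nat_lit 418523629475719518399))) .e) .e)
 .e) .e) .e) (.nd (.nd (.nd (.nd (.nd (.lf (.ofNat (nat_lit 67257008561212108800))) .e) .e) .e)
 .e) .e)) (.nd (.nd (.nd (.nd (.nd (.nd (.lf (.ofNat (nat_lit 175692258407561097600))) .e) .e) .e)
 .e) .e) (.nd (.nd (.nd (.nd (.nd (.lf (.ofNat (nat_lit 212944764885717254400))) .e) .e) .e) .e)
 .e)))) .e) .e) .e) .e) (.nd (.nd (.nd (.nd (.nd (.nd (.nd (.nd .e (.nd (.nd (.nd (.nd (.lf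
 (.negSucc (nat_lit 12813379391792413823))) .e) .e) .e) .e)) (.nd (.nd (.nd (.nd (.nd (.lf
 (.negSucc (nat_lit 168332231595909210335))) .e) .e) .e) .e) (.nd (.nd (.nd (.nd (.lf (.negSucc
 (nat_lit 83646686325778271999))) .e) .e) .e) .e))) (.nd (.nd (.nd (.nd (.nd (.nd (.lf (.negSucc
 (nat_lit 166755046761736880639))) .e) .e) .e) .e) (.nd (.nd (.nd (.nd (.lf (.ofNat (nat_lit
 44561577646406100864))) .e) .e) .e) .e)) (.nd (.nd (.nd (.nd (.nd (.lf (.ofNat (nat_lit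
 209011850220848159232))) .e) .e) .e) .e) .e))) (.nd (.nd (.nd (.nd (.nd (.nd (.nd (.lf (.negSucc
 (nat_lit 18793117709498472479))) .e) .e) .e) .e) (.nd (.nd (.nd (.nd (.lf (.negSucc (nat_lit
 69787230619836299327))) .e) .e) .e) .e)) (.nd (.nd (.nd (.nd (.nd (.lf (.ofNat (nat_lit
 271286329530928082688))) .e) .e) .e) .e) .e)) (.nd (.nd (.nd (.nd (.nd (.nd (.lf (.negSucc
 (nat_lit 77962201243791853247))) .e) .e) .e) .e) .e) (.nd (.nd (.nd (.nd (.nd (.lf (.negSucc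
 (nat_lit 202425407782284247679))) .e) .e) .e) .e) .e)))) .e) .e) .e) .e)))))

end Pool.Agent.H58.BJ.D6
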