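import Pool.Agent.H58.BJ.D6.D
import Pool.Agent.H58.BJ.D6.U1

/-! # Certificate data (6 jets, exponent 28/25) -/

set_option autoImplicit false

namespace Pool.Agent.H58.BJ.D6

open Pool.Agent.H58.BJ

/-- rows of `G` -/
noncomputable def Y1 : List YRow := [([], [(nat_lit 1, .ofNat (nat_lit 1))], nat_lit 0, [.negSucc
 (nat_lit 1842689196423835), .ofNat (nat_lit 2670737799551911), .negSucc (nat_lit
 13295111753923577), .ofNat (nat_lit 440557188727307), .ofNat (nat_lit 5671401306488890), .ofNat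
 (nat_lit 364920291814208), .ofNat (nat_lit 121032223797644), .ofNat (nat_lit 4057087452297466),
 .ofNat (nat_lit 40799293645694), .negSucc (nat_lit 8187318130692095), .ofNat (nat_lit
 51223048694990), .ofNat (nat_lit 6022357900066), .negSucc (nat_lit 1216271555677439), .ofNat
 (nat_lit 503021129202), .negSucc (nat_lit 2441275194126482), .negSucc (nat_lit 97267796923),
 .ofNat (nat_lit 5526827765143), .ofNat (nat_lit 1133683933470), .ofNat (nat_lit 20570162496)]),
 ([nat_lit 0], [(nat_lit 1, .negSucc (nat_lit 1)), (nat_lit 2, .negSucc (nat_lit 3))], nat_lit 1,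
 [.negSucc (nat_lit 3563884230650787), .negSucc (nat_lit 1264430843285908), .ofNat (nat_lit 0),
 .negSucc (nat_lit 303436059445881), .ofNat (nat_lit 0), .negSucc (nat_lit 2775230289595373),
 .ofNat (nat_lit 4653003687034), .ofNat (nat_lit 0), .ofNat (nat_lit 42321539010449), .ofNat
 (nat_lit 0), .negSucc (nat_lit 29927474956229), .ofNat (nat_lit 2021687738377), .ofNat (nat_lit
 0), .ofNat (nat_lit 690856904230737), .ofNat (nat_lit 0), .negSucc (nat_lit 1356609652001),
 .ofNat (nat_lit 63519335421823), .negSucc (nat_lit 942305143531), .negSucc (nat_lit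
 67075788375)]), ([nat_lit 1], [(nat_lit 1, .ofNat (nat_lit 2)), (nat_lit 2, .ofNat (nat_lit 8)),
 (nat_lit 3, .negSucc (nat_lit 11)), (nat_lit 4, .ofNat (nat_lit 2))], nat_lit 2, [.ofNat (nat_lit
 12882040847729332), .ofNat (nat_lit 3387622901272198), .negSucc (nat_lit 662008635849232), .ofNat
 (nat_lit 539918778489776), .ofNat (nat_lit 1533317165883823), .negSucc (nat_lit 27652511541967),
 .ofNat (nat_lit 106290188319291), .ofNat (nat_lit 1615585756491915), .ofNat (nat_lit
 49283503330278), .negSucc (nat_lit 1768530400936001), .ofNat (nat_lit 22519609163477), .ofNat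
 (nat_lit 13014172901265), .ofNat (nat_lit 40159820925202), .ofNat (nat_lit 83749105964864),
 .negSucc (nat_lit 529770989325402), .negSucc (nat_lit 1743511913865), .ofNat (nat_lit
 8862593182517), .ofNat (nat_lit 2455079562466), .ofNat (nat_lit 243709790535)]), ([nat_lit 0,
 nat_lit 0], [(nat_lit 1, .ofNat (nat_lit 4)), (nat_lit 2, .ofNat (nat_lit 16)), (nat_lit 4,
 .ofNat (nat_lit 16))], nat_lit 2, [.ofNat (nat_lit 0), .ofNat (nat_lit 50161920688353), .ofNat
 (nat_lit 0), .ofNat (nat_lit 44714186659060), .ofNat (nat_lit 0), .ofNat (nat_lit 0), .negSucc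
 (nat_lit 24304719845952), .ofNat (nat_lit 0), .ofNat (nat_lit 0), .ofNat (nat_lit 0), .negSucc
 (nat_lit 83518161349463), .negSucc (nat_lit 4488872696666), .ofNat (nat_lit 0), .ofNat (nat_lit
 0), .ofNat (nat_lit 0), .ofNat (nat_lit 2506785510864), .ofNat (nat_lit 0), .negSucc (nat_lit
 1277813744016), .negSucc (nat_lit 113845504967)]), ([nat_lit 2], [(nat_lit 1, .negSucc (nat_lit
 1)), (nat_lit 2, .negSucc (nat_lit 11)), (nat_lit 3, .ofNat (nat_lit 36)), (nat_lit 4, .negSucc
 (nat_lit 5)), (nat_lit 5, .negSucc (nat_lit 23)), (nat_lit 6, .ofNat (nat_lit 0)), (nat_lit 8,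
 .negSucc (nat_lit 3))], nat_lit 3, [.ofNat (nat_lit 872241954387762), .ofNat (nat_lit
 125253857147918), .negSucc (nat_lit 1276560544947652), .negSucc (nat_lit 85747422823587), .ofNat
 (nat_lit 419909726839148), .negSucc (nat_lit 147243787790456), .ofNat (nat_lit 10415529043735),
 .ofNat (nat_lit 904654966573837), .negSucc (nat_lit 61302221498209), .negSucc (nat_lit
 935925887613344), .negSucc (nat_lit 18430644357197), .ofNat (nat_lit 7067589665487), .ofNat
 (nat_lit 97948492461655), .negSucc (nat_lit 8392665662863), .negSucc (nat_lit 260895547633401),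
 .negSucc (nat_lit 6021116427193), .negSucc (nat_lit 3227101600003), .ofNat (nat_lit
 1783206138329), .ofNat (nat_lit 224574957423)]), ([nat_lit 0, nat_lit 1], [(nat_lit 1, .negSucc
 (nat_lit 3)), (nat_lit 2, .negSucc (nat_lit 23)), (nat_lit 3, .ofNat (nat_lit 24)), (nat_lit 4,
 .negSucc (nat_lit 35)), (nat_lit 6, .ofNat (nat_lit 48)), (nat_lit 8, .negSucc (nat_lit 7))],
 nat_lit 3, [.negSucc (nat_lit 3886099904947826), .ofNat (nat_lit 2138039714714554), .negSucc
 (nat_lit 740847878323132), .ofNat (nat_lit 498210815427602), .ofNat (nat_lit 0), .negSucc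
 (nat_lit 83521037570252), .ofNat (nat_lit 41032143972644), .ofNat (nat_lit 0), .negSucc (nat_lit
 127187136772799), .ofNat (nat_lit 0), .ofNat (nat_lit 28496085435043), .negSucc (nat_lit
 4463770916038), .ofNat (nat_lit 0), .ofNat (nat_lit 77418833713405), .ofNat (nat_lit 0), .ofNat
 (nat_lit 9351096582080), .ofNat (nat_lit 9238808705137), .negSucc (nat_lit 2334148930901),
 .negSucc (nat_lit 180585091528)]), ([nat_lit 0, nat_lit 0, nat_lit 0], [(nat_lit 1, .negSucc
 (nat_lit 7)), (nat_lit 2, .negSucc (nat_lit 47)), (nat_lit 4, .negSucc (nat_lit 95)), (nat_lit 8,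
 .negSucc (nat_lit 63))], nat_lit 3, [.ofNat (nat_lit 0), .ofNat (nat_lit 0), .ofNat (nat_lit 0),
 .ofNat (nat_lit 22157258991494), .ofNat (nat_lit 0), .ofNat (nat_lit 0), .ofNat (nat_lit
 4254610838224), .ofNat (nat_lit 0), .ofNat (nat_lit 0), .ofNat (nat_lit 0), .ofNat (nat_lit 0),
 .negSucc (nat_lit 338721008738), .ofNat (nat_lit 0), .ofNat (nat_lit 0), .ofNat (nat_lit 0),
 .ofNat (nat_lit 0), .ofNat (nat_lit 0), .negSucc (nat_lit 1633812915860), .negSucc (nat_lit
 64500626586)]), ([nat_lit 3], [(nat_lit 1, .ofNat (nat_lit 2)), (nat_lit 2, .ofNat (nat_lit 16)),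
 (nat_lit 3, .negSucc (nat_lit 71)), (nat_lit 4, .ofNat (nat_lit 12)), (nat_lit 5, .ofNat (nat_lit
 96)), (nat_lit 6, .ofNat (nat_lit 0)), (nat_lit 7, .negSucc (nat_lit 39)), (nat_lit 8, .ofNat
 (nat_lit 16)), (nat_lit 9, .negSucc (nat_lit 11)), (nat_lit 10, .negSucc (nat_lit 7)), (nat_lit
 12, .negSucc (nat_lit 23)), (nat_lit 16, .ofNat (nat_lit 2))], nat_lit 4, [.negSucc (nat_lit
 7374467087977570), .negSucc (nat_lit 1212817967650840), .negSucc (nat_lit 2036136520719870),
 .negSucc (nat_lit 231420454315183), .negSucc (nat_lit 469784504060835), .negSucc (nat_lit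
 332013520982893), .negSucc (nat_lit 10678880045363), .ofNat (nat_lit 188572920696840), .negSucc
 (nat_lit 91485628181381), .negSucc (nat_lit 286114817243441), .negSucc (nat_lit 29824785187835),
 .ofNat (nat_lit 4413849144258), .ofNat (nat_lit 36851796816398), .negSucc (nat_lit
 9493146832492), .negSucc (nat_lit 68960679530078), .negSucc (nat_lit 6262149284990), .negSucc
 (nat_lit 4741363634119), .ofNat (nat_lit 1169705032734), .ofNat (nat_lit 166912781922)]),
 ([nat_lit 0, nat_lit 2], [(nat_lit 1, .ofNat (nat_lit 4)), (nat_lit 2, .ofNat (nat_lit 32)),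
 (nat_lit 3, .negSucc (nat_lit 71)), (nat_lit 4, .ofNat (nat_lit 60)), (nat_lit 5, .ofNat (nat_lit
 48)), (nat_lit 6, .negSucc (nat_lit 143)), (nat_lit 8, .ofNat (nat_lit 32)), (nat_lit 10, .ofNat
 (nat_lit 96)), (nat_lit 12, .ofNat (nat_lit 0)), (nat_lit 16, .ofNat (nat_lit 16))], nat_lit 4,
 [.ofNat (nat_lit 909293092557723), .ofNat (nat_lit 1017028068536199), .negSucc (nat_lit
 58738622696429), .ofNat (nat_lit 242145115118905), .ofNat (nat_lit 26057324346680), .ofNat
 (nat_lit 303713702914326), .ofNat (nat_lit 2588507168918), .ofNat (nat_lit 0), .ofNat (nat_lit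
 19692831620253), .ofNat (nat_lit 0), .ofNat (nat_lit 36749151698940), .negSucc (nat_lit
 7362177666158), .ofNat (nat_lit 0), .ofNat (nat_lit 13009485427648), .ofNat (nat_lit 0), .ofNat
 (nat_lit 8784341041045), .ofNat (nat_lit 1965127786704), .negSucc (nat_lit 2318831382301),
 .negSucc (nat_lit 221395657740)]), ([nat_lit 1, nat_lit 1], [(nat_lit 1, .ofNat (nat_lit 4)),
 (nat_lit 2, .ofNat (nat_lit 32)), (nat_lit 3, .negSucc (nat_lit 47)), (nat_lit 4, .ofNat (nat_lit
 72)), (nat_lit 6, .negSucc (nat_lit 191)), (nat_lit 8, .ofNat (nat_lit 32)), (nat_lit 9, .ofNat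
 (nat_lit 144)), (nat_lit 12, .negSucc (nat_lit 47)), (nat_lit 16, .ofNat (nat_lit 4))], nat_lit
 4, [.ofNat (nat_lit 8084843198376692), .ofNat (nat_lit 1771044305407956), .ofNat (nat_lit
 1516051090828078), .ofNat (nat_lit 265383157237859), .ofNat (nat_lit 570335694023917), .ofNat
 (nat_lit 146418123450667), .ofNat (nat_lit 32427804956338), .ofNat (nat_lit 125041464419965),
 .ofNat (nat_lit 11098525374111), .negSucc (nat_lit 15891933343721), .ofNat (nat_lit
 12646070593456), .ofNat (nat_lit 2192579405695), .ofNat (nat_lit 9486100015723), .ofNat (nat_lit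
 8020133144662), .negSucc (nat_lit 13418550666607), .ofNat (nat_lit 1650125905481), .ofNat
 (nat_lit 1049313055465), .negSucc (nat_lit 65841697869), .ofNat (nat_lit 79173888167)]),
 ([nat_lit 0, nat_lit 0, nat_lit 1], [(nat_lit 1, .ofNat (nat_lit 8)), (nat_lit 2, .ofNat (nat_lit
 64)), (nat_lit 3, .negSucc (nat_lit 47)), (nat_lit 4, .ofNat (nat_lit 168)), (nat_lit 6, .negSucc
 (nat_lit 191)), (nat_lit 8, .ofNat (nat_lit 160)), (nat_lit 12, .negSucc (nat_lit 191)), (nat_lit
 16, .ofNat (nat_lit 32))], nat_lit 4, [.ofNat (nat_lit 0), .negSucc (nat_lit 409353541105479),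
 .ofNat (nat_lit 0), .ofNat (nat_lit 22842211975436), .ofNat (nat_lit 0), .negSucc (nat_lit
 64266379609190), .ofNat (nat_lit 4318326722105), .ofNat (nat_lit 0), .ofNat (nat_lit 0), .ofNat
 (nat_lit 0), .negSucc (nat_lit 4889645754298), .negSucc (nat_lit 662267563466), .ofNat (nat_lit
 0), .ofNat (nat_lit 0), .ofNat (nat_lit 0), .negSucc (nat_lit 3145678612847), .ofNat (nat_lit 0),
 .negSucc (nat_lit 90636110460), .negSucc (nat_lit 140442211838)]), ([nat_lit 0, nat_lit 0,
 nat_lit 0, nat_lit 0], [(nat_lit 1, .ofNat (nat_lit 16)), (nat_lit 2, .ofNat (nat_lit 128)),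
 (nat_lit 4, .ofNat (nat_lit 384)), (nat_lit 8, .ofNat (nat_lit 512)), (nat_lit 16, .ofNat
 (nat_lit 256))], nat_lit 4, [.ofNat (nat_lit 0), .ofNat (nat_lit 0), .ofNat (nat_lit 0), .ofNat
 (nat_lit 0), .ofNat (nat_lit 0), .ofNat (nat_lit 0), .ofNat (nat_lit 1548387768605), .ofNat
 (nat_lit 0), .ofNat (nat_lit 0), .ofNat (nat_lit 0), .ofNat (nat_lit 0), .ofNat (nat_lit
 423417202623), .ofNat (nat_lit 0), .ofNat (nat_lit 0), .ofNat (nat_lit 0), .ofNat (nat_lit 0),
 .ofNat (nat_lit 0), .ofNat (nat_lit 0), .ofNat (nat_lit 35016610833)])]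

/-- the commands -/
noncomputable def C1 : List Cmd := [.g Y1]

theorem c_ok1 : okL 6 ES C1 = true := by decide +kernel

theorem t_ok1 : eqT (run (.ofNat (nat_lit 28)) (.ofNat (nat_lit 25)) XT DD C1 U0) U1 = true := by decide +kernel

end Pool.Agent.H58.BJ.D6
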